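import Pool.Agent.GPH.IIDefs

/-!
# GPH, part II: exact statements of the modules
-/

open scoped BigOperators Topology
open Metric Set

namespace Pool.Agent.GPH

noncomputable section

/-! ## Linear differential equations in the complex domain -/

/-- LODE: existence of solutions on star shaped open sets. -/
def Stmt_Lode : Prop := ∀ (κ : Type) [Fintype κ] (U : Set ℂ) (b : ℂ) (L : ℂ → Matrix κ κ ℂ),
  IsOpen U → b ∈ U → StarConvex ℝ b U → HolM U L → ∀ y0 : κ → ℂ,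
    ∃ y : ℂ → κ → ℂ, y b = y0 ∧ Sol U L y

/-- UNIQ: uniqueness on preconnected open sets. -/
def Stmt_Uniq : Prop := ∀ (κ : Type) [Fintype κ] (U : Set ℂ) (L : ℂ → Matrix κ κ ℂ),
  IsOpen U → IsPreconnected U → HolM U L → ∀ y : ℂ → κ → ℂ, Sol U L y →
    ∀ p ∈ U, y p = 0 → ∀ s ∈ U, y s = 0

/-- GEOB: choice of the base point. -/
def Stmt_GeoB : Prop := ∀ (p : ℕ) (S : Fin p → ℂ), Function.Injective S →
  ∀ (b0 : ℂ) (ρ : ℝ), 0 < ρ → ∃ b ∈ ball b0 ρ, GenPos b S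

/-- GEOC: the cut plane is open and star shaped. -/
def Stmt_GeoC : Prop := ∀ (p : ℕ) (S : Fin p → ℂ) (b : ℂ), (∀ i, S i ≠ b) →
  IsOpen (Cut b S) ∧ b ∈ Cut b S ∧ StarConvex ℝ b (Cut b S) ∧ (∀ z ∈ Cut b S, ∀ i, z ≠ S i)

/-- FROB: gauge transformation to the normal form at a simple pole. -/
def Stmt_Frob : Prop := ∀ (m : ℕ) (R : Matrix (Fin m) (Fin m) ℂ), R * R = 0 →
  ∀ (r : ℝ) (B : ℂ → Matrix (Fin m) (Fin m) ℂ), 0 < r → HolM (ball 0 r) B →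
  ∃ (r' : ℝ) (H : ℂ → Matrix (Fin m) (Fin m) ℂ), 0 < r' ∧ r' ≤ r ∧ HolM (ball 0 r') H ∧
    H 0 = 1 ∧ (∀ t ∈ ball (0 : ℂ) r', (H t).det ≠ 0) ∧
    ∀ t ∈ ball (0 : ℂ) r', t ≠ 0 → ∀ k l, HasDerivAt (fun z => H z k l)
      ((t⁻¹ • (R * H t - H t * R) + B t * H t) k l) t

/-- EXT: a solution on the cut plane which is single valued near every point `S i` extends to
the whole plane. -/
def Stmt_Ext : Prop := ∀ (p : ℕ) (S : Fin p → ℂ) (b : ℂ), GenPos b S →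
  ∀ (κ : Type) [Fintype κ] (L : ℂ → Matrix κ κ ℂ), HolM (Off S) L →
  ∀ y : ℂ → κ → ℂ, Sol (Cut b S) L y →
  (∀ i, ∃ (r : ℝ) (h : ℂ → κ → ℂ), 0 < r ∧
    (∀ k, DifferentiableOn ℂ (fun z => h z k) (ball (S i) r)) ∧
    ∀ s ∈ ball (S i) r, s ∈ Cut b S → h s = y s) →
  ∃ Y : ℂ → κ → ℂ, (∀ k, Differentiable ℂ (fun z => Y z k)) ∧ (∀ s ∈ Cut b S, Y s = y s) ∧
    Sol (Off S) L Y

/-- GROW: an entire horizontal endomorphism is constant. -/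
def Stmt_Grow : Prop := ∀ (m p : ℕ) (N : Matrix (Fin m) (Fin m) ℂ) (S : Fin p → ℂ)
  (x : Fin p → Fin m → ℂ), Fuchs N S x → ∀ Y : ℂ → Matrix (Fin m) (Fin m) ℂ,
  (∀ i j, Differentiable ℂ (fun z => Y z i j)) →
  (∀ s ∈ Off S, ∀ i j, HasDerivAt (fun z => Y z i j)
    ((Bf N S x s * Y s - Y s * Bf N S x s) i j) s) → ∀ s, Y s = Y 0

/-! ## The fundamental matrix and its local forms -/

/-- FUND -/
def Stmt_Fund : Prop := ∀ (m p : ℕ) (N : Matrix (Fin m) (Fin m) ℂ) (S : Fin p → ℂ)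
  (x : Fin p → Fin m → ℂ), Fuchs N S x → ∀ b : ℂ, (∀ i, S i ≠ b) → ∃ Φ, Fund N S x b Φ

/-- LOCF -/
def Stmt_Locf : Prop := ∀ (m p : ℕ) (N : Matrix (Fin m) (Fin m) ℂ) (S : Fin p → ℂ)
  (x : Fin p → Fin m → ℂ), Fuchs N S x → ∀ b : ℂ, GenPos b S → ∀ Φ, Fund N S x b Φ →
  ∀ i, ∃ v, LocForm N S b Φ i v

/-- COMMS: the commutant of the local monodromies is scalar. -/
def Stmt_CommS : Prop := ∀ (m p : ℕ) (N : Matrix (Fin m) (Fin m) ℂ) (S : Fin p → ℂ)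
  (x : Fin p → Fin m → ℂ), Fuchs N S x → ∀ b : ℂ, GenPos b S → ∀ Φ, Fund N S x b Φ →
  ∀ v : Fin p → Fin m → ℂ, (∀ i, LocForm N S b Φ i (v i)) →
  ∀ Z : Matrix (Fin m) (Fin m) ℂ, (∀ i, Z * res N (v i) = res N (v i) * Z) →
    ∃ c : ℂ, Z = c • 1

/-- SHIFT: polynomial relations are invariant under the unipotent local monodromies. -/
def Stmt_Shift : Prop := ∀ (m p : ℕ) (N : Matrix (Fin m) (Fin m) ℂ) (S : Fin p → ℂ)
  (x : Fin p → Fin m → ℂ), Fuchs N S x → ∀ b : ℂ, GenPos b S → ∀ Φ, Fund N S x b Φ →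
  ∀ (i : Fin p) (v : Fin m → ℂ), LocForm N S b Φ i v →
  ∀ (ι : Type) [Fintype ι] (P : MvPolynomial (Option (Fin m × ι)) ℂ) (h : Matrix (Fin m) ι ℂ),
    (∀ s ∈ Cut b S, MvPolynomial.eval (HGP.opt s (fun q => (Φ s * h) q.1 q.2)) P = 0) →
    ∀ c : ℂ, ∀ s ∈ Cut b S,
      MvPolynomial.eval (HGP.opt s (fun q => (Φ s * (((1 : Matrix (Fin m) (Fin m) ℂ) +
        c • res N v) * h) : Matrix (Fin m) ι ℂ) q.1 q.2)) P = 0

/-! ## Groups generated by transvections -/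

/-- GRPA: transitivity. -/
def Stmt_GrpA : Prop := ∀ (m p : ℕ) (N : Matrix (Fin m) (Fin m) ℂ) (v : Fin p → Fin m → ℂ),
  N.transpose = -N → N.det ≠ 0 →
  (∀ Z : Matrix (Fin m) (Fin m) ℂ, (∀ i, Z * res N (v i) = res N (v i) * Z) →
    ∃ c : ℂ, Z = c • 1) →
  ∀ x y : Fin m → ℂ, x ≠ 0 → y ≠ 0 → ∃ h ∈ Submonoid.closure (TV N v), h.mulVec x = y

/-- GRPB: the isometries of `N` are products of transvections. -/
def Stmt_GrpB : Prop := ∀ (g : ℕ) (N : Matrix (Fin (2 * g)) (Fin (2 * g)) ℂ)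
  (W : Matrix (Fin (2 * g)) (HGP.Ix g) ℂ) (lam : ℂ), lam ≠ 0 →
  W.transpose * N * W = lam • Matrix.J (Fin g) ℂ →
  ∀ h : Matrix (Fin (2 * g)) (Fin (2 * g)) ℂ, h.transpose * N * h = N →
    h ∈ Submonoid.closure {M | ∃ (v : Fin (2 * g) → ℂ) (c : ℂ), M = 1 + c • res N v}

/-- GRP -/
def Stmt_Grp : Prop := ∀ (g p : ℕ) (N : Matrix (Fin (2 * g)) (Fin (2 * g)) ℂ)
  (W : Matrix (Fin (2 * g)) (HGP.Ix g) ℂ) (lam : ℂ) (v : Fin p → Fin (2 * g) → ℂ), 0 < g →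
  lam ≠ 0 → N.transpose = -N → N.det ≠ 0 →
  W.transpose * N * W = lam • Matrix.J (Fin g) ℂ →
  (∀ Z : Matrix (Fin (2 * g)) (Fin (2 * g)) ℂ, (∀ i, Z * res N (v i) = res N (v i) * Z) →
    ∃ c : ℂ, Z = c • 1) →
  ∀ h : Matrix (Fin (2 * g)) (Fin (2 * g)) ℂ, h.transpose * N * h = N →
    h ∈ Submonoid.closure (TV N v)

/-! ## Relations hold on the whole torsor -/

/-- THMF: Fuchsian systems. -/
def Stmt_ThmF : Prop := ∀ (g p : ℕ) (N : Matrix (Fin (2 * g)) (Fin (2 * g)) ℂ)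
  (S : Fin p → ℂ) (x : Fin p → Fin (2 * g) → ℂ), 0 < g → Fuchs N S x →
  ∀ lam : ℂ, lam ≠ 0 → ∀ (b0 : ℂ) (ρ : ℝ), 0 < ρ → (∀ s ∈ ball b0 ρ, ∀ i, s ≠ S i) →
  ∀ W : ℂ → Matrix (Fin (2 * g)) (HGP.Ix g) ℂ, MSol (ball b0 ρ) (Bf N S x) W →
  (∀ s ∈ ball b0 ρ, (W s).transpose * N * W s = lam • Matrix.J (Fin g) ℂ) →
  ∀ P : MvPolynomial (Option (Fin (2 * g) × HGP.Ix g)) ℂ,
    (∀ s ∈ ball b0 ρ, MvPolynomial.eval (HGP.opt s (fun q => W s q.1 q.2)) P = 0) →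
  ∀ (s : ℂ) (M : Matrix (Fin (2 * g)) (HGP.Ix g) ℂ),
    M.transpose * N * M = lam • Matrix.J (Fin g) ℂ →
    MvPolynomial.eval (HGP.opt s (fun q => M q.1 q.2)) P = 0

/-- OKU: an Okubo system is a Fuchsian system. -/
def Stmt_Oku : Prop := ∀ (m : ℕ) (A E N : Matrix (Fin m) (Fin m) ℂ), Okubo A E N →
  ∃ (S : Fin m → ℂ) (x : Fin m → Fin m → ℂ), Fuchs N S x ∧
    (∀ s, (s • (1 : Matrix (Fin m) (Fin m) ℂ) + A).det ≠ 0 ↔ ∀ i, s ≠ S i) ∧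
    ∀ s, (∀ i, s ≠ S i) → Bf N S x s = (s • (1 : Matrix (Fin m) (Fin m) ℂ) + A)⁻¹ * E

/-- HOR: the Legendre relation on a ball implies that `N` is horizontal. -/
def Stmt_Hor : Prop := ∀ (g : ℕ) (A E N : Matrix (Fin (2 * g)) (Fin (2 * g)) ℂ) (lam : ℂ),
  lam ≠ 0 → ∀ (b0 : ℂ) (ρ : ℝ), 0 < ρ →
  (∀ s ∈ ball b0 ρ, (s • (1 : Matrix (Fin (2 * g)) (Fin (2 * g)) ℂ) + A).det ≠ 0) →
  ∀ W W' : ℂ → Matrix (Fin (2 * g)) (HGP.Ix g) ℂ,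
  (∀ s ∈ ball b0 ρ, ∀ k j, HasDerivAt (fun z => W z k j) (W' s k j) s) →
  (∀ s ∈ ball b0 ρ, (s • (1 : Matrix (Fin (2 * g)) (Fin (2 * g)) ℂ) + A) * W' s = E * W s) →
  (∀ s ∈ ball b0 ρ, (W s).transpose * N * W s = lam • Matrix.J (Fin g) ℂ) →
  N.transpose = -N ∧ N.det ≠ 0 ∧
  ∀ s : ℂ, (s • (1 : Matrix (Fin (2 * g)) (Fin (2 * g)) ℂ) + A).det ≠ 0 →
    ((s • (1 : Matrix (Fin (2 * g)) (Fin (2 * g)) ℂ) + A)⁻¹ * E).transpose * N +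
      N * ((s • (1 : Matrix (Fin (2 * g)) (Fin (2 * g)) ℂ) + A)⁻¹ * E) = 0

/-! ## The slices `f = f₀ + s` -/

/-- CDID: the division identities behind the system `J' (s + Cop c) = J Dop c` for the rows
`J = (∫ x ^ k dx / y)`. -/
def Stmt_CDid : Prop := ∀ (m : ℕ) (c : Fin m → ℂ) (k : Fin m), ∃ u : Polynomial ℂ,
  Polynomial.X ^ (k : ℕ) * f0 c = u * Polynomial.derivative (f0 c) +
    ∑ l : Fin m, Polynomial.C (Cop c l k) * Polynomial.X ^ (l : ℕ) ∧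
  ∑ l : Fin m, Polynomial.C (Dop c l k) * Polynomial.X ^ (l : ℕ) =
    Polynomial.derivative u - Polynomial.C (1 / 2) * Polynomial.X ^ (k : ℕ)

/-- CDMAP: compatibility with ring homomorphisms. -/
def Stmt_CDmap : Prop := ∀ (R R' : Type) [CommRing R] [CommRing R'] [Algebra ℚ R] [Algebra ℚ R']
  (φ : R →+* R') (m : ℕ) (c : Fin m → R),
  Cop (fun k => φ (c k)) = (Cop c).map φ ∧ Dop (fun k => φ (c k)) = (Dop c).map φ ∧
    P2 (fun k => φ (c k)) = φ (P2 c)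

/-- DTRI: `Dop c` is upper triangular. -/
def Stmt_DTri : Prop := ∀ (m : ℕ) (c : Fin m → ℂ), (∀ l k, k < l → Dop c l k = 0) ∧
  ∀ k, Dop c k k = ((k : ℕ) + 1 : ℂ) / ((m : ℂ) + 1) - 1 / 2

/-- CEIG: if `P2 c ≠ 0` then `Cop c` has distinct eigenvalues. -/
def Stmt_CEig : Prop := ∀ (m : ℕ) (c : Fin m → ℂ), P2 c ≠ 0 →
  ∃ (κ : Fin m → ℂ) (P : Matrix (Fin m) (Fin m) ℂ), Function.Injective κ ∧ P.det ≠ 0 ∧
    (Cop c).transpose * P = P * Matrix.diagonal κ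

/-- CDET: the singular points of the slice. -/
def Stmt_CDet : Prop := ∀ (m : ℕ) (c : Fin m → ℂ) (s : ℂ),
  (s • (1 : Matrix (Fin m) (Fin m) ℂ) + Cop c).det ≠ 0 ↔ (f0 c + Polynomial.C s).Separable

/-- CCOM: the commutant. -/
def Stmt_CCom : Prop := ∀ (m : ℕ) (c : Fin m → ℂ), P2 c ≠ 0 →
  ∀ Z : Matrix (Fin m) (Fin m) ℂ, Z * (Cop c).transpose = (Cop c).transpose * Z →
    Z * (Dop c).transpose = (Dop c).transpose * Z → ∃ a : ℂ, Z = a • 1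

/-- P2NZ: `P2` is a nonzero polynomial. -/
def Stmt_P2nz : Prop := ∀ m : ℕ, P2 (fun k : Fin m => (MvPolynomial.X k : MvPolynomial (Fin m) ℚ)) ≠ 0

/-- FIBH: polynomial relations between `s` and the periods of the curves `y² = f₀ + s` hold on
the whole torsor. -/
def Stmt_FibH : Prop := ∀ (g : ℕ) (c : Fin (2 * g) → ℂ), 0 < g → P2 c ≠ 0 →
  ∀ (N : Matrix (Fin (2 * g)) (Fin (2 * g)) ℂ) (lam : ℂ), lam ≠ 0 →
  ∀ (b0 : ℂ) (ρ : ℝ), 0 < ρ →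
  (∀ s ∈ ball b0 ρ, (f0 c + Polynomial.C s).Separable) →
  ∀ W W' : ℂ → Matrix (Fin (2 * g)) (HGP.Ix g) ℂ,
  (∀ s ∈ ball b0 ρ, ∀ k j, HasDerivAt (fun z => W z k j) (W' s k j) s) →
  (∀ s ∈ ball b0 ρ, (s • (1 : Matrix (Fin (2 * g)) (Fin (2 * g)) ℂ) + (Cop c).transpose) * W' s =
    (Dop c).transpose * W s) →
  (∀ s ∈ ball b0 ρ, (W s).transpose * N * W s = lam • Matrix.J (Fin g) ℂ) →
  ∀ P : MvPolynomial (Option (Fin (2 * g) × HGP.Ix g)) ℂ,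
    (∀ s ∈ ball b0 ρ, MvPolynomial.eval (HGP.opt s (fun q => W s q.1 q.2)) P = 0) →
  ∀ (s : ℂ) (M : Matrix (Fin (2 * g)) (HGP.Ix g) ℂ),
    M.transpose * N * M = lam • Matrix.J (Fin g) ℂ →
    MvPolynomial.eval (HGP.opt s (fun q => M q.1 q.2)) P = 0

end

end Pool.Agent.GPH
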