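import Pool.Agent.GPH.VStmts
import Pool.Agent.GPH.IIStmts

/-!
# GPH, part V: the modules which connect all parts
-/

open scoped BigOperators Topology
open Metric Set
open Pool.Agent.HGP (Ix Simil Idx fvec opt)

namespace Pool.Agent.GPH

noncomputable section

/-- FIBERZ: relations between `s` and the period matrix on a slice hold on the whole torsor. -/
def Stmt_FiberZ : Prop := ∀ (g : ℕ), 0 < g → ∀ u : Fin (2 * g) → ℂ, P2 u ≠ 0 →
  ∀ (κ s0 : ℂ) (R : ℝ) (z : ℕ → ℂ → ℂ), 0 < R → (∀ i, DifferentiableOn ℂ (z i) (ball s0 R)) →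
  (∀ s ∈ ball s0 R, Ord (2 * g + 1) κ (fun i => z i s) ∧
    fus g u s = polz g (fun i => z i s)) →
  ∀ P : MvPolynomial (Option (Ix g × Ix g)) ℂ,
    (∀ s ∈ ball s0 R, MvPolynomial.eval
      (opt s (fun p => Mz g (fun i => z i s) p.1 p.2)) P = 0) →
    ∀ (s : ℂ) (M' : Matrix (Ix g) (Ix g) ℂ), Simil (2 * Real.pi * Complex.I) M' →
      MvPolynomial.eval (opt s (fun p => M' p.1 p.2)) P = 0

/-- PIECE: pieces exist at all good points. -/
def Stmt_PieceEx : Prop := ∀ (g : ℕ), 0 < g → ∀ (u0 : Fin (2 * g) → ℂ) (s0 : ℂ), P2 u0 ≠ 0 →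
  (fus g u0 s0).Separable → ∃ π : Piece g, π.u0 = u0 ∧ π.s0 = s0

/-- P2W: the polynomial `x ^ (m + 1) - (m + 1) x` has distinct critical values. -/
def Stmt_P2w : Prop := ∀ m : ℕ, 0 < m →
  P2 (fun k : Fin m => if (k : ℕ) = 0 then -((m : ℚ) + 1) else 0) ≠ 0

/-- GG: a nonzero polynomial which detects the good points of the family with `c_(2 g) = 0`. -/
def Stmt_GG : Prop := ∀ (g : ℕ), 0 < g → ∃ G : MvPolynomial (Fin (2 * g)) ℝ, G ≠ 0 ∧
  ∀ c : Fin (2 * g) → ℝ, MvPolynomial.eval c G ≠ 0 →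
    P2 (fun i : Fin (2 * g) => if h : (i : ℕ) + 1 < 2 * g then ((c ⟨i + 1, h⟩ : ℝ) : ℂ) else 0)
      ≠ 0 ∧
    (pol (2 * g + 1) (fun i : Fin (2 * g + 1) =>
      if h : (i : ℕ) < 2 * g then ((c ⟨i, h⟩ : ℝ) : ℂ) else 0)).Separable

end

end Pool.Agent.GPH
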