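import Pool.Agent.GPH.VStmts
import Pool.Agent.HGP.GENB
import Pool.Agent.HGP.PATH

/-!
# GPH, module LAG
-/

open scoped BigOperators Topology
open Matrix
open Pool.Agent.HGP (Ix Simil tv)

namespace Pool.Agent.GPH.LAG

variable {g : ℕ}

/-- The integral symplectic matrices. -/
def IsInt (K : Matrix (Ix g) (Ix g) ℂ) : Prop :=
  Simil 1 K ∧ ∃ L : Matrix (Ix g) (Ix g) ℤ, K = L.map (fun x : ℤ => (x : ℂ))

lemma isInt_one : IsInt (1 : Matrix (Ix g) (Ix g) ℂ) := by
  refine ⟨by unfold Simil; simp, 1, ?_⟩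
  ext i j
  by_cases h : i = j
  · subst h; simp
  · simp [Matrix.one_apply_ne h]

lemma isInt_mul {K L : Matrix (Ix g) (Ix g) ℂ} (hK : IsInt K) (hL : IsInt L) :
    IsInt (K * L) := by
  refine ⟨HGP.PATH_.simil_mul hK.1 hL.1, ?_⟩
  obtain ⟨K', rfl⟩ := hK.2
  obtain ⟨L', rfl⟩ := hL.2
  refine ⟨K' * L', ?_⟩
  ext i j
  simp [Matrix.mul_apply]

lemma isInt_tv (v : Ix g → ℤ) (c : ℤ) : IsInt (tv (fun i => (v i : ℂ)) (c : ℂ)) := by
  refine ⟨HGP.PATH_.simil_tv _ _,
    1 + Matrix.of fun i j => c * (v i * (Matrix.J (Fin g) ℤ).mulVec v j), ?_⟩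
  have hJ : (Matrix.J (Fin g) ℂ).mulVec (fun i => (v i : ℂ)) =
      fun i => (((Matrix.J (Fin g) ℤ).mulVec v i : ℤ) : ℂ) := by
    funext i
    rcases i with i | i
    · simp [Matrix.J, Matrix.mulVec, dotProduct, Matrix.one_apply]
    · simp [Matrix.J, Matrix.mulVec, dotProduct, Matrix.one_apply]
  unfold tv
  rw [hJ]
  ext i j
  by_cases h : i = j
  · subst h; simp [Matrix.vecMulVec_apply]
  · simp [Matrix.vecMulVec_apply, Matrix.one_apply_ne h]

/-- The generic transvection. -/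
noncomputable def gtv (g : ℕ) : Matrix (Ix g) (Ix g) (MvPolynomial (Option (Ix g)) ℂ) :=
  1 + (MvPolynomial.X none : MvPolynomial (Option (Ix g)) ℂ) •
    Matrix.vecMulVec (fun i => MvPolynomial.X (some i))
      ((Matrix.J (Fin g) (MvPolynomial (Option (Ix g)) ℂ)).mulVec
        (fun i => MvPolynomial.X (some i)))

lemma eval_gtv (x : Option (Ix g) → ℂ) :
    (MvPolynomial.eval x).mapMatrix (gtv g) = tv (fun i => x (some i)) (x none) := by
  have hJ : ∀ i, MvPolynomial.eval x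
      ((Matrix.J (Fin g) (MvPolynomial (Option (Ix g)) ℂ)).mulVec
        (fun i => MvPolynomial.X (some i)) i) =
      (Matrix.J (Fin g) ℂ).mulVec (fun i => x (some i)) i := by
    intro i
    rcases i with i | i
    · simp [Matrix.J, Matrix.mulVec, dotProduct, Matrix.one_apply]
    · simp [Matrix.J, Matrix.mulVec, dotProduct, Matrix.one_apply]
  unfold gtv tv
  rw [map_add, map_one]
  congr 1
  ext i j
  simp only [RingHom.mapMatrix_apply, Matrix.map_apply, Matrix.smul_apply,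
    Matrix.vecMulVec_apply, smul_eq_mul, map_mul, MvPolynomial.eval_X, hJ]

/-- The determinant of the first block of `M T K`, `T` the generic transvection. -/
noncomputable def dpol (M K : Matrix (Ix g) (Ix g) ℂ) : MvPolynomial (Option (Ix g)) ℂ :=
  (M.map MvPolynomial.C * gtv g * K.map MvPolynomial.C).toBlocks₁₁.det

lemma eval_dpol (M K : Matrix (Ix g) (Ix g) ℂ) (x : Option (Ix g) → ℂ) :
    MvPolynomial.eval x (dpol M K) =
      (M * tv (fun i => x (some i)) (x none) * K).toBlocks₁₁.det := by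
  have hC : ∀ N : Matrix (Ix g) (Ix g) ℂ, (MvPolynomial.eval x).mapMatrix
      (N.map (MvPolynomial.C : ℂ →+* MvPolynomial (Option (Ix g)) ℂ)) = N := by
    intro N
    ext i j
    simp
  unfold dpol
  rw [RingHom.map_det]
  congr 1
  have h : (MvPolynomial.eval x).mapMatrix
      (M.map MvPolynomial.C * gtv g * K.map MvPolynomial.C) =
      M * tv (fun i => x (some i)) (x none) * K := by
    rw [map_mul, map_mul, eval_gtv, hC, hC]
  rw [← h]
  rfl

lemma exists_int (M K : Matrix (Ix g) (Ix g) ℂ) (v : Ix g → ℂ) (c : ℂ)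
    (h : (M * tv v c * K).toBlocks₁₁.det ≠ 0) :
    ∃ (w : Ix g → ℤ) (d : ℤ), (M * tv (fun i => (w i : ℂ)) (d : ℂ) * K).toBlocks₁₁.det ≠ 0 := by
  by_contra hcon
  push Not at hcon
  have h0 : dpol M K = 0 := by
    refine MvPolynomial.funext_set (fun _ => Set.range (fun n : ℤ => (n : ℂ))) ?_ ?_
    · intro _
      exact Set.infinite_range_of_injective Int.cast_injective
    · intro x hx
      rw [map_zero, eval_dpol]
      have hx' : ∀ o, ∃ n : ℤ, (n : ℂ) = x o := fun o => hx o (Set.mem_univ _)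
      choose n hn using hx'
      have h1 := hcon (fun i => n (some i)) (n none)
      simp only [hn] at h1
      exact h1
  apply h
  have h2 := eval_dpol M K (fun o => o.elim c v)
  rw [h0, map_zero] at h2
  exact h2.symm

lemma main {N : Matrix (Ix g) (Ix g) ℂ} (hN : N ∈ Submonoid.closure
    {N : Matrix (Ix g) (Ix g) ℂ | ∃ (v : Ix g → ℂ) (c : ℂ), N = tv v c}) :
    ∀ M K : Matrix (Ix g) (Ix g) ℂ, IsInt K → (M * N * K).toBlocks₁₁.det ≠ 0 →
      ∃ K' : Matrix (Ix g) (Ix g) ℂ, IsInt K' ∧ (M * K').toBlocks₁₁.det ≠ 0 := by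
  induction hN using Submonoid.closure_induction with
  | mem x hx =>
    obtain ⟨v, c, rfl⟩ := hx
    intro M K hK h
    obtain ⟨w, d, hwd⟩ := exists_int M K v c h
    refine ⟨tv (fun i => (w i : ℂ)) (d : ℂ) * K, isInt_mul (isInt_tv w d) hK, ?_⟩
    rw [← Matrix.mul_assoc]
    exact hwd
  | one =>
    intro M K hK h
    rw [mul_one] at h
    exact ⟨K, hK, h⟩
  | mul x y _ _ hx hy =>
    intro M K hK h
    obtain ⟨K', hK', h'⟩ := hy (M * x) K hK (by rwa [Matrix.mul_assoc M x y])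
    exact hx M K' hK' h'

theorem thm : Stmt_Lag := by
  intro g M lam hlam hM
  set Dm : Matrix (Ix g) (Ix g) ℂ := fromBlocks 1 0 0 (lam • 1) with hD
  have hDD : Dmᵀ * J (Fin g) ℂ * Dm = lam • J (Fin g) ℂ := by
    rw [hD, Matrix.J, Matrix.fromBlocks_transpose, Matrix.fromBlocks_multiply,
      Matrix.fromBlocks_multiply, Matrix.fromBlocks_smul]
    simp
  set W : Matrix (Ix g) (Ix g) ℂ := (-lam⁻¹) • (J (Fin g) ℂ * Mᵀ * J (Fin g) ℂ) with hW
  have hM' : Mᵀ * J (Fin g) ℂ * M = lam • J (Fin g) ℂ := hM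
  have hWM : W * M = 1 := by
    calc W * M = (-lam⁻¹) • (J (Fin g) ℂ * (Mᵀ * J (Fin g) ℂ * M)) := by
          rw [hW, Matrix.smul_mul]; simp only [Matrix.mul_assoc]
      _ = 1 := by
          rw [hM', Matrix.mul_smul, Matrix.J_squared, smul_smul, neg_mul, inv_mul_cancel₀ hlam]
          simp
  have hMW : M * W = 1 := mul_eq_one_comm.mp hWM
  clear_value W
  have hWW : Wᵀ * J (Fin g) ℂ * W = lam⁻¹ • J (Fin g) ℂ := by
    have h1 : Wᵀ * (Mᵀ * J (Fin g) ℂ * M) * W = J (Fin g) ℂ := by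
      calc Wᵀ * (Mᵀ * J (Fin g) ℂ * M) * W = (M * W)ᵀ * J (Fin g) ℂ * (M * W) := by
            rw [Matrix.transpose_mul]; simp only [Matrix.mul_assoc]
        _ = J (Fin g) ℂ := by rw [hMW]; simp
    rw [hM', Matrix.mul_smul, Matrix.smul_mul] at h1
    have h2 := congrArg (fun A => lam⁻¹ • A) h1
    simp only [smul_smul, inv_mul_cancel₀ hlam, one_smul] at h2
    exact h2
  have hN : Simil 1 (W * Dm) := by
    unfold Simil
    calc (W * Dm)ᵀ * J (Fin g) ℂ * (W * Dm) = Dmᵀ * (Wᵀ * J (Fin g) ℂ * W) * Dm := by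
          rw [Matrix.transpose_mul]; simp only [Matrix.mul_assoc]
      _ = lam⁻¹ • (Dmᵀ * J (Fin g) ℂ * Dm) := by
          rw [hWW, Matrix.mul_smul, Matrix.smul_mul]
      _ = (1 : ℂ) • J (Fin g) ℂ := by
          rw [hDD, smul_smul, inv_mul_cancel₀ hlam]
  obtain ⟨K', ⟨hs, L, rfl⟩, hK'⟩ := main (HGP.genb_proof g _ hN) M 1 isInt_one (by
    rw [mul_one, ← Matrix.mul_assoc, hMW, one_mul, hD, Matrix.toBlocks_fromBlocks₁₁]
    simp)
  exact ⟨L, hs, hK'⟩

end Pool.Agent.GPH.LAG
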