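import Pool.Agent.GPH.VStmts2

/-!
# PIECE: pieces exist at all good points
-/

open scoped BigOperators Topology
open Metric Set
open Pool.Agent.HGP (Ix Simil Idx fvec opt)

namespace Pool.Agent.GPH.PIECE

noncomputable section

/-- The substitution `M ↦ M * h`. -/
def sub {g : ℕ} (h : Matrix (Ix g) (Ix g) ℂ) :
    Option (Ix g × Ix g) → MvPolynomial (Option (Ix g × Ix g)) ℂ
  | none => MvPolynomial.X none
  | some p => ∑ j, MvPolynomial.X (some (p.1, j)) * MvPolynomial.C (h j p.2)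

lemma eval_sub {g : ℕ} (h M : Matrix (Ix g) (Ix g) ℂ) (t : ℂ)
    (P : MvPolynomial (Option (Ix g × Ix g)) ℂ) :
    MvPolynomial.eval (opt t (fun p => M p.1 p.2)) (MvPolynomial.bind₁ (sub h) P) =
      MvPolynomial.eval (opt t (fun p => (M * h) p.1 p.2)) P := by
  have h1 := MvPolynomial.aeval_bind₁ (opt t (fun p : Ix g × Ix g => M p.1 p.2)) (sub h) P
  have h2 : (fun i => (MvPolynomial.aeval (opt t (fun p : Ix g × Ix g => M p.1 p.2))) (sub h i)) =
      opt t (fun p => (M * h) p.1 p.2) := by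
    funext o
    cases o with
    | none => simp [sub, opt]
    | some p =>
      simp [sub, opt, Matrix.mul_apply]
  rw [h2] at h1
  simpa [MvPolynomial.coe_aeval_eq_eval] using h1

/-- The integral matrix inverse to a symplectic matrix. -/
def Kinv {g : ℕ} (K : Matrix (Ix g) (Ix g) ℤ) : Matrix (Ix g) (Ix g) ℤ :=
  -(Matrix.J (Fin g) ℤ * K.transpose * Matrix.J (Fin g) ℤ)

lemma J_map (g : ℕ) : (Matrix.J (Fin g) ℤ).map (fun x : ℤ => (x : ℂ)) =
    Matrix.J (Fin g) ℂ := by
  unfold Matrix.J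
  rw [Matrix.fromBlocks_map]
  congr 1
  · ext i j; simp
  · ext i j
    simp only [Matrix.map_apply, Matrix.neg_apply, Int.cast_neg]
    by_cases h : i = j
    · subst h; simp
    · simp [Matrix.one_apply_ne h]
  · ext i j
    simp only [Matrix.map_apply]
    by_cases h : i = j
    · subst h; simp
    · simp [Matrix.one_apply_ne h]
  · ext i j; simp

lemma Kinv_map {g : ℕ} (K : Matrix (Ix g) (Ix g) ℤ) :
    (Kinv K).map (fun x : ℤ => (x : ℂ)) =
      -(Matrix.J (Fin g) ℂ * (K.map (fun x : ℤ => (x : ℂ))).transpose * Matrix.J (Fin g) ℂ) := by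
  have h1 : ∀ A B : Matrix (Ix g) (Ix g) ℤ, (A * B).map (fun x : ℤ => (x : ℂ)) =
      A.map (fun x : ℤ => (x : ℂ)) * B.map (fun x : ℤ => (x : ℂ)) := by
    intro A B
    exact Matrix.map_mul (f := Int.castRingHom ℂ)
  unfold Kinv
  have h2 : ∀ A : Matrix (Ix g) (Ix g) ℤ, (-A).map (fun x : ℤ => (x : ℂ)) =
      -(A.map (fun x : ℤ => (x : ℂ))) := by
    intro A
    ext i j
    simp
  rw [h2, h1, h1, J_map, Matrix.transpose_map]

lemma inv_spec {g : ℕ} (K : Matrix (Ix g) (Ix g) ℤ)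
    (hK : Simil 1 (K.map (fun x : ℤ => (x : ℂ)))) :
    K.map (fun x : ℤ => (x : ℂ)) * (Kinv K).map (fun x : ℤ => (x : ℂ)) = 1 ∧
      Simil 1 ((Kinv K).map (fun x : ℤ => (x : ℂ))) := by
  set A := K.map (fun x : ℤ => (x : ℂ)) with hA
  set B := (Kinv K).map (fun x : ℤ => (x : ℂ)) with hB
  have hJJ : Matrix.J (Fin g) ℂ * Matrix.J (Fin g) ℂ = -1 := Matrix.J_squared _ _
  unfold Simil at hK
  rw [one_smul] at hK
  have hBA : B * A = 1 := by
    rw [hB, Kinv_map, ← hA, Matrix.neg_mul, Matrix.mul_assoc, Matrix.mul_assoc,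
      ← Matrix.mul_assoc A.transpose, hK, hJJ, neg_neg]
  have hAB : A * B = 1 := mul_eq_one_comm.1 hBA
  refine ⟨hAB, ?_⟩
  unfold Simil
  rw [one_smul]
  calc B.transpose * Matrix.J (Fin g) ℂ * B =
      B.transpose * (A.transpose * Matrix.J (Fin g) ℂ * A) * B := by rw [hK]
    _ = (A * B).transpose * Matrix.J (Fin g) ℂ * (A * B) := by
        rw [Matrix.transpose_mul]
        simp only [Matrix.mul_assoc]
    _ = Matrix.J (Fin g) ℂ := by
        rw [hAB, Matrix.transpose_one, Matrix.one_mul, Matrix.mul_one]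

lemma simil_mul {g : ℕ} {lam : ℂ} {M K : Matrix (Ix g) (Ix g) ℂ} (hM : Simil lam M)
    (hK : Simil 1 K) : Simil lam (M * K) := by
  unfold Simil at *
  rw [one_smul] at hK
  calc (M * K).transpose * Matrix.J (Fin g) ℂ * (M * K) =
      K.transpose * (M.transpose * Matrix.J (Fin g) ℂ * M) * K := by
        rw [Matrix.transpose_mul]
        simp only [Matrix.mul_assoc]
    _ = lam • Matrix.J (Fin g) ℂ := by
        rw [hM, Matrix.mul_smul, Matrix.smul_mul, hK]

lemma P2_continuous (hCD : Stmt_CDmap) (m : ℕ) :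
    Continuous (fun u : Fin m → ℂ => P2 u) := by
  have h : ∀ u : Fin m → ℂ, P2 u = MvPolynomial.eval u
      (P2 (fun k : Fin m => (MvPolynomial.X k : MvPolynomial (Fin m) ℂ))) := by
    intro u
    have h1 := (hCD (MvPolynomial (Fin m) ℂ) ℂ (MvPolynomial.eval u) m
      (fun k : Fin m => (MvPolynomial.X k : MvPolynomial (Fin m) ℂ))).2.2
    rw [← h1]
    congr 1
    funext k
    simp
  rw [show (fun u : Fin m → ℂ => P2 u) = fun u => MvPolynomial.eval u
      (P2 (fun k : Fin m => (MvPolynomial.X k : MvPolynomial (Fin m) ℂ))) from funext h]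
  exact MvPolynomial.continuous_eval _

theorem thm (hLR : Stmt_LocRoots) (hMH : Stmt_MzHol) (hRZ : Stmt_RZ) (hLM : Stmt_LoopM)
    (hFZ : Stmt_FiberZ) (hLag : Stmt_Lag) (hCD : Stmt_CDmap) : Stmt_PieceEx := by
  intro g hg u0 s0 hP2 hsep
  obtain ⟨δ0, R0, κ, z, hδ0, hR0, hzc, hzd, hz⟩ := hLR g u0 s0 hsep
  have hpi : (2 * Real.pi * Complex.I : ℂ) ≠ 0 := by
    simp [Real.pi_ne_zero, Complex.I_ne_zero]
  have hmem0 : u0 ∈ closedBall u0 δ0 := mem_closedBall_self hδ0.le
  have hmem0' : s0 ∈ ball s0 R0 := mem_ball_self hR0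
  have hsim0 := hRZ g κ (fun i => z i u0 s0) hg (hz u0 hmem0 s0 hmem0').1
  obtain ⟨K, hK, hKdet⟩ := hLag g (Mz g (fun i => z i u0 s0)) _ hpi hsim0
  obtain ⟨hKK, hKi⟩ := inv_spec K hK
  set A := K.map (fun x : ℤ => (x : ℂ)) with hA
  set B := (Kinv K).map (fun x : ℤ => (x : ℂ)) with hB
  set S0 : Set ((Fin (2 * g) → ℂ) × ℂ) := closedBall u0 δ0 ×ˢ ball s0 R0 with hS0
  have hcontM : ContinuousOn (fun q : (Fin (2 * g) → ℂ) × ℂ =>
      Mz g (fun i => z i q.1 q.2) * A) S0 := by
    have h1 := (hMH g κ hg).1 ((Fin (2 * g) → ℂ) × ℂ) S0 (fun i q => z i q.1 q.2) hzc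
      (fun q hq => (hz q.1 hq.1 q.2 hq.2).1)
    exact (continuous_id.matrix_mul continuous_const).comp_continuousOn h1
  have hcontdet : ContinuousOn (fun q : (Fin (2 * g) → ℂ) × ℂ =>
      (Mz g (fun i => z i q.1 q.2) * A).toBlocks₁₁.det) S0 := by
    have h2 : Continuous (fun M : Matrix (Ix g) (Ix g) ℂ => M.toBlocks₁₁.det) := by
      apply Continuous.matrix_det
      apply continuous_matrix
      intro i j
      exact (continuous_apply_apply (Sum.inl i) (Sum.inl j) :
        Continuous (fun M : Ix g → Ix g → ℂ => M (Sum.inl i) (Sum.inl j)))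
    exact h2.comp_continuousOn hcontM
  have hS0n : S0 ∈ 𝓝 (u0, s0) :=
    prod_mem_nhds (closedBall_mem_nhds _ hδ0) (ball_mem_nhds _ hR0)
  have hev1 : ∀ᶠ q in 𝓝 (u0, s0),
      (Mz g (fun i => z i q.1 q.2) * A).toBlocks₁₁.det ≠ 0 :=
    (hcontdet.continuousAt hS0n).eventually_ne hKdet
  have hev2 : ∀ᶠ q : (Fin (2 * g) → ℂ) × ℂ in 𝓝 (u0, s0), P2 q.1 ≠ 0 :=
    (((P2_continuous hCD (2 * g)).comp continuous_fst).continuousAt).eventually_ne hP2
  obtain ⟨ε, hε, hball⟩ := Metric.eventually_nhds_iff_ball.1 ((hev1.and hev2).and hS0n)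
  have hin : ∀ u ∈ closedBall u0 (ε / 2), ∀ s ∈ ball s0 (10 * (ε / 20)),
      (u, s) ∈ ball (u0, s0) ε := by
    intro u hu s hs
    rw [mem_closedBall] at hu
    rw [mem_ball] at hs ⊢
    rw [Prod.dist_eq]
    apply max_lt
    · simp only
      linarith
    · simp only
      linarith
  refine ⟨{ u0 := u0, s0 := s0, δ := ε / 2, ρ := ε / 20,
            M := fun u s => Mz g (fun i => z i u s) * A,
            hδ := by positivity, hρ := by positivity,
            cont := ?_, hol := ?_, simil := ?_, det := ?_, fiber := ?_, loops := ?_ },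
    rfl, rfl⟩
  · apply hcontM.mono
    rintro ⟨u, s⟩ ⟨hu, hs⟩
    exact (hball _ (hin u hu s hs)).2
  · intro u hu k c
    have hu0 : u ∈ closedBall u0 δ0 :=
      (hball _ (hin u hu s0 (mem_ball_self (by positivity)))).2.1
    have hsub : ball s0 (10 * (ε / 20)) ⊆ ball s0 R0 := by
      intro s hs
      exact (hball _ (hin u hu s hs)).2.2
    have h1 := (hMH g κ hg).2 (ball s0 (10 * (ε / 20))) (fun i s => z i u s) isOpen_ball
      (fun i => (hzd i u hu0).mono hsub) (fun s hs => (hz u hu0 s (hsub hs)).1)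
    have h2 : (fun s => (Mz g (fun i => z i u s) * A) k c) =
        fun s => ∑ j, Mz g (fun i => z i u s) k j * A j c := by
      funext s
      rw [Matrix.mul_apply]
    rw [h2]
    apply DifferentiableOn.fun_sum
    intro j _
    exact (h1 k j).mul_const _
  · intro u hu s hs
    have hm := (hball _ (hin u hu s hs)).2
    exact simil_mul (hRZ g κ (fun i => z i u s) hg (hz u hm.1 s hm.2).1) hK
  · intro u hu s hs
    exact (hball _ (hin u hu s hs)).1.1
  · intro u hu P hP s hs M' hM'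
    have hu0 : u ∈ closedBall u0 δ0 :=
      (hball _ (hin u hu s0 (mem_ball_self (by positivity)))).2.1
    have hP2u : P2 u ≠ 0 := (hball _ (hin u hu s hs)).1.2
    have hsub : ball s0 (10 * (ε / 20)) ⊆ ball s0 R0 := by
      intro s hs
      exact (hball _ (hin u hu s hs)).2.2
    have h1 := hFZ g hg u hP2u κ s0 (10 * (ε / 20)) (fun i s => z i u s) (by positivity)
      (fun i => (hzd i u hu0).mono hsub) (fun s hs => hz u hu0 s (hsub hs))
      (MvPolynomial.bind₁ (sub A) P) (by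
        intro s hs
        rw [eval_sub]
        exact hP s hs) s (M' * B) (simil_mul hM' hKi)
    rw [eval_sub, Matrix.mul_assoc] at h1
    have hBA : B * A = 1 := mul_eq_one_comm.1 hKK
    rw [hBA, Matrix.mul_one] at h1
    exact h1
  · intro u hu s hs
    have hm := (hball _ (hin u hu s hs)).2
    obtain ⟨hord, hfus⟩ := hz u hm.1 s hm.2
    rw [hfus]
    intro γ
    obtain ⟨L, hL⟩ := hLM g κ (fun i => z i u s) hg hord γ
    refine ⟨(Kinv K).mulVec L, ?_⟩
    intro k
    rw [hL k]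
    have h1 : ∀ c, (((Kinv K).mulVec L c : ℤ) : ℂ) = B.mulVec (fun c => (L c : ℂ)) c := by
      intro c
      rw [Matrix.mulVec, Matrix.mulVec, dotProduct, dotProduct]
      push_cast
      rfl
    have h2 : ∑ c, (Mz g (fun i => z i u s) * A) k c * (((Kinv K).mulVec L c : ℤ) : ℂ) =
        (Mz g (fun i => z i u s) * A).mulVec (B.mulVec (fun c => (L c : ℂ))) k := by
      rw [Matrix.mulVec, dotProduct]
      exact Finset.sum_congr rfl (fun c _ => by rw [h1 c])
    rw [h2, Matrix.mulVec_mulVec, Matrix.mul_assoc, hKK, Matrix.mul_one]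
    rfl

end

end Pool.Agent.GPH.PIECE
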