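import Pool.Agent.GPH.IIStmts

/-!
# GRP: the isometry group is generated by the transvections
-/

open scoped BigOperators Topology
open Metric Set

namespace Pool.Agent.GPH

namespace Grp_

variable {m : ℕ} {N : Matrix (Fin m) (Fin m) ℂ}

lemma anti_apply (hN : N.transpose = -N) (i j : Fin m) : N i j = - N j i := by
  have := congrFun (congrFun hN j) i
  rw [Matrix.transpose_apply, Matrix.neg_apply] at this
  exact this

lemma dot_self (hN : N.transpose = -N) (x : Fin m → ℂ) : N.mulVec x ⬝ᵥ x = 0 := by
  have h1 : N.mulVec x ⬝ᵥ x = - (N.mulVec x ⬝ᵥ x) := by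
    nth_rewrite 1 [dotProduct_comm]
    rw [Matrix.dotProduct_mulVec, ← Matrix.mulVec_transpose, hN, Matrix.neg_mulVec,
      neg_dotProduct]
  have h2 : (2 : ℂ) * (N.mulVec x ⬝ᵥ x) = 0 := by linear_combination h1
  rcases mul_eq_zero.1 h2 with h | h
  · norm_num at h
  · exact h

lemma res_sq (hN : N.transpose = -N) (x : Fin m → ℂ) : res N x * res N x = 0 := by
  ext i j
  unfold res
  rw [Matrix.mul_apply, Matrix.zero_apply]
  have : ∑ k, Matrix.vecMulVec x (N.mulVec x) i k * Matrix.vecMulVec x (N.mulVec x) k j =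
      x i * N.mulVec x j * (N.mulVec x ⬝ᵥ x) := by
    rw [dotProduct, Finset.mul_sum]
    refine Finset.sum_congr rfl ?_
    intro k _
    rw [Matrix.vecMulVec_apply, Matrix.vecMulVec_apply]
    ring
  rw [this, dot_self hN, mul_zero]

lemma res_conj {t : Matrix (Fin m) (Fin m) ℂ} (ht : t.transpose * N * t = N)
    (x : Fin m → ℂ) : res N (t.mulVec x) * t = t * res N x := by
  have h1 : ∀ l, ∑ k, N.mulVec (t.mulVec x) k * t k l = N.mulVec x l := by
    intro l
    have h2 : (t.transpose * N * t).mulVec x l = N.mulVec x l := by rw [ht]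
    rw [← h2, ← Matrix.mulVec_mulVec, ← Matrix.mulVec_mulVec]
    rw [Matrix.mulVec, dotProduct]
    refine Finset.sum_congr rfl ?_
    intro k _
    rw [Matrix.transpose_apply]
    ring
  ext i j
  unfold res
  rw [Matrix.mul_apply, Matrix.mul_apply]
  calc ∑ k, Matrix.vecMulVec (t.mulVec x) (N.mulVec (t.mulVec x)) i k * t k j =
      t.mulVec x i * ∑ k, N.mulVec (t.mulVec x) k * t k j := by
        rw [Finset.mul_sum]
        refine Finset.sum_congr rfl ?_
        intro k _
        rw [Matrix.vecMulVec_apply]
        ring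
    _ = t.mulVec x i * N.mulVec x j := by rw [h1]
    _ = ∑ k, t i k * Matrix.vecMulVec x (N.mulVec x) k j := by
        rw [Matrix.mulVec, dotProduct, Finset.sum_mul]
        refine Finset.sum_congr rfl ?_
        intro k _
        rw [Matrix.vecMulVec_apply]
        ring

lemma res_horiz (hN : N.transpose = -N) (x : Fin m → ℂ) :
    (res N x).transpose * N + N * res N x = 0 := by
  ext i j
  rw [Matrix.add_apply, Matrix.mul_apply, Matrix.mul_apply, Matrix.zero_apply]
  unfold res
  have h1 : ∑ k, (Matrix.vecMulVec x (N.mulVec x)).transpose i k * N k j =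
      - (N.mulVec x i * N.mulVec x j) := by
    rw [show N.mulVec x i * N.mulVec x j = N.mulVec x i * ∑ k, N j k * x k from rfl,
      Finset.mul_sum, ← Finset.sum_neg_distrib]
    refine Finset.sum_congr rfl ?_
    intro k _
    rw [Matrix.transpose_apply, Matrix.vecMulVec_apply, anti_apply hN k j]
    ring
  have h2 : ∑ k, N i k * Matrix.vecMulVec x (N.mulVec x) k j =
      N.mulVec x i * N.mulVec x j := by
    have : N.mulVec x i = ∑ k, N i k * x k := rfl
    rw [this, Finset.sum_mul]
    refine Finset.sum_congr rfl ?_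
    intro k _
    rw [Matrix.vecMulVec_apply]
    ring
  rw [h1, h2]
  ring

lemma tv_isom (hN : N.transpose = -N) (x : Fin m → ℂ) (c : ℂ) :
    (1 + c • res N x).transpose * N * (1 + c • res N x) = N := by
  have h1 : (res N x).transpose * N = -(N * res N x) :=
    eq_neg_of_add_eq_zero_left (res_horiz hN x)
  rw [Matrix.transpose_add, Matrix.transpose_one, Matrix.transpose_smul, Matrix.add_mul,
    Matrix.one_mul, Matrix.smul_mul, h1, Matrix.mul_add, Matrix.mul_one, Matrix.add_mul,
    Matrix.smul_mul, Matrix.neg_mul, Matrix.mul_smul, Matrix.mul_smul, Matrix.mul_assoc,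
    res_sq hN, Matrix.mul_zero]
  simp

lemma tv_inv (hN : N.transpose = -N) (x : Fin m → ℂ) (c : ℂ) :
    (1 + c • res N x) * (1 + (-c) • res N x) = 1 := by
  rw [Matrix.mul_add, Matrix.mul_one, Matrix.mul_smul, Matrix.add_mul, Matrix.one_mul,
    Matrix.smul_mul, res_sq hN]
  simp

lemma closure_isom {p : ℕ} (hN : N.transpose = -N) (v : Fin p → Fin m → ℂ)
    (t : Matrix (Fin m) (Fin m) ℂ) (ht : t ∈ Submonoid.closure (TV N v)) :
    t.transpose * N * t = N := by
  induction ht using Submonoid.closure_induction with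
  | mem x hx =>
    obtain ⟨i, c, rfl⟩ := hx
    exact tv_isom hN (v i) c
  | one => simp
  | mul x y _ _ hx hy =>
    calc (x * y).transpose * N * (x * y) = y.transpose * (x.transpose * N * x) * y := by
          rw [Matrix.transpose_mul]
          simp only [Matrix.mul_assoc]
      _ = N := by rw [hx, hy]

lemma closure_inv {p : ℕ} (hN : N.transpose = -N) (v : Fin p → Fin m → ℂ)
    (t : Matrix (Fin m) (Fin m) ℂ) (ht : t ∈ Submonoid.closure (TV N v)) :
    ∃ t' ∈ Submonoid.closure (TV N v), t * t' = 1 := by
  induction ht using Submonoid.closure_induction with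
  | mem x hx =>
    obtain ⟨i, c, rfl⟩ := hx
    exact ⟨_, Submonoid.subset_closure ⟨i, -c, rfl⟩, tv_inv hN (v i) c⟩
  | one => exact ⟨1, Submonoid.one_mem _, one_mul 1⟩
  | mul x y _ _ hx hy =>
    obtain ⟨x', hx', hxx⟩ := hx
    obtain ⟨y', hy', hyy⟩ := hy
    refine ⟨y' * x', Submonoid.mul_mem _ hy' hx', ?_⟩
    calc x * y * (y' * x') = x * (y * y') * x' := by simp only [Matrix.mul_assoc]
      _ = 1 := by rw [hyy, Matrix.mul_one, hxx]

end Grp_

open Grp_ in
theorem grp_proof (hA : Stmt_GrpA) (hB : Stmt_GrpB) : Stmt_Grp := by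
  intro g p N W lam v hg hlam hN hd hW hcomm h hh
  have h1 := hB g N W lam hlam hW h hh
  revert h1
  have key : {M : Matrix (Fin (2 * g)) (Fin (2 * g)) ℂ |
      ∃ (v : Fin (2 * g) → ℂ) (c : ℂ), M = 1 + c • res N v} ⊆
      (Submonoid.closure (TV N v) : Set (Matrix (Fin (2 * g)) (Fin (2 * g)) ℂ)) := by
    rintro M ⟨w, c, rfl⟩
    by_cases hw : w = 0
    · have : res N w = 0 := by
        rw [hw]
        unfold res
        ext i j
        simp [Matrix.vecMulVec_apply]
      rw [this, smul_zero, add_zero]
      exact Submonoid.one_mem _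
    · -- some `v i ≠ 0`
      have hex : ∃ i, v i ≠ 0 := by
        by_contra hall
        push Not at hall
        have hres : ∀ i, res N (v i) = 0 := by
          intro i
          rw [hall i]
          unfold res
          ext k l
          simp [Matrix.vecMulVec_apply]
        have i0 : Fin (2 * g) := ⟨0, by omega⟩
        obtain ⟨c', hc'⟩ := hcomm (Matrix.single (⟨0, by omega⟩ : Fin (2 * g))
          (⟨1, by omega⟩ : Fin (2 * g)) 1) (by
            intro i
            rw [hres i, Matrix.mul_zero, Matrix.zero_mul])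
        have h2 := congrFun (congrFun hc' (⟨0, by omega⟩ : Fin (2 * g)))
          (⟨1, by omega⟩ : Fin (2 * g))
        rw [Matrix.single_apply_same, Matrix.smul_apply, Matrix.one_apply_ne (by
          intro he
          have := congrArg Fin.val he
          simp at this), smul_zero] at h2
        exact one_ne_zero h2
      obtain ⟨i, hi⟩ := hex
      obtain ⟨t, ht, htw⟩ := hA (2 * g) p N v hN hd hcomm (v i) w hi hw
      obtain ⟨t', ht', htt⟩ := closure_inv hN v t ht
      have hiso := closure_isom hN v t ht
      have heq : 1 + c • res N w = t * (1 + c • res N (v i)) * t' := by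
        rw [← htw, Matrix.mul_add, Matrix.mul_one, Matrix.add_mul, htt, Matrix.mul_smul,
          ← res_conj hiso (v i), Matrix.smul_mul, Matrix.mul_assoc, htt, Matrix.mul_one]
      rw [heq]
      exact Submonoid.mul_mem _ (Submonoid.mul_mem _ ht
        (Submonoid.subset_closure ⟨i, c, rfl⟩)) ht'
  intro h1
  exact (Submonoid.closure_le.2 key) h1

end Pool.Agent.GPH
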