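import Pool.Agent.GPH.IIStmts

open scoped BigOperators Topology
open Metric Set

namespace Pool.Agent.GPH

namespace GrpB_

/-- A matrix with `Wᵀ N W = lam J` has a two sided inverse. -/
lemma exists_inv {g : ℕ} {N : Matrix (Fin (2 * g)) (Fin (2 * g)) ℂ}
    {W : Matrix (Fin (2 * g)) (HGP.Ix g) ℂ} {lam : ℂ} (hl : lam ≠ 0)
    (h : W.transpose * N * W = lam • Matrix.J (Fin g) ℂ) :
    ∃ V : Matrix (HGP.Ix g) (Fin (2 * g)) ℂ, V * W = 1 ∧ W * V = 1 := by
  have hJ : Matrix.J (Fin g) ℂ * Matrix.J (Fin g) ℂ = -1 := Matrix.J_squared _ _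
  have h1 : (-(lam⁻¹) • (Matrix.J (Fin g) ℂ * (W.transpose * N))) * W = 1 := by
    rw [Matrix.smul_mul, Matrix.mul_assoc, h, Matrix.mul_smul, smul_smul, hJ]
    rw [neg_mul, inv_mul_cancel₀ hl]
    simp
  refine ⟨_, h1, ?_⟩
  have hc : Fintype.card (Fin (2 * g)) = Fintype.card (HGP.Ix g) := by
    simp [HGP.Ix, two_mul]
  exact (Matrix.mul_eq_one_comm_of_card_eq (HGP.Ix g) (Fin (2 * g)) ℂ hc.symm).1 h1

end GrpB_

open GrpB_ in
theorem grpb_proof (hGenB : HGP.Stmt_GenB) : Stmt_GrpB := by
  intro g N W lam hl hW h hh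
  obtain ⟨V, hVW, hWV⟩ := exists_inv hl hW
  have hVtWt : V.transpose * W.transpose = 1 := by
    rw [← Matrix.transpose_mul, hWV, Matrix.transpose_one]
  have hN : N = V.transpose * (lam • Matrix.J (Fin g) ℂ) * V := by
    rw [← hW]
    have : V.transpose * (W.transpose * N * W) * V =
        (V.transpose * W.transpose) * N * (W * V) := by
      simp only [Matrix.mul_assoc]
    rw [this, hWV, hVtWt]
    simp
  have hNW : N * W = lam • (V.transpose * Matrix.J (Fin g) ℂ) := by
    rw [hN, Matrix.mul_assoc, hVW, Matrix.mul_one, Matrix.mul_smul]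
  -- the conjugate
  have hs : HGP.Simil 1 (V * h * W) := by
    unfold HGP.Simil
    have h1 : lam • ((V * h * W).transpose * Matrix.J (Fin g) ℂ * (V * h * W)) =
        W.transpose * (h.transpose * N * h) * W := by
      rw [hN, Matrix.transpose_mul, Matrix.transpose_mul]
      simp only [Matrix.mul_assoc, Matrix.mul_smul, Matrix.smul_mul]
    rw [hh, hW] at h1
    have h2 := congrArg (fun M => lam⁻¹ • M) h1
    simp only [smul_smul, inv_mul_cancel₀ hl, one_smul] at h2
    rw [h2, one_smul]
  have hmem := hGenB g (V * h * W) hs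
  have key : ∀ M ∈ Submonoid.closure {N : Matrix (HGP.Ix g) (HGP.Ix g) ℂ |
      ∃ (v : HGP.Ix g → ℂ) (c : ℂ), N = HGP.tv v c},
      W * M * V ∈ Submonoid.closure {M : Matrix (Fin (2 * g)) (Fin (2 * g)) ℂ |
        ∃ (v : Fin (2 * g) → ℂ) (c : ℂ), M = 1 + c • res N v} := by
    intro M hM
    induction hM using Submonoid.closure_induction with
    | mem x hx =>
      obtain ⟨v, c, rfl⟩ := hx
      refine Submonoid.subset_closure ⟨W.mulVec v, c * lam⁻¹, ?_⟩
      unfold HGP.tv res
      rw [Matrix.mul_add, Matrix.add_mul, Matrix.mul_one, hWV]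
      congr 1
      rw [Matrix.mul_smul, Matrix.smul_mul, Matrix.mul_vecMulVec, Matrix.vecMulVec_mul,
        Matrix.mulVec_mulVec, hNW, mul_smul]
      congr 1
      rw [Matrix.smul_mulVec, ← Matrix.mulVec_mulVec, Matrix.vecMulVec_smul, smul_smul,
        inv_mul_cancel₀ hl, one_smul, Matrix.mulVec_transpose]
    | one => rw [Matrix.mul_one, hWV]; exact Submonoid.one_mem _
    | mul x y _ _ hx hy =>
      have : W * (x * y) * V = (W * x * V) * (W * y * V) := by
        calc W * (x * y) * V = W * x * (V * W) * y * V := by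
              rw [hVW, Matrix.mul_one]
              simp only [Matrix.mul_assoc]
          _ = (W * x * V) * (W * y * V) := by simp only [Matrix.mul_assoc]
      rw [this]
      exact Submonoid.mul_mem _ hx hy
  have h3 := key _ hmem
  have h4 : W * (V * h * W) * V = h := by
    calc W * (V * h * W) * V = (W * V) * h * (W * V) := by simp only [Matrix.mul_assoc]
      _ = h := by rw [hWV]; simp
  rwa [h4] at h3

end Pool.Agent.GPH
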