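import Pool.Agent.GPH.IIStmts

/-!
# GPH, part II, module GRPA: transitivity of the group generated by transvections
-/

open scoped BigOperators Topology
open Metric Set

namespace Pool.Agent.GPH

namespace GrpaAux

/-- The bilinear form `(x, y) ↦ (N x) ⬝ y`. -/
def B {m : ℕ} (N : Matrix (Fin m) (Fin m) ℂ) (x y : Fin m → ℂ) : ℂ := dotProduct (N.mulVec x) y

section

variable {m p : ℕ} {N : Matrix (Fin m) (Fin m) ℂ} {v : Fin p → Fin m → ℂ}

theorem B_add (x y z : Fin m → ℂ) : B N x (y + z) = B N x y + B N x z := by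
  unfold B
  rw [dotProduct_add]

theorem B_smul (c : ℂ) (x y : Fin m → ℂ) : B N x (c • y) = c * B N x y := by
  unfold B
  rw [dotProduct_smul, smul_eq_mul]

theorem B_zero (x : Fin m → ℂ) : B N x 0 = 0 := by
  unfold B
  rw [dotProduct_zero]

theorem B_anti (hN : N.transpose = -N) (x y : Fin m → ℂ) : B N x y = - B N y x := by
  unfold B
  rw [dotProduct_comm (N.mulVec x) y, Matrix.dotProduct_mulVec, ← Matrix.mulVec_transpose, hN,
    Matrix.neg_mulVec, neg_dotProduct]

theorem B_self (hN : N.transpose = -N) (x : Fin m → ℂ) : B N x x = 0 := by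
  have h := B_anti hN x x
  have h2 : (2 : ℂ) * B N x x = 0 := by linear_combination h
  rcases mul_eq_zero.mp h2 with h3 | h3
  · norm_num at h3
  · exact h3

theorem B_nondeg (hN : N.transpose = -N) (hd : N.det ≠ 0) (y : Fin m → ℂ)
    (h : ∀ x, B N x y = 0) : y = 0 := by
  have h1 : N.mulVec y = 0 := by
    apply dotProduct_eq_zero
    intro w
    have := B_anti hN y w
    rw [h w, neg_zero] at this
    exact this
  by_contra hy
  exact hd (Matrix.exists_mulVec_eq_zero_iff.mp ⟨y, hy, h1⟩)

theorem res_mulVec (x y : Fin m → ℂ) : (res N x).mulVec y = B N x y • x := by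
  unfold res B
  rw [Matrix.vecMulVec_mulVec, op_smul_eq_smul]

theorem res_mul_self (hN : N.transpose = -N) (x : Fin m → ℂ) : res N x * res N x = 0 := by
  unfold res
  rw [Matrix.vecMulVec_mul_vecMulVec]
  have : dotProduct (N.mulVec x) x = 0 := B_self hN x
  rw [this]
  simp

/-- Reachability. -/
def Reach (N : Matrix (Fin m) (Fin m) ℂ) (v : Fin p → Fin m → ℂ) (x y : Fin m → ℂ) : Prop :=
  ∃ h ∈ Submonoid.closure (TV N v), h.mulVec x = y

theorem Reach.rfl' (x : Fin m → ℂ) : Reach N v x x := ⟨1, Submonoid.one_mem _, Matrix.one_mulVec x⟩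

theorem Reach.trans {x y z : Fin m → ℂ} (h1 : Reach N v x y) (h2 : Reach N v y z) :
    Reach N v x z := by
  obtain ⟨a, ha, hax⟩ := h1
  obtain ⟨b, hb, hby⟩ := h2
  exact ⟨b * a, Submonoid.mul_mem _ hb ha, by rw [← Matrix.mulVec_mulVec, hax, hby]⟩

theorem inv_closure (hN : N.transpose = -N) (h : Matrix (Fin m) (Fin m) ℂ)
    (hh : h ∈ Submonoid.closure (TV N v)) : ∃ h' ∈ Submonoid.closure (TV N v), h' * h = 1 := by
  induction hh using Submonoid.closure_induction with
  | mem x hx =>
    obtain ⟨i, c, rfl⟩ := hx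
    refine ⟨1 + (-c) • res N (v i), Submonoid.subset_closure ⟨i, -c, rfl⟩, ?_⟩
    rw [add_mul, mul_add, mul_add, one_mul, mul_one, one_mul, Matrix.smul_mul, Matrix.mul_smul,
      res_mul_self hN, smul_zero, smul_zero, add_zero, neg_smul]
    abel
  | one => exact ⟨1, Submonoid.one_mem _, one_mul 1⟩
  | mul a b _ _ ha hb =>
    obtain ⟨a', ha', haa⟩ := ha
    obtain ⟨b', hb', hbb⟩ := hb
    refine ⟨b' * a', Submonoid.mul_mem _ hb' ha', ?_⟩
    rw [mul_assoc, ← mul_assoc a' a b, haa, one_mul, hbb]

theorem Reach.symm (hN : N.transpose = -N) {x y : Fin m → ℂ} (h : Reach N v x y) :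
    Reach N v y x := by
  obtain ⟨a, ha, hax⟩ := h
  obtain ⟨a', ha', haa⟩ := inv_closure hN a ha
  exact ⟨a', ha', by rw [← hax, Matrix.mulVec_mulVec, haa, Matrix.one_mulVec]⟩

theorem reach_step (x : Fin m → ℂ) (i : Fin p) (d : ℂ) (h : B N (v i) x ≠ 0) :
    Reach N v x (x + d • v i) := by
  refine ⟨1 + (d / B N (v i) x) • res N (v i), Submonoid.subset_closure ⟨i, _, rfl⟩, ?_⟩
  rw [Matrix.add_mulVec, Matrix.one_mulVec, Matrix.smul_mulVec, res_mulVec, smul_smul,
    div_mul_cancel₀ _ h]

/-- The hypothesis on the commutant. -/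
def Comm (N : Matrix (Fin m) (Fin m) ℂ) (v : Fin p → Fin m → ℂ) : Prop :=
  ∀ Z : Matrix (Fin m) (Fin m) ℂ, (∀ i, Z * res N (v i) = res N (v i) * Z) → ∃ c : ℂ, Z = c • 1

/-- A vector orthogonal to all `v i` is zero. -/
theorem orth_zero (hN : N.transpose = -N) (hd : N.det ≠ 0) (hc : Comm N v) (y : Fin m → ℂ)
    (h : ∀ i, B N (v i) y = 0) : y = 0 := by
  by_contra hy
  obtain ⟨c, hZ⟩ := hc (res N y) (by
    intro i
    have h1 : dotProduct (N.mulVec y) (v i) = 0 := by
      have := B_anti hN y (v i)
      rw [h i, neg_zero] at this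
      exact this
    have h2 : dotProduct (N.mulVec (v i)) y = 0 := h i
    unfold res
    rw [Matrix.vecMulVec_mul_vecMulVec, Matrix.vecMulVec_mul_vecMulVec, h1, h2]
    simp)
  have h3 := res_mul_self hN y
  -- apply to y
  have h4 : (res N y).mulVec y = 0 := by rw [res_mulVec, B_self hN, zero_smul]
  rw [hZ, Matrix.smul_mulVec, Matrix.one_mulVec] at h4
  have hc0 : c = 0 := by
    rcases smul_eq_zero.mp h4 with h5 | h5
    · exact h5
    · exact absurd h5 hy
  rw [hc0, zero_smul] at hZ
  apply hy
  apply B_nondeg hN hd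
  intro w
  have h6 : (res N y).mulVec w = 0 := by rw [hZ, Matrix.zero_mulVec]
  rw [res_mulVec] at h6
  rcases smul_eq_zero.mp h6 with h7 | h7
  · rw [B_anti hN, h7, neg_zero]
  · exact absurd h7 hy

/-- The vectors `v i` span. -/
theorem span_top (hN : N.transpose = -N) (hd : N.det ≠ 0) (hc : Comm N v) :
    Submodule.span ℂ (Set.range v) = ⊤ := by
  by_contra hne
  obtain ⟨f, hf0, hf⟩ := Submodule.exists_le_ker_of_lt_top _ (lt_top_iff_ne_top.mpr hne)
  -- f w = u ⬝ w
  set u : Fin m → ℂ := fun k => f (Pi.single k 1) with hu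
  have hfu : ∀ w, f w = dotProduct w u := by
    intro w
    rw [LinearMap.pi_apply_eq_sum_univ f w]
    unfold dotProduct
    apply Finset.sum_congr rfl
    intro i _
    rw [smul_eq_mul]
    congr 2
    ext j
    by_cases hij : i = j
    · subst hij
      simp
    · rw [if_neg hij, Pi.single_eq_of_ne (fun h => hij h.symm)]
  have hdu : IsUnit N.det := isUnit_iff_ne_zero.mpr hd
  set y : Fin m → ℂ := (-N⁻¹).mulVec u with hy
  have hNy : N.mulVec y = -u := by
    rw [hy, Matrix.mulVec_mulVec, mul_neg, Matrix.mul_nonsing_inv _ hdu, Matrix.neg_mulVec,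
      Matrix.one_mulVec]
  have hB : ∀ w, B N w y = f w := by
    intro w
    rw [B_anti hN]
    unfold B
    rw [hNy, neg_dotProduct, neg_neg, dotProduct_comm, hfu]
  have hy0 : y = 0 := orth_zero hN hd hc y (fun i => by
    rw [hB]
    exact hf (Submodule.subset_span ⟨i, rfl⟩))
  apply hf0
  apply LinearMap.ext
  intro w
  rw [← hB, hy0, B_zero]
  rfl

/-- Connectedness. -/
theorem conn (hN : N.transpose = -N) (hd : N.det ≠ 0) (hc : Comm N v) (I : Fin p → Prop)
    (h : ∀ i j, I i → ¬ I j → B N (v i) (v j) = 0) :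
    (∀ i, I i → v i = 0) ∨ (∀ j, ¬ I j → v j = 0) := by
  classical
  set VI : Submodule ℂ (Fin m → ℂ) := Submodule.span ℂ (v '' {i | I i}) with hVI
  set VJ : Submodule ℂ (Fin m → ℂ) := Submodule.span ℂ (v '' {i | ¬ I i}) with hVJ
  have hJ : ∀ i, I i → ∀ w ∈ VJ, B N (v i) w = 0 := by
    intro i hi w hw
    induction hw using Submodule.span_induction with
    | mem x hx =>
      obtain ⟨j, hj, rfl⟩ := hx
      exact h i j hi hj
    | zero => exact B_zero _
    | add x y _ _ hx hy => rw [B_add, hx, hy, add_zero]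
    | smul a x _ hx => rw [B_smul, hx, mul_zero]
  have hI : ∀ j, ¬ I j → ∀ w ∈ VI, B N (v j) w = 0 := by
    intro j hj w hw
    induction hw using Submodule.span_induction with
    | mem x hx =>
      obtain ⟨i, hi, rfl⟩ := hx
      rw [B_anti hN, h i j hi hj, neg_zero]
    | zero => exact B_zero _
    | add x y _ _ hx hy => rw [B_add, hx, hy, add_zero]
    | smul a x _ hx => rw [B_smul, hx, mul_zero]
  have hcompl : IsCompl VI VJ := by
    constructor
    · rw [Submodule.disjoint_def]
      intro w hw1 hw2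
      apply orth_zero hN hd hc
      intro i
      by_cases hi : I i
      · exact hJ i hi w hw2
      · exact hI i hi w hw1
    · rw [codisjoint_iff, ← Submodule.span_union, ← Set.image_union]
      have : {i | I i} ∪ {i | ¬ I i} = Set.univ := by
        ext i
        simp [em]
      rw [this, Set.image_univ]
      exact span_top hN hd hc
  set π := VI.projection VJ hcompl with hπ
  have hl : ∀ w ∈ VI, π w = w := fun w hw => Submodule.projection_apply_of_mem_left hcompl hw
  have hr : ∀ w ∈ VJ, π w = 0 := fun w hw =>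
    (Submodule.projection_apply_eq_zero_iff hcompl).mpr hw
  have hs : ∀ w, w - π w ∈ VJ := fun w => Submodule.sub_projection_mem hcompl w
  have hm : ∀ w, π w ∈ VI := fun w => Submodule.projection_apply_mem hcompl w
  have hcomm : ∀ i, LinearMap.toMatrix' π * res N (v i) = res N (v i) * LinearMap.toMatrix' π := by
    intro i
    apply Matrix.toLin'.injective
    apply LinearMap.ext
    intro w
    rw [Matrix.toLin'_mul, Matrix.toLin'_mul, Matrix.toLin'_toMatrix', LinearMap.comp_apply,
      LinearMap.comp_apply, Matrix.toLin'_apply, Matrix.toLin'_apply, res_mulVec, res_mulVec,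
      map_smul]
    by_cases hi : I i
    · rw [hl (v i) (Submodule.subset_span ⟨i, hi, rfl⟩)]
      congr 1
      have h1 := hJ i hi _ (hs w)
      have h2 : B N (v i) w = B N (v i) (w - π w) + B N (v i) (π w) := by
        rw [← B_add, sub_add_cancel]
      rw [h2, h1, zero_add]
    · rw [hr (v i) (Submodule.subset_span ⟨i, hi, rfl⟩), smul_zero, hI i hi _ (hm w), zero_smul]
  obtain ⟨c, hcZ⟩ := hc _ hcomm
  have hπc : ∀ w, π w = c • w := by
    intro w
    rw [← Matrix.toLin'_toMatrix' π, hcZ, Matrix.toLin'_apply, Matrix.smul_mulVec,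
      Matrix.one_mulVec]
  by_cases hc0 : c = 0
  · left
    intro i hi
    have h1 := hl (v i) (Submodule.subset_span ⟨i, hi, rfl⟩)
    rw [hπc, hc0, zero_smul] at h1
    exact h1.symm
  · right
    intro j hj
    have h1 := hr (v j) (Submodule.subset_span ⟨j, hj, rfl⟩)
    rw [hπc] at h1
    rcases smul_eq_zero.mp h1 with h2 | h2
    · exact absurd h2 hc0
    · exact h2

/-- An affine function with nonzero constant term has finitely many zeros. -/
theorem affine_finite (a b : ℂ) (ha : a ≠ 0) : {t : ℂ | a + t * b = 0}.Finite := by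
  apply Set.Subsingleton.finite
  intro s hs t ht
  simp only [Set.mem_ofPred_eq] at hs ht
  have hb : b ≠ 0 := by
    rintro rfl
    rw [mul_zero, add_zero] at hs
    exact ha hs
  have : (s - t) * b = 0 := by linear_combination hs - ht
  rcases mul_eq_zero.mp this with h | h
  · exact sub_eq_zero.mp h
  · exact absurd h hb

/-- `x` is not orthogonal to any `v i ≠ 0`. -/
def Good (N : Matrix (Fin m) (Fin m) ℂ) (v : Fin p → Fin m → ℂ) (x : Fin m → ℂ) : Prop :=
  ∀ j, v j ≠ 0 → B N (v j) x ≠ 0

theorem exists_good (hN : N.transpose = -N) (hd : N.det ≠ 0) (hc : Comm N v) (x : Fin m → ℂ)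
    (hx : x ≠ 0) : ∃ x', Reach N v x x' ∧ Good N v x' := by
  classical
  set card : (Fin m → ℂ) → ℕ := fun y => (Finset.univ.filter fun j => B N (v j) y ≠ 0).card
    with hcard
  -- choose a maximal one
  have hbdd : ∀ y, card y ≤ p := by
    intro y
    calc card y ≤ (Finset.univ : Finset (Fin p)).card := Finset.card_filter_le _ _
      _ = p := by simp
  obtain ⟨x', hx', hmax⟩ : ∃ x', Reach N v x x' ∧ ∀ z, Reach N v x z → card z ≤ card x' := by
    by_contra hcon
    push Not at hcon
    have : ∀ n : ℕ, ∃ z, Reach N v x z ∧ n ≤ card z := by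
      intro n
      induction n with
      | zero => exact ⟨x, Reach.rfl' x, Nat.zero_le _⟩
      | succ n ih =>
        obtain ⟨z, hz, hn⟩ := ih
        obtain ⟨w, hw, hlt⟩ := hcon z hz
        exact ⟨w, hw, by omega⟩
    obtain ⟨z, _, hz⟩ := this (p + 1)
    have := hbdd z
    omega
  refine ⟨x', hx', ?_⟩
  have hpos : 0 < card x' := by
    have h1 : 0 < card x := by
      rw [hcard]
      apply Finset.card_pos.mpr
      by_contra hne
      rw [Finset.not_nonempty_iff_eq_empty, Finset.filter_eq_empty_iff] at hne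
      apply hx
      apply orth_zero hN hd hc
      intro i
      have := hne (Finset.mem_univ i)
      push Not at this
      exact this
    exact lt_of_lt_of_le h1 (hmax x (Reach.rfl' x))
  have hno : ∀ i j, B N (v i) x' ≠ 0 → ¬ (B N (v j) x' ≠ 0) → B N (v i) (v j) = 0 := by
    intro i j hi hj
    by_contra hij
    push Not at hj
    -- generic d
    have hfin : (⋃ k ∈ (Finset.univ.filter fun k => B N (v k) x' ≠ 0 : Finset (Fin p)),
        {t : ℂ | B N (v k) x' + t * B N (v k) (v i) = 0}).Finite := by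
      apply Set.Finite.biUnion (Finset.finite_toSet _)
      intro k hk
      rw [Finset.mem_coe, Finset.mem_filter] at hk
      exact affine_finite _ _ hk.2
    obtain ⟨d, hd'⟩ := (hfin.union (Set.finite_singleton (0 : ℂ))).infinite_compl.nonempty
    rw [Set.mem_compl_iff, Set.mem_union, not_or] at hd'
    obtain ⟨hd1, hd2⟩ := hd'
    have hd0 : d ≠ 0 := by simpa using hd2
    have hreach : Reach N v x (x' + d • v i) := hx'.trans (reach_step x' i d hi)
    have hle := hmax _ hreach
    have hlt : card x' < card (x' + d • v i) := by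
      rw [hcard]
      apply Finset.card_lt_card
      rw [Finset.ssubset_iff_of_subset]
      · refine ⟨j, ?_, ?_⟩
        · rw [Finset.mem_filter]
          refine ⟨Finset.mem_univ _, ?_⟩
          rw [B_add, B_smul, hj, zero_add, B_anti hN]
          exact mul_ne_zero hd0 (neg_ne_zero.mpr hij)
        · rw [Finset.mem_filter]
          intro h
          exact h.2 hj
      · intro k hk
        rw [Finset.mem_filter] at hk ⊢
        refine ⟨Finset.mem_univ _, ?_⟩
        rw [B_add, B_smul]
        intro h0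
        apply hd1
        rw [Set.mem_iUnion₂]
        exact ⟨k, Finset.mem_filter.mpr ⟨Finset.mem_univ _, hk.2⟩, h0⟩
    omega
  rcases conn hN hd hc (fun i => B N (v i) x' ≠ 0) hno with h1 | h1
  · exfalso
    rw [hcard] at hpos
    obtain ⟨i, hi⟩ := Finset.card_pos.mp hpos
    rw [Finset.mem_filter] at hi
    apply hi.2
    have h2 := h1 i hi.2
    rw [h2, B_anti hN, B_zero, neg_zero]
  · intro j hj
    by_contra h0
    exact hj (h1 j (not_not.mpr h0))

theorem chain (x : Fin m → ℂ) (hg : Good N v x) (d : Fin p → ℂ) (s : Finset (Fin p)) :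
    {t : ℂ | ¬ Reach N v x (x + t • ∑ j ∈ s, d j • v j)}.Finite := by
  classical
  induction s using Finset.induction_on with
  | empty =>
    convert Set.finite_empty
    ext t
    simp only [Set.mem_ofPred_eq, Set.mem_empty_iff_false, iff_false, not_not]
    rw [Finset.sum_empty, smul_zero, add_zero]
    exact Reach.rfl' x
  | insert k s hk ih =>
    have hfin : {t : ℂ | v k ≠ 0 ∧ B N (v k) x + t * B N (v k) (∑ j ∈ s, d j • v j) = 0}.Finite := by
      by_cases hv : v k = 0
      · convert Set.finite_empty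
        ext t
        simp [hv]
      · apply (affine_finite (B N (v k) x) (B N (v k) (∑ j ∈ s, d j • v j)) (hg k hv)).subset
        intro t ht
        exact ht.2
    apply (ih.union hfin).subset
    intro t ht
    by_contra hcon
    rw [Set.mem_union, not_or] at hcon
    obtain ⟨h1, h2⟩ := hcon
    simp only [Set.mem_ofPred_eq, not_not] at h1
    apply ht
    rw [Finset.sum_insert hk, smul_add, add_comm (t • (d k • v k)), ← add_assoc]
    by_cases hv : v k = 0
    · rw [hv, smul_zero, smul_zero, add_zero]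
      exact h1
    · refine h1.trans ?_
      rw [smul_smul]
      apply reach_step
      rw [B_add, B_smul]
      intro h0
      exact h2 ⟨hv, h0⟩

end

end GrpaAux

open GrpaAux in
/-- Module GRPA. -/
theorem grpa_proof : Stmt_GrpA := by
  intro m p N v hN hd hc x y hx hy
  obtain ⟨x', hxx, hgx⟩ := exists_good hN hd hc x hx
  obtain ⟨y', hyy, hgy⟩ := exists_good hN hd hc y hy
  -- expand the difference
  have hmem : y' - x' ∈ Submodule.span ℂ (Set.range v) := by
    rw [span_top hN hd hc]
    exact Submodule.mem_top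
  rw [Submodule.mem_span_range_iff_exists_fun] at hmem
  obtain ⟨d, hdd⟩ := hmem
  have f1 := chain x' hgx d Finset.univ
  have f2 := chain y' hgy d Finset.univ
  rw [hdd] at f1 f2
  have f3 : {t : ℂ | ¬ Reach N v y' (y' + (t - 1) • (y' - x'))}.Finite := by
    have := f2.preimage (f := fun t : ℂ => t - 1) (sub_left_injective.injOn)
    exact this
  obtain ⟨t, ht⟩ := (f1.union f3).infinite_compl.nonempty
  rw [Set.mem_compl_iff, Set.mem_union, not_or] at ht
  obtain ⟨h1, h2⟩ := ht
  simp only [Set.mem_ofPred_eq, not_not] at h1 h2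
  have heq : x' + t • (y' - x') = y' + (t - 1) • (y' - x') := by
    rw [sub_smul, one_smul]
    abel
  rw [← heq] at h2
  exact (hxx.trans h1).trans ((hyy.trans h2).symm hN)

end Pool.Agent.GPH
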