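import Pool.Agent.GPH.IIIDefs

/-!
# PRIM: the primitive of a holomorphic function on a star shaped open set
-/

open scoped BigOperators Topology Interval
open Metric Set MeasureTheory Filter

namespace Pool.Agent.GPH.PRIM

noncomputable section

theorem thm : Stmt_Prim := by
  intro U c h hU hst hh x0 hx0
  have hmem : ∀ x ∈ U, ∀ τ ∈ Icc (0 : ℝ) 1, c + (τ : ℂ) * (x - c) ∈ U := by
    intro x hx τ hτ
    have := hst hx (a := 1 - τ) (b := τ) (by linarith [hτ.2]) hτ.1 (by ring)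
    have e : (1 - τ) • c + τ • x = c + (τ : ℂ) * (x - c) := by
      simp only [Complex.real_smul]
      push_cast
      ring
    rwa [e] at this
  have hd : ∀ x ∈ U, HasDerivAt h (deriv h x) x := fun x hx =>
    (hh.differentiableAt (hU.mem_nhds hx)).hasDerivAt
  have hd' : ContinuousOn (deriv h) U := (hh.deriv hU).continuousOn
  obtain ⟨r, hr0, hr⟩ := Metric.nhds_basis_closedBall.mem_iff.1 (hU.mem_nhds hx0)
  have hIoc : Ι (0 : ℝ) 1 ⊆ Icc 0 1 := by
    rw [uIoc_of_le zero_le_one]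
    exact Ioc_subset_Icc_self
  have hmaps : MapsTo (fun p : ℂ × ℝ => c + (p.2 : ℂ) * (p.1 - c)) (U ×ˢ Icc (0 : ℝ) 1) U :=
    fun p hp => hmem p.1 hp.1 p.2 hp.2
  have hlin : Continuous (fun p : ℂ × ℝ => c + (p.2 : ℂ) * (p.1 - c)) := by fun_prop
  have hF : ContinuousOn (fun p : ℂ × ℝ => (p.1 - c) * h (c + (p.2 : ℂ) * (p.1 - c)))
      (U ×ˢ Icc (0 : ℝ) 1) :=
    ContinuousOn.mul (by fun_prop) (hh.continuousOn.comp hlin.continuousOn hmaps)
  have hF' : ContinuousOn (fun p : ℂ × ℝ => h (c + (p.2 : ℂ) * (p.1 - c)) +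
      (p.1 - c) * (p.2 * deriv h (c + (p.2 : ℂ) * (p.1 - c)))) (U ×ˢ Icc (0 : ℝ) 1) :=
    ContinuousOn.add (hh.continuousOn.comp hlin.continuousOn hmaps)
      (ContinuousOn.mul (by fun_prop) (ContinuousOn.mul (by fun_prop)
        (hd'.comp hlin.continuousOn hmaps)))
  obtain ⟨B, hB⟩ := ((isCompact_closedBall x0 r).prod
    (isCompact_Icc (a := (0 : ℝ)) (b := 1))).exists_bound_of_continuousOn
      (hF'.mono (Set.prod_mono hr le_rfl))
  have hline : ∀ x ∈ U, MapsTo (fun τ : ℝ => (x, τ)) (Icc (0 : ℝ) 1) (U ×ˢ Icc (0 : ℝ) 1) :=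
    fun x hx τ hτ => ⟨hx, hτ⟩
  have hFx : ∀ x ∈ U, ContinuousOn (fun τ : ℝ => (x - c) * h (c + (τ : ℂ) * (x - c)))
      (Icc 0 1) := fun x hx =>
    hF.comp (by fun_prop : ContinuousOn (fun τ : ℝ => (x, τ)) (Icc 0 1)) (hline x hx)
  have hFx' : ∀ x ∈ U, ContinuousOn (fun τ : ℝ => h (c + (τ : ℂ) * (x - c)) +
      (x - c) * (τ * deriv h (c + (τ : ℂ) * (x - c)))) (Icc 0 1) := fun x hx =>
    hF'.comp (by fun_prop : ContinuousOn (fun τ : ℝ => (x, τ)) (Icc 0 1)) (hline x hx)
  have key := intervalIntegral.hasDerivAt_integral_of_dominated_loc_of_deriv_le (μ := volume)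
    (a := 0) (b := 1) (F := fun (x : ℂ) (τ : ℝ) => (x - c) * h (c + (τ : ℂ) * (x - c)))
    (F' := fun (x : ℂ) (τ : ℝ) => h (c + (τ : ℂ) * (x - c)) +
      (x - c) * (τ * deriv h (c + (τ : ℂ) * (x - c)))) (x₀ := x0) (s := ball x0 r)
    (bound := fun _ => B) (ball_mem_nhds x0 hr0)
    ((show ∀ᶠ x in 𝓝 x0, x ∈ U from hU.mem_nhds hx0).mono fun x hx =>
      ((hFx x hx).mono hIoc).aestronglyMeasurable measurableSet_uIoc)
    (by
      apply ContinuousOn.intervalIntegrable
      rw [uIcc_of_le zero_le_one]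
      exact hFx x0 hx0)
    (((hFx' x0 hx0).mono hIoc).aestronglyMeasurable measurableSet_uIoc)
    (Eventually.of_forall fun τ hτ x hx => hB (x, τ) ⟨ball_subset_closedBall hx, hIoc hτ⟩)
    intervalIntegrable_const
    (Eventually.of_forall fun τ hτ x hx => by
      have hxU : x ∈ U := hr (ball_subset_closedBall hx)
      have h1 : HasDerivAt (fun x : ℂ => c + (τ : ℂ) * (x - c)) τ x := by
        have := (((hasDerivAt_id x).sub_const c).const_mul (τ : ℂ)).const_add c
        simpa using this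
      have h2 : HasDerivAt (fun x : ℂ => h (c + (τ : ℂ) * (x - c)))
          (deriv h (c + (τ : ℂ) * (x - c)) * τ) x :=
        HasDerivAt.comp x (hd _ (hmem x hxU τ (hIoc hτ))) h1
      have h3 := ((hasDerivAt_id x).sub_const c).mul h2
      refine h3.congr_deriv ?_
      simp only [id]
      ring)
  have hFTC : ∫ τ in (0 : ℝ)..1, (h (c + (τ : ℂ) * (x0 - c)) +
      (x0 - c) * (τ * deriv h (c + (τ : ℂ) * (x0 - c)))) = h x0 := by
    have := intervalIntegral.integral_eq_sub_of_hasDerivAt (a := 0) (b := 1)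
      (f := fun τ : ℝ => (τ : ℂ) * h (c + (τ : ℂ) * (x0 - c)))
      (f' := fun τ : ℝ => (h (c + (τ : ℂ) * (x0 - c)) +
      (x0 - c) * (τ * deriv h (c + (τ : ℂ) * (x0 - c)))))
      (fun τ hτ => by
        rw [uIcc_of_le zero_le_one] at hτ
        have h1 : HasDerivAt (fun τ : ℝ => c + (τ : ℂ) * (x0 - c)) (x0 - c) τ := by
          have := (Complex.ofRealCLM.hasDerivAt (x := τ)).mul_const (x0 - c) |>.const_add c
          simpa using this
        have h2 : HasDerivAt (fun τ : ℝ => h (c + (τ : ℂ) * (x0 - c)))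
          (deriv h (c + (τ : ℂ) * (x0 - c)) * (x0 - c)) τ :=
          HasDerivAt.comp_of_eq τ (hd _ (hmem x0 hx0 τ hτ)) h1 rfl
        have h3 := (Complex.ofRealCLM.hasDerivAt (x := τ)).mul h2
        refine h3.congr_deriv ?_
        simp only [Complex.ofRealCLM_apply, Complex.ofReal_one]
        ring)
      (by
        apply ContinuousOn.intervalIntegrable
        rw [uIcc_of_le zero_le_one]
        exact hFx' x0 hx0)
    rw [this]
    simp
  have := key.2
  rw [hFTC] at this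
  exact this

end

end Pool.Agent.GPH.PRIM
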