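import Pool.Agent.GPH.IIStmts
import Pool.Agent.GPH.PRIM

/-!
# GPH, part II: linear differential equations on star shaped open sets (Picard iteration)
-/

open scoped BigOperators Topology Interval
open Metric Set MeasureTheory Filter

namespace Pool.Agent.GPH

namespace LODEX

noncomputable section

variable {κ : Type} [Fintype κ]

/-- The terms of the Picard series. -/
def u (L : ℂ → Matrix κ κ ℂ) (b : ℂ) (y0 : κ → ℂ) : ℕ → ℂ → κ → ℂ
  | 0 => fun _ => y0
  | n + 1 => fun s k => ∫ τ in (0 : ℝ)..1, (s - b) *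
      ((L (b + (τ : ℂ) * (s - b))).mulVec (u L b y0 n (b + (τ : ℂ) * (s - b))) k)

lemma seg {U : Set ℂ} {b : ℂ} (hst : StarConvex ℝ b U) {s : ℂ} (hs : s ∈ U) {τ : ℝ}
    (h0 : 0 ≤ τ) (h1 : τ ≤ 1) : b + (τ : ℂ) * (s - b) ∈ U := by
  have := hst hs (a := 1 - τ) (b := τ) (by linarith) h0 (by ring)
  have e : (1 - τ) • b + τ • s = b + (τ : ℂ) * (s - b) := by
    simp only [Complex.real_smul]
    push_cast
    ring
  rwa [e] at this

lemma u_diff {L : ℂ → Matrix κ κ ℂ} {U : Set ℂ} {b : ℂ} (y0 : κ → ℂ) (hU : IsOpen U)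
    (hst : StarConvex ℝ b U) (hL : HolM U L) (n : ℕ) :
    (∀ k, DifferentiableOn ℂ (fun s => u L b y0 n s k) U) ∧
    ∀ k, ∀ s ∈ U, HasDerivAt (fun s => u L b y0 (n + 1) s k)
      ((L s).mulVec (u L b y0 n s) k) s := by
  induction n with
  | zero =>
    have h1 : ∀ k, DifferentiableOn ℂ (fun s => u L b y0 0 s k) U := fun k =>
      differentiableOn_const _
    refine ⟨h1, fun k s hs => ?_⟩
    refine PRIM.thm U b (fun z => (L z).mulVec (u L b y0 0 z) k) hU hst ?_ s hs
    simp only [Matrix.mulVec, dotProduct]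
    exact DifferentiableOn.fun_sum fun l _ => (hL k l).mul (h1 l)
  | succ n ih =>
    have h1 : ∀ k, DifferentiableOn ℂ (fun s => u L b y0 (n + 1) s k) U := fun k s hs =>
      (ih.2 k s hs).differentiableAt.differentiableWithinAt
    refine ⟨h1, fun k s hs => ?_⟩
    refine PRIM.thm U b (fun z => (L z).mulVec (u L b y0 (n + 1) z) k) hU hst ?_ s hs
    simp only [Matrix.mulVec, dotProduct]
    exact DifferentiableOn.fun_sum fun l _ => (hL k l).mul (h1 l)

lemma u_bound {L : ℂ → Matrix κ κ ℂ} {b : ℂ} (y0 : κ → ℂ) {K : Set ℂ} {M D C : ℝ}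
    (hM : 0 ≤ M) (hC : ∀ k, ‖y0 k‖ ≤ C) (hC0 : 0 ≤ C) (hLK : ∀ s ∈ K, ∀ τ : ℝ, 0 ≤ τ → τ ≤ 1 →
      ∀ k l, ‖L (b + (τ : ℂ) * (s - b)) k l‖ ≤ M) (hD : ∀ s ∈ K, ‖s - b‖ ≤ D) (n : ℕ) :
    ∀ s ∈ K, ∀ τ : ℝ, 0 ≤ τ → τ ≤ 1 → ∀ k, ‖u L b y0 n (b + (τ : ℂ) * (s - b)) k‖ ≤
      C * ((Fintype.card κ * M * D) * τ) ^ n / n.factorial := by
  induction n with
  | zero =>
    intro s hs τ h0 h1 k
    simpa [u] using hC k
  | succ n ih =>
    intro s hs τ h0 h1 k
    have hD0 : 0 ≤ D := (norm_nonneg _).trans (hD s hs)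
    set A : ℝ := Fintype.card κ * M * D with hA
    have hA0 : 0 ≤ A := by positivity
    have e1 : u L b y0 (n + 1) (b + (τ : ℂ) * (s - b)) k = ∫ σ in (0 : ℝ)..1,
        ((τ : ℂ) * (s - b)) * ((L (b + ((σ * τ : ℝ) : ℂ) * (s - b))).mulVec
          (u L b y0 n (b + ((σ * τ : ℝ) : ℂ) * (s - b))) k) := by
      simp only [u]
      refine intervalIntegral.integral_congr fun σ _ => ?_
      have e2 : b + (σ : ℂ) * (b + (τ : ℂ) * (s - b) - b) = b + ((σ * τ : ℝ) : ℂ) * (s - b) := by
        push_cast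
        ring
      simp only [e2]
      ring
    rw [e1]
    have hb : ∀ σ : ℝ, σ ∈ Ioc (0 : ℝ) 1 → ‖((τ : ℂ) * (s - b)) *
        ((L (b + ((σ * τ : ℝ) : ℂ) * (s - b))).mulVec
          (u L b y0 n (b + ((σ * τ : ℝ) : ℂ) * (s - b))) k)‖ ≤
        (C * (A * τ) ^ (n + 1) / n.factorial) * σ ^ n := by
      intro σ hσ
      have hστ0 : 0 ≤ σ * τ := mul_nonneg hσ.1.le h0
      have hστ1 : σ * τ ≤ 1 := by nlinarith [hσ.2, hσ.1]
      have h2 : ‖(L (b + ((σ * τ : ℝ) : ℂ) * (s - b))).mulVec
          (u L b y0 n (b + ((σ * τ : ℝ) : ℂ) * (s - b))) k‖ ≤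
          Fintype.card κ * (M * (C * (A * (σ * τ)) ^ n / n.factorial)) := by
        simp only [Matrix.mulVec, dotProduct]
        refine (norm_sum_le _ _).trans ?_
        have h3 : ∀ l ∈ (Finset.univ : Finset κ), ‖L (b + ((σ * τ : ℝ) : ℂ) * (s - b)) k l *
            u L b y0 n (b + ((σ * τ : ℝ) : ℂ) * (s - b)) l‖ ≤
            M * (C * (A * (σ * τ)) ^ n / n.factorial) := by
          intro l _
          rw [norm_mul]
          exact mul_le_mul (hLK s hs _ hστ0 hστ1 k l) (ih s hs _ hστ0 hστ1 l) (norm_nonneg _) hM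
        refine (Finset.sum_le_sum h3).trans ?_
        simp [Finset.card_univ]
      rw [norm_mul, norm_mul, Complex.norm_real, Real.norm_of_nonneg h0]
      have h4 : τ * ‖s - b‖ ≤ τ * D := mul_le_mul_of_nonneg_left (hD s hs) h0
      have h5 : 0 ≤ Fintype.card κ * (M * (C * (A * (σ * τ)) ^ n / n.factorial)) := by
        positivity
      calc τ * ‖s - b‖ * ‖(L (b + ((σ * τ : ℝ) : ℂ) * (s - b))).mulVec
              (u L b y0 n (b + ((σ * τ : ℝ) : ℂ) * (s - b))) k‖
          ≤ (τ * D) * (Fintype.card κ * (M * (C * (A * (σ * τ)) ^ n / n.factorial))) :=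
            mul_le_mul h4 h2 (norm_nonneg _) (by positivity)
        _ = (C * (A * τ) ^ (n + 1) / n.factorial) * σ ^ n := by
            rw [hA]
            ring
    have h6 := intervalIntegral.norm_integral_le_of_norm_le (μ := volume) (a := (0 : ℝ)) (b := 1)
      (f := fun σ : ℝ => ((τ : ℂ) * (s - b)) * ((L (b + ((σ * τ : ℝ) : ℂ) * (s - b))).mulVec
          (u L b y0 n (b + ((σ * τ : ℝ) : ℂ) * (s - b))) k))
      (g := fun σ : ℝ => (C * (A * τ) ^ (n + 1) / n.factorial) * σ ^ n) zero_le_one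
      (Filter.Eventually.of_forall hb)
      ((continuous_const.mul (continuous_id.pow n)).intervalIntegrable _ _)
    refine h6.trans ?_
    rw [intervalIntegral.integral_const_mul, integral_pow]
    have h7 : ((n + 1).factorial : ℝ) = (n + 1) * n.factorial := by
      rw [Nat.factorial_succ]
      push_cast
      ring
    have h8 : (n.factorial : ℝ) ≠ 0 := by positivity
    have h9 : ((n : ℝ) + 1) ≠ 0 := by positivity
    rw [h7]
    simp only [one_pow, ne_eq, Nat.add_eq_zero_iff, one_ne_zero, and_false, not_false_eq_true,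
      zero_pow, sub_zero]
    apply le_of_eq
    field_simp

end

end LODEX

open LODEX in
theorem lode_proof : Stmt_Lode := by
  intro κ _ U b L hU hb hst hL y0
  have hud := u_diff y0 hU hst hL
  refine ⟨fun s k => ∑' n, u L b y0 n s k, ?_, ?_⟩
  · funext k
    show ∑' n, u L b y0 n b k = y0 k
    rw [tsum_eq_single 0]
    · rfl
    · intro n hn
      obtain ⟨n, rfl⟩ := Nat.exists_eq_succ_of_ne_zero hn
      simp [u]
  · intro s1 hs1
    obtain ⟨r, hr0, hr⟩ := Metric.nhds_basis_closedBall.mem_iff.1 (hU.mem_nhds hs1)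
    -- bounds on the compact star hull of the closed ball
    have hcomp : IsCompact ((closedBall s1 r) ×ˢ (Icc (0 : ℝ) 1)) :=
      (isCompact_closedBall s1 r).prod isCompact_Icc
    have hmaps : MapsTo (fun p : ℂ × ℝ => b + (p.2 : ℂ) * (p.1 - b))
        ((closedBall s1 r) ×ˢ (Icc (0 : ℝ) 1)) U := fun p hp => seg hst (hr hp.1) hp.2.1 hp.2.2
    have hlin : Continuous (fun p : ℂ × ℝ => b + (p.2 : ℂ) * (p.1 - b)) := by fun_prop
    have hbd : ∀ k l, ∃ B : ℝ, ∀ p ∈ (closedBall s1 r) ×ˢ (Icc (0 : ℝ) 1),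
        ‖L (b + (p.2 : ℂ) * (p.1 - b)) k l‖ ≤ B := by
      intro k l
      exact hcomp.exists_bound_of_continuousOn
        ((hL k l).continuousOn.comp hlin.continuousOn hmaps)
    choose B hB using hbd
    set M : ℝ := ∑ k, ∑ l, |B k l| with hM
    have hM0 : 0 ≤ M := Finset.sum_nonneg fun k _ => Finset.sum_nonneg fun l _ => abs_nonneg _
    have hBM : ∀ k l, B k l ≤ M := by
      intro k l
      refine (le_abs_self _).trans ?_
      refine (Finset.single_le_sum (f := fun l => |B k l|) (fun l _ => abs_nonneg _)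
        (Finset.mem_univ l)).trans ?_
      exact Finset.single_le_sum (f := fun k => ∑ l, |B k l|)
        (fun k _ => Finset.sum_nonneg fun l _ => abs_nonneg _) (Finset.mem_univ k)
    set C : ℝ := ∑ k, ‖y0 k‖ with hC
    have hC0 : 0 ≤ C := Finset.sum_nonneg fun k _ => norm_nonneg _
    have hCy : ∀ k, ‖y0 k‖ ≤ C := fun k =>
      Finset.single_le_sum (f := fun k => ‖y0 k‖) (fun k _ => norm_nonneg _) (Finset.mem_univ k)
    set D : ℝ := ‖s1 - b‖ + r with hD
    have hDb : ∀ s ∈ closedBall s1 r, ‖s - b‖ ≤ D := by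
      intro s hs
      have : s - b = (s - s1) + (s1 - b) := by ring
      rw [this]
      refine (norm_add_le _ _).trans ?_
      rw [hD]
      have : ‖s - s1‖ ≤ r := by simpa [dist_eq_norm] using hs
      linarith
    have hbound := u_bound (L := L) (b := b) y0 (K := closedBall s1 r) (M := M) (D := D) (C := C)
      hM0 hCy hC0 (fun s hs τ h0 h1 k l => (hB k l (s, τ) ⟨hs, h0, h1⟩).trans (hBM k l)) hDb
    set A : ℝ := Fintype.card κ * M * D with hA
    have hb1 : ∀ k n, ∀ w ∈ ball s1 r, ‖u L b y0 n w k‖ ≤ C * (A ^ n / n.factorial) := by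
      intro k n w hw
      have := hbound n w (ball_subset_closedBall hw) 1 zero_le_one le_rfl k
      simpa [mul_div_assoc] using this
    have hsumm : Summable fun n : ℕ => C * (A ^ n / n.factorial) :=
      (Real.summable_pow_div_factorial A).mul_left C
    have hs1b : s1 ∈ ball s1 r := mem_ball_self hr0
    have hdU : ∀ k n, DifferentiableOn ℂ (fun s => u L b y0 n s k) (ball s1 r) := fun k n =>
      ((hud n).1 k).mono (ball_subset_closedBall.trans hr)
    have hsumk : ∀ l, HasSum (fun n => u L b y0 n s1 l) (∑' n, u L b y0 n s1 l) := fun l =>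
      (Summable.of_norm_bounded hsumm fun n => hb1 l n s1 hs1b).hasSum
    intro k
    have hdiff : DifferentiableOn ℂ (fun s => ∑' n, u L b y0 n s k) (ball s1 r) :=
      Complex.differentiableOn_tsum_of_summable_norm hsumm (hdU k) isOpen_ball
        (fun n w hw => hb1 k n w hw)
    have hder : HasSum (fun n => deriv (fun s => u L b y0 n s k) s1)
        (deriv (fun s => ∑' n, u L b y0 n s k) s1) :=
      Complex.hasSum_deriv_of_summable_norm hsumm (hdU k) isOpen_ball
        (fun n w hw => hb1 k n w hw) hs1b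
    have hval : deriv (fun s => ∑' n, u L b y0 n s k) s1 =
        (L s1).mulVec (fun l => ∑' n, u L b y0 n s1 l) k := by
      have h1 : HasSum (fun n => deriv (fun s => u L b y0 n s k) s1)
          ((L s1).mulVec (fun l => ∑' n, u L b y0 n s1 l) k) := by
        rw [hasSum_nat_add_iff' 1 |>.symm]
        simp only [Finset.range_one, Finset.sum_singleton]
        have h2 : deriv (fun s => u L b y0 0 s k) s1 = 0 := by
          simp [u]
        rw [h2, sub_zero]
        have h3 : ∀ n, deriv (fun s => u L b y0 (n + 1) s k) s1 =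
            (L s1).mulVec (u L b y0 n s1) k := fun n => ((hud n).2 k s1 hs1).deriv
        simp only [h3, Matrix.mulVec, dotProduct]
        exact hasSum_sum fun l _ => (hsumk l).mul_left _
      exact hder.unique h1
    have := (hdiff.differentiableAt (isOpen_ball.mem_nhds hs1b)).hasDerivAt
    rw [hval] at this
    exact this

end Pool.Agent.GPH
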