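import Pool.Agent.GPH.IIStmts

/-!
# GPH, UNIQ: uniqueness for linear differential equations
-/

open scoped BigOperators Topology
open Metric Set

namespace Pool.Agent.GPH

namespace UniqX

theorem near {κ : Type} [Fintype κ] {U : Set ℂ} {L : ℂ → Matrix κ κ ℂ} (hU : IsOpen U)
    (hL : HolM U L) {y : ℂ → κ → ℂ} (hy : Sol U L y) {p : ℂ} (hp : p ∈ U) (h0 : y p = 0) :
    ∃ r > 0, ∀ s ∈ ball p r, y s = 0 := by
  obtain ⟨r, hr0, hr⟩ := Metric.nhds_basis_closedBall.mem_iff.1 (hU.mem_nhds hp)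
  have hc : ContinuousOn (fun z => ∑ k, ∑ j, ‖L z k j‖) (closedBall p r) := by
    apply continuousOn_finsetSum
    intro k _
    apply continuousOn_finsetSum
    intro j _
    exact ((hL k j).continuousOn.mono hr).norm
  obtain ⟨C, hC⟩ := (isCompact_closedBall p r).exists_bound_of_continuousOn hc
  have hC0 : 0 ≤ C := (norm_nonneg _).trans (hC p (mem_closedBall_self hr0.le))
  have hbd : ∀ z ∈ closedBall p r, ∀ v : κ → ℂ, ‖(L z).mulVec v‖ ≤ C * ‖v‖ := by
    intro z hz v
    rw [pi_norm_le_iff_of_nonneg (mul_nonneg hC0 (norm_nonneg _))]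
    intro k
    have h1 : ‖(L z).mulVec v k‖ ≤ ∑ j, ‖L z k j‖ * ‖v‖ := by
      refine (norm_sum_le _ _).trans (Finset.sum_le_sum fun j _ => ?_)
      rw [norm_mul]
      exact mul_le_mul_of_nonneg_left (norm_le_pi_norm v j) (norm_nonneg _)
    refine h1.trans ?_
    rw [← Finset.sum_mul]
    apply mul_le_mul_of_nonneg_right _ (norm_nonneg _)
    have h2 := hC z hz
    have h3 : ∑ j, ‖L z k j‖ ≤ ∑ k, ∑ j, ‖L z k j‖ :=
      Finset.single_le_sum (f := fun k => ∑ j, ‖L z k j‖)
        (fun k _ => Finset.sum_nonneg fun j _ => norm_nonneg _) (Finset.mem_univ k)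
    exact h3.trans ((le_abs_self _).trans h2)
  refine ⟨r, hr0, fun s hs => ?_⟩
  have hseg : ∀ t ∈ Icc (0 : ℝ) 1, p + (t : ℂ) * (s - p) ∈ closedBall p r := by
    intro t ht
    rw [mem_closedBall, dist_eq_norm, add_sub_cancel_left, norm_mul, Complex.norm_real,
      Real.norm_eq_abs, abs_of_nonneg ht.1]
    rw [mem_ball, dist_eq_norm] at hs
    nlinarith [ht.2, norm_nonneg (s - p)]
  have hder : ∀ t ∈ Icc (0 : ℝ) 1, HasDerivAt (fun t : ℝ => y (p + (t : ℂ) * (s - p)))
      ((s - p) • (L (p + (t : ℂ) * (s - p))).mulVec (y (p + (t : ℂ) * (s - p)))) t := by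
    intro t ht
    rw [hasDerivAt_pi]
    intro k
    have h1 := hy _ (hr (hseg t ht)) k
    have h2 : HasDerivAt (fun t : ℝ => p + (t : ℂ) * (s - p)) (s - p) t := by
      have := ((Complex.ofRealCLM.hasDerivAt (x := t)).mul_const (s - p)).const_add p
      simpa using this
    have h3 := HasDerivAt.comp_of_eq t h1 h2 rfl
    refine h3.congr_deriv ?_
    rw [Pi.smul_apply, smul_eq_mul, mul_comm]
  have key := eq_zero_of_abs_deriv_le_mul_abs_self_of_eq_zero_right
    (f := fun t : ℝ => y (p + (t : ℂ) * (s - p)))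
    (f' := fun t : ℝ => (s - p) • (L (p + (t : ℂ) * (s - p))).mulVec (y (p + (t : ℂ) * (s - p))))
    (K := ‖s - p‖ * C) (a := 0) (b := 1)
    (fun t ht => (hder t ht).continuousAt.continuousWithinAt)
    (fun t ht => (hder t ⟨ht.1, ht.2.le⟩).hasDerivWithinAt)
    (by simpa using h0)
    (fun t ht => by
      rw [norm_smul, mul_assoc]
      exact mul_le_mul_of_nonneg_left (hbd _ (hseg t ⟨ht.1, ht.2.le⟩) _) (norm_nonneg _))
  have := key 1 (by norm_num)
  simpa using this

end UniqX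

theorem uniq_proof : Stmt_Uniq := by
  intro κ _ U L hU hpre hL y hy p hp h0 s hs
  obtain ⟨r, hr0, hr⟩ := UniqX.near hU hL hy hp h0
  funext k
  have hd : DifferentiableOn ℂ (fun z => y z k) U := fun z hz =>
    (hy z hz k).differentiableAt.differentiableWithinAt
  have ha : AnalyticOnNhd ℂ (fun z => y z k) U := hd.analyticOnNhd hU
  have he : (fun z => y z k) =ᶠ[𝓝 p] 0 := by
    filter_upwards [ball_mem_nhds p hr0] with z hz
    rw [hr z hz]
    rfl
  exact ha.eqOn_zero_of_preconnected_of_eventuallyEq_zero hpre hp he hs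

end Pool.Agent.GPH
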