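import Pool.Agent.GPH.CDet

/-!
# GPH part II: module CCOM
-/

open scoped BigOperators Topology
open Metric Set

namespace Pool.Agent.GPH

namespace CComL

open Polynomial Matrix CDetL

/-- evaluation of the columns of `Cop c` at a critical point -/
lemma row_eval {m : ℕ} (c : Fin m → ℂ) (z : ℂ) (hz : (g0 c).eval z = 0) (k : Fin m) :
    ∑ l : Fin m, z ^ (l : ℕ) * Cop c l k = (f0 c).eval z * z ^ (k : ℕ) := by
  have h1 : ((X ^ (k : ℕ) * f0 c) %ₘ g0 c).eval z = z ^ (k : ℕ) * (f0 c).eval z := by
    have h2 := congrArg (Polynomial.eval z) (modByMonic_add_div (X ^ (k : ℕ) * f0 c) (g0 c))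
    rw [eval_add, eval_mul, hz, zero_mul, add_zero, eval_mul, eval_pow, eval_X] at h2
    exact h2
  have hd : ((X ^ (k : ℕ) * f0 c) %ₘ g0 c).degree < (m : WithBot ℕ) := by
    rw [← g0_degree c]; exact degree_modByMonic_lt _ (g0_monic c)
  rw [← pol_of_degree _ hd] at h1
  rw [mul_comm, ← h1]
  unfold pol
  rw [eval_finsetSum]
  refine Finset.sum_congr rfl (fun l _ => ?_)
  rw [eval_mul, eval_C, eval_pow, eval_X, mul_comm]
  rfl

end CComL

open CComL CDetL Polynomial Matrix in
theorem ccom_proof (hE : Stmt_CEig) (hT : Stmt_DTri) (hD : Stmt_CDet) : Stmt_CCom := by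
  intro m c h2 Z hZ1 hZ2
  rcases Nat.eq_zero_or_pos m with rfl | hmpos
  · exact ⟨0, by ext i; exact i.elim0⟩
  have : NeZero m := ⟨hmpos.ne'⟩
  have hm1 := m1_ne m
  obtain ⟨htri, hdia⟩ := hT m c
  obtain ⟨κ, P, hκ, hP, hCP⟩ := hE m c h2
  set Y := Z.transpose with hY
  have hY1 : Cop c * Y = Y * Cop c := by
    have := congrArg Matrix.transpose hZ1
    rw [Matrix.transpose_mul, Matrix.transpose_mul, Matrix.transpose_transpose] at this
    exact this
  have hY2 : Dop c * Y = Y * Dop c := by
    have := congrArg Matrix.transpose hZ2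
    rw [Matrix.transpose_mul, Matrix.transpose_mul, Matrix.transpose_transpose] at this
    exact this
  -- the first column of `Y`
  have hcol : ∀ l : Fin m, l ≠ 0 → Y l 0 = 0 := by
    have heq : ∀ l : Fin m, ∑ k, Dop c l k * Y k 0 = Dop c 0 0 * Y l 0 := by
      intro l
      have h3 := congrFun (congrFun hY2 l) 0
      rw [Matrix.mul_apply, Matrix.mul_apply] at h3
      rw [h3, Finset.sum_eq_single 0]
      · rw [mul_comm]
      · intro b _ hb
        rw [htri b 0 (Fin.pos_iff_ne_zero.mpr hb), mul_zero]
      · intro h; exact absurd (Finset.mem_univ _) h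
    by_contra hcon
    push Not at hcon
    obtain ⟨l0, hl0, hl0'⟩ := hcon
    have hne : (Finset.univ.filter (fun l : Fin m => l ≠ 0 ∧ Y l 0 ≠ 0)).Nonempty :=
      ⟨l0, by simp [hl0, hl0']⟩
    obtain ⟨l, hl, hmax⟩ := Finset.exists_max_image _ id hne
    simp only [Finset.mem_filter, Finset.mem_univ, true_and, id] at hl hmax
    have h3 := heq l
    rw [Finset.sum_eq_single l] at h3
    · have h4 := mul_right_cancel₀ hl.2 h3
      rw [hdia, hdia] at h4
      have h5 : ((l : ℕ) : ℂ) = 0 := by
        have h6 : (((l : ℕ) : ℂ) + 1) / ((m : ℂ) + 1) = (((0 : Fin m) : ℕ) + 1 : ℂ) / ((m : ℂ) + 1) := by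
          linear_combination h4
        rw [div_left_inj' hm1] at h6
        simpa using h6
      apply hl.1
      apply Fin.ext
      have : (l : ℕ) = 0 := by exact_mod_cast h5
      simpa using this
    · intro k _ hk
      rcases lt_or_gt_of_ne hk with h4 | h4
      · rw [htri l k h4, zero_mul]
      · have h5 : Y k 0 = 0 := by
          by_contra h6
          have h7 : k ≠ 0 := by
            intro h8; rw [h8] at h4; exact absurd h4 (Fin.not_lt_zero l)
          exact absurd (hmax k ⟨h7, h6⟩) (not_le.mpr h4)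
        rw [h5, mul_zero]
    · intro h; exact absurd (Finset.mem_univ _) h
  -- the critical points
  have hz : ∀ i : Fin m, ∃ z : ℂ, (g0 c).eval z = 0 ∧ (f0 c).eval z = κ i := by
    intro i
    have hdet : ((-κ i) • (1 : Matrix (Fin m) (Fin m) ℂ) + Cop c).det = 0 := by
      rw [← Matrix.det_transpose, ← Matrix.exists_mulVec_eq_zero_iff]
      refine ⟨fun a => P a i, ?_, ?_⟩
      · intro h0
        apply hP
        rw [← Matrix.exists_mulVec_eq_zero_iff]
        refine ⟨Pi.single i 1, ?_, ?_⟩
        · intro h1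
          have := congrFun h1 i
          simp at this
        · rw [Matrix.mulVec_single_one]
          exact h0
      · rw [Matrix.transpose_add, Matrix.transpose_smul, Matrix.transpose_one, Matrix.add_mulVec,
          Matrix.smul_mulVec, Matrix.one_mulVec]
        funext a
        have h3 := congrFun (congrFun hCP a) i
        rw [Matrix.mul_apply, Matrix.mul_diagonal] at h3
        simp only [Pi.add_apply, Pi.smul_apply, Matrix.mulVec, dotProduct, smul_eq_mul,
          Pi.zero_apply]
        rw [h3]; ring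
    have hns : ¬ (f0 c + C (-κ i)).Separable := by
      intro h3
      exact (hD m c (-κ i)).mpr h3 hdet
    have hder : derivative (f0 c + C (-κ i)) = C ((m : ℂ) + 1) * g0 c := by
      rw [derivative_add, derivative_C, add_zero, deriv_eq]
    rw [separable_def, hder] at hns
    have hns2 : ¬ IsCoprime (f0 c + C (-κ i)) (g0 c) := by
      intro h3
      apply hns
      exact (isCoprime_mul_unit_left_right
        (isUnit_C.mpr (isUnit_iff_ne_zero.mpr hm1)) _ _).mpr h3
    by_contra hcon
    push Not at hcon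
    apply hns2
    rw [Polynomial.isCoprime_iff_aeval_ne_zero_of_isAlgClosed ℂ ℂ]
    intro a
    by_contra h3
    push Not at h3
    obtain ⟨h4, h5⟩ := h3
    rw [Polynomial.coe_aeval_eq_eval] at h4 h5
    rw [eval_add, eval_C] at h4
    exact hcon a h5 (by linear_combination h4)
  choose z hz1 hz2 using hz
  have hzinj : Function.Injective z := by
    intro i j hij
    apply hκ
    rw [← hz2 i, ← hz2 j, hij]
  -- the Vandermonde matrix
  set E : Matrix (Fin m) (Fin m) ℂ := Matrix.vandermonde z with hEdef
  have hEdet : IsUnit E.det := isUnit_iff_ne_zero.mpr (Matrix.det_vandermonde_ne_zero_iff.mpr hzinj)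
  have hEC : E * Cop c = Matrix.diagonal κ * E := by
    ext i k
    rw [Matrix.mul_apply, Matrix.diagonal_mul]
    have := row_eval c (z i) (hz1 i) k
    rw [hz2 i] at this
    exact this
  set A := E * Y * E⁻¹ with hA
  have hAE : A * E = E * Y := by
    rw [hA, Matrix.mul_assoc, Matrix.nonsing_inv_mul _ hEdet, Matrix.mul_one]
  have hAd : A * Matrix.diagonal κ = Matrix.diagonal κ * A := by
    have h3 : A * Matrix.diagonal κ * E = Matrix.diagonal κ * A * E := by
      rw [Matrix.mul_assoc, ← hEC, ← Matrix.mul_assoc, hAE, Matrix.mul_assoc, ← hY1,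
        ← Matrix.mul_assoc, hEC, Matrix.mul_assoc, Matrix.mul_assoc, hAE]
    have h4 := congrArg (fun M => M * E⁻¹) h3
    simp only [Matrix.mul_assoc, Matrix.mul_nonsing_inv _ hEdet, Matrix.mul_one] at h4
    exact h4
  have hAoff : ∀ i j, i ≠ j → A i j = 0 := by
    intro i j hij
    have h3 := congrFun (congrFun hAd i) j
    rw [Matrix.mul_diagonal, Matrix.diagonal_mul] at h3
    have h4 : A i j * (κ j - κ i) = 0 := by linear_combination h3
    rcases mul_eq_zero.mp h4 with h5 | h5
    · exact h5
    · exact absurd (hκ (sub_eq_zero.mp h5)) (Ne.symm hij)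
  have hAdia : ∀ i, A i i = Y 0 0 := by
    intro i
    have h3 := congrFun (congrFun hAE i) 0
    rw [Matrix.mul_apply, Matrix.mul_apply, Finset.sum_eq_single i, Finset.sum_eq_single 0] at h3
    · simpa [hEdef, Matrix.vandermonde_apply] using h3
    · intro b _ hb
      rw [hcol b hb, mul_zero]
    · intro h; exact absurd (Finset.mem_univ _) h
    · intro b _ hb
      rw [hAoff i b (Ne.symm hb), zero_mul]
    · intro h; exact absurd (Finset.mem_univ _) h
  have hA1 : A = Y 0 0 • (1 : Matrix (Fin m) (Fin m) ℂ) := by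
    ext i j
    by_cases hij : i = j
    · subst hij; rw [hAdia]; simp
    · rw [hAoff i j hij]; simp [hij]
  refine ⟨Y 0 0, ?_⟩
  have hYf : Y = Y 0 0 • (1 : Matrix (Fin m) (Fin m) ℂ) := by
    have h3 : E * Y = E * (Y 0 0 • (1 : Matrix (Fin m) (Fin m) ℂ)) := by
      rw [← hAE, hA1, Matrix.smul_mul, Matrix.one_mul, Matrix.mul_smul, Matrix.mul_one]
    have h4 := congrArg (fun M => E⁻¹ * M) h3
    simp only [← Matrix.mul_assoc, Matrix.nonsing_inv_mul _ hEdet, Matrix.one_mul] at h4
    exact h4
  have h5 : Z = Y.transpose := by rw [hY, Matrix.transpose_transpose]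
  rw [h5, hYf, Matrix.transpose_smul, Matrix.transpose_one]
  simp

end Pool.Agent.GPH
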