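import Pool.Agent.GPH.IIStmts

/-!
# GPH, module CDMAP: compatibility of the matrices with ring homomorphisms
-/

open scoped BigOperators
open Polynomial

namespace Pool.Agent.GPH

namespace Cdmap_

variable {R : Type} [CommRing R] {R' : Type} [CommRing R']

theorem f0_map (φ : R →+* R') {m : ℕ} (c : Fin m → R) :
    f0 (fun k => φ (c k)) = (f0 c).map φ := by
  unfold f0
  simp only [Polynomial.map_add, Polynomial.map_pow, Polynomial.map_X, Polynomial.map_sum,
    Polynomial.map_mul, Polynomial.map_C]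

theorem f0_coeff_top {m : ℕ} (c : Fin m → R) : (f0 c).coeff (m + 1) = 1 := by
  unfold f0
  rw [Polynomial.coeff_add, Polynomial.finsetSum_coeff, Finset.sum_eq_zero, add_zero,
    Polynomial.coeff_X_pow, if_pos rfl]
  intro k _
  rw [Polynomial.coeff_C_mul, Polynomial.coeff_X_pow, if_neg, mul_zero]
  have := k.2
  omega

theorem f0_coeff_gt {m : ℕ} (c : Fin m → R) (n : ℕ) (hn : m + 1 < n) : (f0 c).coeff n = 0 := by
  unfold f0
  rw [Polynomial.coeff_add, Polynomial.finsetSum_coeff, Finset.sum_eq_zero, add_zero,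
    Polynomial.coeff_X_pow, if_neg (by omega)]
  intro k _
  rw [Polynomial.coeff_C_mul, Polynomial.coeff_X_pow, if_neg, mul_zero]
  have := k.2
  omega

theorem g0_map [Algebra ℚ R] [Algebra ℚ R'] (φ : R →+* R') {m : ℕ} (c : Fin m → R) :
    g0 (fun k => φ (c k)) = (g0 c).map φ := by
  have hq : ∀ q : ℚ, φ (algebraMap ℚ R q) = algebraMap ℚ R' q :=
    fun q => RingHom.map_rat_algebraMap φ q
  unfold g0
  rw [f0_map, Polynomial.derivative_map, Polynomial.map_mul, Polynomial.map_C, hq]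

theorem g0_coeff_top [Algebra ℚ R] {m : ℕ} (c : Fin m → R) : (g0 c).coeff m = 1 := by
  unfold g0
  rw [Polynomial.coeff_C_mul, Polynomial.coeff_derivative, f0_coeff_top, one_mul]
  have h : (algebraMap ℚ R) ((m : ℚ) + 1) = (m : R) + 1 := by simp
  rw [← h, ← map_mul]
  have h2 : (1 / ((m : ℚ) + 1)) * ((m : ℚ) + 1) = 1 := by
    have : ((m : ℚ) + 1) ≠ 0 := by positivity
    field_simp
  rw [h2, map_one]

theorem g0_coeff_gt [Algebra ℚ R] {m : ℕ} (c : Fin m → R) (n : ℕ) (hn : m < n) :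
    (g0 c).coeff n = 0 := by
  unfold g0
  rw [Polynomial.coeff_C_mul, Polynomial.coeff_derivative, f0_coeff_gt c (n + 1) (by omega),
    zero_mul, mul_zero]

theorem g0_monic [Algebra ℚ R] {m : ℕ} (c : Fin m → R) : (g0 c).Monic := by
  refine Polynomial.monic_of_natDegree_le_of_coeff_eq_one m ?_ (g0_coeff_top c)
  rw [Polynomial.natDegree_le_iff_coeff_eq_zero]
  intro n hn
  exact g0_coeff_gt c n hn

end Cdmap_

open Cdmap_

theorem cdmap_proof : Stmt_CDmap := by
  intro R R' _ _ _ _ φ m c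
  have hC : Cop (fun k => φ (c k)) = (Cop c).map φ := by
    ext l k
    show ((Polynomial.X ^ (k : ℕ) * f0 (fun k => φ (c k))) %ₘ g0 (fun k => φ (c k))).coeff l =
      φ (((Polynomial.X ^ (k : ℕ) * f0 c) %ₘ g0 c).coeff l)
    rw [f0_map, g0_map, ← Polynomial.coeff_map, Polynomial.map_modByMonic _ (g0_monic c),
      Polynomial.map_mul, Polynomial.map_pow, Polynomial.map_X]
  refine ⟨hC, ?_, ?_⟩
  · ext l k
    show (Polynomial.C (algebraMap ℚ R' (1 / ((m : ℚ) + 1))) *
      Polynomial.derivative ((Polynomial.X ^ (k : ℕ) * f0 (fun k => φ (c k))) /ₘ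
        g0 (fun k => φ (c k))) -
      Polynomial.C (algebraMap ℚ R' (1 / 2)) * Polynomial.X ^ (k : ℕ)).coeff l =
      φ ((Polynomial.C (algebraMap ℚ R (1 / ((m : ℚ) + 1))) *
        Polynomial.derivative ((Polynomial.X ^ (k : ℕ) * f0 c) /ₘ g0 c) -
      Polynomial.C (algebraMap ℚ R (1 / 2)) * Polynomial.X ^ (k : ℕ)).coeff l)
    have hq : ∀ q : ℚ, φ (algebraMap ℚ R q) = algebraMap ℚ R' q :=
      fun q => RingHom.map_rat_algebraMap φ q
    rw [f0_map, g0_map, ← Polynomial.coeff_map, Polynomial.map_sub, Polynomial.map_mul,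
      Polynomial.map_mul, Polynomial.map_C, Polynomial.map_C, hq, hq,
      ← Polynomial.derivative_map,
      Polynomial.map_divByMonic _ (g0_monic c), Polynomial.map_mul, Polynomial.map_pow,
      Polynomial.map_X]
  · unfold P2
    rw [hC, RingHom.map_det]
    congr 1
    ext i j
    show (((Cop c).map φ) ^ ((i : ℕ) + (j : ℕ))).trace = φ ((Cop c ^ ((i : ℕ) + (j : ℕ))).trace)
    have h1 : ((Cop c).map φ) = φ.mapMatrix (Cop c) := rfl
    rw [h1, ← map_pow]
    show ((Cop c ^ ((i : ℕ) + (j : ℕ))).map φ).trace = _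
    unfold Matrix.trace
    rw [map_sum]
    rfl

end Pool.Agent.GPH
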