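import Pool.Agent.GPH.IIStmts

/-!
# GPH, CDID: the division identities
-/

open scoped BigOperators Topology
open Metric Set

namespace Pool.Agent.GPH

namespace CDidX

open Polynomial

variable {m : ℕ} (c : Fin m → ℂ)

theorem low_deg : (∑ k : Fin m, C (c k) * (X : ℂ[X]) ^ ((k : ℕ) + 1)).natDegree ≤ m := by
  apply natDegree_sum_le_of_forall_le
  intro k _
  exact (natDegree_C_mul_X_pow_le _ _).trans k.2

theorem low_degree : (∑ k : Fin m, C (c k) * (X : ℂ[X]) ^ ((k : ℕ) + 1)).degree < ((m + 1 : ℕ) : WithBot ℕ) := by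
  refine (degree_le_natDegree).trans_lt ?_
  exact_mod_cast Nat.lt_succ_of_le (low_deg c)

theorem f0_monic : (f0 c).Monic := monic_X_pow_add (low_degree c)

theorem f0_natDegree : (f0 c).natDegree = m + 1 := by
  unfold f0
  rw [natDegree_add_eq_left_of_degree_lt, natDegree_X_pow]
  rw [degree_X_pow]
  exact low_degree c

theorem f0_coeff_top : (f0 c).coeff (m + 1) = 1 := by
  have := (f0_monic c).coeff_natDegree
  rwa [f0_natDegree] at this

theorem qq (m : ℕ) : (algebraMap ℚ ℂ) (1 / ((m : ℚ) + 1)) = 1 / ((m : ℂ) + 1) := by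
  simp

theorem cast_ne (m : ℕ) : ((m : ℂ) + 1) ≠ 0 := Nat.cast_add_one_ne_zero m

theorem g0_natDegree_le : (g0 c).natDegree ≤ m := by
  unfold g0
  refine (natDegree_C_mul_le _ _).trans ?_
  have := natDegree_derivative_le (f0 c)
  rw [f0_natDegree] at this
  omega

theorem g0_coeff_top : (g0 c).coeff m = 1 := by
  unfold g0
  rw [coeff_C_mul, coeff_derivative, f0_coeff_top, qq]
  have := cast_ne m
  field_simp

theorem g0_monic : (g0 c).Monic := monic_of_natDegree_le_of_coeff_eq_one m (g0_natDegree_le c)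
  (g0_coeff_top c)

theorem g0_natDegree : (g0 c).natDegree = m := by
  apply le_antisymm (g0_natDegree_le c)
  apply le_natDegree_of_ne_zero
  rw [g0_coeff_top]
  exact one_ne_zero

theorem sum_fin (p : ℂ[X]) (hp : p.natDegree < m) :
    ∑ l : Fin m, C (p.coeff l) * (X : ℂ[X]) ^ (l : ℕ) = p := by
  have h := as_sum_range_C_mul_X_pow' p hp
  rw [Finset.sum_range] at h
  exact h.symm

end CDidX

open CDidX Polynomial in
theorem cDid_proof : Stmt_CDid := by
  intro m c k
  have hm : 0 < m := k.pos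
  have hg := g0_monic c
  have hgd := g0_natDegree c
  refine ⟨C (1 / ((m : ℂ) + 1)) * ((X ^ (k : ℕ) * f0 c) /ₘ g0 c), ?_, ?_⟩
  · have h1 := modByMonic_add_div (X ^ (k : ℕ) * f0 c) (g0 c)
    have h2 : g0 c = C (1 / ((m : ℂ) + 1)) * derivative (f0 c) := by
      unfold g0
      rw [qq]
    have h3 : ((X ^ (k : ℕ) * f0 c) %ₘ g0 c).natDegree < m := by
      have := natDegree_modByMonic_lt (X ^ (k : ℕ) * f0 c) hg (by
        intro h
        rw [h, natDegree_one] at hgd
        omega)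
      rwa [hgd] at this
    have h4 := sum_fin _ h3
    have h5 : ∑ l : Fin m, C (Cop c l k) * (X : ℂ[X]) ^ (l : ℕ) =
        (X ^ (k : ℕ) * f0 c) %ₘ g0 c := by
      rw [← h4]
      rfl
    rw [h5]
    conv_lhs => rw [← h1]
    have h6 : C (1 / ((m : ℂ) + 1)) * ((X ^ (k : ℕ) * f0 c) /ₘ g0 c) * derivative (f0 c) =
        g0 c * ((X ^ (k : ℕ) * f0 c) /ₘ g0 c) := by
      conv_rhs => rw [h2]
      rw [h2]
      ring
    rw [h6]
    ring
  · have h7 : ((X ^ (k : ℕ) * f0 c) /ₘ g0 c).natDegree ≤ (k : ℕ) + 1 := by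
      rw [natDegree_divByMonic _ hg, hgd]
      have := natDegree_mul_le (p := (X : ℂ[X]) ^ (k : ℕ)) (q := f0 c)
      rw [natDegree_X_pow, f0_natDegree] at this
      omega
    have h8 : (C (algebraMap ℚ ℂ (1 / ((m : ℚ) + 1))) *
      derivative ((X ^ (k : ℕ) * f0 c) /ₘ g0 c) -
      C (algebraMap ℚ ℂ (1 / 2)) * X ^ (k : ℕ)).natDegree < m := by
      refine lt_of_le_of_lt (natDegree_sub_le _ _) (max_lt ?_ ?_)
      · refine lt_of_le_of_lt (natDegree_C_mul_le _ _) ?_
        have := natDegree_derivative_le ((X ^ (k : ℕ) * f0 c) /ₘ g0 c)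
        have := k.2
        omega
      · exact lt_of_le_of_lt (natDegree_C_mul_X_pow_le _ _) k.2
    have h9 := sum_fin _ h8
    have h10 : ∑ l : Fin m, C (Dop c l k) * (X : ℂ[X]) ^ (l : ℕ) = _ := h9
    rw [h10, derivative_C_mul, qq]
    congr 3
    simp

end Pool.Agent.GPH
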