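import Pool.Agent.GPH.VStmts2

/-!
# GPH, module FIBERZ
-/

open scoped BigOperators Topology
open Metric Set
open Pool.Agent.HGP (Ix Simil Idx fvec opt)

namespace Pool.Agent.GPH.FIBERZ

noncomputable section

/-- `fus` and `f0`. -/
theorem fus_eq (g : ℕ) (u : Fin (2 * g) → ℂ) (s : ℂ) :
    fus g u s = f0 u + Polynomial.C s := by
  unfold fus pol f0
  rw [Fin.sum_univ_succ]
  simp only [Fin.cons_zero, Fin.cons_succ, Fin.val_zero, Fin.val_succ, pow_zero, mul_one]
  ring

/-- The numerators do not depend on the constant coefficient. -/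
theorem num_eq (g : ℕ) (f : Polynomial ℂ) (s : ℂ) (k : Ix g) :
    num g (f + Polynomial.C s) k = num g f k := by
  cases k with
  | inl j => rfl
  | inr j =>
    unfold num
    refine Finset.sum_congr rfl fun n hn => ?_
    have h3 : n ≠ 0 := by
      have := (Finset.mem_Ico.1 hn).1
      omega
    rw [Polynomial.coeff_add, Polynomial.coeff_C_of_ne_zero h3, add_zero]

theorem Nm_eq (g : ℕ) (f : Polynomial ℂ) (s : ℂ) : Nm g (f + Polynomial.C s) = Nm g f := by
  ext k l
  unfold Nm
  rw [Matrix.of_apply, Matrix.of_apply, num_eq]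

/-- `EEp` of a polynomial of small degree. -/
theorem EEp_eq (N : ℕ) (z : ℕ → ℂ) (m : ℕ) (p : Polynomial ℂ) (n : ℕ) (a : Fin n → ℂ)
    (hp : p = ∑ l : Fin n, Polynomial.C (a l) * Polynomial.X ^ (l : ℕ)) :
    EEp N z m p = ∑ l : Fin n, a l * EE N z m l := by
  have hc : ∀ l : Fin n, p.coeff l = a l := by
    intro l
    rw [hp, Polynomial.finsetSum_coeff, Finset.sum_eq_single l]
    · rw [Polynomial.coeff_C_mul, Polynomial.coeff_X_pow, if_pos rfl, mul_one]
    · intro j _ hj
      rw [Polynomial.coeff_C_mul, Polynomial.coeff_X_pow, if_neg, mul_zero]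
      intro h
      exact hj (Fin.ext h.symm)
    · intro h
      exact absurd (Finset.mem_univ l) h
  have hc0 : ∀ l, n ≤ l → p.coeff l = 0 := by
    intro l hl
    rw [hp, Polynomial.finsetSum_coeff]
    refine Finset.sum_eq_zero fun j _ => ?_
    rw [Polynomial.coeff_C_mul, Polynomial.coeff_X_pow, if_neg, mul_zero]
    intro h
    have := j.2
    omega
  unfold EEp
  have h1 : ∑ l ∈ Finset.range (p.natDegree + 1), p.coeff l * EE N z m l =
      ∑ l ∈ Finset.range (max (p.natDegree + 1) n), p.coeff l * EE N z m l := by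
    refine Finset.sum_subset ?_ ?_
    · intro x hx
      rw [Finset.mem_range] at hx ⊢
      exact lt_of_lt_of_le hx (le_max_left _ _)
    · intro x _ hx
      rw [Finset.mem_range, not_lt] at hx
      rw [Polynomial.coeff_eq_zero_of_natDegree_lt (by omega), zero_mul]
  have h2 : ∑ l ∈ Finset.range n, p.coeff l * EE N z m l =
      ∑ l ∈ Finset.range (max (p.natDegree + 1) n), p.coeff l * EE N z m l := by
    refine Finset.sum_subset ?_ ?_
    · intro x hx
      rw [Finset.mem_range] at hx ⊢
      exact lt_of_lt_of_le hx (le_max_right _ _)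
    · intro x _ hx
      rw [Finset.mem_range, not_lt] at hx
      rw [hc0 x hx, zero_mul]
  rw [h1, ← h2, Finset.sum_range]
  exact Finset.sum_congr rfl fun l _ => by rw [hc l]

theorem EEp_X_pow (N : ℕ) (z : ℕ → ℂ) (m l : ℕ) :
    EEp N z m (Polynomial.X ^ l) = EE N z m l := by
  rw [EEp_eq N z m (Polynomial.X ^ l) (l + 1) (fun i => if (i : ℕ) = l then 1 else 0)]
  · rw [Finset.sum_eq_single (⟨l, Nat.lt_succ_self l⟩ : Fin (l + 1))]
    · simp
    · intro b _ hb
      rw [if_neg, zero_mul]
      intro h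
      exact hb (Fin.ext h)
    · intro h
      exact absurd (Finset.mem_univ _) h
  · rw [Finset.sum_eq_single (⟨l, Nat.lt_succ_self l⟩ : Fin (l + 1))]
    · simp
    · intro b _ hb
      rw [if_neg, Polynomial.C_0, zero_mul]
      intro h
      exact hb (Fin.ext h)
    · intro h
      exact absurd (Finset.mem_univ _) h

/-- The period matrix in the basis `x ^ l`. -/
def Wm (g : ℕ) (z : ℕ → ℂ) : Matrix (Fin (2 * g)) (Ix g) ℂ :=
  (refP g z).transpose * (Tm g).transpose

theorem Mz_eq (g : ℕ) (z : ℕ → ℂ) : Mz g z = Nm g (polz g z) * Wm g z := by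
  unfold Mz perM Wm
  rw [Matrix.mul_assoc]

/-- The substitution `W ↦ A W`. -/
def sub (g : ℕ) (A : Matrix (Ix g) (Fin (2 * g)) ℂ)
    (P : MvPolynomial (Option (Ix g × Ix g)) ℂ) :
    MvPolynomial (Option (Fin (2 * g) × Ix g)) ℂ :=
  MvPolynomial.bind₁ (fun o : Option (Ix g × Ix g) => o.elim (MvPolynomial.X none)
    (fun p => ∑ l : Fin (2 * g), MvPolynomial.C (A p.1 l) * MvPolynomial.X (some (l, p.2)))) P

theorem eval_sub (g : ℕ) (A : Matrix (Ix g) (Fin (2 * g)) ℂ)
    (P : MvPolynomial (Option (Ix g × Ix g)) ℂ) (s : ℂ) (W : Matrix (Fin (2 * g)) (Ix g) ℂ) :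
    MvPolynomial.eval (opt s (fun q => W q.1 q.2)) (sub g A P) =
      MvPolynomial.eval (opt s (fun q => (A * W) q.1 q.2)) P := by
  unfold sub
  rw [MvPolynomial.eval, MvPolynomial.eval₂Hom_bind₁]
  congr 2
  funext o
  cases o with
  | none => simp [opt]
  | some p =>
    simp only [Option.elim, opt, map_sum, map_mul, MvPolynomial.eval₂Hom_C,
      MvPolynomial.eval₂Hom_X', RingHom.id_apply, Matrix.mul_apply]

theorem thm (h1 : Stmt_RZ) (h3 : Stmt_OdeE) (h4 : Stmt_CDid) (h5 : Stmt_FibH) :
    Stmt_FiberZ := by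
  intro g hg u hP2 κ s0 R z hR hz hs P hP s M' hM'
  set lam : ℂ := 2 * Real.pi * Complex.I with hlam
  have hlam0 : lam ≠ 0 := by
    rw [hlam]
    exact mul_ne_zero (mul_ne_zero two_ne_zero (Complex.ofReal_ne_zero.2 Real.pi_ne_zero))
      Complex.I_ne_zero
  set A : Matrix (Ix g) (Fin (2 * g)) ℂ := Nm g (f0 u) with hA
  set N : Matrix (Fin (2 * g)) (Fin (2 * g)) ℂ :=
    A.transpose * Matrix.J (Fin g) ℂ * A with hN
  -- the period matrix
  have hMz : ∀ s ∈ ball s0 R, Mz g (fun i => z i s) = A * Wm g (fun i => z i s) := by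
    intro s hs'
    rw [Mz_eq, ← (hs s hs').2, fus_eq, Nm_eq]
  have hsim : ∀ s ∈ ball s0 R, (A * Wm g (fun i => z i s)).transpose * Matrix.J (Fin g) ℂ *
      (A * Wm g (fun i => z i s)) = lam • Matrix.J (Fin g) ℂ := by
    intro s hs'
    have := h1 g κ (fun i => z i s) hg (hs s hs').1
    unfold Simil at this
    rw [hMz s hs'] at this
    exact this
  have hNW : ∀ W : Matrix (Fin (2 * g)) (Ix g) ℂ, W.transpose * N * W =
      (A * W).transpose * Matrix.J (Fin g) ℂ * (A * W) := by
    intro W
    rw [hN, Matrix.transpose_mul]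
    simp only [Matrix.mul_assoc]
  -- the matrix `A` has a right inverse
  have hs0 : s0 ∈ ball s0 R := mem_ball_self hR
  have hJ : IsUnit (Matrix.J (Fin g) ℂ).det := Matrix.isUnit_det_J (Fin g) ℂ
  have hdet : IsUnit (A * Wm g (fun i => z i s0)).det := by
    have h := congrArg Matrix.det (hsim s0 hs0)
    rw [Matrix.det_mul, Matrix.det_mul, Matrix.det_transpose, Matrix.det_smul] at h
    have h2 : lam ^ Fintype.card (Ix g) * (Matrix.J (Fin g) ℂ).det ≠ 0 :=
      mul_ne_zero (pow_ne_zero _ hlam0) hJ.ne_zero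
    rw [← h] at h2
    exact (right_ne_zero_of_mul h2).isUnit
  set L : Matrix (Fin (2 * g)) (Ix g) ℂ :=
    Wm g (fun i => z i s0) * (A * Wm g (fun i => z i s0))⁻¹ with hL
  have hAL : A * L = 1 := by
    rw [hL, ← Matrix.mul_assoc, Matrix.mul_nonsing_inv _ hdet]
  -- the functions
  have hV : IsOpen (ball s0 R) := isOpen_ball
  have hroots : ∀ s ∈ ball s0 R, Ord (2 * g + 1) κ (fun i => z i s) ∧
      ∀ x, (f0 u).eval x + s = fz (2 * g + 1) (fun i => z i s) x := by
    intro s hs'
    refine ⟨(hs s hs').1, fun x => ?_⟩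
    have h := congrArg (Polynomial.eval x) (hs s hs').2
    rw [fus_eq, Polynomial.eval_add, Polynomial.eval_C] at h
    rw [h]
    unfold polz fz
    rw [Polynomial.eval_prod]
    refine Finset.prod_congr rfl fun i _ => ?_
    rw [Polynomial.eval_sub, Polynomial.eval_X, Polynomial.eval_C]
  have hode := fun (m : ℕ) (hm : m + 1 < 2 * g + 1) =>
    h3 (2 * g + 1) κ (f0 u) (ball s0 R) z hV (fun i _ => hz i) hroots m hm
  have hEd : ∀ (m : Fin (2 * g)) (l : ℕ), ∀ s ∈ ball s0 R,
      DifferentiableAt ℂ (fun s => EE (2 * g + 1) (fun i => z i s) m l) s := by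
    intro m l s hs'
    have h := (hode m (by have := m.2; omega)).1 (Polynomial.X ^ l)
    have h2 : (fun s => EEp (2 * g + 1) (fun i => z i s) m (Polynomial.X ^ l)) =
        fun s => EE (2 * g + 1) (fun i => z i s) m l := by
      funext s
      exact EEp_X_pow _ _ _ _
    rw [h2] at h
    exact h.differentiableAt (hV.mem_nhds hs')
  -- the equation of the reference integrals
  have hEq : ∀ (m k : Fin (2 * g)), ∀ s ∈ ball s0 R,
      s * deriv (fun s => EE (2 * g + 1) (fun i => z i s) m k) s +
        ∑ l : Fin (2 * g), Cop u l k * deriv (fun s => EE (2 * g + 1) (fun i => z i s) m l) s =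
      ∑ l : Fin (2 * g), Dop u l k * EE (2 * g + 1) (fun i => z i s) m l := by
    intro m k s hs'
    obtain ⟨w, hw1, hw2⟩ := h4 (2 * g) u k
    have h := (hode m (by have := m.2; omega)).2 (Polynomial.X ^ (k : ℕ)) w
      (∑ l : Fin (2 * g), Polynomial.C (Cop u l k) * Polynomial.X ^ (l : ℕ)) hw1 s hs'
    rw [← hw2, EEp_eq _ _ _ _ (2 * g) (fun l => Dop u l k) rfl] at h
    have e1 : (fun s => EEp (2 * g + 1) (fun i => z i s) m (Polynomial.X ^ (k : ℕ))) =
        fun s => EE (2 * g + 1) (fun i => z i s) m k := by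
      funext s
      exact EEp_X_pow _ _ _ _
    have e2 : (fun s => EEp (2 * g + 1) (fun i => z i s) m
        (∑ l : Fin (2 * g), Polynomial.C (Cop u l k) * Polynomial.X ^ (l : ℕ))) =
        fun s => ∑ l : Fin (2 * g), Cop u l k * EE (2 * g + 1) (fun i => z i s) m l := by
      funext s
      exact EEp_eq _ _ _ _ (2 * g) (fun l => Cop u l k) rfl
    rw [e1, e2] at h
    have e3 : deriv (fun s => ∑ l : Fin (2 * g), Cop u l k *
        EE (2 * g + 1) (fun i => z i s) m l) s =
        ∑ l : Fin (2 * g), Cop u l k *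
          deriv (fun s => EE (2 * g + 1) (fun i => z i s) m l) s := by
      have : HasDerivAt (fun s => ∑ l : Fin (2 * g), Cop u l k *
          EE (2 * g + 1) (fun i => z i s) m l)
          (∑ l : Fin (2 * g), Cop u l k *
          deriv (fun s => EE (2 * g + 1) (fun i => z i s) m l) s) s := by
        refine HasDerivAt.fun_sum fun l _ => ?_
        exact ((hEd m l s hs').hasDerivAt).const_mul _
      exact this.deriv
    rw [e3] at h
    rw [← h]
    ring
  -- the entries of `W`
  have hWent : ∀ (s : ℂ) (l : Fin (2 * g)) (c : Ix g), Wm g (fun i => z i s) l c =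
      ∑ m : Fin (2 * g), (2 * Complex.I ^ (m : ℕ) * Tm g c m) *
        EE (2 * g + 1) (fun i => z i s) m l := by
    intro s l c
    unfold Wm refP
    rw [Matrix.mul_apply]
    refine Finset.sum_congr rfl fun m _ => ?_
    rw [Matrix.transpose_apply, Matrix.transpose_apply, Matrix.of_apply]
    ring
  set W' : ℂ → Matrix (Fin (2 * g)) (Ix g) ℂ := fun s => Matrix.of fun l c =>
      ∑ m : Fin (2 * g), (2 * Complex.I ^ (m : ℕ) * Tm g c m) *
        deriv (fun s => EE (2 * g + 1) (fun i => z i s) m l) s with hW'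
  have hder : ∀ s ∈ ball s0 R, ∀ k j,
      HasDerivAt (fun t => Wm g (fun i => z i t) k j) (W' s k j) s := by
    intro s hs' k j
    have e : (fun t => Wm g (fun i => z i t) k j) = fun t =>
        ∑ m : Fin (2 * g), (2 * Complex.I ^ (m : ℕ) * Tm g j m) *
        EE (2 * g + 1) (fun i => z i t) m k := by
      funext t
      exact hWent t k j
    rw [e, hW']
    simp only [Matrix.of_apply]
    refine HasDerivAt.fun_sum fun m _ => ?_
    exact ((hEd m k s hs').hasDerivAt).const_mul _
  have heq : ∀ s ∈ ball s0 R,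
      (s • (1 : Matrix (Fin (2 * g)) (Fin (2 * g)) ℂ) + (Cop u).transpose) * W' s =
        (Dop u).transpose * Wm g (fun i => z i s) := by
    intro s hs'
    ext k c
    rw [Matrix.add_mul, Matrix.smul_mul, Matrix.one_mul, Matrix.add_apply, Matrix.smul_apply,
      Matrix.mul_apply, Matrix.mul_apply]
    simp only [Matrix.transpose_apply, smul_eq_mul]
    have e1 : ∀ l : Fin (2 * g), Cop u l k * W' s l c = ∑ m : Fin (2 * g),
        (2 * Complex.I ^ (m : ℕ) * Tm g c m) * (Cop u l k *
          deriv (fun s => EE (2 * g + 1) (fun i => z i s) m l) s) := by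
      intro l
      rw [hW']
      simp only [Matrix.of_apply]
      rw [Finset.mul_sum]
      exact Finset.sum_congr rfl fun m _ => by ring
    have e2 : ∀ l : Fin (2 * g), Dop u l k * Wm g (fun i => z i s) l c = ∑ m : Fin (2 * g),
        (2 * Complex.I ^ (m : ℕ) * Tm g c m) * (Dop u l k *
          EE (2 * g + 1) (fun i => z i s) m l) := by
      intro l
      rw [hWent, Finset.mul_sum]
      exact Finset.sum_congr rfl fun m _ => by ring
    have e3 : s * W' s k c = ∑ m : Fin (2 * g),
        (2 * Complex.I ^ (m : ℕ) * Tm g c m) * (s *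
          deriv (fun s => EE (2 * g + 1) (fun i => z i s) m k) s) := by
      rw [hW']
      simp only [Matrix.of_apply]
      rw [Finset.mul_sum]
      exact Finset.sum_congr rfl fun m _ => by ring
    rw [Finset.sum_congr rfl fun l _ => e1 l, Finset.sum_congr rfl fun l _ => e2 l, e3,
      Finset.sum_comm, Finset.sum_comm (s := Finset.univ) (t := Finset.univ)
        (f := fun l m => (2 * Complex.I ^ ((m : Fin (2 * g)) : ℕ) * Tm g c m) * (Dop u l k *
          EE (2 * g + 1) (fun i => z i s) m l)), ← Finset.sum_add_distrib]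
    refine Finset.sum_congr rfl fun m _ => ?_
    rw [← Finset.mul_sum, ← Finset.mul_sum, ← mul_add, hEq m k s hs']
  -- separability
  have hsep : ∀ s ∈ ball s0 R, (f0 u + Polynomial.C s).Separable := by
    intro s hs'
    rw [← fus_eq, (hs s hs').2]
    unfold polz
    rw [Polynomial.separable_prod_X_sub_C_iff']
    intro i hi j hj hij
    by_contra hne
    have hord := (hs s hs').1.2
    rcases lt_or_gt_of_ne hne with h | h
    · have h2 : 0 < (κ * (z j s - z i s)).re := hord i j h (Finset.mem_range.1 hj)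
      rw [hij, sub_self, mul_zero] at h2
      exact lt_irrefl _ h2
    · have h2 : 0 < (κ * (z i s - z j s)).re := hord j i h (Finset.mem_range.1 hi)
      rw [hij, sub_self, mul_zero] at h2
      exact lt_irrefl _ h2
  -- the conclusion
  have hfin := h5 g u hg hP2 N lam hlam0 s0 R hR hsep (fun s => Wm g (fun i => z i s)) W' hder heq
    (fun s hs' => by rw [hNW]; exact hsim s hs') (sub g A P)
    (fun s hs' => by
      rw [eval_sub, ← hMz s hs']
      exact hP s hs') s (L * M') (by
        have e : A * (L * M') = M' := by rw [← Matrix.mul_assoc, hAL, Matrix.one_mul]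
        rw [hNW, e]
        exact hM')
  rw [eval_sub, ← Matrix.mul_assoc, hAL, Matrix.one_mul] at hfin
  exact hfin

end

end Pool.Agent.GPH.FIBERZ
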