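import Pool.Agent.GPH.VStmts

/-!
# GPH, part IV, module LOCROOTS: ordered roots near a polynomial with simple roots
-/

open scoped BigOperators Topology
open Metric Set Filter

namespace Pool.Agent.GPH.LOCROOTS

/-- A monic separable polynomial over `ℂ` is a product of linear factors with distinct roots. -/
theorem split (N : ℕ) (P : Polynomial ℂ) (hm : P.Monic) (hd : P.natDegree = N)
    (hs : P.Separable) : ∃ z : ℕ → ℂ, (∀ i < N, ∀ j < N, z i = z j → i = j) ∧
      P = ∏ i ∈ Finset.range N, (Polynomial.X - Polynomial.C (z i)) := by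
  classical
  have hnd : P.roots.Nodup := Polynomial.nodup_roots hs
  have hcard : P.roots.card = N := by
    rw [← hd]
    exact (IsAlgClosed.splits P).natDegree_eq_card_roots.symm
  have hprod : P = (P.roots.map fun a => Polynomial.X - Polynomial.C a).prod :=
    ((IsAlgClosed.splits P).eq_prod_roots_of_monic hm)
  have hc2 : P.roots.toFinset.card = N := by
    rw [Multiset.toFinset_card_of_nodup hnd, hcard]
  let e : Fin N ≃ P.roots.toFinset := (P.roots.toFinset.equivFinOfCardEq hc2).symm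
  refine ⟨fun i => if h : i < N then (e ⟨i, h⟩ : ℂ) else 0, ?_, ?_⟩
  · intro i hi j hj hij
    simp only [dif_pos hi, dif_pos hj] at hij
    have h1 := e.injective (Subtype.ext hij)
    exact congrArg Fin.val h1
  · have h1 : (∏ i ∈ Finset.range N, (Polynomial.X - Polynomial.C
        ((fun i => if h : i < N then (e ⟨i, h⟩ : ℂ) else 0) i))) =
        ∏ i : Fin N, (Polynomial.X - Polynomial.C (e i : ℂ)) := by
      rw [Finset.prod_range]
      refine Finset.prod_congr rfl fun i _ => ?_
      simp only [dif_pos i.2]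
    rw [h1]
    have h2 : ∏ i : Fin N, (Polynomial.X - Polynomial.C (e i : ℂ)) =
        ∏ a : P.roots.toFinset, (Polynomial.X - Polynomial.C (a : ℂ)) :=
      Equiv.prod_comp e (fun a : P.roots.toFinset => Polynomial.X - Polynomial.C (a : ℂ))
    rw [h2, Finset.prod_coe_sort P.roots.toFinset
      (fun a => Polynomial.X - Polynomial.C a)]
    conv_lhs => rw [hprod]
    rw [Finset.prod]
    congr 1
    congr 1
    rw [Multiset.toFinset_val, hnd.dedup]

theorem pol_monic (n : ℕ) (c : Fin n → ℂ) : (pol n c).Monic ∧ (pol n c).natDegree = n := by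
  have h1 : (∑ i, Polynomial.C (c i) * Polynomial.X ^ (i : ℕ)).degree < (n : WithBot ℕ) := by
    refine (Polynomial.degree_lt_iff_coeff_zero _ _).2 fun k hk => ?_
    rw [Polynomial.finsetSum_coeff]
    refine Finset.sum_eq_zero fun i _ => ?_
    rw [Polynomial.coeff_C_mul_X_pow, if_neg]
    have := i.2
    omega
  have h2 : (pol n c).Monic := by
    unfold pol
    exact Polynomial.monic_X_pow_add h1
  refine ⟨h2, ?_⟩
  unfold pol
  rw [Polynomial.natDegree_eq_of_degree_eq_some]
  rw [Polynomial.degree_add_eq_left_of_degree_lt]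
  · exact Polynomial.degree_X_pow n
  · rwa [Polynomial.degree_X_pow]

theorem pol_eval (n : ℕ) (c : Fin n → ℂ) (x : ℂ) : (pol n c).eval x = fa n c x := by
  unfold pol fa
  rw [Polynomial.eval_add, Polynomial.eval_finsetSum]
  simp

theorem prod_eval (N : ℕ) (z : ℕ → ℂ) (x : ℂ) :
    (∏ i ∈ Finset.range N, (Polynomial.X - Polynomial.C (z i))).eval x = fz N z x := by
  unfold fz
  rw [Polynomial.eval_prod]
  simp

theorem cons_cont (g : ℕ) :
    Continuous (fun q : (Fin (2 * g) → ℂ) × ℂ => (Fin.cons q.2 q.1 : Fin (2 * g + 1) → ℂ)) := by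
  refine continuous_pi fun i => ?_
  refine Fin.cases ?_ (fun j => ?_) i
  · simp only [Fin.cons_zero]
    exact continuous_snd
  · simp only [Fin.cons_succ]
    exact (continuous_apply j).comp continuous_fst

theorem cons_diff (g : ℕ) (u : Fin (2 * g) → ℂ) :
    Differentiable ℂ (fun s : ℂ => (Fin.cons s u : Fin (2 * g + 1) → ℂ)) := by
  rw [differentiable_pi]
  intro i
  refine Fin.cases ?_ (fun j => ?_) i
  · simp only [Fin.cons_zero]
    exact differentiable_id
  · simp only [Fin.cons_succ]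
    exact differentiable_const _

/-- LOCROOTS -/
theorem thm (hR : Stmt_Roots) (hO : Stmt_OrdEx) : Stmt_LocRoots := by
  classical
  intro g u0 s0 hsep
  set N := 2 * g + 1 with hN
  obtain ⟨z0, hinj0, hprod0⟩ := split N (fus g u0 s0) (pol_monic _ _).1 (pol_monic _ _).2 hsep
  obtain ⟨κ, σ, hσ, hord⟩ := hO N z0 hinj0
  have hmap : (Finset.range N).map σ.toEmbedding = Finset.range N := by
    refine Finset.eq_of_subset_of_card_le ?_ (by rw [Finset.card_map])
    intro j hj
    rw [Finset.mem_map] at hj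
    obtain ⟨i, hi, rfl⟩ := hj
    exact Finset.mem_range.2 (hσ i (Finset.mem_range.1 hi))
  have hprod1 : fus g u0 s0 =
      ∏ i ∈ Finset.range N, (Polynomial.X - Polynomial.C (z0 (σ i))) := by
    rw [hprod0]
    conv_lhs => rw [← hmap]
    rw [Finset.prod_map]
    rfl
  have hinj1 : ∀ i < N, ∀ j < N, z0 (σ i) = z0 (σ j) → i = j := by
    intro i hi j hj h
    exact σ.injective (hinj0 _ (hσ i hi) _ (hσ j hj) h)
  have hfa : ∀ x, fa N (Fin.cons s0 u0) x = fz N (fun i => z0 (σ i)) x := by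
    intro x
    rw [← pol_eval, ← prod_eval]
    have : pol N (Fin.cons s0 u0) = fus g u0 s0 := rfl
    rw [this, hprod1]
  obtain ⟨W, z, hWo, hW0, hz0, hzd, hzf⟩ := hR N (Fin.cons s0 u0) (fun i => z0 (σ i)) hinj1 hfa
  have hWn : W ∈ 𝓝 (Fin.cons s0 u0 : Fin N → ℂ) := hWo.mem_nhds hW0
  have hzc : ∀ i, ContinuousAt (z i) (Fin.cons s0 u0 : Fin N → ℂ) := by
    intro i
    exact (hzd i).continuousOn.continuousAt hWn
  have hev : ∀ᶠ a : Fin N → ℂ in 𝓝 (Fin.cons s0 u0 : Fin N → ℂ),
      a ∈ W ∧ Ord N κ (fun i => z i a) := by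
    refine (show ∀ᶠ a : Fin N → ℂ in 𝓝 (Fin.cons s0 u0 : Fin N → ℂ), a ∈ W from hWn).and ?_
    have h1 : ∀ᶠ a : Fin N → ℂ in 𝓝 (Fin.cons s0 u0 : Fin N → ℂ),
        ∀ j ∈ Finset.range N, ∀ i ∈ Finset.range j, 0 < (κ * (z j a - z i a)).re := by
      rw [Filter.eventually_all_finset]
      intro j hj
      rw [Filter.eventually_all_finset]
      intro i hi
      have h2 : ContinuousAt (fun a => (κ * (z j a - z i a)).re)
          (Fin.cons s0 u0 : Fin N → ℂ) :=
        Complex.continuous_re.continuousAt.comp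
          (continuousAt_const.mul ((hzc j).sub (hzc i)))
      refine h2.eventually (lt_mem_nhds ?_)
      show 0 < (κ * (z j (Fin.cons s0 u0) - z i (Fin.cons s0 u0))).re
      rw [hz0, hz0]
      exact hord.2 i j (Finset.mem_range.1 hi) (Finset.mem_range.1 hj)
    filter_upwards [h1] with a ha
    exact ⟨hord.1, fun i j hij hj => ha j (Finset.mem_range.2 hj) i (Finset.mem_range.2 hij)⟩
  have hev2 : ∀ᶠ q : (Fin (2 * g) → ℂ) × ℂ in 𝓝 (u0, s0),
      (Fin.cons q.2 q.1 : Fin N → ℂ) ∈ W ∧
        Ord N κ (fun i => z i (Fin.cons q.2 q.1 : Fin N → ℂ)) :=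
    ((cons_cont g).tendsto (u0, s0)).eventually hev
  obtain ⟨ε, hε, hball⟩ := Metric.eventually_nhds_iff_ball.1 hev2
  have hsub : ∀ u ∈ closedBall u0 (ε / 2), ∀ s ∈ ball s0 ε, ((u, s) : (Fin (2 * g) → ℂ) × ℂ) ∈
      ball (u0, s0) ε := by
    intro u hu s hs
    rw [← ball_prod_same]
    exact ⟨closedBall_subset_ball (by linarith) hu, hs⟩
  refine ⟨ε / 2, ε, κ, fun i u s => z i (Fin.cons s u : Fin N → ℂ), by linarith, hε, ?_, ?_, ?_⟩
  · intro i
    have h1 : ContinuousOn (z i ∘ fun q : (Fin (2 * g) → ℂ) × ℂ =>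
        (Fin.cons q.2 q.1 : Fin N → ℂ)) (closedBall u0 (ε / 2) ×ˢ ball s0 ε) :=
      (hzd i).continuousOn.comp (cons_cont g).continuousOn
        (fun q hq => (hball q (hsub q.1 hq.1 q.2 hq.2)).1)
    exact h1
  · intro i u hu
    have h1 : DifferentiableOn ℂ (z i ∘ fun s : ℂ => (Fin.cons s u : Fin N → ℂ)) (ball s0 ε) :=
      (hzd i).comp (cons_diff g u).differentiableOn
        (fun s hs => (hball (u, s) (hsub u hu s hs)).1)
    exact h1
  · intro u hu s hs
    have h1 := hball (u, s) (hsub u hu s hs)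
    refine ⟨h1.2, ?_⟩
    refine Polynomial.funext fun x => ?_
    have h2 : (fus g u s).eval x = fa N (Fin.cons s u) x := pol_eval N (Fin.cons s u) x
    have h3 : (polz g (fun i => z i (Fin.cons s u : Fin N → ℂ))).eval x =
        fz N (fun i => z i (Fin.cons s u : Fin N → ℂ)) x := prod_eval N _ x
    rw [h2]
    refine (hzf _ h1.1 x).trans h3.symm

end Pool.Agent.GPH.LOCROOTS
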