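import Pool.Agent.GPH.VStmts

/-!
# GPH, LOOPM: periods of closed paths are integral combinations of the columns of `Mz`
-/

open scoped BigOperators Topology
open Metric Set
open Pool.Agent.HGP (Ix Simil Idx fvec opt)

namespace Pool.Agent.GPH.LOOPM

noncomputable section

lemma polz_eval (g : ℕ) (z : ℕ → ℂ) (x : ℂ) : (polz g z).eval x = fz (2 * g + 1) z x := by
  unfold polz fz
  rw [Polynomial.eval_prod]
  simp

/-- The closed path as a loop. -/
def toLoop {g : ℕ} {z : ℕ → ℂ} (γ : CPath (polz g z)) : Loop (fz (2 * g + 1) z) where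
  x := γ.x
  x' := deriv γ.x
  y := γ.y
  hx := fun t _ => ((γ.hx.differentiable (by norm_num)) t).hasDerivAt
  cx := (γ.hx.continuous_deriv le_rfl).continuousOn
  cy := γ.hy.continuousOn
  hy := fun t _ => ⟨by rw [γ.curve, polz_eval], γ.ne t⟩
  cl := ⟨γ.closedx.symm, γ.closedy.symm⟩

lemma per_X {g : ℕ} {z : ℕ → ℂ} (γ : CPath (polz g z)) (l : ℕ) :
    γ.per (Polynomial.X ^ l) = (toLoop γ).per l := by
  unfold CPath.per Loop.per
  refine intervalIntegral.integral_congr (fun t _ => ?_)
  simp only [toLoop, Polynomial.eval_pow, Polynomial.eval_X]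
  ring

lemma per_sum {f : Polynomial ℂ} (γ : CPath f) (p : Polynomial ℂ) (n : ℕ)
    (hp : p.natDegree < n) :
    γ.per p = ∑ l ∈ Finset.range n, p.coeff l * γ.per (Polynomial.X ^ l) := by
  unfold CPath.per
  have h1 : ∀ t : ℝ, p.eval (γ.x t) / γ.y t * deriv γ.x t =
      ∑ l ∈ Finset.range n, p.coeff l *
        (Polynomial.eval (γ.x t) (Polynomial.X ^ l) / γ.y t * deriv γ.x t) := by
    intro t
    rw [Polynomial.eval_eq_sum_range' hp, Finset.sum_div, Finset.sum_mul]
    refine Finset.sum_congr rfl (fun l _ => ?_)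
    simp only [Polynomial.eval_pow, Polynomial.eval_X]
    ring
  rw [intervalIntegral.integral_congr (fun t _ => h1 t), intervalIntegral.integral_finsetSum]
  · refine Finset.sum_congr rfl (fun l _ => ?_)
    rw [intervalIntegral.integral_const_mul]
  · intro l _
    apply Continuous.intervalIntegrable
    refine continuous_const.mul (((Polynomial.continuous _).comp γ.hx.continuous |>.div γ.hy
      γ.ne).mul (γ.hx.continuous_deriv le_rfl))

lemma num_natDegree (g : ℕ) (f : Polynomial ℂ) (k : Ix g) : (num g f k).natDegree < 2 * g := by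
  rcases k with j | j
  · have := j.2
    simp only [num, Polynomial.natDegree_X_pow]
    omega
  · have hj := j.2
    have : (num g f (.inr j)).natDegree ≤ 2 * g - 1 := by
      simp only [num]
      refine Polynomial.natDegree_sum_le_of_forall_le _ _ (fun n hn => ?_)
      refine (Polynomial.natDegree_C_mul_X_pow_le _ _).trans ?_
      rw [Finset.mem_Ico] at hn
      omega
    omega

/-- The coefficients with respect to the symplectic basis. -/
def Kof (g : ℕ) (k : ℕ → ℤ) : Ix g → ℤ
  | .inl i => k (2 * (i : ℕ))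
  | .inr i => k (2 * (i : ℕ) + 1) - (if (i : ℕ) = 0 then 0 else k (2 * (i : ℕ) - 1))

lemma tele (k : ℕ → ℤ) (p : ℕ) :
    ∑ i ∈ Finset.range (p + 1), (k (2 * i + 1) - (if i = 0 then 0 else k (2 * i - 1))) =
      k (2 * p + 1) := by
  induction p with
  | zero => simp
  | succ p ih =>
    rw [Finset.sum_range_succ, ih]
    have : 2 * (p + 1) - 1 = 2 * p + 1 := by omega
    rw [if_neg (by omega), this]
    ring

lemma Kof_sum (g : ℕ) (k : ℕ → ℤ) (m : Fin (2 * g)) :
    ∑ c : Ix g, Tm g c m * (Kof g k c : ℂ) = (k (m : ℕ) : ℂ) := by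
  rw [Fintype.sum_sum_type]
  obtain ⟨m, hm⟩ := m
  rcases Nat.even_or_odd' m with ⟨p, rfl | rfl⟩
  · have h1 : ∑ i : Fin g, Tm g (.inl i) ⟨2 * p, hm⟩ * (Kof g k (.inl i) : ℂ) =
        (k (2 * p) : ℂ) := by
      rw [Finset.sum_eq_single (⟨p, by omega⟩ : Fin g)]
      · simp [Tm, Kof]
      · intro b _ hb
        have : ¬ (2 * p = 2 * (b : ℕ)) := by
          intro h
          apply hb
          ext
          simp only
          omega
        simp only [Tm, Matrix.of_apply, if_neg this, zero_mul]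
      · intro h
        exact absurd (Finset.mem_univ _) h
    have h2 : ∑ i : Fin g, Tm g (.inr i) ⟨2 * p, hm⟩ * (Kof g k (.inr i) : ℂ) = 0 := by
      refine Finset.sum_eq_zero (fun i _ => ?_)
      have : ¬ ((2 * p) % 2 = 1 ∧ 2 * (i : ℕ) < 2 * p) := by omega
      simp only [Tm, Matrix.of_apply, if_neg this, zero_mul]
    rw [h1, h2, add_zero]
  · have h1 : ∑ i : Fin g, Tm g (.inl i) ⟨2 * p + 1, hm⟩ * (Kof g k (.inl i) : ℂ) = 0 := by
      refine Finset.sum_eq_zero (fun i _ => ?_)
      have : ¬ (2 * p + 1 = 2 * (i : ℕ)) := by omega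
      simp only [Tm, Matrix.of_apply, if_neg this, zero_mul]
    have h2 : ∑ i : Fin g, Tm g (.inr i) ⟨2 * p + 1, hm⟩ * (Kof g k (.inr i) : ℂ) =
        (k (2 * p + 1) : ℂ) := by
      have h3 : ∀ i : Fin g, Tm g (.inr i) ⟨2 * p + 1, hm⟩ * (Kof g k (.inr i) : ℂ) =
          (fun i : ℕ => if i < p + 1 then
            ((k (2 * i + 1) - (if i = 0 then 0 else k (2 * i - 1)) : ℤ) : ℂ) else 0) i := by
        intro i
        by_cases hi : (i : ℕ) < p + 1
        · have : (2 * p + 1) % 2 = 1 ∧ 2 * (i : ℕ) < 2 * p + 1 := by omega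
          simp only [Tm, Matrix.of_apply, if_pos this, one_mul, if_pos hi, Kof]
        · have : ¬ ((2 * p + 1) % 2 = 1 ∧ 2 * (i : ℕ) < 2 * p + 1) := by omega
          simp only [Tm, Matrix.of_apply, if_neg this, zero_mul, if_neg hi]
      rw [Finset.sum_congr rfl (fun i _ => h3 i), Fin.sum_univ_eq_sum_range (fun i : ℕ =>
        if i < p + 1 then
            ((k (2 * i + 1) - (if i = 0 then 0 else k (2 * i - 1)) : ℤ) : ℂ) else 0) g,
        ← Finset.sum_filter]
      have h4 : (Finset.range g).filter (fun i => i < p + 1) = Finset.range (p + 1) := by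
        ext i
        simp only [Finset.mem_filter, Finset.mem_range]
        omega
      rw [h4, ← Int.cast_sum, tele]
    rw [h1, h2, zero_add]

theorem thm (h1 : Stmt_Loops) : Stmt_LoopM := by
  intro g κ z hg hO γ
  obtain ⟨k, hk⟩ := h1 g κ z hO (toLoop γ)
  refine ⟨Kof g k, fun i => ?_⟩
  rw [per_sum γ _ (2 * g) (num_natDegree g _ i)]
  have e1 : ∀ l, γ.per (Polynomial.X ^ l) =
      ∑ m : Fin (2 * g), (k (m : ℕ) : ℂ) * (2 * Complex.I ^ (m : ℕ) * EE (2 * g + 1) z m l) := by
    intro l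
    rw [per_X, hk, Fin.sum_univ_eq_sum_range (fun m : ℕ =>
      (k m : ℂ) * (2 * Complex.I ^ m * EE (2 * g + 1) z m l))]
  have e2 : ∑ l ∈ Finset.range (2 * g), (num g (polz g z) i).coeff l *
      γ.per (Polynomial.X ^ l) = ∑ l : Fin (2 * g), Nm g (polz g z) i l *
        ∑ m : Fin (2 * g), (k (m : ℕ) : ℂ) * refP g z m l := by
    rw [← Fin.sum_univ_eq_sum_range (fun l : ℕ => (num g (polz g z) i).coeff l *
      γ.per (Polynomial.X ^ l))]
    refine Finset.sum_congr rfl (fun l _ => ?_)
    rw [e1]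
    rfl
  rw [e2]
  have e3 : ∀ l, ∑ m : Fin (2 * g), (k (m : ℕ) : ℂ) * refP g z m l =
      ∑ c : Ix g, (∑ m : Fin (2 * g), refP g z m l * Tm g c m) * (Kof g k c : ℂ) := by
    intro l
    simp only [← Kof_sum g k, Finset.sum_mul]
    rw [Finset.sum_comm]
    refine Finset.sum_congr rfl (fun c _ => Finset.sum_congr rfl (fun m _ => ?_))
    ring
  simp only [e3, Mz, perM, Matrix.mul_apply, Matrix.transpose_apply, Finset.mul_sum,
    Finset.sum_mul]
  rw [Finset.sum_comm]
  refine Finset.sum_congr rfl (fun c _ => ?_)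
  rw [Finset.sum_comm]
  refine Finset.sum_congr rfl (fun m _ => Finset.sum_congr rfl (fun l _ => ?_))
  ring

end

end Pool.Agent.GPH.LOOPM
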