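import Pool.Agent.GPH.IIIDefs

open scoped BigOperators Topology
open Metric Set

namespace Pool.Agent.GPH.ADM

noncomputable section

lemma exists_gap {N : ℕ} {κ : ℂ} {z : ℕ → ℂ} (h : Ord N κ z) :
    ∃ a : ℝ, 0 < a ∧ ∀ i j, i < j → j < N → a ≤ (κ * (z j - z i)).re := by
  classical
  set s : Finset (ℕ × ℕ) := (Finset.range N ×ˢ Finset.range N).filter (fun p => p.1 < p.2)
  by_cases hs : s.Nonempty
  · obtain ⟨p, hp, hmin⟩ := Finset.exists_min_image s (fun p => (κ * (z p.2 - z p.1)).re) hs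
    have hp' := Finset.mem_filter.mp hp
    have hp2 := Finset.mem_product.mp hp'.1
    refine ⟨(κ * (z p.2 - z p.1)).re, h.2 _ _ hp'.2 (Finset.mem_range.mp hp2.2), ?_⟩
    intro i j hij hj
    exact hmin (i, j) (Finset.mem_filter.mpr ⟨Finset.mem_product.mpr
      ⟨Finset.mem_range.mpr (hij.trans hj), Finset.mem_range.mpr hj⟩, hij⟩)
  · refine ⟨1, one_pos, fun i j hij hj => ?_⟩
    exfalso
    apply hs
    exact ⟨(i, j), Finset.mem_filter.mpr ⟨Finset.mem_product.mpr
      ⟨Finset.mem_range.mpr (hij.trans hj), Finset.mem_range.mpr hj⟩, hij⟩⟩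

lemma mem_slit {κ u : ℂ} (hκ : 0 < κ.re) (hu : 0 < (κ * u).re) : u ∈ Complex.slitPlane := by
  by_contra hcon
  rw [Complex.mem_slitPlane_iff] at hcon
  push Not at hcon
  rw [Complex.mul_re, hcon.2] at hu
  nlinarith [mul_nonneg hκ.le (neg_nonneg.mpr hcon.1)]

/-- the point on the ellipse of parameter `r` is near the segment -/
lemma ell_eq (z : ℕ → ℂ) (m : ℕ) (r φ : ℝ) : ell z m r φ =
    ((1 + Real.cos φ) / 2 : ℝ) * z m + ((1 - Real.cos φ) / 2 : ℝ) * z (m + 1) -
      (z (m + 1) - z m) / 4 * (((r - 1 : ℝ) : ℂ) * Complex.exp (φ * Complex.I) +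
        ((r⁻¹ - 1 : ℝ) : ℂ) * Complex.exp (-(φ * Complex.I))) := by
  unfold ell
  have h1 : Complex.exp (φ * Complex.I) + Complex.exp (-(φ * Complex.I)) =
      2 * ((Real.cos φ : ℝ) : ℂ) := by
    rw [Complex.ofReal_cos, Complex.cos]
    ring_nf
  have h2 : ((r : ℂ) * Complex.exp (φ * Complex.I))⁻¹ =
      (r : ℂ)⁻¹ * Complex.exp (-(φ * Complex.I)) := by
    rw [mul_inv, Complex.exp_neg]
  rw [h2]
  push_cast at h1 ⊢
  linear_combination (-(z (m + 1) - z m) / 4) * h1

lemma err_le (r φ : ℝ) (hr : 1 ≤ r) : ‖((r - 1 : ℝ) : ℂ) * Complex.exp (φ * Complex.I) +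
        ((r⁻¹ - 1 : ℝ) : ℂ) * Complex.exp (-(φ * Complex.I))‖ ≤ 2 * (r - 1) := by
  have e1 : ‖Complex.exp (φ * Complex.I)‖ = 1 := Complex.norm_exp_ofReal_mul_I φ
  have e2 : ‖Complex.exp (-(φ * Complex.I))‖ = 1 := by
    have := Complex.norm_exp_ofReal_mul_I (-φ)
    rw [Complex.ofReal_neg, neg_mul] at this
    exact this
  have h0 : (0 : ℝ) < r := by linarith
  have h3 : r⁻¹ ≤ 1 := inv_le_one_of_one_le₀ hr
  have h4 : 1 - r⁻¹ ≤ r - 1 := by
    have : r⁻¹ * r = 1 := inv_mul_cancel₀ h0.ne'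
    nlinarith [inv_pos.mpr h0, sq_nonneg (r - 1), mul_nonneg (sq_nonneg (r - 1)) (inv_pos.mpr h0).le]
  calc _ ≤ ‖((r - 1 : ℝ) : ℂ) * Complex.exp (φ * Complex.I)‖ +
        ‖((r⁻¹ - 1 : ℝ) : ℂ) * Complex.exp (-(φ * Complex.I))‖ := norm_add_le _ _
    _ = |r - 1| + |r⁻¹ - 1| := by
        rw [norm_mul, norm_mul, e1, e2, Complex.norm_real, Complex.norm_real]
        simp only [Real.norm_eq_abs, mul_one]
    _ ≤ 2 * (r - 1) := by
        rw [abs_of_nonneg (by linarith), abs_of_nonpos (by linarith)]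
        linarith

theorem thm : Stmt_Adm := by
  intro N κ z hO m hm
  obtain ⟨a, ha, hgap⟩ := exists_gap hO
  set K : ℝ := ‖κ‖ with hK
  have hKpos : 0 < K := by
    rw [hK, norm_pos_iff]
    rintro rfl
    exact lt_irrefl _ hO.1
  set δ : ℝ := a / (4 * K) with hδ
  have hδpos : 0 < δ := by positivity
  have hKδ : K * δ = a / 4 := by rw [hδ]; field_simp
  set B : ℝ := ‖z (m + 1) - z m‖ + 2 * δ with hB
  have hBpos : 0 < B := by positivity
  set R : ℝ := 1 + a / (2 * (K * B)) with hR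
  refine ⟨R, by rw [hR]; linarith [show (0 : ℝ) < a / (2 * (K * B)) by positivity], δ, hδpos, ?_⟩
  intro z' hz'
  -- gaps of z'
  have hgap' : ∀ i j, i < j → j < N → a / 2 ≤ (κ * (z' j - z' i)).re := by
    intro i j hij hj
    have h1 := hgap i j hij hj
    have h2 : |(κ * ((z' j - z j) - (z' i - z i))).re| ≤ K * (δ + δ) := by
      refine (Complex.abs_re_le_norm _).trans ?_
      rw [norm_mul]
      refine mul_le_mul_of_nonneg_left ?_ hKpos.le
      refine (norm_sub_le _ _).trans ?_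
      exact add_le_add (hz' j hj).le (hz' i (hij.trans hj)).le
    have h3 : κ * (z' j - z' i) = κ * (z j - z i) + κ * ((z' j - z j) - (z' i - z i)) := by ring
    rw [h3, Complex.add_re]
    have := (abs_le.mp h2).1
    nlinarith
  have hd' : ‖z' (m + 1) - z' m‖ ≤ B := by
    have h3 : z' (m + 1) - z' m = (z (m + 1) - z m) + ((z' (m + 1) - z (m + 1)) -
      (z' m - z m)) := by ring
    rw [h3]
    refine (norm_add_le _ _).trans ?_
    rw [hB]
    refine add_le_add le_rfl ((norm_sub_le _ _).trans ?_)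
    linarith [(hz' (m + 1) hm).le, (hz' m (by omega)).le]
  intro r hr φ
  set E : ℂ := (z' (m + 1) - z' m) / 4 * (((r - 1 : ℝ) : ℂ) * Complex.exp (φ * Complex.I) +
        ((r⁻¹ - 1 : ℝ) : ℂ) * Complex.exp (-(φ * Complex.I))) with hE
  have hEn : |(κ * E).re| ≤ a / 4 := by
    refine (Complex.abs_re_le_norm _).trans ?_
    rw [norm_mul, hE, norm_mul, norm_div]
    have h4 : ‖(4 : ℂ)‖ = 4 := by norm_num
    rw [h4]
    have h5 := err_le r φ hr.1
    have h6 : r - 1 ≤ a / (2 * (K * B)) := by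
      have := hr.2
      rw [hR] at this
      linarith
    calc K * (‖z' (m + 1) - z' m‖ / 4 * _) ≤ K * (B / 4 * (2 * (a / (2 * (K * B))))) := by
          refine mul_le_mul_of_nonneg_left ?_ hKpos.le
          refine mul_le_mul (by linarith) (h5.trans (by linarith)) (norm_nonneg _) (by positivity)
      _ = a / 4 := by field_simp
  have hell := ell_eq z' m r φ
  rw [← hE] at hell
  have hc1 : 0 ≤ (1 + Real.cos φ) / 2 := by linarith [Real.neg_one_le_cos φ]
  have hc2 : 0 ≤ (1 - Real.cos φ) / 2 := by linarith [Real.cos_le_one φ]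
  constructor
  · intro i hi
    apply mem_slit hO.1
    have h1 := hgap' i m hi (by omega)
    have h2 := hgap' i (m + 1) (by omega) hm
    have h3 : κ * (ell z' m r φ - z' i) = ((1 + Real.cos φ) / 2 : ℝ) * (κ * (z' m - z' i)) +
        ((1 - Real.cos φ) / 2 : ℝ) * (κ * (z' (m + 1) - z' i)) - κ * E := by
      rw [hell]
      push_cast
      ring
    rw [h3, Complex.sub_re, Complex.add_re, Complex.re_ofReal_mul, Complex.re_ofReal_mul]
    have := (abs_le.mp hEn).2
    nlinarith [mul_le_mul_of_nonneg_left h1 hc1, mul_le_mul_of_nonneg_left h2 hc2]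
  · intro i hi
    rw [Finset.mem_Ico] at hi
    apply mem_slit hO.1
    have h1 := hgap' m i (by omega) hi.2
    have h2 := hgap' (m + 1) i (by omega) hi.2
    have h3 : κ * (z' i - ell z' m r φ) = ((1 + Real.cos φ) / 2 : ℝ) * (κ * (z' i - z' m)) +
        ((1 - Real.cos φ) / 2 : ℝ) * (κ * (z' i - z' (m + 1))) + κ * E := by
      rw [hell]
      push_cast
      ring
    rw [h3, Complex.add_re, Complex.add_re, Complex.re_ofReal_mul, Complex.re_ofReal_mul]
    have := (abs_le.mp hEn).1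
    nlinarith [mul_le_mul_of_nonneg_left h1 hc1, mul_le_mul_of_nonneg_left h2 hc2]

end

end Pool.Agent.GPH.ADM
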