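import Pool.Agent.GPH.IIIDefs

open scoped BigOperators Topology
open Metric Set

namespace Pool.Agent.GPH.ANNUL

open Pool.Agent.HGP (csq)
open Pool.Agent.GPH

/-- The Joukowski type parametrisation. -/
noncomputable def xw (z : ℕ → ℂ) (m : ℕ) (w : ℂ) : ℂ :=
  (z m + z (m + 1)) / 2 - (z (m + 1) - z m) / 4 * (w + w⁻¹)

noncomputable def Psi (N : ℕ) (z : ℕ → ℂ) (m l : ℕ) (w : ℂ) : ℂ :=
  xw z m w ^ l / rst N z m (xw z m w)

lemma ell_eq (z : ℕ → ℂ) (m : ℕ) (R φ : ℝ) : ell z m R φ = xw z m (circleMap 0 R φ) := by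
  unfold ell xw circleMap
  simp

lemma mid_eq (z : ℕ → ℂ) (m : ℕ) (φ : ℝ) : mid z m φ = ell z m 1 φ := by
  unfold mid ell
  have h : Complex.exp (φ * Complex.I) + (Complex.exp (φ * Complex.I))⁻¹
      = 2 * ((Real.cos φ : ℝ) : ℂ) := by
    rw [← Complex.exp_neg, Complex.ofReal_cos, Complex.cos]
    ring_nf
  rw [Complex.ofReal_one, one_mul, h]
  ring

/-- Differentiability of `Psi` at a point of the annulus. -/
lemma Psi_diff {N : ℕ} {z : ℕ → ℂ} {m : ℕ} {R : ℝ} (hA : Adm N z m R) (l : ℕ) {w : ℂ}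
    (h1 : 1 ≤ ‖w‖) (h2 : ‖w‖ ≤ R) : DifferentiableAt ℂ (Psi N z m l) w := by
  have hw : w = circleMap 0 ‖w‖ (Complex.arg w) := by
    simp [circleMap, Complex.norm_mul_exp_arg_mul_I]
  have hw0 : w ≠ 0 := by
    intro h
    rw [h] at h1
    simp at h1
    linarith
  obtain ⟨ha, hb⟩ := hA ‖w‖ ⟨h1, h2⟩ (Complex.arg w)
  rw [ell_eq, ← hw] at ha hb
  have hx : DifferentiableAt ℂ (xw z m) w := by
    unfold xw
    exact ((differentiableAt_const _).sub ((differentiableAt_const _).mul
      (differentiableAt_id.add (differentiableAt_inv hw0))))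
  have hr : DifferentiableAt ℂ (fun w => rst N z m (xw z m w)) w := by
    unfold rst
    refine DifferentiableAt.mul ?_ ?_
    · refine DifferentiableAt.fun_finsetProd ?_
      intro i hi
      exact (HGP.csq_differentiableAt (ha i (Finset.mem_range.1 hi))).comp w
        (f := fun w => xw z m w - z i) (hx.sub (differentiableAt_const _))
    · refine DifferentiableAt.fun_finsetProd ?_
      intro i hi
      exact (HGP.csq_differentiableAt (hb i hi)).comp w
        (f := fun w => z i - xw z m w) ((differentiableAt_const _).sub hx)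
  have hne : rst N z m (xw z m w) ≠ 0 := by
    unfold rst
    refine mul_ne_zero ?_ ?_
    · refine Finset.prod_ne_zero_iff.2 ?_
      intro i hi
      exact HGP.csq_ne_zero (Complex.slitPlane_ne_zero (ha i (Finset.mem_range.1 hi)))
    · refine Finset.prod_ne_zero_iff.2 ?_
      intro i hi
      exact HGP.csq_ne_zero (Complex.slitPlane_ne_zero (hb i hi))
  exact (hx.pow l).div hr hne

lemma circ_eq {N : ℕ} {z : ℕ → ℂ} {m : ℕ} {R : ℝ} (hR : 1 ≤ R) (hA : Adm N z m R) (l : ℕ) :
    (∫ φ in (0 : ℝ)..(2 * Real.pi), Psi N z m l (circleMap 0 R φ)) =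
      ∫ φ in (0 : ℝ)..(2 * Real.pi), Psi N z m l (circleMap 0 1 φ) := by
  have key := Complex.circleIntegral_sub_center_inv_smul_eq_of_differentiable_on_annulus_off_countable
    (c := 0) (r := 1) (R := R) (E := ℂ) one_pos hR (f := Psi N z m l) (s := ∅)
    Set.countable_empty
    (by
      intro w hw
      have h1 : 1 ≤ ‖w‖ := by simpa using hw.2
      have h2 : ‖w‖ ≤ R := by simpa using hw.1
      exact (Psi_diff hA l h1 h2).continuousAt.continuousWithinAt)
    (by
      intro w hw
      have h1 : 1 ≤ ‖w‖ := by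
        have : ¬ (‖w‖ ≤ 1) := by simpa using hw.1.2
        linarith
      have h2 : ‖w‖ ≤ R := by
        have : ‖w‖ < R := by simpa using hw.1.1
        linarith
      exact Psi_diff hA l h1 h2)
  have aux : ∀ r : ℝ, 0 < r → (∮ w in C(0, r), (w - 0)⁻¹ • Psi N z m l w) =
      Complex.I * ∫ φ in (0 : ℝ)..(2 * Real.pi), Psi N z m l (circleMap 0 r φ) := by
    intro r hr
    rw [circleIntegral, ← intervalIntegral.integral_const_mul]
    refine intervalIntegral.integral_congr ?_
    intro φ _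
    have hne : circleMap 0 r φ ≠ 0 := circleMap_ne_center hr.ne'
    simp only [deriv_circleMap, smul_eq_mul, sub_zero]
    field_simp
  rw [aux R (by linarith), aux 1 one_pos] at key
  exact mul_left_cancel₀ Complex.I_ne_zero key

lemma half {g : ℝ → ℂ} (hc : Continuous g) (hs : ∀ φ, g (2 * Real.pi - φ) = g φ) :
    (∫ φ in (0 : ℝ)..(2 * Real.pi), g φ) = 2 * ∫ φ in (0 : ℝ)..Real.pi, g φ := by
  have h1 : (∫ φ in (Real.pi)..(2 * Real.pi), g φ) = ∫ φ in (0 : ℝ)..Real.pi, g φ := by
    have h2 := intervalIntegral.integral_comp_sub_left (a := 0) (b := Real.pi) g (2 * Real.pi)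
    have h3 : 2 * Real.pi - Real.pi = Real.pi := by ring
    rw [h3, sub_zero] at h2
    rw [← h2]
    exact intervalIntegral.integral_congr (fun φ _ => hs φ)
  rw [← intervalIntegral.integral_add_adjacent_intervals
    (hc.intervalIntegrable 0 Real.pi) (hc.intervalIntegrable Real.pi (2 * Real.pi)), h1]
  ring

lemma psi_sym (N : ℕ) (z : ℕ → ℂ) (m l : ℕ) (φ : ℝ) :
    Psi N z m l (circleMap 0 1 (2 * Real.pi - φ)) = Psi N z m l (circleMap 0 1 φ) := by
  have h : xw z m (circleMap 0 1 (2 * Real.pi - φ)) = xw z m (circleMap 0 1 φ) := by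
    rw [← ell_eq, ← ell_eq, ← mid_eq, ← mid_eq]
    unfold mid
    rw [Real.cos_two_pi_sub]
  unfold Psi
  rw [h]

theorem thm : Stmt_Annul := by
  intro N z m R _ hR hA l
  have e1 : (∫ φ in (0 : ℝ)..(2 * Real.pi), ell z m R φ ^ l / rst N z m (ell z m R φ)) =
      ∫ φ in (0 : ℝ)..(2 * Real.pi), Psi N z m l (circleMap 0 R φ) := by
    refine intervalIntegral.integral_congr ?_
    intro φ _
    simp only [ell_eq, Psi]
  have e2 : EE N z m l = ∫ φ in (0 : ℝ)..Real.pi, Psi N z m l (circleMap 0 1 φ) := by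
    unfold EE
    refine intervalIntegral.integral_congr ?_
    intro φ _
    simp only [mid_eq, ell_eq, Psi, rst]
  have hc : Continuous (fun φ : ℝ => Psi N z m l (circleMap 0 1 φ)) := by
    rw [continuous_iff_continuousAt]
    intro φ
    have hn : ‖circleMap 0 1 φ‖ = 1 := by simp
    exact (Psi_diff hA l hn.ge (hn.le.trans hR)).continuousAt.comp
      (continuous_circleMap 0 1).continuousAt
  rw [e1, e2, circ_eq hR hA l, half hc (psi_sym N z m l)]
  ring

end Pool.Agent.GPH.ANNUL
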