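import Pool.Agent.GPH.IIIDefs

/-!
# EHOL: the reference integrals are holomorphic functions of the roots
-/

open scoped BigOperators Topology
open Metric Set

namespace Pool.Agent.GPH.EHOL

open Pool.Agent.HGP (csq csq_differentiableOn csq_eq_zero)

/-- Parametric integrals of functions of class `C ^ 1` are differentiable. -/
lemma paramInt {H : Type*} [NormedAddCommGroup H] [NormedSpace ℂ H] (Ψ : H × ℂ → ℂ)
    (W : Set (H × ℂ)) (hW : IsOpen W) (hΨ : ContDiffOn ℂ 1 Ψ W) (c : ℝ → ℂ)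
    (hc : Continuous c) (a b : ℝ) (v0 : H) (hv0 : ∀ φ ∈ uIcc a b, (v0, c φ) ∈ W) :
    DifferentiableAt ℂ (fun v => ∫ φ in a..b, Ψ (v, c φ)) v0 := by
  have hcont : ContinuousOn Ψ W := hΨ.continuousOn
  have hdiff : ∀ x ∈ W, DifferentiableAt ℂ Ψ x := fun x hx =>
    (hΨ.contDiffAt (hW.mem_nhds hx)).differentiableAt one_ne_zero
  have hfd : ContinuousOn (fderiv ℂ Ψ) W :=
    hΨ.continuousOn_fderiv_of_isOpen hW le_rfl
  -- compact set
  have hK : IsCompact (c '' uIcc a b) := isCompact_uIcc.image hc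
  have hKW : ({v0} : Set H) ×ˢ (c '' uIcc a b) ⊆ W := by
    rintro ⟨v, w⟩ ⟨hv, φ, hφ, rfl⟩
    rw [mem_singleton_iff] at hv
    simp only at hv
    rw [hv]
    exact hv0 φ hφ
  have hKc : IsCompact (({v0} : Set H) ×ˢ (c '' uIcc a b)) := isCompact_singleton.prod hK
  obtain ⟨C, hC⟩ := hKc.exists_bound_of_continuousOn (hfd.mono hKW)
  set W' : Set (H × ℂ) := W ∩ (fun x => ‖fderiv ℂ Ψ x‖) ⁻¹' Iio (C + 1) with hW'
  have hW'o : IsOpen W' := hfd.norm.isOpen_inter_preimage hW isOpen_Iio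
  have hKW' : ({v0} : Set H) ×ˢ (c '' uIcc a b) ⊆ W' := by
    intro x hx
    refine ⟨hKW hx, ?_⟩
    rw [mem_preimage, mem_Iio]
    exact lt_of_le_of_lt (hC x hx) (by linarith)
  obtain ⟨U, U', hU, hU', hU1, hU2, hUU⟩ :=
    generalized_tube_lemma isCompact_singleton hK hW'o hKW'
  have hmem : ∀ v ∈ U, ∀ φ ∈ uIcc a b, (v, c φ) ∈ W' := fun v hv φ hφ =>
    hUU (Set.mk_mem_prod hv (hU2 (mem_image_of_mem c hφ)))
  have hUn : U ∈ 𝓝 v0 := hU.mem_nhds (hU1 rfl)
  have hcF : ∀ v ∈ U, ContinuousOn (fun φ : ℝ => Ψ (v, c φ)) (uIcc a b) := by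
    intro v hv
    refine hcont.comp (Continuous.continuousOn (by fun_prop)) ?_
    intro φ hφ
    exact (hmem v hv φ hφ).1
  have hsub : uIoc a b ⊆ uIcc a b := uIoc_subset_uIcc
  have key := intervalIntegral.hasFDerivAt_integral_of_dominated_of_fderiv_le (𝕜 := ℂ)
    (μ := MeasureTheory.volume) (a := a) (b := b) (s := U) (x₀ := v0)
    (F := fun v φ => Ψ (v, c φ))
    (F' := fun v φ => (fderiv ℂ Ψ (v, c φ)).comp (ContinuousLinearMap.inl ℂ H ℂ))
    (bound := fun _ => (C + 1) * ‖ContinuousLinearMap.inl ℂ H ℂ‖) hUn ?_ ?_ ?_ ?_ ?_ ?_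
  · exact key.differentiableAt
  · filter_upwards [hUn] with v hv
    exact ((hcF v hv).mono hsub).aestronglyMeasurable measurableSet_uIoc
  · exact (hcF v0 (hU1 rfl)).intervalIntegrable
  · refine ContinuousOn.aestronglyMeasurable ?_ measurableSet_uIoc
    have h1 : ContinuousOn (fun φ : ℝ => fderiv ℂ Ψ (v0, c φ)) (uIoc a b) := by
      refine hfd.comp (Continuous.continuousOn (by fun_prop)) ?_
      intro φ hφ
      exact (hmem v0 (hU1 rfl) φ (hsub hφ)).1
    exact h1.clm_comp continuousOn_const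
  · refine Filter.Eventually.of_forall ?_
    intro φ hφ v hv
    have h1 := (hmem v hv φ (hsub hφ)).2
    rw [mem_preimage, mem_Iio] at h1
    refine (ContinuousLinearMap.opNorm_comp_le _ _).trans ?_
    exact mul_le_mul_of_nonneg_right h1.le (norm_nonneg _)
  · exact intervalIntegrable_const
  · refine Filter.Eventually.of_forall ?_
    intro φ hφ v hv
    have h1 := (hdiff _ (hmem v hv φ (hsub hφ)).1).hasFDerivAt
    have h2 : HasFDerivAt (fun v : H => (v, c φ)) (ContinuousLinearMap.inl ℂ H ℂ) v :=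
      hasFDerivAt_prodMk_left v (c φ)
    exact h1.comp v h2

lemma slit_of_re {κ u : ℂ} (hκ : 0 < κ.re) (h : 0 < (κ * u).re) : u ∈ Complex.slitPlane := by
  rw [Complex.mem_slitPlane_iff]
  by_contra hc
  rw [not_or, not_lt, not_not] at hc
  rw [Complex.mul_re, hc.2, mul_zero, sub_zero] at h
  nlinarith [mul_nonneg hκ.le (neg_nonneg.2 hc.1)]

section

variable (N : ℕ)

/-- The roots as functions of the parameters. -/
noncomputable def zz (v : Fin N → ℂ) (i : ℕ) : ℂ := if h : i < N then v ⟨i, h⟩ else 0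

/-- The point on the segment, as a function of the parameters. -/
noncomputable def MM (m : ℕ) (x : (Fin N → ℂ) × ℂ) : ℂ :=
  (zz N x.1 m + zz N x.1 (m + 1)) / 2 - (zz N x.1 (m + 1) - zz N x.1 m) / 2 * x.2

lemma zz_contDiff (i : ℕ) :
    ContDiff ℂ 1 (fun x : (Fin N → ℂ) × ℂ => zz N x.1 i) := by
  unfold zz
  by_cases h : i < N
  · simp only [h, dif_pos]
    exact (contDiff_apply ℂ ℂ (⟨i, h⟩ : Fin N)).comp contDiff_fst
  · simp only [h, dif_neg, not_false_eq_true]
    exact contDiff_const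

lemma MM_contDiff (m : ℕ) : ContDiff ℂ 1 (MM N m) := by
  unfold MM
  have h1 := zz_contDiff N m
  have h2 := zz_contDiff N (m + 1)
  exact ((h1.add h2).div_const 2).sub (((h2.sub h1).div_const 2).mul contDiff_snd)

/-- The domain. -/
def WW (m : ℕ) : Set ((Fin N → ℂ) × ℂ) :=
  (⋂ i ∈ Finset.range m, {x | MM N m x - zz N x.1 i ∈ Complex.slitPlane}) ∩
    ⋂ i ∈ Finset.Ico (m + 2) N, {x | zz N x.1 i - MM N m x ∈ Complex.slitPlane}

lemma WW_open (m : ℕ) : IsOpen (WW N m) := by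
  apply IsOpen.inter
  · apply isOpen_biInter_finset
    intro i _
    exact Complex.isOpen_slitPlane.preimage
      ((MM_contDiff N m).continuous.sub (zz_contDiff N i).continuous)
  · apply isOpen_biInter_finset
    intro i _
    exact Complex.isOpen_slitPlane.preimage
      ((zz_contDiff N i).continuous.sub (MM_contDiff N m).continuous)

lemma csq_contDiffAt {z : ℂ} (hz : z ∈ Complex.slitPlane) : ContDiffAt ℂ 1 csq z :=
  (csq_differentiableOn.contDiffOn Complex.isOpen_slitPlane).contDiffAt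
    (Complex.isOpen_slitPlane.mem_nhds hz)

/-- The integrand. -/
noncomputable def PP (m l : ℕ) (x : (Fin N → ℂ) × ℂ) : ℂ :=
  MM N m x ^ l / ((∏ i ∈ Finset.range m, csq (MM N m x - zz N x.1 i)) *
    ∏ i ∈ Finset.Ico (m + 2) N, csq (zz N x.1 i - MM N m x))

lemma PP_contDiffOn (m l : ℕ) : ContDiffOn ℂ 1 (PP N m l) (WW N m) := by
  intro x hx
  apply ContDiffAt.contDiffWithinAt
  simp only [WW, mem_inter_iff, mem_iInter, mem_ofPred_eq] at hx
  unfold PP
  have hM := (MM_contDiff N m).contDiffAt (x := x)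
  refine ContDiffAt.div (hM.pow l) (ContDiffAt.mul ?_ ?_) ?_
  · apply contDiffAt_prod
    intro i hi
    exact ContDiffAt.comp x (csq_contDiffAt (hx.1 i hi))
      (hM.sub (zz_contDiff N i).contDiffAt)
  · apply contDiffAt_prod
    intro i hi
    exact ContDiffAt.comp x (csq_contDiffAt (hx.2 i hi))
      ((zz_contDiff N i).contDiffAt.sub hM)
  · apply mul_ne_zero
    · rw [Finset.prod_ne_zero_iff]
      intro i hi h
      exact Complex.slitPlane_ne_zero (hx.1 i hi) (csq_eq_zero.1 h)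
    · rw [Finset.prod_ne_zero_iff]
      intro i hi h
      exact Complex.slitPlane_ne_zero (hx.2 i hi) (csq_eq_zero.1 h)

lemma mem_WW (κ : ℂ) (m : ℕ) (hm : m + 1 < N) (v : Fin N → ℂ) (hv : Ord N κ (zz N v))
    (φ : ℝ) : (v, ((Real.cos φ : ℝ) : ℂ)) ∈ WW N m := by
  obtain ⟨hκ, hord⟩ := hv
  have h1 : 0 ≤ (1 + Real.cos φ) / 2 := by linarith [Real.neg_one_le_cos φ]
  have h2 : 0 ≤ (1 - Real.cos φ) / 2 := by linarith [Real.cos_le_one φ]
  have hconv : ∀ A B : ℝ, 0 < A → 0 < B →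
      0 < (1 + Real.cos φ) / 2 * A + (1 - Real.cos φ) / 2 * B := by
    intro A B hA hB
    rcases h1.lt_or_eq with h | h
    · have := mul_pos h hA
      have := mul_nonneg h2 hB.le
      linarith
    · have h3 : 0 < (1 - Real.cos φ) / 2 := by linarith
      rw [← h]
      have := mul_pos h3 hB
      linarith
  have hre : ∀ a b : ℂ, (κ * (((1 + Real.cos φ) / 2 : ℝ) * a + ((1 - Real.cos φ) / 2 : ℝ) * b)).re =
      (1 + Real.cos φ) / 2 * (κ * a).re + (1 - Real.cos φ) / 2 * (κ * b).re := by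
    intro a b
    have : κ * (((1 + Real.cos φ) / 2 : ℝ) * a + ((1 - Real.cos φ) / 2 : ℝ) * b) =
        ((1 + Real.cos φ) / 2 : ℝ) * (κ * a) + ((1 - Real.cos φ) / 2 : ℝ) * (κ * b) := by ring
    rw [this, Complex.add_re, Complex.re_ofReal_mul, Complex.re_ofReal_mul]
  simp only [WW, mem_inter_iff, mem_iInter, mem_ofPred_eq]
  constructor
  · intro i hi
    rw [Finset.mem_range] at hi
    apply slit_of_re hκ
    have e : MM N m (v, ((Real.cos φ : ℝ) : ℂ)) - zz N v i =
        ((1 + Real.cos φ) / 2 : ℝ) * (zz N v m - zz N v i) +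
        ((1 - Real.cos φ) / 2 : ℝ) * (zz N v (m + 1) - zz N v i) := by
      unfold MM
      push_cast
      ring
    rw [e, hre]
    exact hconv _ _ (hord i m hi (by omega)) (hord i (m + 1) (by omega) hm)
  · intro i hi
    rw [Finset.mem_Ico] at hi
    apply slit_of_re hκ
    have e : zz N v i - MM N m (v, ((Real.cos φ : ℝ) : ℂ)) =
        ((1 + Real.cos φ) / 2 : ℝ) * (zz N v i - zz N v m) +
        ((1 - Real.cos φ) / 2 : ℝ) * (zz N v i - zz N v (m + 1)) := by
      unfold MM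
      push_cast
      ring
    rw [e, hre]
    exact hconv _ _ (hord m i (by omega) hi.2) (hord (m + 1) i (by omega) hi.2)

end

theorem thm : Stmt_EHol := by
  intro N κ m l hm v hv
  apply DifferentiableAt.differentiableWithinAt
  have h := paramInt (PP N m l) (WW N m) (WW_open N m) (PP_contDiffOn N m l)
    (fun φ => ((Real.cos φ : ℝ) : ℂ)) (by fun_prop) 0 Real.pi v
    (fun φ _ => mem_WW N κ m hm v hv φ)
  exact h

end Pool.Agent.GPH.EHOL
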