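import Pool.Agent.GPH.IIIDefs

/-!
# GPH, part III, module INTF: integrability of the integrand of `FF`
-/

open scoped BigOperators Topology
open Metric Set MeasureTheory

namespace Pool.Agent.GPH.INTF

open Pool.Agent.HGP (csq)

lemma abs_rpow_split (u : ℝ) :
    |u| ^ (-(1 / 2) : ℝ) = u ^ (-(1 / 2) : ℝ) + (-u) ^ (-(1 / 2) : ℝ) := by
  have hneg : ∀ x : ℝ, x < 0 → x ^ (-(1 / 2) : ℝ) = 0 := by
    intro x hx
    rw [Real.rpow_def_of_neg hx]
    have : Real.cos (-(1 / 2) * Real.pi) = 0 := by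
      rw [show (-(1 / 2) * Real.pi : ℝ) = -(Real.pi / 2) by ring, Real.cos_neg, Real.cos_pi_div_two]
    rw [this, mul_zero]
  rcases lt_trichotomy u 0 with h | h | h
  · rw [abs_of_neg h, hneg u h, zero_add]
  · subst h
    simp
  · rw [abs_of_pos h, hneg (-u) (by linarith), add_zero]

lemma abs_int (a : ℝ) (ha : a ≠ 0) :
    IntervalIntegrable (fun τ : ℝ => (√|1 - τ * a|)⁻¹) volume 0 1 := by
  have h0 : IntervalIntegrable (fun u : ℝ => |u| ^ (-(1 / 2) : ℝ)) volume 1 (1 - a) := by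
    have h1 : IntervalIntegrable (fun u : ℝ => u ^ (-(1 / 2) : ℝ)) volume 1 (1 - a) :=
      intervalIntegral.intervalIntegrable_rpow' (by norm_num)
    have h2 : IntervalIntegrable (fun u : ℝ => u ^ (-(1 / 2) : ℝ)) volume (0 - 1) (0 - (1 - a)) :=
      intervalIntegral.intervalIntegrable_rpow' (by norm_num)
    have h3 := h2.comp_sub_left 0
    have h4 : IntervalIntegrable (fun u : ℝ => (-u) ^ (-(1 / 2) : ℝ)) volume 1 (1 - a) := by
      have e1 : (0 : ℝ) - (0 - 1) = 1 := by ring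
      have e2 : (0 : ℝ) - (0 - (1 - a)) = 1 - a := by ring
      rw [e1, e2] at h3
      simpa using h3
    have h5 := h1.add h4
    refine h5.congr ?_
    intro u _
    exact (abs_rpow_split u).symm
  have h1 := (h0.comp_sub_left 1).comp_mul_left (c := a)
  have e1 : ((1 : ℝ) - 1) / a = 0 := by simp
  have e2 : ((1 : ℝ) - (1 - a)) / a = 1 := by field_simp; ring
  rw [e1, e2] at h1
  refine h1.congr ?_
  intro τ _
  show |1 - a * τ| ^ (-(1 / 2) : ℝ) = (√|1 - τ * a|)⁻¹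
  rw [mul_comm a τ, Real.rpow_neg (abs_nonneg _), Real.sqrt_eq_rpow]

/-- The cross product excludes two positive real coordinates. -/
lemma not_both {u w v : ℂ} (hu : u ≠ 0) (hw : w ≠ 0) (h : 0 < (w * (starRingEnd ℂ) u).im)
    (h1 : (v / u).im = 0 ∧ 1 ≤ (v / u).re) (h2 : (v / w).im = 0 ∧ 1 ≤ (v / w).re) : False := by
  set p : ℝ := (v / u).re
  set q : ℝ := (v / w).re
  have e1 : v / u = (p : ℂ) := by
    apply Complex.ext <;> simp [p, h1.1]
  have e2 : v / w = (q : ℂ) := by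
    apply Complex.ext <;> simp [q, h2.1]
  have f1 : v = p * u := by rw [← e1]; field_simp
  have f2 : v = q * w := by rw [← e2]; field_simp
  have hq : (q : ℂ) ≠ 0 := by
    have : (q : ℝ) ≠ 0 := by linarith [h2.2]
    exact_mod_cast this
  have hwu : w = ((p / q : ℝ) : ℂ) * u := by
    have : (q : ℂ) * w = p * u := by rw [← f1, f2]
    push_cast
    field_simp
    linear_combination this
  rw [hwu, mul_assoc, Complex.mul_conj, ← Complex.ofReal_mul, Complex.ofReal_im] at h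
  exact lt_irrefl _ h

theorem thm : Stmt_IntF := by
  intro N c z hC l x
  set v : ℂ := x - c with hv
  set a : ℕ → ℂ := fun j => v / (z j - c) with ha
  have hww : ∀ (j : ℕ) (τ : ℝ), ww c z j (c + τ * v) = τ * a j := by
    intro j τ
    simp only [ww, ha]
    rw [add_sub_cancel_left, mul_div_assoc]
  classical
  set G : Finset ℕ := (Finset.range N).filter (fun j => ¬ ((a j).im = 0 ∧ 1 ≤ (a j).re)) with hG
  set B : Finset ℕ := (Finset.range N).filter (fun j => ((a j).im = 0 ∧ 1 ≤ (a j).re)) with hB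
  have hsplit : ∀ τ : ℝ, ‖YY N c z (c + τ * v)‖ =
      √‖fz N z c‖ * ((∏ j ∈ B, √‖1 - τ * a j‖) * ∏ j ∈ G, √‖1 - τ * a j‖) := by
    intro τ
    rw [YY, norm_mul, Pool.Agent.HGP.csq_norm, norm_prod, hB, hG,
      Finset.prod_filter_mul_prod_filter_not]
    congr 1
    apply Finset.prod_congr rfl
    intro j _
    rw [Pool.Agent.HGP.csq_norm, hww]
  -- the good factors
  have hgood : ∀ τ ∈ Icc (0 : ℝ) 1, ∏ j ∈ G, √‖1 - τ * a j‖ ≠ 0 := by
    intro τ hτ
    rw [Finset.prod_ne_zero_iff]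
    intro j hj h0
    rw [hG, Finset.mem_filter] at hj
    apply hj.2
    rw [Real.sqrt_eq_zero (norm_nonneg _), norm_eq_zero, sub_eq_zero] at h0
    have hτ0 : τ ≠ 0 := by
      rintro rfl
      simp at h0
    have hτp : 0 < τ := lt_of_le_of_ne hτ.1 (Ne.symm hτ0)
    have e : a j = ((τ⁻¹ : ℝ) : ℂ) := by
      have : (τ : ℂ) ≠ 0 := by exact_mod_cast hτ0
      push_cast
      field_simp
      linear_combination -h0
    rw [e]
    refine ⟨Complex.ofReal_im _, ?_⟩
    rw [Complex.ofReal_re]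
    exact (one_le_inv₀ hτp).2 hτ.2
  have hcont : ContinuousOn (fun τ : ℝ => ‖v * (c + τ * v) ^ l‖ * (√‖fz N z c‖)⁻¹ *
      (∏ j ∈ G, √‖1 - τ * a j‖)⁻¹) (Icc 0 1) := by
    refine ContinuousOn.mul (by fun_prop) ?_
    refine ContinuousOn.inv₀ ?_ hgood
    fun_prop
  obtain ⟨M, hM⟩ := isCompact_Icc.exists_bound_of_continuousOn hcont
  -- the bad factor
  have hbad : IntervalIntegrable (fun τ : ℝ => (∏ j ∈ B, √‖1 - τ * a j‖)⁻¹) volume 0 1 := by
    rcases B.eq_empty_or_nonempty with hBe | ⟨j0, hj0⟩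
    · rw [hBe]
      simp
    · have hBs : B = {j0} := by
        apply Finset.eq_singleton_iff_unique_mem.2 ⟨hj0, ?_⟩
        intro j hj
        rw [hB, Finset.mem_filter, Finset.mem_range] at hj hj0
        by_contra hne
        have n0 : z j0 - c ≠ 0 := sub_ne_zero.2 (hC.1 j0 hj0.1)
        have n1 : z j - c ≠ 0 := sub_ne_zero.2 (hC.1 j hj.1)
        rcases lt_or_gt_of_ne hne with h | h
        · exact not_both n1 n0 (hC.2 j j0 h hj0.1) hj.2 hj0.2
        · exact not_both n0 n1 (hC.2 j0 j h hj.1) hj0.2 hj.2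
      rw [hBs]
      rw [hB, Finset.mem_filter] at hj0
      have e : a j0 = (((a j0).re : ℝ) : ℂ) := by
        apply Complex.ext <;> simp [hj0.2.1]
      have hre : (a j0).re ≠ 0 := by linarith [hj0.2.2]
      refine (abs_int (a j0).re hre).congr ?_
      intro τ _
      show (√|1 - τ * (a j0).re|)⁻¹ = (∏ j ∈ {j0}, √‖1 - (τ : ℂ) * a j‖)⁻¹
      rw [Finset.prod_singleton]
      congr 2
      conv_rhs => rw [e]
      rw [← Complex.ofReal_mul, ← Complex.ofReal_one, ← Complex.ofReal_sub, Complex.norm_real,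
        Real.norm_eq_abs]
  refine (hbad.const_mul M).mono_fun' ?_ ?_
  · -- measurability
    apply Measurable.aestronglyMeasurable
    have h1 : Measurable (fun τ : ℝ => YY N c z (c + τ * v)) := by
      unfold YY
      refine Measurable.const_mul ?_ _
      refine Finset.measurable_fun_prod _ fun j _ => ?_
      refine Pool.Agent.HGP.csq_measurable.comp ?_
      simp only [hww]
      fun_prop
    refine Measurable.div ?_ h1
    fun_prop
  · rw [Filter.EventuallyLE, ae_restrict_iff' measurableSet_uIoc]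
    refine Filter.Eventually.of_forall fun τ hτ => ?_
    rw [uIoc_of_le zero_le_one] at hτ
    have hτ' : τ ∈ Icc (0 : ℝ) 1 := ⟨hτ.1.le, hτ.2⟩
    have h1 := hM τ hτ'
    have h2 := le_trans (le_abs_self _) h1
    rw [norm_div, hsplit, div_eq_mul_inv, mul_inv, mul_inv]
    have hB0 : 0 ≤ (∏ j ∈ B, √‖1 - (τ : ℂ) * a j‖)⁻¹ :=
      inv_nonneg.2 (Finset.prod_nonneg fun _ _ => Real.sqrt_nonneg _)
    calc ‖v * (c + τ * v) ^ l‖ * ((√‖fz N z c‖)⁻¹ * ((∏ j ∈ B, √‖1 - (τ : ℂ) * a j‖)⁻¹ *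
          (∏ j ∈ G, √‖1 - (τ : ℂ) * a j‖)⁻¹))
        = (‖v * (c + τ * v) ^ l‖ * (√‖fz N z c‖)⁻¹ * (∏ j ∈ G, √‖1 - (τ : ℂ) * a j‖)⁻¹) *
          (∏ j ∈ B, √‖1 - (τ : ℂ) * a j‖)⁻¹ := by ring
      _ ≤ M * (∏ j ∈ B, √‖1 - (τ : ℂ) * a j‖)⁻¹ := mul_le_mul_of_nonneg_right h2 hB0

end Pool.Agent.GPH.INTF
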