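import Pool.Agent.GPH.IIIDefs

/-!
# GPH, LIMU: one-sided limits of `FF` at a point of a cut
-/

open scoped BigOperators Topology
open Metric Set Filter

namespace Pool.Agent.GPH.LIMU

open Pool.Agent.HGP

noncomputable section

lemma csq_neg_real {t : ℝ} (ht : t < 0) : csq (t : ℂ) = Complex.I * csq (-(t : ℂ)) := by
  have h := csq_neg_ofReal (x := -t) (by linarith)
  have h1 := csq_ofReal (x := -t) (by linarith)
  push_cast at h h1
  rw [neg_neg] at h
  rw [h, h1]

lemma lim_aux (t s : ℝ) : Tendsto (fun ε : ℝ => ((t : ℂ) + ε * s * Complex.I)) (𝓝[>] 0)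
    (𝓝 (t : ℂ)) := by
  have h : Continuous (fun ε : ℝ => ((t : ℂ) + ε * s * Complex.I)) := by fun_prop
  have h1 := (h.tendsto 0).mono_left (nhdsWithin_le_nhds (s := Ioi 0))
  simpa using h1

/-- The limit of the principal square root from above. -/
lemma csq_lim_pos {t s : ℝ} (ht : t ≠ 0) (hs : 0 < s) :
    Tendsto (fun ε : ℝ => csq ((t : ℂ) + ε * s * Complex.I)) (𝓝[>] 0) (𝓝 (csq t)) := by
  rcases lt_or_gt_of_ne ht with ht | ht
  · have h2 : -(t : ℂ) ∈ Complex.slitPlane := by left; simpa using ht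
    have h3 := ((csq_continuousAt h2).tendsto.comp (lim_aux t s).neg).const_mul Complex.I
    rw [csq_neg_real ht]
    refine h3.congr' ?_
    filter_upwards [self_mem_nhdsWithin] with ε hε
    have hε' : 0 < ε := hε
    have : 0 < ((t : ℂ) + ε * s * Complex.I).im := by
      simp
      positivity
    simp only [Function.comp]
    rw [csq_eq_I_mul this]
  · have h2 : (t : ℂ) ∈ Complex.slitPlane := by left; simpa using ht
    exact (csq_continuousAt h2).tendsto.comp (lim_aux t s)

/-- The limit of the principal square root from below. -/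
lemma csq_lim_neg {t s : ℝ} (ht : t ≠ 0) (hs : s < 0) :
    Tendsto (fun ε : ℝ => csq ((t : ℂ) + ε * s * Complex.I)) (𝓝[>] 0)
      (𝓝 (if t < 0 then -csq t else csq t)) := by
  rcases lt_or_gt_of_ne ht with ht | ht
  · have h2 : -(t : ℂ) ∈ Complex.slitPlane := by left; simpa using ht
    have h3 := ((csq_continuousAt h2).tendsto.comp (lim_aux t s).neg).const_mul (-Complex.I)
    rw [if_pos ht, csq_neg_real ht, ← neg_mul]
    refine h3.congr' ?_
    filter_upwards [self_mem_nhdsWithin] with ε hε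
    have hε' : 0 < ε := hε
    have : 0 < (-((t : ℂ) + ε * s * Complex.I)).im := by
      simp
      nlinarith
    simp only [Function.comp]
    rw [csq_eq_I_mul this, neg_neg, ← mul_assoc]
    simp
  · have h2 : (t : ℂ) ∈ Complex.slitPlane := by left; simpa using ht
    rw [if_neg (not_lt.mpr ht.le)]
    exact (csq_continuousAt h2).tendsto.comp (lim_aux t s)

lemma im_bound (p : ℂ) (hp : p ≠ 0) (s : ℝ) : |p.im| / ‖p‖ ≤ ‖1 - s * p‖ := by
  rw [div_le_iff₀ (norm_pos_iff.mpr hp)]
  have h1 : ((1 - s * p) * (starRingEnd ℂ) p).im = - p.im := by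
    simp [Complex.mul_im]
    ring
  have h2 := Complex.abs_im_le_norm ((1 - s * p) * (starRingEnd ℂ) p)
  rw [h1, abs_neg, norm_mul, Complex.norm_conj] at h2
  exact h2

lemma low1 (σ : ℝ) (q : ℂ) (hq : q.im ≠ 0) : ∃ k : ℝ, 0 < k ∧ ∀ᶠ ε : ℝ in 𝓝[>] 0, ∀ s : ℝ,
    k ≤ ‖1 - s * ((1 - σ * ε * Complex.I) * q)‖ := by
  have hq0 : q ≠ 0 := ne_zero_of_im hq
  have hc : Continuous fun ε : ℝ => (1 - σ * ε * Complex.I) * q := by fun_prop
  have h0 : Tendsto (fun ε : ℝ => (1 - σ * ε * Complex.I) * q) (𝓝 0) (𝓝 q) := by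
    simpa using hc.tendsto 0
  have h1 : Tendsto (fun ε : ℝ => |((1 - σ * ε * Complex.I) * q).im| /
      ‖(1 - σ * ε * Complex.I) * q‖) (𝓝 0) (𝓝 (|q.im| / ‖q‖)) := by
    refine Tendsto.div ?_ h0.norm (norm_ne_zero_iff.mpr hq0)
    exact ((Complex.continuous_im.tendsto q).comp h0).abs
  have hpos : 0 < |q.im| / ‖q‖ := div_pos (abs_pos.mpr hq) (norm_pos_iff.mpr hq0)
  refine ⟨|q.im| / ‖q‖ / 2, by linarith, ?_⟩
  have h2 := h1.eventually (lt_mem_nhds (half_lt_self hpos))
  have h3 := h0.eventually_ne hq0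
  filter_upwards [nhdsWithin_le_nhds h2, nhdsWithin_le_nhds h3] with ε h4 h5 s
  exact h4.le.trans (im_bound _ h5 s)

lemma low2 (σ : ℝ) (S : Finset ℕ) (q : ℕ → ℂ) (hq : ∀ i ∈ S, (q i).im ≠ 0) :
    ∃ k : ℝ, 0 < k ∧ ∀ᶠ ε : ℝ in 𝓝[>] 0, ∀ s : ℝ,
    k ≤ ∏ i ∈ S, ‖csq (1 - s * ((1 - σ * ε * Complex.I) * q i))‖ := by
  induction S using Finset.induction_on with
  | empty => exact ⟨1, one_pos, by simp⟩
  | insert a S ha ih =>
    obtain ⟨k, hk, h⟩ := ih (fun i hi => hq i (Finset.mem_insert_of_mem hi))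
    obtain ⟨k', hk', h'⟩ := low1 σ (q a) (hq a (Finset.mem_insert_self _ _))
    refine ⟨√k' * k, by positivity, ?_⟩
    filter_upwards [h, h'] with ε h1 h2 s
    rw [Finset.prod_insert ha]
    refine mul_le_mul ?_ (h1 s) hk.le (norm_nonneg _)
    rw [csq_norm]
    exact Real.sqrt_le_sqrt (h2 s)

lemma slit_of_im {q : ℂ} (hq : q.im ≠ 0) {s : ℝ} (hs : 0 ≤ s) :
    1 - (s : ℂ) * q ∈ Complex.slitPlane := by
  rcases hs.eq_or_lt with rfl | hs
  · simp
  · right
    simp
    exact ⟨hs.ne', hq⟩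

variable {N : ℕ} {c : ℂ} {z : ℕ → ℂ}

lemma ww_add (c v : ℂ) (z : ℕ → ℂ) (i : ℕ) : ww c z i (c + v) = v / (z i - c) := by
  simp [ww]

lemma im_ne (hC : Cen N c z) {i j : ℕ} (hi : i < N) (hj : j < N) (hij : i ≠ j) :
    ((z j - c) / (z i - c)).im ≠ 0 := by
  have h1 : (z j - c) / (z i - c) =
      ((z j - c) * (starRingEnd ℂ) (z i - c)) / ((Complex.normSq (z i - c) : ℝ) : ℂ) := by
    rw [Complex.normSq_eq_conj_mul_self]
    have hne : z i - c ≠ 0 := sub_ne_zero.mpr (hC.1 i hi)
    have hne2 : (starRingEnd ℂ) (z i - c) ≠ 0 := by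
      rwa [Ne, map_eq_zero]
    field_simp
  have hN : 0 < Complex.normSq (z i - c) :=
    Complex.normSq_pos.mpr (sub_ne_zero.mpr (hC.1 i hi))
  rw [h1, Complex.div_ofReal_im]
  refine div_ne_zero ?_ hN.ne'
  rcases lt_or_gt_of_ne hij with h | h
  · exact (hC.2 i j h hj).ne'
  · have h2 := hC.2 j i h hi
    have h3 : ((z j - c) * (starRingEnd ℂ) (z i - c)).im =
        -((z i - c) * (starRingEnd ℂ) (z j - c)).im := by
      simp [Complex.mul_im]
      ring
    rw [h3]
    linarith

lemma fz_ne (hC : Cen N c z) : fz N z c ≠ 0 := by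
  unfold fz
  rw [Finset.prod_ne_zero_iff]
  intro i hi
  exact sub_ne_zero.mpr (hC.1 i (Finset.mem_range.mp hi)).symm

/-- The factor of the product which belongs to the root `z i`, at a point of the ray. -/
lemma arg_eq (c : ℂ) (z : ℕ → ℂ) (i : ℕ) (j : ℕ) (s σ ε : ℝ) :
    1 - ww c z i (c + s * ((1 - σ * ε * Complex.I) * (z j - c))) =
      1 - s * ((1 - σ * ε * Complex.I) * ((z j - c) / (z i - c))) := by
  rw [ww_add]
  ring

lemma YY_split {j : ℕ} (hj : j < N) (u : ℂ) : YY N c z u =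
    csq (fz N z c) * (csq (1 - ww c z j u) * ∏ i ∈ (Finset.range N).erase j,
      csq (1 - ww c z i u)) := by
  unfold YY
  rw [Finset.mul_prod_erase (Finset.range N) (fun i => csq (1 - ww c z i u))
    (Finset.mem_range.mpr hj)]

lemma YY_low (hC : Cen N c z) {j : ℕ} (hj : j < N) (σ : ℝ) :
    ∃ k : ℝ, 0 < k ∧ ∀ᶠ ε : ℝ in 𝓝[>] 0, ∀ s : ℝ,
    k * √|1 - s| ≤ ‖YY N c z (c + s * ((1 - σ * ε * Complex.I) * (z j - c)))‖ := by
  obtain ⟨k, hk, h⟩ := low2 σ ((Finset.range N).erase j) (fun i => (z j - c) / (z i - c))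
    (fun i hi => by
      rw [Finset.mem_erase, Finset.mem_range] at hi
      exact im_ne hC hi.2 hj hi.1)
  have hf : 0 < ‖csq (fz N z c)‖ := norm_pos_iff.mpr (csq_ne_zero (fz_ne hC))
  refine ⟨‖csq (fz N z c)‖ * k, by positivity, ?_⟩
  filter_upwards [h] with ε h1 s
  rw [YY_split hj, norm_mul, norm_mul, mul_assoc]
  refine mul_le_mul_of_nonneg_left ?_ hf.le
  rw [mul_comm k]
  refine mul_le_mul ?_ ?_ hk.le (norm_nonneg _)
  · rw [csq_norm]
    apply Real.sqrt_le_sqrt
    rw [arg_eq c z j, div_self (sub_ne_zero.mpr (hC.1 j hj)), mul_one]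
    have h2 := Complex.abs_re_le_norm (1 - (s : ℂ) * (1 - σ * ε * Complex.I))
    simpa using h2
  · rw [norm_prod]
    refine (h1 s).trans (le_of_eq ?_)
    refine Finset.prod_congr rfl fun i hi => ?_
    rw [Finset.mem_erase, Finset.mem_range] at hi
    rw [arg_eq c z i]

/-- The sign of the limit of the branch. -/
def kap (σ s : ℝ) : ℂ := if σ = -1 ∧ 1 < s then -1 else 1

lemma kap_ne (σ s : ℝ) : kap σ s ≠ 0 := by
  unfold kap
  split_ifs <;> simp

lemma tend_base (σ s : ℝ) (d : ℂ) :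
    Tendsto (fun ε : ℝ => (s : ℂ) * ((1 - σ * ε * Complex.I) * d)) (𝓝[>] 0) (𝓝 (s * d)) := by
  have hc : Continuous fun ε : ℝ => (s : ℂ) * ((1 - σ * ε * Complex.I) * d) := by fun_prop
  have h := (hc.tendsto 0).mono_left (nhdsWithin_le_nhds (s := Ioi 0))
  simpa using h

lemma YY_tend (hC : Cen N c z) {j : ℕ} (hj : j < N) {σ : ℝ} (hσ : σ = 1 ∨ σ = -1) {s : ℝ}
    (hs : 0 < s) (hs1 : s ≠ 1) :
    Tendsto (fun ε : ℝ => YY N c z (c + s * ((1 - σ * ε * Complex.I) * (z j - c)))) (𝓝[>] 0)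
      (𝓝 (kap σ s * YY N c z (c + s * (z j - c)))) := by
  have hd : z j - c ≠ 0 := sub_ne_zero.mpr (hC.1 j hj)
  simp_rw [YY_split hj]
  have e1 : kap σ s * (csq (fz N z c) * (csq (1 - ww c z j (c + s * (z j - c))) *
      ∏ i ∈ (Finset.range N).erase j, csq (1 - ww c z i (c + s * (z j - c))))) =
      csq (fz N z c) * ((kap σ s * csq (1 - ww c z j (c + s * (z j - c)))) *
      ∏ i ∈ (Finset.range N).erase j, csq (1 - ww c z i (c + s * (z j - c)))) := by ring
  rw [e1]
  refine Tendsto.const_mul _ (Tendsto.mul ?_ (tendsto_finsetProd _ fun i hi => ?_))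
  · have e2 : 1 - ww c z j (c + s * (z j - c)) = ((1 - s : ℝ) : ℂ) := by
      rw [ww_add, mul_div_assoc, div_self hd]
      push_cast
      ring
    have e3 : ∀ ε : ℝ, 1 - ww c z j (c + s * ((1 - σ * ε * Complex.I) * (z j - c))) =
        ((1 - s : ℝ) : ℂ) + ε * ((σ * s : ℝ) : ℂ) * Complex.I := by
      intro ε
      rw [arg_eq c z j, div_self hd]
      push_cast
      ring
    rw [e2]
    simp_rw [e3]
    have h1 : (1 - s) ≠ 0 := sub_ne_zero.mpr hs1.symm
    rcases hσ with rfl | rfl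
    · have hk : kap 1 s = 1 := by
        unfold kap
        rw [if_neg]
        rintro ⟨h, -⟩
        norm_num at h
      have h2 := csq_lim_pos (s := 1 * s) h1 (by linarith)
      rw [hk, one_mul (csq _)]
      exact h2
    · have h2 := csq_lim_neg (s := -1 * s) h1 (by linarith)
      have hk : (if (1 - s) < 0 then -csq ((1 - s : ℝ) : ℂ) else csq ((1 - s : ℝ) : ℂ)) =
          kap (-1) s * csq ((1 - s : ℝ) : ℂ) := by
        unfold kap
        by_cases h : 1 < s
        · rw [if_pos (by linarith), if_pos ⟨rfl, h⟩]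
          ring
        · rw [if_neg (by linarith), if_neg (fun h' => h h'.2)]
          ring
      rw [hk] at h2
      exact h2
  · rw [Finset.mem_erase, Finset.mem_range] at hi
    have h1 : 1 - ww c z i (c + s * (z j - c)) ∈ Complex.slitPlane := by
      rw [ww_add, mul_div_assoc]
      exact slit_of_im (im_ne hC hi.2 hj hi.1) hs.le
    refine (csq_continuousAt h1).tendsto.comp ?_
    refine Tendsto.sub tendsto_const_nhds ?_
    simp_rw [ww_add]
    exact (tend_base σ s _).div_const _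

/-- The integrand. -/
def gg (N : ℕ) (c : ℂ) (z : ℕ → ℂ) (l : ℕ) (v : ℂ) (t : ℝ) : ℂ :=
  v * (c + t * v) ^ l / YY N c z (c + t * v)

lemma FF_eq (l : ℕ) (v : ℂ) : FF N c z l (c + v) = ∫ t in (0 : ℝ)..1, gg N c z l v t := by
  unfold FF gg
  simp only [add_sub_cancel_left]

lemma gg_meas (l : ℕ) (v : ℂ) : Measurable (gg N c z l v) := by
  unfold gg YY ww
  have h : ∀ j, Measurable fun t : ℝ => csq (1 - (c + (t : ℂ) * v - c) / (z j - c)) := by
    intro j
    refine csq_measurable.comp ?_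
    exact (by fun_prop : Continuous fun t : ℝ => 1 - (c + (t : ℂ) * v - c) / (z j - c)).measurable
  refine Measurable.div ?_ ?_
  · exact (by fun_prop : Continuous fun t : ℝ => v * (c + (t : ℂ) * v) ^ l).measurable
  · refine Measurable.const_mul ?_ _
    exact Finset.measurable_prod _ (fun j _ => h j)

lemma abs_int : ∀ a b : ℝ, IntervalIntegrable (fun x : ℝ => 1 / √|x|) MeasureTheory.volume a b := by
  intro a b
  have h1 : IntervalIntegrable (fun x : ℝ => x ^ (-(1 / 2) : ℝ)) MeasureTheory.volume a b :=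
    intervalIntegral.intervalIntegrable_rpow' (by norm_num)
  have h2 : IntervalIntegrable (fun x : ℝ => x ^ (-(1 / 2) : ℝ)) MeasureTheory.volume (-a) (-b) :=
    intervalIntegral.intervalIntegrable_rpow' (by norm_num)
  have h3 : IntervalIntegrable (fun x : ℝ => (-x) ^ (-(1 / 2) : ℝ)) MeasureTheory.volume a b := by
    have := (IntervalIntegrable.comp_sub_left h2 0)
    simpa using this
  have h4 := h1.add h3
  refine (h4.congr ?_)
  intro x _
  simp only
  rcases lt_trichotomy x 0 with hx | rfl | hx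
  · have e1 : x ^ (-(1 / 2) : ℝ) = 0 := by
      rw [Real.rpow_def_of_neg hx]
      have : Real.cos (-(1 / 2) * Real.pi) = 0 := by
        rw [show -(1 / 2) * Real.pi = -(Real.pi / 2) by ring, Real.cos_neg, Real.cos_pi_div_two]
      rw [this, mul_zero]
    have hx' : 0 < -x := by linarith
    rw [e1, zero_add, abs_of_neg hx, Real.rpow_neg hx'.le, ← Real.sqrt_eq_rpow, one_div]
  · simp
  · have hx' : -x < 0 := by linarith
    have e1 : (-x) ^ (-(1 / 2) : ℝ) = 0 := by
      rw [Real.rpow_def_of_neg hx']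
      have : Real.cos (-(1 / 2) * Real.pi) = 0 := by
        rw [show -(1 / 2) * Real.pi = -(Real.pi / 2) by ring, Real.cos_neg, Real.cos_pi_div_two]
      rw [this, mul_zero]
    rw [e1, add_zero, abs_of_pos hx, Real.rpow_neg hx.le, ← Real.sqrt_eq_rpow, one_div]

lemma bound_int {τ : ℝ} (hτ : 1 < τ) :
    IntervalIntegrable (fun t : ℝ => 1 / √|1 - t * τ|) MeasureTheory.volume 0 1 := by
  have h1 := IntervalIntegrable.comp_sub_left (abs_int 1 (1 - τ)) 1
  have h2 : IntervalIntegrable (fun x : ℝ => 1 / √|1 - x|) MeasureTheory.volume 0 τ := by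
    simpa using h1
  have h3 := h2.comp_mul_right (c := τ)
  have hτ0 : τ ≠ 0 := by linarith
  simpa [hτ0] using h3

lemma pt_eq (c d : ℂ) (σ ε τ t : ℝ) : c + (t : ℂ) * ((1 - σ * ε * Complex.I) * (τ * d)) =
    c + ((t * τ : ℝ) : ℂ) * ((1 - σ * ε * Complex.I) * d) := by
  push_cast
  ring

lemma ne_ae (a : ℝ) : ∀ᵐ t : ℝ, t ≠ a := by
  have h : ({a}ᶜ : Set ℝ) ∈ MeasureTheory.ae MeasureTheory.volume :=
    MeasureTheory.compl_mem_ae_iff.mpr (MeasureTheory.measure_singleton a)
  exact h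

lemma v_norm {σ : ℝ} (hσ : σ = 1 ∨ σ = -1) {ε : ℝ} (h0 : 0 < ε) (h1 : ε ≤ 1) (w : ℂ) :
    ‖(1 - σ * ε * Complex.I) * w‖ ≤ 2 * ‖w‖ := by
  rw [norm_mul]
  refine mul_le_mul_of_nonneg_right ?_ (norm_nonneg _)
  have h2 := norm_sub_le (1 : ℂ) (σ * ε * Complex.I)
  have h3 : ‖(σ : ℂ) * ε * Complex.I‖ = ε := by
    rw [norm_mul, norm_mul, Complex.norm_I, mul_one, Complex.norm_real, Complex.norm_real,
      Real.norm_eq_abs, Real.norm_eq_abs, abs_of_pos h0]
    rcases hσ with rfl | rfl <;> simp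
  rw [h3, norm_one] at h2
  linarith

lemma main_tend (hC : Cen N c z) {j : ℕ} (hj : j < N) {σ : ℝ} (hσ : σ = 1 ∨ σ = -1)
    {τ : ℝ} (hτ : 1 < τ) (l : ℕ) :
    Tendsto (fun ε : ℝ => ∫ t in (0 : ℝ)..1,
        gg N c z l ((1 - σ * ε * Complex.I) * (τ * (z j - c))) t) (𝓝[>] 0)
      (𝓝 (∫ t in (0 : ℝ)..1, kap σ (t * τ) * gg N c z l (τ * (z j - c)) t)) := by
  obtain ⟨k, hk, hlow⟩ := YY_low hC hj σ
  set w : ℂ := τ * (z j - c) with hw
  have hτ0 : 0 < τ := by linarith
  refine intervalIntegral.tendsto_integral_filter_of_dominated_convergence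
    (fun t => (2 * ‖w‖ * (‖c‖ + 2 * ‖w‖) ^ l / k) * (1 / √|1 - t * τ|)) ?_ ?_
    ((bound_int hτ).const_mul _) ?_
  · exact Eventually.of_forall fun ε => (gg_meas l _).aestronglyMeasurable
  · have h1 : ∀ᶠ ε : ℝ in 𝓝[>] 0, ε ≤ 1 :=
      nhdsWithin_le_nhds ((eventually_lt_nhds one_pos).mono fun x hx => hx.le)
    filter_upwards [hlow, h1, self_mem_nhdsWithin] with ε h2 h3 h4
    filter_upwards [ne_ae (1 / τ)] with t ht ht1
    rw [uIoc_of_le zero_le_one] at ht1
    have h5 := h2 (t * τ)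
    rw [← pt_eq] at h5
    have h6 := v_norm hσ h4 h3 w
    rw [hw] at h6
    have h7 : 0 < √|1 - t * τ| := by
      apply Real.sqrt_pos.mpr
      rw [abs_pos, sub_ne_zero]
      intro h
      apply ht
      rw [eq_div_iff hτ0.ne', ← h]
    unfold gg
    rw [norm_div, norm_mul, norm_pow]
    have h8 : (2 * ‖w‖ * (‖c‖ + 2 * ‖w‖) ^ l / k) * (1 / √|1 - t * τ|) =
        (2 * ‖w‖ * (‖c‖ + 2 * ‖w‖) ^ l) / (k * √|1 - t * τ|) := by
      field_simp
    rw [h8]
    rw [← hw] at h5 h6
    refine div_le_div₀ (by positivity) ?_ (by positivity) h5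
    refine mul_le_mul h6 ?_ (by positivity) (by positivity)
    refine pow_le_pow_left₀ (norm_nonneg _) ?_ l
    refine (norm_add_le _ _).trans ?_
    refine add_le_add le_rfl ?_
    rw [norm_mul, Complex.norm_real, Real.norm_eq_abs, abs_of_pos ht1.1]
    refine (mul_le_of_le_one_left (norm_nonneg _) ht1.2).trans h6
  · filter_upwards [ne_ae (1 / τ)] with t ht ht1
    rw [uIoc_of_le zero_le_one] at ht1
    have hs : 0 < t * τ := mul_pos ht1.1 hτ0
    have hs1 : t * τ ≠ 1 := by
      intro h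
      apply ht
      rw [eq_div_iff hτ0.ne', h]
    have hd : z j - c ≠ 0 := sub_ne_zero.mpr (hC.1 j hj)
    have hY0 : YY N c z (c + ((t * τ : ℝ) : ℂ) * (z j - c)) ≠ 0 := by
      unfold YY
      refine mul_ne_zero (csq_ne_zero (fz_ne hC)) ?_
      rw [Finset.prod_ne_zero_iff]
      intro i hi
      rw [Finset.mem_range] at hi
      apply csq_ne_zero
      rw [ww_add]
      by_cases hij : i = j
      · subst hij
        rw [mul_div_assoc, div_self hd, mul_one, sub_ne_zero]
        intro h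
        apply hs1
        exact_mod_cast h.symm
      · rw [mul_div_assoc]
        exact Complex.slitPlane_ne_zero (slit_of_im (im_ne hC hi hj hij) hs.le)
    have h1 := YY_tend hC hj hσ hs hs1
    simp_rw [← pt_eq] at h1
    have h2 : kap σ (t * τ) * gg N c z l w t = w * (c + t * w) ^ l /
        (kap σ (t * τ) * YY N c z (c + ((t * τ : ℝ) : ℂ) * (z j - c))) := by
      unfold gg
      have e1 : c + (t : ℂ) * w = c + ((t * τ : ℝ) : ℂ) * (z j - c) := by
        rw [hw]
        push_cast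
        ring
      rw [e1]
      unfold kap
      split_ifs
      · rw [neg_one_mul, neg_one_mul, div_neg]
      · rw [one_mul, one_mul]
    rw [h2]
    unfold gg
    refine Tendsto.div ?_ h1 (mul_ne_zero (kap_ne _ _) hY0)
    have e2 : Continuous fun ε : ℝ => ((1 - σ * ε * Complex.I) * w) *
        (c + t * ((1 - σ * ε * Complex.I) * w)) ^ l := by fun_prop
    have e3 := (e2.tendsto 0).mono_left (nhdsWithin_le_nhds (s := Ioi 0))
    simpa using e3

lemma gg_scale (l : ℕ) (d : ℂ) (τ t : ℝ) : gg N c z l (τ * d) t = τ * gg N c z l d (τ * t) := by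
  unfold gg
  have e : c + (t : ℂ) * (τ * d) = c + ((τ * t : ℝ) : ℂ) * d := by
    push_cast
    ring
  rw [e]
  ring

theorem thm (h1 : Stmt_IntF) : Stmt_LimU := by
  intro N c z hC j hj τ hτ l
  have hτ0 : 0 < τ := by linarith
  have hint : IntervalIntegrable (gg N c z l (τ * (z j - c))) MeasureTheory.volume 0 1 := by
    have h := h1 N c z hC l (c + τ * (z j - c))
    simp only [add_sub_cancel_left] at h
    exact h
  have k1 : ∀ s : ℝ, kap 1 s = 1 := by
    intro s
    unfold kap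
    rw [if_neg]
    rintro ⟨h, -⟩
    norm_num at h
  constructor
  · have h2 := main_tend hC hj (σ := 1) (Or.inl rfl) hτ l
    simp_rw [k1, one_mul] at h2
    simp_rw [FF_eq]
    refine h2.congr fun ε => ?_
    simp
  · have h2 := main_tend hC hj (σ := -1) (Or.inr rfl) hτ l
    have h3 : (∫ t in (0 : ℝ)..1, kap (-1) (t * τ) * gg N c z l (τ * (z j - c)) t) =
        2 * FF N c z l (z j) - FF N c z l (c + τ * (z j - c)) := by
      have hle : (1 / τ) ≤ 1 := by
        rw [div_le_one hτ0]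
        exact hτ.le
      have hpos : 0 < 1 / τ := by positivity
      have i1 : IntervalIntegrable (gg N c z l (τ * (z j - c))) MeasureTheory.volume 0 (1 / τ) :=
        hint.mono_set (by
          rw [uIcc_of_le hpos.le, uIcc_of_le zero_le_one]
          exact Icc_subset_Icc le_rfl hle)
      have i2 : IntervalIntegrable (gg N c z l (τ * (z j - c))) MeasureTheory.volume (1 / τ) 1 :=
        hint.mono_set (by
          rw [uIcc_of_le hle, uIcc_of_le zero_le_one]
          exact Icc_subset_Icc hpos.le le_rfl)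
      have c1 : ∀ t ∈ uIoc 0 (1 / τ), gg N c z l (τ * (z j - c)) t =
          kap (-1) (t * τ) * gg N c z l (τ * (z j - c)) t := by
        intro t ht
        rw [uIoc_of_le hpos.le] at ht
        have : kap (-1) (t * τ) = 1 := by
          unfold kap
          rw [if_neg]
          rintro ⟨-, h⟩
          have := (le_div_iff₀ hτ0).mp ht.2
          linarith
        rw [this, one_mul]
      have c2 : ∀ t ∈ uIoc (1 / τ) 1, -gg N c z l (τ * (z j - c)) t =
          kap (-1) (t * τ) * gg N c z l (τ * (z j - c)) t := by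
        intro t ht
        rw [uIoc_of_le hle] at ht
        have : kap (-1) (t * τ) = -1 := by
          unfold kap
          rw [if_pos]
          exact ⟨rfl, (div_lt_iff₀ hτ0).mp ht.1⟩
        rw [this, neg_one_mul]
      have j1 := i1.congr c1
      have j2 := i2.neg.congr c2
      rw [← intervalIntegral.integral_add_adjacent_intervals j1 j2]
      rw [← intervalIntegral.integral_congr_ae (Eventually.of_forall c1),
        ← intervalIntegral.integral_congr_ae (Eventually.of_forall c2)]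
      have e1 : FF N c z l (z j) = ∫ t in (0 : ℝ)..(1 / τ), gg N c z l (τ * (z j - c)) t := by
        have e2 : z j = c + (z j - c) := by ring
        conv_lhs => rw [e2]
        rw [FF_eq]
        simp_rw [gg_scale]
        rw [intervalIntegral.integral_const_mul]
        have e3 := intervalIntegral.smul_integral_comp_mul_left (a := 0) (b := 1 / τ)
          (fun t => gg N c z l (z j - c) t) τ
        rw [mul_zero, mul_one_div_cancel hτ0.ne', Complex.real_smul] at e3
        exact e3.symm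
      rw [e1, FF_eq, ← intervalIntegral.integral_add_adjacent_intervals i1 i2,
        intervalIntegral.integral_neg]
      ring
    rw [h3] at h2
    refine h2.congr fun ε => ?_
    rw [FF_eq]
    simp

end

end Pool.Agent.GPH.LIMU
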