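import Pool.Agent.GPH.IIIDefs

/-!
# GPH, module LOCSTR: local structure of the branch and of its primitives
-/

open scoped BigOperators Topology
open Metric Set Filter
open Pool.Agent.HGP (csq csq_sq csq_mul_self csq_ne_zero csq_differentiableAt csq_eq_I_mul
  csq_neg_ofReal csq_ofReal)

namespace Pool.Agent.GPH.LOCSTR

lemma ww_im (c : ℂ) (z : ℕ → ℂ) (j : ℕ) (x : ℂ) : (ww c z j x).im =
    ((x - c) * (starRingEnd ℂ) (z j - c)).im / Complex.normSq (z j - c) := by
  unfold ww
  rw [Complex.div_im, Complex.mul_im, Complex.conj_re, Complex.conj_im]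
  ring

lemma ww_cont (c : ℂ) (z : ℕ → ℂ) (j : ℕ) : Continuous (ww c z j) := by
  unfold ww
  fun_prop

lemma ww_diff (c : ℂ) (z : ℕ → ℂ) (j : ℕ) : Differentiable ℂ (ww c z j) := by
  unfold ww
  fun_prop

/-- The half planes are convex. -/
lemma conv_neg (c : ℂ) (z : ℕ → ℂ) (j : ℕ) : Convex ℝ {x | (ww c z j x).im < 0} := by
  intro x hx y hy a b ha hb hab
  have e : (ww c z j (a • x + b • y)).im = a * (ww c z j x).im + b * (ww c z j y).im := by
    have h1 : ww c z j (a • x + b • y) = a * ww c z j x + b * ww c z j y := by
      unfold ww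
      have hb' : b = 1 - a := by linarith
      subst hb'
      simp only [Complex.real_smul]
      push_cast
      ring
    rw [h1]
    simp
  show (ww c z j (a • x + b • y)).im < 0
  rw [e]
  have hx' : (ww c z j x).im < 0 := hx
  have hy' : (ww c z j y).im < 0 := hy
  rcases eq_or_lt_of_le ha with h | h
  · have : b = 1 := by linarith
    rw [← h, this]
    linarith
  · have := mul_neg_of_pos_of_neg h hx'
    have := mul_nonpos_of_nonneg_of_nonpos hb hy'.le
    linarith

lemma conv_pos (c : ℂ) (z : ℕ → ℂ) (j : ℕ) : Convex ℝ {x | 0 < (ww c z j x).im} := by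
  intro x hx y hy a b ha hb hab
  have e : (ww c z j (a • x + b • y)).im = a * (ww c z j x).im + b * (ww c z j y).im := by
    have h1 : ww c z j (a • x + b • y) = a * ww c z j x + b * ww c z j y := by
      unfold ww
      have hb' : b = 1 - a := by linarith
      subst hb'
      simp only [Complex.real_smul]
      push_cast
      ring
    rw [h1]
    simp
  show 0 < (ww c z j (a • x + b • y)).im
  rw [e]
  have hx' : 0 < (ww c z j x).im := hx
  have hy' : 0 < (ww c z j y).im := hy
  rcases eq_or_lt_of_le ha with h | h
  · have : b = 1 := by linarith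
    rw [← h, this]
    linarith
  · have := mul_pos h hx'
    have := mul_nonneg hb hy'.le
    linarith

/-- A function with derivative zero on a convex set is constant. -/
lemma const_of {S : Set ℂ} (hS : Convex ℝ S) {f : ℂ → ℂ}
    (hf : ∀ x ∈ S, HasDerivAt f 0 x) {p q : ℂ} (hp : p ∈ S) (hq : q ∈ S) : f p = f q := by
  have h := hS.norm_image_sub_le_of_norm_hasDerivWithin_le (f := f) (f' := fun _ => (0 : ℂ))
    (C := 0) (fun x hx => (hf x hx).hasDerivWithinAt) (fun x _ => by simp) hp hq
  rw [zero_mul] at h
  have := norm_le_zero_iff.mp h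
  exact (sub_eq_zero.mp this).symm

theorem thm (hYP : Stmt_YProp) (hL : Stmt_LimU) : Stmt_LocStr := by
  intro N c z hc hN x0 hx0
  obtain ⟨hY2, hOm, -, -, hYd, hYne, hFd⟩ := hYP N c z hc
  by_cases hmem : x0 ∈ Om N c z
  · obtain ⟨ρ, hρ, hball⟩ := Metric.isOpen_iff.mp hOm x0 hmem
    refine ⟨ρ, YY N c z, FF N c z, fun _ => 0, 0, hρ, hN, hYd.continuousOn.mono hball, ?_⟩
    intro x hx
    exact ⟨hY2 x, hYne x (hball hx), fun l => hFd l x (hball hx), Or.inl ⟨rfl, fun l => by simp⟩⟩
  · -- the point lies on a cut
    have hmem' : ∃ j < N, 1 - ww c z j x0 ∉ Complex.slitPlane := by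
      by_contra hcon
      push Not at hcon
      exact hmem hcon
    obtain ⟨j, hj, hjs⟩ := hmem'
    have hzj : z j - c ≠ 0 := sub_ne_zero.mpr (hc.1 j hj)
    rw [Complex.mem_slitPlane_iff] at hjs
    push Not at hjs
    obtain ⟨hre, him⟩ := hjs
    have hw1 : ww c z j x0 ≠ 1 := by
      intro h1
      apply hx0
      unfold fz
      refine Finset.prod_eq_zero (Finset.mem_range.mpr hj) ?_
      unfold ww at h1
      rw [div_eq_one_iff_eq hzj] at h1
      exact sub_eq_zero.mpr (sub_left_injective h1)
    have him' : (ww c z j x0).im = 0 := by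
      simpa using him
    have hre' : 1 < (ww c z j x0).re := by
      have h1 : 1 ≤ (ww c z j x0).re := by simpa using hre
      rcases eq_or_lt_of_le h1 with h | h
      · exfalso
        apply hw1
        apply Complex.ext
        · simpa using h.symm
        · simpa using him'
      · exact h
    have hx0c : ∀ x : ℂ, x = c + ww c z j x * (z j - c) := by
      intro x
      unfold ww
      rw [div_mul_cancel₀ _ hzj]
      ring
    -- the open set
    let O : Set ℂ := {x | (∀ i < N, i ≠ j → 1 - ww c z i x ∈ Complex.slitPlane) ∧
      1 < (ww c z j x).re}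
    have hOo : IsOpen O := by
      have : O = (⋂ i ∈ (Finset.range N).erase j,
          (fun x => 1 - ww c z i x) ⁻¹' Complex.slitPlane) ∩
          (fun x => (ww c z j x).re) ⁻¹' Ioi 1 := by
        ext x
        simp only [O, mem_ofPred_eq, mem_inter_iff, mem_iInter, Finset.mem_erase,
          Finset.mem_range, mem_preimage, mem_Ioi]
        constructor
        · rintro ⟨h1, h2⟩
          exact ⟨fun i hi => h1 i hi.2 hi.1, h2⟩
        · rintro ⟨h1, h2⟩
          exact ⟨fun i hi hij => h1 i ⟨hij, hi⟩, h2⟩
      rw [this]
      refine IsOpen.inter ?_ ?_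
      · exact isOpen_biInter_finset fun i _ =>
          Complex.isOpen_slitPlane.preimage (continuous_const.sub (ww_cont c z i))
      · exact isOpen_Ioi.preimage (Complex.continuous_re.comp (ww_cont c z j))
    have hx0O : x0 ∈ O := by
      refine ⟨fun i hi hij => Or.inr ?_, hre'⟩
      have hzi : z i - c ≠ 0 := sub_ne_zero.mpr (hc.1 i hi)
      have hn : Complex.normSq (z i - c) ≠ 0 := by
        rw [Ne, Complex.normSq_eq_zero]
        exact hzi
      have hwr : ww c z j x0 = (((ww c z j x0).re : ℝ) : ℂ) := by
        apply Complex.ext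
        · simp
        · simpa using him'
      have e1 : ww c z i x0 = ((ww c z j x0).re : ℝ) * ww c z i (z j) := by
        conv_lhs => rw [hx0c x0, hwr]
        unfold ww
        rw [add_sub_cancel_left, mul_div_assoc]
      rw [Complex.sub_im, Complex.one_im, zero_sub, neg_ne_zero, e1, Complex.im_ofReal_mul]
      refine mul_ne_zero (by linarith) ?_
      rw [ww_im]
      refine div_ne_zero ?_ hn
      rcases lt_or_gt_of_ne hij with h | h
      · exact (hc.2 i j h hj).ne'
      · have h1 := hc.2 j i h hi
        have h2 : ((z j - c) * (starRingEnd ℂ) (z i - c)).im =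
            -((z i - c) * (starRingEnd ℂ) (z j - c)).im := by
          simp only [Complex.mul_im, Complex.conj_re, Complex.conj_im]
          ring
        rw [h2]
        exact neg_ne_zero.mpr h1.ne'
    obtain ⟨ρ, hρ, hball⟩ := Metric.isOpen_iff.mp hOo x0 hx0O
    have hfc : fz N z c ≠ 0 := by
      unfold fz
      refine Finset.prod_ne_zero_iff.mpr fun i hi => ?_
      exact sub_ne_zero.mpr (hc.1 i (Finset.mem_range.mp hi)).symm
    let h : ℂ → ℂ := fun x => csq (fz N z c) * ((∏ i ∈ (Finset.range N).erase j,
      csq (1 - ww c z i x)) * (Complex.I * csq (ww c z j x - 1)))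
    have hjm : j ∈ Finset.range N := Finset.mem_range.mpr hj
    have hYfac : ∀ x, YY N c z x = csq (fz N z c) * ((∏ i ∈ (Finset.range N).erase j,
        csq (1 - ww c z i x)) * csq (1 - ww c z j x)) := by
      intro x
      unfold YY
      rw [← Finset.mul_prod_erase _ _ hjm]
      ring
    have hslj : ∀ x ∈ O, ww c z j x - 1 ∈ Complex.slitPlane := by
      intro x hx
      left
      simp only [Complex.sub_re, Complex.one_re]
      linarith [hx.2]
    -- the two cases
    have hcase1 : ∀ x ∈ O, (ww c z j x).im ≤ 0 → YY N c z x = h x := by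
      intro x hx him
      rw [hYfac]
      show _ = csq (fz N z c) * ((∏ i ∈ (Finset.range N).erase j,
        csq (1 - ww c z i x)) * (Complex.I * csq (ww c z j x - 1)))
      congr 2
      rcases eq_or_lt_of_le him with h0 | h0
      · have e1 : 1 - ww c z j x = -(((ww c z j x).re - 1 : ℝ) : ℂ) := by
          apply Complex.ext
          · simp
          · simpa using h0
        have e2 : ww c z j x - 1 = (((ww c z j x).re - 1 : ℝ) : ℂ) := by
          apply Complex.ext
          · simp
          · simpa using h0
        rw [e1, e2, csq_neg_ofReal (by linarith [hx.2]), csq_ofReal (by linarith [hx.2])]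
      · have h1 : 0 < (1 - ww c z j x).im := by
          simp only [Complex.sub_im, Complex.one_im, zero_sub]
          linarith
        rw [csq_eq_I_mul h1]
        congr 2
        ring
    have hcase2 : ∀ x ∈ O, 0 < (ww c z j x).im → YY N c z x = -h x := by
      intro x hx him
      rw [hYfac]
      show _ = -(csq (fz N z c) * ((∏ i ∈ (Finset.range N).erase j,
        csq (1 - ww c z i x)) * (Complex.I * csq (ww c z j x - 1))))
      have h1 : 0 < (ww c z j x - 1).im := by
        simp only [Complex.sub_im, Complex.one_im, sub_zero]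
        exact him
      have h2 := csq_eq_I_mul h1
      have h3 : -(ww c z j x - 1) = 1 - ww c z j x := by ring
      rw [h3] at h2
      rw [h2]
      have h4 : Complex.I * (Complex.I * csq (1 - ww c z j x)) = -csq (1 - ww c z j x) := by
        rw [← mul_assoc, Complex.I_mul_I]
        ring
      rw [h4]
      ring
    have hh2 : ∀ x ∈ O, h x ^ 2 = fz N z x := by
      intro x hx
      rcases le_or_gt (ww c z j x).im 0 with h1 | h1
      · rw [← hcase1 x hx h1]
        exact hY2 x
      · rw [← hY2 x, hcase2 x hx h1]
        ring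
    have hhd : ∀ x ∈ O, DifferentiableAt ℂ h x := by
      intro x hx
      refine DifferentiableAt.mul (differentiableAt_const _) (DifferentiableAt.mul ?_ ?_)
      · have hpr : ∀ i ∈ (Finset.range N).erase j,
            DifferentiableAt ℂ (fun x => csq (1 - ww c z i x)) x := by
          intro i hi
          rw [Finset.mem_erase, Finset.mem_range] at hi
          exact DifferentiableAt.comp x (g := csq) (csq_differentiableAt (hx.1 i hi.2 hi.1))
            ((differentiableAt_const _).sub (ww_diff c z i x))
        exact DifferentiableAt.fun_finsetProd hpr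
      · refine DifferentiableAt.mul (differentiableAt_const _) ?_
        exact DifferentiableAt.comp x (g := csq) (csq_differentiableAt (hslj x hx))
          ((ww_diff c z j x).sub (differentiableAt_const _))
    have hhne : ∀ x ∈ O, h x ≠ 0 := by
      intro x hx
      refine mul_ne_zero (csq_ne_zero hfc) (mul_ne_zero (Finset.prod_ne_zero_iff.mpr ?_)
        (mul_ne_zero Complex.I_ne_zero (csq_ne_zero (Complex.slitPlane_ne_zero (hslj x hx)))))
      intro i hi
      rw [Finset.mem_erase, Finset.mem_range] at hi
      exact csq_ne_zero (Complex.slitPlane_ne_zero (hx.1 i hi.2 hi.1))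
    have hG : ∀ l : ℕ, ∃ g : ℂ → ℂ, ∀ x ∈ ball x0 ρ, HasDerivAt g (x ^ l / h x) x := by
      intro l
      have hd : DifferentiableOn ℂ (fun x => x ^ l / h x) (ball x0 ρ) := by
        intro x hx
        exact ((differentiableAt_id.pow l).div (hhd x (hball hx))
          (hhne x (hball hx))).differentiableWithinAt
      exact hd.isExactOn_ball
    choose G hG using hG
    -- the half discs
    let Bp : Set ℂ := ball x0 ρ ∩ {x | (ww c z j x).im < 0}
    let Bm : Set ℂ := ball x0 ρ ∩ {x | 0 < (ww c z j x).im}
    have hBp : Convex ℝ Bp := (convex_ball x0 ρ).inter (conv_neg c z j)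
    have hBm : Convex ℝ Bm := (convex_ball x0 ρ).inter (conv_pos c z j)
    have hOmO : ∀ x ∈ O, (ww c z j x).im ≠ 0 → x ∈ Om N c z := by
      intro x hx him i hi
      by_cases hij : i = j
      · subst hij
        right
        simp only [Complex.sub_im, Complex.one_im, zero_sub]
        exact neg_ne_zero.mpr him
      · exact hx.1 i hi hij
    have hdp : ∀ l, ∀ x ∈ Bp, HasDerivAt (fun x => FF N c z l x - G l x) 0 x := by
      intro l x hx
      have h1 := hFd l x (hOmO x (hball hx.1) (ne_of_lt hx.2))
      have h2 := hG l x hx.1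
      have h3 := h1.sub h2
      have h4 : x ^ l / YY N c z x - x ^ l / h x = 0 := by
        rw [hcase1 x (hball hx.1) (le_of_lt hx.2), sub_self]
      rw [h4] at h3
      exact h3
    have hdm : ∀ l, ∀ x ∈ Bm, HasDerivAt (fun x => FF N c z l x + G l x) 0 x := by
      intro l x hx
      have h1 := hFd l x (hOmO x (hball hx.1) (ne_of_gt hx.2))
      have h2 := hG l x hx.1
      have h3 := h1.add h2
      have h4 : x ^ l / YY N c z x + x ^ l / h x = 0 := by
        rw [hcase2 x (hball hx.1) hx.2, div_neg, neg_add_cancel]
      rw [h4] at h3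
      exact h3
    -- limits at the points of the cut
    have hcut : ∀ x ∈ ball x0 ρ, (ww c z j x).im = 0 → ∀ l,
        (∀ p ∈ Bp, FF N c z l p - G l p = FF N c z l x - G l x) ∧
        (∀ p ∈ Bm, FF N c z l p + G l p =
          (2 * FF N c z l (z j) - FF N c z l x) + G l x) := by
      intro x hx him l
      have hxO := hball hx
      set τ : ℝ := (ww c z j x).re with hτ
      have hτ1 : 1 < τ := hxO.2
      have hwr : ww c z j x = (τ : ℂ) := by
        apply Complex.ext
        · simp [hτ]
        · simpa using him
      have hxe : x = c + τ * (z j - c) := by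
        conv_lhs => rw [hx0c x, hwr]
      obtain ⟨hl1, hl2⟩ := hL N c z hc j hj τ hτ1 l
      rw [← hxe] at hl1 hl2
      -- paths
      have hGc : ContinuousAt (G l) x := (hG l x hx).continuousAt
      have hpath : ∀ σ : ℂ, Tendsto (fun ε : ℝ => c + (1 + σ * ε * Complex.I) *
          (τ * (z j - c))) (𝓝[>] 0) (𝓝 x) := by
        intro σ
        have hcont : Continuous (fun ε : ℝ => c + (1 + σ * ε * Complex.I) *
          (τ * (z j - c))) := by fun_prop
        have h1 := hcont.tendsto 0
        simp only [Complex.ofReal_zero, mul_zero, zero_mul, add_zero, one_mul] at h1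
        rw [← hxe] at h1
        exact h1.mono_left nhdsWithin_le_nhds
      have hwp : ∀ (σ : ℂ) (ε : ℝ), ww c z j (c + (1 + σ * ε * Complex.I) *
          (τ * (z j - c))) = (1 + σ * ε * Complex.I) * τ := by
        intro σ ε
        unfold ww
        field_simp
        ring
      have hsub1 : (fun ε : ℝ => c + (1 - ε * Complex.I) * (τ * (z j - c))) =
          fun ε : ℝ => c + (1 + (-1 : ℂ) * ε * Complex.I) * (τ * (z j - c)) := by
        funext ε
        ring
      have hsub2 : (fun ε : ℝ => c + (1 + ε * Complex.I) * (τ * (z j - c))) =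
          fun ε : ℝ => c + (1 + (1 : ℂ) * ε * Complex.I) * (τ * (z j - c)) := by
        funext ε
        ring
      have hl1' : Tendsto (fun ε : ℝ => FF N c z l (c + (1 + (-1 : ℂ) * ε * Complex.I) *
          (τ * (z j - c)))) (𝓝[>] 0) (𝓝 (FF N c z l x)) := by
        have := congrFun hsub1
        simp only [← this]
        exact hl1
      have hl2' : Tendsto (fun ε : ℝ => FF N c z l (c + (1 + (1 : ℂ) * ε * Complex.I) *
          (τ * (z j - c)))) (𝓝[>] 0) (𝓝 (2 * FF N c z l (z j) - FF N c z l x)) := by
        have := congrFun hsub2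
        simp only [← this]
        exact hl2
      constructor
      · intro p hp
        have ht := hl1'.sub (hGc.tendsto.comp (hpath (-1)))
        have hev : ∀ᶠ ε : ℝ in 𝓝[>] 0, FF N c z l (c + (1 + (-1 : ℂ) * ε * Complex.I) *
            (τ * (z j - c))) - (G l ∘ fun ε : ℝ => c + (1 + (-1 : ℂ) * ε * Complex.I) *
            (τ * (z j - c))) ε = FF N c z l p - G l p := by
          have h1 := (hpath (-1)).eventually (isOpen_ball.mem_nhds hx)
          filter_upwards [h1, self_mem_nhdsWithin] with ε hε hε0
          have hε0' : 0 < ε := hε0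
          refine const_of hBp (hdp l) ⟨hε, ?_⟩ hp
          show (ww c z j _).im < 0
          rw [hwp]
          simp only [Complex.mul_im, Complex.add_re, Complex.one_re, Complex.mul_re,
            Complex.neg_re, Complex.ofReal_re, Complex.neg_im, Complex.one_im, neg_zero,
            Complex.ofReal_im, mul_zero, sub_zero, Complex.I_re, zero_mul, Complex.I_im,
            Complex.add_im, add_zero, zero_add]
          nlinarith
        exact tendsto_nhds_unique (tendsto_const_nhds.congr' (hev.mono fun ε h => h.symm)) ht
      · intro p hp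
        have ht := hl2'.add (hGc.tendsto.comp (hpath 1))
        have hev : ∀ᶠ ε : ℝ in 𝓝[>] 0, FF N c z l (c + (1 + (1 : ℂ) * ε * Complex.I) *
            (τ * (z j - c))) + (G l ∘ fun ε : ℝ => c + (1 + (1 : ℂ) * ε * Complex.I) *
            (τ * (z j - c))) ε = FF N c z l p + G l p := by
          have h1 := (hpath 1).eventually (isOpen_ball.mem_nhds hx)
          filter_upwards [h1, self_mem_nhdsWithin] with ε hε hε0
          have hε0' : 0 < ε := hε0
          refine const_of hBm (hdm l) ⟨hε, ?_⟩ hp
          show 0 < (ww c z j _).im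
          rw [hwp]
          simp only [Complex.mul_im, Complex.add_re, Complex.one_re, Complex.mul_re,
            Complex.ofReal_re, Complex.one_im,
            Complex.ofReal_im, mul_zero, sub_zero, Complex.I_re, zero_mul, Complex.I_im,
            Complex.add_im, add_zero, zero_add]
          nlinarith
        exact tendsto_nhds_unique (tendsto_const_nhds.congr' (hev.mono fun ε h => h.symm)) ht
    refine ⟨ρ, h, G, fun l => FF N c z l x0 - G l x0, j, hρ, hj,
      fun x hx => (hhd x (hball hx)).continuousAt.continuousWithinAt, ?_⟩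
    intro x hx
    have hxO := hball hx
    refine ⟨hh2 x hxO, hhne x hxO, fun l => hG l x hx, ?_⟩
    have hx0b : x0 ∈ ball x0 ρ := mem_ball_self hρ
    rcases lt_trichotomy (ww c z j x).im 0 with him | him | him
    · left
      refine ⟨hcase1 x hxO him.le, fun l => ?_⟩
      have := (hcut x0 hx0b him' l).1 x ⟨hx, him⟩
      simp only
      rw [← this]
      ring
    · left
      refine ⟨hcase1 x hxO him.le, fun l => ?_⟩
      -- a point of `Bp`
      have hex : ∃ p, p ∈ Bp := by
        have hcont : Continuous (fun ε : ℝ => c + (1 + (-1 : ℂ) * ε * Complex.I) *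
            (x0 - c)) := by fun_prop
        have h1 := hcont.tendsto 0
        simp only [Complex.ofReal_zero, mul_zero, zero_mul, add_zero, one_mul,
          add_sub_cancel] at h1
        have h2 := (h1.mono_left (nhdsWithin_le_nhds (s := Ioi (0 : ℝ)))).eventually
          (isOpen_ball.mem_nhds hx0b)
        obtain ⟨ε, hε, hε0⟩ := (h2.and self_mem_nhdsWithin).exists
        have hε0' : 0 < ε := hε0
        refine ⟨_, hε, ?_⟩
        show (ww c z j _).im < 0
        have e1 : ww c z j (c + (1 + (-1 : ℂ) * ε * Complex.I) * (x0 - c)) =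
            (1 + (-1 : ℂ) * ε * Complex.I) * ww c z j x0 := by
          unfold ww
          rw [add_sub_cancel_left, mul_div_assoc]
        rw [e1]
        simp only [Complex.mul_im, Complex.add_re, Complex.one_re, Complex.mul_re,
            Complex.neg_re, Complex.ofReal_re, Complex.neg_im, Complex.one_im, neg_zero,
            Complex.ofReal_im, mul_zero, sub_zero, Complex.I_re, zero_mul, Complex.I_im,
            Complex.add_im, add_zero, zero_add, him']
        nlinarith
      obtain ⟨p, hp⟩ := hex
      have e1 := (hcut x0 hx0b him' l).1 p hp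
      have e2 := (hcut x hx him l).1 p hp
      simp only
      rw [← e1, e2]
      ring
    · right
      refine ⟨hcase2 x hxO him, fun l => ?_⟩
      have := (hcut x0 hx0b him' l).2 x ⟨hx, him⟩
      linear_combination this

end Pool.Agent.GPH.LOCSTR
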