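import Pool.Agent.GPH.IIIDefs

/-!
# GPH, module LOOPS: closed paths and reference periods
-/

open scoped BigOperators Topology
open Metric Set

namespace Pool.Agent.GPH.LOOPS

theorem thm (hSeg : Stmt_Seg) (hV : Stmt_LoopV) (hC : Stmt_Cen) : Stmt_Loops := by
  intro g κ z hO L
  obtain ⟨c, hc⟩ := hC _ κ z hO
  obtain ⟨k', hk'⟩ := hV _ c z hc (Nat.succ_pos _) L
  have hs : ∀ m, ∃ s : ℤ, m < 2 * g → ∀ l,
      FF (2 * g + 1) c z l (z (m + 1)) - FF (2 * g + 1) c z l (z m) =
        (s : ℂ) * (Complex.I ^ m * EE (2 * g + 1) z m l) := by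
    intro m
    by_cases hm : m < 2 * g
    · obtain ⟨σ, -, h2, h3⟩ := hSeg _ κ c z hO hc m (by omega)
      have e1 : (-1 : ℂ) ^ (2 * g + 1 - 1 - m) = (Complex.I ^ m) ^ 2 := by
        rw [← pow_mul, mul_comm m 2, pow_mul, Complex.I_sq]
        have : 2 * g + 1 - 1 - m + m = 2 * g := by omega
        have h4 : (-1 : ℂ) ^ (2 * g + 1 - 1 - m) * (-1) ^ m = 1 := by
          rw [← pow_add, this, pow_mul]
          simp
        have h5 : (-1 : ℂ) ^ m * (-1) ^ m = 1 := by
          rw [← pow_add, ← two_mul, pow_mul]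
          simp
        calc (-1 : ℂ) ^ (2 * g + 1 - 1 - m)
            = (-1 : ℂ) ^ (2 * g + 1 - 1 - m) * ((-1) ^ m * (-1) ^ m) := by rw [h5, mul_one]
          _ = _ := by rw [← mul_assoc, h4, one_mul]
      rw [e1] at h2
      rcases sq_eq_sq_iff_eq_or_eq_neg.mp h2 with h | h
      · refine ⟨1, fun _ l => ?_⟩
        rw [h3 l, h]
        push_cast
        ring
      · refine ⟨-1, fun _ l => ?_⟩
        rw [h3 l, h]
        push_cast
        ring
    · exact ⟨0, fun h => absurd h hm⟩
  choose s hs using hs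
  have htel : ∀ j, j < 2 * g + 1 → ∀ l, FF (2 * g + 1) c z l (z j) - FF (2 * g + 1) c z l (z 0) =
      ∑ m ∈ Finset.range j, (s m : ℂ) * (Complex.I ^ m * EE (2 * g + 1) z m l) := by
    intro j
    induction j with
    | zero => intro _ l; simp
    | succ j ih =>
      intro hj l
      rw [Finset.sum_range_succ, ← ih (by omega) l, ← hs j (by omega) l]
      ring
  refine ⟨fun m => s m * ∑ j ∈ Finset.Ico (m + 1) (2 * g + 1), k' j, fun l => ?_⟩
  rw [hk' l]
  have h1 : ∀ j ∈ Finset.range (2 * g + 1), (k' j : ℂ) * (2 * (FF (2 * g + 1) c z l (z j) -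
      FF (2 * g + 1) c z l (z 0))) = ∑ m ∈ Finset.range (2 * g), if m < j then
        (k' j : ℂ) * (2 * ((s m : ℂ) * (Complex.I ^ m * EE (2 * g + 1) z m l))) else 0 := by
    intro j hj
    rw [Finset.mem_range] at hj
    rw [htel j hj l, ← Finset.sum_filter, Finset.mul_sum, Finset.mul_sum]
    refine Finset.sum_congr ?_ (fun m _ => rfl)
    ext m
    simp only [Finset.mem_range, Finset.mem_filter]
    omega
  rw [Finset.sum_congr rfl h1, Finset.sum_comm]
  refine Finset.sum_congr rfl fun m hm => ?_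
  rw [Finset.mem_range] at hm
  rw [← Finset.sum_filter]
  have h2 : (Finset.range (2 * g + 1)).filter (fun j => m < j) =
      Finset.Ico (m + 1) (2 * g + 1) := by
    ext j
    simp only [Finset.mem_range, Finset.mem_filter, Finset.mem_Ico]
    omega
  rw [h2, ← Finset.sum_mul]
  push_cast
  ring

end Pool.Agent.GPH.LOOPS
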