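import Pool.Agent.GPH.IIIDefs

open scoped BigOperators Topology
open Metric Set

namespace Pool.Agent.GPH.LOOPV

noncomputable section

/-- the lattice of the integral combinations -/
def Lam (N : ℕ) (c : ℂ) (z : ℕ → ℂ) : AddSubgroup (ℕ → ℂ) where
  carrier := {v | ∃ k : ℕ → ℤ, ∀ l, v l = ∑ j ∈ Finset.range N,
    (k j : ℂ) * (2 * (FF N c z l (z j) - FF N c z l (z 0)))}
  add_mem' := by
    rintro a b ⟨k, hk⟩ ⟨k', hk'⟩
    refine ⟨fun j => k j + k' j, fun l => ?_⟩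
    rw [Pi.add_apply, hk l, hk' l, ← Finset.sum_add_distrib]
    refine Finset.sum_congr rfl fun j _ => ?_
    push_cast; ring
  zero_mem' := ⟨fun _ => 0, fun l => by simp⟩
  neg_mem' := by
    rintro a ⟨k, hk⟩
    refine ⟨fun j => -k j, fun l => ?_⟩
    rw [Pi.neg_apply, hk l, ← Finset.sum_neg_distrib]
    refine Finset.sum_congr rfl fun j _ => ?_
    push_cast; ring

lemma mem_single {N : ℕ} {c : ℂ} {z : ℕ → ℂ} {j : ℕ} (hj : j < N) (d : ℤ) {v : ℕ → ℂ}
    (hv : ∀ l, v l = (d : ℂ) * (2 * (FF N c z l (z j) - FF N c z l (z 0)))) :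
    v ∈ Lam N c z := by
  refine ⟨fun i => if i = j then d else 0, fun l => ?_⟩
  rw [hv l, Finset.sum_eq_single j]
  · simp
  · intro i _ hi
    simp [hi]
  · intro h
    exact absurd (Finset.mem_range.mpr hj) h

variable {N : ℕ} {c : ℂ} {z : ℕ → ℂ}

/-- the function which is locally constant modulo the lattice -/
def Phi (N : ℕ) (c : ℂ) (z : ℕ → ℂ) (L : Loop (fz N z)) (t : ℝ) (l : ℕ) : ℂ :=
  L.y t / YY N c z (L.x t) * (FF N c z l (L.x t) - FF N c z l (z 0)) -
    ∫ u in (0 : ℝ)..t, L.x u ^ l * L.x' u / L.y u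

lemma cont_x (L : Loop (fz N z)) : ContinuousOn L.x (Icc 0 1) :=
  fun t ht => (L.hx t ht).continuousAt.continuousWithinAt

lemma cont_int (L : Loop (fz N z)) (l : ℕ) :
    ContinuousOn (fun u => L.x u ^ l * L.x' u / L.y u) (Icc 0 1) :=
  ContinuousOn.div (((cont_x L).pow l).mul L.cx) L.cy (fun t ht => (L.hy t ht).2)

lemma intble (L : Loop (fz N z)) (l : ℕ) {a b : ℝ} (ha : a ∈ Icc (0 : ℝ) 1)
    (hb : b ∈ Icc (0 : ℝ) 1) :
    IntervalIntegrable (fun u => L.x u ^ l * L.x' u / L.y u) MeasureTheory.volume a b := by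
  apply ContinuousOn.intervalIntegrable
  exact (cont_int L l).mono (Set.uIcc_subset_Icc ha hb)

lemma local_const (h1 : Stmt_LocStr) (hC : Cen N c z) (hN : 0 < N) (L : Loop (fz N z))
    {t0 : ℝ} (ht0 : t0 ∈ Icc (0 : ℝ) 1) :
    ∃ δ > 0, ∀ t ∈ Icc (0 : ℝ) 1, |t - t0| < δ →
      (fun l => Phi N c z L t l - Phi N c z L t0 l) ∈ Lam N c z := by
  have hne : fz N z (L.x t0) ≠ 0 := by
    rw [← (L.hy t0 ht0).1]
    exact pow_ne_zero 2 (L.hy t0 ht0).2
  obtain ⟨ρ, h, G, C, j, hρ, hj, hcont, H⟩ := h1 N c z hC hN (L.x t0) hne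
  obtain ⟨δ, hδ, hball⟩ := Metric.continuousAt_iff.mp (L.hx t0 ht0).continuousAt ρ hρ
  refine ⟨δ, hδ, fun t ht htt => ?_⟩
  set S : Set ℝ := ball t0 δ ∩ Icc 0 1 with hS
  have hSx : ∀ u ∈ S, L.x u ∈ ball (L.x t0) ρ := fun u hu => hball hu.1
  have hSpre : IsPreconnected S := ((convex_ball t0 δ).inter (convex_Icc 0 1)).isPreconnected
  have hc1 : ContinuousOn L.y S := L.cy.mono inter_subset_right
  have hc2 : ContinuousOn (fun u => h (L.x u)) S :=
    hcont.comp ((cont_x L).mono inter_subset_right) hSx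
  have hsq : EqOn (L.y ^ 2) ((fun u => h (L.x u)) ^ 2) S := by
    intro u hu
    simp only [Pi.pow_apply]
    rw [(L.hy u hu.2).1, (H _ (hSx u hu)).1]
  have hnz : ∀ {u : ℝ}, u ∈ S → (fun u => h (L.x u)) u ≠ 0 := fun {u} hu =>
    (H _ (hSx u hu)).2.1
  obtain ⟨d, hd, hy⟩ : ∃ d : ℤ, (d = 1 ∨ d = -1) ∧ ∀ u ∈ S, L.y u = (d : ℂ) * h (L.x u) := by
    rcases hSpre.eq_or_eq_neg_of_sq_eq hc1 hc2 hsq hnz with h' | h'
    · exact ⟨1, Or.inl rfl, fun u hu => by rw [h' hu]; simp⟩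
    · refine ⟨-1, Or.inr rfl, fun u hu => ?_⟩
      rw [h' hu]
      simp
  have hd2 : ((d : ℂ)) * d = 1 := by
    rcases hd with rfl | rfl <;> simp
  have hdne : (d : ℂ) ≠ 0 := by
    intro h0
    rw [h0] at hd2
    simp at hd2
  have htS : t ∈ S := ⟨by rw [mem_ball, Real.dist_eq]; exact htt, ht⟩
  have ht0S : t0 ∈ S := ⟨mem_ball_self hδ, ht0⟩
  have hsub : Set.uIcc t0 t ⊆ S := by
    have hconv : Convex ℝ S := (convex_ball t0 δ).inter (convex_Icc 0 1)
    rw [← segment_eq_uIcc]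
    exact hconv.segment_subset ht0S htS
  -- the integral between t0 and t
  have hI : ∀ l, (∫ u in (0 : ℝ)..t, L.x u ^ l * L.x' u / L.y u) -
      (∫ u in (0 : ℝ)..t0, L.x u ^ l * L.x' u / L.y u) =
      d * (G l (L.x t) - G l (L.x t0)) := by
    intro l
    rw [intervalIntegral.integral_interval_sub_left (intble L l ⟨le_refl 0, zero_le_one⟩ ht)
      (intble L l ⟨le_refl 0, zero_le_one⟩ ht0)]
    have hcongr : EqOn (fun u => L.x u ^ l * L.x' u / L.y u)
        (fun u => (d : ℂ) * (L.x u ^ l / h (L.x u) * L.x' u)) (Set.uIcc t0 t) := by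
      intro u hu
      simp only
      rw [hy u (hsub hu)]
      have hh := (H _ (hSx u (hsub hu))).2.1
      field_simp
      rw [sq, hd2, mul_one]
    have hi : IntervalIntegrable (fun u => (d : ℂ) * (L.x u ^ l / h (L.x u) * L.x' u))
        MeasureTheory.volume t0 t := (intble L l ht0 ht).congr (fun u hu =>
          hcongr (Set.uIoc_subset_uIcc hu))
    rw [intervalIntegral.integral_congr hcongr]
    rw [mul_sub]
    refine intervalIntegral.integral_eq_sub_of_hasDerivAt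
      (f := fun u => (d : ℂ) * G l (L.x u)) (fun u hu => ?_) hi
    have hG := (H _ (hSx u (hsub hu))).2.2.1 l
    have := HasDerivAt.comp_of_eq (h₂ := G l) u hG (L.hx u (hsub hu).2) rfl
    exact this.const_mul (d : ℂ)
  -- the values of V
  have hV : ∀ u ∈ S, ∃ e : ℤ, ∀ l, L.y u / YY N c z (L.x u) * (FF N c z l (L.x u) -
      FF N c z l (z 0)) = d * (G l (L.x u) + C l - FF N c z l (z 0)) +
      (e : ℂ) * (2 * (FF N c z l (z j) - FF N c z l (z 0))) := by
    intro u hu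
    obtain ⟨-, hh, -, hcase⟩ := H _ (hSx u hu)
    rcases hcase with ⟨hY, hF⟩ | ⟨hY, hF⟩
    · refine ⟨0, fun l => ?_⟩
      rw [hY, hF l, hy u hu, mul_div_assoc, div_self hh]
      simp
    · refine ⟨-d, fun l => ?_⟩
      rw [hY, hF l, hy u hu, div_neg, mul_div_assoc, div_self hh]
      push_cast
      ring
  obtain ⟨e, he⟩ := hV t htS
  obtain ⟨e0, he0⟩ := hV t0 ht0S
  apply mem_single hj (e - e0)
  intro l
  unfold Phi
  rw [he l, he0 l]
  have := hI l
  push_cast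
  linear_combination -this

theorem thm (h1 : Stmt_LocStr) : Stmt_LoopV := by
  intro N c z hC hN L
  let q : Icc (0 : ℝ) 1 → (ℕ → ℂ) ⧸ (Lam N c z) := fun t =>
    QuotientAddGroup.mk (fun l => Phi N c z L t l)
  have hq : IsLocallyConstant q := by
    rw [IsLocallyConstant.iff_eventually_eq]
    intro t0
    obtain ⟨δ, hδ, H⟩ := local_const h1 hC hN L t0.2
    rw [Metric.eventually_nhds_iff]
    refine ⟨δ, hδ, fun t ht => ?_⟩
    have h2 := H t.1 t.2 (by rw [Subtype.dist_eq, Real.dist_eq] at ht; exact ht)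
    change (QuotientAddGroup.mk (fun l => Phi N c z L t l) : (ℕ → ℂ) ⧸ (Lam N c z)) =
      QuotientAddGroup.mk (fun l => Phi N c z L t0 l)
    rw [eq_comm, QuotientAddGroup.eq]
    convert h2 using 1
    funext l
    simp only [Pi.add_apply, Pi.neg_apply]
    ring
  have : PreconnectedSpace (Icc (0 : ℝ) 1) := Subtype.preconnectedSpace isPreconnected_Icc
  have h01 := hq.apply_eq_of_preconnectedSpace ⟨1, ⟨zero_le_one, le_refl 1⟩⟩
    ⟨0, ⟨le_refl 0, zero_le_one⟩⟩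
  change (QuotientAddGroup.mk (fun l => Phi N c z L 1 l) : (ℕ → ℂ) ⧸ (Lam N c z)) =
      QuotientAddGroup.mk (fun l => Phi N c z L 0 l) at h01
  rw [QuotientAddGroup.eq] at h01
  obtain ⟨k, hk⟩ := h01
  refine ⟨k, fun l => ?_⟩
  rw [← hk l]
  simp only [Pi.add_apply, Pi.neg_apply]
  unfold Phi Loop.per
  rw [← L.cl.1, ← L.cl.2, intervalIntegral.integral_same]
  ring

end

end Pool.Agent.GPH.LOOPV
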