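import Pool.Agent.GPH.IIIDefs

/-!
# ODEE: the differential equation of the reference integrals
-/

set_option autoImplicit false

open scoped BigOperators Topology Interval
open Metric Set MeasureTheory Filter

namespace Pool.Agent.GPH.ODEE

open Pool.Agent.HGP (csq csq_differentiableAt csq_ne_zero csq_mul_self csq_continuousOn)

noncomputable section

/-! ## The parameter integral -/

/-- differentiation under the integral sign for a holomorphic parameter -/
theorem param (p q : ℝ) (V : Set ℂ) (k : ℂ → ℝ → ℂ) (hpq : p ≤ q) (hV : IsOpen V)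
    (hk : ContinuousOn (fun x : ℂ × ℝ => k x.1 x.2) (V ×ˢ Icc p q))
    (hd : ∀ x ∈ Icc p q, DifferentiableOn ℂ (fun s => k s x) V) (t0 : ℂ) (ht0 : t0 ∈ V) :
    HasDerivAt (fun s => ∫ x in p..q, k s x) (∫ x in p..q, deriv (fun s => k s x) t0) t0 := by
  obtain ⟨ε, hε, hball⟩ := Metric.isOpen_iff.1 hV t0 ht0
  obtain ⟨r, hr⟩ : ∃ r, r = ε / 3 := ⟨_, rfl⟩
  have hr0 : 0 < r := by rw [hr]; positivity
  have hsub : closedBall t0 (2 * r) ⊆ V :=
    (closedBall_subset_ball (by rw [hr]; linarith)).trans hball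
  have hsub1 : ∀ t ∈ ball t0 r, closedBall t r ⊆ closedBall t0 (2 * r) := by
    intro t ht s hs
    rw [mem_closedBall] at hs ⊢
    rw [mem_ball] at ht
    have := dist_triangle s t t0
    linarith
  -- the bound
  obtain ⟨B, hB⟩ := ((isCompact_closedBall t0 (2 * r)).prod
    (isCompact_Icc (a := p) (b := q))).exists_bound_of_continuousOn
      (hk.mono (Set.prod_mono hsub le_rfl))
  have hB' : ∀ t ∈ closedBall t0 (2 * r), ∀ x ∈ Icc p q, ‖k t x‖ ≤ B :=
    fun t ht x hx => hB (t, x) ⟨ht, hx⟩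
  have hIoc : Ι p q ⊆ Icc p q := by
    rw [uIoc_of_le hpq]
    exact Ioc_subset_Icc_self
  have hcont : ∀ t ∈ V, ContinuousOn (fun x => k t x) (Icc p q) := fun t ht =>
    hk.comp (by fun_prop : ContinuousOn (fun x : ℝ => (t, x)) (Icc p q)) (fun x hx => ⟨ht, hx⟩)
  have hkm : ∀ t ∈ V, AEStronglyMeasurable (fun x => k t x) (volume.restrict (Ι p q)) :=
    fun t ht => ((hcont t ht).mono hIoc).aestronglyMeasurable measurableSet_uIoc
  have hV0 : ∀ᶠ t in 𝓝 t0, t ∈ V := hV.mem_nhds ht0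
  have hdiff : ∀ x ∈ Icc p q, ∀ t ∈ V, HasDerivAt (fun s => k s x) (deriv (fun s => k s x) t) t :=
    fun x hx t ht => ((hd x hx).differentiableAt (hV.mem_nhds ht)).hasDerivAt
  -- measurability of the derivative
  have hderm : AEStronglyMeasurable (fun x => deriv (fun s => k s x) t0)
      (volume.restrict (Ι p q)) := by
    set h : ℕ → ℂ := fun n => ((r / (n + 1) : ℝ) : ℂ) with hh
    have hh0 : ∀ n, h n ≠ 0 := fun n => by
      rw [hh]
      simp only [ne_eq, Complex.ofReal_eq_zero]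
      positivity
    have hhV : ∀ n, t0 + h n ∈ V := fun n => by
      apply hsub
      rw [mem_closedBall, dist_eq_norm, add_sub_cancel_left, hh]
      simp only [Complex.norm_real, Real.norm_eq_abs]
      rw [abs_of_nonneg (by positivity)]
      have h1 : r / (n + 1) ≤ r := div_le_self hr0.le (by
        have : (0 : ℝ) ≤ n := Nat.cast_nonneg n
        linarith)
      linarith
    have hhlim : Tendsto h atTop (𝓝[≠] 0) := by
      rw [tendsto_nhdsWithin_iff]
      refine ⟨?_, Eventually.of_forall hh0⟩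
      have h2 : Tendsto (fun n : ℕ => r / ((n : ℝ) + 1)) atTop (𝓝 0) := by
        have := (tendsto_one_div_add_atTop_nhds_zero_nat (𝕜 := ℝ)).const_mul r
        simp only [mul_one_div, mul_zero] at this
        exact this
      have h3 := (Complex.continuous_ofReal.tendsto 0).comp h2
      rw [Complex.ofReal_zero] at h3
      exact h3
    apply aestronglyMeasurable_of_tendsto_ae atTop
      (f := fun n x => (h n)⁻¹ • (k (t0 + h n) x - k t0 x))
    · intro n
      exact ((hkm _ (hhV n)).sub (hkm t0 ht0)).const_smul ((h n)⁻¹)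
    · refine (ae_restrict_mem measurableSet_uIoc).mono fun x hx => ?_
      have h4 := (hdiff x (hIoc hx) t0 ht0)
      rw [hasDerivAt_iff_tendsto_slope_zero] at h4
      exact h4.comp hhlim
  have key := intervalIntegral.hasDerivAt_integral_of_dominated_loc_of_deriv_le (μ := volume)
    (a := p) (b := q) (F := fun t x => k t x)
    (F' := fun t x => deriv (fun s => k s x) t) (x₀ := t0) (s := ball t0 r)
    (bound := fun _ => B / r) (ball_mem_nhds t0 hr0)
    (hV0.mono fun t ht => hkm t ht)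
    (by
      apply ContinuousOn.intervalIntegrable
      rw [uIcc_of_le hpq]
      exact hcont t0 ht0)
    hderm
    (Eventually.of_forall fun x hx t ht => by
      have hdc : DiffContOnCl ℂ (fun s => k s x) (ball t r) := by
        apply DifferentiableOn.diffContOnCl
        rw [closure_ball t hr0.ne']
        exact (hd x (hIoc hx)).mono ((hsub1 t ht).trans hsub)
      exact Complex.norm_deriv_le_of_forall_mem_sphere_norm_le hr0 hdc fun s hs =>
        hB' s (hsub1 t ht (sphere_subset_closedBall hs)) x (hIoc hx))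
    (_root_.intervalIntegrable_const)
    (Eventually.of_forall fun x hx t ht => by
      have htV : t ∈ V := hsub (ball_subset_closedBall.trans
        (closedBall_subset_closedBall (by linarith)) ht)
      exact hdiff x (hIoc hx) t htV)
  exact key.2

/-! ## The ellipse -/

/-- `w + 1 / w` -/
def cc (R φ : ℝ) : ℂ := R * Complex.exp (φ * Complex.I) + (R * Complex.exp (φ * Complex.I))⁻¹

/-- `w - 1 / w` -/
def ew (R φ : ℝ) : ℂ := R * Complex.exp (φ * Complex.I) - (R * Complex.exp (φ * Complex.I))⁻¹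

theorem ell_eq (z : ℕ → ℂ) (m : ℕ) (R φ : ℝ) :
    ell z m R φ = (z m + z (m + 1)) / 2 - (z (m + 1) - z m) / 4 * cc R φ := rfl

theorem w_ne {R : ℝ} (hR : 1 < R) (φ : ℝ) : (R * Complex.exp (φ * Complex.I) : ℂ) ≠ 0 :=
  mul_ne_zero (by exact_mod_cast (by linarith : R ≠ 0)) (Complex.exp_ne_zero _)

theorem cc_sq {R : ℝ} (hR : 1 < R) (φ : ℝ) : cc R φ ^ 2 - 4 = ew R φ ^ 2 := by
  have h := mul_inv_cancel₀ (w_ne hR φ)
  unfold cc ew
  linear_combination 4 * h

theorem ew_ne {R : ℝ} (hR : 1 < R) (φ : ℝ) : ew R φ ≠ 0 := by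
  intro h
  have h0 := w_ne hR φ
  unfold ew at h
  have h1 : (R * Complex.exp (φ * Complex.I) : ℂ) * (R * Complex.exp (φ * Complex.I)) = 1 := by
    have h2 := sub_eq_zero.1 h
    exact (congrArg (fun t => (R * Complex.exp (φ * Complex.I) : ℂ) * t) h2).trans
      (mul_inv_cancel₀ h0)
  have h2 := congrArg norm h1
  rw [norm_mul, norm_mul, Complex.norm_exp_ofReal_mul_I, norm_one, mul_one, Complex.norm_real,
    Real.norm_eq_abs, abs_of_pos (by linarith)] at h2
  nlinarith

theorem hasDerivAt_w (R φ : ℝ) : HasDerivAt (fun φ : ℝ => (R * Complex.exp (φ * Complex.I) : ℂ))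
    (Complex.I * (R * Complex.exp (φ * Complex.I))) φ := by
  have h1 : HasDerivAt (fun φ : ℝ => ((φ : ℂ) * Complex.I)) (1 * Complex.I) φ :=
    (Complex.ofRealCLM.hasDerivAt).mul_const Complex.I
  have h2 := (h1.cexp).const_mul (R : ℂ)
  refine h2.congr_deriv ?_
  ring

theorem hasDerivAt_cc {R : ℝ} (hR : 1 < R) (φ : ℝ) :
    HasDerivAt (fun φ : ℝ => cc R φ) (Complex.I * ew R φ) φ := by
  have h1 := hasDerivAt_w R φ
  have h0 := w_ne hR φ
  have h2 := h1.add (h1.inv h0)
  refine h2.congr_deriv ?_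
  unfold ew
  field_simp
  ring

theorem hasDerivAt_ew {R : ℝ} (hR : 1 < R) (φ : ℝ) :
    HasDerivAt (fun φ : ℝ => ew R φ) (Complex.I * cc R φ) φ := by
  have h1 := hasDerivAt_w R φ
  have h0 := w_ne hR φ
  have h2 := h1.sub (h1.inv h0)
  refine h2.congr_deriv ?_
  unfold cc
  field_simp
  ring

theorem exp_two_pi : Complex.exp (((2 * Real.pi : ℝ) : ℂ) * Complex.I) =
    Complex.exp (((0 : ℝ) : ℂ) * Complex.I) := by
  push_cast
  rw [Complex.exp_two_pi_mul_I]
  simp

theorem cc_per (R : ℝ) : cc R (2 * Real.pi) = cc R 0 := by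
  unfold cc
  rw [exp_two_pi]

theorem ew_per (R : ℝ) : ew R (2 * Real.pi) = ew R 0 := by
  unfold ew
  rw [exp_two_pi]

theorem ell_per (z : ℕ → ℂ) (m : ℕ) (R : ℝ) : ell z m R (2 * Real.pi) = ell z m R 0 := by
  rw [ell_eq, ell_eq, cc_per]

theorem hasDerivAt_ell {R : ℝ} (hR : 1 < R) (z : ℕ → ℂ) (m : ℕ) (φ : ℝ) :
    HasDerivAt (fun φ : ℝ => ell z m R φ)
      (-((z (m + 1) - z m) / 4 * (Complex.I * ew R φ))) φ :=
  ((hasDerivAt_cc hR φ).const_mul ((z (m + 1) - z m) / 4)).const_sub _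

theorem continuous_ew {R : ℝ} (hR : 1 < R) : Continuous (fun φ : ℝ => ew R φ) :=
  continuous_iff_continuousAt.2 fun φ => (hasDerivAt_ew hR φ).continuousAt

theorem continuous_cc {R : ℝ} (hR : 1 < R) : Continuous (fun φ : ℝ => cc R φ) :=
  continuous_iff_continuousAt.2 fun φ => (hasDerivAt_cc hR φ).continuousAt

/-! ## The square root on the ellipse -/

/-- the square root of the polynomial (up to sign) on the ellipse -/
def Yf (N : ℕ) (z : ℕ → ℂ) (m : ℕ) (R φ : ℝ) : ℂ :=
  -((z (m + 1) - z m) / 4 * ew R φ * rst N z m (ell z m R φ))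

theorem rst_sq (N : ℕ) (z : ℕ → ℂ) (m : ℕ) (hm : m + 1 < N) (x : ℂ) :
    (x - z m) * (x - z (m + 1)) * rst N z m x ^ 2 = (-1) ^ (N - (m + 2)) * fz N z x := by
  have h1 : fz N z x = (∏ i ∈ Finset.range m, (x - z i)) * (x - z m) * (x - z (m + 1)) *
      ∏ i ∈ Finset.Ico (m + 2) N, (x - z i) := by
    unfold fz
    rw [← Finset.prod_range_mul_prod_Ico _ (show m + 2 ≤ N by omega), Finset.prod_range_succ,
      Finset.prod_range_succ]
  have h2 : ∏ i ∈ Finset.Ico (m + 2) N, (x - z i) =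
      (-1) ^ (N - (m + 2)) * ∏ i ∈ Finset.Ico (m + 2) N, (z i - x) := by
    have h3 : ∀ i ∈ Finset.Ico (m + 2) N, x - z i = (-1) * (z i - x) := fun i _ => by ring
    rw [Finset.prod_congr rfl h3, Finset.prod_mul_distrib, Finset.prod_const, Nat.card_Ico]
  have h4 : rst N z m x ^ 2 = (∏ i ∈ Finset.range m, (x - z i)) *
      ∏ i ∈ Finset.Ico (m + 2) N, (z i - x) := by
    unfold rst
    rw [mul_pow, ← Finset.prod_pow, ← Finset.prod_pow]
    congr 1 <;> refine Finset.prod_congr rfl fun i _ => ?_ <;> rw [sq, csq_mul_self]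
  have h5 : ((-1 : ℂ) ^ (N - (m + 2))) * (-1) ^ (N - (m + 2)) = 1 := by
    rw [← mul_pow]; simp
  rw [h1, h2, h4]
  linear_combination (-((∏ i ∈ Finset.range m, (x - z i)) * (x - z m) * (x - z (m + 1)) *
    ∏ i ∈ Finset.Ico (m + 2) N, (z i - x))) * h5

theorem Yf_sq {R : ℝ} (hR : 1 < R) (N : ℕ) (z : ℕ → ℂ) (m : ℕ) (hm : m + 1 < N) (φ : ℝ) :
    Yf N z m R φ ^ 2 = (-1) ^ (N - (m + 2)) * fz N z (ell z m R φ) := by
  rw [← rst_sq N z m hm]
  have h := cc_sq hR φ
  unfold Yf
  set r := rst N z m (ell z m R φ)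
  rw [ell_eq]
  linear_combination (-((z (m + 1) - z m) ^ 2 / 16 * r ^ 2)) * h

theorem rst_ne {N : ℕ} {z : ℕ → ℂ} {m : ℕ} {R : ℝ} (hR : 1 < R) (hA : Adm N z m R) (φ : ℝ) :
    rst N z m (ell z m R φ) ≠ 0 := by
  obtain ⟨h1, h2⟩ := hA R ⟨hR.le, le_rfl⟩ φ
  unfold rst
  refine mul_ne_zero (Finset.prod_ne_zero_iff.2 fun i hi => ?_)
    (Finset.prod_ne_zero_iff.2 fun i hi => ?_)
  · exact csq_ne_zero (Complex.slitPlane_ne_zero (h1 i (Finset.mem_range.1 hi)))
  · exact csq_ne_zero (Complex.slitPlane_ne_zero (h2 i hi))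

theorem Yf_ne {N : ℕ} {z : ℕ → ℂ} {m : ℕ} {R : ℝ} (hR : 1 < R) (hA : Adm N z m R)
    (hd : z (m + 1) - z m ≠ 0) (φ : ℝ) : Yf N z m R φ ≠ 0 := by
  unfold Yf
  exact neg_ne_zero.2 (mul_ne_zero (mul_ne_zero (div_ne_zero hd (by norm_num)) (ew_ne hR φ))
    (rst_ne hR hA φ))

theorem rst_diff_phi {N : ℕ} {z : ℕ → ℂ} {m : ℕ} {R : ℝ} (hR : 1 < R) (hA : Adm N z m R)
    (φ : ℝ) : DifferentiableAt ℝ (fun φ : ℝ => rst N z m (ell z m R φ)) φ := by
  obtain ⟨h1, h2⟩ := hA R ⟨hR.le, le_rfl⟩ φ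
  have hX : DifferentiableAt ℝ (fun φ : ℝ => ell z m R φ) φ :=
    (hasDerivAt_ell hR z m φ).differentiableAt
  unfold rst
  apply DifferentiableAt.mul
  · apply DifferentiableAt.fun_finsetProd
    intro i hi
    exact DifferentiableAt.comp φ
      ((csq_differentiableAt (h1 i (Finset.mem_range.1 hi))).restrictScalars ℝ) (hX.sub_const _)
  · apply DifferentiableAt.fun_finsetProd
    intro i hi
    exact DifferentiableAt.comp φ
      ((csq_differentiableAt (h2 i hi)).restrictScalars ℝ) (hX.const_sub _)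

theorem Yf_diff_phi {N : ℕ} {z : ℕ → ℂ} {m : ℕ} {R : ℝ} (hR : 1 < R) (hA : Adm N z m R)
    (φ : ℝ) : DifferentiableAt ℝ (fun φ : ℝ => Yf N z m R φ) φ :=
  (((hasDerivAt_ew hR φ).differentiableAt.const_mul _).mul (rst_diff_phi hR hA φ)).neg

theorem rst_diff_s {N : ℕ} {z : ℕ → ℂ → ℂ} {m : ℕ} {R : ℝ} {s : ℂ} (hR : 1 < R)
    (hm : m + 1 < N) (hA : Adm N (fun i => z i s) m R) (hz : ∀ i < N, DifferentiableAt ℂ (z i) s)
    (φ : ℝ) : DifferentiableAt ℂ
      (fun s => rst N (fun i => z i s) m (ell (fun i => z i s) m R φ)) s := by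
  obtain ⟨h1, h2⟩ := hA R ⟨hR.le, le_rfl⟩ φ
  have hX : DifferentiableAt ℂ (fun s => ell (fun i => z i s) m R φ) s := by
    simp only [ell_eq]
    exact (((hz m (by omega)).add (hz (m + 1) hm)).div_const _).sub
      ((((hz (m + 1) hm).sub (hz m (by omega))).div_const _).mul_const _)
  unfold rst
  apply DifferentiableAt.mul
  · apply DifferentiableAt.fun_finsetProd
    intro i hi
    have hi' := Finset.mem_range.1 hi
    exact DifferentiableAt.comp s (csq_differentiableAt (h1 i hi')) (hX.sub (hz i (by omega)))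
  · apply DifferentiableAt.fun_finsetProd
    intro i hi
    exact DifferentiableAt.comp s (csq_differentiableAt (h2 i hi))
      ((hz i (Finset.mem_Ico.1 hi).2).sub hX)

/-! ## The derivatives of the square root -/

/-- the sign -/
def eta (N m : ℕ) : ℂ := (-1) ^ (N - (m + 2))

theorem eta_sq (N m : ℕ) : eta N m * eta N m = 1 := by
  unfold eta
  rw [← mul_pow]; simp

theorem eval_phi {R : ℝ} (hR : 1 < R) (p : Polynomial ℂ) (z : ℕ → ℂ) (m : ℕ) (φ : ℝ) :
    HasDerivAt (fun φ : ℝ => p.eval (ell z m R φ))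
      (-((z (m + 1) - z m) / 4 * (Complex.I * ew R φ)) *
        (Polynomial.derivative p).eval (ell z m R φ)) φ :=
  ((p.hasDerivAt (ell z m R φ)).scomp φ (hasDerivAt_ell hR z m φ)).congr_deriv
    (smul_eq_mul _ _)

theorem Y_phi {N : ℕ} {z : ℕ → ℂ} {m : ℕ} {R : ℝ} (hR : 1 < R) (hm : m + 1 < N)
    (hA : Adm N z m R) (hd : z (m + 1) - z m ≠ 0) (f0 : Polynomial ℂ) (s : ℂ)
    (hf : ∀ x, f0.eval x + s = fz N z x) (φ : ℝ) :
    HasDerivAt (fun φ : ℝ => Yf N z m R φ)
      (eta N m * (-((z (m + 1) - z m) / 4 * (Complex.I * ew R φ)) *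
        (Polynomial.derivative f0).eval (ell z m R φ)) / (2 * Yf N z m R φ)) φ := by
  have h1 := (Yf_diff_phi hR hA φ).hasDerivAt
  have h2 := h1.fun_pow 2
  have h3 : HasDerivAt (fun φ : ℝ => eta N m * (f0.eval (ell z m R φ) + s))
      (eta N m * (-((z (m + 1) - z m) / 4 * (Complex.I * ew R φ)) *
        (Polynomial.derivative f0).eval (ell z m R φ))) φ :=
    ((eval_phi hR f0 z m φ).add_const s).const_mul _
  have h4 : (fun φ : ℝ => Yf N z m R φ ^ 2) =
      (fun φ : ℝ => eta N m * (f0.eval (ell z m R φ) + s)) := by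
    funext φ
    rw [Yf_sq hR N z m hm, hf]
    rfl
  rw [h4] at h2
  have h5 := h2.unique h3
  refine h1.congr_deriv ?_
  have h6 := Yf_ne hR hA hd φ
  rw [← h5, eq_div_iff (mul_ne_zero two_ne_zero h6)]
  push_cast
  ring

theorem X_s {z : ℕ → ℂ → ℂ} {m : ℕ} {R : ℝ} {s : ℂ} {a b : ℂ} (ha : HasDerivAt (z m) a s)
    (hb : HasDerivAt (z (m + 1)) b s) (φ : ℝ) :
    HasDerivAt (fun s => ell (fun i => z i s) m R φ) ((a + b) / 2 - (b - a) / 4 * cc R φ) s := by
  simp only [ell_eq]
  exact ((ha.add hb).div_const 2).sub (((hb.sub ha).div_const 4).mul_const (cc R φ))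

theorem eval_s {z : ℕ → ℂ → ℂ} {m : ℕ} {R : ℝ} {s : ℂ} {a b : ℂ} (ha : HasDerivAt (z m) a s)
    (hb : HasDerivAt (z (m + 1)) b s) (p : Polynomial ℂ) (φ : ℝ) :
    HasDerivAt (fun s => p.eval (ell (fun i => z i s) m R φ))
      ((Polynomial.derivative p).eval (ell (fun i => z i s) m R φ) *
        ((a + b) / 2 - (b - a) / 4 * cc R φ)) s :=
  HasDerivAt.comp s (h₂ := fun x => Polynomial.eval x p)
    (h := fun s => ell (fun i => z i s) m R φ) (p.hasDerivAt _) (X_s ha hb φ)

theorem Y_s {N : ℕ} {z : ℕ → ℂ → ℂ} {m : ℕ} {R : ℝ} {s : ℂ} {a b : ℂ} (hR : 1 < R)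
    (hm : m + 1 < N) (hA : Adm N (fun i => z i s) m R) (hd : z (m + 1) s - z m s ≠ 0)
    (hz : ∀ i < N, DifferentiableAt ℂ (z i) s)
    (ha : HasDerivAt (z m) a s) (hb : HasDerivAt (z (m + 1)) b s) (f0 : Polynomial ℂ)
    (hf : ∀ᶠ s in 𝓝 s, ∀ x, f0.eval x + s = fz N (fun i => z i s) x) (φ : ℝ) :
    HasDerivAt (fun s => Yf N (fun i => z i s) m R φ)
      (eta N m * ((Polynomial.derivative f0).eval (ell (fun i => z i s) m R φ) *
        ((a + b) / 2 - (b - a) / 4 * cc R φ) + 1) / (2 * Yf N (fun i => z i s) m R φ)) s := by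
  have h0 : DifferentiableAt ℂ (fun s => Yf N (fun i => z i s) m R φ) s := by
    unfold Yf
    exact (((((hz (m + 1) hm).sub (hz m (by omega))).div_const _).mul_const _).mul
      (rst_diff_s hR hm hA hz φ)).neg
  have h1 := h0.hasDerivAt
  have h2 := h1.fun_pow 2
  have h3 : HasDerivAt (fun s => eta N m * (f0.eval (ell (fun i => z i s) m R φ) + s))
      (eta N m * ((Polynomial.derivative f0).eval (ell (fun i => z i s) m R φ) *
        ((a + b) / 2 - (b - a) / 4 * cc R φ) + 1)) s :=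
    ((eval_s ha hb f0 φ).add (hasDerivAt_id s)).const_mul _
  have h4 : (fun s => Yf N (fun i => z i s) m R φ ^ 2) =ᶠ[𝓝 s]
      (fun s => eta N m * (f0.eval (ell (fun i => z i s) m R φ) + s)) := by
    filter_upwards [hf] with t ht
    rw [Yf_sq hR N _ m hm, ht]
    rfl
  have h5 := (h2.congr_of_eventuallyEq h4.symm).unique h3
  refine h1.congr_deriv ?_
  have h6 : Yf N (fun i => z i s) m R φ ≠ 0 := Yf_ne hR hA hd φ
  rw [← h5, eq_div_iff (mul_ne_zero two_ne_zero h6)]
  push_cast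
  ring

/-! ## Continuity -/

theorem cont_ell {R : ℝ} (hR : 1 < R) (z : ℕ → ℂ) (m : ℕ) :
    Continuous (fun φ : ℝ => ell z m R φ) :=
  continuous_iff_continuousAt.2 fun φ => (hasDerivAt_ell hR z m φ).continuousAt

theorem cont_eval {R : ℝ} (hR : 1 < R) (p : Polynomial ℂ) (z : ℕ → ℂ) (m : ℕ) :
    Continuous (fun φ : ℝ => p.eval (ell z m R φ)) :=
  p.continuous.comp (cont_ell hR z m)

theorem cont_rst {N : ℕ} {z : ℕ → ℂ} {m : ℕ} {R : ℝ} (hR : 1 < R) (hA : Adm N z m R) :
    Continuous (fun φ : ℝ => rst N z m (ell z m R φ)) :=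
  continuous_iff_continuousAt.2 fun φ => (rst_diff_phi hR hA φ).continuousAt

theorem cont_Y {N : ℕ} {z : ℕ → ℂ} {m : ℕ} {R : ℝ} (hR : 1 < R) (hA : Adm N z m R) :
    Continuous (fun φ : ℝ => Yf N z m R φ) :=
  continuous_iff_continuousAt.2 fun φ => (Yf_diff_phi hR hA φ).continuousAt

/-- the integral with the third power of the square root -/
def KK (N : ℕ) (z : ℕ → ℂ) (m : ℕ) (R : ℝ) (p : Polynomial ℂ) : ℂ :=
  ∫ φ in (0 : ℝ)..(2 * Real.pi), (z (m + 1) - z m) / 4 * ew R φ * p.eval (ell z m R φ) /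
    Yf N z m R φ ^ 3

theorem EEp_eq (hAn : Stmt_Annul) {N : ℕ} {z : ℕ → ℂ} {m : ℕ} {R : ℝ} (hR : 1 < R)
    (hm : m + 1 < N) (hA : Adm N z m R) (p : Polynomial ℂ) :
    EEp N z m p = (1 / 2) * ∫ φ in (0 : ℝ)..(2 * Real.pi),
      p.eval (ell z m R φ) / rst N z m (ell z m R φ) := by
  unfold EEp
  have h1 : ∀ l, EE N z m l = _ := hAn N z m R hm hR.le hA
  simp only [h1]
  have h2 : ∀ l : ℕ, IntervalIntegrable
      (fun φ : ℝ => p.coeff l * (ell z m R φ ^ l / rst N z m (ell z m R φ))) volume 0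
      (2 * Real.pi) := fun l =>
    (continuous_const.mul (((cont_ell hR z m).pow l).div (cont_rst hR hA)
      (rst_ne hR hA))).intervalIntegrable _ _
  have h3 : ∀ φ : ℝ, p.eval (ell z m R φ) / rst N z m (ell z m R φ) =
      ∑ l ∈ Finset.range (p.natDegree + 1),
        p.coeff l * (ell z m R φ ^ l / rst N z m (ell z m R φ)) := by
    intro φ
    rw [Polynomial.eval_eq_sum_range, Finset.sum_div]
    exact Finset.sum_congr rfl fun l _ => by ring
  simp only [h3]
  rw [intervalIntegral.integral_finsetSum (fun l _ => h2 l), Finset.mul_sum]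
  refine Finset.sum_congr rfl fun l _ => ?_
  rw [intervalIntegral.integral_const_mul]
  ring

theorem alg (P P' f' X1 D w Y a b η : ℂ) (hY : Y ≠ 0) :
    ((P' * X1 * (-(D * w)) + P * (-((b - a) / 4 * w))) * Y - P * (-(D * w)) *
      (η * (f' * X1 + 1) / (2 * Y))) / Y ^ 2 =
    -Complex.I * (((-(D * (Complex.I * w)) * P' * X1 +
      P * (-((b - a) / 4 * (Complex.I * w)))) * Y -
      P * X1 * (η * (-(D * (Complex.I * w)) * f') / (2 * Y))) / Y ^ 2) +
      η / 2 * (D * w * P / Y ^ 3) := by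
  have h : Complex.I ^ 2 = -1 := Complex.I_sq
  field_simp
  ring_nf
  rw [h]
  ring

theorem alg2 (u u' f' q F v s D w Y η : ℂ) (hY : Y ≠ 0) (h1 : q * F = u * f' + v)
    (h2 : Y ^ 2 = η * (F + s)) :
    Complex.I * ((-(D * (Complex.I * w)) * u' * Y -
      u * (η * (-(D * (Complex.I * w)) * f') / (2 * Y))) / Y ^ 2) =
    (u' - 1 / 2 * q) * (D * w) / Y + (η / 2 * (D * w * v / Y ^ 3) +
      η / 2 * s * (D * w * q / Y ^ 3)) := by
  have h : Complex.I ^ 2 = -1 := Complex.I_sq
  field_simp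
  rw [h]
  linear_combination (D * w * q) * h2 + D * w * η * h1

/-- the derivative of the integral -/
theorem EEp_deriv (hAn : Stmt_Annul) {N : ℕ} {m : ℕ} {R : ℝ} {z : ℕ → ℂ → ℂ} {V : Set ℂ}
    (hR : 1 < R) (hm : m + 1 < N) (hV : IsOpen V) (hz : ∀ i < N, DifferentiableOn ℂ (z i) V)
    (hA : ∀ s ∈ V, Adm N (fun i => z i s) m R) (hd : ∀ s ∈ V, z (m + 1) s - z m s ≠ 0)
    (f0 : Polynomial ℂ) (hf : ∀ s ∈ V, ∀ x, f0.eval x + s = fz N (fun i => z i s) x)
    (p : Polynomial ℂ) (s : ℂ) (hs : s ∈ V) :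
    HasDerivAt (fun s => EEp N (fun i => z i s) m p)
      (eta N m / 4 * KK N (fun i => z i s) m R p) s := by
  have hzs : ∀ i < N, ∀ t ∈ V, DifferentiableAt ℂ (z i) t := fun i hi t ht =>
    (hz i hi t ht).differentiableAt (hV.mem_nhds ht)
  set a := deriv (z m) s with ha'
  set b := deriv (z (m + 1)) s with hb'
  have ha : HasDerivAt (z m) a s := (hzs m (by omega) s hs).hasDerivAt
  have hb : HasDerivAt (z (m + 1)) b s := (hzs (m + 1) hm s hs).hasDerivAt
  have hfe : ∀ᶠ t in 𝓝 s, ∀ x, f0.eval x + t = fz N (fun i => z i t) x := by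
    filter_upwards [hV.mem_nhds hs] with t ht using hf t ht
  have hpi : (0 : ℝ) ≤ 2 * Real.pi := by positivity
  -- the parameter integral
  have hk : ContinuousOn (fun x : ℂ × ℝ => p.eval (ell (fun i => z i x.1) m R x.2) /
      rst N (fun i => z i x.1) m (ell (fun i => z i x.1) m R x.2)) (V ×ˢ Icc 0 (2 * Real.pi)) := by
    have hzc : ∀ i < N, ContinuousOn (fun x : ℂ × ℝ => z i x.1) (V ×ˢ Icc 0 (2 * Real.pi)) :=
      fun i hi => (hz i hi).continuousOn.comp continuousOn_fst (fun x hx => hx.1)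
    have hX : ContinuousOn (fun x : ℂ × ℝ => ell (fun i => z i x.1) m R x.2)
        (V ×ˢ Icc 0 (2 * Real.pi)) := by
      simp only [ell_eq]
      exact (((hzc m (by omega)).add (hzc (m + 1) hm)).div_const _).sub
        ((((hzc (m + 1) hm).sub (hzc m (by omega))).div_const _).mul
          ((continuous_cc hR).comp continuous_snd).continuousOn)
    have hr : ContinuousOn (fun x : ℂ × ℝ => rst N (fun i => z i x.1) m
        (ell (fun i => z i x.1) m R x.2)) (V ×ˢ Icc 0 (2 * Real.pi)) := by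
      unfold rst
      apply ContinuousOn.mul
      · apply continuousOn_finsetProd
        intro i hi
        have hi' := Finset.mem_range.1 hi
        exact csq_continuousOn.comp (hX.sub (hzc i (by omega)))
          (fun x hx => ((hA x.1 hx.1) R ⟨hR.le, le_rfl⟩ x.2).1 i hi')
      · apply continuousOn_finsetProd
        intro i hi
        exact csq_continuousOn.comp ((hzc i (Finset.mem_Ico.1 hi).2).sub hX)
          (fun x hx => ((hA x.1 hx.1) R ⟨hR.le, le_rfl⟩ x.2).2 i hi)
    exact (p.continuous.comp_continuousOn hX).div hr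
      (fun x hx => rst_ne hR (hA x.1 hx.1) x.2)
  have hkd : ∀ φ ∈ Icc (0 : ℝ) (2 * Real.pi), DifferentiableOn ℂ
      (fun t => p.eval (ell (fun i => z i t) m R φ) /
        rst N (fun i => z i t) m (ell (fun i => z i t) m R φ)) V := by
    intro φ _ t ht
    have h1 := (eval_s (R := R) (hzs m (by omega) t ht).hasDerivAt
      (hzs (m + 1) hm t ht).hasDerivAt p φ).differentiableAt
    exact (h1.div (rst_diff_s hR hm (hA t ht) (fun i hi => hzs i hi t ht) φ)
      (rst_ne hR (hA t ht) φ)).differentiableWithinAt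
  have h0 := param 0 (2 * Real.pi) V _ hpi hV hk hkd s hs
  have h1 : HasDerivAt (fun t => EEp N (fun i => z i t) m p)
      ((1 / 2) * ∫ φ in (0 : ℝ)..(2 * Real.pi), deriv (fun t =>
        p.eval (ell (fun i => z i t) m R φ) /
          rst N (fun i => z i t) m (ell (fun i => z i t) m R φ)) s) s := by
    refine (h0.const_mul (1 / 2)).congr_of_eventuallyEq ?_
    filter_upwards [hV.mem_nhds hs] with t ht
    exact EEp_eq hAn hR hm (hA t ht) p
  refine h1.congr_deriv ?_
  -- notation at the point `s`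
  set zs : ℕ → ℂ := fun i => z i s with hzs'
  have hAs := hA s hs
  have hds : zs (m + 1) - zs m ≠ 0 := hd s hs
  set D : ℂ := (zs (m + 1) - zs m) / 4 with hD
  -- the function with vanishing integral
  let X1 : ℝ → ℂ := fun φ => (a + b) / 2 - (b - a) / 4 * cc R φ
  have hX1 : ∀ φ, HasDerivAt X1 (-((b - a) / 4 * (Complex.I * ew R φ))) φ := fun φ =>
    ((hasDerivAt_cc hR φ).const_mul ((b - a) / 4)).const_sub _
  let H : ℝ → ℂ := fun φ => p.eval (ell zs m R φ) * X1 φ / Yf N zs m R φ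
  let H' : ℝ → ℂ := fun φ =>
    ((-(D * (Complex.I * ew R φ)) * (Polynomial.derivative p).eval (ell zs m R φ) * X1 φ +
      p.eval (ell zs m R φ) * (-((b - a) / 4 * (Complex.I * ew R φ)))) * Yf N zs m R φ -
      p.eval (ell zs m R φ) * X1 φ *
        (eta N m * (-(D * (Complex.I * ew R φ)) *
          (Polynomial.derivative f0).eval (ell zs m R φ)) / (2 * Yf N zs m R φ))) /
      Yf N zs m R φ ^ 2
  have hY0 : ∀ φ, Yf N zs m R φ ≠ 0 := Yf_ne hR hAs hds
  have hH : ∀ φ, HasDerivAt H (H' φ) φ := fun φ =>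
    (((eval_phi hR p zs m φ).mul (hX1 φ)).div (Y_phi hR hm hAs hds f0 s (hf s hs) φ) (hY0 φ))
  have cX1 : Continuous X1 := continuous_iff_continuousAt.2 fun φ => (hX1 φ).continuousAt
  have cE := continuous_ew hR
  have cY := cont_Y hR hAs
  have cp := cont_eval hR p zs m
  have cp' := cont_eval hR (Polynomial.derivative p) zs m
  have cf' := cont_eval hR (Polynomial.derivative f0) zs m
  have cH' : Continuous H' := by
    refine Continuous.div ?_ (cY.pow 2) (fun φ => pow_ne_zero 2 (hY0 φ))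
    refine ((((((cE.const_mul Complex.I).const_mul D).neg.mul cp').mul cX1).add
      (cp.mul (((cE.const_mul Complex.I).const_mul ((b - a) / 4)).neg))).mul cY).sub ?_
    refine (cp.mul cX1).mul ?_
    exact (((((cE.const_mul Complex.I).const_mul D).neg.mul cf')).const_mul (eta N m)).div
      (cY.const_mul 2) (fun φ => mul_ne_zero two_ne_zero (hY0 φ))
  have hint : ∫ φ in (0 : ℝ)..(2 * Real.pi), H' φ = 0 := by
    rw [intervalIntegral.integral_eq_sub_of_hasDerivAt (fun φ _ => hH φ)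
      (cH'.intervalIntegrable _ _)]
    have e1 : H (2 * Real.pi) = H 0 := by
      simp only [H, X1, Yf]
      rw [ell_per, cc_per, ew_per]
    rw [e1, sub_self]
  -- the derivative of the integrand
  have hder : ∀ φ : ℝ, deriv (fun t => p.eval (ell (fun i => z i t) m R φ) /
      rst N (fun i => z i t) m (ell (fun i => z i t) m R φ)) s =
      -Complex.I * H' φ + eta N m / 2 *
        (D * ew R φ * p.eval (ell zs m R φ) / Yf N zs m R φ ^ 3) := by
    intro φ
    have e1 : (fun t => p.eval (ell (fun i => z i t) m R φ) /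
        rst N (fun i => z i t) m (ell (fun i => z i t) m R φ)) =ᶠ[𝓝 s]
        (fun t => p.eval (ell (fun i => z i t) m R φ) *
          (-((z (m + 1) t - z m t) / 4 * ew R φ)) / Yf N (fun i => z i t) m R φ) := by
      filter_upwards [hV.mem_nhds hs] with t ht
      have e2 := rst_ne hR (hA t ht) φ
      have e3 := hd t ht
      have e4 := ew_ne hR φ
      unfold Yf
      field_simp
    have e5 : HasDerivAt (fun t => -((z (m + 1) t - z m t) / 4 * ew R φ))
        (-((b - a) / 4 * ew R φ)) s := (((hb.sub ha).div_const 4).mul_const _).neg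
    have e6 := ((eval_s (R := R) ha hb p φ).mul e5).div
      (Y_s hR hm hAs hds (fun i hi => hzs i hi s hs) ha hb f0 hfe φ) (hY0 φ)
    rw [e1.deriv_eq]
    refine (e6.deriv).trans ?_
    simp only [H', X1]
    have e7 := hY0 φ
    have e8 : (z (m + 1) s - z m s) / 4 = D := rfl
    simp only [e8]
    exact alg _ _ _ _ _ _ _ _ _ _ e7
  have hint2 : ∫ φ in (0 : ℝ)..(2 * Real.pi), deriv (fun t =>
        p.eval (ell (fun i => z i t) m R φ) /
          rst N (fun i => z i t) m (ell (fun i => z i t) m R φ)) s =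
      eta N m / 2 * KK N zs m R p := by
    simp only [hder]
    rw [intervalIntegral.integral_add, intervalIntegral.integral_const_mul,
      intervalIntegral.integral_const_mul, hint, mul_zero, zero_add]
    · rfl
    · exact (cH'.const_mul _).intervalIntegrable _ _
    · exact (((((cE.const_mul D).mul cp).div (cY.pow 3)
        (fun φ => pow_ne_zero 3 (hY0 φ)))).const_mul _).intervalIntegrable _ _
  rw [hint2]
  ring

/-- the relation between the integrals -/
theorem EEp_rel (hAn : Stmt_Annul) {N : ℕ} {z : ℕ → ℂ} {m : ℕ} {R : ℝ} (hR : 1 < R)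
    (hm : m + 1 < N) (hA : Adm N z m R) (hd : z (m + 1) - z m ≠ 0) (f0 : Polynomial ℂ) (s : ℂ)
    (hf : ∀ x, f0.eval x + s = fz N z x) (q u v : Polynomial ℂ)
    (hq : q * f0 = u * Polynomial.derivative f0 + v) :
    EEp N z m (Polynomial.derivative u - Polynomial.C (1 / 2) * q) =
      eta N m / 4 * KK N z m R v + s * (eta N m / 4 * KK N z m R q) := by
  have hY0 : ∀ φ, Yf N z m R φ ≠ 0 := Yf_ne hR hA hd
  have cE := continuous_ew hR
  have cY := cont_Y hR hA
  have cu := cont_eval hR u z m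
  have cu' := cont_eval hR (Polynomial.derivative u) z m
  have cq := cont_eval hR q z m
  have cv := cont_eval hR v z m
  have cf' := cont_eval hR (Polynomial.derivative f0) z m
  set D : ℂ := (z (m + 1) - z m) / 4 with hD
  let U : ℝ → ℂ := fun φ => u.eval (ell z m R φ) / Yf N z m R φ
  let U' : ℝ → ℂ := fun φ =>
    (-(D * (Complex.I * ew R φ)) * (Polynomial.derivative u).eval (ell z m R φ) * Yf N z m R φ -
      u.eval (ell z m R φ) *
        (eta N m * (-(D * (Complex.I * ew R φ)) *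
          (Polynomial.derivative f0).eval (ell z m R φ)) / (2 * Yf N z m R φ))) /
      Yf N z m R φ ^ 2
  have hU : ∀ φ, HasDerivAt U (U' φ) φ := fun φ =>
    (eval_phi hR u z m φ).div (Y_phi hR hm hA hd f0 s hf φ) (hY0 φ)
  have cU' : Continuous U' := by
    refine Continuous.div ?_ (cY.pow 2) (fun φ => pow_ne_zero 2 (hY0 φ))
    refine ((((cE.const_mul Complex.I).const_mul D).neg.mul cu').mul cY).sub (cu.mul ?_)
    exact (((((cE.const_mul Complex.I).const_mul D).neg.mul cf')).const_mul (eta N m)).div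
      (cY.const_mul 2) (fun φ => mul_ne_zero two_ne_zero (hY0 φ))
  have hint : ∫ φ in (0 : ℝ)..(2 * Real.pi), U' φ = 0 := by
    rw [intervalIntegral.integral_eq_sub_of_hasDerivAt (fun φ _ => hU φ)
      (cU'.intervalIntegrable _ _)]
    have e1 : U (2 * Real.pi) = U 0 := by
      simp only [U, Yf]
      rw [ell_per, ew_per]
    rw [e1, sub_self]
  set P : Polynomial ℂ := Polynomial.derivative u - Polynomial.C (1 / 2) * q with hP
  have hPe : ∀ x, P.eval x = (Polynomial.derivative u).eval x - 1 / 2 * q.eval x := by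
    intro x
    simp [hP]
  have hpt : ∀ φ, Complex.I * U' φ = -(P.eval (ell z m R φ) / rst N z m (ell z m R φ)) +
      (eta N m / 2 * (D * ew R φ * v.eval (ell z m R φ) / Yf N z m R φ ^ 3) +
      eta N m / 2 * s * (D * ew R φ * q.eval (ell z m R φ) / Yf N z m R φ ^ 3)) := by
    intro φ
    have h1 : q.eval (ell z m R φ) * f0.eval (ell z m R φ) =
        u.eval (ell z m R φ) * (Polynomial.derivative f0).eval (ell z m R φ) +
          v.eval (ell z m R φ) := by
      rw [← Polynomial.eval_mul, hq, Polynomial.eval_add, Polynomial.eval_mul]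
    have h2 : Yf N z m R φ ^ 2 = eta N m * (f0.eval (ell z m R φ) + s) := by
      rw [Yf_sq hR N z m hm, hf]; rfl
    have h3 := alg2 _ ((Polynomial.derivative u).eval (ell z m R φ)) _ _ _ _ s D (ew R φ) _
      (eta N m) (hY0 φ) h1 h2
    have h4 : -(P.eval (ell z m R φ) / rst N z m (ell z m R φ)) =
        ((Polynomial.derivative u).eval (ell z m R φ) - 1 / 2 * q.eval (ell z m R φ)) *
          (D * ew R φ) / Yf N z m R φ := by
      rw [hPe]
      have e2 := rst_ne hR hA φ
      have e3 : D ≠ 0 := div_ne_zero hd (by norm_num)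
      have e4 := ew_ne hR φ
      have e5 : Yf N z m R φ = -(D * ew R φ * rst N z m (ell z m R φ)) := rfl
      rw [e5]
      field_simp
    rw [h4]
    exact h3
  have c1 : Continuous (fun φ : ℝ => P.eval (ell z m R φ) / rst N z m (ell z m R φ)) :=
    (cont_eval hR P z m).div (cont_rst hR hA) (rst_ne hR hA)
  have c2 : ∀ p : Polynomial ℂ, Continuous
      (fun φ : ℝ => D * ew R φ * p.eval (ell z m R φ) / Yf N z m R φ ^ 3) := fun p =>
    (((cE.const_mul D).mul (cont_eval hR p z m)).div (cY.pow 3) (fun φ => pow_ne_zero 3 (hY0 φ)))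
  have h5 : ∫ φ in (0 : ℝ)..(2 * Real.pi), Complex.I * U' φ = 0 := by
    rw [intervalIntegral.integral_const_mul, hint, mul_zero]
  have h7 : ∫ φ in (0 : ℝ)..(2 * Real.pi), Complex.I * U' φ =
      -(∫ φ in (0 : ℝ)..(2 * Real.pi), P.eval (ell z m R φ) / rst N z m (ell z m R φ)) +
      (eta N m / 2 * (∫ φ in (0 : ℝ)..(2 * Real.pi),
          D * ew R φ * v.eval (ell z m R φ) / Yf N z m R φ ^ 3) +
        eta N m / 2 * s * (∫ φ in (0 : ℝ)..(2 * Real.pi),
          D * ew R φ * q.eval (ell z m R φ) / Yf N z m R φ ^ 3)) := by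
    simp only [hpt]
    rw [intervalIntegral.integral_add, intervalIntegral.integral_add,
      intervalIntegral.integral_neg, intervalIntegral.integral_const_mul,
      intervalIntegral.integral_const_mul]
    · exact ((c2 v).const_mul _).intervalIntegrable _ _
    · exact ((c2 q).const_mul _).intervalIntegrable _ _
    · exact c1.neg.intervalIntegrable _ _
    · exact (((c2 v).const_mul _).add ((c2 q).const_mul _)).intervalIntegrable _ _
  rw [h7] at h5
  have h6 : ∀ p : Polynomial ℂ, (∫ φ in (0 : ℝ)..(2 * Real.pi),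
      D * ew R φ * p.eval (ell z m R φ) / Yf N z m R φ ^ 3) = KK N z m R p := fun p => rfl
  rw [h6, h6] at h5
  rw [EEp_eq hAn hR hm hA]
  linear_combination (-(1 / 2 : ℂ)) * h5

end

theorem thm (hAd : Stmt_Adm) (hAn : Stmt_Annul) (_hE : Stmt_EHol) : Stmt_OdeE := by
  intro N κ f0 V z hV hz hord m hm
  -- local data
  have key : ∀ s ∈ V, ∃ R : ℝ, 1 < R ∧ Adm N (fun i => z i s) m R ∧
      z (m + 1) s - z m s ≠ 0 ∧ ∀ p : Polynomial ℂ,
      HasDerivAt (fun s => EEp N (fun i => z i s) m p)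
        (eta N m / 4 * KK N (fun i => z i s) m R p) s := by
    intro s hs
    obtain ⟨R, hR, δ, hδ, hAdm⟩ := hAd N κ (fun i => z i s) (hord s hs).1 m hm
    have h1 : ∀ i < N, ∀ᶠ t in 𝓝 s, ‖z i t - z i s‖ < δ := by
      intro i hi
      have hc : ContinuousAt (z i) s := ((hz i hi).continuousOn s hs).continuousAt
        (hV.mem_nhds hs)
      have := Metric.tendsto_nhds.1 hc δ hδ
      simpa only [dist_eq_norm] using this
    have h2 : ∀ᶠ t in 𝓝 s, ∀ i ∈ Finset.range N, ‖z i t - z i s‖ < δ := by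
      rw [Finset.eventually_all]
      intro i hi
      exact h1 i (Finset.mem_range.1 hi)
    obtain ⟨ε, hε, hball⟩ := Metric.eventually_nhds_iff_ball.1 (h2.and (hV.mem_nhds hs))
    have hW : ball s ε ⊆ V := fun t ht => (hball t ht).2
    have hne : ∀ t ∈ V, z (m + 1) t - z m t ≠ 0 := by
      intro t ht h0
      have h3 := (hord t ht).1.2 m (m + 1) (by omega) hm
      simp only [h0, mul_zero, Complex.zero_re, lt_irrefl] at h3
    have hA : ∀ t ∈ ball s ε, Adm N (fun i => z i t) m R := fun t ht =>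
      hAdm (fun i => z i t) (fun i hi => (hball t ht).1 i (Finset.mem_range.2 hi))
    refine ⟨R, hR, hA s (mem_ball_self hε), hne s hs, fun p => ?_⟩
    exact EEp_deriv hAn hR hm isOpen_ball (fun i hi => (hz i hi).mono hW) hA
      (fun t ht => hne t (hW ht)) f0 (fun t ht => (hord t (hW ht)).2) p s (mem_ball_self hε)
  refine ⟨fun p s hs => ?_, fun q u v hq s hs => ?_⟩
  · obtain ⟨R, _, _, _, h⟩ := key s hs
    exact (h p).differentiableAt.differentiableWithinAt
  · obtain ⟨R, hR, hA, hd, h⟩ := key s hs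
    rw [(h v).deriv, (h q).deriv]
    exact (EEp_rel hAn hR hm hA hd f0 s (hord s hs).2 q u v hq).symm

end Pool.Agent.GPH.ODEE
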