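import Pool.Agent.GPH.IIIDefs

/-!
# GPH, part III, ORDEX: distinct roots can be ordered
-/

open scoped BigOperators

namespace Pool.Agent.GPH.ORDEX

open Pool.Agent.GPH

/-- Extension of a permutation of `Fin N` to `ℕ`. -/
theorem exists_perm (N : ℕ) (s : Equiv.Perm (Fin N)) :
    ∃ σ : Equiv.Perm ℕ, ∀ i (h : i < N), σ i = (s ⟨i, h⟩ : ℕ) := by
  refine ⟨s.extendDomain (p := fun i => i < N) Fin.equivSubtype, fun i h => ?_⟩
  have := Equiv.Perm.extendDomain_apply_subtype (e := s) (f := Fin.equivSubtype) (b := i) h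
  rw [this]
  rfl

theorem thm : Stmt_OrdEx := by
  intro N z hz
  obtain ⟨ε, hε⟩ : ∃ ε : ℝ, ∀ i < N, ∀ j < N, i ≠ j →
      (z j - z i).re + ε * (z j - z i).im ≠ 0 := by
    obtain ⟨ε, hε⟩ := Infinite.exists_notMem_finset
      ((Finset.range N ×ˢ Finset.range N).image
        (fun p : ℕ × ℕ => -(z p.2 - z p.1).re / (z p.2 - z p.1).im))
    refine ⟨ε, fun i hi j hj hij h => hε ?_⟩
    have him : (z j - z i).im ≠ 0 := by
      intro h0
      rw [h0, mul_zero, add_zero] at h
      have : z j - z i = 0 := Complex.ext h h0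
      exact hij (hz i hi j hj (sub_eq_zero.1 this).symm)
    refine Finset.mem_image.2 ⟨(i, j), ?_, ?_⟩
    · exact Finset.mem_product.2 ⟨Finset.mem_range.2 hi, Finset.mem_range.2 hj⟩
    · field_simp
      linarith
  set κ : ℂ := ⟨1, -ε⟩ with hκ
  have hre : ∀ w : ℂ, (κ * w).re = w.re + ε * w.im := by
    intro w
    rw [Complex.mul_re]
    simp [hκ]
  let f : Fin N → ℝ := fun i => (κ * z i).re
  have hinj : Function.Injective f := by
    intro i j hij
    by_contra hne
    have hne' : (i : ℕ) ≠ j := fun h => hne (Fin.ext h)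
    refine hε i i.2 j j.2 hne' ?_
    rw [← hre, mul_sub, Complex.sub_re]
    exact sub_eq_zero.2 hij.symm
  have hmono : Monotone (f ∘ Tuple.sort f) := Tuple.monotone_sort f
  have hstrict : StrictMono (f ∘ Tuple.sort f) :=
    hmono.strictMono_of_injective (hinj.comp (Tuple.sort f).injective)
  obtain ⟨σ, hσ⟩ := exists_perm N (Tuple.sort f)
  refine ⟨κ, σ, fun i hi => ?_, ?_, fun i j hij hj => ?_⟩
  · rw [hσ i hi]
    exact (Tuple.sort f ⟨i, hi⟩).2
  · simp [hκ]
  · have hi : i < N := hij.trans hj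
    have h := hstrict (a := ⟨i, hi⟩) (b := ⟨j, hj⟩) hij
    simp only [Function.comp, f] at h
    rw [← hσ i hi, ← hσ j hj] at h
    show 0 < (κ * (z (σ j) - z (σ i))).re
    rw [mul_sub, Complex.sub_re]
    linarith

end Pool.Agent.GPH.ORDEX
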