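import Pool.Agent.GPH.IIIDefs

/-!
# GPH part III, ROOTS: the roots of a polynomial with simple roots are locally holomorphic
functions of the coefficients
-/

open scoped BigOperators Topology
open Metric Set

namespace Pool.Agent.GPH.ROOTS

/-- The values of `∏ i, (x - v i)` at the points `w j`. -/
noncomputable def ev {N : ℕ} (w : Fin N → ℂ) (v : Fin N → ℂ) : Fin N → ℂ :=
  fun j => ∏ i : Fin N, (w j - v i)

lemma ev_contDiff {N : ℕ} (w : Fin N → ℂ) : ContDiff ℂ 1 (ev w) := by
  unfold ev
  rw [contDiff_pi]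
  intro j
  refine contDiff_prod ?_
  intro i _
  exact contDiff_const.sub (contDiff_apply ℂ ℂ i)

/-- The diagonal map. -/
noncomputable def diag {N : ℕ} (c : Fin N → ℂ) (hc : ∀ j, c j ≠ 0) :
    (Fin N → ℂ) ≃L[ℂ] (Fin N → ℂ) :=
  (LinearEquiv.piCongrRight fun j => LinearEquiv.smulOfNeZero ℂ ℂ (c j) (hc j)).toContinuousLinearEquiv

lemma diag_apply {N : ℕ} (c : Fin N → ℂ) (hc : ∀ j, c j ≠ 0) (v : Fin N → ℂ) (j : Fin N) :
    diag c hc v j = c j * v j := rfl

lemma ev_deriv {N : ℕ} (w : Fin N → ℂ)
    (hc : ∀ j, -∏ i ∈ Finset.univ.erase j, (w j - w i) ≠ 0) :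
    HasFDerivAt (ev w) (diag (fun j => -∏ i ∈ Finset.univ.erase j, (w j - w i)) hc :
      (Fin N → ℂ) →L[ℂ] (Fin N → ℂ)) w := by
  rw [hasFDerivAt_pi']
  intro j
  have h : ∀ i ∈ (Finset.univ : Finset (Fin N)), HasFDerivAt (fun v : Fin N → ℂ => w j - v i)
      (-(ContinuousLinearMap.proj i : (Fin N → ℂ) →L[ℂ] ℂ)) w := by
    intro i _
    exact (hasFDerivAt_apply i w).const_sub (w j)
  have h1 := HasFDerivAt.finsetProd (u := Finset.univ) (g := fun i (v : Fin N → ℂ) => w j - v i) h
  refine h1.congr_fderiv ?_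
  ext v
  simp only [FunLike.coe_sum, Finset.sum_apply, FunLike.coe_smul,
    Pi.smul_apply, neg_apply, ContinuousLinearMap.proj_apply, smul_eq_mul,
    ContinuousLinearMap.coe_comp, Function.comp_apply]
  rw [Finset.sum_eq_single j]
  · show _ = diag _ hc v j
    rw [diag_apply]
    ring
  · intro i _ hij
    rw [Finset.prod_eq_zero (i := j)]
    · simp
    · simp [hij.symm]
    · simp
  · intro h
    exact absurd (Finset.mem_univ j) h

lemma fz_eq {N : ℕ} (z : ℕ → ℂ) (x : ℂ) : fz N z x = ∏ i : Fin N, (x - z i) := by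
  unfold fz
  rw [Finset.prod_range]

/-- Two monic polynomials of degree `N` which agree at `N` points are equal. -/
lemma monic_eq {N : ℕ} (w : Fin N → ℂ) (hw : Function.Injective w) (a : Fin N → ℂ)
    (v : Fin N → ℂ) (h : ∀ j, fa N a (w j) = ∏ i : Fin N, (w j - v i)) (x : ℂ) :
    fa N a x = ∏ i : Fin N, (x - v i) := by
  classical
  rcases Nat.eq_zero_or_pos N with hN | hN
  · subst hN
    simp [fa]
  set p : Polynomial ℂ := ∑ k : Fin N, Polynomial.C (a k) * Polynomial.X ^ (k : ℕ) with hp
  set q : Polynomial ℂ := Polynomial.X ^ N - ∏ i : Fin N, (Polynomial.X - Polynomial.C (v i))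
    with hq
  have hpd : p.degree < N := by
    rw [hp]
    exact Polynomial.degree_sum_fin_lt a
  have hqd : q.degree < N := by
    have hm : (∏ i : Fin N, (Polynomial.X - Polynomial.C (v i))).Monic :=
      Polynomial.monic_prod_of_monic _ _ (fun i _ => Polynomial.monic_X_sub_C _)
    have hd : (∏ i : Fin N, (Polynomial.X - Polynomial.C (v i))).natDegree = N := by
      rw [Polynomial.natDegree_prod_of_monic _ _ (fun i _ => Polynomial.monic_X_sub_C _)]
      simp
    have hd' : (∏ i : Fin N, (Polynomial.X - Polynomial.C (v i))).degree = (N : WithBot ℕ) := by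
      rw [Polynomial.degree_eq_natDegree hm.ne_zero, hd]
    have h1 : (Polynomial.X ^ N : Polynomial ℂ).degree = (N : WithBot ℕ) :=
      Polynomial.degree_X_pow N
    have h2 := Polynomial.degree_sub_lt_left (p := (Polynomial.X ^ N : Polynomial ℂ))
      (q := ∏ i : Fin N, (Polynomial.X - Polynomial.C (v i))) (by rw [h1, hd'])
      (pow_ne_zero _ Polynomial.X_ne_zero) (by
        rw [hm.leadingCoeff, (Polynomial.monic_X_pow N).leadingCoeff])
    rw [h1] at h2
    exact h2
  have hs : p + q = 0 := by
    refine Polynomial.eq_zero_of_degree_lt_of_eval_finset_eq_zero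
      (Finset.univ.image w) ?_ ?_
    · rw [Finset.card_image_of_injective _ hw, Finset.card_univ, Fintype.card_fin]
      exact lt_of_le_of_lt (Polynomial.degree_add_le _ _) (max_lt hpd hqd)
    · intro y hy
      rw [Finset.mem_image] at hy
      obtain ⟨j, -, rfl⟩ := hy
      have h1 := h j
      unfold fa at h1
      rw [Polynomial.eval_add, hp, hq, Polynomial.eval_sub, Polynomial.eval_prod,
        Polynomial.eval_finsetSum]
      simp only [Polynomial.eval_mul, Polynomial.eval_C, Polynomial.eval_pow, Polynomial.eval_X,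
        Polynomial.eval_sub]
      rw [← h1]
      ring
  have h2 := congrArg (Polynomial.eval x) hs
  rw [Polynomial.eval_add, hp, hq, Polynomial.eval_sub, Polynomial.eval_prod,
    Polynomial.eval_finsetSum] at h2
  simp only [Polynomial.eval_mul, Polynomial.eval_C, Polynomial.eval_pow, Polynomial.eval_X,
    Polynomial.eval_sub, Polynomial.eval_zero] at h2
  unfold fa
  linear_combination h2

theorem thm : Stmt_Roots := by
  classical
  intro N a0 z0 hz hf
  set w : Fin N → ℂ := fun i => z0 i with hw
  have hwi : Function.Injective w := by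
    intro i j hij
    exact Fin.ext (hz i i.2 j j.2 hij)
  have hc : ∀ j, -∏ i ∈ Finset.univ.erase j, (w j - w i) ≠ 0 := by
    intro j
    rw [neg_ne_zero, Finset.prod_ne_zero_iff]
    intro i hi
    rw [Finset.mem_erase] at hi
    rw [sub_ne_zero]
    intro h
    exact hi.1 (hwi h).symm
  have hcd : ContDiffAt ℂ 1 (ev w) w := (ev_contDiff w).contDiffAt
  have hd := ev_deriv w hc
  set g := hcd.localInverse hd one_ne_zero with hg
  have hg0 : g (ev w w) = w := hcd.localInverse_apply_image hd one_ne_zero
  have hgc : ContDiffAt ℂ 1 g (ev w w) := hcd.to_localInverse hd one_ne_zero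
  have hev : ∀ᶠ y in 𝓝 (ev w w), DifferentiableAt ℂ g y := by
    have h1 := hgc.eventually (by simp)
    filter_upwards [h1] with y hy
    exact hy.differentiableAt one_ne_zero
  have hri : ∀ᶠ y in 𝓝 (ev w w), ev w (g y) = y :=
    (hcd.hasStrictFDerivAt' hd one_ne_zero).eventually_right_inverse
  set A : (Fin N → ℂ) → (Fin N → ℂ) := fun a j => fa N a (w j) with hA
  have hAd : Differentiable ℂ A := by
    rw [differentiable_pi]
    intro j
    simp only [hA, fa]
    refine (differentiable_const _).add ?_
    refine Differentiable.fun_sum ?_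
    intro k _
    exact (differentiable_apply k).mul_const _
  have hA0 : A a0 = ev w w := by
    funext j
    simp only [hA, ev]
    rw [hf, fz_eq]
  have hall : ∀ᶠ a in 𝓝 a0, DifferentiableAt ℂ g (A a) ∧ ev w (g (A a)) = A a := by
    have h1 : Filter.Tendsto A (𝓝 a0) (𝓝 (ev w w)) := by
      rw [← hA0]
      exact hAd.continuous.tendsto a0
    exact h1.eventually (hev.and hri)
  obtain ⟨W, hW1, hW2, hW3⟩ := _root_.eventually_nhds_iff.1 hall
  refine ⟨W, fun i a => if h : i < N then g (A a) ⟨i, h⟩ else z0 i, hW2, hW3, ?_, ?_, ?_⟩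
  · intro i
    simp only
    split_ifs with h
    · rw [hA0, hg0]
    · rfl
  · intro i
    by_cases h : i < N
    · simp only [h, dif_pos]
      intro a ha
      have h1 : DifferentiableAt ℂ (fun a => g (A a)) a :=
        DifferentiableAt.comp a (hW1 a ha).1 (hAd a)
      exact (differentiableAt_pi.1 h1 ⟨i, h⟩).differentiableWithinAt
    · simp only [h, dif_neg, not_false_eq_true]
      exact differentiableOn_const _
  · intro a ha x
    rw [fz_eq, monic_eq w hwi a (g (A a)) ?_ x]
    · refine Finset.prod_congr rfl ?_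
      intro i _
      simp
    · intro j
      have h1 := congrFun (hW1 a ha).2 j
      simp only [ev, hA] at h1
      rw [← h1]

end Pool.Agent.GPH.ROOTS
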