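import Pool.Agent.GPH.IIIDefs

/-!
# GPH, part III, module SEG: the integral between two neighbouring roots
-/

open scoped BigOperators Topology
open Metric Set

namespace Pool.Agent.GPH.SEG

open Pool.Agent.HGP (csq)
open Pool.Agent.GPH

lemma slit_of {κ w : ℂ} (hκ : 0 < κ.re) (hw : 0 < (κ * w).re) : w ∈ Complex.slitPlane := by
  rw [Complex.mem_slitPlane_iff]
  by_contra h
  push Not at h
  obtain ⟨h1, h2⟩ := h
  rw [Complex.mul_re, h2] at hw
  nlinarith

/-- The parameter on the segment. -/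
noncomputable def sp (φ : ℝ) : ℝ := (1 - Real.cos φ) / 2

lemma sp_cont : Continuous sp := by unfold sp; fun_prop

lemma sp_nonneg (φ : ℝ) : 0 ≤ sp φ := by
  unfold sp; linarith [Real.cos_le_one φ]

lemma sp_le_one (φ : ℝ) : sp φ ≤ 1 := by
  unfold sp; linarith [Real.neg_one_le_cos φ]

lemma sp_mem_Ioo {φ : ℝ} (h : φ ∈ Ioo (0 : ℝ) Real.pi) : sp φ ∈ Ioo (0 : ℝ) 1 := by
  have h1 : Real.sin φ ^ 2 + Real.cos φ ^ 2 = 1 := Real.sin_sq_add_cos_sq φ
  have h2 : 0 < Real.sin φ := Real.sin_pos_of_mem_Ioo h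
  constructor
  · unfold sp; nlinarith [Real.cos_le_one φ, Real.neg_one_le_cos φ]
  · unfold sp; nlinarith [Real.cos_le_one φ, Real.neg_one_le_cos φ]

lemma mid_eq (z : ℕ → ℂ) (m : ℕ) (φ : ℝ) :
    mid z m φ = z m + (sp φ : ℝ) * (z (m + 1) - z m) := by
  unfold mid sp; push_cast; ring

lemma mid_cont (z : ℕ → ℂ) (m : ℕ) : Continuous (mid z m) := by
  unfold mid
  fun_prop

lemma mid_deriv (z : ℕ → ℂ) (m : ℕ) (φ : ℝ) :
    HasDerivAt (mid z m) ((z (m + 1) - z m) / 2 * (Real.sin φ : ℝ)) φ := by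
  unfold mid
  have h1 : HasDerivAt (fun φ : ℝ => ((Real.cos φ : ℝ) : ℂ)) ((-Real.sin φ : ℝ) : ℂ) φ :=
    (Real.hasDerivAt_cos φ).ofReal_comp
  have h2 := (h1.const_mul ((z (m + 1) - z m) / 2)).const_sub ((z m + z (m + 1)) / 2)
  refine h2.congr_deriv ?_
  push_cast
  ring

lemma arg_low {N : ℕ} {κ : ℂ} {z : ℕ → ℂ} (h : Ord N κ z) {m : ℕ} (hm : m + 1 < N) (φ : ℝ)
    {i : ℕ} (hi : i < m) : mid z m φ - z i ∈ Complex.slitPlane := by
  apply slit_of h.1
  have h1 := h.2 i m hi (by omega)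
  have h2 := h.2 i (m + 1) (by omega) hm
  have e : κ * (mid z m φ - z i) = ((1 - sp φ : ℝ) : ℂ) * (κ * (z m - z i)) +
      ((sp φ : ℝ) : ℂ) * (κ * (z (m + 1) - z i)) := by
    rw [mid_eq]; push_cast; ring
  rw [e, Complex.add_re, Complex.re_ofReal_mul, Complex.re_ofReal_mul]
  have a := sp_nonneg φ
  have b := sp_le_one φ
  by_cases c : sp φ = 0
  · rw [c]; linarith
  · have : 0 < sp φ := lt_of_le_of_ne a (Ne.symm c)
    have := mul_pos this h2
    have := mul_nonneg (sub_nonneg.2 b) h1.le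
    linarith

lemma arg_high {N : ℕ} {κ : ℂ} {z : ℕ → ℂ} (h : Ord N κ z) {m : ℕ} (φ : ℝ)
    {i : ℕ} (hi : i ∈ Finset.Ico (m + 2) N) : z i - mid z m φ ∈ Complex.slitPlane := by
  apply slit_of h.1
  rw [Finset.mem_Ico] at hi
  have h1 := h.2 m i (by omega) hi.2
  have h2 := h.2 (m + 1) i (by omega) hi.2
  have e : κ * (z i - mid z m φ) = ((1 - sp φ : ℝ) : ℂ) * (κ * (z i - z m)) +
      ((sp φ : ℝ) : ℂ) * (κ * (z i - z (m + 1))) := by
    rw [mid_eq]; push_cast; ring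
  rw [e, Complex.add_re, Complex.re_ofReal_mul, Complex.re_ofReal_mul]
  have a := sp_nonneg φ
  have b := sp_le_one φ
  by_cases c : sp φ = 0
  · rw [c]; linarith
  · have : 0 < sp φ := lt_of_le_of_ne a (Ne.symm c)
    have := mul_pos this h2
    have := mul_nonneg (sub_nonneg.2 b) h1.le
    linarith

lemma rst_cont {N : ℕ} {κ : ℂ} {z : ℕ → ℂ} (h : Ord N κ z) {m : ℕ} (hm : m + 1 < N) :
    Continuous (fun φ => rst N z m (mid z m φ)) := by
  unfold rst
  apply Continuous.mul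
  · apply continuous_finset_prod
    intro i hi
    rw [continuous_iff_continuousAt]
    intro φ
    have h1 : ContinuousAt csq (mid z m φ - z i) :=
      Pool.Agent.HGP.csq_continuousAt (arg_low h hm φ (Finset.mem_range.1 hi))
    exact ContinuousAt.comp (f := fun φ => mid z m φ - z i) h1
      (((mid_cont z m).sub continuous_const).continuousAt)
  · apply continuous_finset_prod
    intro i hi
    rw [continuous_iff_continuousAt]
    intro φ
    have h1 : ContinuousAt csq (z i - mid z m φ) :=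
      Pool.Agent.HGP.csq_continuousAt (arg_high h φ hi)
    exact ContinuousAt.comp (f := fun φ => z i - mid z m φ) h1
      ((continuous_const.sub (mid_cont z m)).continuousAt)

lemma rst_ne {N : ℕ} {κ : ℂ} {z : ℕ → ℂ} (h : Ord N κ z) {m : ℕ} (hm : m + 1 < N) (φ : ℝ) :
    rst N z m (mid z m φ) ≠ 0 := by
  unfold rst
  apply mul_ne_zero
  · rw [Finset.prod_ne_zero_iff]
    intro i hi
    exact Pool.Agent.HGP.csq_ne_zero
      (Complex.slitPlane_ne_zero (arg_low h hm φ (Finset.mem_range.1 hi)))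
  · rw [Finset.prod_ne_zero_iff]
    intro i hi
    exact Pool.Agent.HGP.csq_ne_zero (Complex.slitPlane_ne_zero (arg_high h φ hi))

lemma rst_sq (N : ℕ) (z : ℕ → ℂ) (m : ℕ) (x : ℂ) :
    rst N z m x ^ 2 = (∏ i ∈ Finset.range m, (x - z i)) *
      ((-1) ^ (N - (m + 2)) * ∏ i ∈ Finset.Ico (m + 2) N, (x - z i)) := by
  unfold rst
  rw [mul_pow, ← Finset.prod_pow, ← Finset.prod_pow]
  congr 1
  · apply Finset.prod_congr rfl
    intro i _
    exact Pool.Agent.HGP.csq_sq _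
  · have : ∀ i ∈ Finset.Ico (m + 2) N, csq (z i - x) ^ 2 = (-1) * (x - z i) := by
      intro i _
      rw [Pool.Agent.HGP.csq_sq]; ring
    rw [Finset.prod_congr rfl this, Finset.prod_mul_distrib, Finset.prod_const, Nat.card_Ico]

lemma fz_split (N : ℕ) (z : ℕ → ℂ) (m : ℕ) (hm : m + 1 < N) (x : ℂ) :
    fz N z x = (∏ i ∈ Finset.range m, (x - z i)) * (x - z m) * (x - z (m + 1)) *
      ∏ i ∈ Finset.Ico (m + 2) N, (x - z i) := by
  unfold fz
  rw [← Finset.prod_range_mul_prod_Ico (fun i => x - z i) (show m + 2 ≤ N by omega),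
    Finset.prod_range_succ, Finset.prod_range_succ]

lemma key_sq (N : ℕ) (z : ℕ → ℂ) (m : ℕ) (hm : m + 1 < N) (φ : ℝ) :
    ((z (m + 1) - z m) / 2 * (Real.sin φ : ℝ) * rst N z m (mid z m φ)) ^ 2 =
      (-1) ^ (N - 1 - m) * fz N z (mid z m φ) := by
  rw [mul_pow, rst_sq, fz_split N z m hm]
  have e1 : mid z m φ - z m = (sp φ : ℝ) * (z (m + 1) - z m) := by rw [mid_eq]; ring
  have e2 : mid z m φ - z (m + 1) = -((1 - sp φ : ℝ) * (z (m + 1) - z m)) := by
    rw [mid_eq]; push_cast; ring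
  rw [e1, e2]
  have e3 : N - 1 - m = (N - (m + 2)) + 1 := by omega
  rw [e3, pow_succ (-1 : ℂ)]
  have e4 : ((Real.sin φ : ℝ) : ℂ) ^ 2 = 4 * ((sp φ : ℝ) : ℂ) * ((1 - sp φ : ℝ) : ℂ) := by
    have : Real.sin φ ^ 2 = 4 * sp φ * (1 - sp φ) := by
      unfold sp
      have h1 : Real.sin φ ^ 2 + Real.cos φ ^ 2 = 1 := Real.sin_sq_add_cos_sq φ
      nlinarith
    exact_mod_cast this
  have e5 : ((z (m + 1) - z m) / 2 * (Real.sin φ : ℝ)) ^ 2 =
      (z (m + 1) - z m) ^ 2 * ((sp φ : ℝ) : ℂ) * ((1 - sp φ : ℝ) : ℂ) := by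
    rw [mul_pow, e4]; ring
  rw [e5]
  ring

theorem thm (hY : Stmt_YProp) (hS : Stmt_SegC) : Stmt_Seg := by
  intro N κ c z hO hC m hm
  obtain ⟨hsq, hOp, -, -, hdY, hneY, hdF⟩ := hY N c z hC
  obtain ⟨hseg, hcont⟩ := hS N c z hC m hm
  have hmem : ∀ φ ∈ Ioo (0 : ℝ) Real.pi, mid z m φ ∈ Om N c z := by
    intro φ hφ
    rw [mid_eq]
    exact hseg _ (sp_mem_Ioo hφ)
  -- the ratio
  set ρ : ℝ → ℂ := fun φ => ((z (m + 1) - z m) / 2 * (Real.sin φ : ℝ) *
    rst N z m (mid z m φ)) / YY N c z (mid z m φ) with hρ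
  have hρc : ContinuousOn ρ (Ioo 0 Real.pi) := by
    apply ContinuousOn.div
    · apply Continuous.continuousOn
      exact (continuous_const.mul (Complex.continuous_ofReal.comp Real.continuous_sin)).mul
        (rst_cont hO hm)
    · exact hdY.continuousOn.comp (mid_cont z m).continuousOn hmem
    · intro φ hφ
      exact hneY _ (hmem φ hφ)
  have hρs : ∀ φ ∈ Ioo (0 : ℝ) Real.pi, ρ φ ^ 2 = (-1) ^ (N - 1 - m) := by
    intro φ hφ
    have h1 := hneY _ (hmem φ hφ)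
    simp only [hρ]
    rw [div_pow, key_sq N z m hm φ, hsq]
    rw [mul_div_assoc, div_self, mul_one]
    rw [← hsq]
    exact pow_ne_zero _ h1
  have hpi : Real.pi / 2 ∈ Ioo (0 : ℝ) Real.pi := by
    constructor <;> linarith [Real.pi_pos]
  have hs0 : ρ (Real.pi / 2) ^ 2 = (-1) ^ (N - 1 - m) := hρs _ hpi
  have hne1 : ((-1 : ℂ)) ^ (N - 1 - m) ≠ 0 := pow_ne_zero _ (by norm_num)
  have hs0ne : ρ (Real.pi / 2) ≠ 0 := by
    intro h
    rw [h] at hs0
    apply hne1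
    rw [← hs0]; norm_num
  obtain ⟨σ, hσ2, hσ⟩ : ∃ σ : ℂ, σ ^ 2 = (-1) ^ (N - 1 - m) ∧
      ∀ φ ∈ Ioo (0 : ℝ) Real.pi, ρ φ = σ := by
    rcases isPreconnected_Ioo.eq_or_eq_neg_of_sq_eq hρc
      (continuousOn_const (c := ρ (Real.pi / 2)))
      (fun φ hφ => by simp only [Pi.pow_apply]; rw [hρs φ hφ, hs0])
      (fun {φ} _ => hs0ne) with h | h
    · exact ⟨ρ (Real.pi / 2), hs0, fun φ hφ => h hφ⟩
    · exact ⟨-ρ (Real.pi / 2), by rw [neg_sq]; exact hs0, fun φ hφ => h hφ⟩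
  refine ⟨σ, ?_, hσ2, ?_⟩
  · have : σ ^ 4 = (σ ^ 2) ^ 2 := by ring
    rw [this, hσ2, ← pow_mul, mul_comm, pow_mul]
    norm_num
  intro l
  have hmid0 : mid z m 0 = z m := by unfold mid; simp; ring
  have hmidpi : mid z m Real.pi = z (m + 1) := by unfold mid; simp; ring
  have hd : ∀ φ ∈ Ioo (0 : ℝ) Real.pi, HasDerivAt (fun φ : ℝ => FF N c z l (mid z m φ))
      (σ * (mid z m φ ^ l / rst N z m (mid z m φ))) φ := by
    intro φ hφ
    have h1 := (hdF l _ (hmem φ hφ)).scomp φ (mid_deriv z m φ)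
    have h2 := hσ φ hφ
    simp only [hρ] at h2
    have h3 := hneY _ (hmem φ hφ)
    have h4 := rst_ne hO hm φ
    refine h1.congr_deriv ?_
    rw [smul_eq_mul, ← h2]
    field_simp
  have hc : ContinuousOn (fun φ : ℝ => FF N c z l (mid z m φ)) (Icc 0 Real.pi) := by
    have h1 : ContinuousOn ((fun s : ℝ => FF N c z l (z m + s * (z (m + 1) - z m))) ∘ sp)
        (Icc 0 Real.pi) :=
      (hcont l).comp sp_cont.continuousOn (fun φ _ => ⟨sp_nonneg φ, sp_le_one φ⟩)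
    refine h1.congr ?_
    intro φ _
    simp only [Function.comp_apply]
    rw [mid_eq]
  have hi : Continuous (fun φ : ℝ => σ * (mid z m φ ^ l / rst N z m (mid z m φ))) := by
    apply continuous_const.mul
    exact ((mid_cont z m).pow l).div (rst_cont hO hm) (fun φ => rst_ne hO hm φ)
  have hft := intervalIntegral.integral_eq_sub_of_hasDerivAt_of_le Real.pi_pos.le hc hd
    (hi.intervalIntegrable 0 Real.pi)
  rw [hmid0, hmidpi] at hft
  rw [← hft, intervalIntegral.integral_const_mul]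
  rfl

end Pool.Agent.GPH.SEG
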