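import Pool.Agent.GPH.IIIDefs

/-!
# GPH, module SEGC: the primitive on the segment between two neighbouring roots
-/

open scoped BigOperators Topology
open Metric Set MeasureTheory
open Pool.Agent.HGP (csq csq_norm csq_continuousAt csq_ne_zero)

namespace Pool.Agent.GPH.SEGC

/-- The point with parameter `s` on the segment. -/
noncomputable def xs (z : ℕ → ℂ) (m : ℕ) (s : ℝ) : ℂ := z m + s * (z (m + 1) - z m)

lemma ww_im (c : ℂ) (z : ℕ → ℂ) (j : ℕ) (x : ℂ) : (ww c z j x).im =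
    ((x - c) * (starRingEnd ℂ) (z j - c)).im / Complex.normSq (z j - c) := by
  unfold ww
  rw [Complex.div_im, Complex.mul_im, Complex.conj_re, Complex.conj_im]
  ring

lemma imx (c : ℂ) (z : ℕ → ℂ) (m : ℕ) (s : ℝ) (v : ℂ) :
    ((xs z m s - c) * (starRingEnd ℂ) v).im =
      (1 - s) * ((z m - c) * (starRingEnd ℂ) v).im +
        s * ((z (m + 1) - c) * (starRingEnd ℂ) v).im := by
  unfold xs
  simp only [Complex.mul_im, Complex.conj_re, Complex.conj_im, Complex.sub_re, Complex.sub_im,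
    Complex.add_re, Complex.add_im, Complex.mul_re, Complex.ofReal_re, Complex.ofReal_im]
  ring

lemma anti (u v : ℂ) : (u * (starRingEnd ℂ) v).im = -(v * (starRingEnd ℂ) u).im := by
  simp only [Complex.mul_im, Complex.conj_re, Complex.conj_im]
  ring

lemma self0 (u : ℂ) : (u * (starRingEnd ℂ) u).im = 0 := by
  simp only [Complex.mul_im, Complex.conj_re, Complex.conj_im]
  ring

lemma cross_ne {N : ℕ} {c : ℂ} {z : ℕ → ℂ} (hc : Cen N c z) {m : ℕ} (hm : m + 1 < N) {s : ℝ}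
    (hs : s ∈ Icc (0 : ℝ) 1) {j : ℕ} (hj : j < N) (h1 : j = m → 0 < s) (h2 : j = m + 1 → s < 1) :
    ((xs z m s - c) * (starRingEnd ℂ) (z j - c)).im ≠ 0 := by
  rw [imx]
  have hs0 := hs.1
  have hs1 := hs.2
  rcases lt_trichotomy j m with h | h | h
  · have a1 := hc.2 j m h (by omega)
    have a2 := hc.2 j (m + 1) (by omega) hm
    have : 0 < (1 - s) * ((z m - c) * (starRingEnd ℂ) (z j - c)).im +
        s * ((z (m + 1) - c) * (starRingEnd ℂ) (z j - c)).im := by
      rcases eq_or_lt_of_le hs0 with h0 | h0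
      · rw [← h0]; simpa using a1
      · have := mul_pos h0 a2
        have h3 : 0 ≤ (1 - s) * ((z m - c) * (starRingEnd ℂ) (z j - c)).im :=
          mul_nonneg (by linarith) a1.le
        linarith
    exact this.ne'
  · subst h
    have a2 := hc.2 j (j + 1) (by omega) hm
    rw [self0, mul_zero, zero_add]
    exact (mul_pos (h1 rfl) a2).ne'
  · rcases eq_or_lt_of_le (Nat.succ_le_of_lt h) with h' | h'
    · have h'' : j = m + 1 := h'.symm
      subst h''
      have a1 := hc.2 m (m + 1) (by omega) hm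
      rw [self0, mul_zero, add_zero, anti (z m - c)]
      have := mul_pos (show 0 < 1 - s by linarith [h2 rfl]) a1
      intro h0
      linarith
    · have a1 := hc.2 m j h hj
      have a2 := hc.2 (m + 1) j h' hj
      rw [anti (z m - c), anti (z (m + 1) - c)]
      intro h0
      rcases eq_or_lt_of_le hs0 with h00 | h00
      · rw [← h00] at h0
        linarith
      · have := mul_pos h00 a2
        have h3 : 0 ≤ (1 - s) * ((z j - c) * (starRingEnd ℂ) (z m - c)).im :=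
          mul_nonneg (by linarith) a1.le
        linarith

lemma ww_alt {N : ℕ} {c : ℂ} {z : ℕ → ℂ} (hc : Cen N c z) {m : ℕ} (hm : m + 1 < N) {s : ℝ}
    (hs : s ∈ Icc (0 : ℝ) 1) {j : ℕ} (hj : j < N) :
    ww c z j (xs z m s) = 1 ∨ (ww c z j (xs z m s)).im ≠ 0 := by
  have hz : z j - c ≠ 0 := sub_ne_zero.mpr (hc.1 j hj)
  have hn : Complex.normSq (z j - c) ≠ 0 := by
    rw [Ne, Complex.normSq_eq_zero]
    exact hz
  by_cases h1 : j = m → 0 < s
  · by_cases h2 : j = m + 1 → s < 1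
    · right
      rw [ww_im]
      exact div_ne_zero (cross_ne hc hm hs hj h1 h2) hn
    · left
      push Not at h2
      obtain ⟨rfl, h2⟩ := h2
      have : s = 1 := le_antisymm hs.2 h2
      subst this
      unfold ww xs
      simp only [Complex.ofReal_one, one_mul, add_sub_cancel]
      exact div_self hz
  · left
    push Not at h1
    obtain ⟨rfl, h1⟩ := h1
    have : s = 0 := le_antisymm h1 hs.1
    subst this
    unfold ww xs
    simp only [Complex.ofReal_zero, zero_mul, add_zero]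
    exact div_self hz

lemma ww_smul (c : ℂ) (z : ℕ → ℂ) (j : ℕ) (x : ℂ) (τ : ℝ) :
    ww c z j (c + τ * (x - c)) = τ * ww c z j x := by
  unfold ww
  rw [add_sub_cancel_left, mul_div_assoc]

lemma slit {N : ℕ} {c : ℂ} {z : ℕ → ℂ} (hc : Cen N c z) {m : ℕ} (hm : m + 1 < N) {s : ℝ}
    (hs : s ∈ Icc (0 : ℝ) 1) {j : ℕ} (hj : j < N) {τ : ℝ} (h0 : 0 < τ) (h1 : τ < 1) :
    1 - ww c z j (c + τ * (xs z m s - c)) ∈ Complex.slitPlane := by
  rw [ww_smul]
  rcases ww_alt hc hm hs hj with h | h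
  · rw [h, mul_one]
    left
    simp only [Complex.sub_re, Complex.one_re, Complex.ofReal_re]
    linarith
  · right
    simp only [Complex.sub_im, Complex.one_im, Complex.mul_im, Complex.ofReal_re,
      Complex.ofReal_im, zero_mul, add_zero, zero_sub]
    exact neg_ne_zero.mpr (mul_ne_zero h0.ne' h)

lemma norm_YY (N : ℕ) (c : ℂ) (z : ℕ → ℂ) (x : ℂ) : ‖YY N c z x‖ =
    ‖csq (fz N z c)‖ * ∏ j ∈ Finset.range N, √‖1 - ww c z j x‖ := by
  unfold YY
  rw [norm_mul, norm_prod]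
  congr 1
  exact Finset.prod_congr rfl fun j _ => csq_norm _

/-- The factors which do not belong to the end points. -/
lemma far {N : ℕ} {c : ℂ} {z : ℕ → ℂ} (hc : Cen N c z) {m : ℕ} (hm : m + 1 < N) {j : ℕ}
    (hj : j < N) (h1 : j ≠ m) (h2 : j ≠ m + 1) :
    ∃ δ : ℝ, 0 < δ ∧ ∀ s ∈ Icc (0 : ℝ) 1, ∀ τ ∈ Icc (0 : ℝ) 1,
      δ ≤ ‖1 - ww c z j (c + τ * (xs z m s - c))‖ := by
  have hcont : Continuous (fun p : ℝ × ℝ => ‖1 - ww c z j (c + p.2 * (xs z m p.1 - c))‖) := by
    unfold ww xs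
    have hz : z j - c ≠ 0 := sub_ne_zero.mpr (hc.1 j hj)
    refine Continuous.norm (continuous_const.sub (Continuous.div_const ?_ _))
    fun_prop
  have hK : IsCompact (Icc (0 : ℝ) 1 ×ˢ Icc (0 : ℝ) 1) := isCompact_Icc.prod isCompact_Icc
  have hne : (Icc (0 : ℝ) 1 ×ˢ Icc (0 : ℝ) 1).Nonempty := ⟨(0, 0), by simp⟩
  obtain ⟨p, hp, hmin⟩ := hK.exists_isMinOn hne hcont.continuousOn
  rw [isMinOn_iff] at hmin
  refine ⟨‖1 - ww c z j (c + p.2 * (xs z m p.1 - c))‖, ?_, fun s hs τ hτ =>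
    hmin (s, τ) ⟨hs, hτ⟩⟩
  rw [norm_pos_iff]
  intro h0
  rw [ww_smul] at h0
  rcases ww_alt hc hm hp.1 hj with h | h
  · have hz : z j - c ≠ 0 := sub_ne_zero.mpr (hc.1 j hj)
    have him : (ww c z j (xs z m p.1)).im ≠ 0 := by
      rw [ww_im]
      refine div_ne_zero (cross_ne hc hm hp.1 hj (fun h => absurd h h1) (fun h => absurd h h2)) ?_
      rw [Ne, Complex.normSq_eq_zero]
      exact hz
    rw [h] at him
    simp at him
  · have him := congrArg Complex.im h0
    simp only [Complex.sub_im, Complex.one_im, Complex.mul_im, Complex.ofReal_re,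
      Complex.ofReal_im, zero_mul, add_zero, zero_sub, Complex.zero_im] at him
    have hτ0 : p.2 ≠ 0 := by
      intro h2
      rw [h2] at h0
      simp at h0
    exact mul_ne_zero hτ0 h (neg_eq_zero.mp him)

/-- The two factors which belong to the end points. -/
lemma near {N : ℕ} {c : ℂ} {z : ℕ → ℂ} (hc : Cen N c z) {m : ℕ} (hm : m + 1 < N) :
    ∃ δ : ℝ, 0 < δ ∧ ∀ (s : ℝ), ∀ τ ∈ Icc (0 : ℝ) 1, δ * (1 - τ) ≤
      ‖1 - ww c z m (c + τ * (xs z m s - c))‖ * ‖1 - ww c z (m + 1) (c + τ * (xs z m s - c))‖ := by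
  set K := ((z (m + 1) - c) * (starRingEnd ℂ) (z m - c)).im with hK
  have hK0 : 0 < K := hc.2 m (m + 1) (by omega) hm
  have hz : z m - c ≠ 0 := sub_ne_zero.mpr (hc.1 m (by omega))
  have hz' : z (m + 1) - c ≠ 0 := sub_ne_zero.mpr (hc.1 (m + 1) hm)
  have hn : 0 < ‖z m - c‖ := norm_pos_iff.mpr hz
  have hn' : 0 < ‖z (m + 1) - c‖ := norm_pos_iff.mpr hz'
  set d := z (m + 1) - z m with hd
  have hd0 : d ≠ 0 := by
    intro h
    have : z (m + 1) = z m := sub_eq_zero.mp h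
    rw [hK, this, self0] at hK0
    exact lt_irrefl _ hK0
  have hdn : 0 < ‖d‖ := norm_pos_iff.mpr hd0
  refine ⟨K / 2 / (‖z m - c‖ * ‖z (m + 1) - c‖), by positivity, fun s τ hτ => ?_⟩
  set p := c + τ * (xs z m s - c) with hp
  have e1 : ‖1 - ww c z m p‖ = ‖p - z m‖ / ‖z m - c‖ := by
    unfold ww
    rw [← norm_neg, ← norm_div]
    congr 1
    field_simp
    ring
  have e2 : ‖1 - ww c z (m + 1) p‖ = ‖p - z (m + 1)‖ / ‖z (m + 1) - c‖ := by
    unfold ww
    rw [← norm_neg, ← norm_div]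
    congr 1
    field_simp
    ring
  have hcr1 : ((p - z m) * (starRingEnd ℂ) d).im = (1 - τ) * K := by
    rw [hp, hK, hd]
    unfold xs
    simp only [Complex.mul_im, Complex.conj_re, Complex.conj_im, Complex.sub_re, Complex.sub_im,
      Complex.add_re, Complex.add_im, Complex.mul_re, Complex.ofReal_re, Complex.ofReal_im]
    ring
  have hcr2 : ((p - z (m + 1)) * (starRingEnd ℂ) d).im = (1 - τ) * K := by
    rw [← hcr1, hd]
    simp only [Complex.mul_im, Complex.conj_re, Complex.conj_im, Complex.sub_re, Complex.sub_im]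
    ring
  have hb1 : (1 - τ) * K ≤ ‖p - z m‖ * ‖d‖ := by
    rw [← hcr1]
    refine (Complex.abs_im_le_norm _).trans' (le_abs_self _) |>.trans (le_of_eq ?_)
    rw [norm_mul, Complex.norm_conj]
  have hb2 : (1 - τ) * K ≤ ‖p - z (m + 1)‖ * ‖d‖ := by
    rw [← hcr2]
    refine (Complex.abs_im_le_norm _).trans' (le_abs_self _) |>.trans (le_of_eq ?_)
    rw [norm_mul, Complex.norm_conj]
  have hsum : ‖d‖ ≤ ‖p - z m‖ + ‖p - z (m + 1)‖ := by
    have : d = (p - z m) - (p - z (m + 1)) := by rw [hd]; ring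
    rw [this]
    exact norm_sub_le _ _
  have hprod : K / 2 * (1 - τ) ≤ ‖p - z m‖ * ‖p - z (m + 1)‖ := by
    have ha := norm_nonneg (p - z m)
    have hb := norm_nonneg (p - z (m + 1))
    rcases le_total ‖p - z m‖ ‖p - z (m + 1)‖ with h | h
    · have h3 : ‖d‖ / 2 ≤ ‖p - z (m + 1)‖ := by linarith
      calc K / 2 * (1 - τ) = (1 - τ) * K / 2 := by ring
        _ ≤ ‖p - z m‖ * ‖d‖ / 2 := by linarith
        _ = ‖p - z m‖ * (‖d‖ / 2) := by ring
        _ ≤ _ := mul_le_mul_of_nonneg_left h3 ha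
    · have h3 : ‖d‖ / 2 ≤ ‖p - z m‖ := by linarith
      calc K / 2 * (1 - τ) = (1 - τ) * K / 2 := by ring
        _ ≤ ‖p - z (m + 1)‖ * ‖d‖ / 2 := by linarith
        _ = (‖d‖ / 2) * ‖p - z (m + 1)‖ := by ring
        _ ≤ _ := mul_le_mul_of_nonneg_right h3 hb
  rw [e1, e2, div_mul_div_comm, div_mul_eq_mul_div]
  exact div_le_div_of_nonneg_right hprod (by positivity)

/-- The lower bound for `YY`. -/
lemma lower {N : ℕ} {c : ℂ} {z : ℕ → ℂ} (hc : Cen N c z) {m : ℕ} (hm : m + 1 < N) :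
    ∃ δ : ℝ, 0 < δ ∧ ∀ s ∈ Icc (0 : ℝ) 1, ∀ τ ∈ Icc (0 : ℝ) 1,
      δ * √(1 - τ) ≤ ‖YY N c z (c + τ * (xs z m s - c))‖ := by
  obtain ⟨δ0, hδ0, h0⟩ := near hc hm
  have hfar : ∀ j, ∃ δ : ℝ, 0 < δ ∧ (j < N → j ≠ m → j ≠ m + 1 → ∀ s ∈ Icc (0 : ℝ) 1,
      ∀ τ ∈ Icc (0 : ℝ) 1, δ ≤ ‖1 - ww c z j (c + τ * (xs z m s - c))‖) := by
    intro j
    by_cases h : j < N ∧ j ≠ m ∧ j ≠ m + 1
    · obtain ⟨δ, h1, h2⟩ := far hc hm h.1 h.2.1 h.2.2
      exact ⟨δ, h1, fun _ _ _ => h2⟩
    · exact ⟨1, one_pos, fun h1 h2 h3 => absurd ⟨h1, h2, h3⟩ h⟩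
  choose δ hδ hfar using hfar
  have hfc : fz N z c ≠ 0 := by
    unfold fz
    refine Finset.prod_ne_zero_iff.mpr fun j hj => ?_
    exact sub_ne_zero.mpr (hc.1 j (Finset.mem_range.mp hj)).symm
  have hA : 0 < ‖csq (fz N z c)‖ := norm_pos_iff.mpr (csq_ne_zero hfc)
  set S := ((Finset.range N).erase m).erase (m + 1) with hS
  refine ⟨‖csq (fz N z c)‖ * (√δ0 * ∏ j ∈ S, √(δ j)), ?_, fun s hs τ hτ => ?_⟩
  · have : 0 < ∏ j ∈ S, √(δ j) := Finset.prod_pos fun j _ => Real.sqrt_pos.mpr (hδ j)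
    have := Real.sqrt_pos.mpr hδ0
    positivity
  · rw [norm_YY]
    have h1 : m ∈ Finset.range N := Finset.mem_range.mpr (by omega)
    have h2 : m + 1 ∈ (Finset.range N).erase m :=
      Finset.mem_erase.mpr ⟨by omega, Finset.mem_range.mpr hm⟩
    rw [← Finset.mul_prod_erase _ _ h1, ← Finset.mul_prod_erase _ _ h2, mul_assoc]
    refine mul_le_mul_of_nonneg_left ?_ hA.le
    have h3 : √δ0 * √(1 - τ) ≤ √‖1 - ww c z m (c + τ * (xs z m s - c))‖ *
        √‖1 - ww c z (m + 1) (c + τ * (xs z m s - c))‖ := by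
      rw [← Real.sqrt_mul hδ0.le, ← Real.sqrt_mul (norm_nonneg _)]
      exact Real.sqrt_le_sqrt (h0 s τ hτ)
    have h4 : ∏ j ∈ S, √(δ j) ≤ ∏ j ∈ S, √‖1 - ww c z j (c + τ * (xs z m s - c))‖ := by
      refine Finset.prod_le_prod (fun j _ => Real.sqrt_nonneg _) fun j hj => ?_
      simp only [hS, Finset.mem_erase, Finset.mem_range] at hj
      exact Real.sqrt_le_sqrt (hfar j hj.2.2 hj.2.1 hj.1 s hs τ hτ)
    calc √δ0 * (∏ j ∈ S, √(δ j)) * √(1 - τ) = (√δ0 * √(1 - τ)) * ∏ j ∈ S, √(δ j) := by ring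
      _ ≤ (√‖1 - ww c z m (c + τ * (xs z m s - c))‖ *
        √‖1 - ww c z (m + 1) (c + τ * (xs z m s - c))‖) *
          ∏ j ∈ S, √‖1 - ww c z j (c + τ * (xs z m s - c))‖ :=
        mul_le_mul h3 h4 (Finset.prod_nonneg fun j _ => Real.sqrt_nonneg _) (by positivity)
      _ = _ := by ring

theorem thm (hI : Stmt_IntF) : Stmt_SegC := by
  intro N c z hc m hm
  constructor
  · intro s hs j hj
    have hz : z j - c ≠ 0 := sub_ne_zero.mpr (hc.1 j hj)
    right
    rw [Complex.sub_im, Complex.one_im, zero_sub, ww_im]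
    refine neg_ne_zero.mpr (div_ne_zero (cross_ne hc hm (Ioo_subset_Icc_self hs) hj
      (fun _ => hs.1) (fun _ => hs.2)) ?_)
    rw [Ne, Complex.normSq_eq_zero]
    exact hz
  · intro l
    obtain ⟨δ, hδ, hlow⟩ := lower hc hm
    -- bound for the numerator
    have hcn : Continuous (fun p : ℝ × ℝ =>
        (xs z m p.1 - c) * (c + p.2 * (xs z m p.1 - c)) ^ l) := by
      unfold xs
      fun_prop
    obtain ⟨B, hB⟩ := (isCompact_Icc.prod isCompact_Icc).exists_bound_of_continuousOn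
      (s := Icc (0 : ℝ) 1 ×ˢ Icc (0 : ℝ) 1) hcn.continuousOn
    have hB0 : 0 ≤ B := (norm_nonneg _).trans (hB (0, 0) (by simp))
    show ContinuousOn (fun s : ℝ => FF N c z l (xs z m s)) (Icc 0 1)
    unfold FF
    intro s0 hs0
    refine intervalIntegral.continuousWithinAt_of_dominated_interval
      (bound := fun τ => B / δ * (1 - τ) ^ (-(1 / 2 : ℝ))) ?_ ?_ ?_ ?_
    · refine Filter.Eventually.of_forall fun s => ?_
      have := (hI N c z hc l (xs z m s)).aestronglyMeasurable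
      rwa [uIoc_of_le zero_le_one]
    · refine eventually_nhdsWithin_of_forall fun s hs => ?_
      have hne : ∀ᵐ τ : ℝ, τ ≠ 1 := by
        simp [ae_iff]
      filter_upwards [hne] with τ hτ1 hτ
      rw [uIoc_of_le zero_le_one] at hτ
      have hτ' : τ < 1 := lt_of_le_of_ne hτ.2 hτ1
      have hτI : τ ∈ Icc (0 : ℝ) 1 := Ioc_subset_Icc_self hτ
      have h1 := hlow s hs τ hτI
      have h2 := hB (s, τ) ⟨hs, hτI⟩
      have h3 : 0 < √(1 - τ) := Real.sqrt_pos.mpr (by linarith)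
      have h4 : 0 < ‖YY N c z (c + τ * (xs z m s - c))‖ := lt_of_lt_of_le (by positivity) h1
      rw [norm_div, div_le_iff₀ h4]
      have h5 : (1 - τ) ^ (-(1 / 2 : ℝ)) = 1 / √(1 - τ) := by
        rw [Real.rpow_neg (by linarith), Real.sqrt_eq_rpow, one_div (_ ^ _ : ℝ)]
      rw [h5]
      calc _ ≤ B := h2
        _ = B / δ * (1 / √(1 - τ)) * (δ * √(1 - τ)) := by field_simp
        _ ≤ _ := mul_le_mul_of_nonneg_left h1 (by positivity)
    · refine IntervalIntegrable.const_mul ?_ _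
      have h1 : IntervalIntegrable (fun x : ℝ => x ^ (-(1 / 2 : ℝ))) volume 1 0 :=
        intervalIntegral.intervalIntegrable_rpow' (by norm_num)
      have h2 := h1.comp_sub_left 1
      simpa using h2
    · have hne : ∀ᵐ τ : ℝ, τ ≠ 1 := by
        simp [ae_iff]
      filter_upwards [hne] with τ hτ1 hτ
      rw [uIoc_of_le zero_le_one] at hτ
      have hτ' : τ < 1 := lt_of_le_of_ne hτ.2 hτ1
      obtain ⟨s, hs, rfl⟩ : ∃ s, s ∈ Icc (0 : ℝ) 1 ∧ s = s0 := ⟨s0, hs0, rfl⟩
      refine ContinuousAt.continuousWithinAt ?_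
      have hcx : ContinuousAt (fun s : ℝ => xs z m s) s := by
        unfold xs
        fun_prop
      have hcp : ContinuousAt (fun s : ℝ => c + τ * (xs z m s - c)) s :=
        continuousAt_const.add (continuousAt_const.mul (hcx.sub continuousAt_const))
      have hfac : ∀ j ∈ Finset.range N,
          ContinuousAt (fun s : ℝ => csq (1 - ww c z j (c + τ * (xs z m s - c)))) s := by
        intro j hj
        have h1 := slit hc hm hs (Finset.mem_range.mp hj) hτ.1 hτ'
        have h2 : ContinuousAt (fun s : ℝ => 1 - ww c z j (c + τ * (xs z m s - c))) s := by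
          unfold ww
          exact continuousAt_const.sub ((hcp.sub continuousAt_const).div_const _)
        exact ContinuousAt.comp (g := csq) (csq_continuousAt h1) h2
      have hY : ContinuousAt (fun s : ℝ => YY N c z (c + τ * (xs z m s - c))) s := by
        unfold YY
        refine continuousAt_const.mul ?_
        exact tendsto_finsetProd _ hfac
      refine ContinuousAt.div ((hcx.sub continuousAt_const).mul (hcp.pow l)) hY ?_
      have h1 := hlow s hs τ (Ioc_subset_Icc_self hτ)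
      have h3 : 0 < √(1 - τ) := Real.sqrt_pos.mpr (by linarith)
      exact norm_pos_iff.mp (lt_of_lt_of_le (by positivity) h1)

end Pool.Agent.GPH.SEGC
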