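import Pool.Agent.GPH.IIIDefs

/-!
# YPROP: elementary properties of the branch and of the star domain
-/

open scoped BigOperators Topology Interval
open Metric Set MeasureTheory Filter

namespace Pool.Agent.GPH.YPROP

open Pool.Agent.HGP

noncomputable section

theorem thm (hP : Stmt_Prim) : Stmt_YProp := by
  intro N c z hC
  have hne : ∀ j < N, z j - c ≠ 0 := fun j hj => sub_ne_zero.2 (hC.1 j hj)
  have hY2 : ∀ x, YY N c z x ^ 2 = fz N z x := by
    intro x
    unfold YY fz
    rw [mul_pow, csq_sq, ← Finset.prod_pow, ← Finset.prod_mul_distrib]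
    apply Finset.prod_congr rfl
    intro j hj
    have hj' := hne j (Finset.mem_range.1 hj)
    rw [csq_sq]
    unfold ww
    field_simp
    ring
  have hwc : ∀ j, Continuous (fun x => 1 - ww c z j x) := by
    intro j
    unfold ww
    fun_prop
  have hOm : IsOpen (Om N c z) := by
    have : Om N c z = ⋂ j ∈ Finset.range N, (fun x => 1 - ww c z j x) ⁻¹' Complex.slitPlane := by
      ext x
      simp [Om]
    rw [this]
    exact isOpen_biInter_finset fun j _ => Complex.isOpen_slitPlane.preimage (hwc j)
  have hst : StarConvex ℝ c (Om N c z) := by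
    intro x hx p q hp hq hpq j hj
    have h := Complex.starConvex_one_slitPlane (hx j hj) hp hq hpq
    have e : p • (1 : ℂ) + q • (1 - ww c z j x) = 1 - ww c z j (p • c + q • x) := by
      have hp' : p = 1 - q := by linarith
      subst hp'
      unfold ww
      have := hne j hj
      simp only [Complex.real_smul]
      push_cast
      field_simp
      ring
    rwa [e] at h
  have hc : c ∈ Om N c z := by
    intro j hj
    unfold ww
    simp [Complex.one_mem_slitPlane]
  have hYd : DifferentiableOn ℂ (YY N c z) (Om N c z) := by
    intro x hx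
    apply DifferentiableAt.differentiableWithinAt
    have h1 : ∀ j ∈ Finset.range N, DifferentiableAt ℂ (fun x => csq (1 - ww c z j x)) x := by
      intro j hj
      have h2 : DifferentiableAt ℂ (fun x => 1 - ww c z j x) x := by
        unfold ww
        fun_prop
      exact DifferentiableAt.comp x (csq_differentiableAt (hx j (Finset.mem_range.1 hj))) h2
    have h3 := DifferentiableAt.fun_finsetProd h1
    exact h3.const_mul _
  have hfc : fz N z c ≠ 0 := by
    unfold fz
    rw [Finset.prod_ne_zero_iff]
    intro j hj
    have := hne j (Finset.mem_range.1 hj)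
    rw [← neg_sub]
    exact neg_ne_zero.2 this
  have hY0 : ∀ x ∈ Om N c z, YY N c z x ≠ 0 := by
    intro x hx
    unfold YY
    apply mul_ne_zero (csq_ne_zero hfc)
    rw [Finset.prod_ne_zero_iff]
    intro j hj
    exact csq_ne_zero (Complex.slitPlane_ne_zero (hx j (Finset.mem_range.1 hj)))
  refine ⟨hY2, hOm, hst, hc, hYd, hY0, ?_⟩
  intro l x hx
  have h := hP (Om N c z) c (fun x => x ^ l / YY N c z x) hOm hst
    (DifferentiableOn.div (by fun_prop) hYd hY0) x hx
  have e : FF N c z l = fun x => ∫ τ in (0 : ℝ)..1, (x - c) *
      ((c + τ * (x - c)) ^ l / YY N c z (c + τ * (x - c))) := by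
    funext x
    unfold FF
    congr 1
    funext τ
    rw [mul_div_assoc]
  rw [e]
  exact h

end

end Pool.Agent.GPH.YPROP
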