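import Pool.Agent.GPH.CEN
import Pool.Agent.GPH.PRIM
import Pool.Agent.GPH.YPROP
import Pool.Agent.GPH.INTF
import Pool.Agent.GPH.LIMU
import Pool.Agent.GPH.LOCSTR
import Pool.Agent.GPH.LOOPV
import Pool.Agent.GPH.SEGC
import Pool.Agent.GPH.SEG
import Pool.Agent.GPH.EHOL
import Pool.Agent.GPH.ADM
import Pool.Agent.GPH.ANNUL
import Pool.Agent.GPH.ODEE
import Pool.Agent.GPH.ORDEX
import Pool.Agent.GPH.ROOTS
import Pool.Agent.GPH.LOOPS

/-!
# GPH, part III: assembly
-/

namespace Pool.Agent.GPH.Part3

open Pool.Agent.GPH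

theorem yprop : Stmt_YProp := YPROP.thm PRIM.thm
theorem limu : Stmt_LimU := LIMU.thm INTF.thm
theorem locstr : Stmt_LocStr := LOCSTR.thm yprop limu
theorem loopv : Stmt_LoopV := LOOPV.thm locstr
theorem segc : Stmt_SegC := SEGC.thm INTF.thm
theorem seg : Stmt_Seg := SEG.thm yprop segc
/-- The periods of every closed path are integral combinations of the reference periods. -/
theorem loops : Stmt_Loops := LOOPS.thm seg loopv CEN.thm
/-- The reference periods are holomorphic functions of the roots. -/
theorem ehol : Stmt_EHol := EHOL.thm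
/-- The reference periods satisfy the Okubo equation. -/
theorem odee : Stmt_OdeE := ODEE.thm ADM.thm ANNUL.thm EHOL.thm
theorem ordex : Stmt_OrdEx := ORDEX.thm
theorem roots : Stmt_Roots := ROOTS.thm

end Pool.Agent.GPH.Part3
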