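import Pool.Agent.GPH.VStmts

/-!
# RZ: Riemann's bilinear relations for complex branch points
-/

open scoped BigOperators Topology
open Metric Set
open Pool.Agent.HGP (Ix Simil)

namespace Pool.Agent.GPH.RZ

noncomputable section

/-- Extension by zero. -/
def zz (N : ℕ) (v : Fin N → ℂ) : ℕ → ℂ := fun i => if h : i < N then v ⟨i, h⟩ else 0

lemma zz_fin (N : ℕ) (v : Fin N → ℂ) (i : Fin N) : zz N v i = v i := by
  unfold zz
  rw [dif_pos i.2]

/-- The domain. -/
def DD (N : ℕ) (κ : ℂ) : Set (Fin N → ℂ) := {v | Ord N κ (zz N v)}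

lemma mem_DD (N : ℕ) (κ : ℂ) (v : Fin N → ℂ) : v ∈ DD N κ ↔
    0 < κ.re ∧ ∀ i j : Fin N, i < j → 0 < (κ * (v j - v i)).re := by
  unfold DD Ord
  simp only [mem_setOf_eq]
  constructor
  · rintro ⟨h1, h2⟩
    refine ⟨h1, fun i j hij => ?_⟩
    have := h2 i j hij j.2
    rwa [zz_fin, zz_fin] at this
  · rintro ⟨h1, h2⟩
    refine ⟨h1, fun i j hij hj => ?_⟩
    have := h2 ⟨i, lt_trans hij hj⟩ ⟨j, hj⟩ hij
    have e1 := zz_fin N v ⟨i, lt_trans hij hj⟩
    have e2 := zz_fin N v ⟨j, hj⟩
    simp only at e1 e2
    rw [e1, e2]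
    exact this

lemma isOpen_DD (N : ℕ) (κ : ℂ) : IsOpen (DD N κ) := by
  have e : DD N κ = {_v : Fin N → ℂ | 0 < κ.re} ∩
      ⋂ i : Fin N, ⋂ j : Fin N, {v : Fin N → ℂ | i < j → 0 < (κ * (v j - v i)).re} := by
    ext v
    rw [mem_DD]
    simp only [mem_inter_iff, mem_setOf_eq, mem_iInter]
  rw [e]
  apply IsOpen.inter isOpen_const
  apply isOpen_iInter_of_finite
  intro i
  apply isOpen_iInter_of_finite
  intro j
  by_cases h : i < j
  · simp only [h, true_imp_iff]
    exact isOpen_lt continuous_const (by fun_prop)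
  · simp only [h, false_imp_iff, setOf_true]
    exact isOpen_univ

lemma convex_DD (N : ℕ) (κ : ℂ) : Convex ℝ (DD N κ) := by
  intro v hv w hw a b ha hb hab
  rw [mem_DD] at hv hw ⊢
  refine ⟨hv.1, fun i j hij => ?_⟩
  have h1 := hv.2 i j hij
  have h2 := hw.2 i j hij
  have e : (κ * ((a • v + b • w) j - (a • v + b • w) i)).re =
      a * (κ * (v j - v i)).re + b * (κ * (w j - w i)).re := by
    simp only [Pi.add_apply, Pi.smul_apply, Complex.real_smul]
    have : κ * ((a : ℂ) * v j + b * w j - (a * v i + b * w i)) =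
        (a : ℂ) * (κ * (v j - v i)) + b * (κ * (w j - w i)) := by ring
    rw [this, Complex.add_re, Complex.re_ofReal_mul, Complex.re_ofReal_mul]
  rw [e]
  rcases ha.eq_or_lt with h | h
  · subst h
    rw [zero_add] at hab
    subst hab
    rw [zero_mul, zero_add, one_mul]
    exact h2
  · have := mul_pos h h1
    have := mul_nonneg hb h2.le
    linarith

/-- Identity theorem along a complex line. -/
lemma line {N : ℕ} {κ : ℂ} {G : (Fin N → ℂ) → ℂ} (hG : DifferentiableOn ℂ G (DD N κ))
    (a b : Fin N → ℂ) (ζ : ℂ) (ha : a ∈ DD N κ) (hζ : a + ζ • b ∈ DD N κ)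
    (h0 : ∀ᶠ t : ℝ in 𝓝 0, G (a + (t : ℂ) • b) = 0) : G (a + ζ • b) = 0 := by
  set Ω : Set ℂ := {w | a + w • b ∈ DD N κ} with hΩ
  have hcont : Continuous (fun w : ℂ => a + w • b) := by fun_prop
  have hopen : IsOpen Ω := (isOpen_DD N κ).preimage hcont
  have hconv : Convex ℝ Ω := by
    intro v hv w hw s t hs ht hst
    have := convex_DD N κ hv hw hs ht hst
    rw [hΩ, mem_setOf_eq]
    have e : a + (s • v + t • w) • b = s • (a + v • b) + t • (a + w • b) := by
      have e1 : a = (s + t) • a := by rw [hst, one_smul]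
      conv_lhs => rw [e1]
      ext i
      simp only [Pi.add_apply, Pi.smul_apply, smul_eq_mul, Complex.real_smul]
      push_cast
      ring
    rw [e]
    exact this
  have hdiff : DifferentiableOn ℂ (fun w : ℂ => G (a + w • b)) Ω := by
    apply DifferentiableOn.comp (t := DD N κ) hG
    · apply Differentiable.differentiableOn
      fun_prop
    · intro w hw
      exact hw
  have han : AnalyticOnNhd ℂ (fun w : ℂ => G (a + w • b)) Ω := hdiff.analyticOnNhd hopen
  have h0Ω : (0 : ℂ) ∈ Ω := by
    rw [hΩ, mem_setOf_eq, zero_smul, add_zero]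
    exact ha
  have hfreq : ∃ᶠ w : ℂ in 𝓝[≠] 0, G (a + w • b) = 0 := by
    have h1 : ∀ᶠ t : ℝ in 𝓝[≠] 0, G (a + (t : ℂ) • b) = 0 := h0.filter_mono nhdsWithin_le_nhds
    have h2 : Filter.Tendsto (fun t : ℝ => (t : ℂ)) (𝓝[≠] 0) (𝓝[≠] 0) := by
      apply tendsto_nhdsWithin_of_tendsto_nhds_of_eventually_within
      · have : Filter.Tendsto (fun t : ℝ => (t : ℂ)) (𝓝 0) (𝓝 ((0 : ℝ) : ℂ)) :=
          Complex.continuous_ofReal.tendsto 0
        rw [Complex.ofReal_zero] at this
        exact this.mono_left nhdsWithin_le_nhds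
      · filter_upwards [self_mem_nhdsWithin] with t ht
        simpa using ht
    exact h2.frequently h1.frequently
  exact han.eqOn_zero_of_preconnected_of_frequently_eq_zero hconv.isPreconnected h0Ω hfreq hζ

/-- A holomorphic function on the domain which vanishes at the real points vanishes. -/
lemma ident {N : ℕ} {κ : ℂ} {G : (Fin N → ℂ) → ℂ} (hG : DifferentiableOn ℂ G (DD N κ))
    (hre : ∀ x : Fin N → ℝ, StrictMono x → G (fun i => (x i : ℂ)) = 0) :
    ∀ v ∈ DD N κ, G v = 0 := by
  -- step 1
  have hκ : ∀ v ∈ DD N κ, 0 < κ.re := fun v hv => ((mem_DD N κ v).1 hv).1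
  have hreal : 0 < κ.re → ∀ x : Fin N → ℝ, StrictMono x → (fun i => (x i : ℂ)) ∈ DD N κ := by
    intro hk x hx
    rw [mem_DD]
    refine ⟨hk, fun i j hij => ?_⟩
    have : κ * ((x j : ℂ) - (x i : ℂ)) = κ * ((x j - x i : ℝ) : ℂ) := by push_cast; ring
    rw [this, Complex.re_mul_ofReal]
    exact mul_pos hk (sub_pos.2 (hx hij))
  have hevmono : ∀ x y : Fin N → ℝ, StrictMono x → ∀ᶠ t : ℝ in 𝓝 0,
      StrictMono (fun i => x i + t * y i) := by
    intro x y hx
    have h1 : ∀ i j : Fin N, ∀ᶠ t : ℝ in 𝓝 0, i < j → x i + t * y i < x j + t * y j := by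
      intro i j
      by_cases hij : i < j
      · have hc : ContinuousAt (fun t : ℝ => x j + t * y j - (x i + t * y i)) 0 := by fun_prop
        have hpos : 0 < x j + 0 * y j - (x i + 0 * y i) := by
          have := hx hij
          linarith
        have := hc.eventually (lt_mem_nhds hpos)
        filter_upwards [this] with t ht _
        linarith
      · exact Filter.Eventually.of_forall fun t h => absurd h hij
    have h2 : ∀ᶠ t : ℝ in 𝓝 0, ∀ i j : Fin N, i < j → x i + t * y i < x j + t * y j := by
      rw [Filter.eventually_all]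
      intro i
      rw [Filter.eventually_all]
      exact h1 i
    filter_upwards [h2] with t ht
    intro i j hij
    exact ht i j hij
  have step1 : ∀ v ∈ DD N κ, StrictMono (fun i => (v i).re) → G v = 0 := by
    intro v hv hmono
    have e : v = (fun i => (((v i).re : ℝ) : ℂ)) + Complex.I • (fun i => (((v i).im : ℝ) : ℂ)) := by
      ext i
      simp only [Pi.add_apply, Pi.smul_apply, smul_eq_mul]
      rw [mul_comm]
      exact (Complex.re_add_im _).symm
    rw [e]
    apply line hG
    · exact hreal (hκ v hv) _ hmono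
    · rw [← e]
      exact hv
    · filter_upwards [hevmono (fun i => (v i).re) (fun i => (v i).im) hmono] with t ht
      have := hre _ ht
      convert this using 2
      ext i
      simp only [Pi.add_apply, Pi.smul_apply, smul_eq_mul]
      push_cast
      ring
  -- step 2
  intro v hv
  set p : Fin N → ℂ := fun i => (((i : ℕ) : ℝ) : ℂ) with hp
  have hpm : StrictMono (fun i : Fin N => ((i : ℕ) : ℝ)) := by
    intro i j hij
    exact Nat.cast_lt.2 hij
  have hpD : p ∈ DD N κ := hreal (hκ v hv) _ hpm
  have e : v = p + (1 : ℂ) • (v - p) := by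
    rw [one_smul]
    abel
  rw [e]
  apply line hG p (v - p) 1 hpD
  · rw [← e]
    exact hv
  · have h1 : ∀ᶠ t : ℝ in 𝓝 0, p + (t : ℂ) • (v - p) ∈ DD N κ := by
      have hc : ContinuousAt (fun t : ℝ => p + (t : ℂ) • (v - p)) 0 := by fun_prop
      apply hc.eventually_mem
      apply (isOpen_DD N κ).mem_nhds
      simpa using hpD
    have h2 := hevmono (fun i : Fin N => ((i : ℕ) : ℝ)) (fun i => ((v - p) i).re) hpm
    filter_upwards [h1, h2] with t ht1 ht2
    apply step1 _ ht1
    have e2 : (fun i => ((p + (t : ℂ) • (v - p)) i).re) =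
        fun i : Fin N => ((i : ℕ) : ℝ) + t * ((v - p) i).re := by
      ext i
      rw [Pi.add_apply, Pi.smul_apply, smul_eq_mul, Complex.add_re, Complex.re_ofReal_mul, hp]
      simp only [Complex.ofReal_re]
    rw [e2]
    exact ht2

/-! ## The period matrix -/

lemma polz_congr (g : ℕ) (z z' : ℕ → ℂ) (h : ∀ i < 2 * g + 1, z i = z' i) :
    polz g z = polz g z' := by
  unfold polz
  apply Finset.prod_congr rfl
  intro i hi
  rw [h i (Finset.mem_range.1 hi)]

lemma EE_congr (N : ℕ) (z z' : ℕ → ℂ) (h : ∀ i < N, z i = z' i) (m l : ℕ) (hm : m + 1 < N) :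
    EE N z m l = EE N z' m l := by
  unfold EE
  have hmid : ∀ φ, mid z m φ = mid z' m φ := by
    intro φ
    unfold mid
    rw [h m (by omega), h (m + 1) hm]
  apply intervalIntegral.integral_congr
  intro φ _
  simp only
  rw [hmid φ]
  congr 2
  · apply Finset.prod_congr rfl
    intro i hi
    rw [h i (by rw [Finset.mem_range] at hi; omega)]
  · apply Finset.prod_congr rfl
    intro i hi
    rw [h i (Finset.mem_Ico.1 hi).2]

lemma Mz_congr (g : ℕ) (z z' : ℕ → ℂ) (h : ∀ i < 2 * g + 1, z i = z' i) :
    Mz g z = Mz g z' := by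
  unfold Mz
  rw [polz_congr g z z' h]
  congr 1
  unfold refP
  ext m l
  simp only [Matrix.of_apply]
  rw [EE_congr (2 * g + 1) z z' h m l (by omega)]

lemma coeff_diff (N : ℕ) (S : Set (Fin N → ℂ)) (s : Finset ℕ) (n : ℕ) :
    DifferentiableOn ℂ (fun v : Fin N → ℂ =>
      (∏ i ∈ s, (Polynomial.X - Polynomial.C (zz N v i))).coeff n) S := by
  classical
  induction s using Finset.induction_on generalizing n with
  | empty => simp
  | insert a s has ih =>
    have hz : DifferentiableOn ℂ (fun v : Fin N → ℂ => zz N v a) S := by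
      unfold zz
      by_cases h : a < N
      · simp only [h, dif_pos]
        apply Differentiable.differentiableOn
        fun_prop
      · simp only [h, dif_neg, not_false_eq_true]
        exact differentiableOn_const 0
    simp only [Finset.prod_insert has, sub_mul, Polynomial.coeff_sub, Polynomial.coeff_C_mul]
    apply DifferentiableOn.sub
    · cases n with
      | zero => simp
      | succ n =>
        simp only [Polynomial.coeff_X_mul]
        exact ih n
    · exact hz.mul (ih n)

lemma num_diff (g : ℕ) (S : Set (Fin (2 * g + 1) → ℂ)) (k : Ix g) (l : ℕ) :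
    DifferentiableOn ℂ (fun v : Fin (2 * g + 1) → ℂ =>
      (num g (polz g (zz (2 * g + 1) v)) k).coeff l) S := by
  cases k with
  | inl j =>
    unfold num
    exact differentiableOn_const _
  | inr j =>
    unfold num
    simp only [Polynomial.finset_sum_coeff, Polynomial.coeff_C_mul]
    apply DifferentiableOn.fun_sum
    intro n _
    apply DifferentiableOn.mul
    · apply DifferentiableOn.mul
      · exact differentiableOn_const _
      · exact coeff_diff (2 * g + 1) S _ n
    · exact differentiableOn_const _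

lemma Mz_diff (hE : Stmt_EHol) (g : ℕ) (κ : ℂ) (k c : Ix g) :
    DifferentiableOn ℂ (fun v : Fin (2 * g + 1) → ℂ => Mz g (zz (2 * g + 1) v) k c)
      (DD (2 * g + 1) κ) := by
  unfold Mz perM
  simp only [Matrix.mul_apply, Matrix.transpose_apply]
  apply DifferentiableOn.fun_sum
  intro m _
  apply DifferentiableOn.mul
  · apply DifferentiableOn.fun_sum
    intro l _
    apply DifferentiableOn.mul
    · exact num_diff g _ k l
    · unfold refP
      simp only [Matrix.of_apply]
      apply DifferentiableOn.mul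
      · exact differentiableOn_const _
      · exact hE (2 * g + 1) κ m l (by omega)
  · exact differentiableOn_const _

theorem thm (hR : Stmt_RZReal) (hE : Stmt_EHol) (hRiem : HGP.Stmt_Riem) : Stmt_RZ := by
  intro g κ z hg hz
  set v0 : Fin (2 * g + 1) → ℂ := fun i => z i with hv0
  have hzz : ∀ i < 2 * g + 1, zz (2 * g + 1) v0 i = z i := by
    intro i hi
    unfold zz
    rw [dif_pos hi]
  have hv0D : v0 ∈ DD (2 * g + 1) κ := by
    rw [mem_DD]
    exact ⟨hz.1, fun i j hij => hz.2 i j hij j.2⟩
  rw [← Mz_congr g _ _ hzz]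
  -- entries
  unfold Simil
  ext k c
  set G : (Fin (2 * g + 1) → ℂ) → ℂ := fun v =>
    ((Mz g (zz (2 * g + 1) v)).transpose * Matrix.J (Fin g) ℂ * Mz g (zz (2 * g + 1) v)) k c -
      ((2 * Real.pi * Complex.I : ℂ) • Matrix.J (Fin g) ℂ) k c with hGdef
  have hG : DifferentiableOn ℂ G (DD (2 * g + 1) κ) := by
    apply DifferentiableOn.sub
    · simp only [Matrix.mul_apply, Matrix.transpose_apply]
      apply DifferentiableOn.fun_sum
      intro i _
      apply DifferentiableOn.mul
      · apply DifferentiableOn.fun_sum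
        intro j _
        apply DifferentiableOn.mul
        · exact Mz_diff hE g κ j k
        · exact differentiableOn_const _
      · exact Mz_diff hE g κ i c
    · exact differentiableOn_const _
  have hre : ∀ x : Fin (2 * g + 1) → ℝ, StrictMono x → G (fun i => (x i : ℂ)) = 0 := by
    intro x hx
    -- the sequence
    have h2g : 2 * g - 1 < 2 * g + 1 := by omega
    set a : ℕ → ℝ := fun i => if h : i < 2 * g then x ⟨i, by omega⟩ else
      x ⟨2 * g - 1, h2g⟩ + ((i : ℝ) + 1 - 2 * g) with ha
    have ha1 : ∀ i (h : i < 2 * g), a i = x ⟨i, by omega⟩ := by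
      intro i h
      rw [ha]
      simp only
      rw [dif_pos h]
    have ha2 : ∀ i, ¬ i < 2 * g → a i = x ⟨2 * g - 1, h2g⟩ + ((i : ℝ) + 1 - 2 * g) := by
      intro i h
      rw [ha]
      simp only
      rw [dif_neg h]
    have hmono : StrictMono a := by
      apply strictMono_nat_of_lt_succ
      intro i
      by_cases h1 : i + 1 < 2 * g
      · rw [ha1 i (by omega), ha1 (i + 1) h1]
        apply hx
        rw [Fin.lt_def]
        simp
      · by_cases h2 : i < 2 * g
        · rw [ha1 i h2, ha2 (i + 1) h1]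
          have e : (⟨i, by omega⟩ : Fin (2 * g + 1)) = ⟨2 * g - 1, h2g⟩ := by
            ext
            simp only
            omega
          rw [e]
          have : ((i + 1 : ℕ) : ℝ) = 2 * g := by
            have : i + 1 = 2 * g := by omega
            exact_mod_cast this
          rw [this]
          linarith
        · rw [ha2 i h2, ha2 (i + 1) h1]
          push_cast
          linarith
    have hat : a (2 * g - 1) < x ⟨2 * g, by omega⟩ := by
      rw [ha1 (2 * g - 1) (by omega)]
      apply hx
      rw [Fin.lt_def]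
      simp only
      omega
    have h1 := hR g a hg hmono _ hat
    have h2 := hRiem g a hg hmono _ hat
    rw [← h1] at h2
    have h3 : Mz g (zz (2 * g + 1) (fun i => (x i : ℂ))) =
        Mz g (fun i => if i < 2 * g then ((a i : ℝ) : ℂ) else
          ((x ⟨2 * g, by omega⟩ : ℝ) : ℂ)) := by
      apply Mz_congr
      intro i hi
      unfold zz
      rw [dif_pos hi]
      by_cases h : i < 2 * g
      · rw [if_pos h, ha1 i h]
      · rw [if_neg h]
        have e : i = 2 * g := by omega
        subst e
        rfl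
    rw [← h3] at h2
    unfold Simil at h2
    rw [hGdef]
    simp only
    rw [h2, sub_self]
  have := ident hG hre v0 hv0D
  rw [hGdef] at this
  simp only at this
  exact sub_eq_zero.1 this

end

end Pool.Agent.GPH.RZ
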