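import Pool.Agent.GPH.VStmts
import Pool.Agent.HGP.PLINK
import Pool.Agent.HGP.INTG

/-!
# GPH RZREAL: the period matrix at real branch points
-/

open scoped BigOperators Topology
open Metric Set MeasureTheory
open Pool.Agent.HGP (Ix csq csq_ofReal)

namespace Pool.Agent.GPH.RZREAL

/-- The real version of `mid`. -/
noncomputable def mr (p q φ : ℝ) : ℝ := (p + q) / 2 - (q - p) / 2 * Real.cos φ

lemma mid_eq (zr : ℕ → ℝ) (m : ℕ) (φ : ℝ) :
    mid (fun i => ((zr i : ℝ) : ℂ)) m φ = ((mr (zr m) (zr (m + 1)) φ : ℝ) : ℂ) := by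
  unfold mid mr
  push_cast
  ring

lemma mr_mem {p q : ℝ} (h : p ≤ q) (φ : ℝ) : p ≤ mr p q φ ∧ mr p q φ ≤ q := by
  unfold mr
  have h1 := Real.neg_one_le_cos φ
  have h2 := Real.cos_le_one φ
  constructor <;> nlinarith

lemma mr_cont (p q : ℝ) : Continuous (mr p q) := by
  unfold mr
  fun_prop

/-- The real integrand. -/
noncomputable def Rr (N : ℕ) (zr : ℕ → ℝ) (m l : ℕ) (φ : ℝ) : ℝ :=
  mr (zr m) (zr (m + 1)) φ ^ l /
    ((∏ i ∈ Finset.range m, √(mr (zr m) (zr (m + 1)) φ - zr i)) *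
      ∏ i ∈ Finset.Ico (m + 2) N, √(zr i - mr (zr m) (zr (m + 1)) φ))

lemma facs {N : ℕ} {zr : ℕ → ℝ} (hz : ∀ i j, i < j → j < N → zr i < zr j) {m : ℕ}
    (hm : m + 1 < N) (φ : ℝ) :
    (∀ i ∈ Finset.range m, 0 < mr (zr m) (zr (m + 1)) φ - zr i) ∧
    (∀ i ∈ Finset.Ico (m + 2) N, 0 < zr i - mr (zr m) (zr (m + 1)) φ) := by
  have h1 := mr_mem (hz m (m + 1) (by omega) hm).le φ
  constructor
  · intro i hi
    rw [Finset.mem_range] at hi
    have := hz i m hi (by omega)
    linarith [h1.1]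
  · intro i hi
    rw [Finset.mem_Ico] at hi
    have := hz (m + 1) i (by omega) hi.2
    linarith [h1.2]

lemma Rr_cont {N : ℕ} {zr : ℕ → ℝ} (hz : ∀ i j, i < j → j < N → zr i < zr j) {m : ℕ}
    (hm : m + 1 < N) (l : ℕ) : Continuous (Rr N zr m l) := by
  unfold Rr
  refine Continuous.div ?_ ?_ ?_
  · exact (mr_cont _ _).pow l
  · refine Continuous.mul ?_ ?_
    · exact continuous_finsetProd _ (fun i _ =>
        Real.continuous_sqrt.comp ((mr_cont _ _).sub continuous_const))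
    · exact continuous_finsetProd _ (fun i _ =>
        Real.continuous_sqrt.comp (continuous_const.sub (mr_cont _ _)))
  · intro φ
    have h := facs hz hm φ
    refine mul_ne_zero ?_ ?_
    · exact Finset.prod_ne_zero_iff.mpr (fun i hi => (Real.sqrt_pos.mpr (h.1 i hi)).ne')
    · exact Finset.prod_ne_zero_iff.mpr (fun i hi => (Real.sqrt_pos.mpr (h.2 i hi)).ne')

lemma EE_eq {N : ℕ} {zr : ℕ → ℝ} (hz : ∀ i j, i < j → j < N → zr i < zr j) {m : ℕ}
    (hm : m + 1 < N) (l : ℕ) :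
    EE N (fun i => ((zr i : ℝ) : ℂ)) m l = ((∫ φ in (0 : ℝ)..Real.pi, Rr N zr m l φ : ℝ) : ℂ) := by
  unfold EE
  rw [← intervalIntegral.integral_ofReal]
  refine intervalIntegral.integral_congr ?_
  intro φ _
  have h := facs hz hm φ
  simp only
  rw [mid_eq]
  have e1 : ∀ i ∈ Finset.range m, csq (((mr (zr m) (zr (m + 1)) φ : ℝ) : ℂ) - ((zr i : ℝ) : ℂ)) =
      ((√(mr (zr m) (zr (m + 1)) φ - zr i) : ℝ) : ℂ) := by
    intro i hi
    rw [← csq_ofReal (h.1 i hi).le]
    push_cast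
    rfl
  have e2 : ∀ i ∈ Finset.Ico (m + 2) N,
      csq (((zr i : ℝ) : ℂ) - ((mr (zr m) (zr (m + 1)) φ : ℝ) : ℂ)) =
      ((√(zr i - mr (zr m) (zr (m + 1)) φ) : ℝ) : ℂ) := by
    intro i hi
    rw [← csq_ofReal (h.2 i hi).le]
    push_cast
    rfl
  rw [Finset.prod_congr rfl e1, Finset.prod_congr rfl e2]
  unfold Rr
  push_cast
  rfl

lemma sqrt_prod {A : Finset ℕ} {f : ℕ → ℝ} (h : ∀ i ∈ A, 0 ≤ f i) :
    √(∏ i ∈ A, f i) = ∏ i ∈ A, √(f i) := by
  classical
  induction A using Finset.induction_on with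
  | empty => simp
  | insert i A hi ih =>
    rw [Finset.prod_insert hi, Finset.prod_insert hi, Real.sqrt_mul (h i (by simp)),
      ih (fun j hj => h j (by simp [hj]))]

/-- The factorisation of `√|F|` along the path. -/
lemma sqrtF {N : ℕ} {zr : ℕ → ℝ} (hz : ∀ i j, i < j → j < N → zr i < zr j) {m : ℕ}
    (hm : m + 1 < N) (φ : ℝ) (hφ : 0 ≤ Real.sin φ) :
    √|∏ i ∈ Finset.range N, (mr (zr m) (zr (m + 1)) φ - zr i)| =
      ((∏ i ∈ Finset.range m, √(mr (zr m) (zr (m + 1)) φ - zr i)) *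
      ∏ i ∈ Finset.Ico (m + 2) N, √(zr i - mr (zr m) (zr (m + 1)) φ)) *
        ((zr (m + 1) - zr m) / 2 * Real.sin φ) := by
  have h := facs hz hm φ
  set x := mr (zr m) (zr (m + 1)) φ with hx
  have hpq : zr m < zr (m + 1) := hz m (m + 1) (by omega) hm
  rw [← Finset.prod_range_mul_prod_Ico (fun i => x - zr i) (show m + 2 ≤ N by omega),
    Finset.prod_range_succ, Finset.prod_range_succ]
  have e1 : |∏ i ∈ Finset.Ico (m + 2) N, (x - zr i)| = ∏ i ∈ Finset.Ico (m + 2) N, (zr i - x) := by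
    rw [Finset.abs_prod]
    refine Finset.prod_congr rfl fun i hi => ?_
    rw [abs_sub_comm, abs_of_pos (h.2 i hi)]
  have e2 : (x - zr m) * (x - zr (m + 1)) = -((zr (m + 1) - zr m) / 2 * Real.sin φ) ^ 2 := by
    rw [hx]
    unfold mr
    have := Real.sin_sq_add_cos_sq φ
    have h3 : Real.sin φ ^ 2 = 1 - Real.cos φ ^ 2 := by linarith
    rw [mul_pow, h3]
    ring
  have e3 : |(∏ i ∈ Finset.range m, (x - zr i)) * (x - zr m) * (x - zr (m + 1)) *
      ∏ i ∈ Finset.Ico (m + 2) N, (x - zr i)| =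
      ((∏ i ∈ Finset.range m, (x - zr i)) * ∏ i ∈ Finset.Ico (m + 2) N, (zr i - x)) *
        ((zr (m + 1) - zr m) / 2 * Real.sin φ) ^ 2 := by
    rw [abs_mul, e1, mul_assoc (∏ i ∈ Finset.range m, (x - zr i)), e2, abs_mul, abs_neg,
      abs_of_nonneg (Finset.prod_nonneg fun i hi => (h.1 i hi).le), abs_of_nonneg (sq_nonneg _)]
    ring
  rw [e3, Real.sqrt_mul, Real.sqrt_sq, Real.sqrt_mul, sqrt_prod (fun i hi => (h.1 i hi).le),
    sqrt_prod (fun i hi => (h.2 i hi).le)]
  · exact Finset.prod_nonneg fun i hi => (h.1 i hi).le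
  · exact mul_nonneg (by linarith) hφ
  · exact mul_nonneg (Finset.prod_nonneg fun i hi => (h.1 i hi).le)
      (Finset.prod_nonneg fun i hi => (h.2 i hi).le)

/-- The substitution. -/
lemma subst {N : ℕ} {zr : ℕ → ℝ} (hz : ∀ i j, i < j → j < N → zr i < zr j) {m : ℕ}
    (hm : m + 1 < N) (l : ℕ)
    (hI : IntervalIntegrable (fun x => x ^ l / √|∏ i ∈ Finset.range N, (x - zr i)|) volume
      (zr m) (zr (m + 1))) :
    ∫ φ in (0 : ℝ)..Real.pi, Rr N zr m l φ =
      ∫ x in (zr m)..(zr (m + 1)), x ^ l / √|∏ i ∈ Finset.range N, (x - zr i)| := by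
  have hpq : zr m < zr (m + 1) := hz m (m + 1) (by omega) hm
  set g : ℝ → ℝ := fun x => x ^ l / √|∏ i ∈ Finset.range N, (x - zr i)| with hg
  set f : ℝ → ℝ := mr (zr m) (zr (m + 1)) with hf
  set f' : ℝ → ℝ := fun φ => (zr (m + 1) - zr m) / 2 * Real.sin φ with hf'
  have hpi := Real.pi_pos
  have key : ∀ φ ∈ Ioo (0 : ℝ) Real.pi, (g ∘ f) φ * f' φ = Rr N zr m l φ := by
    intro φ hφ
    have hs : 0 < Real.sin φ := Real.sin_pos_of_pos_of_lt_pi hφ.1 hφ.2
    show f φ ^ l / √|∏ i ∈ Finset.range N, (f φ - zr i)| * ((zr (m + 1) - zr m) / 2 * Real.sin φ) =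
      Rr N zr m l φ
    rw [hf, sqrtF hz hm φ hs.le]
    unfold Rr
    have h1 : (zr (m + 1) - zr m) / 2 * Real.sin φ ≠ 0 := by
      have : 0 < (zr (m + 1) - zr m) / 2 * Real.sin φ := mul_pos (by linarith) hs
      exact this.ne'
    rw [div_mul_eq_mul_div, mul_div_mul_right _ _ h1]
  have hder : ∀ φ : ℝ, HasDerivAt f (f' φ) φ := by
    intro φ
    have h1 := ((Real.hasDerivAt_cos φ).const_mul ((zr (m + 1) - zr m) / 2)).const_sub
      ((zr m + zr (m + 1)) / 2)
    have h2 : -((zr (m + 1) - zr m) / 2 * -Real.sin φ) = f' φ := by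
      show -((zr (m + 1) - zr m) / 2 * -Real.sin φ) = (zr (m + 1) - zr m) / 2 * Real.sin φ
      ring
    rw [← h2]
    exact h1
  have hf0 : f 0 = zr m := by simp [hf, mr]; ring
  have hf1 : f Real.pi = zr (m + 1) := by simp [hf, mr]; ring
  have himg : f '' (uIcc 0 Real.pi) ⊆ Icc (zr m) (zr (m + 1)) := by
    rintro x ⟨φ, _, rfl⟩
    exact mr_mem hpq.le φ
  have h := intervalIntegral.integral_comp_mul_deriv''' (a := 0) (b := Real.pi) (f := f)
    (f' := f') (g := g) ?_ ?_ ?_ ?_ ?_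
  · rw [hf0, hf1] at h
    rw [← h]
    refine intervalIntegral.integral_congr_ae ?_
    have h0 : ∀ᵐ x : ℝ ∂volume, x ≠ Real.pi := by
      simp [ae_iff, measure_singleton]
    filter_upwards [h0] with φ hne hφ
    rw [uIoc_of_le hpi.le] at hφ
    exact (key φ ⟨hφ.1, lt_of_le_of_ne hφ.2 hne⟩).symm
  · exact (mr_cont _ _).continuousOn
  · intro φ _
    exact (hder φ).hasDerivWithinAt
  · intro x hx
    obtain ⟨φ, hφ, rfl⟩ := hx
    rw [min_eq_left hpi.le, max_eq_right hpi.le] at hφ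
    have hs : 0 < Real.sin φ := Real.sin_pos_of_pos_of_lt_pi hφ.1 hφ.2
    refine ContinuousAt.continuousWithinAt ?_
    refine ContinuousAt.div (by fun_prop) ?_ ?_
    · refine Real.continuous_sqrt.continuousAt.comp ?_
      refine continuous_abs.continuousAt.comp ?_
      exact (continuous_finsetProd _ (fun i _ => by fun_prop)).continuousAt
    · rw [hf, sqrtF hz hm φ hs.le]
      have h2 := facs hz hm φ
      refine mul_ne_zero (mul_ne_zero ?_ ?_) (mul_pos (by linarith) hs).ne'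
      · exact Finset.prod_ne_zero_iff.mpr (fun i hi => (Real.sqrt_pos.mpr (h2.1 i hi)).ne')
      · exact Finset.prod_ne_zero_iff.mpr (fun i hi => (Real.sqrt_pos.mpr (h2.2 i hi)).ne')
  · have h3 : IntegrableOn g (Icc (zr m) (zr (m + 1))) := by
      rw [integrableOn_Icc_iff_integrableOn_Ioc]
      exact (intervalIntegrable_iff_integrableOn_Ioc_of_le hpq.le).mp hI
    exact h3.mono_set himg
  · rw [uIcc_of_le hpi.le, integrableOn_Icc_iff_integrableOn_Ioo]
    have h4 : IntegrableOn (Rr N zr m l) (Ioo 0 Real.pi) :=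
      ((Rr_cont hz hm l).continuousOn.integrableOn_Icc).mono_set Ioo_subset_Icc_self
    refine h4.congr_fun (fun φ hφ => (key φ hφ).symm) measurableSet_Ioo

/-- The real roots. -/
noncomputable def rts (g : ℕ) (a : ℕ → ℝ) (t : ℝ) (i : ℕ) : ℝ := if i < 2 * g then a i else t

lemma rts_lt {g : ℕ} {a : ℕ → ℝ} {t : ℝ} (hg : 0 < g) (ha : StrictMono a)
    (ht : a (2 * g - 1) < t) : ∀ i j, i < j → j < 2 * g + 1 → rts g a t i < rts g a t j := by
  intro i j hij hj
  unfold rts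
  rw [if_pos (show i < 2 * g by omega)]
  by_cases h : j < 2 * g
  · rw [if_pos h]
    exact ha hij
  · rw [if_neg h]
    exact lt_of_le_of_lt (ha.monotone (by omega)) ht

lemma rts_prod {g : ℕ} {a : ℕ → ℝ} {t : ℝ} (x : ℝ) :
    ∏ i ∈ Finset.range (2 * g + 1), (x - rts g a t i) = (HGP.Fpol g a t).eval x := by
  unfold HGP.Fpol
  rw [Finset.prod_range_succ, Polynomial.eval_mul, Polynomial.eval_prod]
  simp only [Polynomial.eval_sub, Polynomial.eval_X, Polynomial.eval_C]
  congr 1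
  · refine Finset.prod_congr rfl fun i hi => ?_
    rw [Finset.mem_range] at hi
    unfold rts
    rw [if_pos hi]
  · unfold rts
    rw [if_neg (lt_irrefl _)]

lemma rts_complex (g : ℕ) (a : ℕ → ℝ) (t : ℝ) :
    (fun i => if i < 2 * g then ((a i : ℝ) : ℂ) else (t : ℂ)) =
      fun i => ((rts g a t i : ℝ) : ℂ) := by
  funext i
  unfold rts
  split_ifs <;> rfl

lemma EE_per {g : ℕ} {a : ℕ → ℝ} {t : ℝ} (hg : 0 < g) (ha : StrictMono a)
    (ht : a (2 * g - 1) < t) {m : ℕ} (hm : m < 2 * g) (l : ℕ) :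
    EE (2 * g + 1) (fun i => ((rts g a t i : ℝ) : ℂ)) m l =
      ((HGP.per g a t m (Polynomial.X ^ l) : ℝ) : ℂ) := by
  have h1 : rts g a t m = a m := by unfold rts; rw [if_pos hm]
  have h2 : rts g a t (m + 1) = HGP.rend g a t m := by unfold rts HGP.rend; rfl
  rw [EE_eq (rts_lt hg ha ht) (by omega) l, subst (rts_lt hg ha ht) (by omega) l]
  · unfold HGP.per
    rw [h1, h2]
    congr 1
    refine intervalIntegral.integral_congr ?_
    intro x _
    simp only
    rw [rts_prod]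
    simp
  · rw [h1, h2]
    have h3 := (HGP.PLINKX.integ HGP.intg_proof g a hg ha t ht m hm).continuousOn_mul
      (g := fun x => x ^ l) (continuous_pow l).continuousOn
    refine h3.congr ?_
    intro x _
    simp only
    rw [rts_prod]
    ring

lemma polz_eq (g : ℕ) (a : ℕ → ℝ) (t : ℝ) : polz g (fun i => ((rts g a t i : ℝ) : ℂ)) =
    (HGP.Fpol g a t).map Complex.ofRealHom := by
  unfold polz HGP.Fpol
  rw [Finset.prod_range_succ, Polynomial.map_mul, Polynomial.map_prod]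
  simp only [Polynomial.map_sub, Polynomial.map_X, Polynomial.map_C]
  congr 1
  · refine Finset.prod_congr rfl fun i hi => ?_
    rw [Finset.mem_range] at hi
    unfold rts
    rw [if_pos hi]
    rfl
  · unfold rts
    rw [if_neg (lt_irrefl _)]
    rfl

lemma num_map (g : ℕ) (a : ℕ → ℝ) (t : ℝ) (k : Ix g) :
    num g ((HGP.Fpol g a t).map Complex.ofRealHom) k =
      (HGP.num g a t k).map Complex.ofRealHom := by
  rcases k with j | j
  · show (Polynomial.X ^ (j : ℕ) : Polynomial ℂ) =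
      (Polynomial.X ^ (j : ℕ) : Polynomial ℝ).map Complex.ofRealHom
    simp
  · show (∑ n ∈ Finset.Ico (2 * (j : ℕ) + 3) (2 * g + 2),
      Polynomial.C (((n : ℂ) - 2 * (j : ℕ) - 2) / 4 *
        ((HGP.Fpol g a t).map Complex.ofRealHom).coeff n) * Polynomial.X ^ (n - 2 - (j : ℕ))) =
      (∑ n ∈ Finset.Ico (2 * (j : ℕ) + 3) (2 * g + 2),
      Polynomial.C (((n : ℝ) - 2 * (j : ℕ) - 2) / 4 * (HGP.Fpol g a t).coeff n) *
        Polynomial.X ^ (n - 2 - (j : ℕ))).map Complex.ofRealHom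
    rw [Polynomial.map_sum]
    refine Finset.sum_congr rfl fun n _ => ?_
    rw [Polynomial.map_mul, Polynomial.map_pow, Polynomial.map_X, Polynomial.map_C,
      Polynomial.coeff_map]
    congr 2
    simp

lemma coeff_th (g : ℕ) (a : ℕ → ℝ) (t : ℝ) (k : Ix g) {l : ℕ} (hl : l < 2 * g) :
    (num g ((HGP.Fpol g a t).map Complex.ofRealHom) k).coeff l =
      ((HGP.PLINKX.th g a k l t : ℝ) : ℂ) := by
  rw [num_map, Polynomial.coeff_map, HGP.PLINKX.num_eq, Polynomial.finsetSum_coeff]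
  rw [Finset.sum_eq_single_of_mem l (Finset.mem_range.mpr hl)]
  · simp
  · intro b _ hb
    rw [Polynomial.coeff_C_mul_X_pow, if_neg (fun h => hb h.symm)]

/-- The sum over the powers. -/
lemma sum_l {g : ℕ} {a : ℕ → ℝ} {t : ℝ} (hg : 0 < g) (ha : StrictMono a)
    (ht : a (2 * g - 1) < t) {m : ℕ} (hm : m < 2 * g) (k : Ix g) :
    ∑ l : Fin (2 * g), (num g ((HGP.Fpol g a t).map Complex.ofRealHom) k).coeff (l : ℕ) *
      EE (2 * g + 1) (fun i => ((rts g a t i : ℝ) : ℂ)) m l =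
      ((HGP.per g a t m (HGP.num g a t k) : ℝ) : ℂ) := by
  rw [HGP.PLINKX.per_num HGP.intg_proof g a hg ha t ht m hm k]
  push_cast
  rw [← Fin.sum_univ_eq_sum_range (fun l => ((HGP.PLINKX.th g a k l t : ℝ) : ℂ) *
    ((HGP.per g a t m (Polynomial.X ^ l) : ℝ) : ℂ)) (2 * g)]
  refine Finset.sum_congr rfl fun l _ => ?_
  rw [coeff_th g a t k l.2, EE_per hg ha ht hm]

end Pool.Agent.GPH.RZREAL

namespace Pool.Agent.GPH.RZREAL

theorem thm : Stmt_RZReal := by
  intro g a hg ha t ht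
  rw [rts_complex]
  unfold Mz
  rw [polz_eq]
  set f := (HGP.Fpol g a t).map Complex.ofRealHom with hf
  set z : ℕ → ℂ := fun i => ((rts g a t i : ℝ) : ℂ) with hz
  have entry : ∀ (k c : Ix g), perM g f (refP g z) k c =
      ∑ m : Fin (2 * g), Tm g c m * (2 * Complex.I ^ (m : ℕ) *
        ((HGP.per g a t m (HGP.num g a t k) : ℝ) : ℂ)) := by
    intro k c
    unfold perM
    rw [Matrix.mul_apply]
    refine Finset.sum_congr rfl fun m _ => ?_
    rw [Matrix.transpose_apply, mul_comm, Matrix.mul_apply, ← sum_l hg ha ht m.2 k]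
    congr 1
    rw [Finset.mul_sum]
    refine Finset.sum_congr rfl fun l _ => ?_
    simp only [Nm, refP, Matrix.of_apply, Matrix.transpose_apply]
    ring
  ext k c
  rw [entry k c]
  rcases c with i | i
  · have hi := i.2
    rw [Finset.sum_eq_single (⟨2 * (i : ℕ), by omega⟩ : Fin (2 * g))]
    · simp only [Tm, Matrix.of_apply, if_true, one_mul, HGP.Per]
      rw [pow_mul, Complex.I_sq]
    · intro m _ hm
      have : ¬ ((m : ℕ) = 2 * (i : ℕ)) := fun h => hm (Fin.ext h)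
      simp only [Tm, Matrix.of_apply, if_neg this, zero_mul]
    · intro h
      exact absurd (Finset.mem_univ _) h
  · simp only [Tm, Matrix.of_apply, HGP.Per]
    rw [Finset.mul_sum]
    rw [Fin.sum_univ_eq_sum_range (fun m => (if m % 2 = 1 ∧ 2 * (i : ℕ) < m then (1 : ℂ) else 0) *
      (2 * Complex.I ^ m * ((HGP.per g a t m (HGP.num g a t k) : ℝ) : ℂ))) (2 * g)]
    symm
    refine Finset.sum_bij_ne_zero (fun m _ _ => 2 * m + 1) ?_ ?_ ?_ ?_
    · intro m hm _
      rw [Finset.mem_Ico] at hm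
      rw [Finset.mem_range]
      omega
    · intro m _ _ m' _ _ h
      omega
    · intro m hm hne
      rw [Finset.mem_range] at hm
      by_cases h : m % 2 = 1 ∧ 2 * (i : ℕ) < m
      · rw [if_pos h] at hne
        have h2 : m = 2 * (m / 2) + 1 := by omega
        refine ⟨m / 2, ?_, ?_, h2.symm⟩
        · rw [Finset.mem_Ico]
          omega
        · intro h3
          apply hne
          rw [one_mul]
          rw [h2, pow_succ, pow_mul, Complex.I_sq]
          rw [← h3]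
          ring
      · rw [if_neg h, zero_mul] at hne
        exact absurd rfl hne
    · intro m hm _
      rw [Finset.mem_Ico] at hm
      rw [if_pos ⟨by omega, by omega⟩, one_mul, pow_succ, pow_mul, Complex.I_sq]
      ring

end Pool.Agent.GPH.RZREAL
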