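import Pool.Agent.GPH.IIStmts

/-!
# GPH part II: module CDET
-/

open scoped BigOperators Topology
open Metric Set

namespace Pool.Agent.GPH

namespace CDetL

open Polynomial

/-- the polynomial with coefficient vector `v` -/
noncomputable def pol {m : ℕ} (v : Fin m → ℂ) : Polynomial ℂ :=
  ∑ l : Fin m, C (v l) * X ^ (l : ℕ)

lemma pol_degree {m : ℕ} (v : Fin m → ℂ) : (pol v).degree < (m : WithBot ℕ) := by
  exact Polynomial.degree_sum_fin_lt v

lemma pol_coeff {m : ℕ} (v : Fin m → ℂ) (l : Fin m) : (pol v).coeff l = v l := by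
  unfold pol
  rw [Polynomial.finsetSum_coeff, Finset.sum_eq_single l]
  · simp
  · intro b _ hb
    rw [Polynomial.coeff_C_mul, Polynomial.coeff_X_pow, if_neg, mul_zero]
    intro h; exact hb (Fin.ext h.symm)
  · intro h; exact absurd (Finset.mem_univ l) h

lemma pol_of_degree {m : ℕ} (q : Polynomial ℂ) (hq : q.degree < (m : WithBot ℕ)) :
    pol (fun l : Fin m => q.coeff l) = q := by
  ext n
  by_cases hn : n < m
  · exact pol_coeff _ (⟨n, hn⟩ : Fin m)
  · have h1 : (pol (fun l : Fin m => q.coeff l)).coeff n = 0 :=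
      Polynomial.coeff_eq_zero_of_degree_lt ((pol_degree _).trans_le (by exact_mod_cast not_lt.mp hn))
    have h2 : q.coeff n = 0 :=
      Polynomial.coeff_eq_zero_of_degree_lt (hq.trans_le (by exact_mod_cast not_lt.mp hn))
    rw [h1, h2]

lemma pol_inj {m : ℕ} {v : Fin m → ℂ} (h : pol v = 0) : v = 0 := by
  funext l
  rw [← pol_coeff v l, h]; simp

lemma m1_ne (m : ℕ) : ((m : ℂ) + 1) ≠ 0 := by exact_mod_cast Nat.succ_ne_zero m

lemma g0_eq {m : ℕ} (c : Fin m → ℂ) : g0 c = X ^ m + pol (fun k : Fin m =>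
    c k * (((k : ℕ) : ℂ) + 1) / ((m : ℂ) + 1)) := by
  have hm := m1_ne m
  unfold g0 f0 pol
  rw [derivative_add, derivative_X_pow, derivative_sum, mul_add, Finset.mul_sum]
  congr 1
  · rw [Nat.add_sub_cancel, ← mul_assoc, ← C_mul]
    have : (algebraMap ℚ ℂ) (1 / ((m : ℚ) + 1)) * ((m + 1 : ℕ) : ℂ) = 1 := by
      rw [eq_ratCast]
      push_cast
      field_simp
    rw [this, C_1, one_mul]
  · refine Finset.sum_congr rfl (fun k _ => ?_)
    rw [derivative_C_mul_X_pow, Nat.add_sub_cancel, ← mul_assoc, ← C_mul]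
    congr 2
    rw [eq_ratCast]
    push_cast
    field_simp

lemma g0_monic {m : ℕ} (c : Fin m → ℂ) : (g0 c).Monic := by
  rw [g0_eq]
  exact monic_X_pow_add (pol_degree _)

lemma g0_degree {m : ℕ} (c : Fin m → ℂ) : (g0 c).degree = m := by
  rw [g0_eq, degree_add_eq_left_of_degree_lt, degree_X_pow]
  rw [degree_X_pow]
  exact pol_degree _

lemma deriv_eq {m : ℕ} (c : Fin m → ℂ) : derivative (f0 c) = C ((m : ℂ) + 1) * g0 c := by
  have hm := m1_ne m
  unfold g0
  rw [← mul_assoc, ← C_mul]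
  have : ((m : ℂ) + 1) * (algebraMap ℚ ℂ) (1 / ((m : ℚ) + 1)) = 1 := by
    rw [eq_ratCast]
    push_cast
    field_simp
  rw [this, C_1, one_mul]

/-- `Cop c` is the multiplication by `f0 c`. -/
lemma pol_mulVec {m : ℕ} (c v : Fin m → ℂ) :
    pol ((Cop c).mulVec v) = (pol v * f0 c) %ₘ g0 c := by
  have h1 : pol v * f0 c = ∑ k : Fin m, (v k) • (X ^ (k : ℕ) * f0 c) := by
    unfold pol
    rw [Finset.sum_mul]
    refine Finset.sum_congr rfl (fun k _ => ?_)
    rw [smul_eq_C_mul, mul_assoc]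
  have h2 : (pol v * f0 c) %ₘ g0 c = ∑ k : Fin m, (v k) • ((X ^ (k : ℕ) * f0 c) %ₘ g0 c) := by
    rw [h1]
    have := map_sum (modByMonicHom (g0 c)) (fun k : Fin m => (v k) • (X ^ (k : ℕ) * f0 c))
      Finset.univ
    simp only [modByMonicHom_apply, map_smul] at this
    rw [this]
  rw [← pol_of_degree (m := m) ((pol v * f0 c) %ₘ g0 c)
    (by rw [← g0_degree c]; exact degree_modByMonic_lt _ (g0_monic c))]
  congr 1
  funext l
  rw [h2, finsetSum_coeff]
  unfold Matrix.mulVec dotProduct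
  refine Finset.sum_congr rfl (fun k _ => ?_)
  rw [coeff_smul, smul_eq_mul, mul_comm]
  rfl

lemma pol_add {m : ℕ} (v w : Fin m → ℂ) : pol (v + w) = pol v + pol w := by
  unfold pol
  rw [← Finset.sum_add_distrib]
  refine Finset.sum_congr rfl (fun k _ => ?_)
  rw [Pi.add_apply, C_add, add_mul]

lemma pol_smul {m : ℕ} (s : ℂ) (v : Fin m → ℂ) : pol (s • v) = C s * pol v := by
  unfold pol
  rw [Finset.mul_sum]
  refine Finset.sum_congr rfl (fun k _ => ?_)
  rw [Pi.smul_apply, smul_eq_mul, C_mul, mul_assoc]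

lemma kernel_iff {m : ℕ} (c v : Fin m → ℂ) (s : ℂ) :
    (s • (1 : Matrix (Fin m) (Fin m) ℂ) + Cop c).mulVec v = 0 ↔
      g0 c ∣ pol v * (f0 c + C s) := by
  have h : pol ((s • (1 : Matrix (Fin m) (Fin m) ℂ) + Cop c).mulVec v) =
      (pol v * (f0 c + C s)) %ₘ g0 c := by
    rw [Matrix.add_mulVec, Matrix.smul_mulVec, Matrix.one_mulVec, pol_add, pol_smul, pol_mulVec,
      mul_add, add_modByMonic, add_comm]
    congr 1
    rw [mul_comm]
    symm
    rw [modByMonic_eq_self_iff (g0_monic c), g0_degree, mul_comm]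
    rw [← pol_smul]
    exact pol_degree _
  rw [← modByMonic_eq_zero_iff_dvd (g0_monic c), ← h]
  constructor
  · intro h0; rw [h0]; simp [pol]
  · intro h0; exact pol_inj h0

end CDetL

open CDetL Polynomial in
theorem cdet_proof : Stmt_CDet := by
  intro m c s
  have hm := m1_ne m
  have hder : derivative (f0 c + C s) = C ((m : ℂ) + 1) * g0 c := by
    rw [derivative_add, derivative_C, add_zero, deriv_eq]
  have hu : IsUnit (C ((m : ℂ) + 1)) := isUnit_C.mpr (isUnit_iff_ne_zero.mpr hm)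
  have hsep : (f0 c + C s).Separable ↔ IsCoprime (f0 c + C s) (g0 c) := by
    rw [separable_def, hder]
    exact isCoprime_mul_unit_left_right hu _ _
  rw [hsep]
  constructor
  · intro hdet
    by_contra hnc
    apply hdet
    rw [← Matrix.exists_mulVec_eq_zero_iff]
    have hgcd : ¬ IsUnit (EuclideanDomain.gcd (f0 c + C s) (g0 c)) := by
      rwa [EuclideanDomain.gcd_isUnit_iff]
    obtain ⟨q, hq⟩ := EuclideanDomain.gcd_dvd_right (f0 c + C s) (g0 c)
    obtain ⟨e, he⟩ := EuclideanDomain.gcd_dvd_left (f0 c + C s) (g0 c)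
    set d := EuclideanDomain.gcd (f0 c + C s) (g0 c) with hd
    have hg0 : g0 c ≠ 0 := (g0_monic c).ne_zero
    have hq0 : q ≠ 0 := by
      rintro rfl; rw [mul_zero] at hq; exact hg0 hq
    have hd0 : d ≠ 0 := by
      intro h; rw [h, zero_mul] at hq; exact hg0 hq
    have hdq : q.degree < (m : WithBot ℕ) := by
      have h1 : d.natDegree + q.natDegree = m := by
        rw [← natDegree_mul hd0 hq0, ← hq]
        exact natDegree_eq_of_degree_eq_some (g0_degree c)
      have h2 : d.natDegree ≠ 0 := by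
        intro h0
        apply hgcd
        rw [eq_C_of_natDegree_eq_zero h0]
        refine isUnit_C.mpr (isUnit_iff_ne_zero.mpr ?_)
        intro h3
        rw [eq_C_of_natDegree_eq_zero h0, h3, C_0] at hd0
        exact hd0 rfl
      rw [degree_eq_natDegree hq0]
      exact_mod_cast (by omega : q.natDegree < m)
    refine ⟨fun l : Fin m => q.coeff l, ?_, ?_⟩
    · intro h0
      apply hq0
      rw [← pol_of_degree q hdq]
      rw [h0]; simp [pol]
    · rw [kernel_iff, pol_of_degree q hdq]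
      refine ⟨e, ?_⟩
      rw [hq]
      conv_lhs => rw [he]
      ring
  · intro hc hdet
    rw [← Matrix.exists_mulVec_eq_zero_iff] at hdet
    obtain ⟨v, hv, h0⟩ := hdet
    rw [kernel_iff] at h0
    have h1 : g0 c ∣ pol v := hc.symm.dvd_of_dvd_mul_right h0
    apply hv
    apply pol_inj
    by_contra h2
    have h3 := degree_le_of_dvd h1 h2
    rw [g0_degree] at h3
    exact absurd (pol_degree v) (not_lt.mpr h3)

end Pool.Agent.GPH
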