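import Pool.Agent.HGP.Stmts

/-!
# GPH, part II: periods on the slices `f = f₀ + s`, definitions

Everything is formulated entrywise, so that no norm on matrices is needed in the statements.
-/

open scoped BigOperators Topology
open Metric Set

namespace Pool.Agent.GPH

noncomputable section

/-! ## Linear differential equations -/

/-- `y' = L y` on `U` (vectors). -/
def Sol {κ : Type} [Fintype κ] (U : Set ℂ) (L : ℂ → Matrix κ κ ℂ) (y : ℂ → κ → ℂ) : Prop :=
  ∀ s ∈ U, ∀ k, HasDerivAt (fun z => y z k) ((L s).mulVec (y s) k) s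

/-- `W' = B W` on `U` (matrices). -/
def MSol {κ ι : Type} [Fintype κ] (U : Set ℂ) (B : ℂ → Matrix κ κ ℂ) (W : ℂ → Matrix κ ι ℂ) :
    Prop :=
  ∀ s ∈ U, ∀ k j, HasDerivAt (fun z => W z k j) ((B s * W s) k j) s

/-- The entries of the matrix are holomorphic on `U`. -/
def HolM {κ ι : Type} (U : Set ℂ) (L : ℂ → Matrix κ ι ℂ) : Prop :=
  ∀ k j, DifferentiableOn ℂ (fun z => L z k j) U

/-- The plane without the half lines which start at the points `S i` and point away from `b`. -/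
def Cut {p : ℕ} (b : ℂ) (S : Fin p → ℂ) : Set ℂ :=
  {z | ∀ i, ∀ t : ℝ, 1 ≤ t → z ≠ b + t * (S i - b)}

/-- The points `S i` are different from `b` and seen from `b` in pairwise different directions. -/
def GenPos {p : ℕ} (b : ℂ) (S : Fin p → ℂ) : Prop :=
  (∀ i, S i ≠ b) ∧ ∀ i j, i ≠ j → ∀ t : ℝ, 0 < t → S j - b ≠ t * (S i - b)

/-- The plane without the points `S i`. -/
def Off {p : ℕ} (S : Fin p → ℂ) : Set ℂ := {z | ∀ i, z ≠ S i}

/-- The rank one matrix `x ⊗ N x` (nilpotent and in the Lie algebra of `Sp (N)` if `N` is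
antisymmetric). -/
def res {m : ℕ} (N : Matrix (Fin m) (Fin m) ℂ) (x : Fin m → ℂ) : Matrix (Fin m) (Fin m) ℂ :=
  Matrix.vecMulVec x (N.mulVec x)

/-- The matrix `∑ i, (s - S i)⁻¹ • (x i ⊗ N x i)` of a Fuchsian system. -/
def Bf {m p : ℕ} (N : Matrix (Fin m) (Fin m) ℂ) (S : Fin p → ℂ) (x : Fin p → Fin m → ℂ)
    (s : ℂ) : Matrix (Fin m) (Fin m) ℂ := ∑ i, (s - S i)⁻¹ • res N (x i)

/-- A Fuchsian system `W' = (∑ i, (s - S i)⁻¹ • (x i ⊗ N x i)) W`, irreducible, with small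
exponents at infinity. -/
structure Fuchs {m p : ℕ} (N : Matrix (Fin m) (Fin m) ℂ) (S : Fin p → ℂ)
    (x : Fin p → Fin m → ℂ) : Prop where
  inj : Function.Injective S
  anti : N.transpose = -N
  det : N.det ≠ 0
  tri : ∀ i j, i < j → (∑ k, res N (x k)) i j = 0
  dia : ∀ i, ‖(∑ k, res N (x k)) i i‖ < 1 / 2
  comm : ∀ Z : Matrix (Fin m) (Fin m) ℂ, (∀ k, Z * res N (x k) = res N (x k) * Z) →
    ∃ c : ℂ, Z = c • 1

/-- `Φ` is a fundamental matrix on the cut plane, normalised at `b`. -/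
structure Fund {m p : ℕ} (N : Matrix (Fin m) (Fin m) ℂ) (S : Fin p → ℂ)
    (x : Fin p → Fin m → ℂ) (b : ℂ) (Φ : ℂ → Matrix (Fin m) (Fin m) ℂ) : Prop where
  sol : MSol (Cut b S) (Bf N S x) Φ
  one : Φ b = 1
  iso : ∀ s ∈ Cut b S, (Φ s).transpose * N * Φ s = N

/-- The branch of the logarithm on the plane cut along the positive real half line, with
`0 < im < 2 π`. -/
def plog (t : ℂ) : ℂ := Complex.log (-t) + Real.pi * Complex.I

/-- The local form of `Φ` at the point `S i`: on a small disc without the cut,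
`Φ = H (1 + plog t • (v ⊗ N v))`, where `s = S i + t (S i - b)`. -/
def LocForm {m p : ℕ} (N : Matrix (Fin m) (Fin m) ℂ) (S : Fin p → ℂ) (b : ℂ)
    (Φ : ℂ → Matrix (Fin m) (Fin m) ℂ) (i : Fin p) (v : Fin m → ℂ) : Prop :=
  ∃ (r : ℝ) (H : ℂ → Matrix (Fin m) (Fin m) ℂ), 0 < r ∧ HolM (ball 0 r) H ∧
    (∀ t ∈ ball (0 : ℂ) r, (H t).det ≠ 0) ∧
    ∀ t ∈ ball (0 : ℂ) r, (∀ u : ℝ, 0 ≤ u → t ≠ u) → S i + t * (S i - b) ∈ Cut b S ∧
      Φ (S i + t * (S i - b)) = H t * (1 + plog t • res N v)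

/-- The transvections in the directions `v i`. -/
def TV {m p : ℕ} (N : Matrix (Fin m) (Fin m) ℂ) (v : Fin p → Fin m → ℂ) :
    Set (Matrix (Fin m) (Fin m) ℂ) := {M | ∃ (i : Fin p) (c : ℂ), M = 1 + c • res N (v i)}

/-- The data of a system `(s + A) W' = E W` of Okubo type with horizontal form `N`. -/
structure Okubo {m : ℕ} (A E N : Matrix (Fin m) (Fin m) ℂ) : Prop where
  eig : ∃ (κ : Fin m → ℂ) (P : Matrix (Fin m) (Fin m) ℂ), Function.Injective κ ∧ P.det ≠ 0 ∧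
    A * P = P * Matrix.diagonal κ
  anti : N.transpose = -N
  det : N.det ≠ 0
  hor : ∀ s : ℂ, (s • (1 : Matrix (Fin m) (Fin m) ℂ) + A).det ≠ 0 →
    ((s • (1 : Matrix (Fin m) (Fin m) ℂ) + A)⁻¹ * E).transpose * N +
      N * ((s • (1 : Matrix (Fin m) (Fin m) ℂ) + A)⁻¹ * E) = 0
  tri : ∀ i j, i < j → E i j = 0
  dia : ∀ i, E i i ≠ 0 ∧ ‖E i i‖ < 1 / 2
  comm : ∀ Z : Matrix (Fin m) (Fin m) ℂ, Z * A = A * Z → Z * E = E * Z → ∃ c : ℂ, Z = c • 1

/-! ## The slices -/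

/-- The polynomial `X ^ (m + 1) + ∑ k, c k * X ^ (k + 1)` (no constant coefficient). -/
def f0 {R : Type} [CommRing R] {m : ℕ} (c : Fin m → R) : Polynomial R :=
  Polynomial.X ^ (m + 1) + ∑ k : Fin m, Polynomial.C (c k) * Polynomial.X ^ ((k : ℕ) + 1)

/-- The monic polynomial `f₀' / (m + 1)`. -/
def g0 {R : Type} [CommRing R] [Algebra ℚ R] {m : ℕ} (c : Fin m → R) : Polynomial R :=
  Polynomial.C (algebraMap ℚ R (1 / ((m : ℚ) + 1))) * Polynomial.derivative (f0 c)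

/-- The matrix of the multiplication by `f₀` modulo `f₀'`: column `k` = coefficients of the
remainder of `X ^ k * f₀`. -/
def Cop {R : Type} [CommRing R] [Algebra ℚ R] {m : ℕ} (c : Fin m → R) :
    Matrix (Fin m) (Fin m) R :=
  Matrix.of fun l k => ((Polynomial.X ^ (k : ℕ) * f0 c) %ₘ g0 c).coeff l

/-- Column `k` = coefficients of `u' - X ^ k / 2`, where `u` is the quotient of `X ^ k * f₀` by
`f₀'`. -/
def Dop {R : Type} [CommRing R] [Algebra ℚ R] {m : ℕ} (c : Fin m → R) :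
    Matrix (Fin m) (Fin m) R :=
  Matrix.of fun l k => (Polynomial.C (algebraMap ℚ R (1 / ((m : ℚ) + 1))) *
      Polynomial.derivative ((Polynomial.X ^ (k : ℕ) * f0 c) /ₘ g0 c) -
    Polynomial.C (algebraMap ℚ R (1 / 2)) * Polynomial.X ^ (k : ℕ)).coeff l

/-- The determinant of the matrix of the traces of `Cop c ^ (i + j)`: it does not vanish iff the
critical values of `f₀` are distinct. -/
def P2 {R : Type} [CommRing R] [Algebra ℚ R] {m : ℕ} (c : Fin m → R) : R :=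
  (Matrix.of fun i j : Fin m => (Cop c ^ ((i : ℕ) + (j : ℕ))).trace).det

end

end Pool.Agent.GPH
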