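import Pool.Agent.GPH.IIStmts

/-!
# GPH part II: module CEIG
-/

open scoped BigOperators Topology
open Metric Set

namespace Pool.Agent.GPH

namespace CEigL

open Polynomial Matrix

/-- a nilpotent matrix has trace zero -/
lemma trace_nilp {m : ℕ} (A : Matrix (Fin m) (Fin m) ℂ) (h : IsNilpotent A) : A.trace = 0 := by
  have := Matrix.isNilpotent_trace_of_isNilpotent h
  exact this.eq_zero

/-- if the Hankel matrix of the traces is invertible, the characteristic polynomial has
distinct roots. -/
lemma roots_card {m : ℕ} (A : Matrix (Fin m) (Fin m) ℂ)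
    (h : (Matrix.of fun i j : Fin m => (A ^ ((i : ℕ) + (j : ℕ))).trace).det ≠ 0) :
    A.charpoly.roots.toFinset.card = m := by
  by_contra hne
  have hle : A.charpoly.roots.toFinset.card ≤ m := by
    refine (Multiset.toFinset_card_le _).trans ?_
    refine (Polynomial.card_roots' _).trans ?_
    rw [Matrix.charpoly_natDegree_eq_dim, Fintype.card_fin]
  have hlt : A.charpoly.roots.toFinset.card < m := lt_of_le_of_ne hle hne
  set q : Polynomial ℂ := ∏ κ ∈ A.charpoly.roots.toFinset, (X - C κ) with hq
  have hqm : q.Monic := monic_prod_of_monic _ _ (fun κ _ => monic_X_sub_C κ)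
  have hqd : q.natDegree = A.charpoly.roots.toFinset.card := by
    rw [hq, natDegree_prod_of_monic _ _ (fun κ _ => monic_X_sub_C κ)]
    simp
  have hdvd : A.charpoly ∣ q ^ m := by
    have hsp : A.charpoly.Splits := IsAlgClosed.splits _
    have h1 : A.charpoly = (A.charpoly.roots.map (fun a => X - C a)).prod := by
      have := hsp.eq_prod_roots
      rw [A.charpoly_monic.leadingCoeff, C_1, one_mul] at this
      exact this
    rw [h1, Finset.prod_multiset_map_count, hq, ← Finset.prod_pow]
    refine Finset.prod_dvd_prod_of_dvd _ _ (fun κ _ => ?_)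
    refine pow_dvd_pow _ ?_
    refine (Multiset.count_le_card _ _).trans ?_
    refine (Polynomial.card_roots' _).trans ?_
    rw [Matrix.charpoly_natDegree_eq_dim, Fintype.card_fin]
  have hnil : IsNilpotent (aeval A q) := by
    refine ⟨m, ?_⟩
    rw [← map_pow]
    obtain ⟨e, he⟩ := hdvd
    rw [he, map_mul, Matrix.aeval_self_charpoly, zero_mul]
  apply h
  rw [← Matrix.exists_mulVec_eq_zero_iff]
  refine ⟨fun j : Fin m => q.coeff j, ?_, ?_⟩
  · intro h0
    have h1 := congrFun h0 ⟨A.charpoly.roots.toFinset.card, hlt⟩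
    simp only [Pi.zero_apply] at h1
    rw [← hqd] at h1
    exact hqm.ne_zero (leadingCoeff_eq_zero.mp h1)
  · funext i
    have h1 : (A ^ (i : ℕ) * aeval A q).trace = 0 := by
      apply trace_nilp
      have hc : Commute (A ^ (i : ℕ)) (aeval A q) := by
        have : A ^ (i : ℕ) = aeval A ((X : Polynomial ℂ) ^ (i : ℕ)) := by simp
        rw [this]
        show _ * _ = _ * _
        rw [← map_mul, ← map_mul, mul_comm]
      exact hc.isNilpotent_mul_left hnil
    have h2 : aeval A q = ∑ j : Fin m, q.coeff j • A ^ (j : ℕ) := by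
      rw [aeval_eq_sum_range' (show q.natDegree < m by omega), Finset.sum_range]
    rw [h2, Finset.mul_sum, Matrix.trace_sum] at h1
    simp only [Matrix.mulVec, dotProduct, Matrix.of_apply, Pi.zero_apply]
    rw [← h1]
    refine Finset.sum_congr rfl (fun j _ => ?_)
    rw [Matrix.mul_smul, Matrix.trace_smul, smul_eq_mul, ← pow_add, mul_comm]

end CEigL

open CEigL Matrix in
theorem ceig_proof : Stmt_CEig := by
  intro m c h
  have hcard := roots_card (Cop c) h
  set S := (Cop c).charpoly.roots.toFinset with hS
  let e : Fin m ≃ S := (Fintype.equivFinOfCardEq (by simpa using hcard)).symm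
  have hroot : ∀ i : Fin m, (((e i : ℂ)) • (1 : Matrix (Fin m) (Fin m) ℂ) -
      (Cop c).transpose).det = 0 := by
    intro i
    have h1 : (e i : ℂ) ∈ (Cop c).charpoly.roots.toFinset := (e i).2
    rw [Multiset.mem_toFinset, Polynomial.mem_roots (Cop c).charpoly_monic.ne_zero,
      Polynomial.IsRoot, Matrix.eval_charpoly] at h1
    rw [← Matrix.det_transpose, Matrix.transpose_sub, Matrix.transpose_transpose,
      Matrix.transpose_smul, Matrix.transpose_one]
    rw [← h1]
    congr 1
    ext a b
    simp [Matrix.scalar_apply, Matrix.smul_apply, Matrix.one_apply, Matrix.diagonal_apply]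
  have hv : ∀ i : Fin m, ∃ v : Fin m → ℂ, v ≠ 0 ∧
      (Cop c).transpose.mulVec v = (e i : ℂ) • v := by
    intro i
    obtain ⟨v, hv, h0⟩ := Matrix.exists_mulVec_eq_zero_iff.mpr (hroot i)
    refine ⟨v, hv, ?_⟩
    rw [Matrix.sub_mulVec, Matrix.smul_mulVec, Matrix.one_mulVec, sub_eq_zero] at h0
    exact h0.symm
  choose v hv0 hv using hv
  have hinj : Function.Injective (fun i : Fin m => (e i : ℂ)) := by
    intro i j hij
    exact e.injective (Subtype.ext hij)
  refine ⟨fun i => (e i : ℂ), Matrix.of (fun a i => v i a), hinj, ?_, ?_⟩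
  · have hli : LinearIndependent ℂ v := by
      refine Module.End.eigenvectors_linearIndependent' (Matrix.toLin' (Cop c).transpose)
        (fun i : Fin m => (e i : ℂ)) hinj v ?_
      intro i
      rw [Module.End.hasEigenvector_iff, Module.End.mem_eigenspace_iff, Matrix.toLin'_apply]
      exact ⟨hv i, hv0 i⟩
    intro hdet
    rw [← Matrix.exists_mulVec_eq_zero_iff] at hdet
    obtain ⟨w, hw, h0⟩ := hdet
    apply hw
    rw [Fintype.linearIndependent_iff] at hli
    funext i
    refine hli w ?_ i
    funext a
    have := congrFun h0 a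
    simp only [Matrix.mulVec, dotProduct, Matrix.of_apply, Pi.zero_apply] at this
    rw [Finset.sum_apply]
    rw [Pi.zero_apply, ← this]
    refine Finset.sum_congr rfl (fun j _ => ?_)
    rw [Pi.smul_apply, smul_eq_mul, mul_comm]
  · ext a i
    have := congrFun (hv i) a
    simp only [Matrix.mulVec, dotProduct, Pi.smul_apply, smul_eq_mul] at this
    rw [Matrix.mul_apply, Matrix.mul_diagonal]
    simp only [Matrix.of_apply]
    rw [this, mul_comm]

end Pool.Agent.GPH
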