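import Pool.Agent.GPH.IIStmts

/-!
# GPH, module COMMS: the commutant of the local monodromies is scalar
-/

open scoped BigOperators Topology
open Metric Set Filter

namespace Pool.Agent.GPH

noncomputable section

namespace COMMS_

variable {m p : ℕ}

/-- The matrix of the commutator `Y ↦ B Y - Y B`. -/
def Lc (B : Matrix (Fin m) (Fin m) ℂ) : Matrix (Fin m × Fin m) (Fin m × Fin m) ℂ :=
  Matrix.of fun q q' => (if q.2 = q'.2 then B q.1 q'.1 else 0) -
    (if q.1 = q'.1 then B q'.2 q.2 else 0)

lemma Lc_mulVec (B Y : Matrix (Fin m) (Fin m) ℂ) (q : Fin m × Fin m) :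
    (Lc B).mulVec (fun q => Y q.1 q.2) q = (B * Y - Y * B) q.1 q.2 := by
  rw [Matrix.sub_apply, Matrix.mul_apply, Matrix.mul_apply]
  simp only [Matrix.mulVec, dotProduct, Lc, Matrix.of_apply, sub_mul, ite_mul, zero_mul,
    Finset.sum_sub_distrib, Fintype.sum_prod_type]
  congr 1
  · refine Finset.sum_congr rfl fun c _ => ?_
    rw [Finset.sum_ite_eq]
    simp
  · rw [Finset.sum_comm]
    refine Finset.sum_congr rfl fun c _ => ?_
    rw [Finset.sum_ite_eq]
    simp [mul_comm]

lemma res_anti {N : Matrix (Fin m) (Fin m) ℂ} (hN : N.transpose = -N) (x : Fin m → ℂ) :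
    (res N x).transpose * N + N * res N x = 0 := by
  have h1 : ∀ i j, N j i = - N i j := fun i j => by
    have := congrFun (congrFun hN i) j
    simpa using this
  have h2 : (res N x).transpose = Matrix.vecMulVec (N.mulVec x) x := by
    rw [res, Matrix.transpose_vecMulVec]
  rw [h2, res, Matrix.vecMulVec_mul, Matrix.mul_vecMulVec]
  have h3 : Matrix.vecMul x N = - N.mulVec x := by
    rw [← Matrix.mulVec_transpose, hN, Matrix.neg_mulVec]
  rw [h3]
  ext i j
  simp [Matrix.vecMulVec_apply]

lemma Bf_anti {N : Matrix (Fin m) (Fin m) ℂ} (hN : N.transpose = -N) (S : Fin p → ℂ)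
    (x : Fin p → Fin m → ℂ) (s : ℂ) :
    (Bf N S x s).transpose * N = -(N * Bf N S x s) := by
  rw [eq_neg_iff_add_eq_zero, Bf, Matrix.transpose_sum, Finset.sum_mul, Finset.mul_sum,
    ← Finset.sum_add_distrib]
  refine Finset.sum_eq_zero fun i _ => ?_
  rw [Matrix.transpose_smul, Matrix.smul_mul, Matrix.mul_smul, ← smul_add, res_anti hN, smul_zero]

lemma res_sq {N : Matrix (Fin m) (Fin m) ℂ} (hN : N.transpose = -N) (x : Fin m → ℂ) :
    res N x * res N x = 0 := by
  have h3 : Matrix.vecMul x N = - N.mulVec x := by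
    rw [← Matrix.mulVec_transpose, hN, Matrix.neg_mulVec]
  have h0 : dotProduct (N.mulVec x) x = 0 := by
    have e1 : dotProduct (N.mulVec x) x = dotProduct x (N.mulVec x) := dotProduct_comm _ _
    have e2 : dotProduct x (N.mulVec x) = dotProduct (Matrix.vecMul x N) x :=
      Matrix.dotProduct_mulVec _ _ _
    rw [h3, neg_dotProduct] at e2
    rw [e1]
    rw [e1] at e2
    have : dotProduct x (N.mulVec x) + dotProduct x (N.mulVec x) = 0 := by
      nth_rw 1 [e2]
      ring
    linear_combination this / 2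
  rw [res, Matrix.vecMulVec_mul_vecMulVec, h0]
  simp

lemma hasDerivAt_mul {ι κ' ν : Type} [Fintype ι] [Fintype κ'] [Fintype ν]
    {A A' : ℂ → Matrix ι κ' ℂ} {B B' : ℂ → Matrix κ' ν ℂ} {s : ℂ}
    (hA : ∀ i j, HasDerivAt (fun z => A z i j) (A' s i j) s)
    (hB : ∀ i j, HasDerivAt (fun z => B z i j) (B' s i j) s) (i : ι) (j : ν) :
    HasDerivAt (fun z => (A z * B z) i j) ((A' s * B s + A s * B' s) i j) s := by
  have h := HasDerivAt.fun_sum (u := Finset.univ) (fun k (_ : k ∈ Finset.univ) =>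
    (hA i k).mul (hB k j))
  refine (h.congr_deriv ?_).congr_of_eventuallyEq ?_
  · simp [Matrix.add_apply, Matrix.mul_apply, Finset.sum_add_distrib]
  · refine Eventually.of_forall fun z => ?_
    simp [Matrix.mul_apply]

lemma diff_mul {ι κ' ν : Type} [Fintype ι] [Fintype κ'] [Fintype ν] {U : Set ℂ}
    {A : ℂ → Matrix ι κ' ℂ} {B : ℂ → Matrix κ' ν ℂ}
    (hA : HolM U A) (hB : HolM U B) : HolM U (fun z => A z * B z) := by
  intro i j
  simp only [Matrix.mul_apply]
  exact DifferentiableOn.fun_sum fun k _ => (hA i k).mul (hB k j)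

lemma diff_det {n : ℕ} {U : Set ℂ} {A : ℂ → Matrix (Fin n) (Fin n) ℂ} (hA : HolM U A) :
    DifferentiableOn ℂ (fun z => (A z).det) U := by
  simp only [Matrix.det_apply]
  refine DifferentiableOn.fun_sum fun σ _ => ?_
  refine DifferentiableOn.const_smul ?_ _
  exact DifferentiableOn.fun_finsetProd fun i _ => hA _ _

lemma diff_adj {n : ℕ} {U : Set ℂ} {A : ℂ → Matrix (Fin n) (Fin n) ℂ} (hA : HolM U A) :
    HolM U (fun z => (A z).adjugate) := by
  intro i j
  simp only [Matrix.adjugate_apply]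
  refine diff_det (A := fun z => (A z).updateRow j (Pi.single i 1)) ?_
  intro k l
  by_cases hk : k = j
  · subst hk
    simp only [Matrix.updateRow_self]
    exact differentiableOn_const _
  · have : (fun z => (A z).updateRow j (Pi.single i 1) k l) = fun z => A z k l := by
      funext z
      rw [Matrix.updateRow_ne hk]
    rw [this]
    exact hA k l

lemma diff_inv {n : ℕ} {U : Set ℂ} {A : ℂ → Matrix (Fin n) (Fin n) ℂ} (hA : HolM U A)
    (hd : ∀ z ∈ U, (A z).det ≠ 0) : HolM U (fun z => (A z)⁻¹) := by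
  intro i j
  have h : ∀ z ∈ U, (A z)⁻¹ i j = ((A z).det)⁻¹ * (A z).adjugate i j := by
    intro z hz
    rw [Matrix.inv_def]
    simp [Matrix.smul_apply, Ring.inverse_eq_inv']
  refine DifferentiableOn.congr ?_ h
  exact ((diff_det hA).inv hd).mul (diff_adj hA i j)

/-- Partial fractions vanish only if all coefficients vanish. -/
lemma pf {S : Fin p → ℂ} (hS : Function.Injective S) (c : Fin p → ℂ)
    (h : ∀ s ∈ Off S, ∑ j, (s - S j)⁻¹ * c j = 0) (k : Fin p) : c k = 0 := by
  classical
  have h1 : Tendsto (fun s : ℂ => c k + (s - S k) * ∑ j ∈ Finset.univ.erase k, (s - S j)⁻¹ * c j)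
      (𝓝[≠] (S k)) (𝓝 (c k + 0 * ∑ j ∈ Finset.univ.erase k, (S k - S j)⁻¹ * c j)) := by
    refine Tendsto.mono_left ?_ nhdsWithin_le_nhds
    refine Tendsto.add tendsto_const_nhds (Tendsto.mul ?_ ?_)
    · have : Tendsto (fun s : ℂ => s - S k) (𝓝 (S k)) (𝓝 (S k - S k)) :=
        (continuous_id.sub continuous_const).tendsto _
      simpa using this
    · refine tendsto_finsetSum _ fun j hj => ?_
      refine Tendsto.mul ?_ tendsto_const_nhds
      refine Tendsto.inv₀ ?_ ?_
      · exact (continuous_id.sub continuous_const).tendsto _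
      · have : j ≠ k := Finset.ne_of_mem_erase hj
        exact sub_ne_zero.mpr fun h => this (hS h.symm)
  have h2 : ∀ᶠ s in 𝓝[≠] (S k), c k + (s - S k) * ∑ j ∈ Finset.univ.erase k,
      (s - S j)⁻¹ * c j = 0 := by
    have h3 : ∀ j : Fin p, ∀ᶠ s in 𝓝[≠] (S k), s ≠ S j := by
      intro j
      by_cases hj : j = k
      · subst hj
        exact self_mem_nhdsWithin
      · exact nhdsWithin_le_nhds (isOpen_ne.mem_nhds (fun h => hj (hS h.symm)))
    filter_upwards [eventually_all.mpr h3] with s hs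
    have h4 := h s hs
    rw [← Finset.add_sum_erase _ _ (Finset.mem_univ k)] at h4
    have h5 : s - S k ≠ 0 := sub_ne_zero.mpr (hs k)
    have h6 : (s - S k) * ((s - S k)⁻¹ * c k + ∑ j ∈ Finset.univ.erase k, (s - S j)⁻¹ * c j) = 0 := by
      rw [h4, mul_zero]
    rw [mul_add, ← mul_assoc, mul_inv_cancel₀ h5, one_mul] at h6
    exact h6
  have h3 : Tendsto (fun s : ℂ => c k + (s - S k) * ∑ j ∈ Finset.univ.erase k, (s - S j)⁻¹ * c j)
      (𝓝[≠] (S k)) (𝓝 0) := by
    refine Tendsto.congr' ?_ tendsto_const_nhds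
    filter_upwards [h2] with s hs
    exact hs.symm
  have h4 := tendsto_nhds_unique h1 h3
  simpa using h4

end COMMS_

open COMMS_ in
theorem comms_proof (hExt : Stmt_Ext) (hGrow : Stmt_Grow) (hGeoC : Stmt_GeoC) : Stmt_CommS := by
  intro m p N S x hF b hG Φ hΦ v hv Z hZ
  obtain ⟨hopen, hbCut, hstar, hoff⟩ := hGeoC p S b hG.1
  have hNN : N⁻¹ * N = 1 := Matrix.nonsing_inv_mul _ (isUnit_iff_ne_zero.mpr hF.det)
  set Ψ : ℂ → Matrix (Fin m) (Fin m) ℂ := fun s => N⁻¹ * ((Φ s).transpose * N) with hΨ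
  have hΨΦ : ∀ s ∈ Cut b S, Ψ s * Φ s = 1 := by
    intro s hs
    rw [hΨ]
    simp only
    rw [Matrix.mul_assoc, hΦ.iso s hs, hNN]
  have hΦΨ : ∀ s ∈ Cut b S, Φ s * Ψ s = 1 := fun s hs => mul_eq_one_comm.mp (hΨΦ s hs)
  -- the derivative of `Ψ`
  have hΨd : ∀ s ∈ Cut b S, ∀ k j, HasDerivAt (fun z => Ψ z k j)
      ((-(Ψ s * Bf N S x s)) k j) s := by
    intro s hs k j
    have h1 : ∀ i j, HasDerivAt (fun z => (Φ z).transpose i j)
        ((Bf N S x s * Φ s).transpose i j) s := fun i j => hΦ.sol s hs j i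
    have h2 := hasDerivAt_mul (A := fun z => (Φ z).transpose)
      (A' := fun _ => (Bf N S x s * Φ s).transpose) (B := fun _ => N) (B' := fun _ => 0)
      (s := s) h1 (fun i j => by simpa using hasDerivAt_const s (N i j))
    have h3 := hasDerivAt_mul (A := fun _ => N⁻¹) (A' := fun _ => 0)
      (B := fun z => (Φ z).transpose * N)
      (B' := fun _ => (Bf N S x s * Φ s).transpose * N + (Φ s).transpose * 0)
      (s := s) (fun i j => by simpa using hasDerivAt_const s (N⁻¹ i j)) h2 k j
    refine h3.congr_deriv ?_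
    have h4 : (0 : Matrix (Fin m) (Fin m) ℂ) * ((Φ s).transpose * N) +
        N⁻¹ * ((Bf N S x s * Φ s).transpose * N + (Φ s).transpose * 0) =
        -(Ψ s * Bf N S x s) := by
      rw [hΨ, Matrix.transpose_mul, Matrix.mul_assoc, Bf_anti hF.anti]
      simp only [Matrix.zero_mul, Matrix.mul_zero, add_zero, zero_add, Matrix.mul_neg,
        Matrix.mul_assoc]
    exact congrFun (congrFun h4 k) j
  -- the horizontal endomorphism
  set y : ℂ → Fin m × Fin m → ℂ := fun s q => (Φ s * (Z * Ψ s)) q.1 q.2 with hy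
  set L : ℂ → Matrix (Fin m × Fin m) (Fin m × Fin m) ℂ := fun s => Lc (Bf N S x s) with hL
  have hBhol : HolM (Off S) (Bf N S x) := by
    intro k j
    have : (fun z => Bf N S x z k j) = fun z => ∑ i, (z - S i)⁻¹ * res N (x i) k j := by
      funext z
      simp [Bf, Matrix.sum_apply]
    rw [this]
    refine DifferentiableOn.fun_sum fun i _ => ?_
    refine DifferentiableOn.mul ?_ (differentiableOn_const _)
    exact DifferentiableOn.inv (differentiableOn_id.sub (differentiableOn_const _))
      fun z hz => sub_ne_zero.mpr (hz i)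
  have hLhol : HolM (Off S) L := by
    intro q q'
    have : (fun z => L z q q') = fun z => (if q.2 = q'.2 then Bf N S x z q.1 q'.1 else 0) -
        (if q.1 = q'.1 then Bf N S x z q'.2 q.2 else 0) := rfl
    rw [this]
    refine DifferentiableOn.sub ?_ ?_
    · split_ifs
      · exact hBhol _ _
      · exact differentiableOn_const _
    · split_ifs
      · exact hBhol _ _
      · exact differentiableOn_const _
  have hysol : Sol (Cut b S) L y := by
    intro s hs q
    have h1 := hasDerivAt_mul (A := fun _ => Z) (A' := fun _ => 0) (B := Ψ)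
      (B' := fun _ => -(Ψ s * Bf N S x s))
      (s := s) (fun i j => by simpa using hasDerivAt_const s (Z i j)) (hΨd s hs)
    have h2 := hasDerivAt_mul (A := Φ) (A' := fun _ => Bf N S x s * Φ s)
      (B := fun z => Z * Ψ z) (B' := fun _ => 0 * Ψ s + Z * -(Ψ s * Bf N S x s))
      (s := s) (hΦ.sol s hs) h1 q.1 q.2
    refine h2.congr_deriv ?_
    rw [hL, hy]
    simp only
    rw [Lc_mulVec]
    have h4 : Bf N S x s * Φ s * (Z * Ψ s) + Φ s * (0 * Ψ s + Z * -(Ψ s * Bf N S x s)) =
        Bf N S x s * (Φ s * (Z * Ψ s)) - Φ s * (Z * Ψ s) * Bf N S x s := by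
      simp only [Matrix.zero_mul, zero_add, Matrix.mul_neg, Matrix.mul_assoc, sub_eq_add_neg]
    exact congrFun (congrFun h4 q.1) q.2
  -- local single valuedness
  have hloc : ∀ i, ∃ (r : ℝ) (h : ℂ → Fin m × Fin m → ℂ), 0 < r ∧
      (∀ k, DifferentiableOn ℂ (fun z => h z k) (ball (S i) r)) ∧
      ∀ s ∈ ball (S i) r, s ∈ Cut b S → h s = y s := by
    intro i
    obtain ⟨r, H, hr, hH, hHd, hHe⟩ := hv i
    have hdi : S i - b ≠ 0 := sub_ne_zero.mpr (hG.1 i)
    have hdn : 0 < ‖S i - b‖ := norm_pos_iff.mpr hdi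
    have hmap : ∀ s ∈ ball (S i) (r * ‖S i - b‖), (s - S i) / (S i - b) ∈ ball (0 : ℂ) r := by
      intro s hs
      rw [mem_ball_zero_iff, norm_div, div_lt_iff₀ hdn]
      rwa [mem_ball, dist_eq_norm] at hs
    refine ⟨r * ‖S i - b‖, fun s q => (H ((s - S i) / (S i - b)) *
      (Z * (H ((s - S i) / (S i - b)))⁻¹)) q.1 q.2, mul_pos hr hdn, ?_, ?_⟩
    · intro q
      have h1 : HolM (ball 0 r) (fun t => H t * (Z * (H t)⁻¹)) :=
        diff_mul hH (diff_mul (fun i j => differentiableOn_const _) (diff_inv hH hHd))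
      have h2 : DifferentiableOn ℂ (fun s : ℂ => (s - S i) / (S i - b))
          (ball (S i) (r * ‖S i - b‖)) :=
        (differentiableOn_id.sub (differentiableOn_const _)).div_const _
      exact (h1 q.1 q.2).comp h2 hmap
    · intro s hs hsC
      set t := (s - S i) / (S i - b) with ht
      have hst : s = S i + t * (S i - b) := by
        rw [ht, div_mul_cancel₀ _ hdi]
        ring
      have htu : ∀ u : ℝ, 0 ≤ u → t ≠ u := by
        intro u hu htu
        refine hsC i (1 + u) (by linarith) ?_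
        rw [hst, htu]
        push_cast
        ring
      have hloc1 := (hHe t (hmap s hs) htu).2
      rw [← hst] at hloc1
      have hHi : (H t)⁻¹ * H t = 1 :=
        Matrix.nonsing_inv_mul _ (isUnit_iff_ne_zero.mpr (hHd t (hmap s hs)))
      have hRR := res_sq hF.anti (v i)
      set R := res N (v i) with hR
      have hZR : Z * R = R * Z := hZ i
      have e1 : ((1 : Matrix (Fin m) (Fin m) ℂ) - plog t • R) *
          ((1 : Matrix (Fin m) (Fin m) ℂ) + plog t • R) = 1 := by
        rw [sub_mul, one_mul, mul_add, mul_one, Matrix.smul_mul, Matrix.mul_smul, hRR]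
        simp
      have e1' : ((1 : Matrix (Fin m) (Fin m) ℂ) + plog t • R) *
          ((1 : Matrix (Fin m) (Fin m) ℂ) - plog t • R) = 1 := mul_eq_one_comm.mp e1
      have e2 : ((1 - plog t • R) * (H t)⁻¹) * Φ s = 1 := by
        rw [hloc1, Matrix.mul_assoc, ← Matrix.mul_assoc (H t)⁻¹, hHi, Matrix.one_mul, e1]
      have e3 : Ψ s = (1 - plog t • R) * (H t)⁻¹ := by
        calc Ψ s = 1 * Ψ s := (Matrix.one_mul _).symm
          _ = ((1 - plog t • R) * (H t)⁻¹ * Φ s) * Ψ s := by rw [e2]
          _ = ((1 - plog t • R) * (H t)⁻¹) * (Φ s * Ψ s) := by rw [Matrix.mul_assoc]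
          _ = _ := by rw [hΦΨ s hsC, Matrix.mul_one]
      have e4 : Φ s * (Z * Ψ s) = H t * (Z * (H t)⁻¹) := by
        rw [e3, hloc1]
        have e5 : (1 + plog t • R) * Z = Z * (1 + plog t • R) := by
          rw [add_mul, mul_add, one_mul, mul_one, Matrix.smul_mul, Matrix.mul_smul, hZR]
        calc H t * (1 + plog t • R) * (Z * ((1 - plog t • R) * (H t)⁻¹))
            = H t * (((1 + plog t • R) * Z) * ((1 - plog t • R) * (H t)⁻¹)) := by
              simp only [Matrix.mul_assoc]
          _ = H t * ((Z * ((1 + plog t • R) * (1 - plog t • R))) * (H t)⁻¹) := by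
              rw [e5]; simp only [Matrix.mul_assoc]
          _ = _ := by rw [e1', Matrix.mul_one]
      funext q
      simp only [hy]
      rw [e4]
  obtain ⟨Y, hYd, hYy, hYsol⟩ := hExt p S b hG (Fin m × Fin m) L hLhol y hysol hloc
  have hG1 := hGrow m p N S x hF (fun s => Matrix.of fun i j => Y s (i, j))
    (fun i j => hYd (i, j)) (by
      intro s hs i j
      have h1 := hYsol s hs (i, j)
      refine h1.congr_deriv ?_
      rw [hL]
      simp only
      have h2 := Lc_mulVec (Bf N S x s) (Matrix.of fun i j => Y s (i, j)) (i, j)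
      exact h2)
  have hYb : (Matrix.of fun i j => Y b (i, j)) = Z := by
    have h1 := hYy b hbCut
    have h2 : Ψ b = 1 := by
      have := hΨΦ b hbCut
      rwa [hΦ.one, Matrix.mul_one] at this
    ext i j
    rw [Matrix.of_apply, h1, hy]
    simp only
    rw [hΦ.one, h2, Matrix.one_mul, Matrix.mul_one]
  have hYZ : ∀ s, (Matrix.of fun i j => Y s (i, j)) = Z := by
    intro s
    rw [← hYb]
    exact (hG1 s).trans (hG1 b).symm
  have hcom : ∀ s ∈ Off S, Bf N S x s * Z - Z * Bf N S x s = 0 := by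
    intro s hs
    ext i j
    have h1 := hYsol s hs (i, j)
    have h2 : (fun z => Y z (i, j)) = fun _ => Z i j := by
      funext z
      have := congrFun (congrFun (hYZ z) i) j
      simpa using this
    rw [h2] at h1
    have h3 := h1.unique (hasDerivAt_const s (Z i j))
    have h4 := Lc_mulVec (Bf N S x s) (Matrix.of fun i j => Y s (i, j)) (i, j)
    rw [hYZ s] at h4
    have h5 : (fun q : Fin m × Fin m => Z q.1 q.2) = Y s := by
      funext q
      have := congrFun (congrFun (hYZ s) q.1) q.2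
      simpa using this.symm
    rw [h5] at h4
    rw [Matrix.zero_apply]
    exact h4.symm.trans h3
  refine hF.comm Z fun k => ?_
  have hk : res N (x k) * Z - Z * res N (x k) = 0 := by
    ext i j
    refine pf hF.inj (fun k => (res N (x k) * Z - Z * res N (x k)) i j) ?_ k
    intro s hs
    have h1 := congrFun (congrFun (hcom s hs) i) j
    have h2 : Bf N S x s * Z - Z * Bf N S x s =
        ∑ k, (s - S k)⁻¹ • (res N (x k) * Z - Z * res N (x k)) := by
      rw [Bf, Finset.sum_mul, Finset.mul_sum, ← Finset.sum_sub_distrib]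
      refine Finset.sum_congr rfl fun k _ => ?_
      rw [Matrix.smul_mul, Matrix.mul_smul, smul_sub]
    rw [h2] at h1
    rw [Matrix.sum_apply] at h1
    simpa using h1
  exact (sub_eq_zero.mp hk).symm

end

end Pool.Agent.GPH
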