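import Pool.Agent.GPH.IIStmts

/-!
# GPH, module DTRI
-/

open scoped BigOperators Topology
open Polynomial

namespace Pool.Agent.GPH

namespace DTRI_

lemma f0_degree_sum {m : ℕ} (c : Fin m → ℂ) :
    (∑ k : Fin m, C (c k) * X ^ ((k : ℕ) + 1)).degree < ((m + 1 : ℕ) : WithBot ℕ) := by
  refine lt_of_le_of_lt (Polynomial.degree_sum_le _ _) ?_
  rw [Finset.sup_lt_iff (WithBot.bot_lt_coe _)]
  intro k _
  refine lt_of_le_of_lt (degree_C_mul_X_pow_le _ _) ?_
  have := k.2
  exact_mod_cast (by omega : (k : ℕ) + 1 < m + 1)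

lemma f0_monic {m : ℕ} (c : Fin m → ℂ) : (f0 c).Monic := by
  unfold f0
  exact monic_X_pow_add (f0_degree_sum c)

lemma f0_natDegree {m : ℕ} (c : Fin m → ℂ) : (f0 c).natDegree = m + 1 := by
  unfold f0
  rw [natDegree_eq_of_degree_eq_some]
  rw [degree_add_eq_left_of_degree_lt]
  · simp
  · rw [degree_X_pow]
    exact f0_degree_sum c

lemma g0_eq {m : ℕ} (c : Fin m → ℂ) : g0 c = X ^ m + ∑ k : Fin m,
    C (c k * ((k : ℕ) + 1) / ((m : ℂ) + 1)) * X ^ (k : ℕ) := by
  have hm : ((m : ℂ) + 1) ≠ 0 := by exact_mod_cast (Nat.succ_ne_zero m)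
  unfold g0 f0
  rw [derivative_add, mul_add]
  congr 1
  · rw [derivative_X_pow, ← mul_assoc, ← C_mul]
    have : (algebraMap ℚ ℂ) (1 / ((m : ℚ) + 1)) * ((m + 1 : ℕ) : ℂ) = 1 := by
      simp
      field_simp
    rw [this]
    simp
  · rw [derivative_sum, Finset.mul_sum]
    refine Finset.sum_congr rfl fun k _ => ?_
    rw [derivative_C_mul, derivative_X_pow, ← mul_assoc, ← mul_assoc, ← C_mul, ← C_mul]
    congr 2
    · simp
      field_simp

lemma g0_degree_sum {m : ℕ} (c : Fin m → ℂ) :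
    (∑ k : Fin m, C (c k * ((k : ℕ) + 1) / ((m : ℂ) + 1)) * X ^ (k : ℕ)).degree <
      ((m : ℕ) : WithBot ℕ) := by
  refine lt_of_le_of_lt (Polynomial.degree_sum_le _ _) ?_
  rw [Finset.sup_lt_iff (WithBot.bot_lt_coe _)]
  intro k _
  refine lt_of_le_of_lt (degree_C_mul_X_pow_le _ _) ?_
  exact_mod_cast k.2

lemma g0_monic {m : ℕ} (c : Fin m → ℂ) : (g0 c).Monic := by
  rw [g0_eq]
  exact monic_X_pow_add (g0_degree_sum c)

lemma g0_natDegree {m : ℕ} (c : Fin m → ℂ) : (g0 c).natDegree = m := by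
  rw [g0_eq, natDegree_eq_of_degree_eq_some]
  rw [degree_add_eq_left_of_degree_lt]
  · simp
  · rw [degree_X_pow]
    exact g0_degree_sum c

end DTRI_

open DTRI_ in
theorem dtri_proof : Stmt_DTri := by
  intro m c
  have hq : ∀ k : Fin m, ((X ^ (k : ℕ) * f0 c) /ₘ g0 c).natDegree = (k : ℕ) + 1 ∧
      ((X ^ (k : ℕ) * f0 c) /ₘ g0 c).coeff ((k : ℕ) + 1) = 1 := by
    intro k
    have hM : (X ^ (k : ℕ) * f0 c).Monic := (monic_X_pow _).mul (f0_monic c)
    have hN : (X ^ (k : ℕ) * f0 c).natDegree = (k : ℕ) + (m + 1) := by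
      rw [(monic_X_pow _).natDegree_mul (f0_monic c), natDegree_X_pow, f0_natDegree]
    have h1 : ((X ^ (k : ℕ) * f0 c) /ₘ g0 c).natDegree = (k : ℕ) + 1 := by
      rw [natDegree_divByMonic _ (g0_monic c), hN, g0_natDegree]
      omega
    refine ⟨h1, ?_⟩
    have h2 : ((X ^ (k : ℕ) * f0 c) /ₘ g0 c).leadingCoeff = 1 := by
      rw [leadingCoeff_divByMonic_of_monic (g0_monic c)]
      · exact hM.leadingCoeff
      · rw [degree_eq_natDegree (g0_monic c).ne_zero, degree_eq_natDegree hM.ne_zero, hN,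
          g0_natDegree]
        exact_mod_cast (by omega : m ≤ (k : ℕ) + (m + 1))
    rw [leadingCoeff, h1] at h2
    exact h2
  constructor
  · intro l k hkl
    unfold Dop
    simp only [Matrix.of_apply]
    rw [coeff_sub, coeff_C_mul, coeff_C_mul, coeff_derivative, coeff_X_pow,
      coeff_eq_zero_of_natDegree_lt, if_neg]
    · simp
    · intro h
      have : (k : ℕ) < (l : ℕ) := hkl
      omega
    · rw [(hq k).1]
      have : (k : ℕ) < (l : ℕ) := hkl
      omega
  · intro k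
    unfold Dop
    simp only [Matrix.of_apply]
    rw [coeff_sub, coeff_C_mul, coeff_C_mul, coeff_derivative, coeff_X_pow, (hq k).2, if_pos rfl]
    simp
    field_simp

end Pool.Agent.GPH
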