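import Pool.Agent.GPH.IIStmts

/-!
# GPH, module EXT

A solution on the cut plane which is single valued near every singular point extends to the
whole plane.
-/

open scoped BigOperators Topology
open Metric Set

namespace Pool.Agent.GPH

namespace Ext_

variable {κ : Type} [Fintype κ]

theorem sol_mono {U V : Set ℂ} {L : ℂ → Matrix κ κ ℂ} {y : ℂ → κ → ℂ} (h : Sol V L y)
    (hUV : U ⊆ V) : Sol U L y := fun s hs k => h s (hUV hs) k

theorem uniq2 (hu : Stmt_Uniq) {U : Set ℂ} {L : ℂ → Matrix κ κ ℂ} (hU : IsOpen U)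
    (hc : IsPreconnected U) (hL : HolM U L) {y1 y2 : ℂ → κ → ℂ} (h1 : Sol U L y1)
    (h2 : Sol U L y2) {p : ℂ} (hp : p ∈ U) (he : y1 p = y2 p) : ∀ s ∈ U, y1 s = y2 s := by
  intro s hs
  have h3 : Sol U L (fun z => y1 z - y2 z) := by
    intro s hs k
    have e := (h1 s hs k).sub (h2 s hs k)
    have e2 : (L s).mulVec (y1 s - y2 s) k = (L s).mulVec (y1 s) k - (L s).mulVec (y2 s) k := by
      rw [Matrix.mulVec_sub, Pi.sub_apply]
    simp only [Pi.sub_apply]
    rw [e2]
    exact e
  have := hu κ U L hU hc hL (fun z => y1 z - y2 z) h3 p hp (by simp [he]) s hs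
  exact sub_eq_zero.mp this

/-- Solutions transported along an equality on an open set. -/
theorem sol_congr {U : Set ℂ} {L : ℂ → Matrix κ κ ℂ} (hU : IsOpen U) {y1 y2 : ℂ → κ → ℂ}
    (h1 : Sol U L y1) (he : ∀ s ∈ U, y2 s = y1 s) : Sol U L y2 := by
  intro s hs k
  rw [he s hs]
  refine (h1 s hs k).congr_of_eventuallyEq ?_
  filter_upwards [hU.mem_nhds hs] with z hz
  rw [he z hz]

/-- The coordinate. -/
noncomputable def W (b c z : ℂ) : ℂ := (z - b) / c

theorem W_cont (b c : ℂ) : Continuous (W b c) := by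
  unfold W
  fun_prop

theorem W_comb {b c p z : ℂ} {a a' : ℝ} (h : a + a' = 1) :
    W b c (a • p + a' • z) = (a : ℂ) * W b c p + (a' : ℂ) * W b c z := by
  unfold W
  have h' : (a : ℂ) + a' = 1 := by exact_mod_cast h
  have hb : b = ((a : ℂ) + a') * b := by rw [h', one_mul]
  rw [Complex.real_smul, Complex.real_smul, mul_div_assoc', mul_div_assoc', ← add_div]
  congr 1
  linear_combination (-1 : ℂ) * hb

theorem W_comb_re {b c p z : ℂ} {a a' : ℝ} (h : a + a' = 1) :
    (W b c (a • p + a' • z)).re = a * (W b c p).re + a' * (W b c z).re := by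
  rw [W_comb h]
  simp

theorem W_comb_im {b c p z : ℂ} {a a' : ℝ} (h : a + a' = 1) :
    (W b c (a • p + a' • z)).im = a * (W b c p).im + a' * (W b c z).im := by
  rw [W_comb h]
  simp

theorem W_val {b c : ℂ} (hc : c ≠ 0) (w : ℂ) : W b c (b + w * c) = w := by
  unfold W
  field_simp
  ring

/-- The sector. -/
def Sec (b c : ℂ) (η : ℝ) : Set ℂ :=
  {z | 0 < (W b c z).re ∧ |(W b c z).im| < η * (W b c z).re}

/-- The slit sector. -/
def Sec' (b c : ℂ) (η : ℝ) : Set ℂ :=
  {z | (0 < (W b c z).re ∧ |(W b c z).im| < η * (W b c z).re) ∧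
    ((W b c z).im ≠ 0 ∨ 1 < (W b c z).re)}

/-- The two halves of the sector (`e = 1` or `e = -1`). -/
def Hlf (b c : ℂ) (η e : ℝ) : Set ℂ :=
  {z | (0 < (W b c z).re ∧ |(W b c z).im| < η * (W b c z).re) ∧ 0 < e * (W b c z).im}

theorem open_Sec (b c : ℂ) (η : ℝ) : IsOpen (Sec b c η) := by
  have hW := W_cont b c
  refine IsOpen.and (isOpen_lt (by fun_prop) (by fun_prop)) (isOpen_lt (by fun_prop) (by fun_prop))

theorem open_Sec' (b c : ℂ) (η : ℝ) : IsOpen (Sec' b c η) := by
  have hW := W_cont b c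
  have h1 : IsOpen {z | (W b c z).im ≠ 0} := isOpen_ne_fun (by fun_prop) (by fun_prop)
  have h2 : IsOpen {z | 1 < (W b c z).re} := isOpen_lt (by fun_prop) (by fun_prop)
  exact (open_Sec b c η).inter (h1.union h2)

theorem open_Hlf (b c : ℂ) (η e : ℝ) : IsOpen (Hlf b c η e) := by
  have hW := W_cont b c
  exact IsOpen.and (open_Sec b c η) (isOpen_lt (by fun_prop) (by fun_prop))

theorem comb_abs {η x1 x2 y1 y2 a a' : ℝ} (h1 : 0 < x1 ∧ |y1| < η * x1)
    (h2 : 0 < x2 ∧ |y2| < η * x2) (ha : 0 ≤ a) (ha' : 0 ≤ a') (h : a + a' = 1) :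
    0 < a * x1 + a' * x2 ∧ |a * y1 + a' * y2| < η * (a * x1 + a' * x2) := by
  rcases eq_or_lt_of_le ha with h0 | h0
  · subst h0
    have : a' = 1 := by linarith
    subst this
    simpa using h2
  · refine ⟨?_, ?_⟩
    · have e1 := mul_pos h0 h1.1
      have e2 := mul_nonneg ha' h2.1.le
      linarith
    · have e1 : |a * y1 + a' * y2| ≤ a * |y1| + a' * |y2| := by
        refine (abs_add_le _ _).trans ?_
        rw [abs_mul, abs_mul, abs_of_nonneg ha, abs_of_nonneg ha']
      have e2 := mul_lt_mul_of_pos_left h1.2 h0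
      have e3 := mul_le_mul_of_nonneg_left h2.2.le ha'
      nlinarith

theorem convex_Hlf (b c : ℂ) (η e : ℝ) : Convex ℝ (Hlf b c η e) := by
  intro p hp z hz a a' ha ha' h
  refine ⟨?_, ?_⟩
  · rw [W_comb_re h, W_comb_im h]
    exact comb_abs hp.1 hz.1 ha ha' h
  · rw [W_comb_im h]
    rcases eq_or_lt_of_le ha with h0 | h0
    · subst h0
      have : a' = 1 := by linarith
      subst this
      simpa using hz.2
    · have e1 := mul_pos h0 hp.2
      have e2 := mul_nonneg ha' hz.2.le
      nlinarith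

theorem star_Sec' (b c : ℂ) (η : ℝ) {p : ℂ} (hp : p ∈ Sec' b c η) (hp1 : 1 < (W b c p).re)
    (hp2 : (W b c p).im = 0) : StarConvex ℝ p (Sec' b c η) := by
  intro z hz a a' ha ha' h
  refine ⟨?_, ?_⟩
  · rw [W_comb_re h, W_comb_im h]
    exact comb_abs hp.1 hz.1 ha ha' h
  · rw [W_comb_re h, W_comb_im h, hp2, mul_zero, zero_add]
    rcases eq_or_lt_of_le ha' with h0 | h0
    · right
      subst h0
      have : a = 1 := by linarith
      subst this
      simpa using hp1
    · rcases hz.2 with h2 | h2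
      · left
        exact mul_ne_zero h0.ne' h2
      · right
        nlinarith

/-- The opening of the sectors. -/
theorem exists_eta {p : ℕ} {S : Fin p → ℂ} {b : ℂ} (hg : GenPos b S) (i : Fin p) :
    ∃ η : ℝ, 0 < η ∧ ∀ j, j ≠ i → ∀ t : ℝ, 1 ≤ t → b + t * (S j - b) ∉ Sec b (S i - b) η := by
  have hc : S i - b ≠ 0 := sub_ne_zero.mpr (hg.1 i)
  have key : ∀ j : Fin p, ∀ᶠ η in 𝓝[>] (0 : ℝ), j ≠ i → ∀ t : ℝ, 1 ≤ t →
      b + t * (S j - b) ∉ Sec b (S i - b) η := by
    intro j
    by_cases hj : j = i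
    · exact Filter.Eventually.of_forall fun η h => absurd hj h
    set q : ℂ := (S j - b) / (S i - b) with hq
    have hW : ∀ t : ℝ, W b (S i - b) (b + t * (S j - b)) = t * q := by
      intro t
      unfold W
      rw [add_sub_cancel_left, mul_div_assoc]
    rcases le_or_gt q.re 0 with hre | hre
    · refine Filter.Eventually.of_forall fun η _ t ht hmem => ?_
      have h1 := hmem.1
      rw [hW, Complex.re_ofReal_mul] at h1
      nlinarith
    · have him : q.im ≠ 0 := by
        intro h0
        apply hg.2 i j (Ne.symm hj) q.re hre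
        have : q = (q.re : ℂ) := by
          apply Complex.ext
          · simp
          · simpa using h0
        rw [← this, hq]
        field_simp
      have h2 : (0 : ℝ) < |q.im| / q.re := div_pos (abs_pos.mpr him) hre
      filter_upwards [Ioo_mem_nhdsGT h2] with η hη _ t ht hmem
      have h3 := hmem.2
      rw [hW, Complex.re_ofReal_mul, Complex.im_ofReal_mul, abs_mul,
        abs_of_pos (by linarith : (0 : ℝ) < t)] at h3
      have h4 : η * q.re < |q.im| := by
        have := hη.2
        rwa [lt_div_iff₀ hre] at this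
      have h5 : t * (η * q.re) < t * |q.im| :=
        mul_lt_mul_of_pos_left h4 (by linarith)
      nlinarith
  have h2 := (Filter.eventually_all.mpr key).and self_mem_nhdsWithin
  obtain ⟨η, h3, h4⟩ := h2.exists
  exact ⟨η, h4, fun j => h3 j⟩

/-- The extension across one cut. -/
theorem ray (hC : Stmt_GeoC) (hL : Stmt_Lode) (hu : Stmt_Uniq) {p : ℕ} {S : Fin p → ℂ} {b : ℂ}
    (hg : GenPos b S) (L : ℂ → Matrix κ κ ℂ) (hol : HolM (Off S) L) (y : ℂ → κ → ℂ)
    (hy : Sol (Cut b S) L y) (i : Fin p)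
    (hloc : ∃ (r : ℝ) (h : ℂ → κ → ℂ), 0 < r ∧
      (∀ k, DifferentiableOn ℂ (fun z => h z k) (ball (S i) r)) ∧
      ∀ s ∈ ball (S i) r, s ∈ Cut b S → h s = y s) :
    ∃ (V : Set ℂ) (Y : ℂ → κ → ℂ), IsOpen V ∧
      (∀ t : ℝ, 1 ≤ t → b + t * (S i - b) ∈ V) ∧
      (∀ j, j ≠ i → ∀ t : ℝ, 1 ≤ t → b + t * (S j - b) ∉ V) ∧
      (∀ s ∈ V, ∀ k, DifferentiableAt ℂ (fun z => Y z k) s) ∧
      (∀ s ∈ V, s ∈ Cut b S → Y s = y s) ∧ Sol (V ∩ Off S) L Y := by
  obtain ⟨hCo, hCb, hCs, hCS⟩ := hC p S b hg.1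
  obtain ⟨η, hη, hsec⟩ := exists_eta hg i
  set c : ℂ := S i - b with hcdef
  have hc : c ≠ 0 := sub_ne_zero.mpr (hg.1 i)
  have hSi : S i = b + 1 * c := by rw [hcdef]; ring
  have hWS : W b c (S i) = 1 := by rw [hSi]; exact W_val hc 1
  obtain ⟨r0, h, hr0, hh, hhy⟩ := hloc
  have hSin : S i ∈ Sec b c η := by
    show _ ∧ _
    rw [hWS]
    simpa using hη
  obtain ⟨r1, hr1, hr1s⟩ := Metric.isOpen_iff.mp (open_Sec b c η) (S i) hSin
  set r : ℝ := min r0 r1 with hr
  have hrpos : 0 < r := lt_min hr0 hr1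
  have hB0 : ball (S i) r ⊆ ball (S i) r0 := ball_subset_ball (min_le_left _ _)
  have hBS : ball (S i) r ⊆ Sec b c η := (ball_subset_ball (min_le_right _ _)).trans hr1s
  -- nonreal points of the sector are in the cut plane
  have hnr : ∀ z ∈ Sec b c η, (W b c z).im ≠ 0 → z ∈ Cut b S := by
    intro z hz him j t ht hzt
    by_cases hj : j = i
    · subst hj
      apply him
      rw [hzt, W_val hc]
      simp
    · exact hsec j hj t ht (hzt ▸ hz)
  have hHC : ∀ e : ℝ, Hlf b c η e ⊆ Cut b S := by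
    intro e z hz
    refine hnr z hz.1 ?_
    intro h0
    have := hz.2
    rw [h0, mul_zero] at this
    exact lt_irrefl _ this
  -- singular points are not in the slit sector
  have hSo : Sec' b c η ⊆ Off S := by
    intro z hz j hzj
    by_cases hj : j = i
    · subst hj
      rw [hzj] at hz
      rcases hz.2 with h1 | h1
      · rw [hWS] at h1
        simp at h1
      · rw [hWS] at h1
        simp at h1
    · have := hsec j hj 1 le_rfl
      apply this
      have e : b + ((1 : ℝ) : ℂ) * (S j - b) = z := by rw [hzj]; push_cast; ring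
      rw [e]
      exact hz.1
  have hCO : Cut b S ⊆ Off S := fun z hz => hCS z hz
  -- points of the slit ball
  have hBo : ball (S i) r \ {S i} ⊆ Off S := by
    intro z hz j hzj
    by_cases hj : j = i
    · subst hj
      exact hz.2 hzj
    · have := hsec j hj 1 le_rfl
      apply this
      have e : b + ((1 : ℝ) : ℂ) * (S j - b) = z := by rw [hzj]; push_cast; ring
      rw [e]
      exact hBS hz.1
  have hLc : ∀ s ∈ Off S, ∀ k l, ContinuousAt (fun z => L z k l) s := by
    intro s hs k l
    have hOo : IsOpen (Off S) := by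
      have : Off S = ⋂ j, {z | z ≠ S j} := by
        ext z
        simp [Off]
      rw [this]
      exact isOpen_iInter_of_finite fun j => isOpen_ne
    exact ((hol k l).differentiableAt (hOo.mem_nhds hs)).continuousAt
  -- `h` solves the equation on the punctured ball
  have hsol : Sol (ball (S i) r \ {S i}) L h := by
    have hhd : ∀ s ∈ ball (S i) r, ∀ k, DifferentiableAt ℂ (fun z => h z k) s := fun s hs k =>
      (hh k).differentiableAt (isOpen_ball.mem_nhds (hB0 hs))
    have hcut : ∀ s ∈ ball (S i) r, s ∈ Cut b S → ∀ k,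
        deriv (fun z => h z k) s = (L s).mulVec (h s) k := by
      intro s hs hsc k
      have e1 : (fun z => h z k) =ᶠ[𝓝 s] (fun z => y z k) := by
        filter_upwards [isOpen_ball.mem_nhds (hB0 hs), hCo.mem_nhds hsc] with z hz1 hz2
        rw [hhy z hz1 hz2]
      rw [e1.deriv_eq, hhy s (hB0 hs) hsc]
      exact (hy s hsc k).deriv
    intro s hs k
    suffices hd : deriv (fun z => h z k) s = (L s).mulVec (h s) k by
      rw [← hd]
      exact (hhd s hs.1 k).hasDerivAt
    -- approach `s` from the cut plane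
    have hγ : Filter.Tendsto (fun δ : ℝ => s + (δ : ℂ) * (Complex.I * c)) (𝓝[>] 0) (𝓝 s) := by
      have : Continuous (fun δ : ℝ => s + (δ : ℂ) * (Complex.I * c)) := by fun_prop
      have h2 := this.tendsto 0
      simp only [Complex.ofReal_zero, zero_mul, add_zero] at h2
      exact h2.mono_left nhdsWithin_le_nhds
    have hin : ∀ᶠ δ : ℝ in 𝓝[>] 0, s + (δ : ℂ) * (Complex.I * c) ∈ ball (S i) r ∧
        s + (δ : ℂ) * (Complex.I * c) ∈ Cut b S := by
      have h1 : ∀ᶠ δ : ℝ in 𝓝[>] 0, s + (δ : ℂ) * (Complex.I * c) ∈ ball (S i) r :=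
        hγ (isOpen_ball.mem_nhds hs.1)
      have h2 : ∀ᶠ δ : ℝ in 𝓝[>] 0, (W b c (s + (δ : ℂ) * (Complex.I * c))).im ≠ 0 := by
        have h3 : ∀ δ : ℝ, (W b c (s + (δ : ℂ) * (Complex.I * c))).im = (W b c s).im + δ := by
          intro δ
          have : W b c (s + (δ : ℂ) * (Complex.I * c)) = W b c s + (δ : ℂ) * Complex.I := by
            unfold W
            field_simp
            ring
          rw [this]
          simp
        have h4 : ∀ᶠ δ : ℝ in 𝓝[>] 0, δ ≠ -(W b c s).im := by
          by_cases h0 : (W b c s).im = 0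
          · filter_upwards [self_mem_nhdsWithin] with δ hδ
            rw [h0, neg_zero]
            exact ne_of_gt hδ
          · have : (0 : ℝ) ≠ -(W b c s).im := by
              intro h5
              apply h0
              linarith
            exact nhdsWithin_le_nhds (isOpen_ne.mem_nhds this)
        filter_upwards [h4] with δ hδ
        rw [h3]
        intro h5
        apply hδ
        linarith
      filter_upwards [h1, h2] with δ hδ1 hδ2
      exact ⟨hδ1, hnr _ (hBS hδ1) hδ2⟩
    have hL1 : Filter.Tendsto (fun δ : ℝ => deriv (fun z => h z k)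
        (s + (δ : ℂ) * (Complex.I * c))) (𝓝[>] 0) (𝓝 (deriv (fun z => h z k) s)) := by
      have hcd : ContinuousAt (deriv (fun z => h z k)) s := by
        have h1 : DifferentiableOn ℂ (deriv (fun z => h z k)) (ball (S i) r0) :=
          (hh k).deriv isOpen_ball
        exact (h1.differentiableAt (isOpen_ball.mem_nhds (hB0 hs.1))).continuousAt
      exact hcd.tendsto.comp hγ
    have hL2 : Filter.Tendsto (fun δ : ℝ => (L (s + (δ : ℂ) * (Complex.I * c))).mulVec
        (h (s + (δ : ℂ) * (Complex.I * c))) k) (𝓝[>] 0) (𝓝 ((L s).mulVec (h s) k)) := by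
      have hcd : ContinuousAt (fun z => (L z).mulVec (h z) k) s := by
        have e : (fun z => (L z).mulVec (h z) k) = fun z => ∑ l, L z k l * h z l := by
          funext z
          rfl
        rw [e]
        refine tendsto_finsetSum _ fun l _ => ?_
        exact (hLc s (hBo hs) k l).tendsto.mul (hhd s hs.1 l).continuousAt.tendsto
      exact hcd.tendsto.comp hγ
    refine tendsto_nhds_unique hL1 (hL2.congr' ?_)
    filter_upwards [hin] with δ hδ
    exact (hcut _ hδ.1 hδ.2 k).symm
  -- small parameter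
  obtain ⟨ε, hε, hεr⟩ : ∃ ε : ℝ, 0 < ε ∧ ε * ‖c‖ < r ∧ ε < η := by
    have hcn : 0 < ‖c‖ := norm_pos_iff.mpr hc
    refine ⟨min (r / ‖c‖ / 2) (η / 2), lt_min (by positivity) (by positivity), ?_, ?_⟩
    · calc min (r / ‖c‖ / 2) (η / 2) * ‖c‖ ≤ (r / ‖c‖ / 2) * ‖c‖ :=
            mul_le_mul_of_nonneg_right (min_le_left _ _) hcn.le
        _ = r / 2 := by field_simp
        _ < r := by linarith
    · exact lt_of_le_of_lt (min_le_right _ _) (by linarith)
  have hballmem : ∀ w : ℂ, ‖w‖ = 1 → b + (1 + ε * w) * c ∈ ball (S i) r := by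
    intro w hw
    rw [mem_ball, dist_eq_norm, hSi]
    have e : b + (1 + (ε : ℂ) * w) * c - (b + 1 * c) = (ε : ℂ) * w * c := by ring
    rw [e, norm_mul, norm_mul, hw, Complex.norm_real, Real.norm_of_nonneg hε.le, mul_one]
    exact hεr.1
  set P : ℂ := b + (1 + ε * 1) * c with hP
  have hPb : P ∈ ball (S i) r := hballmem 1 (by simp)
  have hWP : W b c P = 1 + ε := by rw [hP, W_val hc, mul_one]
  have hP' : P ∈ Sec' b c η := by
    refine ⟨hBS hPb, Or.inr ?_⟩
    rw [hWP]
    simpa using hε
  have hstar : StarConvex ℝ P (Sec' b c η) := star_Sec' b c η hP' (by rw [hWP]; simpa using hε)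
    (by rw [hWP]; simp)
  obtain ⟨Ψ, hΨP, hΨ⟩ := hL κ (Sec' b c η) P L (open_Sec' b c η) hP' hstar
    (fun k l => (hol k l).mono hSo) (h P)
  -- `h = Ψ` on the slit ball
  have hhΨ : ∀ s ∈ ball (S i) r ∩ Sec' b c η, h s = Ψ s := by
    have hst : StarConvex ℝ P (ball (S i) r ∩ Sec' b c η) :=
      ((convex_ball (S i) r).starConvex hPb).inter hstar
    have hpre : IsPreconnected (ball (S i) r ∩ Sec' b c η) :=
      (hst.isPathConnected ⟨hPb, hP'⟩).isConnected.isPreconnected
    refine uniq2 hu (isOpen_ball.inter (open_Sec' b c η)) hpre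
      (fun k l => (hol k l).mono (inter_subset_right.trans hSo)) ?_
      (sol_mono hΨ inter_subset_right) ⟨hPb, hP'⟩ hΨP.symm
    refine sol_mono hsol ?_
    intro z hz
    refine ⟨hz.1, ?_⟩
    intro h0
    exact hSo hz.2 i h0
  -- `y = Ψ` on the two halves
  have hyΨ : ∀ e : ℝ, |e| = 1 → ∀ s ∈ Hlf b c η e, y s = Ψ s := by
    intro e he
    have hsub : Hlf b c η e ⊆ Sec' b c η := by
      intro z hz
      refine ⟨hz.1, Or.inl ?_⟩
      intro h0
      have := hz.2
      rw [h0, mul_zero] at this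
      exact lt_irrefl _ this
    set q : ℂ := b + (1 + ε * (e * Complex.I)) * c with hq
    have hqb : q ∈ ball (S i) r := hballmem _ (by
      rw [norm_mul, Complex.norm_I, mul_one, Complex.norm_real, Real.norm_eq_abs, he])
    have hqH : q ∈ Hlf b c η e := by
      refine ⟨hBS hqb, ?_⟩
      rw [hq, W_val hc]
      have : ((1 : ℂ) + ε * (e * Complex.I)).im = ε * e := by simp
      rw [this]
      have h2 : e * e = 1 := by
        rw [← abs_mul_abs_self, he, one_mul]
      have : e * (ε * e) = ε := by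
        calc e * (ε * e) = ε * (e * e) := by ring
          _ = ε := by rw [h2, mul_one]
      rw [this]
      exact hε
    refine uniq2 hu (open_Hlf b c η e) (convex_Hlf b c η e).isPreconnected
      (fun k l => (hol k l).mono (hsub.trans hSo)) (sol_mono hy (hHC e)) (sol_mono hΨ hsub)
      hqH ?_
    rw [← hhy q (hB0 hqb) (hHC e hqH)]
    exact hhΨ q ⟨hqb, hsub hqH⟩
  have hyΨ' : ∀ s ∈ Sec' b c η, s ∈ Cut b S → y s = Ψ s := by
    intro s hs hsc
    rcases lt_trichotomy (W b c s).im 0 with h1 | h1 | h1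
    · refine hyΨ (-1) (by simp) s ⟨hs.1, ?_⟩
      linarith
    · exfalso
      rcases hs.2 with h2 | h2
      · exact h2 h1
      · apply hsc i (W b c s).re h2.le
        have e : W b c s = ((W b c s).re : ℂ) := by
          apply Complex.ext
          · simp
          · simpa using h1
        rw [← e]
        unfold W
        rw [hcdef] at hc ⊢
        field_simp
        ring
    · refine hyΨ 1 (by simp) s ⟨hs.1, ?_⟩
      linarith
  classical
  -- the extension
  let Y : ℂ → κ → ℂ := fun z => if z ∈ ball (S i) r then h z else Ψ z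
  have hY1 : ∀ z ∈ ball (S i) r, Y z = h z := fun z hz => if_pos hz
  have hY2 : ∀ z ∈ Sec' b c η, Y z = Ψ z := by
    intro z hz
    by_cases hzb : z ∈ ball (S i) r
    · rw [hY1 z hzb, hhΨ z ⟨hzb, hz⟩]
    · exact if_neg hzb
  refine ⟨ball (S i) r ∪ Sec' b c η, Y, isOpen_ball.union (open_Sec' b c η), ?_, ?_, ?_, ?_, ?_⟩
  · intro t ht
    rcases eq_or_lt_of_le ht with h1 | h1
    · left
      have e : b + (t : ℂ) * c = S i := by rw [← h1, hSi]; push_cast; ring
      rw [e]
      exact mem_ball_self hrpos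
    · right
      refine ⟨⟨?_, ?_⟩, Or.inr ?_⟩
      · rw [W_val hc]
        simp only [Complex.ofReal_re]
        linarith
      · rw [W_val hc]
        simp only [Complex.ofReal_re, Complex.ofReal_im, abs_zero]
        have : 0 < t := by linarith
        positivity
      · rw [W_val hc]
        simpa using h1
  · intro j hj t ht hmem
    rcases hmem with h1 | h1
    · exact hsec j hj t ht (hBS h1)
    · exact hsec j hj t ht h1.1
  · intro s hs k
    rcases hs with h1 | h1
    · have e : (fun z => Y z k) =ᶠ[𝓝 s] (fun z => h z k) := by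
        filter_upwards [isOpen_ball.mem_nhds h1] with z hz
        rw [hY1 z hz]
      exact ((hh k).differentiableAt (isOpen_ball.mem_nhds (hB0 h1))).congr_of_eventuallyEq e
    · have e : (fun z => Y z k) =ᶠ[𝓝 s] (fun z => Ψ z k) := by
        filter_upwards [(open_Sec' b c η).mem_nhds h1] with z hz
        rw [hY2 z hz]
      exact (hΨ s h1 k).differentiableAt.congr_of_eventuallyEq e
  · intro s hs hsc
    rcases hs with h1 | h1
    · rw [hY1 s h1, hhy s (hB0 h1) hsc]
    · rw [hY2 s h1, hyΨ' s h1 hsc]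
  · intro s hs k
    rcases hs.1 with h1 | h1
    · have hne : s ∈ ball (S i) r \ {S i} := ⟨h1, fun h0 => hs.2 i h0⟩
      refine sol_congr (U := ball (S i) r \ {S i})
        (isOpen_ball.sdiff isClosed_singleton) hsol ?_ s hne k
      intro z hz
      exact hY1 z hz.1
    · exact sol_congr (open_Sec' b c η) hΨ (fun z hz => hY2 z hz) s h1 k

end Ext_

open Ext_ in
theorem ext_proof (hC : Stmt_GeoC) (hL : Stmt_Lode) (hu : Stmt_Uniq) : Stmt_Ext := by
  intro p S b hg κ _ L hol y hy hloc
  obtain ⟨hCo, hCb, hCs, hCS⟩ := hC p S b hg.1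
  have hr := fun i => ray hC hL hu hg L hol y hy i (hloc i)
  choose V Z hVo hVray hVoth hZd hZy hZs using hr
  classical
  -- the index of the cut
  have hex : ∀ z, z ∉ Cut b S → ∃ i, ∃ t : ℝ, 1 ≤ t ∧ z = b + t * (S i - b) := by
    intro z hz
    simp only [Cut, mem_setOf_eq, not_forall, not_not] at hz
    obtain ⟨i, t, ht, h⟩ := hz
    exact ⟨i, t, ht, h⟩
  let Y : ℂ → κ → ℂ := fun z =>
    if h : z ∈ Cut b S then y z else Z (hex z h).choose z
  have hYC : ∀ z ∈ Cut b S, Y z = y z := fun z hz => dif_pos hz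
  have hYV : ∀ i, ∀ z ∈ V i, Y z = Z i z := by
    intro i z hz
    by_cases h : z ∈ Cut b S
    · rw [hYC z h, hZy i z hz h]
    · have e : Y z = Z (hex z h).choose z := dif_neg h
      rw [e]
      obtain ⟨t, ht, hzt⟩ := (hex z h).choose_spec
      have : (hex z h).choose = i := by
        by_contra hne
        apply hVoth i _ hne t ht
        rw [← hzt]
        exact hz
      rw [this]
  have hcov : ∀ z, z ∈ Cut b S ∨ ∃ i, z ∈ V i := by
    intro z
    by_cases h : z ∈ Cut b S
    · exact Or.inl h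
    · obtain ⟨i, t, ht, hz⟩ := hex z h
      refine Or.inr ⟨i, ?_⟩
      rw [hz]
      exact hVray i t ht
  refine ⟨Y, ?_, hYC, ?_⟩
  · intro k z
    rcases hcov z with h | ⟨i, h⟩
    · have e : (fun z => Y z k) =ᶠ[𝓝 z] (fun z => y z k) := by
        filter_upwards [hCo.mem_nhds h] with w hw
        rw [hYC w hw]
      exact (hy z h k).differentiableAt.congr_of_eventuallyEq e
    · have e : (fun z => Y z k) =ᶠ[𝓝 z] (fun z => Z i z k) := by
        filter_upwards [(hVo i).mem_nhds h] with w hw
        rw [hYV i w hw]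
      exact (hZd i z h k).congr_of_eventuallyEq e
  · intro s hs k
    rcases hcov s with h | ⟨i, h⟩
    · exact sol_congr hCo hy (fun z hz => hYC z hz) s h k
    · have e : (fun z => Y z k) =ᶠ[𝓝 s] (fun z => Z i z k) := by
        filter_upwards [(hVo i).mem_nhds h] with w hw
        rw [hYV i w hw]
      rw [hYV i s h]
      exact (hZs i s ⟨h, hs⟩ k).congr_of_eventuallyEq e

end Pool.Agent.GPH
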