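import Pool.Agent.GPH.IIStmts

/-!
# GPH, module FUND: the fundamental matrix on the cut plane
-/

open scoped BigOperators Topology
open Metric Set

namespace Pool.Agent.GPH

noncomputable section

namespace FUND_

lemma hd_mul {κ ι μ : Type} [Fintype κ] {A : ℂ → Matrix μ κ ℂ} {B : ℂ → Matrix κ ι ℂ}
    {A' : Matrix μ κ ℂ} {B' : Matrix κ ι ℂ} {s : ℂ}
    (hA : ∀ i j, HasDerivAt (fun z => A z i j) (A' i j) s)
    (hB : ∀ i j, HasDerivAt (fun z => B z i j) (B' i j) s) (i : μ) (j : ι) :
    HasDerivAt (fun z => (A z * B z) i j) ((A' * B s + A s * B') i j) s := by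
  simp only [Matrix.mul_apply, Matrix.add_apply, ← Finset.sum_add_distrib]
  exact HasDerivAt.fun_sum fun k _ => (hA i k).fun_mul (hB k j)

lemma res_alg {m : ℕ} {N : Matrix (Fin m) (Fin m) ℂ} (hN : N.transpose = -N)
    (x : Fin m → ℂ) : (res N x).transpose * N + N * res N x = 0 := by
  unfold res
  rw [Matrix.transpose_vecMulVec, Matrix.vecMulVec_mul, Matrix.mul_vecMulVec,
    ← Matrix.mulVec_transpose, hN, Matrix.neg_mulVec, Matrix.vecMulVec_neg, neg_add_cancel]

lemma Bf_alg {m p : ℕ} {N : Matrix (Fin m) (Fin m) ℂ} (hN : N.transpose = -N)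
    (S : Fin p → ℂ) (x : Fin p → Fin m → ℂ) (s : ℂ) :
    (Bf N S x s).transpose * N + N * Bf N S x s = 0 := by
  unfold Bf
  rw [Matrix.transpose_sum, Finset.sum_mul, Finset.mul_sum, ← Finset.sum_add_distrib]
  refine Finset.sum_eq_zero fun i _ => ?_
  rw [Matrix.transpose_smul, Matrix.smul_mul, Matrix.mul_smul, ← smul_add, res_alg hN, smul_zero]

lemma Bf_hol {m p : ℕ} (N : Matrix (Fin m) (Fin m) ℂ) (S : Fin p → ℂ)
    (x : Fin p → Fin m → ℂ) {U : Set ℂ} (hU : ∀ z ∈ U, ∀ i, z ≠ S i) : HolM U (Bf N S x) := by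
  intro k j
  have h1 : (fun z => Bf N S x z k j) = fun z => ∑ i, (z - S i)⁻¹ * res N (x i) k j := by
    funext z
    unfold Bf
    rw [Matrix.sum_apply]
    rfl
  rw [h1]
  refine DifferentiableOn.fun_sum fun i _ => ?_
  refine DifferentiableOn.mul_const ?_ _
  exact (differentiableOn_id.sub_const _).fun_inv fun z hz => sub_ne_zero.2 (hU z hz i)

end FUND_

open FUND_ in
theorem fund_proof (hGeoC : Stmt_GeoC) (hLode : Stmt_Lode) : Stmt_Fund := by
  intro m p N S x hF b hb
  obtain ⟨hopen, hbU, hstar, hoff⟩ := hGeoC p S b hb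
  have hhol : HolM (Cut b S) (Bf N S x) := Bf_hol N S x hoff
  choose y hy0 hy using fun j : Fin m =>
    hLode (Fin m) (Cut b S) b (Bf N S x) hopen hbU hstar hhol (Pi.single j 1)
  let Φ : ℂ → Matrix (Fin m) (Fin m) ℂ := fun s => Matrix.of fun k j => y j s k
  have hsol : MSol (Cut b S) (Bf N S x) Φ := fun s hs k j => hy j s hs k
  have hone : Φ b = 1 := by
    ext k j
    show y j b k = _
    rw [hy0 j, Matrix.one_apply, Pi.single_apply]
  refine ⟨Φ, hsol, hone, ?_⟩
  have hder : ∀ s ∈ Cut b S, ∀ i j, HasDerivAt (fun z => ((Φ z).transpose * N * Φ z) i j) 0 s := by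
    intro s hs i j
    have h1 : ∀ i j, HasDerivAt (fun z => (Φ z) i j) ((Bf N S x s * Φ s) i j) s :=
      fun i j => hsol s hs i j
    have h2 : ∀ i j, HasDerivAt (fun z => (Φ z).transpose i j)
        ((Bf N S x s * Φ s).transpose i j) s := fun i j => h1 j i
    have h3 : ∀ i j, HasDerivAt (fun _ : ℂ => N i j) ((0 : Matrix (Fin m) (Fin m) ℂ) i j) s :=
      fun i j => hasDerivAt_const _ _
    have h4 := hd_mul (hd_mul h2 h3) h1 i j
    have h5 : (((Bf N S x s * Φ s).transpose * N + (Φ s).transpose * 0) * Φ s +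
        (Φ s).transpose * N * (Bf N S x s * Φ s)) = 0 := by
      have h6 := Bf_alg hF.anti S x s
      calc _ = (Φ s).transpose * ((Bf N S x s).transpose * N + N * Bf N S x s) * Φ s := by
            rw [Matrix.transpose_mul]
            simp only [Matrix.mul_zero, add_zero, Matrix.mul_add, Matrix.add_mul,
              Matrix.mul_assoc]
        _ = 0 := by rw [h6, Matrix.mul_zero, Matrix.zero_mul]
    rw [h5] at h4
    exact h4
  intro s hs
  ext i j
  have hpre : IsPreconnected (Cut b S) := (hstar.isPathConnected hbU).isConnected.isPreconnected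
  have hc := hopen.is_const_of_deriv_eq_zero hpre
    (f := fun z => ((Φ z).transpose * N * Φ z) i j)
    (fun z hz => (hder z hz i j).differentiableAt.differentiableWithinAt)
    (fun z hz => (hder z hz i j).deriv) hs hbU
  have hc' : ((Φ s).transpose * N * Φ s) i j = ((Φ b).transpose * N * Φ b) i j := hc
  rw [hc', hone, Matrix.transpose_one, Matrix.one_mul, Matrix.mul_one]

end

end Pool.Agent.GPH
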