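import Pool.Agent.GPH.IIStmts

/-!
# GPH, part II, module GROW: Gronwall and Liouville
-/

open scoped BigOperators Topology
open Metric Set Filter

namespace Pool.Agent.GPH

namespace GROW_

/-- Gronwall along a ray. -/
theorem ray {m : ℕ} (r0 : ℝ) (hr0 : 0 < r0) (B Y : ℂ → Matrix (Fin m) (Fin m) ℂ) (h M : ℝ)
    (hh : 0 ≤ h)
    (hrow : ∀ s : ℂ, r0 ≤ ‖s‖ → ∀ i, ∑ j, ‖s * B s i j‖ ≤ h)
    (hcol : ∀ s : ℂ, r0 ≤ ‖s‖ → ∀ j, ∑ i, ‖s * B s i j‖ ≤ h)
    (hder : ∀ s : ℂ, r0 ≤ ‖s‖ → ∀ i j, HasDerivAt (fun z => Y z i j)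
      ((B s * Y s - Y s * B s) i j) s)
    (hM : ∀ s : ℂ, ‖s‖ = r0 → ∀ i j, ‖Y s i j‖ ≤ M) (hM0 : 0 ≤ M)
    (u : ℂ) (hu : ‖u‖ = 1) (τ : ℝ) (hτ : 0 ≤ τ) (i j : Fin m) :
    ‖Y ((r0 * Real.exp τ : ℝ) * u) i j‖ ≤ M * Real.exp (2 * h * τ) := by
  set γ : ℝ → ℂ := fun t => ((r0 * Real.exp t : ℝ) : ℂ) * u with hγ
  have hγn : ∀ t, ‖γ t‖ = r0 * Real.exp t := by
    intro t
    rw [hγ]
    simp only [norm_mul, hu, mul_one, Complex.norm_real, Real.norm_eq_abs]
    rw [abs_of_pos hr0, abs_of_pos (Real.exp_pos t)]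
  have hγr : ∀ t, 0 ≤ t → r0 ≤ ‖γ t‖ := by
    intro t ht
    rw [hγn]
    nlinarith [Real.one_le_exp ht]
  have hγd : ∀ t, HasDerivAt γ (γ t) t := by
    intro t
    have h1 : HasDerivAt (fun t : ℝ => r0 * Real.exp t) (r0 * Real.exp t) t :=
      (Real.hasDerivAt_exp t).const_mul r0
    exact (h1.ofReal_comp).mul_const u
  set g : ℝ → Fin m → Fin m → ℂ := fun t i j => Y (γ t) i j with hg
  have hgd : ∀ t, 0 ≤ t → HasDerivAt g
      (fun i j => γ t * ((B (γ t) * Y (γ t) - Y (γ t) * B (γ t)) i j)) t := by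
    intro t ht
    rw [hasDerivAt_pi]
    intro i
    rw [hasDerivAt_pi]
    intro j
    have h1 := hder (γ t) (hγr t ht) i j
    have h2 := h1.comp_of_eq t (hγd t) rfl
    have h3 : (fun z => Y z i j) ∘ γ = fun t => g t i j := rfl
    rw [h3] at h2
    rw [mul_comm]
    exact h2
  have hbd : ∀ t, 0 ≤ t →
      ‖(fun i j => γ t * ((B (γ t) * Y (γ t) - Y (γ t) * B (γ t)) i j) : Fin m → Fin m → ℂ)‖
        ≤ 2 * h * ‖g t‖ + 0 := by
    intro t ht
    rw [add_zero]
    have hnn : 0 ≤ 2 * h * ‖g t‖ := by positivity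
    rw [pi_norm_le_iff_of_nonneg hnn]
    intro i
    rw [pi_norm_le_iff_of_nonneg hnn]
    intro j
    have hgij : ∀ a b, ‖Y (γ t) a b‖ ≤ ‖g t‖ := by
      intro a b
      exact (norm_le_pi_norm (g t a) b).trans (norm_le_pi_norm (g t) a)
    have e1 : γ t * ((B (γ t) * Y (γ t) - Y (γ t) * B (γ t)) i j) =
        (∑ k, (γ t * B (γ t) i k) * Y (γ t) k j) -
          ∑ k, Y (γ t) i k * (γ t * B (γ t) k j) := by
      rw [Matrix.sub_apply, Matrix.mul_apply, Matrix.mul_apply, mul_sub, Finset.mul_sum,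
        Finset.mul_sum]
      congr 1
      · exact Finset.sum_congr rfl fun k _ => by ring
      · exact Finset.sum_congr rfl fun k _ => by ring
    rw [e1]
    have b1 : ‖∑ k, (γ t * B (γ t) i k) * Y (γ t) k j‖ ≤ h * ‖g t‖ := by
      refine (norm_sum_le _ _).trans ?_
      calc ∑ k, ‖(γ t * B (γ t) i k) * Y (γ t) k j‖
          ≤ ∑ k, ‖γ t * B (γ t) i k‖ * ‖g t‖ := by
            refine Finset.sum_le_sum fun k _ => ?_
            rw [norm_mul]
            exact mul_le_mul_of_nonneg_left (hgij k j) (norm_nonneg _)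
        _ = (∑ k, ‖γ t * B (γ t) i k‖) * ‖g t‖ := by rw [Finset.sum_mul]
        _ ≤ h * ‖g t‖ := mul_le_mul_of_nonneg_right (hrow _ (hγr t ht) i) (norm_nonneg _)
    have b2 : ‖∑ k, Y (γ t) i k * (γ t * B (γ t) k j)‖ ≤ h * ‖g t‖ := by
      refine (norm_sum_le _ _).trans ?_
      calc ∑ k, ‖Y (γ t) i k * (γ t * B (γ t) k j)‖
          ≤ ∑ k, ‖γ t * B (γ t) k j‖ * ‖g t‖ := by
            refine Finset.sum_le_sum fun k _ => ?_
            rw [norm_mul, mul_comm]
            exact mul_le_mul_of_nonneg_left (hgij i k) (norm_nonneg _)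
        _ = (∑ k, ‖γ t * B (γ t) k j‖) * ‖g t‖ := by rw [Finset.sum_mul]
        _ ≤ h * ‖g t‖ := mul_le_mul_of_nonneg_right (hcol _ (hγr t ht) j) (norm_nonneg _)
    have b3 := norm_sub_le (∑ k, (γ t * B (γ t) i k) * Y (γ t) k j)
      (∑ k, Y (γ t) i k * (γ t * B (γ t) k j))
    linarith
  have h0 : ‖g 0‖ ≤ M := by
    rw [pi_norm_le_iff_of_nonneg hM0]
    intro i
    rw [pi_norm_le_iff_of_nonneg hM0]
    intro j
    refine hM (γ 0) ?_ i j
    rw [hγn]
    simp
  have key := norm_le_gronwallBound_of_norm_deriv_right_le (f := g)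
    (f' := fun t => (fun i j => γ t * ((B (γ t) * Y (γ t) - Y (γ t) * B (γ t)) i j)))
    (δ := M) (K := 2 * h) (ε := 0) (a := 0) (b := τ)
    (fun t ht => ((hgd t ht.1).continuousAt).continuousWithinAt)
    (fun t ht => (hgd t ht.1).hasDerivWithinAt) h0 (fun t ht => hbd t ht.1) τ ⟨hτ, le_refl τ⟩
  rw [gronwallBound_ε0, sub_zero] at key
  exact ((norm_le_pi_norm (g τ i) j).trans (norm_le_pi_norm (g τ) i)).trans key

/-- Functions of growth less than linear are constant. -/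
theorem liouv (f : ℂ → ℂ) (hf : Differentiable ℂ f) (r0 : ℝ) (hr0 : 0 < r0) (M α : ℝ)
    (hα0 : 0 ≤ α) (hα : α < 1) (hM : 0 ≤ M)
    (hb : ∀ z : ℂ, r0 ≤ ‖z‖ → ‖f z‖ ≤ M * (‖z‖ / r0) ^ α) : ∀ z, f z = f 0 := by
  have hd : ∀ c, deriv f c = 0 := by
    intro c
    have hlim : Tendsto (fun R : ℝ => M * ((‖c‖ + R) / r0) ^ α / R) atTop (𝓝 0) := by
      have h1 : Tendsto (fun R : ℝ => M * ((2 * R) / r0) ^ α / R) atTop (𝓝 0) := by
        have h2 : Tendsto (fun R : ℝ => R ^ (-(1 - α))) atTop (𝓝 0) :=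
          tendsto_rpow_neg_atTop (by linarith)
        have h3 := h2.const_mul (M * (2 / r0) ^ α)
        rw [mul_zero] at h3
        refine h3.congr' ?_
        filter_upwards [eventually_gt_atTop 0] with R hR
        have e1 : (2 * R) / r0 = (2 / r0) * R := by ring
        rw [e1, Real.mul_rpow (by positivity) hR.le]
        have e2 : -(1 - α) = α - 1 := by ring
        rw [e2, Real.rpow_sub hR, Real.rpow_one]
        ring
      refine squeeze_zero' ?_ ?_ h1
      · filter_upwards [eventually_gt_atTop 0] with R hR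
        positivity
      · filter_upwards [eventually_gt_atTop 0, eventually_ge_atTop ‖c‖] with R hR hRc
        have : ((‖c‖ + R) / r0) ^ α ≤ ((2 * R) / r0) ^ α := by
          refine Real.rpow_le_rpow (by positivity) ?_ hα0
          gcongr
          linarith
        gcongr
    have hle : ∀ᶠ R : ℝ in atTop, ‖deriv f c‖ ≤ M * ((‖c‖ + R) / r0) ^ α / R := by
      filter_upwards [eventually_gt_atTop 0, eventually_ge_atTop (‖c‖ + r0)] with R hR hRc
      refine Complex.norm_deriv_le_of_forall_mem_sphere_norm_le hR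
        (hf.diffContOnCl) ?_
      intro z hz
      have hz' : ‖z - c‖ = R := by
        rw [mem_sphere, dist_eq_norm] at hz
        exact hz
      have h1 : r0 ≤ ‖z‖ := by
        have := norm_sub_le z c
        have h2 : ‖z - c‖ ≤ ‖z‖ + ‖c‖ := norm_sub_le z c
        linarith
      have h3 : ‖z‖ ≤ ‖c‖ + R := by
        have : z = c + (z - c) := by ring
        calc ‖z‖ = ‖c + (z - c)‖ := by rw [← this]
          _ ≤ ‖c‖ + ‖z - c‖ := norm_add_le _ _
          _ = ‖c‖ + R := by rw [hz']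
      refine (hb z h1).trans ?_
      refine mul_le_mul_of_nonneg_left ?_ hM
      refine Real.rpow_le_rpow (by positivity) ?_ hα0
      gcongr
    have h4 : ‖deriv f c‖ ≤ 0 := ge_of_tendsto hlim hle
    exact norm_le_zero_iff.1 h4
  intro z
  exact is_const_of_deriv_eq_zero hf hd z 0

theorem const {m : ℕ} (r0 : ℝ) (hr0 : 0 < r0) (B Y : ℂ → Matrix (Fin m) (Fin m) ℂ) (h : ℝ)
    (hh : 0 ≤ h) (hh1 : 2 * h < 1)
    (hrow : ∀ s : ℂ, r0 ≤ ‖s‖ → ∀ i, ∑ j, ‖s * B s i j‖ ≤ h)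
    (hcol : ∀ s : ℂ, r0 ≤ ‖s‖ → ∀ j, ∑ i, ‖s * B s i j‖ ≤ h)
    (hdiff : ∀ i j, Differentiable ℂ (fun z => Y z i j))
    (hder : ∀ s : ℂ, r0 ≤ ‖s‖ → ∀ i j, HasDerivAt (fun z => Y z i j)
      ((B s * Y s - Y s * B s) i j) s) (i j : Fin m) (s : ℂ) : Y s i j = Y 0 i j := by
  -- the bound on the circle
  have hM : ∃ M : ℝ, 0 ≤ M ∧ ∀ s : ℂ, ‖s‖ = r0 → ∀ i j, ‖Y s i j‖ ≤ M := by
    have h1 : ∀ i j, ∃ M : ℝ, ∀ s ∈ sphere (0 : ℂ) r0, ‖Y s i j‖ ≤ M := by
      intro i j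
      exact (isCompact_sphere (0 : ℂ) r0).exists_bound_of_continuousOn
        (hdiff i j).continuous.continuousOn
    choose Mf hMf using h1
    refine ⟨∑ i, ∑ j, |Mf i j|, Finset.sum_nonneg fun _ _ => Finset.sum_nonneg fun _ _ =>
      abs_nonneg _, ?_⟩
    intro s hs i j
    have h2 : ‖Y s i j‖ ≤ |Mf i j| :=
      (hMf i j s (by rw [mem_sphere, dist_zero_right]; exact hs)).trans (le_abs_self _)
    refine h2.trans ?_
    have h3 : |Mf i j| ≤ ∑ j, |Mf i j| :=
      Finset.single_le_sum (f := fun j => |Mf i j|) (fun _ _ => abs_nonneg _) (Finset.mem_univ j)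
    refine h3.trans ?_
    exact Finset.single_le_sum (f := fun i => ∑ j, |Mf i j|)
      (fun _ _ => Finset.sum_nonneg fun _ _ => abs_nonneg _) (Finset.mem_univ i)
  obtain ⟨M, hM0, hM⟩ := hM
  refine liouv (fun z => Y z i j) (hdiff i j) r0 hr0 M (2 * h) (by linarith) hh1 hM0 ?_ s
  intro z hz
  have hzpos : 0 < ‖z‖ := hr0.trans_le hz
  have hz0 : z ≠ 0 := norm_pos_iff.1 hzpos
  set τ : ℝ := Real.log (‖z‖ / r0) with hτ
  have hτ0 : 0 ≤ τ := Real.log_nonneg (by rw [le_div_iff₀ hr0]; linarith)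
  have hexp : Real.exp τ = ‖z‖ / r0 := Real.exp_log (by positivity)
  set u : ℂ := z / ‖z‖ with hu
  have hun : ‖u‖ = 1 := by
    rw [hu, norm_div, Complex.norm_real, norm_norm]
    exact div_self hzpos.ne'
  have key := ray r0 hr0 B Y h M hh hrow hcol hder hM hM0 u hun τ hτ0 i j
  have e1 : ((r0 * Real.exp τ : ℝ) : ℂ) * u = z := by
    rw [hexp, mul_div_cancel₀ _ hr0.ne', hu]
    have : (‖z‖ : ℂ) ≠ 0 := by
      exact_mod_cast hzpos.ne'
    field_simp
  rw [e1] at key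
  have e2 : Real.exp (2 * h * τ) = (‖z‖ / r0) ^ (2 * h) := by
    rw [Real.rpow_def_of_pos (by positivity), ← hτ]
    ring_nf
  rw [e2] at key
  exact key

/-- The entries of the conjugated residue at infinity. -/
theorem weight {m : ℕ} (E : Matrix (Fin m) (Fin m) ℂ) (tri : ∀ i j, i < j → E i j = 0)
    (dia : ∀ i, ‖E i i‖ < 1 / 2) :
    ∃ T : ℝ, 0 < T ∧ (∀ i : Fin m, ∑ j : Fin m, ‖((T ^ (j : ℕ) / T ^ (i : ℕ) : ℝ) : ℂ) * E i j‖ < 1 / 2) ∧
      ∀ j : Fin m, ∑ i : Fin m, ‖((T ^ (j : ℕ) / T ^ (i : ℕ) : ℝ) : ℂ) * E i j‖ < 1 / 2 := by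
  have hterm : ∀ i j : Fin m, Tendsto
      (fun T : ℝ => ‖((T ^ (j : ℕ) / T ^ (i : ℕ) : ℝ) : ℂ) * E i j‖) atTop
      (𝓝 (if i = j then ‖E i i‖ else 0)) := by
    intro i j
    rcases lt_trichotomy i j with hij | hij | hij
    · rw [if_neg hij.ne, tri i j hij]
      simp
    · subst hij
      rw [if_pos rfl]
      refine tendsto_const_nhds.congr' ?_
      filter_upwards [eventually_gt_atTop 0] with T hT
      rw [div_self (by positivity)]
      simp
    · rw [if_neg hij.ne']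
      have h1 : Tendsto (fun T : ℝ => T ^ (j : ℕ) / T ^ (i : ℕ)) atTop (𝓝 0) :=
        tendsto_pow_div_pow_atTop_zero hij
      have h2 : Tendsto (fun T : ℝ => ((T ^ (j : ℕ) / T ^ (i : ℕ) : ℝ) : ℂ)) atTop (𝓝 0) := by
        have := (Complex.continuous_ofReal.tendsto 0).comp h1
        rw [Complex.ofReal_zero] at this
        exact this
      have h3 := (h2.mul_const (E i j)).norm
      rw [zero_mul, norm_zero] at h3
      exact h3
  have hrow : ∀ᶠ T : ℝ in atTop,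
      ∀ i : Fin m, ∑ j : Fin m, ‖((T ^ (j : ℕ) / T ^ (i : ℕ) : ℝ) : ℂ) * E i j‖ < 1 / 2 := by
    rw [eventually_all]
    intro i
    have h1 := tendsto_finsetSum (Finset.univ : Finset (Fin m)) (fun j _ => hterm i j)
    have h2 : (∑ j : Fin m, if i = j then ‖E i i‖ else 0) = ‖E i i‖ := by
      rw [Finset.sum_ite_eq]
      simp
    rw [h2] at h1
    exact h1.eventually (gt_mem_nhds (dia i))
  have hcol : ∀ᶠ T : ℝ in atTop,
      ∀ j : Fin m, ∑ i : Fin m, ‖((T ^ (j : ℕ) / T ^ (i : ℕ) : ℝ) : ℂ) * E i j‖ < 1 / 2 := by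
    rw [eventually_all]
    intro j
    have h1 := tendsto_finsetSum (Finset.univ : Finset (Fin m)) (fun i _ => hterm i j)
    have h2 : (∑ i : Fin m, if i = j then ‖E i i‖ else 0) = ‖E j j‖ := by
      rw [Finset.sum_ite_eq']
      simp
    rw [h2] at h1
    exact h1.eventually (gt_mem_nhds (dia j))
  obtain ⟨T, hT0, hT1, hT2⟩ := ((eventually_gt_atTop (0 : ℝ)).and (hrow.and hcol)).exists
  exact ⟨T, hT0, hT1, hT2⟩

/-- `s B(s)` tends to the sum of the residues. -/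
theorem limB {m p : ℕ} (N : Matrix (Fin m) (Fin m) ℂ) (S : Fin p → ℂ)
    (x : Fin p → Fin m → ℂ) (i j : Fin m) :
    Tendsto (fun s : ℂ => s * Bf N S x s i j) (Bornology.cobounded ℂ)
      (𝓝 ((∑ k, res N (x k)) i j)) := by
  have h1 : ∀ k : Fin p, Tendsto (fun s : ℂ => s * (s - S k)⁻¹) (Bornology.cobounded ℂ)
      (𝓝 1) := by
    intro k
    have h2 : Tendsto (fun s : ℂ => s - S k) (Bornology.cobounded ℂ)
        (Bornology.cobounded ℂ) := by
      have := tendsto_sub_const_cobounded (S k)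
      exact this
    have h3 : Tendsto (fun s : ℂ => (s - S k)⁻¹) (Bornology.cobounded ℂ) (𝓝 0) :=
      tendsto_inv₀_cobounded.comp h2
    have h4 := (h3.const_mul (S k)).const_add 1
    rw [mul_zero, add_zero] at h4
    refine h4.congr' ?_
    have h5 : ∀ᶠ s : ℂ in Bornology.cobounded ℂ, s - S k ≠ 0 :=
      h2.eventually (Bornology.eventually_ne_cobounded 0)
    filter_upwards [h5] with s hs
    field_simp
    ring
  have h6 : (fun s : ℂ => s * Bf N S x s i j) =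
      fun s : ℂ => ∑ k, (s * (s - S k)⁻¹) * res N (x k) i j := by
    funext s
    unfold Bf
    rw [Matrix.sum_apply, Finset.mul_sum]
    refine Finset.sum_congr rfl fun k _ => ?_
    rw [Matrix.smul_apply, smul_eq_mul]
    ring
  rw [h6, Matrix.sum_apply]
  refine tendsto_finsetSum _ fun k _ => ?_
  have := (h1 k).mul_const (res N (x k) i j)
  rwa [one_mul] at this

end GROW_

open GROW_ in
/-- GROW -/
theorem grow_proof : Stmt_Grow := by
  intro m p N S x hF Y hdiff hder s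
  set E := ∑ k, res N (x k) with hE
  obtain ⟨T, hT, hrow, hcol⟩ := weight E hF.tri hF.dia
  set c : Fin m → Fin m → ℂ := fun i j => ((T ^ (j : ℕ) / T ^ (i : ℕ) : ℝ) : ℂ) with hc
  have hc0 : ∀ i j, c i j ≠ 0 := by
    intro i j
    have : (T ^ (j : ℕ) / T ^ (i : ℕ) : ℝ) ≠ 0 := by positivity
    exact Complex.ofReal_ne_zero.2 this
  have hcm : ∀ i k j, c i k * c k j = c i j := by
    intro i k j
    simp only [hc]
    rw [← Complex.ofReal_mul]
    congr 1
    have h1 : (T ^ (k : ℕ)) ≠ 0 := by positivity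
    have h2 : (T ^ (i : ℕ)) ≠ 0 := by positivity
    field_simp
  -- a bound smaller than 1/2
  obtain ⟨h, hhalf, hrow', hcol', hpos⟩ : ∃ h : ℝ, h < 1 / 2 ∧
      (∀ i, ∑ j : Fin m, ‖c i j * E i j‖ < h) ∧ (∀ j, ∑ i : Fin m, ‖c i j * E i j‖ < h) ∧
      0 < h := by
    have e1 : ∀ᶠ h : ℝ in 𝓝[<] (1 / 2), ∀ i, ∑ j : Fin m, ‖c i j * E i j‖ < h := by
      rw [eventually_all]
      intro i
      exact eventually_nhdsWithin_of_eventually_nhds (lt_mem_nhds (hrow i))
    have e2 : ∀ᶠ h : ℝ in 𝓝[<] (1 / 2), ∀ j, ∑ i : Fin m, ‖c i j * E i j‖ < h := by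
      rw [eventually_all]
      intro i
      exact eventually_nhdsWithin_of_eventually_nhds (lt_mem_nhds (hcol i))
    have e3 : ∀ᶠ h : ℝ in 𝓝[<] (1 / 2), 0 < h :=
      eventually_nhdsWithin_of_eventually_nhds (lt_mem_nhds (by norm_num))
    have e4 : ∀ᶠ h : ℝ in 𝓝[<] (1 / 2), h < 1 / 2 := self_mem_nhdsWithin
    obtain ⟨h, a1, a2, a3, a4⟩ := (e4.and (e1.and (e2.and e3))).exists
    exact ⟨h, a1, a2, a3, a4⟩
  have hB : ∀ i j, Tendsto (fun s : ℂ => ‖s * (c i j * Bf N S x s i j)‖)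
      (Bornology.cobounded ℂ) (𝓝 ‖c i j * E i j‖) := by
    intro i j
    have h1 := ((limB N S x i j).const_mul (c i j)).norm
    refine h1.congr fun s => ?_
    congr 1
    ring
  have hrowB : ∀ᶠ s : ℂ in Bornology.cobounded ℂ,
      ∀ i, ∑ j, ‖s * (c i j * Bf N S x s i j)‖ < h := by
    rw [eventually_all]
    intro i
    exact (tendsto_finsetSum _ fun j _ => hB i j).eventually (gt_mem_nhds (hrow' i))
  have hcolB : ∀ᶠ s : ℂ in Bornology.cobounded ℂ,
      ∀ j, ∑ i, ‖s * (c i j * Bf N S x s i j)‖ < h := by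
    rw [eventually_all]
    intro j
    exact (tendsto_finsetSum _ fun i _ => hB i j).eventually (gt_mem_nhds (hcol' j))
  have hoff : ∀ᶠ s : ℂ in Bornology.cobounded ℂ, s ∈ Off S := by
    have : ∀ᶠ s : ℂ in Bornology.cobounded ℂ, ∀ i, s ≠ S i := by
      rw [eventually_all]
      intro i
      exact Bornology.eventually_ne_cobounded (S i)
    exact this
  obtain ⟨r, -, hr⟩ := (hasBasis_cobounded_norm (E := ℂ)).mem_iff.1
    (hrowB.and (hcolB.and hoff))
  set r0 := max r 1 with hr0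
  have hr0' : 0 < r0 := lt_of_lt_of_le one_pos (le_max_right _ _)
  have hin : ∀ s : ℂ, r0 ≤ ‖s‖ → (∀ i, ∑ j, ‖s * (c i j * Bf N S x s i j)‖ < h) ∧
      (∀ j, ∑ i, ‖s * (c i j * Bf N S x s i j)‖ < h) ∧ s ∈ Off S := by
    intro s hs
    exact hr ((le_max_left r 1).trans hs)
  set B' : ℂ → Matrix (Fin m) (Fin m) ℂ := fun s => Matrix.of fun i j => c i j * Bf N S x s i j
    with hB'
  set Y' : ℂ → Matrix (Fin m) (Fin m) ℂ := fun s => Matrix.of fun i j => c i j * Y s i j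
    with hY'
  have hconst := const r0 hr0' B' Y' h hpos.le (by linarith)
    (fun s hs i => ((hin s hs).1 i).le) (fun s hs j => ((hin s hs).2.1 j).le)
    (fun i j => (hdiff i j).const_mul (c i j))
    (by
      intro s hs i j
      have h1 := (hder s (hin s hs).2.2 i j).const_mul (c i j)
      have e1 : (B' s * Y' s - Y' s * B' s) i j =
          c i j * (Bf N S x s * Y s - Y s * Bf N S x s) i j := by
        rw [Matrix.sub_apply, Matrix.sub_apply, Matrix.mul_apply, Matrix.mul_apply,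
          Matrix.mul_apply, Matrix.mul_apply, mul_sub, Finset.mul_sum, Finset.mul_sum]
        congr 1
        · refine Finset.sum_congr rfl fun k _ => ?_
          simp only [hB', hY', Matrix.of_apply]
          rw [← hcm i k j]
          ring
        · refine Finset.sum_congr rfl fun k _ => ?_
          simp only [hB', hY', Matrix.of_apply]
          rw [← hcm i k j]
          ring
      rw [e1]
      exact h1)
  ext i j
  have h1 := hconst i j s
  simp only [hY', Matrix.of_apply] at h1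
  exact mul_left_cancel₀ (hc0 i j) h1

end Pool.Agent.GPH
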