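import Pool.Agent.GPH.IIStmts

/-!
# GPH, GEOC: the cut plane is open and star shaped
-/

open scoped BigOperators Topology
open Metric Set

namespace Pool.Agent.GPH

theorem geoC_proof : Stmt_GeoC := by
  intro p S b hS
  have hne : ∀ i, S i - b ≠ 0 := fun i => sub_ne_zero.2 (hS i)
  have heq : Cut b S = ⋂ i, (fun z => (z - b) / (S i - b)) ⁻¹' {w : ℂ | w.im = 0 ∧ 1 ≤ w.re}ᶜ := by
    ext z
    simp only [Cut, mem_ofPred_eq, mem_iInter, mem_preimage, mem_compl_iff]
    refine forall_congr' fun i => ?_
    constructor
    · rintro h ⟨h1, h2⟩
      apply h _ h2
      have h3 : ((((z - b) / (S i - b)).re : ℝ) : ℂ) = (z - b) / (S i - b) :=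
        Complex.ext (by simp) (by simp [h1])
      rw [h3]
      have := hne i
      field_simp
      ring
    · rintro h t ht rfl
      apply h
      have h3 : (b + (t : ℂ) * (S i - b) - b) / (S i - b) = t := by
        have := hne i
        field_simp
        ring
      rw [h3]
      exact ⟨Complex.ofReal_im t, by rw [Complex.ofReal_re]; exact ht⟩
  refine ⟨?_, ?_, ?_, ?_⟩
  · rw [heq]
    apply isOpen_iInter_of_finite
    intro i
    apply IsOpen.preimage
    · exact (continuous_id.sub continuous_const).div_const _
    · rw [isOpen_compl_iff]
      exact (isClosed_eq Complex.continuous_im continuous_const).inter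
        (isClosed_le continuous_const Complex.continuous_re)
  · intro i t ht h
    have h1 : (t : ℂ) * (S i - b) = 0 := by
      have := congrArg (fun z => z - b) h
      simpa using this.symm
    rcases mul_eq_zero.1 h1 with h2 | h2
    · have : t = 0 := by exact_mod_cast h2
      linarith
    · exact hne i h2
  · intro z hz a c ha hc hac i t ht h
    have e : a • b + c • z = b + (c : ℂ) * (z - b) := by
      have : a = 1 - c := by linarith
      subst this
      simp only [Complex.real_smul]
      push_cast
      ring
    rw [e] at h
    have h1 : (c : ℂ) * (z - b) = (t : ℂ) * (S i - b) := add_left_cancel h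
    rcases hc.eq_or_lt with hc0 | hc0
    · rw [← hc0, Complex.ofReal_zero, zero_mul] at h1
      rcases mul_eq_zero.1 h1.symm with h2 | h2
      · have : t = 0 := by exact_mod_cast h2
        linarith
      · exact hne i h2
    · have hc' : (c : ℂ) ≠ 0 := by exact_mod_cast hc0.ne'
      apply hz i (t / c)
      · rw [le_div_iff₀ hc0]
        linarith
      · push_cast
        have : z - b = (t : ℂ) / c * (S i - b) := by
          field_simp
          rw [← h1]
          ring
        rw [← this]
        ring
  · rintro z hz i rfl
    apply hz i 1 le_rfl
    push_cast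
    ring

end Pool.Agent.GPH
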