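import Pool.Agent.GPH.IIStmts

/-!
# GPH part II, module GEOB: choice of the base point
-/

open scoped BigOperators Topology
open Metric Set

namespace Pool.Agent.GPH

namespace GeoB_

lemma quad_finite (a b c : ℝ) (h : a ≠ 0 ∨ b ≠ 0) :
    {τ : ℝ | a * τ ^ 2 + b * τ + c = 0}.Finite := by
  set P : Polynomial ℝ := Polynomial.C a * Polynomial.X ^ 2 + Polynomial.C b * Polynomial.X +
    Polynomial.C c with hP
  have h2 : P.coeff 2 = a := by
    rw [hP]
    simp
  have h1 : P.coeff 1 = b := by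
    rw [hP]
    simp [Polynomial.coeff_C, Polynomial.coeff_X_pow]
  have hP0 : P ≠ 0 := by
    intro h0
    rw [h0] at h1 h2
    rw [Polynomial.coeff_zero] at h1 h2
    rcases h with h | h
    · exact h h2.symm
    · exact h h1.symm
  refine (P.roots.toFinset.finite_toSet).subset fun τ hτ => ?_
  rw [Finset.mem_coe, Multiset.mem_toFinset, Polynomial.mem_roots hP0, Polynomial.IsRoot.def, hP]
  have hτ' : a * τ ^ 2 + b * τ + c = 0 := hτ
  simpa using hτ'

lemma im_zero {x y : ℂ} {t : ℝ} (h : x = t * y) : x.im * y.re - x.re * y.im = 0 := by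
  rw [h]
  simp
  ring

end GeoB_

theorem geob_proof : Stmt_GeoB := by
  intro p S hS b0 ρ hρ
  have hd : 0 < ρ / 3 := by positivity
  set d := ρ / 3 with hd'
  -- the bad parameters
  have hF1 : ∀ i, {τ : ℝ | 0 * τ ^ 2 + d * τ + (b0.re - (S i).re) = 0}.Finite :=
    fun i => GeoB_.quad_finite _ _ _ (Or.inr hd.ne')
  have hF2 : ∀ q : {q : Fin p × Fin p // q.1 ≠ q.2},
      {τ : ℝ | (-((S q.1.1).re - (S q.1.2).re) * d) * τ ^ 2 +
        (((S q.1.1).im - (S q.1.2).im) * d) * τ +
        ((S q.1.2).im * (S q.1.1).re - (S q.1.2).re * (S q.1.1).im +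
          ((S q.1.1).im - (S q.1.2).im) * b0.re - ((S q.1.1).re - (S q.1.2).re) * b0.im) = 0}.Finite := by
    rintro ⟨⟨i, j⟩, hij⟩
    refine GeoB_.quad_finite _ _ _ ?_
    by_contra hcon
    push Not at hcon
    obtain ⟨h1, h2⟩ := hcon
    apply hij
    apply hS
    apply Complex.ext
    · have := (mul_eq_zero.1 h1).resolve_right hd.ne'
      linarith
    · have := (mul_eq_zero.1 h2).resolve_right hd.ne'
      linarith
  have hfin := (Set.finite_iUnion hF1).union (Set.finite_iUnion hF2)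
  obtain ⟨τ, hτ, hτ'⟩ := (Set.Ioo_infinite (show (0 : ℝ) < 1 by norm_num)).exists_notMem_finite hfin
  rw [Set.mem_union, not_or, Set.mem_iUnion, Set.mem_iUnion, not_exists, not_exists] at hτ'
  obtain ⟨hn1, hn2⟩ := hτ'
  have hre : (b0 + d * ((τ : ℂ) + Complex.I * (τ : ℂ) ^ 2)).re = b0.re + d * τ := by
    simp [← Complex.ofReal_pow]
  have him : (b0 + d * ((τ : ℂ) + Complex.I * (τ : ℂ) ^ 2)).im = b0.im + d * τ ^ 2 := by
    simp [← Complex.ofReal_pow]
  refine ⟨b0 + d * ((τ : ℂ) + Complex.I * (τ : ℂ) ^ 2), ?_, ?_, ?_⟩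
  · rw [mem_ball, dist_eq_norm, add_sub_cancel_left, norm_mul, Complex.norm_real,
      Real.norm_eq_abs, abs_of_pos hd]
    have h1 : ‖(τ : ℂ) + Complex.I * (τ : ℂ) ^ 2‖ ≤ 2 := by
      refine (norm_add_le _ _).trans ?_
      rw [norm_mul, Complex.norm_I, norm_pow, Complex.norm_real, Real.norm_eq_abs,
        abs_of_pos hτ.1]
      nlinarith [hτ.1, hτ.2]
    nlinarith [h1, hd]
  · intro i h
    apply hn1 i
    have := congrArg Complex.re h
    rw [hre] at this
    show 0 * τ ^ 2 + d * τ + (b0.re - (S i).re) = 0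
    linarith
  · intro i j hij t _ h
    apply hn2 ⟨(i, j), hij⟩
    have h1 := GeoB_.im_zero h
    rw [Complex.sub_re, Complex.sub_im, Complex.sub_re, Complex.sub_im, hre, him] at h1
    show _ = _
    simp only
    linarith

end Pool.Agent.GPH
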