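import Pool.Agent.GPH.IIStmts

open scoped BigOperators Topology
open Metric Set

namespace Pool.Agent.GPH

namespace Hor_

open Matrix

/-- A matrix with `Wᵀ N W = lam J` has a two sided inverse. -/
lemma exists_inv {g : ℕ} {N : Matrix (Fin (2 * g)) (Fin (2 * g)) ℂ}
    {W : Matrix (Fin (2 * g)) (HGP.Ix g) ℂ} {lam : ℂ} (hl : lam ≠ 0)
    (h : W.transpose * N * W = lam • Matrix.J (Fin g) ℂ) :
    ∃ V : Matrix (HGP.Ix g) (Fin (2 * g)) ℂ, V * W = 1 ∧ W * V = 1 := by
  have hJ : Matrix.J (Fin g) ℂ * Matrix.J (Fin g) ℂ = -1 := Matrix.J_squared _ _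
  have h1 : (-(lam⁻¹) • (Matrix.J (Fin g) ℂ * (W.transpose * N))) * W = 1 := by
    rw [Matrix.smul_mul, Matrix.mul_assoc, h, Matrix.mul_smul, smul_smul, hJ]
    rw [neg_mul, inv_mul_cancel₀ hl]
    simp
  refine ⟨_, h1, ?_⟩
  have hc : Fintype.card (Fin (2 * g)) = Fintype.card (HGP.Ix g) := by
    simp [HGP.Ix, two_mul]
  exact (Matrix.mul_eq_one_comm_of_card_eq (HGP.Ix g) (Fin (2 * g)) ℂ hc.symm).1 h1

/-- The polynomial matrix `X + A`. -/
noncomputable def PM {m : ℕ} (A : Matrix (Fin m) (Fin m) ℂ) :
    Matrix (Fin m) (Fin m) (Polynomial ℂ) :=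
  (Polynomial.X : Polynomial ℂ) • (1 : Matrix (Fin m) (Fin m) (Polynomial ℂ)) + A.map Polynomial.C

noncomputable def ev (m : ℕ) (s : ℂ) :
    Matrix (Fin m) (Fin m) (Polynomial ℂ) →+* Matrix (Fin m) (Fin m) ℂ :=
  (Polynomial.evalRingHom s).mapMatrix

lemma ev_apply {m : ℕ} (s : ℂ) (M : Matrix (Fin m) (Fin m) (Polynomial ℂ)) (i j : Fin m) :
    ev m s M i j = (M i j).eval s := rfl

lemma ev_C {m : ℕ} (s : ℂ) (A : Matrix (Fin m) (Fin m) ℂ) : ev m s (A.map Polynomial.C) = A := by
  ext i j
  simp [ev_apply]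

lemma ev_transpose {m : ℕ} (s : ℂ) (M : Matrix (Fin m) (Fin m) (Polynomial ℂ)) :
    ev m s M.transpose = (ev m s M).transpose := rfl

lemma ev_PM {m : ℕ} (s : ℂ) (A : Matrix (Fin m) (Fin m) ℂ) :
    ev m s (PM A) = s • (1 : Matrix (Fin m) (Fin m) ℂ) + A := by
  ext i j
  by_cases h : i = j
  · subst h
    simp [ev_apply, PM]
  · simp [ev_apply, PM, Matrix.one_apply_ne h]

lemma ev_adj {m : ℕ} (s : ℂ) (M : Matrix (Fin m) (Fin m) (Polynomial ℂ)) :
    ev m s M.adjugate = (ev m s M).adjugate :=
  RingHom.map_adjugate _ _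

/-- The polynomial form of the horizontality. -/
noncomputable def QM {m : ℕ} (A E N : Matrix (Fin m) (Fin m) ℂ) :
    Matrix (Fin m) (Fin m) (Polynomial ℂ) :=
  ((PM A).adjugate * E.map Polynomial.C).transpose * N.map Polynomial.C +
    N.map Polynomial.C * ((PM A).adjugate * E.map Polynomial.C)

lemma ev_QM {m : ℕ} (A E N : Matrix (Fin m) (Fin m) ℂ) (s : ℂ) :
    ev m s (QM A E N) =
      ((s • (1 : Matrix (Fin m) (Fin m) ℂ) + A).adjugate * E).transpose * N +
        N * ((s • (1 : Matrix (Fin m) (Fin m) ℂ) + A).adjugate * E) := by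
  unfold QM
  rw [map_add, map_mul, map_mul, ev_transpose, map_mul, ev_adj, ev_PM, ev_C, ev_C]

lemma hor_iff {m : ℕ} (A E N : Matrix (Fin m) (Fin m) ℂ) (s : ℂ)
    (hs : (s • (1 : Matrix (Fin m) (Fin m) ℂ) + A).det ≠ 0) :
    (((s • (1 : Matrix (Fin m) (Fin m) ℂ) + A)⁻¹ * E).transpose * N +
      N * ((s • (1 : Matrix (Fin m) (Fin m) ℂ) + A)⁻¹ * E) = 0) ↔ ev m s (QM A E N) = 0 := by
  rw [ev_QM]
  set M := s • (1 : Matrix (Fin m) (Fin m) ℂ) + A with hM
  have h1 : M⁻¹ = (M.det)⁻¹ • M.adjugate := by
    rw [Matrix.inv_def, Ring.inverse_eq_inv']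
  have h2 : (M⁻¹ * E).transpose * N + N * (M⁻¹ * E) =
      (M.det)⁻¹ • ((M.adjugate * E).transpose * N + N * (M.adjugate * E)) := by
    rw [h1, Matrix.smul_mul, Matrix.transpose_smul, Matrix.smul_mul, Matrix.mul_smul, smul_add]
  rw [h2]
  constructor
  · intro h
    exact (smul_eq_zero.1 h).resolve_left (inv_ne_zero hs)
  · intro h
    rw [h, smul_zero]

end Hor_

open Hor_ in
theorem hor_proof : Stmt_Hor := by
  intro g A E N lam hl b0 ρ hρ hdet W W' hW hODE hLeg
  have hb0 : b0 ∈ ball b0 ρ := mem_ball_self hρ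
  refine ⟨?_, ?_, ?_⟩
  · obtain ⟨V, hVW, hWV⟩ := exists_inv hl (hLeg b0 hb0)
    have hN : N = V.transpose * (lam • Matrix.J (Fin g) ℂ) * V := by
      rw [← hLeg b0 hb0]
      have : V.transpose * ((W b0).transpose * N * W b0) * V =
          (W b0 * V).transpose * N * (W b0 * V) := by
        rw [Matrix.transpose_mul]
        simp only [Matrix.mul_assoc]
      rw [this, hWV]
      simp
    rw [hN]
    rw [Matrix.transpose_mul, Matrix.transpose_mul, Matrix.transpose_transpose,
      Matrix.transpose_smul, Matrix.J_transpose]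
    simp [Matrix.mul_assoc]
  · obtain ⟨V, hVW, hWV⟩ := exists_inv hl (hLeg b0 hb0)
    have hJ : Matrix.J (Fin g) ℂ * Matrix.J (Fin g) ℂ = -1 := Matrix.J_squared _ _
    have h1 : N * (W b0 * (-(lam⁻¹) • Matrix.J (Fin g) ℂ) * (W b0).transpose) = 1 := by
      have h2 : (W b0).transpose * (N * (W b0 * (-(lam⁻¹) • Matrix.J (Fin g) ℂ) *
          (W b0).transpose)) = (W b0).transpose := by
        have : (W b0).transpose * (N * (W b0 * (-(lam⁻¹) • Matrix.J (Fin g) ℂ) *
          (W b0).transpose)) = ((W b0).transpose * N * W b0) *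
            (-(lam⁻¹) • Matrix.J (Fin g) ℂ) * (W b0).transpose := by
          simp only [Matrix.mul_assoc]
        rw [this, hLeg b0 hb0, Matrix.smul_mul, Matrix.mul_smul, hJ, smul_smul]
        rw [mul_neg, mul_inv_cancel₀ hl]
        simp
      have h3 : V.transpose * (W b0).transpose = 1 := by
        rw [← Matrix.transpose_mul, hWV, Matrix.transpose_one]
      calc N * (W b0 * (-(lam⁻¹) • Matrix.J (Fin g) ℂ) * (W b0).transpose)
          = (V.transpose * (W b0).transpose) *
            (N * (W b0 * (-(lam⁻¹) • Matrix.J (Fin g) ℂ) * (W b0).transpose)) := by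
              rw [h3, Matrix.one_mul]
        _ = V.transpose * ((W b0).transpose *
            (N * (W b0 * (-(lam⁻¹) • Matrix.J (Fin g) ℂ) * (W b0).transpose))) := by
              rw [Matrix.mul_assoc]
        _ = V.transpose * (W b0).transpose := by rw [h2]
        _ = 1 := h3
    exact (Matrix.isUnit_det_of_right_inverse h1).ne_zero
  · -- the relation on the ball
    have key : ∀ s ∈ ball b0 ρ, ev (2 * g) s (QM A E N) = 0 := by
      intro s hs
      rw [← hor_iff A E N s (hdet s hs)]
      obtain ⟨V, hVW, hWV⟩ := exists_inv hl (hLeg s hs)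
      set B := (s • (1 : Matrix (Fin (2 * g)) (Fin (2 * g)) ℂ) + A)⁻¹ * E with hB
      have hW' : W' s = B * W s := by
        have h1 := congrArg (fun M => (s • (1 : Matrix (Fin (2 * g)) (Fin (2 * g)) ℂ) + A)⁻¹ * M)
          (hODE s hs)
        rw [← Matrix.mul_assoc, Matrix.nonsing_inv_mul _ (isUnit_iff_ne_zero.2 (hdet s hs)),
          Matrix.one_mul, ← Matrix.mul_assoc] at h1
        exact h1
      -- derivative of the constant matrix
      have hder : (W' s).transpose * N * W s + (W s).transpose * N * W' s = 0 := by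
        ext i j
        have h1 : HasDerivAt (fun z => ((W z).transpose * N * W z) i j)
            (((W' s).transpose * N * W s + (W s).transpose * N * W' s) i j) s := by
          have h2 : ∀ z, ((W z).transpose * N * W z) i j =
              ∑ k, (∑ l, W z l i * N l k) * W z k j := by
            intro z
            simp [Matrix.mul_apply, Matrix.transpose_apply]
          have h3 : ((W' s).transpose * N * W s + (W s).transpose * N * W' s) i j =
              ∑ k, ((∑ l, W' s l i * N l k) * W s k j + (∑ l, W s l i * N l k) * W' s k j) := by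
            simp [Matrix.mul_apply, Matrix.transpose_apply, Finset.sum_add_distrib]
          rw [funext h2, h3]
          refine HasDerivAt.fun_sum (fun k _ => ?_)
          refine HasDerivAt.fun_mul ?_ (hW s hs k j)
          refine HasDerivAt.fun_sum (fun l _ => ?_)
          exact (hW s hs l i).mul_const _
        have h4 : HasDerivAt (fun z => ((W z).transpose * N * W z) i j) 0 s := by
          have h5 : (fun z => ((W z).transpose * N * W z) i j) =ᶠ[𝓝 s]
              fun _ => (lam • Matrix.J (Fin g) ℂ) i j := by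
            filter_upwards [isOpen_ball.mem_nhds hs] with z hz
            rw [hLeg z hz]
          exact (hasDerivAt_const s _).congr_of_eventuallyEq h5
        simpa using h1.unique h4
      rw [hW', Matrix.transpose_mul] at hder
      have h6 : (W s).transpose * (B.transpose * N + N * B) * W s = 0 := by
        rw [← hder]
        rw [Matrix.mul_add, Matrix.add_mul]
        simp only [Matrix.mul_assoc]
      have h7 : V.transpose * (W s).transpose = 1 := by
        rw [← Matrix.transpose_mul, hWV, Matrix.transpose_one]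
      calc B.transpose * N + N * B
          = (V.transpose * (W s).transpose) * (B.transpose * N + N * B) * (W s * V) := by
            rw [h7, hWV, Matrix.one_mul, Matrix.mul_one]
        _ = V.transpose * ((W s).transpose * (B.transpose * N + N * B) * W s) * V := by
            simp only [Matrix.mul_assoc]
        _ = 0 := by rw [h6]; simp
    have hzero : QM A E N = 0 := by
      ext1 i j
      refine Polynomial.eq_zero_of_infinite_isRoot _ ?_
      refine Set.Infinite.mono (s := ball b0 ρ) ?_ ?_
      · intro s hs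
        have := congrFun (congrFun (key s hs) i) j
        rw [ev_apply] at this
        simpa [Polynomial.IsRoot] using this
      · exact (infinite_of_mem_nhds b0 (ball_mem_nhds b0 hρ))
    intro s hs
    rw [hor_iff A E N s hs, hzero, map_zero]

end Pool.Agent.GPH
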