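import Pool.Agent.GPH.IIStmts

/-!
# GPH, part II, module LOCF: the local form of the fundamental matrix
-/

open scoped BigOperators Topology
open Metric Set

namespace Pool.Agent.GPH

noncomputable section

namespace LOCF_

/-- entrywise derivative -/
def MD {κ ι : Type} (W : ℂ → Matrix κ ι ℂ) (W' : Matrix κ ι ℂ) (t : ℂ) : Prop :=
  ∀ k j, HasDerivAt (fun z => W z k j) (W' k j) t

theorem MD.mul {κ ι μ : Type} [Fintype ι] {A : ℂ → Matrix κ ι ℂ} {B : ℂ → Matrix ι μ ℂ}
    {A' : Matrix κ ι ℂ} {B' : Matrix ι μ ℂ} {t : ℂ}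
    (hA : MD A A' t) (hB : MD B B' t) : MD (fun z => A z * B z) (A' * B t + A t * B') t := by
  intro k j
  have h := HasDerivAt.fun_sum (u := Finset.univ) (fun l _ => (hA k l).mul (hB l j))
  simpa [Matrix.mul_apply, Matrix.add_apply, Finset.sum_add_distrib] using h

theorem MD.add {κ ι : Type} {A B : ℂ → Matrix κ ι ℂ} {A' B' : Matrix κ ι ℂ} {t : ℂ}
    (hA : MD A A' t) (hB : MD B B' t) : MD (fun z => A z + B z) (A' + B') t :=
  fun k j => (hA k j).add (hB k j)

theorem MD.sub {κ ι : Type} {A B : ℂ → Matrix κ ι ℂ} {A' B' : Matrix κ ι ℂ} {t : ℂ}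
    (hA : MD A A' t) (hB : MD B B' t) : MD (fun z => A z - B z) (A' - B') t :=
  fun k j => (hA k j).sub (hB k j)

theorem MD.tr {κ ι : Type} {A : ℂ → Matrix κ ι ℂ} {A' : Matrix κ ι ℂ} {t : ℂ}
    (hA : MD A A' t) : MD (fun z => (A z).transpose) A'.transpose t :=
  fun k j => hA j k

theorem MD.const {κ ι : Type} (A : Matrix κ ι ℂ) (t : ℂ) : MD (fun _ => A) 0 t :=
  fun _ _ => hasDerivAt_const _ _

theorem MD.smul {κ ι : Type} {f : ℂ → ℂ} {f' : ℂ} {t : ℂ} (hf : HasDerivAt f f' t)
    (A : Matrix κ ι ℂ) : MD (fun z => f z • A) (f' • A) t :=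
  fun k j => hf.mul_const (A k j)

theorem MD.congr {κ ι : Type} {A : ℂ → Matrix κ ι ℂ} {A' A'' : Matrix κ ι ℂ} {t : ℂ}
    (hA : MD A A' t) (h : A' = A'') : MD A A'' t := h ▸ hA

theorem zero_of_deriv {r : ℝ} {f : ℂ → ℂ} (hr : 0 < r) (hf : DifferentiableOn ℂ f (ball 0 r))
    (h0 : f 0 = 0) (hd : ∀ t ∈ ball (0:ℂ) r, t ≠ 0 → HasDerivAt f 0 t) :
    ∀ t ∈ ball (0:ℂ) r, f t = 0 := by
  have hc : ContinuousOn (deriv f) (ball 0 r) := (hf.deriv isOpen_ball).continuousOn
  have h00 : deriv f 0 = 0 := by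
    have h1 : Filter.Tendsto (deriv f) (𝓝[≠] 0) (𝓝 (deriv f 0)) :=
      ((hc.continuousAt (isOpen_ball.mem_nhds (mem_ball_self hr))).tendsto).mono_left
        nhdsWithin_le_nhds
    have h2 : Filter.Tendsto (deriv f) (𝓝[≠] 0) (𝓝 0) := by
      apply tendsto_const_nhds.congr'
      filter_upwards [self_mem_nhdsWithin,
        nhdsWithin_le_nhds (isOpen_ball.mem_nhds (mem_ball_self hr))] with t ht ht'
      exact ((hd t ht' ht).deriv).symm
    exact tendsto_nhds_unique h1 h2
  have h3 : (ball (0:ℂ) r).EqOn (deriv f) 0 := by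
    intro t ht
    by_cases h : t = 0
    · rw [h]; exact h00
    · exact (hd t ht h).deriv
  intro t ht
  rw [isOpen_ball.is_const_of_deriv_eq_zero (convex_ball (0:ℂ) r).isPreconnected hf h3 ht
    (mem_ball_self hr), h0]

theorem mzero {κ ι : Type} {r : ℝ} {K : ℂ → Matrix κ ι ℂ} (hr : 0 < r)
    (hf : HolM (ball 0 r) K) (h0 : K 0 = 0) (hd : ∀ t ∈ ball (0:ℂ) r, t ≠ 0 → MD K 0 t) :
    ∀ t ∈ ball (0:ℂ) r, K t = 0 := by
  intro t ht
  ext k j
  exact zero_of_deriv hr (hf k j) (by rw [h0]; rfl) (fun s hs hs0 => hd s hs hs0 k j) t ht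

theorem holM_mul {κ ι μ : Type} [Fintype ι] {U : Set ℂ} {A : ℂ → Matrix κ ι ℂ}
    {B : ℂ → Matrix ι μ ℂ} (hA : HolM U A) (hB : HolM U B) : HolM U (fun z => A z * B z) := by
  intro k j
  have h : DifferentiableOn ℂ (fun z => ∑ l, A z k l * B z l j) U :=
    DifferentiableOn.fun_sum (fun l _ => (hA k l).mul (hB l j))
  exact h.congr (fun z _ => Matrix.mul_apply)

theorem holM_const {κ ι : Type} {U : Set ℂ} (A : Matrix κ ι ℂ) : HolM U (fun _ => A) :=
  fun _ _ => differentiableOn_const _

section alg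

variable {m : ℕ} {N : Matrix (Fin m) (Fin m) ℂ}

theorem anti_dot (hN : N.transpose = -N) (x : Fin m → ℂ) : dotProduct (N.mulVec x) x = 0 := by
  have h1 : dotProduct (N.mulVec x) x = dotProduct x (N.mulVec x) := dotProduct_comm _ _
  have h2 : dotProduct x (N.mulVec x) = dotProduct (N.transpose.mulVec x) x := by
    rw [Matrix.dotProduct_mulVec, Matrix.mulVec_transpose]
  rw [hN, Matrix.neg_mulVec, neg_dotProduct] at h2
  have h3 : dotProduct (N.mulVec x) x = - dotProduct (N.mulVec x) x := by
    rw [← h2]; exact h1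
  have : (2 : ℂ) * dotProduct (N.mulVec x) x = 0 := by linear_combination h3
  simpa using this

theorem res_sq (hN : N.transpose = -N) (x : Fin m → ℂ) : res N x * res N x = 0 := by
  unfold res
  rw [Matrix.vecMulVec_mul_vecMulVec, anti_dot hN]
  ext i j
  simp [Matrix.vecMulVec_apply]

theorem res_skew (hN : N.transpose = -N) (x : Fin m → ℂ) :
    (res N x).transpose * N + N * res N x = 0 := by
  unfold res
  rw [Matrix.transpose_vecMulVec, Matrix.vecMulVec_mul, Matrix.mul_vecMulVec]
  have : Matrix.vecMul x N = - N.mulVec x := by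
    rw [← Matrix.mulVec_transpose, hN, Matrix.neg_mulVec]
  rw [this]
  ext i j
  simp [Matrix.vecMulVec_apply]

/-- an isometry is invertible -/
theorem iso_inv (hdet : N.det ≠ 0) {P : Matrix (Fin m) (Fin m) ℂ}
    (hP : P.transpose * N * P = N) :
    (N⁻¹ * P.transpose * N) * P = 1 ∧ P * (N⁻¹ * P.transpose * N) = 1 := by
  have hu : IsUnit N.det := isUnit_iff_ne_zero.2 hdet
  have h1 : (N⁻¹ * P.transpose * N) * P = 1 := by
    calc (N⁻¹ * P.transpose * N) * P = N⁻¹ * (P.transpose * N * P) := by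
          simp only [Matrix.mul_assoc]
      _ = 1 := by rw [hP, Matrix.nonsing_inv_mul _ hu]
  exact ⟨h1, mul_eq_one_comm.1 h1⟩

end alg

section horiz

variable {m : ℕ} {N R : Matrix (Fin m) (Fin m) ℂ}

/-- the gauge transformation is an isometry -/
theorem gauge_iso (hR : R * R = 0) (hRN : R.transpose * N + N * R = 0) {r : ℝ} (hr : 0 < r)
    {B H : ℂ → Matrix (Fin m) (Fin m) ℂ} (hB : ∀ t ∈ ball (0:ℂ) r, (B t).transpose * N + N * B t = 0)
    (hH : HolM (ball 0 r) H) (h0 : H 0 = 1)
    (hd : ∀ t ∈ ball (0 : ℂ) r, t ≠ 0 → MD H (t⁻¹ • (R * H t - H t * R) + B t * H t) t) :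
    ∀ t ∈ ball (0:ℂ) r, (H t).transpose * N * H t = N := by
  have hRt : R.transpose * R.transpose = 0 := by
    rw [← Matrix.transpose_mul, hR, Matrix.transpose_zero]
  set K : ℂ → Matrix (Fin m) (Fin m) ℂ := fun t => (H t).transpose * N * H t - N with hK
  have hKh : HolM (ball 0 r) K := by
    have h1 : HolM (ball 0 r) (fun t => (H t).transpose) := fun k j => hH j k
    have h2 := holM_mul (holM_mul h1 (holM_const N)) hH
    intro k j
    exact (h2 k j).sub (differentiableOn_const _)
  have hK0 : K 0 = 0 := by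
    simp [hK, h0]
  have hKd : ∀ t ∈ ball (0:ℂ) r, t ≠ 0 →
      MD K (-(t⁻¹) • (R.transpose * K t + K t * R)) t := by
    intro t ht ht0
    have h1 := hd t ht ht0
    have h2 := ((h1.tr.mul (MD.const N t)).mul h1).sub (MD.const N t)
    refine h2.congr ?_
    simp only [hK, Matrix.mul_zero, add_zero, sub_zero, Matrix.transpose_add,
      Matrix.transpose_smul, Matrix.transpose_sub, Matrix.transpose_mul]
    have e1 := hB t ht
    have e2 : (B t).transpose * N = - (N * B t) := eq_neg_of_add_eq_zero_left e1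
    have e3 : R.transpose * N = - (N * R) := eq_neg_of_add_eq_zero_left hRN
    have e4 : (H t).transpose * (B t).transpose * N = - ((H t).transpose * (N * B t)) := by
      rw [Matrix.mul_assoc, e2, Matrix.mul_neg]
    have e5 : (H t).transpose * R.transpose * N = - ((H t).transpose * (N * R)) := by
      rw [Matrix.mul_assoc, e3, Matrix.mul_neg]
    have e6 : R.transpose * ((H t).transpose * N * H t - N) =
        R.transpose * (H t).transpose * N * H t + N * R := by
      rw [Matrix.mul_sub, e3]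
      simp only [Matrix.mul_assoc]
      abel
    rw [e6]
    simp only [add_mul, sub_mul, mul_add, mul_sub, Matrix.smul_mul, Matrix.mul_smul, smul_add,
      smul_sub, e4, e5, Matrix.mul_assoc, neg_mul, neg_smul, smul_neg]
    abel
  -- R^T K R
  have s1 : ∀ t ∈ ball (0:ℂ) r, R.transpose * K t * R = 0 := by
    apply mzero hr (K := fun t => R.transpose * K t * R)
    · exact holM_mul (holM_mul (holM_const _) hKh) (holM_const _)
    · simp only [hK0, Matrix.mul_zero, Matrix.zero_mul]
    · intro t ht ht0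
      refine (((MD.const R.transpose t).mul (hKd t ht ht0)).mul (MD.const R t)).congr ?_
      simp only [Matrix.zero_mul, Matrix.mul_zero, zero_add, add_zero, Matrix.mul_smul,
        Matrix.smul_mul, Matrix.mul_add, Matrix.add_mul]
      rw [← Matrix.mul_assoc R.transpose R.transpose, hRt, ← Matrix.mul_assoc R.transpose (K t) R,
        Matrix.mul_assoc (R.transpose * K t) R R, hR]
      simp
  have s2 : ∀ t ∈ ball (0:ℂ) r, R.transpose * K t = 0 := by
    apply mzero hr (K := fun t => R.transpose * K t)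
    · exact holM_mul (holM_const _) hKh
    · simp only [hK0, Matrix.mul_zero]
    · intro t ht ht0
      refine ((MD.const R.transpose t).mul (hKd t ht ht0)).congr ?_
      simp only [Matrix.zero_mul, zero_add, Matrix.mul_smul, Matrix.mul_add]
      rw [← Matrix.mul_assoc R.transpose R.transpose, hRt, ← Matrix.mul_assoc R.transpose (K t) R,
        s1 t ht]
      simp
  have s3 : ∀ t ∈ ball (0:ℂ) r, K t * R = 0 := by
    apply mzero hr (K := fun t => K t * R)
    · exact holM_mul hKh (holM_const _)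
    · simp only [hK0, Matrix.zero_mul]
    · intro t ht ht0
      refine ((hKd t ht ht0).mul (MD.const R t)).congr ?_
      simp only [Matrix.mul_zero, add_zero, Matrix.smul_mul, Matrix.add_mul]
      rw [s1 t ht, Matrix.mul_assoc (K t) R R, hR]
      simp
  have s4 : ∀ t ∈ ball (0:ℂ) r, K t = 0 := by
    apply mzero hr hKh hK0
    intro t ht ht0
    refine (hKd t ht ht0).congr ?_
    rw [s2 t ht, s3 t ht]
    simp
  intro t ht
  exact sub_eq_zero.1 (s4 t ht)

/-- `(1 + l R)` is an isometry -/
theorem unip_iso (hR : R * R = 0) (hRN : R.transpose * N + N * R = 0) (l : ℂ) :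
    (1 + l • R).transpose * N * (1 + l • R) = N := by
  have e3 : R.transpose * N = - (N * R) := eq_neg_of_add_eq_zero_left hRN
  rw [Matrix.transpose_add, Matrix.transpose_smul, Matrix.transpose_one]
  simp only [add_mul, mul_add, Matrix.one_mul, Matrix.mul_one, Matrix.smul_mul, Matrix.mul_smul, e3]
  rw [neg_mul, Matrix.mul_assoc, hR]
  simp

end horiz

theorem plog_deriv {t : ℂ} (ht : -t ∈ Complex.slitPlane) : HasDerivAt plog t⁻¹ t := by
  have h1 : HasDerivAt (fun z : ℂ => Complex.log (-z)) ((-t)⁻¹ * (-1)) t :=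
    (Complex.hasDerivAt_log ht).comp t (hasDerivAt_neg t)
  have h2 := h1.add_const (Real.pi * Complex.I)
  have e : (-t)⁻¹ * (-1) = t⁻¹ := by
    rw [inv_neg]; ring
  rw [e] at h2
  exact h2

/-- the slit disc -/
def Slit (r : ℝ) : Set ℂ := {t | t ∈ ball (0:ℂ) r ∧ -t ∈ Complex.slitPlane}

theorem mem_slit {r : ℝ} {t : ℂ} (ht : t ∈ ball (0:ℂ) r) (h : ∀ u : ℝ, 0 ≤ u → t ≠ u) :
    t ∈ Slit r := by
  refine ⟨ht, ?_⟩
  rw [Complex.mem_slitPlane_iff]
  by_contra hc
  push Not at hc
  obtain ⟨h1, h2⟩ := hc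
  simp only [Complex.neg_re, Complex.neg_im] at h1 h2
  exact h t.re (by linarith) (Complex.ext (by simp) (by simp; linarith))

theorem slit_ne {r : ℝ} {t : ℂ} (ht : t ∈ Slit r) : t ≠ 0 := by
  intro h
  have := ht.2
  rw [h, neg_zero] at this
  exact Complex.zero_notMem_slitPlane this

theorem slit_real {r : ℝ} {t : ℂ} (ht : t ∈ Slit r) : ∀ u : ℝ, 0 ≤ u → t ≠ u := by
  intro u hu h
  have h2 := ht.2
  rw [Complex.mem_slitPlane_iff, h] at h2
  simp at h2
  linarith

theorem isOpen_slit (r : ℝ) : IsOpen (Slit r) :=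
  isOpen_ball.inter (Complex.isOpen_slitPlane.preimage continuous_neg)

theorem slit_base {r : ℝ} (hr : 0 < r) : (-(r / 2 : ℝ) : ℂ) ∈ Slit r := by
  refine ⟨?_, ?_⟩
  · rw [mem_ball_zero_iff, norm_neg, Complex.norm_real, Real.norm_eq_abs, abs_of_pos (by linarith)]
    linarith
  · rw [neg_neg, Complex.mem_slitPlane_iff]
    left
    simp only [Complex.ofReal_re]
    linarith

theorem slit_conn {r : ℝ} (hr : 0 < r) : IsPreconnected (Slit r) := by
  have h : StarConvex ℝ (-(r / 2 : ℝ) : ℂ) (Slit r) := by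
    intro t ht a b ha hb hab
    refine ⟨(convex_ball (0:ℂ) r) (slit_base hr).1 ht.1 ha hb hab, ?_⟩
    rcases eq_or_lt_of_le hb with h | h
    · have h1 : a = 1 := by linarith
      rw [← h, h1]
      simpa using (slit_base hr).2
    · have h2 := ht.2
      rw [Complex.mem_slitPlane_iff] at h2 ⊢
      simp only [Complex.neg_re, Complex.neg_im, Complex.add_re, Complex.add_im,
        Complex.real_smul, Complex.mul_re, Complex.mul_im, Complex.ofReal_re, Complex.ofReal_im,
        zero_mul, mul_zero, add_zero, sub_zero, neg_zero, zero_add] at h2 ⊢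
      rcases h2 with h2 | h2
      · left
        have h3 : 0 ≤ a * (r / 2) := mul_nonneg ha (by linarith)
        have h4 : 0 < b * (-t.re) := mul_pos h h2
        nlinarith
      · right
        intro hc
        apply h2
        have : b * t.im = 0 := by linarith
        rcases mul_eq_zero.1 this with h5 | h5
        · linarith
        · rw [h5, neg_zero]
  exact (h.isPathConnected (slit_base hr)).isConnected.isPreconnected

end LOCF_

open LOCF_ in
theorem locf_proof (hFrob : Stmt_Frob) (hUniq : Stmt_Uniq) (hGeoC : Stmt_GeoC) : Stmt_Locf := by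
  intro m p N S x hF b hG Φ hΦ i
  classical
  set D := S i - b with hD
  have hD0 : D ≠ 0 := sub_ne_zero.2 (hG.1 i)
  set R := res N (x i) with hRdef
  have hR : R * R = 0 := res_sq hF.anti _
  have hRN : R.transpose * N + N * R = 0 := res_skew hF.anti _
  -- a small disc on which the other cuts are avoided
  obtain ⟨r1, hr1, hr1'⟩ : ∃ r1 : ℝ, 0 < r1 ∧ ∀ t ∈ ball (0:ℂ) r1, ∀ j, j ≠ i →
      S i + t * D ∈ Cut b (fun _ : Fin 1 => S j) := by
    have hopen : ∀ j, IsOpen (Cut b (fun _ : Fin 1 => S j)) := fun j =>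
      (hGeoC 1 (fun _ => S j) b (fun _ => hG.1 j)).1
    have hV : IsOpen (⋂ j ∈ {j : Fin p | j ≠ i}, Cut b (fun _ : Fin 1 => S j)) :=
      Set.Finite.isOpen_biInter (Set.toFinite _) (fun j _ => hopen j)
    have hc : Continuous (fun t : ℂ => S i + t * D) := by fun_prop
    have hmem : (0:ℂ) ∈ (fun t : ℂ => S i + t * D) ⁻¹'
        (⋂ j ∈ {j : Fin p | j ≠ i}, Cut b (fun _ : Fin 1 => S j)) := by
      simp only [Set.mem_preimage, zero_mul, add_zero, Set.mem_iInter]
      intro j hj _ u hu h
      have hj' : j ≠ i := hj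
      have hu0 : (u : ℂ) ≠ 0 := by
        have : (0:ℝ) < u := by linarith
        exact_mod_cast this.ne'
      apply hG.2 i j (Ne.symm hj') u⁻¹ (by positivity)
      have h1 : S i - b = u * (S j - b) := by rw [h]; ring
      rw [h1]
      push_cast
      field_simp
    obtain ⟨r1, hr1, hr1'⟩ := Metric.isOpen_iff.1 (hV.preimage hc) 0 hmem
    refine ⟨r1, hr1, fun t ht j hj => ?_⟩
    have := hr1' ht
    simp only [Set.mem_preimage, Set.mem_iInter] at this
    exact this j hj
  have hne : ∀ t ∈ ball (0:ℂ) r1, ∀ j, j ≠ i → S i + t * D - S j ≠ 0 := by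
    intro t ht j hj h
    apply hr1' t ht j hj 0 1 le_rfl
    rw [Complex.ofReal_one]
    linear_combination h
  set B1 : ℂ → Matrix (Fin m) (Fin m) ℂ := fun t =>
    ∑ j ∈ Finset.univ.erase i, (D * (S i + t * D - S j)⁻¹) • res N (x j) with hB1
  have hB1h : HolM (ball 0 r1) B1 := by
    intro k l
    have h : DifferentiableOn ℂ (fun t => ∑ j ∈ Finset.univ.erase i,
        (D * (S i + t * D - S j)⁻¹) * res N (x j) k l) (ball 0 r1) := by
      apply DifferentiableOn.fun_sum
      intro j hj
      have hj' := Finset.ne_of_mem_erase hj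
      have h1 : DifferentiableOn ℂ (fun t : ℂ => S i + t * D - S j) (ball 0 r1) := by fun_prop
      exact ((h1.inv (fun t ht => hne t ht j hj')).const_mul D).mul_const _
    refine h.congr (fun t _ => ?_)
    simp only [hB1, Matrix.sum_apply, Matrix.smul_apply, smul_eq_mul]
  have hB1N : ∀ t, (B1 t).transpose * N + N * B1 t = 0 := by
    intro t
    simp only [hB1, Matrix.transpose_sum, Finset.sum_mul, Finset.mul_sum, ← Finset.sum_add_distrib]
    apply Finset.sum_eq_zero
    intro j _
    rw [Matrix.transpose_smul, Matrix.smul_mul, Matrix.mul_smul, ← smul_add, res_skew hF.anti,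
      smul_zero]
  obtain ⟨r, H, hr, hrr, hHh, hH0, hHdet, hHd⟩ := hFrob m R hR r1 B1 hr1 hB1h
  have hHd' : ∀ t ∈ ball (0 : ℂ) r, t ≠ 0 →
      MD H (t⁻¹ • (R * H t - H t * R) + B1 t * H t) t := hHd
  have hHiso := gauge_iso hR hRN hr (fun t _ => hB1N t) hHh hH0 hHd'
  have hsub : ball (0:ℂ) r ⊆ ball 0 r1 := ball_subset_ball hrr
  -- local solution
  set Φl : ℂ → Matrix (Fin m) (Fin m) ℂ := fun t => H t * (1 + plog t • R) with hΦl
  set L : ℂ → Matrix (Fin m) (Fin m) ℂ := fun t => t⁻¹ • R + B1 t with hL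
  have hΦld : ∀ t ∈ Slit r, MD Φl (L t * Φl t) t := by
    intro t ht
    have h1 := hHd' t ht.1 (slit_ne ht)
    have h2 := (MD.const (1 : Matrix (Fin m) (Fin m) ℂ) t).add (MD.smul (plog_deriv ht.2) R)
    refine (h1.mul h2).congr ?_
    simp only [hΦl, hL, zero_add]
    simp only [add_mul, sub_mul, mul_add, Matrix.smul_mul, Matrix.mul_smul, smul_sub,
      Matrix.mul_one, Matrix.mul_assoc, hR, Matrix.mul_zero, smul_zero, sub_zero]
    abel
  have hΦliso : ∀ t ∈ Slit r, (Φl t).transpose * N * Φl t = N := by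
    intro t ht
    simp only [hΦl, Matrix.transpose_mul]
    calc (1 + plog t • R).transpose * (H t).transpose * N * (H t * (1 + plog t • R))
        = (1 + plog t • R).transpose * ((H t).transpose * N * H t) * (1 + plog t • R) := by
          simp only [Matrix.mul_assoc]
      _ = N := by rw [hHiso t ht.1, unip_iso hR hRN]
  -- the slit disc is mapped to the cut plane
  have hcut : ∀ t ∈ Slit r, S i + t * D ∈ Cut b S := by
    intro t ht j u hu h
    by_cases hj : j = i
    · subst hj
      have h1 : (t - (u - 1)) * D = 0 := by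
        rw [hD] at h ⊢
        linear_combination h
      rcases mul_eq_zero.1 h1 with h2 | h2
      · exact slit_real ht (u - 1) (by linarith) (by push_cast; linear_combination h2)
      · exact hD0 h2
    · exact hr1' t (hsub ht.1) j hj 0 u hu h
  have hΦd : ∀ t ∈ Slit r, MD (fun t => Φ (S i + t * D)) (L t * Φ (S i + t * D)) t := by
    intro t ht k j
    have h1 := hΦ.sol _ (hcut t ht) k j
    have h2 : HasDerivAt (fun t : ℂ => S i + t * D) D t := by
      have := ((hasDerivAt_id t).mul_const D).const_add (S i)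
      simpa using this
    have h3 := h1.comp t h2
    have e : (L t * Φ (S i + t * D)) k j = (Bf N S x (S i + t * D) * Φ (S i + t * D)) k j * D := by
      have e1 : L t = D • Bf N S x (S i + t * D) := by
        simp only [hL, hB1, Bf]
        rw [← Finset.add_sum_erase _ _ (Finset.mem_univ i), smul_add, Finset.smul_sum]
        congr 1
        · rw [smul_smul]
          congr 1
          have ht0 := slit_ne ht
          have : S i + t * D - S i = t * D := by ring
          rw [this]
          field_simp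
        · apply Finset.sum_congr rfl
          intro j _
          rw [smul_smul]
      rw [e1, Matrix.smul_mul, Matrix.smul_apply, smul_eq_mul, mul_comm]
    rw [e]
    exact h3
  -- comparison
  set t0 : ℂ := (-(r / 2 : ℝ) : ℂ) with ht0
  have ht0s : t0 ∈ Slit r := slit_base hr
  obtain ⟨p1, p2⟩ := iso_inv hF.det (hΦliso t0 ht0s)
  set C : Matrix (Fin m) (Fin m) ℂ := (N⁻¹ * (Φl t0).transpose * N) * Φ (S i + t0 * D) with hC
  have hC0 : Φl t0 * C = Φ (S i + t0 * D) := by
    rw [hC, ← Matrix.mul_assoc, p2, Matrix.one_mul]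
  have hCiso : C.transpose * N * C = N := by
    have h1 := hΦ.iso _ (hcut t0 ht0s)
    rw [← hC0, Matrix.transpose_mul] at h1
    calc C.transpose * N * C = C.transpose * ((Φl t0).transpose * N * Φl t0) * C := by
          rw [hΦliso t0 ht0s]
      _ = C.transpose * (Φl t0).transpose * N * (Φl t0 * C) := by simp only [Matrix.mul_assoc]
      _ = N := h1
  obtain ⟨q1, q2⟩ := iso_inv hF.det hCiso
  set Ci : Matrix (Fin m) (Fin m) ℂ := N⁻¹ * C.transpose * N with hCi
  have hLh : HolM (Slit r) L := by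
    intro k l
    have h1 : DifferentiableOn ℂ (fun t : ℂ => t⁻¹ * R k l + B1 t k l) (Slit r) := by
      apply DifferentiableOn.add
      · exact (differentiableOn_id.inv (fun t ht => slit_ne ht)).mul_const _
      · exact (hB1h k l).mono (fun t ht => hsub ht.1)
    refine h1.congr (fun t _ => ?_)
    simp only [hL, Matrix.add_apply, Matrix.smul_apply, smul_eq_mul]
  have hcomp : ∀ t ∈ Slit r, Φ (S i + t * D) = Φl t * C := by
    intro t ht
    ext k j
    have h1 := hUniq (Fin m) (Slit r) L (isOpen_slit r) (slit_conn hr) hLh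
      (fun t k => (Φ (S i + t * D) - Φl t * C) k j) (fun t ht k => by
        have h2 := (hΦd t ht).sub ((hΦld t ht).mul (MD.const C t))
        have h3 := h2 k j
        have e0 : (L t * Φ (S i + t * D) - (L t * Φl t * C + Φl t * 0) :
              Matrix (Fin m) (Fin m) ℂ) = L t * (Φ (S i + t * D) - Φl t * C) := by
          rw [Matrix.mul_zero, add_zero, Matrix.mul_assoc, ← Matrix.mul_sub]
        rw [e0] at h3
        exact h3) t0 ht0s (by
        funext k
        simp only [hC0, sub_self]
        rfl) t ht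
    have h4 := congrFun h1 k
    simp only [Matrix.sub_apply, Pi.zero_apply] at h4
    exact sub_eq_zero.1 h4
  refine ⟨Ci.mulVec (x i), r, fun t => H t * C, hr, holM_mul hHh (holM_const C), ?_, ?_⟩
  · intro t ht
    rw [Matrix.det_mul]
    refine mul_ne_zero (hHdet t ht) ?_
    intro h
    have := congrArg Matrix.det q1
    rw [Matrix.det_mul, h, mul_zero, Matrix.det_one] at this
    exact zero_ne_one this
  · intro t ht hu
    have hts := mem_slit ht hu
    refine ⟨hcut t hts, ?_⟩
    rw [hcomp t hts]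
    have hres : res N (Ci.mulVec (x i)) = Ci * R * C := by
      rw [hRdef]
      unfold res
      rw [Matrix.mul_vecMulVec, Matrix.vecMulVec_mul, ← Matrix.mulVec_transpose]
      congr 1
      rw [Matrix.mulVec_mulVec, Matrix.mulVec_mulVec]
      congr 1
      rw [hCi, ← Matrix.mul_assoc, ← Matrix.mul_assoc,
        Matrix.mul_nonsing_inv _ (isUnit_iff_ne_zero.2 hF.det), Matrix.one_mul]
    rw [hres]
    simp only [hΦl]
    rw [Matrix.mul_add, Matrix.mul_one, Matrix.mul_add, Matrix.mul_one, Matrix.add_mul,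
      Matrix.mul_smul, Matrix.smul_mul, Matrix.mul_smul]
    congr 2
    calc H t * R * C = H t * (C * Ci) * R * C := by rw [q2, Matrix.mul_one]
      _ = H t * C * (Ci * R * C) := by simp only [Matrix.mul_assoc]

end

end Pool.Agent.GPH
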