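import Pool.Agent.GPH.IIStmts

/-!
# GPH, module FIBH
-/

open scoped BigOperators Topology
open Metric Set

namespace Pool.Agent.GPH

namespace FIBH_

lemma dia_ne (g : ℕ) (i : Fin (2 * g)) :
    (((i : ℕ) + 1 : ℂ) / (((2 * g : ℕ) : ℂ) + 1) - 1 / 2) ≠ 0 ∧
      ‖(((i : ℕ) + 1 : ℂ) / (((2 * g : ℕ) : ℂ) + 1) - 1 / 2)‖ < 1 / 2 := by
  have h1 : (((i : ℕ) + 1 : ℂ) / (((2 * g : ℕ) : ℂ) + 1) - 1 / 2) =
      (((((i : ℕ) : ℝ) + 1) / (((2 * g : ℕ) : ℝ) + 1) - 1 / 2 : ℝ) : ℂ) := by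
    push_cast
    ring
  rw [h1]
  have hi := i.2
  have hden : (0 : ℝ) < ((2 * g : ℕ) : ℝ) + 1 := by positivity
  constructor
  · intro h
    have h2 : ((((i : ℕ) : ℝ) + 1) / (((2 * g : ℕ) : ℝ) + 1) - 1 / 2 : ℝ) = 0 := by
      exact_mod_cast h
    have h3 : (2 : ℝ) * (((i : ℕ) : ℝ) + 1) = ((2 * g : ℕ) : ℝ) + 1 := by
      field_simp at h2
      linarith
    have h4 : 2 * ((i : ℕ) + 1) = 2 * g + 1 := by exact_mod_cast h3
    omega
  · rw [Complex.norm_real, Real.norm_eq_abs, abs_lt]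
    constructor
    · have : (0 : ℝ) < (((i : ℕ) : ℝ) + 1) / (((2 * g : ℕ) : ℝ) + 1) := by positivity
      linarith
    · have : (((i : ℕ) : ℝ) + 1) / (((2 * g : ℕ) : ℝ) + 1) < 1 := by
        rw [div_lt_one hden]
        have : ((i : ℕ) : ℝ) < ((2 * g : ℕ) : ℝ) := by exact_mod_cast hi
        linarith
      linarith

end FIBH_

theorem fibh_proof (hHor : Stmt_Hor) (hOku : Stmt_Oku) (hF : Stmt_ThmF) (hE : Stmt_CEig)
    (hD : Stmt_CDet) (hC : Stmt_CCom) (hT : Stmt_DTri) : Stmt_FibH := by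
  intro g c hg hP2 N lam hlam b0 ρ hρ hsep W W' hW hWW hleg P hP s M hM
  have hdet : ∀ s : ℂ, (s • (1 : Matrix (Fin (2 * g)) (Fin (2 * g)) ℂ) +
      (Cop c).transpose).det = (s • (1 : Matrix (Fin (2 * g)) (Fin (2 * g)) ℂ) + Cop c).det := by
    intro s
    rw [← Matrix.det_transpose (s • (1 : Matrix (Fin (2 * g)) (Fin (2 * g)) ℂ) + Cop c)]
    rw [Matrix.transpose_add, Matrix.transpose_smul, Matrix.transpose_one]
  have hball : ∀ s ∈ ball b0 ρ, (s • (1 : Matrix (Fin (2 * g)) (Fin (2 * g)) ℂ) +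
      (Cop c).transpose).det ≠ 0 := by
    intro s hs
    rw [hdet]
    exact (hD (2 * g) c s).mpr (hsep s hs)
  obtain ⟨hNa, hNd, hNh⟩ := hHor g (Cop c).transpose (Dop c).transpose N lam hlam b0 ρ hρ hball
    W W' hW hWW hleg
  have hO : Okubo (Cop c).transpose (Dop c).transpose N := by
    refine ⟨hE (2 * g) c hP2, hNa, hNd, hNh, ?_, ?_, hC (2 * g) c hP2⟩
    · intro i j hij
      rw [Matrix.transpose_apply]
      exact (hT (2 * g) c).1 j i hij
    · intro i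
      rw [Matrix.transpose_apply, (hT (2 * g) c).2 i]
      exact FIBH_.dia_ne g i
  obtain ⟨S, x, hFu, hiff, hB⟩ := hOku (2 * g) (Cop c).transpose (Dop c).transpose N hO
  refine hF g (2 * g) N S x hg hFu lam hlam b0 ρ hρ (fun s hs => (hiff s).mp (hball s hs)) W ?_
    hleg P hP s M hM
  intro s hs k j
  have h1 := hW s hs k j
  have h2 : W' s = Bf N S x s * W s := by
    rw [hB s ((hiff s).mp (hball s hs)), Matrix.mul_assoc, ← hWW s hs, ← Matrix.mul_assoc,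
      Matrix.nonsing_inv_mul _ (Ne.isUnit (hball s hs)), Matrix.one_mul]
  rw [h2] at h1
  exact h1

end Pool.Agent.GPH
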