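import Pool.Agent.GPH.IIStmts

/-!
# OKU: an Okubo system is a Fuchsian system
-/

open scoped BigOperators Topology
open Metric Set

namespace Pool.Agent.GPH

namespace Oku_

/-- Partial fractions with distinct poles are independent. -/
lemma pf_zero {m : ℕ} (S τ : Fin m → ℂ) (hS : Function.Injective S)
    (h : ∀ s, (∀ i, s ≠ S i) → ∑ i, (s - S i)⁻¹ * τ i = 0) : ∀ i, τ i = 0 := by
  classical
  set p : Polynomial ℂ := ∑ i, Polynomial.C (τ i) *
    ∏ j ∈ Finset.univ.erase i, (Polynomial.X - Polynomial.C (S j)) with hp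
  have hev : ∀ s, p.eval s = ∑ i, τ i * ∏ j ∈ Finset.univ.erase i, (s - S j) := by
    intro s
    rw [hp, Polynomial.eval_finsetSum]
    refine Finset.sum_congr rfl ?_
    intro i _
    rw [Polynomial.eval_mul, Polynomial.eval_C, Polynomial.eval_prod]
    simp
  have hz : ∀ s, (∀ i, s ≠ S i) → p.eval s = 0 := by
    intro s hs
    have h1 := h s hs
    have h2 : p.eval s = (∏ j, (s - S j)) * ∑ i, (s - S i)⁻¹ * τ i := by
      rw [hev, Finset.mul_sum]
      refine Finset.sum_congr rfl ?_
      intro i _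
      rw [← Finset.mul_prod_erase Finset.univ _ (Finset.mem_univ i)]
      have : s - S i ≠ 0 := sub_ne_zero.2 (hs i)
      field_simp
    rw [h2, h1, mul_zero]
  have hp0 : p = 0 := by
    apply Polynomial.eq_zero_of_infinite_isRoot
    have : (Set.range S)ᶜ ⊆ {x | p.IsRoot x} := by
      intro s hs
      exact hz s (fun i hi => hs ⟨i, hi.symm⟩)
    exact (Set.finite_range S).infinite_compl.mono this
  intro i
  have h3 := hev (S i)
  rw [hp0, Polynomial.eval_zero, Finset.sum_eq_single i] at h3
  · have h4 : ∏ j ∈ Finset.univ.erase i, (S i - S j) ≠ 0 := by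
      rw [Finset.prod_ne_zero_iff]
      intro j hj
      rw [Finset.mem_erase] at hj
      exact sub_ne_zero.2 (fun e => hj.1 (hS e).symm)
    rcases mul_eq_zero.1 h3.symm with h5 | h5
    · exact h5
    · exact absurd h5 h4
  · intro k _ hk
    rw [Finset.prod_eq_zero (Finset.mem_erase.2 ⟨hk.symm, Finset.mem_univ i⟩) (sub_self _),
      mul_zero]
  · intro h
    exact absurd (Finset.mem_univ i) h

lemma sum_vec {m : ℕ} (P M : Matrix (Fin m) (Fin m) ℂ) (c : Fin m → ℂ) :
    ∑ i, c i • Matrix.vecMulVec (fun k => P k i) (fun k => M i k) =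
      P * Matrix.diagonal c * M := by
  ext k l
  rw [Matrix.sum_apply, Matrix.mul_apply]
  refine Finset.sum_congr rfl ?_
  intro i _
  rw [Matrix.smul_apply, Matrix.vecMulVec_apply, Matrix.mul_diagonal, smul_eq_mul]
  ring

/-- The rank one matrices. -/
lemma rank_one {m : ℕ} (N : Matrix (Fin m) (Fin m) ℂ) (hN : N.transpose = -N) (hd : N.det ≠ 0)
    (a b : Fin m → ℂ) (ha : a ≠ 0)
    (h : (Matrix.vecMulVec a b).transpose * N + N * Matrix.vecMulVec a b = 0) :
    ∃ x : Fin m → ℂ, res N x = Matrix.vecMulVec a b := by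
  set n := N.mulVec a with hn
  have hn0 : n ≠ 0 := by
    intro h0
    apply ha
    have hinj := Matrix.mulVec_injective_of_isUnit
      ((Matrix.isUnit_iff_isUnit_det N).2 (isUnit_iff_ne_zero.2 hd))
    apply hinj
    rw [← hn, h0, Matrix.mulVec_zero]
  have hN' : ∀ i j, N i j = - N j i := by
    intro i j
    have := congrFun (congrFun hN j) i
    rw [Matrix.transpose_apply, Matrix.neg_apply] at this
    exact this
  have hkl : ∀ k l, n k * b l = b k * n l := by
    intro k l
    have h1 := congrFun (congrFun h k) l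
    rw [Matrix.add_apply, Matrix.zero_apply, Matrix.mul_apply, Matrix.mul_apply] at h1
    have h2 : ∑ j, (Matrix.vecMulVec a b).transpose k j * N j l = - (b k * n l) := by
      rw [hn, Matrix.mulVec, dotProduct, Finset.mul_sum, ← Finset.sum_neg_distrib]
      refine Finset.sum_congr rfl ?_
      intro j _
      rw [Matrix.transpose_apply, Matrix.vecMulVec_apply, hN' j l]
      ring
    have h3 : ∑ j, N k j * Matrix.vecMulVec a b j l = n k * b l := by
      rw [hn, Matrix.mulVec, dotProduct, Finset.sum_mul]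
      refine Finset.sum_congr rfl ?_
      intro j _
      rw [Matrix.vecMulVec_apply]
      ring
    rw [h2, h3] at h1
    linear_combination h1
  obtain ⟨k, hk⟩ := Function.ne_iff.1 hn0
  rw [Pi.zero_apply] at hk
  obtain ⟨r, hr⟩ := IsAlgClosed.exists_pow_nat_eq (b k / n k) (n := 2) (by norm_num)
  refine ⟨r • a, ?_⟩
  ext i j
  unfold res
  rw [Matrix.vecMulVec_apply, Matrix.vecMulVec_apply, Matrix.mulVec_smul, Pi.smul_apply,
    Pi.smul_apply, smul_eq_mul, smul_eq_mul, ← hn]
  have h4 := hkl k j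
  have h5 : b j = r ^ 2 * n j := by
    rw [hr]
    field_simp
    linear_combination h4
  rw [h5]
  ring

end Oku_

open Oku_ in
theorem oku_proof : Stmt_Oku := by
  classical
  intro m A E N hO
  obtain ⟨κ, P, hκ, hP, hAP⟩ := hO.eig
  have hPu : IsUnit P.det := isUnit_iff_ne_zero.2 hP
  set Q := P⁻¹ with hQ
  have hPQ : P * Q = 1 := Matrix.mul_nonsing_inv P hPu
  have hQP : Q * P = 1 := Matrix.nonsing_inv_mul P hPu
  have hA : A = P * Matrix.diagonal κ * Q := by
    rw [← hAP, Matrix.mul_assoc, hPQ, Matrix.mul_one]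
  have hsA : ∀ s : ℂ, s • (1 : Matrix (Fin m) (Fin m) ℂ) + A =
      P * Matrix.diagonal (fun i => s + κ i) * Q := by
    intro s
    have h1 : Matrix.diagonal (fun i => s + κ i) =
        s • (1 : Matrix (Fin m) (Fin m) ℂ) + Matrix.diagonal κ := by
      ext i j
      by_cases h : i = j
      · subst h
        simp
      · simp [Matrix.diagonal_apply_ne _ h, Matrix.one_apply_ne h]
    rw [h1, Matrix.mul_add, Matrix.add_mul, ← hA, Matrix.mul_smul, Matrix.mul_one,
      Matrix.smul_mul, hPQ]
  set S : Fin m → ℂ := fun i => -κ i with hS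
  have hSinj : Function.Injective S := fun i j h => hκ (neg_injective h)
  have hne : ∀ s i, s ≠ S i ↔ s + κ i ≠ 0 := by
    intro s i
    simp only [hS, ne_eq, eq_neg_iff_add_eq_zero]
  have hdet : ∀ s : ℂ, (s • (1 : Matrix (Fin m) (Fin m) ℂ) + A).det ≠ 0 ↔ ∀ i, s ≠ S i := by
    intro s
    have hdQ : P.det * Q.det = 1 := by rw [← Matrix.det_mul, hPQ, Matrix.det_one]
    have : (s • (1 : Matrix (Fin m) (Fin m) ℂ) + A).det = ∏ i, (s + κ i) := by
      rw [hsA, Matrix.det_mul, Matrix.det_mul, Matrix.det_diagonal]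
      calc P.det * (∏ i, (s + κ i)) * Q.det = (P.det * Q.det) * ∏ i, (s + κ i) := by ring
        _ = _ := by rw [hdQ, one_mul]
    rw [this, Finset.prod_ne_zero_iff]
    constructor
    · intro h i
      exact (hne s i).2 (h i (Finset.mem_univ i))
    · intro h i _
      exact (hne s i).1 (h i)
  have hinv : ∀ s, (∀ i, s ≠ S i) → (s • (1 : Matrix (Fin m) (Fin m) ℂ) + A)⁻¹ =
      P * Matrix.diagonal (fun i => (s - S i)⁻¹) * Q := by
    intro s hs
    apply Matrix.inv_eq_left_inv
    rw [hsA]
    have h1 : Matrix.diagonal (fun i => (s - S i)⁻¹) * Matrix.diagonal (fun i => s + κ i) =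
        (1 : Matrix (Fin m) (Fin m) ℂ) := by
      rw [Matrix.diagonal_mul_diagonal, ← Matrix.diagonal_one]
      congr 1
      funext i
      have h2 : s - S i = s + κ i := by simp [hS]
      rw [h2]
      exact inv_mul_cancel₀ ((hne s i).1 (hs i))
    calc P * Matrix.diagonal (fun i => (s - S i)⁻¹) * Q *
          (P * Matrix.diagonal (fun i => s + κ i) * Q) =
        P * (Matrix.diagonal (fun i => (s - S i)⁻¹) * (Q * P) *
          Matrix.diagonal (fun i => s + κ i)) * Q := by
          simp only [Matrix.mul_assoc]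
      _ = 1 := by rw [hQP, Matrix.mul_one, h1, Matrix.mul_one, hPQ]
  set a : Fin m → Fin m → ℂ := fun i k => P k i with ha
  set b : Fin m → Fin m → ℂ := fun i k => (Q * E) i k with hb
  have hform : ∀ s, (∀ i, s ≠ S i) → (s • (1 : Matrix (Fin m) (Fin m) ℂ) + A)⁻¹ * E =
      ∑ i, (s - S i)⁻¹ • Matrix.vecMulVec (a i) (b i) := by
    intro s hs
    rw [hinv s hs, Matrix.mul_assoc]
    exact (sum_vec P (Q * E) (fun i => (s - S i)⁻¹)).symm
  have ha0 : ∀ i, a i ≠ 0 := by
    intro i h0
    apply hP
    apply Matrix.det_eq_zero_of_column_eq_zero i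
    intro k
    exact congrFun h0 k
  have hT : ∀ i, (Matrix.vecMulVec (a i) (b i)).transpose * N +
      N * Matrix.vecMulVec (a i) (b i) = 0 := by
    have key : ∀ k l i, ((Matrix.vecMulVec (a i) (b i)).transpose * N +
        N * Matrix.vecMulVec (a i) (b i)) k l = 0 := by
      intro k l
      apply pf_zero S (fun i => ((Matrix.vecMulVec (a i) (b i)).transpose * N +
        N * Matrix.vecMulVec (a i) (b i)) k l) hSinj
      intro s hs
      have h1 := hO.hor s ((hdet s).2 hs)
      rw [hform s hs] at h1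
      have h2 := congrFun (congrFun h1 k) l
      rw [Matrix.transpose_sum, Matrix.sum_mul, Matrix.mul_sum, ← Finset.sum_add_distrib,
        Matrix.sum_apply, Matrix.zero_apply] at h2
      rw [← h2]
      refine Finset.sum_congr rfl ?_
      intro i _
      rw [Matrix.transpose_smul, Matrix.smul_mul, Matrix.mul_smul, ← smul_add,
        Matrix.smul_apply, smul_eq_mul]
    intro i
    ext k l
    exact key k l i
  have hx : ∀ i, ∃ x : Fin m → ℂ, res N x = Matrix.vecMulVec (a i) (b i) := fun i =>
    rank_one N hO.anti hO.det (a i) (b i) (ha0 i) (hT i)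
  choose x hx using hx
  have hBf : ∀ s, (∀ i, s ≠ S i) → Bf N S x s =
      (s • (1 : Matrix (Fin m) (Fin m) ℂ) + A)⁻¹ * E := by
    intro s hs
    rw [hform s hs]
    unfold Bf
    simp only [hx]
  have hsum : ∑ k, res N (x k) = E := by
    simp only [hx]
    have h1 := sum_vec P (Q * E) (fun _ => 1)
    simp only [one_smul] at h1
    refine Eq.trans ?_ (h1.trans ?_)
    · rfl
    · rw [Matrix.diagonal_one, Matrix.mul_one, ← Matrix.mul_assoc, hPQ, Matrix.one_mul]
  have hEdet : IsUnit E.det := by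
    have h1 : E.det = ∏ i, E i i := Matrix.det_of_lowerTriangular E (by
      intro i j hij
      exact hO.tri i j hij)
    rw [h1, isUnit_iff_ne_zero, Finset.prod_ne_zero_iff]
    intro i _
    exact (hO.dia i).1
  refine ⟨S, x, ⟨hSinj, hO.anti, hO.det, ?_, ?_, ?_⟩, hdet, hBf⟩
  · intro i j hij
    rw [hsum]
    exact hO.tri i j hij
  · intro i
    rw [hsum]
    exact (hO.dia i).2
  · intro Z hZ
    apply hO.comm Z
    · obtain ⟨s, hs⟩ := (Set.finite_range S).infinite_compl.nonempty
      have hs' : ∀ i, s ≠ S i := fun i hi => hs ⟨i, hi.symm⟩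
      have hu : IsUnit (s • (1 : Matrix (Fin m) (Fin m) ℂ) + A).det :=
        isUnit_iff_ne_zero.2 ((hdet s).2 hs')
      set B := s • (1 : Matrix (Fin m) (Fin m) ℂ) + A with hB
      have hZE : Z * E = E * Z := by
        rw [← hsum, Matrix.mul_sum, Matrix.sum_mul]
        exact Finset.sum_congr rfl (fun k _ => hZ k)
      have hZB : Z * (B⁻¹ * E) = B⁻¹ * E * Z := by
        rw [← hBf s hs']
        unfold Bf
        rw [Matrix.mul_sum, Matrix.sum_mul]
        refine Finset.sum_congr rfl ?_
        intro k _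
        rw [Matrix.mul_smul, Matrix.smul_mul, hZ k]
      have h1 : Z * B⁻¹ * E = B⁻¹ * Z * E := by
        rw [Matrix.mul_assoc, hZB, Matrix.mul_assoc, ← hZE, Matrix.mul_assoc]
      have h2 : Z * B⁻¹ = B⁻¹ * Z := by
        calc Z * B⁻¹ = Z * B⁻¹ * E * E⁻¹ := by
              rw [Matrix.mul_assoc (Z * B⁻¹), Matrix.mul_nonsing_inv E hEdet, Matrix.mul_one]
          _ = B⁻¹ * Z * E * E⁻¹ := by rw [h1]
          _ = B⁻¹ * Z := by
              rw [Matrix.mul_assoc (B⁻¹ * Z), Matrix.mul_nonsing_inv E hEdet, Matrix.mul_one]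
      have h3 : B * Z = Z * B := by
        calc B * Z = B * Z * (B⁻¹ * B) := by
              rw [Matrix.nonsing_inv_mul B hu, Matrix.mul_one]
          _ = B * (Z * B⁻¹) * B := by simp only [Matrix.mul_assoc]
          _ = B * (B⁻¹ * Z) * B := by rw [h2]
          _ = (B * B⁻¹) * Z * B := by simp only [Matrix.mul_assoc]
          _ = Z * B := by rw [Matrix.mul_nonsing_inv B hu, Matrix.one_mul]
      rw [hB, Matrix.add_mul, Matrix.mul_add, Matrix.smul_mul, Matrix.mul_smul,
        Matrix.one_mul, Matrix.mul_one] at h3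
      exact (add_left_cancel h3).symm
    · rw [← hsum, Matrix.mul_sum, Matrix.sum_mul]
      exact Finset.sum_congr rfl (fun k _ => hZ k)

end Pool.Agent.GPH
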