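import Pool.Agent.GPH.IIStmts

/-!
# GPH, module P2NZ: the polynomial `P2` is not zero
-/

open scoped BigOperators
open Polynomial

namespace Pool.Agent.GPH

namespace P2nz_

/-- The special coefficients `(-(m+1), 0, …, 0)`. -/
def c1 (m : ℕ) : Fin m → ℚ := fun k => if (k : ℕ) = 0 then -((m : ℚ) + 1) else 0

theorem f0_c1 (m : ℕ) (hm : 0 < m) : f0 (c1 m) = X ^ (m + 1) - C ((m : ℚ) + 1) * X := by
  unfold f0
  rw [Finset.sum_eq_single (⟨0, hm⟩ : Fin m)]
  · have : c1 m ⟨0, hm⟩ = -((m : ℚ) + 1) := by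
      unfold c1
      rw [if_pos rfl]
    rw [this, Polynomial.C_neg]
    simp only [zero_add, pow_one]
    ring
  · intro k _ hk
    have : c1 m k = 0 := by
      unfold c1
      rw [if_neg]
      intro h
      exact hk (Fin.ext h)
    rw [this, Polynomial.C_0, zero_mul]
  · intro h
    exact absurd (Finset.mem_univ _) h

theorem g0_c1 (m : ℕ) (hm : 0 < m) : g0 (c1 m) = X ^ m - 1 := by
  unfold g0
  rw [f0_c1 m hm, Polynomial.derivative_sub, Polynomial.derivative_X_pow,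
    Polynomial.derivative_C_mul, Polynomial.derivative_X, mul_one, Nat.add_sub_cancel]
  have h1 : (algebraMap ℚ ℚ (1 / ((m : ℚ) + 1))) = 1 / ((m : ℚ) + 1) := rfl
  have h2 : (((m + 1 : ℕ) : ℚ)) = (m : ℚ) + 1 := by push_cast; ring
  rw [h1, h2, mul_sub, ← mul_assoc, ← Polynomial.C_mul]
  have h3 : (1 / ((m : ℚ) + 1)) * ((m : ℚ) + 1) = 1 := by
    have : ((m : ℚ) + 1) ≠ 0 := by positivity
    field_simp
  rw [h3, Polynomial.C_1, one_mul]

theorem g0_c1_monic (m : ℕ) (hm : 0 < m) : (g0 (c1 m)).Monic := by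
  rw [g0_c1 m hm]
  exact Polynomial.monic_X_pow_sub_C 1 hm.ne'

theorem g0_c1_degree (m : ℕ) (hm : 0 < m) : (g0 (c1 m)).degree = m := by
  rw [g0_c1 m hm]
  exact Polynomial.degree_X_pow_sub_C hm 1

theorem Cop_c1 (m : ℕ) (hm : 0 < m) (l k : Fin m) :
    Cop (c1 m) l k = if (l : ℕ) = ((k : ℕ) + 1) % m then -(m : ℚ) else 0 := by
  show ((X ^ (k : ℕ) * f0 (c1 m)) %ₘ g0 (c1 m)).coeff l = _
  have hk := k.2
  by_cases h : (k : ℕ) + 1 < m
  · have h1 : ((k : ℕ) + 1) % m = (k : ℕ) + 1 := Nat.mod_eq_of_lt h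
    rw [h1]
    have key := (Polynomial.div_modByMonic_unique (f := X ^ (k : ℕ) * f0 (c1 m)) (g := g0 (c1 m))
      (X ^ ((k : ℕ) + 1)) (C (-(m : ℚ)) * X ^ ((k : ℕ) + 1)) (g0_c1_monic m hm) ⟨?_, ?_⟩).2
    · rw [key, Polynomial.coeff_C_mul, Polynomial.coeff_X_pow]
      split_ifs <;> simp
    · rw [f0_c1 m hm, g0_c1 m hm, Polynomial.C_neg, Polynomial.C_add, Polynomial.C_1]
      ring
    · rw [g0_c1_degree m hm]
      refine lt_of_le_of_lt (Polynomial.degree_C_mul_X_pow_le _ _) ?_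
      exact_mod_cast h
  · have hk1 : (k : ℕ) + 1 = m := by omega
    have h1 : ((k : ℕ) + 1) % m = 0 := by rw [hk1, Nat.mod_self]
    rw [h1]
    have key := (Polynomial.div_modByMonic_unique (f := X ^ (k : ℕ) * f0 (c1 m)) (g := g0 (c1 m))
      (X ^ ((k : ℕ) + 1) - C (m : ℚ)) (C (-(m : ℚ))) (g0_c1_monic m hm) ⟨?_, ?_⟩).2
    · rw [key, Polynomial.coeff_C]
    · rw [f0_c1 m hm, g0_c1 m hm, Polynomial.C_neg, Polynomial.C_add, Polynomial.C_1]
      have e1 : (X : ℚ[X]) ^ m = X ^ ((k : ℕ) + 1) := by rw [hk1]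
      have e2 : (X : ℚ[X]) ^ (m + 1) = X ^ ((k : ℕ) + 1) * X := by rw [pow_succ, e1]
      rw [e2, e1]
      ring
    · rw [g0_c1_degree m hm]
      refine lt_of_le_of_lt Polynomial.degree_C_le ?_
      exact_mod_cast hm

theorem Cop_pow (m : ℕ) (hm : 0 < m) (n : ℕ) (l k : Fin m) :
    (Cop (c1 m) ^ n) l k = if (l : ℕ) = ((k : ℕ) + n) % m then (-(m : ℚ)) ^ n else 0 := by
  induction n generalizing l with
  | zero =>
    rw [pow_zero, Matrix.one_apply, add_zero, Nat.mod_eq_of_lt k.2, pow_zero]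
    by_cases h : l = k
    · rw [if_pos h, if_pos (by rw [h])]
    · rw [if_neg h, if_neg (fun h' => h (Fin.ext h'))]
  | succ n ih =>
    rw [pow_succ', Matrix.mul_apply]
    rw [Finset.sum_eq_single (⟨((k : ℕ) + n) % m, Nat.mod_lt _ hm⟩ : Fin m)]
    · rw [Cop_c1 m hm, ih, if_pos rfl]
      have h1 : (((k : ℕ) + n) % m + 1) % m = ((k : ℕ) + (n + 1)) % m := by
        rw [Nat.mod_add_mod, add_assoc]
      show (if (l : ℕ) = (((k : ℕ) + n) % m + 1) % m then -(m : ℚ) else 0) * (-(m : ℚ)) ^ n = _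
      rw [h1]
      split_ifs
      · rw [pow_succ']
      · rw [zero_mul]
    · intro i _ hi
      rw [ih, if_neg, mul_zero]
      intro h
      exact hi (Fin.ext h)
    · intro h
      exact absurd (Finset.mem_univ _) h

theorem trace_pow (m : ℕ) (hm : 0 < m) (n : ℕ) :
    (Cop (c1 m) ^ n).trace = if n % m = 0 then (m : ℚ) * (-(m : ℚ)) ^ n else 0 := by
  have h : ∀ k : Fin m, (k : ℕ) = ((k : ℕ) + n) % m ↔ n % m = 0 := by
    intro k
    have hk := k.2
    constructor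
    · intro h
      have h2 : (k : ℕ) ≡ (k : ℕ) + n [MOD m] := by
        show (k : ℕ) % m = ((k : ℕ) + n) % m
        rw [← h]
        exact Nat.mod_eq_of_lt hk
      have h3 : (k : ℕ) + 0 ≡ (k : ℕ) + n [MOD m] := h2
      have h4 := Nat.ModEq.add_left_cancel' (k : ℕ) h3
      exact h4.symm
    · intro h
      rw [Nat.add_mod, h, add_zero, Nat.mod_mod, Nat.mod_eq_of_lt hk]
  unfold Matrix.trace
  simp only [Matrix.diag_apply, Cop_pow m hm, h]
  split_ifs
  · rw [Finset.sum_const, Finset.card_univ, Fintype.card_fin, nsmul_eq_mul]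
  · rw [Finset.sum_const_zero]

theorem P2_c1 (m : ℕ) : P2 (c1 m) ≠ 0 := by
  rcases Nat.eq_zero_or_pos m with h0 | hm
  · subst h0
    unfold P2
    rw [Matrix.det_fin_zero]
    exact one_ne_zero
  unfold P2
  intro h
  obtain ⟨v, hv, hv0⟩ := Matrix.exists_mulVec_eq_zero_iff.mpr h
  apply hv
  funext j
  have hj := j.2
  -- the row `-j`
  have hi : (m - (j : ℕ)) % m < m := Nat.mod_lt _ hm
  have hrow := congrFun hv0 (⟨(m - (j : ℕ)) % m, hi⟩ : Fin m)
  rw [Matrix.mulVec, dotProduct] at hrow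
  have hz : ∀ k : Fin m, (((m - (j : ℕ)) % m + (k : ℕ)) % m = 0 ↔ k = j) := by
    intro k
    have hk := k.2
    rw [Nat.mod_add_mod]
    constructor
    · intro h
      have hd : m ∣ m - (j : ℕ) + (k : ℕ) := Nat.dvd_of_mod_eq_zero h
      obtain ⟨t, ht⟩ := hd
      have h1 : t = 1 := by
        have a1 : m * t < m * 2 := by omega
        have a2 : 0 < m * t := by omega
        have a3 : t < 2 := Nat.lt_of_mul_lt_mul_left a1
        have a4 : 0 < t := Nat.pos_of_mul_pos_left a2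
        omega
      apply Fin.ext
      rw [h1] at ht
      omega
    · intro h
      rw [h]
      have : m - (j : ℕ) + (j : ℕ) = m := by omega
      rw [this, Nat.mod_self]
  rw [Finset.sum_eq_single j] at hrow
  · simp only [Matrix.of_apply, Pi.zero_apply, trace_pow m hm] at hrow
    rw [if_pos ((hz j).mpr rfl)] at hrow
    have hm0 : (m : ℚ) ≠ 0 := by exact_mod_cast hm.ne'
    rcases mul_eq_zero.mp hrow with h1 | h1
    · exact absurd h1 (mul_ne_zero hm0 (pow_ne_zero _ (neg_ne_zero.mpr hm0)))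
    · exact h1
  · intro k _ hk
    simp only [Matrix.of_apply, trace_pow m hm]
    rw [if_neg (fun h' => hk ((hz k).mp h')), zero_mul]
  · intro h'
    exact absurd (Finset.mem_univ _) h'

end P2nz_

open P2nz_

theorem p2nz_proof (hmap : Stmt_CDmap) : Stmt_P2nz := by
  intro m h
  have h1 := (hmap (MvPolynomial (Fin m) ℚ) ℚ
    (MvPolynomial.eval (c1 m) : MvPolynomial (Fin m) ℚ →+* ℚ) m
    (fun k => (MvPolynomial.X k : MvPolynomial (Fin m) ℚ))).2.2
  rw [h, map_zero] at h1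
  have h2 : (fun k : Fin m => MvPolynomial.eval (c1 m) (MvPolynomial.X k : MvPolynomial (Fin m) ℚ))
      = c1 m := by
    funext k
    exact MvPolynomial.eval_X _
  rw [h2] at h1
  exact P2_c1 m h1

end Pool.Agent.GPH
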