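import Pool.Agent.GPH.IIStmts

/-!
# GPH, part II: relations hold on the whole torsor (Fuchsian systems)
-/

open scoped BigOperators Topology
open Metric Set

namespace Pool.Agent.GPH

namespace THMFX

lemma diff_eval {α : Type} {S : Set ℂ} (f : α → ℂ → ℂ) (hf : ∀ i, DifferentiableOn ℂ (f i) S)
    (P : MvPolynomial (Option α) ℂ) :
    DifferentiableOn ℂ (fun t => MvPolynomial.eval (HGP.opt t (fun p => f p t)) P) S := by
  induction P using MvPolynomial.induction_on with
  | C c => simp
  | add p q hp hq =>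
    simp only [map_add]
    exact hp.add hq
  | mul_X p i hp =>
    simp only [map_mul, MvPolynomial.eval_X]
    refine hp.mul ?_
    cases i with
    | none => exact differentiableOn_id
    | some i => exact hf i

/-- A holomorphic function on a preconnected open set which vanishes near a point. -/
lemma ident {U : Set ℂ} (hU : IsOpen U) (hc : IsPreconnected U) {f : ℂ → ℂ}
    (hf : DifferentiableOn ℂ f U) {b : ℂ} {r : ℝ} (hr : 0 < r) (hb : b ∈ U)
    (h0 : ∀ s ∈ ball b r, f s = 0) : ∀ s ∈ U, f s = 0 := by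
  intro s hs
  have ha : AnalyticOnNhd ℂ f U := hf.analyticOnNhd hU
  have h1 : f =ᶠ[𝓝 b] 0 := by
    filter_upwards [ball_mem_nhds b hr] with z hz
    exact h0 z hz
  exact ha.eqOn_zero_of_preconnected_of_eventuallyEq_zero hc hb h1 hs

lemma hol_mul {m : ℕ} {ι : Type} {U : Set ℂ} {Φ : ℂ → Matrix (Fin m) (Fin m) ℂ}
    (hΦ : ∀ i j, DifferentiableOn ℂ (fun z => Φ z i j) U) (h : Matrix (Fin m) ι ℂ) (q : Fin m × ι) :
    DifferentiableOn ℂ (fun z => (Φ z * h) q.1 q.2) U := by
  simp only [Matrix.mul_apply]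
  exact DifferentiableOn.fun_sum fun k _ => (hΦ q.1 k).mul_const _

end THMFX

open THMFX in
theorem thmf_proof (hGB : Stmt_GeoB) (hGC : Stmt_GeoC) (hUn : Stmt_Uniq) (hFu : Stmt_Fund)
    (hLo : Stmt_Locf) (hCo : Stmt_CommS) (hSh : Stmt_Shift) (hGr : Stmt_Grp) : Stmt_ThmF := by
  intro g p N S x hg hF lam hlam b0 ρ hρ hball W hW hLeg P hP s M hM
  obtain ⟨b, hb, hpos⟩ := hGB p S hF.inj b0 ρ hρ
  obtain ⟨hCopen, hbC, hCstar, hCoff⟩ := hGC p S b hpos.1
  have hCpre : IsPreconnected (Cut b S) :=
    (hCstar.isPathConnected hbC).isConnected.isPreconnected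
  obtain ⟨Φ, hΦ⟩ := hFu (2 * g) p N S x hF b hpos.1
  choose v hv using fun i => hLo (2 * g) p N S x hF b hpos Φ hΦ i
  have hcomm := hCo (2 * g) p N S x hF b hpos Φ hΦ v hv
  have hgrp := hGr g p N (W b) lam v hg hlam hF.anti hF.det (hLeg b hb) hcomm
  have hΦd : ∀ i j, DifferentiableOn ℂ (fun z => Φ z i j) (Cut b S) := fun i j z hz =>
    (hΦ.sol z hz i j).differentiableAt.differentiableWithinAt
  -- a small ball around `b`
  obtain ⟨r1, hr1, hr1s⟩ := Metric.isOpen_iff.mp hCopen b hbC
  obtain ⟨r2, hr2, hr2s⟩ := Metric.isOpen_iff.mp isOpen_ball b hb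
  set r := min r1 r2 with hr
  have hrpos : 0 < r := lt_min hr1 hr2
  have hrC : ball b r ⊆ Cut b S := (ball_subset_ball (min_le_left _ _)).trans hr1s
  have hrB : ball b r ⊆ ball b0 ρ := (ball_subset_ball (min_le_right _ _)).trans hr2s
  -- `W = Φ W (b)` on the small ball
  have hWΦ : ∀ z ∈ ball b r, W z = Φ z * W b := by
    have hcol : ∀ j, ∀ z ∈ ball b r, (fun k => W z k j - (Φ z * W b) k j) = 0 := by
      intro j
      refine hUn (Fin (2 * g)) (ball b r) (Bf N S x) isOpen_ball
        (convex_ball b r).isPreconnected ?_ (fun z k => W z k j - (Φ z * W b) k j) ?_ b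
        (mem_ball_self hrpos) ?_
      · intro k l z hz
        have hz' := hCoff z (hrC hz)
        unfold Bf
        simp only [Matrix.sum_apply, Matrix.smul_apply, smul_eq_mul]
        refine DifferentiableAt.differentiableWithinAt ?_
        refine DifferentiableAt.fun_sum fun i _ => ?_
        refine DifferentiableAt.mul_const ?_ _
        exact ((differentiableAt_id.sub_const _).inv (sub_ne_zero.mpr (hz' i)))
      · intro z hz k
        have h1 := hW z (hrB hz) k j
        have h2 : HasDerivAt (fun z => (Φ z * W b) k j) ((Bf N S x z * (Φ z * W b)) k j) z := by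
          have h3 : ∀ l, HasDerivAt (fun z => Φ z k l * W b l j)
              ((Bf N S x z * Φ z) k l * W b l j) z := fun l => (hΦ.sol z (hrC hz) k l).mul_const _
          have h4 := HasDerivAt.fun_sum (u := Finset.univ) fun l _ => h3 l
          rw [← Matrix.mul_assoc]
          simp only [Matrix.mul_apply] at h4 ⊢
          exact h4
        have h5 := h1.sub h2
        refine h5.congr_deriv ?_
        simp only [Matrix.mulVec, dotProduct, Matrix.mul_apply (M := Bf N S x z)]
        rw [← Finset.sum_sub_distrib]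
        exact Finset.sum_congr rfl fun l _ => by ring
      · funext k
        simp [hΦ.one]
    intro z hz
    ext k j
    have := congrFun (hcol j z hz) k
    simpa [sub_eq_zero] using this
  -- the relation on the cut plane
  have hQ0 : ∀ z ∈ Cut b S, MvPolynomial.eval (HGP.opt z (fun q => (Φ z * W b) q.1 q.2)) P = 0 := by
    have hd1 : ∀ q : Fin (2 * g) × HGP.Ix g,
        DifferentiableOn ℂ (fun z => (Φ z * W b) q.1 q.2) (Cut b S) :=
      fun q => hol_mul hΦd (W b) q
    have hd := diff_eval (fun (q : Fin (2 * g) × HGP.Ix g) z => (Φ z * W b) q.1 q.2) hd1 P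
    refine ident hCopen hCpre hd hrpos hbC ?_
    intro z hz
    have h1 := hP z (hrB hz)
    rw [hWΦ z hz] at h1
    exact h1
  have hQ : ∀ h ∈ Submonoid.closure (TV N v), ∀ h' : Matrix (Fin (2 * g)) (HGP.Ix g) ℂ,
      (∀ z ∈ Cut b S, MvPolynomial.eval (HGP.opt z (fun q => (Φ z * h') q.1 q.2)) P = 0) →
      ∀ z ∈ Cut b S, MvPolynomial.eval (HGP.opt z (fun q => (Φ z * (h * h')) q.1 q.2)) P = 0 := by
    intro h hh
    induction hh using Submonoid.closure_induction with
    | mem h hh =>
      obtain ⟨i, c, rfl⟩ := hh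
      intro h' hh' z hz
      exact hSh (2 * g) p N S x hF b hpos Φ hΦ i (v i) (hv i) (HGP.Ix g) P h' hh' c z hz
    | one =>
      intro h' hh' z hz
      rw [Matrix.one_mul]
      exact hh' z hz
    | mul h1 h2 _ _ ih1 ih2 =>
      intro h' hh' z hz
      rw [Matrix.mul_assoc]
      exact ih1 _ (ih2 h' hh') z hz
  -- the inverse of `W b`
  have hJ2 : Matrix.J (Fin g) ℂ * Matrix.J (Fin g) ℂ = -1 := Matrix.J_squared (Fin g) ℂ
  set Wi : Matrix (HGP.Ix g) (Fin (2 * g)) ℂ :=
    (-lam⁻¹) • (Matrix.J (Fin g) ℂ * (W b).transpose * N) with hWi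
  have hWi1 : Wi * W b = 1 := by
    have h1 := hLeg b hb
    rw [hWi, Matrix.smul_mul, Matrix.mul_assoc, Matrix.mul_assoc, ← Matrix.mul_assoc _ N, h1,
      Matrix.mul_smul, hJ2, smul_smul, neg_mul, inv_mul_cancel₀ hlam]
    simp
  have hWi2 : W b * Wi = 1 := by
    have hcard : Fintype.card (HGP.Ix g) = Fintype.card (Fin (2 * g)) := by
      simp [HGP.Ix, two_mul]
    exact (Matrix.mul_eq_one_comm_of_card_eq _ _ _ hcard).mp hWi1
  -- all the points of the torsor over the cut plane
  have hcut : ∀ z ∈ Cut b S, MvPolynomial.eval (HGP.opt z (fun q => M q.1 q.2)) P = 0 := by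
    intro z hz
    have hiso := hΦ.iso z hz
    have hdet : IsUnit (Φ z).det := by
      rw [isUnit_iff_ne_zero]
      intro h0
      have h1 := congrArg Matrix.det hiso
      rw [Matrix.det_mul, Matrix.det_mul, h0, mul_zero] at h1
      exact hF.det h1.symm
    have h1 : Φ z * (Φ z)⁻¹ = 1 := Matrix.mul_nonsing_inv _ hdet
    have h1' : ((Φ z)⁻¹).transpose * (Φ z).transpose = 1 := by
      rw [← Matrix.transpose_mul, h1, Matrix.transpose_one]
    have h2 : ((Φ z)⁻¹).transpose * N * (Φ z)⁻¹ = N := by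
      calc ((Φ z)⁻¹).transpose * N * (Φ z)⁻¹
          = ((Φ z)⁻¹).transpose * ((Φ z).transpose * N * Φ z) * (Φ z)⁻¹ := by rw [hiso]
        _ = (((Φ z)⁻¹).transpose * (Φ z).transpose) * N * (Φ z * (Φ z)⁻¹) := by
            simp only [Matrix.mul_assoc]
        _ = N := by rw [h1, h1', Matrix.one_mul, Matrix.mul_one]
    set h : Matrix (Fin (2 * g)) (Fin (2 * g)) ℂ := (Φ z)⁻¹ * (M * Wi) with hh
    have h3 : h.transpose * N * h = N := by
      calc h.transpose * N * h
          = Wi.transpose * (M.transpose * (((Φ z)⁻¹).transpose * N * (Φ z)⁻¹) * M) * Wi := by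
            rw [hh]
            simp only [Matrix.transpose_mul, Matrix.mul_assoc]
        _ = Wi.transpose * ((W b).transpose * N * W b) * Wi := by rw [h2, hM, hLeg b hb]
        _ = (W b * Wi).transpose * N * (W b * Wi) := by
            simp only [Matrix.transpose_mul, Matrix.mul_assoc]
        _ = N := by rw [hWi2, Matrix.transpose_one, Matrix.one_mul, Matrix.mul_one]
    have h4 := hQ h (hgrp h h3) (W b) hQ0 z hz
    have h5 : Φ z * (h * W b) = M := by
      rw [hh, Matrix.mul_assoc, Matrix.mul_assoc, hWi1, Matrix.mul_one, ← Matrix.mul_assoc, h1,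
        Matrix.one_mul]
    rw [h5] at h4
    exact h4
  -- all `s`
  have hfin : ∀ z ∈ (Set.univ : Set ℂ), MvPolynomial.eval (HGP.opt z (fun q => M q.1 q.2)) P = 0 := by
    have hd1 : ∀ q : Fin (2 * g) × HGP.Ix g,
        DifferentiableOn ℂ (fun _ : ℂ => M q.1 q.2) Set.univ :=
      fun q => differentiableOn_const _
    have hd := diff_eval (fun (q : Fin (2 * g) × HGP.Ix g) (_ : ℂ) => M q.1 q.2) hd1 P
    refine ident isOpen_univ isPreconnected_univ hd hrpos (Set.mem_univ b) ?_
    intro z hz
    exact hcut z (hrC hz)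
  exact hfin s (Set.mem_univ s)

end Pool.Agent.GPH
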