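import Pool.Agent.GPH.Lode
import Pool.Agent.GPH.Uniq
import Pool.Agent.GPH.Geob
import Pool.Agent.GPH.GeoC
import Pool.Agent.GPH.Frob
import Pool.Agent.GPH.Ext
import Pool.Agent.GPH.GROW
import Pool.Agent.GPH.Fund
import Pool.Agent.GPH.Locf
import Pool.Agent.GPH.Comms
import Pool.Agent.GPH.SHIFT
import Pool.Agent.GPH.Grpa
import Pool.Agent.GPH.GrpB
import Pool.Agent.GPH.Grp
import Pool.Agent.GPH.ThmF
import Pool.Agent.GPH.Oku
import Pool.Agent.GPH.Hor
import Pool.Agent.GPH.CDid
import Pool.Agent.GPH.Cdmap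
import Pool.Agent.GPH.DTri
import Pool.Agent.GPH.CEig
import Pool.Agent.GPH.CDet
import Pool.Agent.GPH.CCom
import Pool.Agent.GPH.P2nz
import Pool.Agent.GPH.FibH
import Pool.Agent.HGP.LOGSH
import Pool.Agent.HGP.GENB

/-!
# GPH, part II: assembly
-/

namespace Pool.Agent.GPH

theorem ext_thm : Stmt_Ext := ext_proof geoC_proof lode_proof uniq_proof

theorem fund_thm : Stmt_Fund := fund_proof geoC_proof lode_proof

theorem locf_thm : Stmt_Locf := locf_proof frob_proof uniq_proof geoC_proof

theorem comms_thm : Stmt_CommS := comms_proof ext_thm grow_proof geoC_proof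

theorem shift_thm : Stmt_Shift := shift_proof HGP.logsh_proof geoC_proof

theorem grp_thm : Stmt_Grp := grp_proof grpa_proof (grpb_proof HGP.genb_proof)

theorem thmf_thm : Stmt_ThmF :=
  thmf_proof geob_proof geoC_proof uniq_proof fund_thm locf_thm comms_thm shift_thm grp_thm

theorem ccom_thm : Stmt_CCom := ccom_proof ceig_proof dtri_proof cdet_proof

theorem p2nz_thm : Stmt_P2nz := p2nz_proof cdmap_proof

theorem fibh_thm : Stmt_FibH :=
  fibh_proof hor_proof oku_proof thmf_thm ceig_proof cdet_proof ccom_thm dtri_proof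

end Pool.Agent.GPH
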