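import Pool.Agent.GPH.IIIDefs

/-!
# CEN: a centre exists
-/

open scoped BigOperators Topology Interval
open Metric Set MeasureTheory Filter

namespace Pool.Agent.GPH.CEN

noncomputable section

theorem cross (κ a b : ℂ) (T : ℝ) (hκ : κ ≠ 0) :
    Complex.normSq κ * ((a - Complex.I * T / κ) * (starRingEnd ℂ) (b - Complex.I * T / κ)).im =
      T * (κ * (a - b)).re + (κ * a * (starRingEnd ℂ) (κ * b)).im := by
  have h1 : (a - Complex.I * T / κ) = (κ * a - Complex.I * T) / κ := by field_simp
  have h2 : (b - Complex.I * T / κ) = (κ * b - Complex.I * T) / κ := by field_simp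
  have h3 : ((Complex.normSq κ : ℝ) : ℂ) * ((a - Complex.I * T / κ) *
      (starRingEnd ℂ) (b - Complex.I * T / κ)) =
      (κ * a - Complex.I * T) * (starRingEnd ℂ) (κ * b - Complex.I * T) := by
    rw [h1, h2, map_div₀, Complex.normSq_eq_conj_mul_self]
    have h4 : (starRingEnd ℂ) κ ≠ 0 := by simpa using hκ
    field_simp
  have h5 := congrArg Complex.im h3
  rw [Complex.im_ofReal_mul] at h5
  rw [h5]
  have h6 : κ * (a - b) = κ * a - κ * b := by ring
  rw [h6]
  generalize κ * a = A
  generalize κ * b = B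
  simp
  ring

theorem thm : Stmt_Cen := by
  intro N κ z h
  have hκ : κ ≠ 0 := by
    rintro rfl
    simpa using h.1
  have h1 : ∀ j, ∀ᶠ T : ℝ in atTop, z j ≠ Complex.I * T / κ := by
    intro j
    filter_upwards [eventually_gt_atTop ‖κ * z j‖] with T hT e
    have : κ * z j = Complex.I * T := by
      rw [e]
      field_simp
    rw [this] at hT
    simp at hT
    exact absurd hT (not_lt.2 (le_abs_self T))
  have h2 : ∀ i j, i < j → j < N → ∀ᶠ T : ℝ in atTop,
      0 < ((z j - Complex.I * T / κ) * (starRingEnd ℂ) (z i - Complex.I * T / κ)).im := by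
    intro i j hij hj
    have h3 := h.2 i j hij hj
    have h4 : Tendsto (fun T : ℝ => T * (κ * (z j - z i)).re +
        (κ * z j * (starRingEnd ℂ) (κ * z i)).im) atTop atTop :=
      tendsto_atTop_add_const_right _ _ (tendsto_id.atTop_mul_const h3)
    filter_upwards [h4.eventually_gt_atTop 0] with T hT
    rw [← cross κ (z j) (z i) T hκ] at hT
    exact (mul_pos_iff_of_pos_left (Complex.normSq_pos.2 hκ)).1 hT
  have h3 : ∀ᶠ T : ℝ in atTop, (∀ j ∈ Finset.range N, z j ≠ Complex.I * T / κ) ∧
      ∀ j ∈ Finset.range N, ∀ i ∈ Finset.range j,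
      0 < ((z j - Complex.I * T / κ) * (starRingEnd ℂ) (z i - Complex.I * T / κ)).im := by
    rw [eventually_and]
    constructor
    · rw [Filter.eventually_all_finset]
      intro j _
      exact h1 j
    · rw [Filter.eventually_all_finset]
      intro j hj
      rw [Filter.eventually_all_finset]
      intro i hi
      exact h2 i j (Finset.mem_range.1 hi) (Finset.mem_range.1 hj)
  obtain ⟨T, hT⟩ := h3.exists
  refine ⟨Complex.I * T / κ, fun j hj => hT.1 j (Finset.mem_range.2 hj), fun i j hij hj =>
    hT.2 j (Finset.mem_range.2 hj) i (Finset.mem_range.2 hij)⟩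

end

end Pool.Agent.GPH.CEN
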