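import Pool.Agent.GPC.Defs

/-!
# GPH, part I: the counting theorem, uniform over a compact space of parameters

The functions `f j y z` depend on a parameter `y` in a compact space `Y`. The constants of the
counting theorem do not depend on `y`.
-/

open scoped BigOperators Topology
open Metric

namespace Pool.Agent.GPH

open Pool.Agent.GPC (IsSmall pt mono Free IsBad)

noncomputable section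

/-- `s, f 1 y, …, f n y` are holomorphic on the ball of radius `10 ρ` around `z0`, algebraically
independent over `ℂ` for every `y`, and jointly continuous. -/
structure IndepU (n : ℕ) (Y : Type) [TopologicalSpace Y] (z0 : ℂ) (ρ : ℝ) (s : ℂ → ℂ)
    (f : Fin n → Y → ℂ → ℂ) : Prop where
  pos : 0 < ρ
  ds : DifferentiableOn ℂ s (ball z0 (10 * ρ))
  cont : ∀ j, ContinuousOn (fun p : Y × ℂ => f j p.1 p.2) (Set.univ ×ˢ ball z0 (10 * ρ))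
  ind : ∀ y, GPC.Indep n z0 ρ s (fun j => f j y)

/-- CIRCU -/
def Stmt_CircU : Prop := ∀ (Y : Type) [TopologicalSpace Y] [CompactSpace Y] (z0 : ℂ) (ρ : ℝ),
  0 < ρ → ∀ (ι : Type) [Fintype ι] (g : ι → Y → ℂ → ℂ),
  (∀ k, ContinuousOn (fun p : Y × ℂ => g k p.1 p.2) (Set.univ ×ˢ ball z0 (10 * ρ))) →
  (∀ k y, DifferentiableOn ℂ (g k y) (ball z0 (10 * ρ))) →
  (∀ y, ∀ d : ι → ℂ, (∀ z ∈ ball z0 (10 * ρ), ∑ k, d k * g k y z = 0) → d = 0) →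
  ∃ (c : ℝ) (Z : ℕ), 0 < c ∧ ∀ (y : Y) (d : ι → ℂ) (N : ℝ), 0 < N → (∃ k, ‖d k‖ = N) →
    (∀ k, ‖d k‖ ≤ N) →
    ∃ (R : ℝ) (k : ℕ) (w : Fin k → ℂ) (u : ℂ → ℂ), 2 * ρ < R ∧ R < 3 * ρ ∧ k ≤ Z ∧
      (∀ j, w j ∈ ball z0 R) ∧ DifferentiableOn ℂ u (ball z0 (10 * ρ)) ∧
      (∀ z ∈ closedBall z0 R, u z ≠ 0) ∧
      (∀ z ∈ ball z0 (10 * ρ), ∑ k, d k * g k y z = (∏ j, (z - w j)) * u z) ∧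
      ∀ z ∈ sphere z0 R, c * N ≤ ‖∑ k, d k * g k y z‖

/-- KREPU -/
def Stmt_KRepU : Prop := ∀ (n : ℕ) (Y : Type) [TopologicalSpace Y] [CompactSpace Y] (z0 : ℂ)
  (ρ : ℝ) (s : ℂ → ℂ) (f : Fin n → Y → ℂ → ℂ),
  IndepU n Y z0 ρ s f → ∀ (a b : ℕ) (𝒮 : Finset (Option (Fin n) →₀ ℕ)), a ≤ b →
  ∃ (Z : ℕ) (Θ : ℝ), 0 < Θ ∧
    ∀ (y : Y) (Λ : Matrix (Fin a) (Fin b) (MvPolynomial (Option (Fin n)) ℂ)),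
    (∀ g k, (Λ g k).support ⊆ 𝒮) → (∃ p : Fin a → Fin b, (Λ.submatrix id p).det ≠ 0) →
    ∃ (k : ℕ) (w : Fin k → ℂ) (h : Fin b → Fin (b - a) → ℂ → ℂ) (e : Fin (b - a) → Fin b),
      k ≤ Z ∧ (∀ i l, DifferentiableOn ℂ (h i l) (ball z0 (2 * ρ))) ∧
      (∀ i l, ∀ z ∈ ball z0 (2 * ρ), ‖h i l z‖ ≤ Θ) ∧
      ∀ z ∈ ball z0 (2 * ρ), (∀ j, z ≠ w j) → ∀ v : Fin b → ℂ,
        (∀ g, ∑ k, MvPolynomial.eval (pt (s z) (fun j => f j y z)) (Λ g k) * v k = 0) →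
        ∀ i, (∏ j, (z - w j)) * v i = ∑ l, h i l z * v (e l)

/-- KEYU -/
def Stmt_KeyU : Prop := ∀ (n N A : ℕ) (Y : Type) [TopologicalSpace Y] [CompactSpace Y] (z0 : ℂ)
  (ρ κ : ℝ) (s : ℂ → ℂ) (f : Fin n → Y → ℂ → ℂ),
  IndepU n Y z0 ρ s f → 0 < κ → ∀ (a b q : ℕ) (β : Fin b → (Fin N →₀ ℕ))
  (𝒮 : Finset (Option (Fin n) →₀ ℕ)) (c2 : ℝ), 8 ≤ q * κ → 0 < b → a ≤ b →
  q * (b - a) ≤ b → 0 < c2 → c2 ≤ 1 →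
  ∃ (J Z H0 : ℕ), ∀ H : ℕ, H0 ≤ H → ∀ y : Y,
    ∀ (Λ : Matrix (Fin a) (Fin b) (MvPolynomial (Option (Fin n)) ℂ)),
    (∀ g k, (Λ g k).support ⊆ 𝒮) → (∃ p : Fin a → Fin b, (Λ.submatrix id p).det ≠ 0) →
    ∀ w ∈ closedBall z0 ρ, ∃ E : Finset ℂ, E.card ≤ Z ∧
      ∀ (T : Finset ℚ) (z : ℚ → ℂ) (x : ℚ → Fin N → ℚ) (qq : ℚ → ℕ),
      (∀ r ∈ T, r.num.natAbs ≤ H ∧ r.den ≤ H ∧ z r ∈ closedBall z0 ρ ∧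
        ‖z r - w‖ ≤ (H : ℝ) ^ (-κ) ∧ s (z r) = r ∧ (∀ ν, |x r ν| ≤ 1) ∧
        0 < qq r ∧ qq r ≤ H ^ A ∧ (∀ ν, ∃ k : ℤ, (qq r : ℚ) * x r ν = k) ∧
        (∀ g, ∑ k, MvPolynomial.eval (pt (r : ℂ) (fun j => f j y (z r))) (Λ g k) *
          ((mono (x r) (β k) : ℚ) : ℂ) = 0) ∧ ∀ e ∈ E, c2 / (H : ℝ) ^ 2 ≤ ‖z r - e‖) →
      ∃ μ : Fin J → Fin b → ℂ, μ ≠ 0 ∧ ∀ r ∈ T,
        ∑ j, ∑ k, μ j k * ((r : ℂ) ^ (j : ℕ) * ((mono (x r) (β k) : ℚ) : ℂ)) = 0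

/-- The data of a sequence of configurations which violates the counting theorem. -/
structure BadSeqU (n N A : ℕ) (Y : Type) (z0 : ℂ) (ρ κ : ℝ) (s : ℂ → ℂ) (f : Fin n → Y → ℂ → ℂ)
    (𝒜 : Finset (Fin n →₀ ℕ)) where
  H : ℕ → ℕ
  y : ℕ → Y
  Γ : ℕ → (Fin n →₀ ℕ) → Fin N → ℂ
  w : ℕ → ℂ
  T : ℕ → Finset ℚ
  z : ℕ → ℚ → ℂ
  x : ℕ → ℚ → Fin N → ℚ
  q : ℕ → ℚ → ℕ
  card : ∀ i, i < (T i).card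
  wmem : ∀ i, w i ∈ closedBall z0 ρ
  num : ∀ i, ∀ r ∈ T i, r.num.natAbs ≤ H i
  den : ∀ i, ∀ r ∈ T i, r.den ≤ H i
  zmem : ∀ i, ∀ r ∈ T i, z i r ∈ closedBall z0 ρ
  znear : ∀ i, ∀ r ∈ T i, ‖z i r - w i‖ ≤ (H i : ℝ) ^ (-κ)
  sz : ∀ i, ∀ r ∈ T i, s (z i r) = r
  xle : ∀ i, ∀ r ∈ T i, ∀ ν, |x i r ν| ≤ 1
  qpos : ∀ i, ∀ r ∈ T i, 0 < q i r
  qle : ∀ i, ∀ r ∈ T i, q i r ≤ H i ^ A
  xq : ∀ i, ∀ r ∈ T i, ∀ ν, ∃ k : ℤ, (q i r : ℚ) * x i r ν = k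
  ne : ∀ i, ∀ r ∈ T i, ∃ α ∈ 𝒜, ∑ ν, Γ i α ν * (x i r ν : ℂ) ≠ 0
  rel : ∀ i, ∀ r ∈ T i,
    ∑ α ∈ 𝒜, (∑ ν, Γ i α ν * (x i r ν : ℂ)) * mono (fun j => f j (y i) (z i r)) α = 0

/-- ULTRAU -/
def Stmt_UltraU : Prop := ∀ (n N A : ℕ) (Y : Type) (z0 : ℂ) (ρ κ : ℝ) (s : ℂ → ℂ)
  (f : Fin n → Y → ℂ → ℂ)
  (𝒜 : Finset (Fin n →₀ ℕ)) (S : BadSeqU n N A Y z0 ρ κ s f 𝒜) (q : ℕ),
  ∃ (a b : ℕ) (β : Fin b → (Fin N →₀ ℕ)) (𝒮 : Finset (Option (Fin n) →₀ ℕ))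
    (Λ : ℕ → Matrix (Fin a) (Fin b) (MvPolynomial (Option (Fin n)) ℂ)),
    0 < b ∧ a ≤ b ∧ q * (b - a) ≤ b ∧ (∀ i g k, (Λ i g k).support ⊆ 𝒮) ∧
    ∀ (J Z i0 : ℕ) (Ex : ℕ → Finset ℚ), (∀ i, (Ex i).card ≤ Z) → ∃ i, i0 ≤ i ∧
      (∃ p : Fin a → Fin b, ((Λ i).submatrix id p).det ≠ 0) ∧
      ∀ μ : Fin J → Fin b → ℂ,
        (∀ r ∈ S.T i, r ∉ Ex i →
          (∀ g, ∑ k, MvPolynomial.eval (pt (r : ℂ) (fun j => f j (S.y i) (S.z i r))) (Λ i g k) *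
            ((mono (S.x i r) (β k) : ℚ) : ℂ) = 0) →
          ∑ j, ∑ k, μ j k * ((r : ℂ) ^ (j : ℕ) * ((mono (S.x i r) (β k) : ℚ) : ℂ)) = 0) → μ = 0

/-- SEQU: there is no bad sequence. -/
def Stmt_SeqU : Prop := ∀ (n N A : ℕ) (Y : Type) [TopologicalSpace Y] [CompactSpace Y] (z0 : ℂ)
  (ρ κ : ℝ) (s : ℂ → ℂ) (f : Fin n → Y → ℂ → ℂ)
  (𝒜 : Finset (Fin n →₀ ℕ)), IndepU n Y z0 ρ s f → 0 < κ →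
  BadSeqU n N A Y z0 ρ κ s f 𝒜 → False

/-- LOCGU: the local counting theorem, uniform in the parameter `y`. -/
def Stmt_LocGU : Prop := ∀ (n : ℕ) (ι : Type) [Fintype ι] (Y : Type) [TopologicalSpace Y]
  [CompactSpace Y] (z0 : ℂ) (ρ κ : ℝ) (s : ℂ → ℂ)
  (f : Fin n → Y → ℂ → ℂ), IndepU n Y z0 ρ s f → 0 < κ → ∀ D A : ℕ, ∃ C : ℕ, ∀ H : ℕ, 1 ≤ H →
  ∀ (y : Y) (c : ι → ℂ), Free D (H ^ A) c →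
  ∀ w ∈ closedBall z0 ρ, ∀ T : Finset ℚ, (∀ r ∈ T, r.num.natAbs ≤ H ∧ r.den ≤ H ∧
    IsBad z0 w ρ ((H : ℝ) ^ (-κ)) s (fun j => f j y) c D (H ^ A) r) → T.card ≤ C

/-- THMGU: the counting theorem, uniform in the parameter `y`. -/
def Stmt_ThmGU : Prop := ∀ (n : ℕ) (ι : Type) [Fintype ι] (Y : Type) [TopologicalSpace Y]
  [CompactSpace Y] (z0 : ℂ) (ρ ε : ℝ) (s : ℂ → ℂ)
  (f : Fin n → Y → ℂ → ℂ), IndepU n Y z0 ρ s f → 0 < ε → ∀ D A : ℕ, ∃ C : ℝ, ∀ H : ℕ, 1 ≤ H →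
  ∀ (y : Y) (c : ι → ℂ), Free D (H ^ A) c → ∀ T : Finset ℚ,
  (∀ r ∈ T, r.num.natAbs ≤ H ∧ r.den ≤ H ∧
    IsBad z0 z0 ρ ρ s (fun j => f j y) c D (H ^ A) r) → (T.card : ℝ) ≤ C * (H : ℝ) ^ ε

end

end Pool.Agent.GPH
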