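import Pool.Agent.GPC.CIRC
import Pool.Agent.GPH.IDefs

/-!
# GPH, module CIRCU
-/

open scoped BigOperators Topology
open Metric

namespace Pool.Agent.GPH.CIRCU

open Pool.Agent.GPC.CIRC

noncomputable section

theorem exists_boundU {ι : Type} [Fintype ι] {Y : Type} [TopologicalSpace Y] [CompactSpace Y]
    (g : ι → Y → ℂ → ℂ) (z0 : ℂ) (ρ : ℝ) (hρ : 0 < ρ)
    (hg : ∀ k, ContinuousOn (fun p : Y × ℂ => g k p.1 p.2) (Set.univ ×ˢ ball z0 (10 * ρ))) :
    ∃ B : ℝ, 0 < B ∧ ∀ y, ∀ z ∈ closedBall z0 (19 / 2 * ρ), ∀ d : ι → ℂ,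
      ‖∑ k, d k * g k y z‖ ≤ ‖d‖ * B := by
  have hsub : Set.univ ×ˢ closedBall z0 (19 / 2 * ρ) ⊆
      (Set.univ : Set Y) ×ˢ ball z0 (10 * ρ) :=
    Set.prod_mono (Set.subset_univ Set.univ) (closedBall_subset_ball (by linarith))
  have hc : ContinuousOn (fun p : Y × ℂ => ∑ k, ‖g k p.1 p.2‖)
      (Set.univ ×ˢ closedBall z0 (19 / 2 * ρ)) := by
    apply continuousOn_finsetSum
    intro k _
    exact ((hg k).mono hsub).norm
  obtain ⟨B, hB⟩ := (isCompact_univ.prod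
    (isCompact_closedBall z0 (19 / 2 * ρ))).exists_bound_of_continuousOn hc
  refine ⟨max B 1, by positivity, fun y z hz d => ?_⟩
  have h1 := hB (y, z) ⟨Set.mem_univ _, hz⟩
  rw [Real.norm_of_nonneg (Finset.sum_nonneg fun _ _ => norm_nonneg _)] at h1
  calc ‖∑ k, d k * g k y z‖ ≤ ∑ k, ‖d‖ * ‖g k y z‖ := by
        refine (norm_sum_le _ _).trans (Finset.sum_le_sum fun k _ => ?_)
        rw [norm_mul]
        exact mul_le_mul_of_nonneg_right (norm_le_pi_norm d k) (norm_nonneg _)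
    _ = ‖d‖ * ∑ k, ‖g k y z‖ := by rw [Finset.mul_sum]
    _ ≤ ‖d‖ * max B 1 := mul_le_mul_of_nonneg_left (h1.trans (le_max_left _ _)) (norm_nonneg _)

theorem exists_lowerU {ι : Type} [Fintype ι] {Y : Type} [TopologicalSpace Y] [CompactSpace Y]
    (g : ι → Y → ℂ → ℂ) (z0 : ℂ) (ρ : ℝ) (hρ : 0 < ρ)
    (hgc : ∀ k, ContinuousOn (fun p : Y × ℂ => g k p.1 p.2) (Set.univ ×ˢ ball z0 (10 * ρ)))
    (hg : ∀ k y, DifferentiableOn ℂ (g k y) (ball z0 (10 * ρ)))
    (hind : ∀ y, ∀ d : ι → ℂ, (∀ z ∈ ball z0 (10 * ρ), ∑ k, d k * g k y z = 0) → d = 0) :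
    ∃ c : ℝ, 0 < c ∧ ∀ (y : Y) (d : ι → ℂ), ‖d‖ = 1 → ∃ R, 2 * ρ < R ∧ R < 3 * ρ ∧
      ∀ z ∈ sphere z0 R, c ≤ ‖∑ k, d k * g k y z‖ := by
  have key := ((isCompact_sphere (0 : ι → ℂ) 1).prod (isCompact_univ (X := Y))).induction_on
    (p := fun S => ∃ c : ℝ, 0 < c ∧ ∀ d ∈ S, ∃ R, 2 * ρ < R ∧ R < 3 * ρ ∧
      ∀ z ∈ sphere z0 R, c ≤ ‖∑ k, d.1 k * g k d.2 z‖)
    ⟨1, one_pos, fun d hd => absurd hd (Set.notMem_empty d)⟩
    (fun S T hST ⟨c, hc, h⟩ => ⟨c, hc, fun d hd => h d (hST hd)⟩)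
    (fun S T ⟨c, hc, h⟩ ⟨c', hc', h'⟩ => ⟨min c c', lt_min hc hc', fun d hd => by
      rcases hd with hd | hd
      · obtain ⟨R, h1, h2, h3⟩ := h d hd
        exact ⟨R, h1, h2, fun z hz => (min_le_left _ _).trans (h3 z hz)⟩
      · obtain ⟨R, h1, h2, h3⟩ := h' d hd
        exact ⟨R, h1, h2, fun z hz => (min_le_right _ _).trans (h3 z hz)⟩⟩)
    (fun d hd => by
      have hd1 : ‖d.1‖ = 1 := by simpa using hd.1
      have hne : ∃ z ∈ ball z0 (10 * ρ), ∑ k, d.1 k * g k d.2 z ≠ 0 := by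
        by_contra hcon
        push Not at hcon
        have := hind d.2 d.1 hcon
        rw [this, norm_zero] at hd1
        exact zero_ne_one hd1
      have hGd : DifferentiableOn ℂ (fun z => ∑ k, d.1 k * g k d.2 z) (ball z0 (10 * ρ)) :=
        DifferentiableOn.fun_sum fun k _ => (hg k d.2).const_mul (d.1 k)
      obtain ⟨R, hR1, hR2, hR3⟩ := exists_radius _ z0 ρ hρ hGd hne
      have hsub' : sphere z0 R ⊆ ball z0 (10 * ρ) := by
        intro z hz
        rw [mem_ball, mem_sphere.1 hz]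
        linarith
      obtain ⟨z1, hz1, hmin⟩ := (isCompact_sphere z0 R).exists_isMinOn
        (NormedSpace.sphere_nonempty.2 (by linarith)) ((hGd.continuousOn.mono hsub').norm)
      set m := ‖∑ k, d.1 k * g k d.2 z1‖ with hm
      have hm0 : 0 < m := norm_pos_iff.2 (hR3 z1 hz1)
      have hev : ∀ᶠ d' : (ι → ℂ) × Y in 𝓝 d, ∀ z ∈ sphere z0 R,
          m / 2 < ‖∑ k, d'.1 k * g k d'.2 z‖ := by
        refine IsCompact.eventually_forall_of_forall_eventually (isCompact_sphere z0 R) ?_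
        intro z hz
        have hzb := hsub' hz
        have hmz : m ≤ ‖∑ k, d.1 k * g k d.2 z‖ := hmin hz
        have hcont : ContinuousAt (fun q : ((ι → ℂ) × Y) × ℂ =>
            ‖∑ k, q.1.1 k * g k q.1.2 q.2‖) (d, z) := by
          refine ContinuousAt.norm ?_
          refine tendsto_finsetSum _ fun k _ => ?_
          refine ContinuousAt.mul ?_ ?_
          · exact ((continuous_apply k).comp (continuous_fst.comp continuous_fst)).continuousAt
          · have h1 : ContinuousAt (fun p : Y × ℂ => g k p.1 p.2) (d.2, z) :=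
              (hgc k).continuousAt ((isOpen_univ.prod isOpen_ball).mem_nhds
                ⟨Set.mem_univ _, hzb⟩)
            have h2 : Filter.Tendsto (fun q : ((ι → ℂ) × Y) × ℂ => (q.1.2, q.2)) (𝓝 (d, z))
                (𝓝 (d.2, z)) :=
              ((continuous_snd.comp continuous_fst).prodMk continuous_snd).tendsto (d, z)
            exact h1.tendsto.comp h2
        have h3 := hcont.eventually (lt_mem_nhds (show m / 2 < ‖∑ k, d.1 k * g k d.2 z‖ by linarith))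
        exact h3
      refine ⟨_, mem_nhdsWithin_of_mem_nhds hev, m / 2, by positivity, ?_⟩
      intro d' hd'
      exact ⟨R, hR1, hR2, fun z hz => (hd' z hz).le⟩)
  obtain ⟨c, hc, h⟩ := key
  exact ⟨c, hc, fun y d hd => h (d, y) ⟨by simpa using hd, Set.mem_univ _⟩⟩

theorem thm : Stmt_CircU := by
  intro Y _ _ z0 ρ hρ ι _ g hgc hg hind
  obtain ⟨B, hB0, hB⟩ := exists_boundU g z0 ρ hρ hgc
  obtain ⟨c, hc0, hc⟩ := exists_lowerU g z0 ρ hρ hgc hg hind
  obtain ⟨Z, hZ⟩ : ∃ Z : ℕ, ∀ k, c ≤ B * (12 / 13) ^ k → k ≤ Z := by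
    obtain ⟨n, hn⟩ := exists_pow_lt_of_lt_one (div_pos hc0 hB0) (show (12 / 13 : ℝ) < 1 by norm_num)
    refine ⟨n, fun k hk => ?_⟩
    by_contra hlt
    push Not at hlt
    have h1 : (12 / 13 : ℝ) ^ k ≤ (12 / 13) ^ n :=
      pow_le_pow_of_le_one (by norm_num) (by norm_num) hlt.le
    have h2 : B * (12 / 13) ^ k < c := by
      calc B * (12 / 13) ^ k ≤ B * (12 / 13) ^ n := mul_le_mul_of_nonneg_left h1 hB0.le
        _ < B * (c / B) := mul_lt_mul_of_pos_left hn hB0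
        _ = c := by field_simp
    linarith
  refine ⟨c, Z, hc0, fun y d N hN hk hle => ?_⟩
  set d' : ι → ℂ := fun k => d k / (N : ℂ) with hd'
  have hNC : (N : ℂ) ≠ 0 := by exact_mod_cast hN.ne'
  have hnd' : ∀ k, ‖d' k‖ = ‖d k‖ / N := by
    intro k
    rw [hd']
    simp only [norm_div, Complex.norm_real, Real.norm_of_nonneg hN.le]
  have hd1 : ‖d'‖ = 1 := by
    apply le_antisymm
    · rw [pi_norm_le_iff_of_nonneg zero_le_one]
      intro k
      rw [hnd', div_le_one hN]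
      exact hle k
    · obtain ⟨k, hk⟩ := hk
      have := norm_le_pi_norm d' k
      rw [hnd', hk, div_self hN.ne'] at this
      exact this
  obtain ⟨R, hR1, hR2, hR3⟩ := hc y d' hd1
  have hF : DifferentiableOn ℂ (fun z => ∑ k, d' k * g k y z) (ball z0 (10 * ρ)) :=
    DifferentiableOn.fun_sum fun k _ => (hg k y).const_mul (d' k)
  obtain ⟨k, w, u, hkZ, hw, hu, hu0, hfac⟩ := fac_full (fun z => ∑ k, d' k * g k y z) z0 ρ R c B
    hρ hR1 hR2 hF (fun z hz => by have := hB y z hz d'; rwa [hd1, one_mul] at this) hc0 hR3 Z hZ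
  have hscale : ∀ z, ∑ k, d k * g k y z = (N : ℂ) * ∑ k, d' k * g k y z := by
    intro z
    rw [Finset.mul_sum]
    refine Finset.sum_congr rfl fun k _ => ?_
    rw [hd']
    field_simp
  refine ⟨R, k, w, fun z => (N : ℂ) * u z, hR1, hR2, hkZ, hw, hu.const_mul _, ?_, ?_, ?_⟩
  · intro z hz
    exact mul_ne_zero hNC (hu0 z hz)
  · intro z hz
    rw [hscale, hfac z hz]; ring
  · intro z hz
    rw [hscale, norm_mul, Complex.norm_real, Real.norm_of_nonneg hN.le, mul_comm c N]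
    exact mul_le_mul_of_nonneg_left (hR3 z hz) hN.le

end

end Pool.Agent.GPH.CIRCU
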