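import Pool.Agent.GPH.VStmts2

/-!
# GPH, module COVERZ: finitely many pieces cover most of the box
-/

open scoped BigOperators Topology
open Metric Set

namespace Pool.Agent.GPH.COVERZ

lemma lt_Yx (X : ℕ) : X ≤ Yx X := by
  unfold Yx Nx
  rw [sq]
  exact (Nat.lt_succ_sqrt X).le

lemma Yx_le {X : ℕ} (hX : 1 ≤ X) : Yx X ≤ 4 * X := by
  unfold Yx Nx
  have h1 := Nat.sqrt_le' X
  have h2 : Nat.sqrt X ≤ X := Nat.sqrt_le_self X
  nlinarith

lemma Yx_pos (X : ℕ) : 0 < Yx X := by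
  unfold Yx Nx
  positivity

lemma card_box (g X : ℕ) : ((box g X).card : ℝ) =
    ∏ i : Fin (2 * g), (2 * ((X ^ (2 * g + 1 - (i : ℕ)) : ℕ) : ℝ) + 1) := by
  unfold box
  rw [Fintype.card_piFinset, Fin.prod_univ_castSucc, Nat.cast_mul, Nat.cast_prod]
  have h1 : ((if ((Fin.last (2 * g) : Fin (2 * g + 1)) : ℕ) = 2 * g then ({0} : Finset ℤ) else
      Finset.Icc (-(X : ℤ) ^ (2 * g + 1 - ((Fin.last (2 * g) : Fin (2 * g + 1)) : ℕ)))
        ((X : ℤ) ^ (2 * g + 1 - ((Fin.last (2 * g) : Fin (2 * g + 1)) : ℕ)))).card : ℝ) = 1 := by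
    rw [if_pos (Fin.val_last _)]
    simp
  rw [h1, mul_one]
  refine Finset.prod_congr rfl fun i _ => ?_
  have h2 : ¬ ((i.castSucc : Fin (2 * g + 1)) : ℕ) = 2 * g := by
    rw [Fin.val_castSucc]
    exact i.2.ne
  rw [if_neg h2, Int.card_Icc, Fin.val_castSucc]
  have h3 : (0 : ℤ) ≤ (X : ℤ) ^ (2 * g + 1 - (i : ℕ)) := by positivity
  have h4 : ((((X : ℤ) ^ (2 * g + 1 - (i : ℕ)) + 1 - -(X : ℤ) ^ (2 * g + 1 - (i : ℕ))).toNat : ℕ) : ℤ)
      = (X : ℤ) ^ (2 * g + 1 - (i : ℕ)) + 1 - -(X : ℤ) ^ (2 * g + 1 - (i : ℕ)) :=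
    Int.toNat_of_nonneg (by linarith)
  have h5 : (((((X : ℤ) ^ (2 * g + 1 - (i : ℕ)) + 1 - -(X : ℤ) ^ (2 * g + 1 - (i : ℕ))).toNat : ℕ)
      : ℤ) : ℝ) = (((X : ℤ) ^ (2 * g + 1 - (i : ℕ)) + 1 - -(X : ℤ) ^ (2 * g + 1 - (i : ℕ)) : ℤ)
        : ℝ) := by rw [h4]
  rw [Int.cast_natCast] at h5
  rw [h5]
  push_cast
  ring

theorem thm (hG : Stmt_GG) (hP : Stmt_PieceEx) (hS : Stmt_Sublev) : Stmt_CoverZ := by
  classical
  intro g hg η hη
  obtain ⟨G, hG0, hGood⟩ := hG g hg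
  obtain ⟨δ0, X0, hδ0, hsub⟩ := hS (2 * g) G hG0 (4 ^ (2 * g + 1)) η hη
  let U : (Fin (2 * g) → ℝ) → Fin (2 * g) → ℂ := fun c i =>
    if h : (i : ℕ) + 1 < 2 * g then ((c ⟨i + 1, h⟩ : ℝ) : ℂ) else 0
  let S : (Fin (2 * g) → ℝ) → ℂ := fun c => ((c ⟨0, by omega⟩ : ℝ) : ℂ)
  have hUc : Continuous U := by
    refine continuous_pi fun i => ?_
    by_cases h : (i : ℕ) + 1 < 2 * g
    · simp only [U, dif_pos h]
      exact Complex.continuous_ofReal.comp (continuous_apply _)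
    · simp only [U, dif_neg h]
      exact continuous_const
  have hSc : Continuous S := Complex.continuous_ofReal.comp (continuous_apply _)
  let K : Set (Fin (2 * g) → ℝ) := (Set.pi univ fun _ => Icc (-1 : ℝ) 1) ∩
    {c | δ0 ≤ |MvPolynomial.eval c G|}
  have hK : IsCompact K := by
    refine (isCompact_univ_pi fun _ => isCompact_Icc).inter_right ?_
    exact isClosed_le continuous_const (MvPolynomial.continuous_eval G).abs
  have hpiece : ∀ c : K, ∃ π : Piece g, π.u0 = U c ∧ π.s0 = S c := by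
    intro c
    have hne : MvPolynomial.eval (c : Fin (2 * g) → ℝ) G ≠ 0 := by
      intro h0
      have := c.2.2
      change δ0 ≤ |MvPolynomial.eval (c : Fin (2 * g) → ℝ) G| at this
      rw [h0, abs_zero] at this
      linarith
    obtain ⟨h1, h2⟩ := hGood c hne
    refine hP g hg (U c) (S c) h1 ?_
    have h3 : fus g (U c) (S c) = pol (2 * g + 1) (fun i : Fin (2 * g + 1) =>
        if h : (i : ℕ) < 2 * g then (((c : Fin (2 * g) → ℝ) ⟨i, h⟩ : ℝ) : ℂ) else 0) := by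
      unfold fus
      congr 1
      funext i
      refine Fin.cases ?_ (fun j => ?_) i
      · rw [Fin.cons_zero, dif_pos (show ((0 : Fin (2 * g + 1)) : ℕ) < 2 * g by
          rw [Fin.val_zero]; omega)]
        rfl
      · rw [Fin.cons_succ]
        simp only [U, Fin.val_succ]
    rw [h3]
    exact h2
  choose π hπ using hpiece
  let V : K → Set (Fin (2 * g) → ℝ) := fun c =>
    {c' | U c' ∈ ball (π c).u0 (π c).δ ∧ S c' ∈ ball (π c).s0 (π c).ρ}
  obtain ⟨t, ht⟩ := hK.elim_finite_subcover V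
    (fun c => (isOpen_ball.preimage hUc).inter (isOpen_ball.preimage hSc))
    (by
      intro c hc
      refine mem_iUnion.mpr ⟨⟨c, hc⟩, ?_, ?_⟩
      · rw [(hπ ⟨c, hc⟩).1]
        exact mem_ball_self (π _).hδ
      · rw [(hπ ⟨c, hc⟩).2]
        exact mem_ball_self (π _).hρ)
  refine ⟨t.card, fun j => π (t.equivFin.symm j).1, max X0 1, fun X hX => ?_⟩
  have hX0 : X0 ≤ X := (le_max_left _ _).trans hX
  have hX1 : 1 ≤ X := (le_max_right _ _).trans hX
  have hY := Yx_pos X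
  set Y := Yx X with hYdef
  have hYR : (0 : ℝ) < (Y : ℝ) := by exact_mod_cast hY
  have hcount := hsub (fun i => X ^ (2 * g + 1 - (i : ℕ))) (fun i => Y ^ (2 * g + 1 - (i : ℕ)))
    (fun i => by
      refine ⟨?_, ?_, ?_, ?_⟩
      · calc X0 ≤ X := hX0
          _ = X ^ 1 := (pow_one X).symm
          _ ≤ X ^ (2 * g + 1 - (i : ℕ)) := Nat.pow_le_pow_right hX1 (by omega)
      · positivity
      · exact Nat.pow_le_pow_left (lt_Yx X) _
      · calc Y ^ (2 * g + 1 - (i : ℕ)) ≤ (4 * X) ^ (2 * g + 1 - (i : ℕ)) :=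
            Nat.pow_le_pow_left (Yx_le hX1) _
          _ = 4 ^ (2 * g + 1 - (i : ℕ)) * X ^ (2 * g + 1 - (i : ℕ)) := mul_pow _ _ _
          _ ≤ 4 ^ (2 * g + 1) * X ^ (2 * g + 1 - (i : ℕ)) :=
            Nat.mul_le_mul_right _ (Nat.pow_le_pow_right (by norm_num) (by omega)))
  rw [card_box]
  refine le_trans ?_ hcount
  -- the injection
  have hbd : ∀ c : Fin (2 * g + 1) → ℤ, c ∈ box g X → (c (Fin.last _) = 0 ∧
      ∀ i : Fin (2 * g), (c i.castSucc).natAbs ≤ X ^ (2 * g + 1 - (i : ℕ))) := by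
    intro c hc
    unfold box at hc
    rw [Fintype.mem_piFinset] at hc
    constructor
    · have := hc (Fin.last _)
      rw [if_pos (Fin.val_last _), Finset.mem_singleton] at this
      exact this
    · intro i
      have := hc i.castSucc
      rw [if_neg (by rw [Fin.val_castSucc]; exact i.2.ne), Finset.mem_Icc,
        Fin.val_castSucc] at this
      have h1 : ((c i.castSucc).natAbs : ℤ) ≤ (X : ℤ) ^ (2 * g + 1 - (i : ℕ)) := by
        rw [Int.natCast_natAbs]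
        exact abs_le.mpr this
      exact_mod_cast h1
  have hmap : ∀ c : {c : Fin (2 * g + 1) → ℤ // c ∈ box g X ∧
      ∀ j, ¬ InP (π (t.equivFin.symm j).1) (Yx X) c},
      (∀ i : Fin (2 * g), ((fun i : Fin (2 * g) => c.1 i.castSucc) i).natAbs ≤
        X ^ (2 * g + 1 - (i : ℕ))) ∧
      |MvPolynomial.eval (fun i : Fin (2 * g) => (((fun i : Fin (2 * g) => c.1 i.castSucc) i : ℤ)
        : ℝ) / ((Y ^ (2 * g + 1 - (i : ℕ)) : ℕ) : ℝ)) G| < δ0 := by
    intro ⟨c, hcb, hcj⟩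
    obtain ⟨hlast, hab⟩ := hbd c hcb
    refine ⟨hab, ?_⟩
    by_contra hcon
    push Not at hcon
    set v : Fin (2 * g) → ℝ := fun i => ((c i.castSucc : ℤ) : ℝ) /
      ((Y ^ (2 * g + 1 - (i : ℕ)) : ℕ) : ℝ) with hv
    have hvK : v ∈ K := by
      refine ⟨fun i _ => ?_, hcon⟩
      have h1 : |v i| ≤ 1 := by
        rw [hv]
        simp only
        rw [abs_div, div_le_one (by rw [abs_pos]; positivity)]
        have h2 : ((c i.castSucc).natAbs : ℝ) ≤ ((Y ^ (2 * g + 1 - (i : ℕ)) : ℕ) : ℝ) := by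
          exact_mod_cast (hab i).trans (Nat.pow_le_pow_left (lt_Yx X) _)
        rw [Nat.cast_natAbs, Int.cast_abs] at h2
        exact h2.trans (le_abs_self _)
      exact abs_le.mp h1
    obtain ⟨c0, hc0t, hc0⟩ := mem_iUnion₂.mp (ht hvK)
    refine hcj (t.equivFin ⟨c0, hc0t⟩) ?_
    rw [Equiv.symm_apply_apply]
    have hU : U v = un g Y c := by
      funext i
      simp only [U, un]
      by_cases h : (i : ℕ) + 1 < 2 * g
      · rw [dif_pos h]
        have h1 : (⟨(i : ℕ) + 1, h⟩ : Fin (2 * g)).castSucc = i.succ := Fin.ext (by simp)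
        simp only [hv, h1]
        push_cast
        rfl
      · rw [dif_neg h]
        have h1 : i.succ = Fin.last (2 * g) := Fin.ext (by
          have := i.2
          simp only [Fin.val_succ, Fin.val_last]
          omega)
        rw [h1, hlast]
        simp
    have hSv : S v = ((sn g Y c : ℚ) : ℂ) := by
      simp only [S, sn, hv]
      have h1 : (⟨0, by omega⟩ : Fin (2 * g)).castSucc = (0 : Fin (2 * g + 1)) := rfl
      rw [h1]
      push_cast
      simp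
    obtain ⟨h1, h2⟩ := hc0
    rw [hU] at h1
    rw [hSv] at h2
    exact ⟨ball_subset_closedBall h1, ball_subset_closedBall h2⟩
  have hfin : Finite {c : Fin (2 * g) → ℤ // (∀ i, (c i).natAbs ≤ X ^ (2 * g + 1 - (i : ℕ))) ∧
      |MvPolynomial.eval (fun i => (c i : ℝ) / ((Y ^ (2 * g + 1 - (i : ℕ)) : ℕ) : ℝ)) G|
        < δ0} := by
    refine Set.Finite.subset (Set.Finite.pi' (t := fun i : Fin (2 * g) =>
      Icc (-((X ^ (2 * g + 1 - (i : ℕ)) : ℕ) : ℤ)) ((X ^ (2 * g + 1 - (i : ℕ)) : ℕ) : ℤ))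
      (fun i => Set.finite_Icc _ _)) ?_
    intro c hc i
    have := hc.1 i
    rw [mem_Icc]
    omega
  have hle := Nat.card_le_card_of_injective
    (fun c : {c : Fin (2 * g + 1) → ℤ // c ∈ box g X ∧
      ∀ j, ¬ InP (π (t.equivFin.symm j).1) (Yx X) c} =>
      (⟨fun i => c.1 i.castSucc, hmap c⟩ : {c : Fin (2 * g) → ℤ //
        (∀ i, (c i).natAbs ≤ X ^ (2 * g + 1 - (i : ℕ))) ∧
      |MvPolynomial.eval (fun i => (c i : ℝ) / ((Y ^ (2 * g + 1 - (i : ℕ)) : ℕ) : ℝ)) G|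
        < δ0}))
    (by
      intro c c' h
      apply Subtype.ext
      funext i
      refine Fin.lastCases ?_ (fun j => ?_) i
      · rw [(hbd c.1 c.2.1).1, (hbd c'.1 c'.2.1).1]
      · exact congrFun (congrArg Subtype.val h) j)
  exact_mod_cast hle

end Pool.Agent.GPH.COVERZ
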