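import Pool.Agent.GPH.VStmts

/-!
# GPH, FINALZ: the final count
-/

open scoped BigOperators Topology
open Metric Set
open Pool.Agent.HGP (Ix Simil Idx fvec opt)
open Pool.Agent.GPC (IsSmall Free)

namespace Pool.Agent.GPH.FINALZ

noncomputable section

lemma box_card_pos (g X : ℕ) : 0 < (box g X).card := by
  rw [Finset.card_pos]
  refine ⟨fun _ => 0, ?_⟩
  unfold box
  rw [Fintype.mem_piFinset]
  intro i
  split_ifs
  · simp
  · simp

/-- One coordinate of the tuple lies in no piece. -/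
lemma cardE (r : ℕ) (g : Fin r → ℕ) (X : ℕ) (n : Fin r → ℕ) (π : ∀ i, Fin (n i) → Piece (g i))
    (η : ℝ) (i : Fin r)
    (h : (Nat.card {c : Fin (2 * g i + 1) → ℤ // c ∈ box (g i) X ∧
      ∀ j, ¬ InP (π i j) (Yx X) c} : ℝ) ≤ η * ((box (g i) X).card : ℝ)) :
    ∃ E : Finset (∀ i, Fin (2 * g i + 1) → ℤ),
      (∀ c, c ∈ E ↔ (∀ i, c i ∈ box (g i) X) ∧ ∀ j, ¬ InP (π i j) (Yx X) (c i)) ∧
      (E.card : ℝ) ≤ η * ∏ i, ((box (g i) X).card : ℝ) := by
  classical
  let S : ∀ k : Fin r, Finset (Fin (2 * g k + 1) → ℤ) := fun k =>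
    (box (g k) X).filter (fun c => k = i → ∀ j, ¬ InP (π k j) (Yx X) c)
  refine ⟨Fintype.piFinset S, ?_, ?_⟩
  · intro c
    rw [Fintype.mem_piFinset]
    constructor
    · intro hc
      refine ⟨fun k => (Finset.mem_filter.mp (hc k)).1, (Finset.mem_filter.mp (hc i)).2 rfl⟩
    · rintro ⟨hc1, hc2⟩ k
      refine Finset.mem_filter.mpr ⟨hc1 k, ?_⟩
      rintro rfl
      exact hc2
  · rw [Fintype.card_piFinset]
    push_cast
    have h1 : ∀ k ∈ (Finset.univ : Finset (Fin r)), ((S k).card : ℝ) ≤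
        (if k = i then η else 1) * ((box (g k) X).card : ℝ) := by
      intro k _
      by_cases hk : k = i
      · subst hk
        rw [if_pos rfl]
        refine le_trans (le_of_eq ?_) h
        congr 1
        symm
        apply Nat.subtype_card
        intro c
        simp [S]
      · rw [if_neg hk, one_mul]
        exact_mod_cast Finset.card_filter_le _ _
    refine (Finset.prod_le_prod (fun k _ => Nat.cast_nonneg _) h1).trans (le_of_eq ?_)
    rw [Finset.prod_mul_distrib]
    congr 1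
    rw [Finset.prod_ite_eq']
    simp

theorem thm (h1 : Stmt_CoverZ) (h2 : Stmt_TransZ) (h3 : Stmt_InducZ) : Stmt_FinalZ := by
  classical
  intro r g hg m D A B
  rw [Metric.tendsto_atTop]
  intro ε hε
  have hr : (0 : ℝ) < 2 * (r + 1) := by positivity
  have hη : 0 < ε / (2 * (r + 1)) := by positivity
  choose n π X0 hX0 using fun i => h1 (g i) (hg i) (ε / (2 * (r + 1))) hη
  choose D1 A1 hT using fun j : (∀ i, Fin (n i)) => h2 r g hg (fun i => π i (j i)) m D A B
  choose C hC using fun j : (∀ i, Fin (n i)) =>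
    h3 r g hg (fun i => π i (j i)) (D1 j) (A1 j)
  obtain ⟨X1, hX1⟩ : ∃ X1 : ℕ, ∀ X ≥ X1, (∑ j, C j) / (X : ℝ) < ε / 2 := by
    have h := tendsto_const_div_atTop_nhds_zero_nat (∑ j, C j)
    exact Filter.eventually_atTop.mp (h.eventually (gt_mem_nhds (half_pos hε)))
  refine ⟨max X1 (max 2 (∑ i, X0 i)), fun X hX => ?_⟩
  have hXa : X1 ≤ X := (le_max_left _ _).trans hX
  have hXb : 2 ≤ X := (le_max_left _ _).trans ((le_max_right _ _).trans hX)
  have hXc : ∀ i, X0 i ≤ X := fun i =>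
    (Finset.single_le_sum (f := X0) (fun _ _ => Nat.zero_le _) (Finset.mem_univ i)).trans
      ((le_max_right _ _).trans ((le_max_right _ _).trans hX))
  have hXpos : (0 : ℝ) < X := by
    have : 0 < X := by omega
    exact_mod_cast this
  have hP : 0 < ∏ i, ((box (g i) X).card : ℝ) :=
    Finset.prod_pos fun i _ => by exact_mod_cast box_card_pos (g i) X
  choose E hE1 hE2 using fun i : Fin r => cardE r g X n π (ε / (2 * (r + 1))) i (hX0 i X (hXc i))
  let Bx : Finset (∀ i, Fin (2 * g i + 1) → ℤ) := Fintype.piFinset fun i => box (g i) X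
  let F : (∀ i, Fin (n i)) → Finset (∀ i, Fin (2 * g i + 1) → ℤ) := fun j =>
    Bx.filter (fun c => (∀ i, InP (π i (j i)) (Yx X) (c i)) ∧
      ¬ Free (D1 j) (X ^ A1 j) (cvecZ (fun i => π i (j i)) (Yx X) c))
  let G : Finset (∀ i, Fin (2 * g i + 1) → ℤ) := Bx.filter (fun c => Bad m D (X ^ A) (X ^ B) c)
  have hF : ∀ j, ((F j).card : ℝ) ≤ C j / X * ∏ i, ((box (g i) X).card : ℝ) := by
    intro j
    have h := hC j X (by omega)
    rw [div_mul_eq_mul_div, le_div_iff₀ hXpos]
    refine le_trans (le_of_eq ?_) h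
    congr 2
    symm
    apply Nat.subtype_card
    intro c
    simp only [F, Bx, Finset.mem_filter, Fintype.mem_piFinset]
    constructor
    · rintro ⟨k1, k2, k3⟩
      exact ⟨fun i => ⟨k1 i, k2 i⟩, k3⟩
    · rintro ⟨k1, k2⟩
      exact ⟨fun i => (k1 i).1, fun i => (k1 i).2, k2⟩
  have hG : Nat.card {c : ∀ i, Fin (2 * g i + 1) → ℤ // (∀ i, c i ∈ box (g i) X) ∧
      Bad m D (X ^ A) (X ^ B) c} = G.card := by
    apply Nat.subtype_card
    intro c
    simp [G, Bx]
  have hsub : G ⊆ (Finset.univ.biUnion E) ∪ (Finset.univ.biUnion F) := by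
    intro c hc
    simp only [G, Bx, Finset.mem_filter, Fintype.mem_piFinset] at hc
    rw [Finset.mem_union]
    by_cases hex : ∃ i, ∀ j : Fin (n i), ¬ InP (π i j) (Yx X) (c i)
    · left
      obtain ⟨i, hi⟩ := hex
      exact Finset.mem_biUnion.mpr ⟨i, Finset.mem_univ _, (hE1 i c).mpr ⟨hc.1, hi⟩⟩
    · right
      push Not at hex
      choose j hj using hex
      refine Finset.mem_biUnion.mpr ⟨j, Finset.mem_univ _, ?_⟩
      simp only [F, Bx, Finset.mem_filter, Fintype.mem_piFinset]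
      exact ⟨hc.1, hj, hT j X hXb c (fun i => ⟨hc.1 i, hj i⟩) hc.2⟩
  have hcard : (G.card : ℝ) ≤ (r * (ε / (2 * (r + 1))) + (∑ j, C j) / X) *
      ∏ i, ((box (g i) X).card : ℝ) := by
    have k1 : G.card ≤ (∑ i, (E i).card) + ∑ j, (F j).card :=
      (Finset.card_le_card hsub).trans ((Finset.card_union_le _ _).trans
        (add_le_add Finset.card_biUnion_le Finset.card_biUnion_le))
    have k2 : (G.card : ℝ) ≤ (∑ i, ((E i).card : ℝ)) + ∑ j, ((F j).card : ℝ) := by
      exact_mod_cast k1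
    refine k2.trans ?_
    rw [add_mul]
    refine add_le_add ?_ ?_
    · refine (Finset.sum_le_sum fun i _ => hE2 i).trans (le_of_eq ?_)
      rw [Finset.sum_const, Finset.card_univ, Fintype.card_fin, nsmul_eq_mul, mul_assoc]
    · refine (Finset.sum_le_sum fun j _ => hF j).trans (le_of_eq ?_)
      rw [← Finset.sum_mul, ← Finset.sum_div]
  rw [hG, Real.dist_eq, sub_zero, abs_of_nonneg (by positivity)]
  have hfin : (G.card : ℝ) / ∏ i, ((box (g i) X).card : ℝ) ≤
      r * (ε / (2 * (r + 1))) + (∑ j, C j) / X := by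
    rw [div_le_iff₀ hP]
    exact hcard
  have hr2 : r * (ε / (2 * (r + 1))) ≤ ε / 2 := by
    have : (r : ℝ) * (ε / (2 * (r + 1))) = ε / 2 * (r / (r + 1)) := by
      field_simp
    rw [this]
    have h5 : (r : ℝ) / (r + 1) ≤ 1 := by
      rw [div_le_one (by positivity)]
      linarith
    exact mul_le_of_le_one_right (half_pos hε).le h5
  have := hX1 X hXa
  linarith

end

end Pool.Agent.GPH.FINALZ
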