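import Pool.Agent.GPH.VStmts2

/-!
# GPH, module GG: a nonzero polynomial which detects the good points of the family
-/

open scoped BigOperators

namespace Pool.Agent.GPH.GG

noncomputable section

/-- The nonconstant coefficients as polynomials. -/
def cc (g : ℕ) (i : Fin (2 * g)) : MvPolynomial (Fin (2 * g)) ℝ :=
  if h : (i : ℕ) + 1 < 2 * g then MvPolynomial.X ⟨i + 1, h⟩ else 0

/-- The polynomial. -/
def G (g : ℕ) (hg : 0 < 2 * g) : MvPolynomial (Fin (2 * g)) ℝ :=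
  P2 (cc g) * ((MvPolynomial.X (⟨0, hg⟩ : Fin (2 * g)) : MvPolynomial (Fin (2 * g)) ℝ) •
    (1 : Matrix (Fin (2 * g)) (Fin (2 * g)) (MvPolynomial (Fin (2 * g)) ℝ)) + Cop (cc g)).det

theorem map_det {R R' : Type} [CommRing R] [CommRing R'] [Algebra ℚ R] [Algebra ℚ R']
    (hmap : Stmt_CDmap) (φ : R →+* R') {m : ℕ} (c : Fin m → R) (s : R) :
    (φ s • (1 : Matrix (Fin m) (Fin m) R') + Cop (fun k => φ (c k))).det =
      φ ((s • (1 : Matrix (Fin m) (Fin m) R) + Cop c).det) := by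
  rw [RingHom.map_det, (hmap R R' φ m c).1]
  congr 1
  ext i j
  show φ s • (1 : Matrix (Fin m) (Fin m) R') i j + φ (Cop c i j) =
    φ (s • (1 : Matrix (Fin m) (Fin m) R) i j + Cop c i j)
  rw [map_add, smul_eq_mul, smul_eq_mul, map_mul]
  congr 2
  rw [Matrix.one_apply, Matrix.one_apply]
  split_ifs
  · exact (map_one φ).symm
  · exact (map_zero φ).symm

theorem eval_cc (g : ℕ) (c : Fin (2 * g) → ℝ) (i : Fin (2 * g)) :
    MvPolynomial.eval c (cc g i) = if h : (i : ℕ) + 1 < 2 * g then c ⟨i + 1, h⟩ else 0 := by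
  unfold cc
  split_ifs with h
  · exact MvPolynomial.eval_X _
  · exact map_zero _

theorem eval_G (hmap : Stmt_CDmap) (g : ℕ) (hg : 0 < 2 * g) (c : Fin (2 * g) → ℝ) :
    MvPolynomial.eval c (G g hg) =
      P2 (fun i : Fin (2 * g) => if h : (i : ℕ) + 1 < 2 * g then c ⟨i + 1, h⟩ else 0) *
      (c ⟨0, hg⟩ • (1 : Matrix (Fin (2 * g)) (Fin (2 * g)) ℝ) +
        Cop (fun i : Fin (2 * g) => if h : (i : ℕ) + 1 < 2 * g then c ⟨i + 1, h⟩ else 0)).det := by
  unfold G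
  have h1 := (hmap (MvPolynomial (Fin (2 * g)) ℝ) ℝ (MvPolynomial.eval c) (2 * g) (cc g)).2.2
  have h2 := map_det hmap (MvPolynomial.eval c) (cc g)
    (MvPolynomial.X (⟨0, hg⟩ : Fin (2 * g)) : MvPolynomial (Fin (2 * g)) ℝ)
  rw [map_mul, ← h1, ← h2, MvPolynomial.eval_X]
  simp only [eval_cc]

/-- The witness. -/
def wit (g : ℕ) (s : ℝ) (i : Fin (2 * g)) : ℝ :=
  if (i : ℕ) = 0 then s else if (i : ℕ) = 1 then -((2 * g : ℕ) + 1 : ℝ) else 0

theorem G_ne_zero (hmap : Stmt_CDmap) (hw : Stmt_P2w) (g : ℕ) (hg2 : 0 < 2 * g) :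
    G g hg2 ≠ 0 := by
  intro h0
  have hw1 := hw (2 * g) hg2
  -- the determinant is nonzero for all but finitely many `s`
  have hc : ∀ s : ℝ, (fun i : Fin (2 * g) => if h : (i : ℕ) + 1 < 2 * g then
      wit g s ⟨i + 1, h⟩ else 0) = fun i : Fin (2 * g) => algebraMap ℚ ℝ
        (if (i : ℕ) = 0 then -(((2 * g : ℕ) : ℚ) + 1) else 0) := by
    intro s
    funext i
    by_cases hi : (i : ℕ) = 0
    · have h1 : (i : ℕ) + 1 < 2 * g := by omega
      rw [dif_pos h1, if_pos hi]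
      unfold wit
      rw [if_neg (by simp), if_pos (by simp [hi])]
      simp
    · rw [if_neg hi, map_zero]
      by_cases h1 : (i : ℕ) + 1 < 2 * g
      · rw [dif_pos h1]
        unfold wit
        rw [if_neg (by simp), if_neg (by simpa using hi)]
      · rw [dif_neg h1]
  have hP2 : ∀ s : ℝ, P2 (fun i : Fin (2 * g) => if h : (i : ℕ) + 1 < 2 * g then
      wit g s ⟨i + 1, h⟩ else 0) ≠ 0 := by
    intro s
    rw [hc s, (hmap ℚ ℝ (algebraMap ℚ ℝ) (2 * g) _).2.2]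
    intro h
    exact hw1 ((map_eq_zero (algebraMap ℚ ℝ)).mp h)
  set A : Matrix (Fin (2 * g)) (Fin (2 * g)) ℝ := Cop (fun i : Fin (2 * g) => algebraMap ℚ ℝ
        (if (i : ℕ) = 0 then -(((2 * g : ℕ) : ℚ) + 1) else 0)) with hA
  have hall : ∀ s : ℝ, (s • (1 : Matrix (Fin (2 * g)) (Fin (2 * g)) ℝ) + A).det = 0 := by
    intro s
    have h1 := eval_G hmap g hg2 (wit g s)
    rw [h0, map_zero] at h1
    have h2 : wit g s ⟨0, hg2⟩ = s := by
      unfold wit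
      rw [if_pos rfl]
    rw [h2] at h1
    have h3 := (mul_eq_zero.mp h1.symm).resolve_left (hP2 s)
    rw [hc s] at h3
    exact h3
  -- the characteristic polynomial of `-A`
  have hchar : (-A).charpoly = 0 := by
    apply Polynomial.funext
    intro s
    rw [Matrix.eval_charpoly, Polynomial.eval_zero, sub_neg_eq_add]
    have h2 : Matrix.scalar (Fin (2 * g)) s = s • (1 : Matrix (Fin (2 * g)) (Fin (2 * g)) ℝ) := by
      rw [Matrix.scalar_apply, ← Matrix.smul_one_eq_diagonal]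
    rw [h2]
    exact hall s
  exact (Matrix.charpoly_monic (-A)).ne_zero hchar

theorem pol_eq (g : ℕ) (hg : 0 < 2 * g) (c : Fin (2 * g) → ℝ) :
    pol (2 * g + 1) (fun i : Fin (2 * g + 1) =>
      if h : (i : ℕ) < 2 * g then ((c ⟨i, h⟩ : ℝ) : ℂ) else 0) =
    f0 (fun i : Fin (2 * g) => if h : (i : ℕ) + 1 < 2 * g then ((c ⟨i + 1, h⟩ : ℝ) : ℂ) else 0) +
      Polynomial.C ((c ⟨0, hg⟩ : ℝ) : ℂ) := by
  unfold pol f0
  rw [Fin.sum_univ_succ]
  have h0 : (if h : ((0 : Fin (2 * g + 1)) : ℕ) < 2 * g then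
      ((c ⟨((0 : Fin (2 * g + 1)) : ℕ), h⟩ : ℝ) : ℂ) else 0) = ((c ⟨0, hg⟩ : ℝ) : ℂ) := by
    rw [dif_pos (show ((0 : Fin (2 * g + 1)) : ℕ) < 2 * g from hg)]
    rfl
  have h0' : (fun i : Fin (2 * g + 1) => if h : (i : ℕ) < 2 * g then
      ((c ⟨i, h⟩ : ℝ) : ℂ) else 0) 0 = ((c ⟨0, hg⟩ : ℝ) : ℂ) := h0
  rw [h0']
  simp only [Fin.val_zero, pow_zero, mul_one, Fin.val_succ]
  ring

theorem thm (hw : Stmt_P2w) (hmap : Stmt_CDmap) (hdet : Stmt_CDet) : Stmt_GG := by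
  intro g hg
  have hg2 : 0 < 2 * g := by omega
  refine ⟨G g hg2, G_ne_zero hmap hw g hg2, ?_⟩
  intro c hc
  rw [eval_G hmap g hg2 c] at hc
  have hcc : (fun i : Fin (2 * g) => if h : (i : ℕ) + 1 < 2 * g then
      ((c ⟨i + 1, h⟩ : ℝ) : ℂ) else 0) = fun i : Fin (2 * g) => Complex.ofRealHom
        (if h : (i : ℕ) + 1 < 2 * g then c ⟨i + 1, h⟩ else 0) := by
    funext i
    split_ifs with h
    · rfl
    · exact (map_zero Complex.ofRealHom).symm
  have h1 := left_ne_zero_of_mul hc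
  have h2 := right_ne_zero_of_mul hc
  refine ⟨?_, ?_⟩
  · rw [hcc, (hmap ℝ ℂ Complex.ofRealHom (2 * g) _).2.2]
    intro h
    exact h1 ((map_eq_zero Complex.ofRealHom).mp h)
  · rw [pol_eq g hg2 c]
    apply (hdet (2 * g) _ _).mp
    rw [hcc]
    have h3 := map_det hmap Complex.ofRealHom (fun i : Fin (2 * g) =>
      if h : (i : ℕ) + 1 < 2 * g then c ⟨i + 1, h⟩ else 0) (c ⟨0, hg2⟩)
    have h4 : Complex.ofRealHom (c ⟨0, hg2⟩) = ((c ⟨0, hg2⟩ : ℝ) : ℂ) := rfl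
    rw [h4] at h3
    rw [h3]
    intro h
    exact h2 ((map_eq_zero Complex.ofRealHom).mp h)

end

end Pool.Agent.GPH.GG
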