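import Pool.Agent.HGP.Basic

/-!
# GPH, part III: closed paths on hyperelliptic curves and the reference periods

Curves `y ^ 2 = ∏ i < N, (x - z i)` with complex roots `z 0, …, z (N - 1)`, ordered in such a way
that `Re (κ z i)` is increasing, for some `κ` with positive real part (for distinct roots such an
ordering and such a `κ` near `1` always exist).
-/

open scoped BigOperators Topology
open Metric Set

namespace Pool.Agent.GPH

open Pool.Agent.HGP (csq)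

noncomputable section

/-- The polynomial `∏ i < N, (x - z i)`, as a function. -/
def fz (N : ℕ) (z : ℕ → ℂ) (x : ℂ) : ℂ := ∏ i ∈ Finset.range N, (x - z i)

/-- The roots are ordered by the real part of `κ z`. -/
def Ord (N : ℕ) (κ : ℂ) (z : ℕ → ℂ) : Prop :=
  0 < κ.re ∧ ∀ i j, i < j → j < N → 0 < (κ * (z j - z i)).re

/-- The point with parameter `φ` on the segment `z m, z (m + 1)`. -/
def mid (z : ℕ → ℂ) (m : ℕ) (φ : ℝ) : ℂ :=
  (z m + z (m + 1)) / 2 - (z (m + 1) - z m) / 2 * (Real.cos φ : ℝ)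

/-- The reference integral: `∫ x ^ l dx / √f` over the segment `z m, z (m + 1)`, with the
substitution `x = mid z m φ` (which removes the singularities at the end points). -/
def EE (N : ℕ) (z : ℕ → ℂ) (m l : ℕ) : ℂ :=
  ∫ φ in (0 : ℝ)..Real.pi, mid z m φ ^ l /
    ((∏ i ∈ Finset.range m, csq (mid z m φ - z i)) *
      ∏ i ∈ Finset.Ico (m + 2) N, csq (z i - mid z m φ))

/-- A closed path of class `C ^ 1` on the curve `y ^ 2 = f x`, `y ≠ 0`. -/
structure Loop (f : ℂ → ℂ) where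
  x : ℝ → ℂ
  x' : ℝ → ℂ
  y : ℝ → ℂ
  hx : ∀ t ∈ Icc (0 : ℝ) 1, HasDerivAt x (x' t) t
  cx : ContinuousOn x' (Icc 0 1)
  cy : ContinuousOn y (Icc 0 1)
  hy : ∀ t ∈ Icc (0 : ℝ) 1, y t ^ 2 = f (x t) ∧ y t ≠ 0
  cl : x 0 = x 1 ∧ y 0 = y 1

/-- The integral of `x ^ l dx / y` along a closed path. -/
def Loop.per {f : ℂ → ℂ} (L : Loop f) (l : ℕ) : ℂ :=
  ∫ t in (0 : ℝ)..1, L.x t ^ l * L.x' t / L.y t

/-- LOOPS: the periods of every closed path are integral combinations of the reference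
periods. -/
def Stmt_Loops : Prop := ∀ (g : ℕ) (κ : ℂ) (z : ℕ → ℂ), Ord (2 * g + 1) κ z →
  ∀ L : Loop (fz (2 * g + 1) z), ∃ k : ℕ → ℤ, ∀ l, L.per l =
    ∑ m ∈ Finset.range (2 * g), (k m : ℂ) * (2 * Complex.I ^ m * EE (2 * g + 1) z m l)

/-! ## The star domain -/

/-- The centre `c` sees the roots in increasing order of the argument, within a half plane. -/
def Cen (N : ℕ) (c : ℂ) (z : ℕ → ℂ) : Prop :=
  (∀ j < N, z j ≠ c) ∧
    ∀ i j, i < j → j < N → 0 < ((z j - c) * (starRingEnd ℂ) (z i - c)).im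

/-- CEN: a centre exists. -/
def Stmt_Cen : Prop := ∀ (N : ℕ) (κ : ℂ) (z : ℕ → ℂ), Ord N κ z → ∃ c, Cen N c z

/-- The coordinate which is `0` at `c` and `1` at `z j`. -/
def ww (c : ℂ) (z : ℕ → ℂ) (j : ℕ) (x : ℂ) : ℂ := (x - c) / (z j - c)

/-- The star domain: the complement of the rays which start at the roots, away from `c`. -/
def Om (N : ℕ) (c : ℂ) (z : ℕ → ℂ) : Set ℂ :=
  {x | ∀ j < N, 1 - ww c z j x ∈ Complex.slitPlane}

/-- A branch of the square root of `fz`, holomorphic on the star domain (and defined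
everywhere). -/
def YY (N : ℕ) (c : ℂ) (z : ℕ → ℂ) (x : ℂ) : ℂ :=
  csq (fz N z c) * ∏ j ∈ Finset.range N, csq (1 - ww c z j x)

/-- The integral of `x ^ l dx / y` over the segment from `c` to `x`. -/
def FF (N : ℕ) (c : ℂ) (z : ℕ → ℂ) (l : ℕ) (x : ℂ) : ℂ :=
  ∫ τ in (0 : ℝ)..1, (x - c) * (c + τ * (x - c)) ^ l / YY N c z (c + τ * (x - c))

/-- PRIM: the primitive of a holomorphic function on a star shaped open set. -/
def Stmt_Prim : Prop := ∀ (U : Set ℂ) (c : ℂ) (h : ℂ → ℂ), IsOpen U → StarConvex ℝ c U →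
  DifferentiableOn ℂ h U → ∀ x ∈ U,
  HasDerivAt (fun x => ∫ τ in (0 : ℝ)..1, (x - c) * h (c + τ * (x - c))) (h x) x

/-- YPROP: elementary properties of the branch and of the star domain. -/
def Stmt_YProp : Prop := ∀ (N : ℕ) (c : ℂ) (z : ℕ → ℂ), Cen N c z →
  (∀ x, YY N c z x ^ 2 = fz N z x) ∧ IsOpen (Om N c z) ∧ StarConvex ℝ c (Om N c z) ∧
  c ∈ Om N c z ∧ DifferentiableOn ℂ (YY N c z) (Om N c z) ∧ (∀ x ∈ Om N c z, YY N c z x ≠ 0) ∧
  ∀ l, ∀ x ∈ Om N c z, HasDerivAt (FF N c z l) (x ^ l / YY N c z x) x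

/-- INTF: integrability of the integrand of `FF` along every segment which starts at the
centre and does not end at a root. -/
def Stmt_IntF : Prop := ∀ (N : ℕ) (c : ℂ) (z : ℕ → ℂ), Cen N c z → ∀ (l : ℕ) (x : ℂ),
  IntervalIntegrable (fun τ : ℝ => (x - c) * (c + τ * (x - c)) ^ l /
    YY N c z (c + τ * (x - c))) MeasureTheory.volume 0 1

/-- LIMU: one-sided limits of `FF` at a point of a cut. -/
def Stmt_LimU : Prop := ∀ (N : ℕ) (c : ℂ) (z : ℕ → ℂ), Cen N c z → ∀ j < N, ∀ τ : ℝ, 1 < τ →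
  ∀ l : ℕ,
  Filter.Tendsto (fun ε : ℝ => FF N c z l (c + (1 - ε * Complex.I) * (τ * (z j - c))))
    (𝓝[>] 0) (𝓝 (FF N c z l (c + τ * (z j - c)))) ∧
  Filter.Tendsto (fun ε : ℝ => FF N c z l (c + (1 + ε * Complex.I) * (τ * (z j - c))))
    (𝓝[>] 0) (𝓝 (2 * FF N c z l (z j) - FF N c z l (c + τ * (z j - c))))

/-- LOCSTR: the local structure of the branch and of its primitives at every point which is not
a root. -/
def Stmt_LocStr : Prop := ∀ (N : ℕ) (c : ℂ) (z : ℕ → ℂ), Cen N c z → 0 < N →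
  ∀ x0 : ℂ, fz N z x0 ≠ 0 →
  ∃ (ρ : ℝ) (h : ℂ → ℂ) (G : ℕ → ℂ → ℂ) (C : ℕ → ℂ) (j : ℕ), 0 < ρ ∧ j < N ∧
    ContinuousOn h (ball x0 ρ) ∧
    ∀ x ∈ ball x0 ρ, h x ^ 2 = fz N z x ∧ h x ≠ 0 ∧ (∀ l, HasDerivAt (G l) (x ^ l / h x) x) ∧
      ((YY N c z x = h x ∧ ∀ l, FF N c z l x = G l x + C l) ∨
        (YY N c z x = -h x ∧ ∀ l, FF N c z l x = -G l x + (2 * FF N c z l (z j) - C l)))

/-- LOOPV: the periods of a closed path are integral combinations of the integrals between the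
roots. -/
def Stmt_LoopV : Prop := ∀ (N : ℕ) (c : ℂ) (z : ℕ → ℂ), Cen N c z → 0 < N →
  ∀ L : Loop (fz N z), ∃ k : ℕ → ℤ, ∀ l, L.per l =
    ∑ j ∈ Finset.range N, (k j : ℂ) * (2 * (FF N c z l (z j) - FF N c z l (z 0)))

/-- SEGC: continuity of `FF` on the segment between two neighbouring roots, which lies in the
star domain. -/
def Stmt_SegC : Prop := ∀ (N : ℕ) (c : ℂ) (z : ℕ → ℂ), Cen N c z → ∀ m, m + 1 < N →
  (∀ s ∈ Ioo (0 : ℝ) 1, z m + s * (z (m + 1) - z m) ∈ Om N c z) ∧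
  ∀ l, ContinuousOn (fun s : ℝ => FF N c z l (z m + s * (z (m + 1) - z m))) (Icc 0 1)

/-- SEG: the integral between two neighbouring roots is the reference integral. -/
def Stmt_Seg : Prop := ∀ (N : ℕ) (κ c : ℂ) (z : ℕ → ℂ), Ord N κ z → Cen N c z →
  ∀ m, m + 1 < N → ∃ σ : ℂ, σ ^ 4 = 1 ∧ σ ^ 2 = (-1) ^ (N - 1 - m) ∧
    ∀ l, FF N c z l (z (m + 1)) - FF N c z l (z m) = σ * EE N z m l

/-! ## Dependence on the roots -/

/-- EHOL: the reference integrals are holomorphic functions of the roots. -/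
def Stmt_EHol : Prop := ∀ (N : ℕ) (κ : ℂ) (m l : ℕ), m + 1 < N →
  DifferentiableOn ℂ (fun v : Fin N → ℂ =>
      EE N (fun i => if h : i < N then v ⟨i, h⟩ else 0) m l)
    {v | Ord N κ (fun i => if h : i < N then v ⟨i, h⟩ else 0)}

/-- The point with parameter `w = R e ^ (i φ)` on an ellipse around the segment
`z m, z (m + 1)`. -/
def ell (z : ℕ → ℂ) (m : ℕ) (R φ : ℝ) : ℂ :=
  (z m + z (m + 1)) / 2 - (z (m + 1) - z m) / 4 *
    (R * Complex.exp (φ * Complex.I) + (R * Complex.exp (φ * Complex.I))⁻¹)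

/-- The product of the square roots which do not belong to the end points of the segment
`z m, z (m + 1)`. -/
def rst (N : ℕ) (z : ℕ → ℂ) (m : ℕ) (x : ℂ) : ℂ :=
  (∏ i ∈ Finset.range m, csq (x - z i)) * ∏ i ∈ Finset.Ico (m + 2) N, csq (z i - x)

/-- The region between the segment and the ellipse of parameter `R` does not meet the cuts of the
square roots in `rst`. -/
def Adm (N : ℕ) (z : ℕ → ℂ) (m : ℕ) (R : ℝ) : Prop :=
  ∀ r ∈ Icc (1 : ℝ) R, ∀ φ : ℝ, (∀ i < m, ell z m r φ - z i ∈ Complex.slitPlane) ∧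
    ∀ i ∈ Finset.Ico (m + 2) N, z i - ell z m r φ ∈ Complex.slitPlane

/-- ADM -/
def Stmt_Adm : Prop := ∀ (N : ℕ) (κ : ℂ) (z : ℕ → ℂ), Ord N κ z → ∀ m, m + 1 < N →
  ∃ R : ℝ, 1 < R ∧ ∃ δ : ℝ, 0 < δ ∧ ∀ z' : ℕ → ℂ, (∀ i < N, ‖z' i - z i‖ < δ) →
    Adm N z' m R

/-- ANNUL: the reference integral as an integral over an ellipse around the segment. -/
def Stmt_Annul : Prop := ∀ (N : ℕ) (z : ℕ → ℂ) (m : ℕ) (R : ℝ), m + 1 < N → 1 ≤ R →
  Adm N z m R → ∀ l, EE N z m l =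
    (1 / 2) * ∫ φ in (0 : ℝ)..(2 * Real.pi), ell z m R φ ^ l / rst N z m (ell z m R φ)

/-- The integral of `p dx / √f` over the segment `z m, z (m + 1)`, for a polynomial `p`. -/
def EEp (N : ℕ) (z : ℕ → ℂ) (m : ℕ) (p : Polynomial ℂ) : ℂ :=
  ∑ l ∈ Finset.range (p.natDegree + 1), p.coeff l * EE N z m l

/-- ODEE: the differential equation of the reference integrals, as functions of the constant
coefficient of the polynomial. -/
def Stmt_OdeE : Prop := ∀ (N : ℕ) (κ : ℂ) (f0 : Polynomial ℂ) (V : Set ℂ) (z : ℕ → ℂ → ℂ),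
  IsOpen V → (∀ i < N, DifferentiableOn ℂ (z i) V) →
  (∀ s ∈ V, Ord N κ (fun i => z i s) ∧ ∀ x, f0.eval x + s = fz N (fun i => z i s) x) →
  ∀ m, m + 1 < N →
  (∀ p, DifferentiableOn ℂ (fun s => EEp N (fun i => z i s) m p) V) ∧
  ∀ q u v : Polynomial ℂ, q * f0 = u * Polynomial.derivative f0 + v → ∀ s ∈ V,
    deriv (fun s => EEp N (fun i => z i s) m v) s +
      s * deriv (fun s => EEp N (fun i => z i s) m q) s =
    EEp N (fun i => z i s) m (Polynomial.derivative u - Polynomial.C (1 / 2) * q)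

/-- ORDEX: distinct roots can be ordered. -/
def Stmt_OrdEx : Prop := ∀ (N : ℕ) (z : ℕ → ℂ), (∀ i < N, ∀ j < N, z i = z j → i = j) →
  ∃ (κ : ℂ) (σ : Equiv.Perm ℕ), (∀ i < N, σ i < N) ∧ Ord N κ (fun i => z (σ i))

/-- The monic polynomial of degree `N` with coefficients `a`. -/
def fa (N : ℕ) (a : Fin N → ℂ) (x : ℂ) : ℂ := x ^ N + ∑ k : Fin N, a k * x ^ (k : ℕ)

/-- ROOTS: the roots of a polynomial with simple roots are locally holomorphic functions of the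
coefficients. -/
def Stmt_Roots : Prop := ∀ (N : ℕ) (a0 : Fin N → ℂ) (z0 : ℕ → ℂ),
  (∀ i < N, ∀ j < N, z0 i = z0 j → i = j) → (∀ x, fa N a0 x = fz N z0 x) →
  ∃ (W : Set (Fin N → ℂ)) (z : ℕ → (Fin N → ℂ) → ℂ), IsOpen W ∧ a0 ∈ W ∧
    (∀ i, z i a0 = z0 i) ∧ (∀ i, DifferentiableOn ℂ (z i) W) ∧
    ∀ a ∈ W, ∀ x, fa N a x = fz N (fun i => z i a) x

end

end Pool.Agent.GPH
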