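import Pool.Agent.GPH.VStmts
import Pool.Agent.HGP.INDUC

/-!
# GPH module INDUCZ: induction on the number of curves
-/

open scoped BigOperators Topology
open Metric Set
open Pool.Agent.HGP (Ix Simil Idx fvec opt)
open Pool.Agent.GPC (IsSmall Free)

namespace Pool.Agent.GPH.INDUCZ

noncomputable section

lemma free_snoc {r : ℕ} (g : Fin (r + 1) → ℕ) (π : ∀ i, Piece (g i)) (Y D B : ℕ)
    (c : ∀ i, Fin (2 * g i + 1) → ℤ)
    (h : Free D B (Sum.elim
      (cvecZ (fun i : Fin r => π i.castSucc) Y (fun i => c i.castSucc))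
      (fvec ((π (Fin.last r)).M (un (g (Fin.last r)) Y (c (Fin.last r)))
        ((sn (g (Fin.last r)) Y (c (Fin.last r)) : ℚ) : ℂ))))) :
    Free D B (cvecZ π Y c) := by
  apply HGP.InducX.free_rename (Equiv.ofBijective (HGP.InducX.idx g) (HGP.InducX.idx_bij g))
  convert h using 1
  funext x
  rcases x with (_ | ⟨i, j⟩) | j
  · rfl
  · rfl
  · rfl

lemma base (D B : ℕ) (g : Fin 0 → ℕ) (π : ∀ i, Piece (g i)) (Y : ℕ)
    (c : ∀ i, Fin (2 * g i + 1) → ℤ) : Free D B (cvecZ π Y c) := by
  have h := HGP.InducX.base D B g (fun i => i.elim0) (fun i => i.elim0)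
  convert h using 1
  funext x
  rcases x with _ | ⟨i, j⟩
  · rfl
  · exact i.elim0

lemma free_mono {κ : Type} {D B B' : ℕ} {c : κ → ℂ} (h : B ≤ B') (hc : Free D B' c) :
    Free D B c := by
  intro Q hQ h0
  exact hc Q ⟨hQ.1, fun m => (hQ.2 m).trans (by exact_mod_cast h)⟩ h0

open Classical in
/-- The counting step. -/
lemma count_step {r : ℕ} {β : Fin (r + 1) → Type} (BX : ∀ i, Finset (β i))
    (P : (∀ i, β i) → Prop) (P' : (∀ i : Fin r, β i.castSucc) → Prop)
    (S : (∀ i : Fin r, β i.castSucc) → β (Fin.last r) → Prop) (C1 : ℝ)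
    (hPB : ∀ t, P t → ∀ i, t i ∈ BX i) (hPB' : ∀ t, P' t → ∀ i, t i ∈ BX i.castSucc)
    (hS : ∀ t', (((BX (Fin.last r)).filter (S t')).card : ℝ) ≤ C1)
    (hP : ∀ t, P t → P' (fun i => t i.castSucc) ∨ S (fun i => t i.castSucc) (t (Fin.last r))) :
    (Nat.card {t : ∀ i, β i // P t} : ℝ) ≤
      (Nat.card {t : ∀ i : Fin r, β i.castSucc // P' t} : ℝ) * (BX (Fin.last r)).card +
        (∏ i : Fin r, ((BX i.castSucc).card : ℝ)) * C1 := by
  set A : Finset (∀ i : Fin r, β i.castSucc) := Fintype.piFinset (fun i : Fin r => BX i.castSucc)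
    with hA
  have hAc : (A.card : ℝ) = ∏ i : Fin r, ((BX i.castSucc).card : ℝ) := by
    rw [hA, Fintype.card_piFinset]
    push_cast
    rfl
  have e1 : Nat.card {t : ∀ i, β i // P t} = ((Fintype.piFinset BX).filter P).card :=
    Nat.subtype_card _ (fun p => by
      rw [Finset.mem_filter, Fintype.mem_piFinset]
      exact ⟨fun h => h.2, fun h => ⟨hPB p h, h⟩⟩)
  have e2 : Nat.card {t : ∀ i : Fin r, β i.castSucc // P' t} = (A.filter P').card :=
    Nat.subtype_card _ (fun p => by
      rw [Finset.mem_filter, hA, Fintype.mem_piFinset]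
      exact ⟨fun h => h.2, fun h => ⟨hPB' p h, h⟩⟩)
  rw [e1, e2]
  let U1 : Finset ((∀ i : Fin r, β i.castSucc) × β (Fin.last r)) :=
    (A.filter P') ×ˢ BX (Fin.last r)
  let U2 : Finset ((∀ i : Fin r, β i.castSucc) × β (Fin.last r)) := A.biUnion fun t' =>
    ({t'} : Finset _) ×ˢ ((BX (Fin.last r)).filter (S t'))
  have hsub : ((Fintype.piFinset BX).filter P).card ≤ (U1 ∪ U2).card := by
    apply Finset.card_le_card_of_injOn
      (fun p => ((fun i : Fin r => p i.castSucc), p (Fin.last r)))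
    · intro p hp
      have hp1 : ∀ i, p i ∈ BX i := by
        have := (Finset.mem_filter.mp (Finset.mem_coe.mp hp)).1
        exact fun i => Fintype.mem_piFinset.mp this i
      have hp2 : P p := (Finset.mem_filter.mp (Finset.mem_coe.mp hp)).2
      have hpA : (fun i : Fin r => p i.castSucc) ∈ A :=
        Fintype.mem_piFinset.mpr (fun i => hp1 _)
      rw [Finset.mem_coe, Finset.mem_union]
      rcases hP p hp2 with h | hSw
      · left
        exact Finset.mem_product.mpr ⟨Finset.mem_filter.mpr ⟨hpA, h⟩, hp1 _⟩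
      · right
        exact Finset.mem_biUnion.mpr ⟨_, hpA, Finset.mem_product.mpr
          ⟨Finset.mem_singleton_self _, Finset.mem_filter.mpr ⟨hp1 _, hSw⟩⟩⟩
    · intro p _ p' _ h
      have h1 := congrArg Prod.fst h
      have h2 := congrArg Prod.snd h
      funext i
      refine Fin.lastCases ?_ (fun i => ?_) i
      · exact h2
      · exact congrFun h1 i
  have hU1 : (U1.card : ℝ) = ((A.filter P').card : ℝ) * (BX (Fin.last r)).card := by
    simp only [U1]
    rw [Finset.card_product]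
    push_cast
    ring
  have hU2 : (U2.card : ℝ) ≤ (A.card : ℝ) * C1 := by
    have h1 : U2.card ≤ ∑ t' ∈ A, ((BX (Fin.last r)).filter (S t')).card := by
      refine Finset.card_biUnion_le.trans (Finset.sum_le_sum fun t' _ => ?_)
      rw [Finset.card_product, Finset.card_singleton, one_mul]
    calc (U2.card : ℝ) ≤ ∑ t' ∈ A, (((BX (Fin.last r)).filter (S t')).card : ℝ) := by
          exact_mod_cast h1
      _ ≤ ∑ t' ∈ A, C1 := Finset.sum_le_sum fun t' _ => hS t'
      _ = (A.card : ℝ) * C1 := by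
          rw [Finset.sum_const, nsmul_eq_mul]
  rw [← hAc]
  calc (((Fintype.piFinset BX).filter P).card : ℝ)
      ≤ ((U1 ∪ U2).card : ℝ) := by exact_mod_cast hsub
    _ ≤ (U1.card : ℝ) + U2.card := by exact_mod_cast Finset.card_union_le _ _
    _ ≤ _ := by
        rw [hU1]
        linarith

lemma Yx_pos (X : ℕ) : 0 < Yx X := by
  unfold Yx Nx
  positivity

lemma Yx_le {X : ℕ} (hX : 1 ≤ X) : Yx X ≤ 4 * X := by
  unfold Yx Nx
  have h1 : 1 ≤ Nat.sqrt X := Nat.le_sqrt.mpr (by omega)
  have h2 : Nat.sqrt X * Nat.sqrt X ≤ X := Nat.sqrt_le X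
  nlinarith

/-- Numerator and denominator of the normalised constant coefficient. -/
lemma sn_bounds {g X : ℕ} (hX : 1 ≤ X) {c : Fin (2 * g + 1) → ℤ} (hc : c ∈ box g X) (hg : 0 < g) :
    (sn g (Yx X) c).num.natAbs ≤ (4 * X) ^ (2 * g + 1) ∧
      (sn g (Yx X) c).den ≤ (4 * X) ^ (2 * g + 1) := by
  have hY := Yx_pos X
  have hY4 := Yx_le hX
  have h0 : (c 0).natAbs ≤ X ^ (2 * g + 1) := by
    unfold box at hc
    have h := Fintype.mem_piFinset.mp hc 0
    rw [if_neg (by simp; omega), Finset.mem_Icc] at h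
    simp only [Fin.val_zero, Nat.sub_zero] at h
    have h1 : |c 0| ≤ (X : ℤ) ^ (2 * g + 1) := abs_le.mpr h
    have h2 : ((c 0).natAbs : ℤ) ≤ ((X ^ (2 * g + 1) : ℕ) : ℤ) := by
      rw [Int.natCast_natAbs]
      push_cast
      exact h1
    exact_mod_cast h2
  have hX4 : X ^ (2 * g + 1) ≤ (4 * X) ^ (2 * g + 1) := Nat.pow_le_pow_left (by omega) _
  have hYd : ((Yx X : ℤ) ^ (2 * g + 1)) ≠ 0 := by positivity
  have hsn : sn g (Yx X) c = Rat.divInt (c 0) ((Yx X : ℤ) ^ (2 * g + 1)) := by
    unfold sn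
    rw [Rat.divInt_eq_div]
    push_cast
    rfl
  constructor
  · by_cases h00 : c 0 = 0
    · have : sn g (Yx X) c = 0 := by
        unfold sn
        rw [h00]
        simp
      rw [this]
      simp
    · have hd : (sn g (Yx X) c).num ∣ c 0 := by
        rw [hsn]
        exact Rat.num_dvd _ hYd
      have : (sn g (Yx X) c).num.natAbs ≤ (c 0).natAbs :=
        Nat.le_of_dvd (Int.natAbs_pos.mpr h00) (Int.natAbs_dvd_natAbs.mpr hd)
      omega
  · have hd : ((sn g (Yx X) c).den : ℤ) ∣ ((Yx X : ℤ) ^ (2 * g + 1)) := by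
      rw [hsn]
      exact Rat.den_dvd _ _
    have hd' : (sn g (Yx X) c).den ∣ (Yx X) ^ (2 * g + 1) := by
      exact_mod_cast hd
    have h1 := Nat.le_of_dvd (by positivity) hd'
    exact h1.trans (Nat.pow_le_pow_left hY4 _)

/-- The box of the nonconstant coefficients. -/
def tbox (g X : ℕ) : Finset (Fin (2 * g) → ℤ) :=
  Fintype.piFinset fun i => if (i : ℕ) + 1 = 2 * g then {0} else
    Finset.Icc (-(X : ℤ) ^ (2 * g - (i : ℕ))) ((X : ℤ) ^ (2 * g - (i : ℕ)))

lemma mem_tbox {g X : ℕ} {c : Fin (2 * g + 1) → ℤ} (hc : c ∈ box g X) :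
    (fun i : Fin (2 * g) => c i.succ) ∈ tbox g X := by
  unfold tbox
  rw [Fintype.mem_piFinset]
  intro i
  unfold box at hc
  have h := Fintype.mem_piFinset.mp hc i.succ
  simp only [Fin.val_succ] at h
  by_cases hi : (i : ℕ) + 1 = 2 * g
  · rw [if_pos hi] at h
    rw [if_pos hi]
    exact h
  · rw [if_neg hi] at h
    rw [if_neg hi]
    have e : 2 * g + 1 - ((i : ℕ) + 1) = 2 * g - (i : ℕ) := by omega
    rwa [e] at h

lemma card_box {g : ℕ} (hg : 0 < g) (X : ℕ) :
    (box g X).card = (2 * X ^ (2 * g + 1) + 1) * (tbox g X).card := by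
  unfold box tbox
  rw [Fintype.card_piFinset, Fintype.card_piFinset, Fin.prod_univ_succ]
  congr 1
  · rw [if_neg (by simp; omega), Int.card_Icc]
    simp only [Fin.val_zero, Nat.sub_zero]
    have : ((X : ℤ) ^ (2 * g + 1) + 1 - -(X : ℤ) ^ (2 * g + 1)) =
        ((2 * X ^ (2 * g + 1) + 1 : ℕ) : ℤ) := by
      push_cast
      ring
    rw [this, Int.toNat_natCast]
  · refine Finset.prod_congr rfl fun i _ => ?_
    simp only [Fin.val_succ]
    have e : 2 * g + 1 - ((i : ℕ) + 1) = 2 * g - (i : ℕ) := by omega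
    rw [e]

open Classical in
/-- The second kind. -/
lemma count_fibre {g X : ℕ} (Q : (Fin (2 * g + 1) → ℤ) → Prop) (C1 : ℝ)
    (hQ : ∀ u : Fin (2 * g) → ℤ, ∀ T : Finset ℚ, (∀ q ∈ T, ∃ c ∈ box g X,
      (fun i : Fin (2 * g) => c i.succ) = u ∧ Q c ∧ q = sn g (Yx X) c) → (T.card : ℝ) ≤ C1) :
    (((box g X).filter Q).card : ℝ) ≤ (tbox g X).card * C1 := by
  have hY := Yx_pos X
  have h1 : ((box g X).filter Q).card = ∑ u ∈ tbox g X,
      (((box g X).filter Q).filter (fun c => (fun i : Fin (2 * g) => c i.succ) = u)).card :=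
    Finset.card_eq_sum_card_fiberwise (fun c hc =>
      mem_tbox (Finset.mem_filter.mp (Finset.mem_coe.mp hc)).1)
  rw [h1]
  push_cast
  calc ∑ u ∈ tbox g X, ((((box g X).filter Q).filter
        (fun c => (fun i : Fin (2 * g) => c i.succ) = u)).card : ℝ)
      ≤ ∑ u ∈ tbox g X, C1 := by
        refine Finset.sum_le_sum fun u _ => ?_
        have h2 := hQ u ((((box g X).filter Q).filter
          (fun c => (fun i : Fin (2 * g) => c i.succ) = u)).image (sn g (Yx X))) (by
            intro q hq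
            obtain ⟨c, hc, rfl⟩ := Finset.mem_image.mp hq
            obtain ⟨hc1, hc2⟩ := Finset.mem_filter.mp hc
            obtain ⟨hc3, hc4⟩ := Finset.mem_filter.mp hc1
            exact ⟨c, hc3, hc2, hc4, rfl⟩)
        rw [Finset.card_image_of_injOn] at h2
        · exact h2
        · intro c hc c' hc' h
          have hc2 := (Finset.mem_filter.mp (Finset.mem_coe.mp hc)).2
          have hc2' := (Finset.mem_filter.mp (Finset.mem_coe.mp hc')).2
          have h3 : c 0 = c' 0 := by
            have h4 : sn g (Yx X) c = sn g (Yx X) c' := h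
            unfold sn at h4
            have hYq : ((Yx X : ℚ) ^ (2 * g + 1)) ≠ 0 := by
              have : (0 : ℚ) < Yx X := by exact_mod_cast hY
              positivity
            rw [div_left_inj' hYq] at h4
            exact_mod_cast h4
          funext i
          refine Fin.cases h3 (fun i => ?_) i
          have := congrFun (hc2.trans hc2'.symm) i
          exact this
    _ = (tbox g X).card * C1 := by
        rw [Finset.sum_const, nsmul_eq_mul]

lemma un_congr {g Y : ℕ} {c c' : Fin (2 * g + 1) → ℤ}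
    (h : (fun i : Fin (2 * g) => c i.succ) = (fun i : Fin (2 * g) => c' i.succ)) :
    un g Y c = un g Y c' := by
  funext i
  unfold un
  rw [congrFun h i]

/-- INDUCZ. -/
theorem thm (hStep : Stmt_StepZ) : Stmt_InducZ := by
  intro r
  induction r with
  | zero =>
    intro g _ π D A
    refine ⟨0, fun X _ => ?_⟩
    have : IsEmpty {c : ∀ i : Fin 0, Fin (2 * g i + 1) → ℤ //
        (∀ i, c i ∈ box (g i) X ∧ InP (π i) (Yx X) (c i)) ∧
          ¬ Free D (X ^ A) (cvecZ π (Yx X) c)} := by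
      constructor
      rintro ⟨c, _, h⟩
      exact h (base _ _ _ _ _ _)
    rw [Nat.card_of_isEmpty]
    simp
  | succ r ih =>
    intro g hg π D A
    set gl := g (Fin.last r) with hgl
    have hgl0 : 0 < gl := hg _
    obtain ⟨C1, hC1⟩ := hStep gl hgl0 (π (Fin.last r)) (1 / (2 * (gl : ℝ) + 1)) (by positivity)
      (Option (Σ i : Fin r, Idx (g i.castSucc))) D A
    obtain ⟨C2, hC2⟩ := ih (fun i => g i.castSucc) (fun i => hg _) (fun i => π i.castSucc) D
      (3 * (2 * gl + 1) * A)
    refine ⟨1 + |C2| + 2 * |C1|, fun X hX => ?_⟩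
    have hXr : (1 : ℝ) ≤ X := by exact_mod_cast hX
    set PP : ℝ := ∏ i : Fin r, ((box (g i.castSucc) X).card : ℝ) with hPP
    have hPP0 : 0 ≤ PP := Finset.prod_nonneg fun i _ => Nat.cast_nonneg _
    rcases Nat.lt_or_ge X 2 with h1 | hX2
    · -- the trivial case
      have hX1 : X = 1 := by omega
      classical
      have e1 : Nat.card {c : ∀ i, Fin (2 * g i + 1) → ℤ //
          (∀ i, c i ∈ box (g i) X ∧ InP (π i) (Yx X) (c i)) ∧
            ¬ Free D (X ^ A) (cvecZ π (Yx X) c)} =
          ((Fintype.piFinset (fun i => box (g i) X)).filter (fun c =>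
            (∀ i, c i ∈ box (g i) X ∧ InP (π i) (Yx X) (c i)) ∧
            ¬ Free D (X ^ A) (cvecZ π (Yx X) c))).card :=
        Nat.subtype_card _ (fun p => by
          rw [Finset.mem_filter, Fintype.mem_piFinset]
          exact ⟨fun h => h.2, fun h => ⟨fun i => (h.1 i).1, h⟩⟩)
      have e2 : ((Fintype.piFinset (fun i => box (g i) X)).filter (fun c =>
            (∀ i, c i ∈ box (g i) X ∧ InP (π i) (Yx X) (c i)) ∧
            ¬ Free D (X ^ A) (cvecZ π (Yx X) c))).card ≤ ∏ i, (box (g i) X).card := by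
        refine (Finset.card_filter_le _ _).trans ?_
        rw [Fintype.card_piFinset]
      rw [e1]
      have e3 : (((Fintype.piFinset (fun i => box (g i) X)).filter (fun c =>
            (∀ i, c i ∈ box (g i) X ∧ InP (π i) (Yx X) (c i)) ∧
            ¬ Free D (X ^ A) (cvecZ π (Yx X) c))).card : ℝ) ≤ ∏ i, ((box (g i) X).card : ℝ) := by
        exact_mod_cast e2
      have e4 : (0 : ℝ) ≤ ∏ i, ((box (g i) X).card : ℝ) :=
        Finset.prod_nonneg fun i _ => Nat.cast_nonneg _
      have e5 : (X : ℝ) = 1 := by exact_mod_cast hX1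
      rw [e5, mul_one]
      have := abs_nonneg C1
      have := abs_nonneg C2
      nlinarith
    -- the main case
    set H : ℕ := (4 * X) ^ (2 * gl + 1) with hH
    have hH1 : 1 ≤ H := Nat.one_le_pow _ _ (by omega)
    have hXH : X ≤ H := by
      calc X ≤ 4 * X := by omega
        _ ≤ (4 * X) ^ (2 * gl + 1) := Nat.le_self_pow (by omega) _
    have hHX : H ^ A ≤ X ^ (3 * (2 * gl + 1) * A) := by
      have h4 : 4 * X ≤ X ^ 3 := by nlinarith [Nat.mul_le_mul hX2 hX2]
      calc H ^ A = (4 * X) ^ ((2 * gl + 1) * A) := by rw [hH, ← pow_mul]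
        _ ≤ (X ^ 3) ^ ((2 * gl + 1) * A) := Nat.pow_le_pow_left h4 _
        _ = X ^ (3 * (2 * gl + 1) * A) := by rw [← pow_mul]; ring_nf
    have hHe : (H : ℝ) ^ (1 / (2 * (gl : ℝ) + 1)) = 4 * X := by
      rw [hH]
      push_cast
      rw [← Real.rpow_natCast, ← Real.rpow_mul (by positivity)]
      have : ((2 * gl + 1 : ℕ) : ℝ) * (1 / (2 * (gl : ℝ) + 1)) = 1 := by
        push_cast
        field_simp
      rw [this, Real.rpow_one]
    have key := count_step (r := r) (β := fun i => Fin (2 * g i + 1) → ℤ)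
      (fun i => box (g i) X)
      (fun c => (∀ i, c i ∈ box (g i) X ∧ InP (π i) (Yx X) (c i)) ∧
        ¬ Free D (X ^ A) (cvecZ π (Yx X) c))
      (fun c => (∀ i, c i ∈ box (g i.castSucc) X ∧ InP (π i.castSucc) (Yx X) (c i)) ∧
        ¬ Free D (X ^ (3 * (2 * gl + 1) * A)) (cvecZ (fun i : Fin r => π i.castSucc) (Yx X) c))
      (fun c' c => Free D (H ^ A) (cvecZ (fun i : Fin r => π i.castSucc) (Yx X) c') ∧
        InP (π (Fin.last r)) (Yx X) c ∧
        ¬ Free D (H ^ A) (Sum.elim (cvecZ (fun i : Fin r => π i.castSucc) (Yx X) c')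
          (fvec ((π (Fin.last r)).M (un gl (Yx X) c) ((sn gl (Yx X) c : ℚ) : ℂ)))))
      ((tbox gl X).card * (|C1| * (4 * X)))
      (fun c hc i => (hc.1 i).1)
      (fun c hc i => (hc.1 i).1)
      (by
        intro c'
        apply count_fibre
        intro u T hT
        rcases T.eq_empty_or_nonempty with rfl | ⟨q0, hq0⟩
        · simp only [Finset.card_empty, Nat.cast_zero]
          positivity
        · obtain ⟨c0, hc0b, hc0u, hc0Q, -⟩ := hT q0 hq0
          have h2 := hC1 H hH1 _ hc0Q.1 (un gl (Yx X) c0) hc0Q.2.1.1 T (by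
            intro q hq
            obtain ⟨c, hcb, hcu, hcQ, rfl⟩ := hT q hq
            have hun : un gl (Yx X) c = un gl (Yx X) c0 := un_congr (hcu.trans hc0u.symm)
            obtain ⟨hb1, hb2⟩ := sn_bounds hX hcb hgl0
            refine ⟨hcQ.2.1.2, hb1, hb2, ?_⟩
            rw [← hun]
            exact hcQ.2.2)
          rw [hHe] at h2
          exact h2.trans (mul_le_mul_of_nonneg_right (le_abs_self _) (by positivity)))
      (by
        rintro c ⟨hc, hnf⟩
        by_cases hfr : Free D (H ^ A) (cvecZ (fun i : Fin r => π i.castSucc) (Yx X)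
          (fun i => c i.castSucc))
        · right
          refine ⟨hfr, (hc _).2, fun hcon => hnf ?_⟩
          exact free_mono (Nat.pow_le_pow_left hXH A) (free_snoc g π (Yx X) D (H ^ A) c hcon)
        · left
          exact ⟨fun i => hc _, fun hcon => hfr (free_mono hHX hcon)⟩)
    have h1 := hC2 X hX
    have hbl : ((box gl X).card : ℝ) = (2 * (X : ℝ) ^ (2 * gl + 1) + 1) * (tbox gl X).card := by
      rw [card_box hgl0 X]
      push_cast
      ring
    have hprod : ∏ i, ((box (g i) X).card : ℝ) = PP * (box gl X).card := by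
      rw [Fin.prod_univ_castSucc]
    rw [hprod]
    have h3 : (X : ℝ) ^ 3 ≤ (X : ℝ) ^ (2 * gl + 1) := pow_le_pow_right₀ hXr (by omega)
    have ht0 : (0 : ℝ) ≤ (tbox gl X).card := Nat.cast_nonneg _
    have hb0 : (0 : ℝ) ≤ (box gl X).card := Nat.cast_nonneg _
    -- the second kind
    have h5 : (tbox gl X).card * (|C1| * (4 * X)) * X ≤ 2 * |C1| * ((box gl X).card : ℝ) := by
      rw [hbl]
      have : (X : ℝ) * X ≤ (X : ℝ) ^ 3 := by
        have := pow_le_pow_right₀ hXr (show 2 ≤ 3 by norm_num)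
        rwa [sq] at this
      have h6 : 4 * ((X : ℝ) * X) ≤ 2 * (2 * (X : ℝ) ^ (2 * gl + 1) + 1) := by linarith
      calc (tbox gl X).card * (|C1| * (4 * X)) * X
          = ((tbox gl X).card * |C1|) * (4 * ((X : ℝ) * X)) := by ring
        _ ≤ ((tbox gl X).card * |C1|) * (2 * (2 * (X : ℝ) ^ (2 * gl + 1) + 1)) :=
            mul_le_mul_of_nonneg_left h6 (mul_nonneg ht0 (abs_nonneg _))
        _ = _ := by ring
    have hX0 : (0 : ℝ) ≤ X := by linarith
    calc _ ≤ ((Nat.card {c : ∀ i : Fin r, Fin (2 * g i.castSucc + 1) → ℤ //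
          (∀ i, c i ∈ box (g i.castSucc) X ∧ InP (π i.castSucc) (Yx X) (c i)) ∧
            ¬ Free D (X ^ (3 * (2 * gl + 1) * A))
              (cvecZ (fun i : Fin r => π i.castSucc) (Yx X) c)} : ℝ) * (box gl X).card +
          PP * ((tbox gl X).card * (|C1| * (4 * X)))) * X :=
          mul_le_mul_of_nonneg_right key hX0
      _ = ((Nat.card {c : ∀ i : Fin r, Fin (2 * g i.castSucc + 1) → ℤ //
          (∀ i, c i ∈ box (g i.castSucc) X ∧ InP (π i.castSucc) (Yx X) (c i)) ∧
            ¬ Free D (X ^ (3 * (2 * gl + 1) * A))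
              (cvecZ (fun i : Fin r => π i.castSucc) (Yx X) c)} : ℝ) * X) * (box gl X).card +
          PP * ((tbox gl X).card * (|C1| * (4 * X)) * X) := by ring
      _ ≤ (C2 * PP) * (box gl X).card + PP * (2 * |C1| * ((box gl X).card : ℝ)) :=
          add_le_add (mul_le_mul_of_nonneg_right h1 hb0) (mul_le_mul_of_nonneg_left h5 hPP0)
      _ ≤ _ := by
          have hm : 0 ≤ PP * (box gl X).card := mul_nonneg hPP0 hb0
          nlinarith [le_abs_self C2]

end

end Pool.Agent.GPH.INDUCZ
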