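import Pool.Agent.GPH.VStmts
import Pool.Agent.HGP.HOMOGC
import Pool.Agent.HGP.CELLQ
import Pool.Agent.HGP.CELLB
import Pool.Agent.HGP.Ind

/-!
# GPH, module INDZ
-/

open scoped BigOperators Topology
open Metric Set
open Pool.Agent.HGP (Ix Simil Idx fvec opt Aof mvec)

namespace Pool.Agent.GPH.INDZ

theorem thm : Stmt_IndZ := by
  intro g hg π u hu Q hQ
  obtain ⟨Δ0, q0, h0⟩ := HGP.cellq_proof g
  obtain ⟨D, P1, hP1⟩ := HGP.homogc_proof (Option (Idx g)) (Option (Ix g × Ix g))
    (fun v => v.elim (MvPolynomial.X none * MvPolynomial.rename some Δ0)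
      (fun x => MvPolynomial.rename some (q0 x))) (MvPolynomial.rename some Δ0) Q
  have key : ∀ (t : ℂ) (M : Matrix (Ix g) (Ix g) ℂ), M.toBlocks₁₁.det ≠ 0 →
      MvPolynomial.eval (opt t (fun p => M p.1 p.2)) P1 =
        M.toBlocks₁₁.det ^ D * MvPolynomial.eval (opt t (fvec M)) Q := by
    intro t M hM
    have hd : MvPolynomial.eval (opt t (fun p : Ix g × Ix g => M p.1 p.2))
        (MvPolynomial.rename some Δ0) = M.toBlocks₁₁.det := by
      rw [MvPolynomial.eval_rename, HGP.IND_.opt_some]
      exact (h0 M).1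
    have h1 := hP1 (opt t (fun p => M p.1 p.2)) (by rw [hd]; exact hM)
    rw [h1, hd]
    congr 2
    congr 1
    funext v
    have hM' : M.toBlocks₁₁.det ≠ 0 := hM
    cases v with
    | none =>
      show MvPolynomial.eval (opt t (fun p : Ix g × Ix g => M p.1 p.2))
          (MvPolynomial.X none * MvPolynomial.rename some Δ0) / M.toBlocks₁₁.det = t
      rw [map_mul, hd, MvPolynomial.eval_X]
      show t * M.toBlocks₁₁.det / M.toBlocks₁₁.det = t
      exact mul_div_cancel_right₀ t hM'
    | some x =>
      have h2 := (h0 M).2 hM x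
      have h3 : MvPolynomial.eval (opt t (fun p : Ix g × Ix g => M p.1 p.2))
          (MvPolynomial.rename some (q0 x)) = M.toBlocks₁₁.det * fvec M x := by
        rw [MvPolynomial.eval_rename, HGP.IND_.opt_some]
        exact h2
      show MvPolynomial.eval (opt t (fun p : Ix g × Ix g => M p.1 p.2))
          (MvPolynomial.rename some (q0 x)) / M.toBlocks₁₁.det = fvec M x
      rw [h3]
      exact mul_div_cancel_left₀ _ hM'
  have hfib := π.fiber u hu P1 (fun z hzz => by
    rw [key z (π.M u z) (π.det u hu z hzz), hQ z hzz, mul_zero])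
  have hall : ∀ t ∈ ball π.s0 (10 * π.ρ), ∀ w : Idx g → ℂ, (Aof w).det ≠ 0 →
      MvPolynomial.eval (opt t w) Q = 0 := by
    intro t ht w hw
    obtain ⟨hs, hb, hf⟩ := HGP.cellb_proof g w (2 * Real.pi * Complex.I) hw
    have h1 := hfib t ht (mvec w (2 * Real.pi * Complex.I)) hs
    rw [key t _ (by rw [hb]; exact hw), hb, hf] at h1
    rcases mul_eq_zero.mp h1 with h | h
    · exact absurd h (pow_ne_zero _ hw)
    · exact h
  have hinf : (ball π.s0 (10 * π.ρ)).Infinite := by
    have h1 : (ball π.s0 (10 * π.ρ)).Nonempty :=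
      ⟨π.s0, mem_ball_self (by have := π.hρ; positivity)⟩
    exact infinite_of_mem_nhds π.s0 (ball_mem_nhds _ (by have := π.hρ; positivity))
  have hQD : Q * HGP.IND_.detp g = 0 := by
    refine MvPolynomial.funext_set (fun o : Option (Idx g) =>
      o.elim (ball π.s0 (10 * π.ρ)) (fun _ => Set.univ)) ?_ ?_
    · intro o
      cases o with
      | none => exact hinf
      | some x => exact Set.infinite_univ
    · intro x hx
      rw [map_mul, HGP.IND_.eval_detp, map_zero]
      by_cases hd : (Aof (fun p => x (some p))).det = 0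
      · rw [hd, mul_zero]
      · have hx0 : x none ∈ ball π.s0 (10 * π.ρ) := hx none (Set.mem_univ _)
        have h1 := hall (x none) hx0 (fun p => x (some p)) hd
        have h2 : opt (x none) (fun p => x (some p)) = x := by
          funext o
          cases o <;> rfl
        rw [h2] at h1
        rw [h1, zero_mul]
  rcases mul_eq_zero.mp hQD with h | h
  · exact h
  · exact absurd h (HGP.IND_.detp_ne_zero g)

end Pool.Agent.GPH.INDZ
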