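import Pool.Agent.GPH.VStmts
import Pool.Agent.HGP.HOMOG

/-!
# GPH LINS: linear substitutions in an integral polynomial, with bounds
-/

open scoped BigOperators Topology
open Metric Set
open Pool.Agent.HGP (Ix Simil Idx fvec opt)
open Pool.Agent.GPC (IsSmall Free)
open Pool.Agent.HGP.HOMOG_ (len coeff_le_len sum_le_totalDegree)

namespace Pool.Agent.GPH.LINS

noncomputable section

/-! ## The length of a polynomial -/

lemma len_eq {W : Type} (P : MvPolynomial W ℤ) {S : Finset (W →₀ ℕ)} (h : P.support ⊆ S) :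
    len P = ∑ n ∈ S, (P.coeff n).natAbs := by
  unfold len
  refine Finset.sum_subset h (fun n _ hn => ?_)
  have : P.coeff n = 0 := by simpa [MvPolynomial.mem_support_iff] using hn
  rw [this]
  rfl

lemma len_zero {W : Type} : len (0 : MvPolynomial W ℤ) = 0 := by
  simp [len]

lemma len_add {W : Type} (P Q : MvPolynomial W ℤ) : len (P + Q) ≤ len P + len Q := by
  classical
  rw [len_eq (P + Q) (MvPolynomial.support_add),
    len_eq P (S := P.support ∪ Q.support) Finset.subset_union_left,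
    len_eq Q (S := P.support ∪ Q.support) Finset.subset_union_right,
    ← Finset.sum_add_distrib]
  refine Finset.sum_le_sum (fun n _ => ?_)
  rw [MvPolynomial.coeff_add]
  exact Int.natAbs_add_le _ _

lemma len_sum {W ι : Type} (s : Finset ι) (f : ι → MvPolynomial W ℤ) :
    len (∑ i ∈ s, f i) ≤ ∑ i ∈ s, len (f i) := by
  classical
  induction s using Finset.induction_on with
  | empty => simp [len_zero]
  | insert a s ha ih =>
    rw [Finset.sum_insert ha, Finset.sum_insert ha]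
    exact (len_add _ _).trans (Nat.add_le_add_left ih _)

lemma len_monomial {W : Type} (m : W →₀ ℕ) (c : ℤ) :
    len (MvPolynomial.monomial m c) ≤ c.natAbs := by
  classical
  rw [len_eq _ (MvPolynomial.support_monomial_subset (s := m) (a := c))]
  simp

lemma len_mul {W : Type} (P Q : MvPolynomial W ℤ) : len (P * Q) ≤ len P * len Q := by
  classical
  have h : P * Q = ∑ m ∈ P.support, ∑ n ∈ Q.support,
      MvPolynomial.monomial (m + n) (P.coeff m * Q.coeff n) := by
    conv_lhs => rw [P.as_sum, Q.as_sum]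
    rw [Finset.sum_mul_sum]
    refine Finset.sum_congr rfl (fun m _ => Finset.sum_congr rfl (fun n _ => ?_))
    rw [MvPolynomial.monomial_mul]
  rw [h]
  refine (len_sum _ _).trans ?_
  unfold len
  rw [Finset.sum_mul_sum]
  refine Finset.sum_le_sum (fun m _ => ?_)
  refine (len_sum _ _).trans (Finset.sum_le_sum (fun n _ => ?_))
  refine (len_monomial _ _).trans ?_
  rw [Int.natAbs_mul]

lemma len_C {W : Type} (c : ℤ) : len (MvPolynomial.C c : MvPolynomial W ℤ) ≤ c.natAbs :=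
  len_monomial 0 c

lemma len_X {W : Type} (w : W) : len (MvPolynomial.X w : MvPolynomial W ℤ) ≤ 1 := by
  have := len_monomial (Finsupp.single w 1) (1 : ℤ)
  simpa [MvPolynomial.X] using this

lemma len_one {W : Type} : len (1 : MvPolynomial W ℤ) ≤ 1 := by
  simpa using len_C (W := W) 1

lemma len_pow {W : Type} (P : MvPolynomial W ℤ) (n : ℕ) : len (P ^ n) ≤ len P ^ n := by
  induction n with
  | zero => simpa using len_one (W := W)
  | succ n ih =>
    rw [pow_succ, pow_succ]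
    exact (len_mul _ _).trans (Nat.mul_le_mul_right _ ih)

lemma len_prod {W V : Type} (s : Finset V) (f : V → MvPolynomial W ℤ) :
    len (∏ v ∈ s, f v) ≤ ∏ v ∈ s, len (f v) := by
  classical
  induction s using Finset.induction_on with
  | empty => simpa using len_one (W := W)
  | insert a s ha ih =>
    rw [Finset.prod_insert ha, Finset.prod_insert ha]
    exact (len_mul _ _).trans (Nat.mul_le_mul_left _ ih)

/-! ## The substitution -/

section Sub

variable {V W : Type} [Fintype V]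

/-- The term of the monomial `m`. -/
def tm (q : V → MvPolynomial W ℤ) (N D : ℕ) (m : V →₀ ℕ) : MvPolynomial W ℤ :=
  MvPolynomial.C ((N : ℤ) ^ (D - ∑ v, m v)) * ∏ v, q v ^ m v

lemma tm_deg (q : V → MvPolynomial W ℤ) (hq : ∀ v, (q v).totalDegree ≤ 1) (N D : ℕ)
    (m : V →₀ ℕ) (hm : ∑ v, m v ≤ D) : (tm q N D m).totalDegree ≤ D := by
  unfold tm
  refine (MvPolynomial.totalDegree_mul _ _).trans ?_
  rw [MvPolynomial.totalDegree_C, zero_add]
  refine (MvPolynomial.totalDegree_finsetProd _ _).trans ?_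
  refine le_trans (Finset.sum_le_sum (fun v _ => ?_)) hm
  refine (MvPolynomial.totalDegree_pow _ _).trans ?_
  calc m v * (q v).totalDegree ≤ m v * 1 := Nat.mul_le_mul_left _ (hq v)
    _ = m v := mul_one _

lemma tm_len (q : V → MvPolynomial W ℤ) (L : ℕ) (hL : 1 ≤ L) (hq : ∀ v, len (q v) ≤ L) (N D : ℕ)
    (hN : 1 ≤ N) (m : V →₀ ℕ) (hm : ∑ v, m v ≤ D) : len (tm q N D m) ≤ N ^ D * L ^ D := by
  unfold tm
  refine (len_mul _ _).trans (Nat.mul_le_mul ?_ ?_)
  · refine (len_C _).trans ?_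
    rw [Int.natAbs_pow, Int.natAbs_natCast]
    exact Nat.pow_le_pow_right hN (Nat.sub_le _ _)
  · refine (len_prod _ _).trans ?_
    calc ∏ v, len (q v ^ m v) ≤ ∏ v, L ^ m v := by
          refine Finset.prod_le_prod' (fun v _ => ?_)
          exact (len_pow _ _).trans (Nat.pow_le_pow_left (hq v) _)
      _ = L ^ ∑ v, m v := Finset.prod_pow_eq_pow_sum _ _ _
      _ ≤ L ^ D := Nat.pow_le_pow_right hL hm

lemma tm_eval (q : V → MvPolynomial W ℤ) (N D : ℕ) (m : V →₀ ℕ) (hm : ∑ v, m v ≤ D)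
    (w : W → ℂ) (a : V → ℂ) (ha : ∀ v, MvPolynomial.aeval w (q v) = N * a v) :
    MvPolynomial.aeval w (tm q N D m) = (N : ℂ) ^ D * ∏ v, a v ^ m v := by
  unfold tm
  rw [map_mul, MvPolynomial.aeval_C, map_prod]
  simp only [map_pow, ha, mul_pow]
  rw [Finset.prod_mul_distrib, Finset.prod_pow_eq_pow_sum, ← mul_assoc]
  simp only [algebraMap_int_eq, eq_intCast, Int.cast_natCast]
  rw [← pow_add, Nat.sub_add_cancel hm]

/-- Substitution of `N` times the new variables. -/
lemma main (q : V → MvPolynomial W ℤ) (hq : ∀ v, (q v).totalDegree ≤ 1) (L : ℕ) (hL : 1 ≤ L)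
    (hlen : ∀ v, len (q v) ≤ L) (N D B : ℕ) (hN : 1 ≤ N) (P : MvPolynomial V ℤ)
    (hP : IsSmall P D B) (S : Finset (V →₀ ℕ)) (hmem : ∀ m : V →₀ ℕ, ∑ v, m v ≤ D → m ∈ S) :
    ∃ P' : MvPolynomial W ℤ, IsSmall P' D (S.card * (B * (N ^ D * L ^ D))) ∧
      ∀ (w : W → ℂ) (a : V → ℂ), (∀ v, MvPolynomial.aeval w (q v) = N * a v) →
        MvPolynomial.aeval w P' = (N : ℂ) ^ D * MvPolynomial.aeval a P := by
  classical
  obtain ⟨hD, hB⟩ := hP
  have hsum : ∀ m : V →₀ ℕ, P.coeff m ≠ 0 → ∑ v, m v ≤ D := by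
    intro m hm
    exact (sum_le_totalDegree P (MvPolynomial.mem_support_iff.2 hm)).trans hD
  refine ⟨∑ m ∈ S, MvPolynomial.C (P.coeff m) * tm q N D m, ⟨?_, ?_⟩, ?_⟩
  · refine MvPolynomial.totalDegree_finsetSum_le (fun m _ => ?_)
    by_cases hc : P.coeff m = 0
    · rw [hc]
      simp
    · refine (MvPolynomial.totalDegree_mul _ _).trans ?_
      rw [MvPolynomial.totalDegree_C, zero_add]
      exact tm_deg q hq N D m (hsum m hc)
  · intro n
    rw [MvPolynomial.coeff_sum]
    refine (Int.natAbs_sum_le _ _).trans ?_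
    rw [← smul_eq_mul]
    refine Finset.sum_le_card_nsmul _ _ _ (fun m _ => ?_)
    rw [MvPolynomial.coeff_C_mul, Int.natAbs_mul]
    by_cases hc : P.coeff m = 0
    · rw [hc]
      simp
    · exact Nat.mul_le_mul (hB m) ((coeff_le_len _ _).trans
        (tm_len q L hL hlen N D hN m (hsum m hc)))
  · intro w a ha
    rw [map_sum]
    have h1 : MvPolynomial.aeval a P = ∑ m ∈ S, ((P.coeff m : ℤ) : ℂ) * ∏ v, a v ^ m v := by
      rw [MvPolynomial.aeval_def, MvPolynomial.eval₂_eq']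
      refine Finset.sum_subset_zero_on_sdiff ?_ ?_ ?_
      · intro m hm
        exact hmem m ((sum_le_totalDegree P hm).trans hD)
      · intro m hm
        have : P.coeff m = 0 := by
          simpa [MvPolynomial.mem_support_iff] using (Finset.mem_sdiff.1 hm).2
        rw [this]
        simp
      · intro m _
        simp
    rw [h1, Finset.mul_sum]
    refine Finset.sum_congr rfl fun m _ => ?_
    rw [map_mul, MvPolynomial.aeval_C]
    by_cases hc : P.coeff m = 0
    · rw [hc]; simp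
    · rw [tm_eval q N D m (hsum m hc) w a ha]
      simp only [algebraMap_int_eq, eq_intCast]
      ring

end Sub

/-- The exponent of the scaling factor, made nonnegative. -/
def nn (E g : ℕ) : Ix g → ℕ
  | .inl j => E + (2 * (j : ℕ) + 1) - 2 * g
  | .inr j => E + 2 * g - (2 * (j : ℕ) + 1)

lemma nn_le (E g : ℕ) (h : 2 * g ≤ E) (k : Ix g) : nn E g k ≤ 2 * E := by
  rcases k with j | j
  · have := j.2
    simp only [nn]
    omega
  · have := j.2
    simp only [nn]
    omega

lemma scl_mul (E g N : ℕ) (hN : 0 < N) (h : 2 * g ≤ E) (k : Ix g) :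
    (N : ℂ) ^ E * scl g N k = (N : ℂ) ^ nn E g k := by
  have hN' : (N : ℂ) ≠ 0 := by exact_mod_cast hN.ne'
  rcases k with j | j
  · have := j.2
    simp only [nn, scl]
    rw [← zpow_natCast, ← zpow_natCast, ← zpow_add₀ hN']
    congr 1
    push_cast [Nat.cast_sub (show 2 * g ≤ E + (2 * (j : ℕ) + 1) by omega)]
    ring
  · have := j.2
    simp only [nn, scl]
    rw [← zpow_natCast, ← zpow_natCast, ← zpow_add₀ hN']
    congr 1
    push_cast [Nat.cast_sub (show (2 * (j : ℕ) + 1) ≤ E + 2 * g by omega)]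
    ring

/-- The substituted linear forms. -/
def qv {r m : ℕ} {g : Fin r → ℕ} (E N : ℕ) (K : ∀ i, Matrix (Ix (g i)) (Fin m) ℤ) :
    Option (Σ i : Fin r, Ix (g i) × Fin m) →
      MvPolynomial (Option (Σ i : Fin r, Ix (g i) × Ix (g i))) ℤ
  | none => MvPolynomial.C ((N : ℤ) ^ E) * MvPolynomial.X none
  | some p => ∑ c, MvPolynomial.C ((N : ℤ) ^ nn E (g p.1) p.2.1 * K p.1 c p.2.2) *
      MvPolynomial.X (some ⟨p.1, (p.2.1, c)⟩)

lemma deg_CX {W : Type} (c : ℤ) (w : W) :
    (MvPolynomial.C c * MvPolynomial.X w : MvPolynomial W ℤ).totalDegree ≤ 1 := by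
  refine (MvPolynomial.totalDegree_mul _ _).trans ?_
  rw [MvPolynomial.totalDegree_C, zero_add]
  exact (MvPolynomial.totalDegree_X _).le

lemma len_CX {W : Type} (c : ℤ) (w : W) :
    len (MvPolynomial.C c * MvPolynomial.X w : MvPolynomial W ℤ) ≤ c.natAbs := by
  refine (len_mul _ _).trans ?_
  calc len (MvPolynomial.C c : MvPolynomial W ℤ) * len (MvPolynomial.X w : MvPolynomial W ℤ)
      ≤ c.natAbs * 1 := Nat.mul_le_mul (len_C c) (len_X w)
    _ = c.natAbs := mul_one _

lemma qv_deg {r m : ℕ} {g : Fin r → ℕ} (E N : ℕ) (K : ∀ i, Matrix (Ix (g i)) (Fin m) ℤ)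
    (v : Option (Σ i : Fin r, Ix (g i) × Fin m)) : (qv E N K v).totalDegree ≤ 1 := by
  rcases v with _ | p
  · exact deg_CX _ _
  · exact MvPolynomial.totalDegree_finsetSum_le (fun c _ => deg_CX _ _)

lemma qv_len {r m : ℕ} {g : Fin r → ℕ} (E N Y : ℕ) (hN : 1 ≤ N) (hY : 1 ≤ Y)
    (hE : ∀ i, 2 * g i ≤ E) (K : ∀ i, Matrix (Ix (g i)) (Fin m) ℤ)
    (hK : ∀ i c j, (K i c j).natAbs ≤ Y)
    (v : Option (Σ i : Fin r, Ix (g i) × Fin m)) :
    len (qv E N K v) ≤ (E + 1) * (N ^ (2 * E) * Y) := by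
  rcases v with _ | p
  · refine (len_CX _ _).trans ?_
    rw [Int.natAbs_pow, Int.natAbs_natCast]
    calc N ^ E ≤ N ^ (2 * E) := Nat.pow_le_pow_right hN (by omega)
      _ = 1 * (N ^ (2 * E) * 1) := by ring
      _ ≤ (E + 1) * (N ^ (2 * E) * Y) :=
        Nat.mul_le_mul (by omega) (Nat.mul_le_mul_left _ hY)
  · refine (len_sum _ _).trans ?_
    refine (Finset.sum_le_card_nsmul _ _ (N ^ (2 * E) * Y) (fun c _ => ?_)).trans ?_
    · refine (len_CX _ _).trans ?_
      rw [Int.natAbs_mul, Int.natAbs_pow, Int.natAbs_natCast]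
      exact Nat.mul_le_mul (Nat.pow_le_pow_right hN (nn_le E _ (hE _) _)) (hK _ _ _)
    · rw [smul_eq_mul]
      refine Nat.mul_le_mul_right _ ?_
      have h1 := hE p.1
      rw [Finset.card_univ, Fintype.card_sum, Fintype.card_fin]
      omega

lemma qv_eval {r m : ℕ} {g : Fin r → ℕ} (E N : ℕ) (hN : 0 < N)
    (hE : ∀ i, 2 * g i ≤ E) (K : ∀ i, Matrix (Ix (g i)) (Fin m) ℤ)
    (lam : ℂ) (M : ∀ i, Matrix (Ix (g i)) (Ix (g i)) ℂ)
    (v : Option (Σ i : Fin r, Ix (g i) × Fin m)) :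
    MvPolynomial.aeval (HGP.tpt lam M) (qv E N K v) = ((N ^ E : ℕ) : ℂ) *
      tpt lam (fun i => Matrix.of fun k j =>
          scl (g i) N k * ∑ c, M i k c * (K i c j : ℂ)) v := by
  rcases v with _ | ⟨i, k, j⟩
  · simp [qv, HGP.tpt, tpt]
  · simp only [qv, tpt, Option.elim_some, Matrix.of_apply, map_sum, map_mul,
      MvPolynomial.aeval_X, HGP.tpt, eq_intCast]
    push_cast
    simp only [map_pow, map_natCast, map_intCast]
    rw [← mul_assoc, scl_mul E (g i) N hN (hE i) k, Finset.mul_sum]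
    refine Finset.sum_congr rfl (fun c _ => ?_)
    ring

theorem thm : Stmt_LinS := by
  classical
  intro r m g D A B
  set E : ℕ := ∑ i, 2 * g i with hEdef
  have hE : ∀ i, 2 * g i ≤ E := fun i =>
    Finset.single_le_sum (f := fun i => 2 * g i) (fun _ _ => Nat.zero_le _) (Finset.mem_univ i)
  set S : Finset (Option (Σ i : Fin r, Ix (g i) × Fin m) →₀ ℕ) :=
    Finset.Iic (Finsupp.equivFunOnFinite.symm (fun _ => D)) with hS
  have hmem : ∀ m : Option (Σ i : Fin r, Ix (g i) × Fin m) →₀ ℕ, ∑ v, m v ≤ D → m ∈ S := by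
    intro m hm
    rw [hS, Finset.mem_Iic]
    intro v
    simp only [Finsupp.equivFunOnFinite_symm_apply_apply]
    exact (Finset.single_le_sum (f := fun v => m v) (fun _ _ => Nat.zero_le _)
      (Finset.mem_univ v)).trans hm
  set s : ℕ := S.card with hs
  refine ⟨s + (A + (2 * E * D + (E + 1 + (4 * E + B)) * D)), ?_⟩
  intro X hX P hP K hK
  have hX1 : 1 ≤ X := by omega
  set N := Nx X with hN
  have hN1 : 1 ≤ N := by rw [hN]; unfold Nx; omega
  have hNX : N ≤ X ^ 2 := by
    rw [hN]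
    unfold Nx
    have := Nat.sqrt_le_self X
    nlinarith
  have hNE : 1 ≤ N ^ E := Nat.one_le_pow _ _ hN1
  obtain ⟨P', h1, h2⟩ := main (qv E N K) (qv_deg E N K) ((E + 1) * (N ^ (2 * E) * X ^ B))
    (by
      have h3 : 0 < N ^ (2 * E) * X ^ B := by positivity
      have h4 : 0 < (E + 1) * (N ^ (2 * E) * X ^ B) := by positivity
      exact h4)
    (qv_len E N (X ^ B) hN1 (Nat.one_le_pow _ _ hX1) hE K hK) (N ^ E) D (X ^ A) hNE P hP
    S hmem
  refine ⟨P', E * D, ⟨h1.1, fun n => (h1.2 n).trans ?_⟩, ?_⟩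
  · rw [pow_add, pow_add, pow_add]
    have hexp : ∀ a : ℕ, a ≤ X ^ a := fun a =>
      (Nat.lt_two_pow_self).le.trans (Nat.pow_le_pow_left hX a)
    refine Nat.mul_le_mul (hexp s) (Nat.mul_le_mul_left _ (Nat.mul_le_mul ?_ ?_))
    · calc (N ^ E) ^ D = N ^ (E * D) := (pow_mul _ _ _).symm
        _ ≤ (X ^ 2) ^ (E * D) := Nat.pow_le_pow_left hNX _
        _ = X ^ (2 * E * D) := by rw [← pow_mul, mul_assoc]
    · rw [pow_mul X]
      refine Nat.pow_le_pow_left ?_ _
      rw [pow_add X (E + 1), pow_add X (4 * E)]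
      refine Nat.mul_le_mul (hexp (E + 1)) (Nat.mul_le_mul_right _ ?_)
      calc N ^ (2 * E) ≤ (X ^ 2) ^ (2 * E) := Nat.pow_le_pow_left hNX _
        _ = X ^ (4 * E) := by rw [← pow_mul]; ring_nf
  · intro lam M
    rw [h2 (HGP.tpt lam M) _ (qv_eval E N hN1 hE K lam M)]
    push_cast
    rw [← pow_mul]

end

end Pool.Agent.GPH.LINS
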