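import Pool.Agent.GPH.VStmts

/-!
# GPH MZHOL: the period matrix depends continuously / holomorphically on the roots
-/

open scoped BigOperators Topology
open Metric Set MeasureTheory
open Pool.Agent.HGP (Ix csq)

namespace Pool.Agent.GPH.MZHOL

/-- Membership of the coefficients of the product in a subalgebra of functions. -/
lemma coeff_prod_mem {T : Type} (A : Subalgebra ℂ (T → ℂ)) (z : ℕ → T → ℂ)
    (hz : ∀ i, (fun q => z i q) ∈ A) : ∀ n k : ℕ,
    (fun q => (∏ i ∈ Finset.range n, (Polynomial.X - Polynomial.C (z i q))).coeff k) ∈ A := by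
  intro n
  induction n with
  | zero =>
    intro k
    simp only [Finset.range_zero, Finset.prod_empty, Polynomial.coeff_one]
    exact A.algebraMap_mem (if k = 0 then 1 else 0)
  | succ n ih =>
    intro k
    cases k with
    | zero =>
      have e : (fun q => (∏ i ∈ Finset.range (n + 1),
          (Polynomial.X - Polynomial.C (z i q))).coeff 0) =
          - ((fun q => (∏ i ∈ Finset.range n, (Polynomial.X - Polynomial.C (z i q))).coeff 0) *
            fun q => z n q) := by
        funext q
        rw [Finset.prod_range_succ, Polynomial.mul_coeff_zero]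
        simp
      rw [e]
      exact A.neg_mem (A.mul_mem (ih 0) (hz n))
    | succ k =>
      have e : (fun q => (∏ i ∈ Finset.range (n + 1),
          (Polynomial.X - Polynomial.C (z i q))).coeff (k + 1)) =
          (fun q => (∏ i ∈ Finset.range n, (Polynomial.X - Polynomial.C (z i q))).coeff k) -
          ((fun q => (∏ i ∈ Finset.range n,
            (Polynomial.X - Polynomial.C (z i q))).coeff (k + 1)) * fun q => z n q) := by
        funext q
        rw [Finset.prod_range_succ, Polynomial.coeff_mul_X_sub_C]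
        simp
      rw [e]
      exact A.sub_mem (ih k) (A.mul_mem (ih (k + 1)) (hz n))

lemma num_mem {T : Type} (A : Subalgebra ℂ (T → ℂ)) (g : ℕ) (f : T → Polynomial ℂ)
    (hf : ∀ n, (fun q => (f q).coeff n) ∈ A) (k : Ix g) (l : ℕ) :
    (fun q => (num g (f q) k).coeff l) ∈ A := by
  rcases k with j | j
  · show (fun _ : T => (Polynomial.X ^ (j : ℕ) : Polynomial ℂ).coeff l) ∈ A
    exact A.algebraMap_mem _
  · have e : (fun q => (num g (f q) (Sum.inr j)).coeff l) =
        ∑ n ∈ Finset.Ico (2 * (j : ℕ) + 3) (2 * g + 2),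
          (algebraMap ℂ (T → ℂ) ((((n : ℂ) - 2 * (j : ℕ) - 2) / 4) *
            (if l = n - 2 - (j : ℕ) then 1 else 0))) * (fun q => (f q).coeff n) := by
      funext q
      show (∑ n ∈ Finset.Ico (2 * (j : ℕ) + 3) (2 * g + 2),
        Polynomial.C (((n : ℂ) - 2 * (j : ℕ) - 2) / 4 * (f q).coeff n) *
          Polynomial.X ^ (n - 2 - (j : ℕ))).coeff l = _
      rw [Polynomial.finsetSum_coeff, Finset.sum_apply]
      refine Finset.sum_congr rfl fun n _ => ?_
      rw [Polynomial.coeff_C_mul_X_pow]
      simp only [Pi.mul_apply, Pi.algebraMap_apply, Algebra.algebraMap_self, RingHom.id_apply]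
      split_ifs <;> ring
    rw [e]
    exact A.sum_mem fun n _ => A.mul_mem (A.algebraMap_mem _) (hf n)

lemma Mz_mem {T : Type} (A : Subalgebra ℂ (T → ℂ)) (g : ℕ) (z : ℕ → T → ℂ)
    (hz : ∀ i, (fun q => z i q) ∈ A)
    (hE : ∀ m l : ℕ, m + 1 < 2 * g + 1 → (fun q => EE (2 * g + 1) (fun i => z i q) m l) ∈ A)
    (k c : Ix g) : (fun q => Mz g (fun i => z i q) k c) ∈ A := by
  have e : (fun q => Mz g (fun i => z i q) k c) = ∑ m : Fin (2 * g), ∑ l : Fin (2 * g),
      (fun q => (num g (polz g (fun i => z i q)) k).coeff (l : ℕ)) *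
        (algebraMap ℂ (T → ℂ) (2 * Complex.I ^ (m : ℕ)) *
          (fun q => EE (2 * g + 1) (fun i => z i q) m l)) *
        algebraMap ℂ (T → ℂ) (Tm g c m) := by
    funext q
    simp only [Mz, perM, Matrix.mul_apply, Nm, refP, Matrix.of_apply, Matrix.transpose_apply,
      Finset.sum_apply, Pi.mul_apply, Pi.algebraMap_apply, Algebra.algebraMap_self,
      RingHom.id_apply, Finset.sum_mul]
  rw [e]
  refine A.sum_mem fun m _ => A.sum_mem fun l _ => ?_
  refine A.mul_mem (A.mul_mem ?_ (A.mul_mem (A.algebraMap_mem _) (hE m l ?_)))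
    (A.algebraMap_mem _)
  · refine num_mem A g _ ?_ k l
    intro n
    exact coeff_prod_mem A z hz (2 * g + 1) n
  · have := m.2
    omega

/-- `EE` depends only on the first `N` roots. -/
lemma EE_ext {N : ℕ} {z z' : ℕ → ℂ} (h : ∀ i < N, z i = z' i) {m : ℕ} (hm : m + 1 < N) (l : ℕ) :
    EE N z m l = EE N z' m l := by
  have hmid : ∀ φ, mid z m φ = mid z' m φ := by
    intro φ
    unfold mid
    rw [h m (by omega), h (m + 1) hm]
  unfold EE
  refine intervalIntegral.integral_congr ?_
  intro φ _
  simp only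
  rw [hmid]
  congr 2
  · refine Finset.prod_congr rfl fun i hi => ?_
    rw [Finset.mem_range] at hi
    rw [h i (by omega)]
  · refine Finset.prod_congr rfl fun i hi => ?_
    rw [Finset.mem_Ico] at hi
    rw [h i hi.2]

lemma ext_eq {N : ℕ} {T : Type} (z : ℕ → T → ℂ) (q : T) : ∀ i < N,
    z i q = (fun i => if h : i < N then (fun j : Fin N => z j q) ⟨i, h⟩ else 0) i := by
  intro i hi
  simp only
  rw [dif_pos hi]

lemma ord_ext {N : ℕ} {κ : ℂ} {z z' : ℕ → ℂ} (h : ∀ i < N, z i = z' i) (ho : Ord N κ z) :
    Ord N κ z' := by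
  refine ⟨ho.1, fun i j hij hj => ?_⟩
  rw [← h i (by omega), ← h j hj]
  exact ho.2 i j hij hj

/-- The subalgebra of the functions which are continuous on `S`. -/
def contA {T : Type} [TopologicalSpace T] (S : Set T) : Subalgebra ℂ (T → ℂ) where
  carrier := {f | ContinuousOn f S}
  mul_mem' := fun hf hg => ContinuousOn.mul hf hg
  add_mem' := fun hf hg => ContinuousOn.add hf hg
  algebraMap_mem' := fun _ => continuousOn_const

/-- The subalgebra of the functions which are holomorphic on `V`. -/
def holA (V : Set ℂ) : Subalgebra ℂ (ℂ → ℂ) where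
  carrier := {f | DifferentiableOn ℂ f V}
  mul_mem' := fun hf hg => DifferentiableOn.mul hf hg
  add_mem' := fun hf hg => DifferentiableOn.add hf hg
  algebraMap_mem' := fun _ => differentiableOn_const _

theorem thm (hE : Stmt_EHol) : Stmt_MzHol := by
  intro g κ hg
  constructor
  · intro T _ S z hz ho
    refine continuousOn_pi.mpr fun k => continuousOn_pi.mpr fun c => ?_
    refine Mz_mem (contA S) g z hz ?_ k c
    intro m l hm
    show ContinuousOn (fun q => EE (2 * g + 1) (fun i => z i q) m l) S
    have h1 := (hE (2 * g + 1) κ m l hm).continuousOn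
    have h2 : ContinuousOn (fun q => (fun j : Fin (2 * g + 1) => z j q)) S :=
      continuousOn_pi.mpr fun j => hz j
    have h3 := h1.comp h2 (fun q hq => ord_ext (ext_eq z q) (ho q hq))
    refine h3.congr fun q _ => ?_
    exact EE_ext (ext_eq z q) hm l
  · intro V z _ hz ho k c
    refine Mz_mem (holA V) g z hz ?_ k c
    intro m l hm
    show DifferentiableOn ℂ (fun q => EE (2 * g + 1) (fun i => z i q) m l) V
    have h1 := hE (2 * g + 1) κ m l hm
    have h2 : DifferentiableOn ℂ (fun q => (fun j : Fin (2 * g + 1) => z j q)) V :=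
      differentiableOn_pi.mpr fun j => hz j
    have h3 := h1.comp h2 (fun q hq => ord_ext (ext_eq z q) (ho q hq))
    refine h3.congr fun q _ => ?_
    exact EE_ext (ext_eq z q) hm l

end Pool.Agent.GPH.MZHOL
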