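import Pool.Agent.GPH.VStmts2
import Pool.Agent.GPH.P2nz

/-!
# GPH, module P2W: the polynomial `x ^ (m + 1) - (m + 1) x` has distinct critical values
-/

namespace Pool.Agent.GPH.P2W

theorem thm : Stmt_P2w := by
  intro m _
  exact P2nz_.P2_c1 m

end Pool.Agent.GPH.P2W
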