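import Pool.Agent.GPH.VStmts

/-!
# GPH RIEMZ: Riemann's bilinear relations for closed paths
-/

open scoped BigOperators Topology
open Metric Set MeasureTheory
open Pool.Agent.HGP (Ix Simil)

namespace Pool.Agent.GPH.RIEMZ

lemma J_map (g : ℕ) : (Matrix.J (Fin g) ℤ).map (fun x : ℤ => (x : ℂ)) = Matrix.J (Fin g) ℂ := by
  unfold Matrix.J
  rw [Matrix.fromBlocks_map]
  congr 1
  · ext i j; simp
  · ext i j
    simp only [Matrix.map_apply, Matrix.neg_apply, Matrix.one_apply]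
    split_ifs <;> simp
  · ext i j
    simp only [Matrix.map_apply, Matrix.one_apply]
    split_ifs <;> simp
  · ext i j; simp

lemma key (hL : Stmt_LoopM) (hR : Stmt_RZ) (g : ℕ) (hg : 0 < g) (κ : ℂ) (z : ℕ → ℂ)
    (hz : Ord (2 * g + 1) κ z) (f : Polynomial ℂ) (hf : f = polz g z) (m : ℕ)
    (γ : Fin m → CPath f) :
    ∃ N : Matrix (Fin m) (Fin m) ℤ, (perMat g γ).transpose * Matrix.J (Fin g) ℂ * perMat g γ =
      (2 * Real.pi * Complex.I) • N.map (fun x : ℤ => (x : ℂ)) := by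
  subst hf
  choose K hK using fun j => hL g κ z hg hz (γ j)
  set KZ : Matrix (Ix g) (Fin m) ℤ := Matrix.of fun c j => K j c with hKZ
  have e1 : perMat g γ = Mz g z * KZ.map (fun x : ℤ => (x : ℂ)) := by
    ext k j
    rw [Matrix.mul_apply]
    show (γ j).per (num g (polz g z) k) = _
    rw [hK j k]
    rfl
  have e2 : (Mz g z).transpose * Matrix.J (Fin g) ℂ * Mz g z =
      (2 * Real.pi * Complex.I) • Matrix.J (Fin g) ℂ := hR g κ z hg hz
  refine ⟨KZ.transpose * Matrix.J (Fin g) ℤ * KZ, ?_⟩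
  have e3 : (KZ.transpose * Matrix.J (Fin g) ℤ * KZ).map (fun x : ℤ => (x : ℂ)) =
      (KZ.map (fun x : ℤ => (x : ℂ))).transpose * Matrix.J (Fin g) ℂ *
        KZ.map (fun x : ℤ => (x : ℂ)) := by
    have h1 := Matrix.map_mul (L := KZ.transpose * Matrix.J (Fin g) ℤ) (M := KZ)
      (f := Int.castRingHom ℂ)
    have h2 := Matrix.map_mul (L := KZ.transpose) (M := Matrix.J (Fin g) ℤ)
      (f := Int.castRingHom ℂ)
    have h3 : (Matrix.J (Fin g) ℤ).map (Int.castRingHom ℂ) = Matrix.J (Fin g) ℂ := J_map g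
    rw [h3] at h2
    rw [h2] at h1
    exact h1
  rw [e3, e1, Matrix.transpose_mul]
  calc (KZ.map (fun x : ℤ => (x : ℂ))).transpose * (Mz g z).transpose * Matrix.J (Fin g) ℂ *
        (Mz g z * KZ.map (fun x : ℤ => (x : ℂ)))
      = (KZ.map (fun x : ℤ => (x : ℂ))).transpose *
        ((Mz g z).transpose * Matrix.J (Fin g) ℂ * Mz g z) * KZ.map (fun x : ℤ => (x : ℂ)) := by
        simp only [Matrix.mul_assoc]
    _ = _ := by
        rw [e2, Matrix.mul_smul, Matrix.smul_mul]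

theorem thm (hRoots : Stmt_LocRoots) (hL : Stmt_LoopM) (hR : Stmt_RZ) : Stmt_RiemZ := by
  intro g hg c hc m γ
  have e0 : pol (2 * g + 1) c = fus g (Fin.tail c) (c 0) := by
    unfold fus
    congr 1
    exact (Fin.cons_self_tail c).symm
  rw [e0] at hc
  obtain ⟨δ, R, κ, z, hδ, hRp, _, _, h⟩ := hRoots g (Fin.tail c) (c 0) hc
  obtain ⟨ho, hp⟩ := h (Fin.tail c) (mem_closedBall_self hδ.le) (c 0) (mem_ball_self hRp)
  exact key hL hR g hg κ _ ho _ (e0.trans hp) m γ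

end Pool.Agent.GPH.RIEMZ
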