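import Pool.Agent.GPH.VStmts

/-!
# GPH SCALE: closed paths on the normalised curve
-/

open scoped BigOperators Topology
open Metric Set MeasureTheory
open Pool.Agent.HGP (Ix)

namespace Pool.Agent.GPH.SCALE

/-- Scaling of a closed path. -/
noncomputable def scp {f f' : Polynomial ℂ} (γ : CPath f) (α β : ℂ) (hβ : β ≠ 0)
    (h : ∀ x, f'.eval (x * α) = f.eval x * β ^ 2) : CPath f' where
  x := fun t => γ.x t * α
  y := fun t => γ.y t * β
  hx := γ.hx.mul contDiff_const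
  hy := γ.hy.mul continuous_const
  curve := fun t => by rw [mul_pow, γ.curve, h]
  ne := fun t => mul_ne_zero (γ.ne t) hβ
  closedx := by rw [γ.closedx]
  closedy := by rw [γ.closedy]

lemma scp_per {f f' : Polynomial ℂ} (γ : CPath f) (α β : ℂ) (hβ : β ≠ 0)
    (h : ∀ x, f'.eval (x * α) = f.eval x * β ^ 2) (p p' : Polynomial ℂ) (e : ℂ)
    (hp : ∀ x, p.eval x * β = e * (p'.eval (x * α) * α)) :
    γ.per p = e * (scp γ α β hβ h).per p' := by
  unfold CPath.per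
  rw [← intervalIntegral.integral_const_mul]
  refine intervalIntegral.integral_congr ?_
  intro t _
  have h1 : deriv (scp γ α β hβ h).x t = deriv γ.x t * α := by
    show deriv (fun t => γ.x t * α) t = _
    rw [deriv_mul_const_field]
  show p.eval (γ.x t) / γ.y t * deriv γ.x t =
    e * (p'.eval (γ.x t * α) / (γ.y t * β) * deriv (scp γ α β hβ h).x t)
  rw [h1]
  have hy := γ.ne t
  have h2 := hp (γ.x t)
  field_simp
  linear_combination (deriv γ.x t) * h2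

lemma cons_eq (g Y : ℕ) (c : Fin (2 * g + 1) → ℤ) (i : Fin (2 * g + 1)) :
    (Fin.cons ((sn g Y c : ℚ) : ℂ) (un g Y c) : Fin (2 * g + 1) → ℂ) i =
      (c i : ℂ) / (Y : ℂ) ^ (2 * g + 1 - (i : ℕ)) := by
  refine Fin.cases ?_ (fun j => ?_) i
  · rw [Fin.cons_zero]
    unfold sn
    push_cast
    simp
  · rw [Fin.cons_succ]
    unfold un
    congr 2
    have := j.2
    rw [Fin.val_succ]
    omega

lemma pol_coeff (n : ℕ) (c : Fin n → ℂ) (k : ℕ) :
    (pol n c).coeff k = if h : k < n then c ⟨k, h⟩ else if k = n then 1 else 0 := by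
  unfold pol
  rw [Polynomial.coeff_add, Polynomial.coeff_X_pow, Polynomial.finsetSum_coeff]
  simp only [Polynomial.coeff_C_mul_X_pow]
  by_cases h : k < n
  · rw [dif_pos h, if_neg (by omega), zero_add, Finset.sum_eq_single ⟨k, h⟩]
    · rw [if_pos rfl]
    · intro b _ hb
      rw [if_neg]
      intro hk
      exact hb (Fin.ext hk.symm)
    · intro h'
      exact absurd (Finset.mem_univ _) h'
  · rw [dif_neg h, Finset.sum_eq_zero, add_zero]
    intro b _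
    rw [if_neg]
    have := b.2
    omega

lemma coeff_scale (g N : ℕ) (hN : 0 < N) (c : Fin (2 * g + 1) → ℤ) (k : ℕ)
    (hk : k ≤ 2 * g + 1) :
    (fus g (un g (N ^ 2) c) ((sn g (N ^ 2) c : ℚ) : ℂ)).coeff k =
      (pol (2 * g + 1) (fun k => (c k : ℂ))).coeff k /
        (((N ^ 2 : ℕ) : ℂ)) ^ (2 * g + 1 - k) := by
  unfold fus
  rw [pol_coeff, pol_coeff]
  by_cases h : k < 2 * g + 1
  · rw [dif_pos h, dif_pos h, cons_eq]
  · have : k = 2 * g + 1 := by omega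
    subst this
    simp

lemma eval_scale (g N : ℕ) (hN : 0 < N) (c : Fin (2 * g + 1) → ℤ) (x : ℂ) :
    (fus g (un g (N ^ 2) c) ((sn g (N ^ 2) c : ℚ) : ℂ)).eval (x * ((N : ℂ) ^ 2)⁻¹) =
      (pol (2 * g + 1) (fun k => (c k : ℂ))).eval x * (((N : ℂ) ^ (2 * g + 1))⁻¹) ^ 2 := by
  have hN' : (N : ℂ) ≠ 0 := by exact_mod_cast hN.ne'
  unfold fus pol
  simp only [Polynomial.eval_add, Polynomial.eval_pow, Polynomial.eval_X,
    Polynomial.eval_finsetSum, Polynomial.eval_mul, Polynomial.eval_C]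
  rw [add_mul, Finset.sum_mul]
  congr 1
  · rw [mul_pow, ← inv_pow, ← inv_pow, ← pow_mul, ← pow_mul, mul_comm 2 (2 * g + 1)]
  · refine Finset.sum_congr rfl fun i _ => ?_
    rw [cons_eq, mul_pow]
    have hi : (i : ℕ) ≤ 2 * g + 1 := by have := i.2; omega
    have e : (N : ℂ) ^ (2 * (2 * g + 1)) =
        ((N : ℂ) ^ 2) ^ (2 * g + 1 - (i : ℕ)) * ((N : ℂ) ^ 2) ^ (i : ℕ) := by
      rw [← pow_add, ← pow_mul]
      congr 2
      omega
    have e2 : (((N : ℂ) ^ (2 * g + 1))⁻¹) ^ 2 =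
        ((((N : ℂ) ^ 2) ^ (2 * g + 1 - (i : ℕ))))⁻¹ * (((N : ℂ) ^ 2) ^ (i : ℕ))⁻¹ := by
      rw [← mul_inv, ← e, inv_pow, ← pow_mul, mul_comm (2 * g + 1) 2]
    rw [e2]
    push_cast
    rw [inv_pow]
    ring

theorem thm : Stmt_Scale := by
  intro g N c hg hN γ
  have hN' : (N : ℂ) ≠ 0 := by exact_mod_cast hN.ne'
  have hβ : ((N : ℂ) ^ (2 * g + 1))⁻¹ ≠ 0 := inv_ne_zero (pow_ne_zero _ hN')
  have hev := eval_scale g N hN c
  refine ⟨scp γ ((N : ℂ) ^ 2)⁻¹ ((N : ℂ) ^ (2 * g + 1))⁻¹ hβ hev, ?_⟩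
  intro k
  refine scp_per γ _ _ hβ hev _ _ _ ?_
  intro x
  rcases k with j | j
  · show (Polynomial.X ^ (j : ℕ) : Polynomial ℂ).eval x * ((N : ℂ) ^ (2 * g + 1))⁻¹ =
      (N : ℂ) ^ (2 * ((j : ℕ) : ℤ) + 1 - 2 * (g : ℤ)) *
        ((Polynomial.X ^ (j : ℕ) : Polynomial ℂ).eval (x * ((N : ℂ) ^ 2)⁻¹) * ((N : ℂ) ^ 2)⁻¹)
    simp only [Polynomial.eval_pow, Polynomial.eval_X]
    rw [mul_pow, inv_pow, ← pow_mul]
    have e : (N : ℂ) ^ (2 * ((j : ℕ) : ℤ) + 1 - 2 * (g : ℤ)) =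
        (N : ℂ) ^ (2 * (j : ℕ)) * (N : ℂ) ^ 2 * ((N : ℂ) ^ (2 * g + 1))⁻¹ := by
      rw [← zpow_natCast, ← zpow_natCast, ← zpow_natCast, ← zpow_neg, ← zpow_add₀ hN',
        ← zpow_add₀ hN']
      congr 1
      push_cast
      ring
    rw [e]
    field_simp
  · show (∑ n ∈ Finset.Ico (2 * (j : ℕ) + 3) (2 * g + 2),
        Polynomial.C (((n : ℂ) - 2 * (j : ℕ) - 2) / 4 *
          (pol (2 * g + 1) (fun k => (c k : ℂ))).coeff n) *
          Polynomial.X ^ (n - 2 - (j : ℕ))).eval x * ((N : ℂ) ^ (2 * g + 1))⁻¹ =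
      (N : ℂ) ^ (2 * (g : ℤ) - 2 * ((j : ℕ) : ℤ) - 1) *
        ((∑ n ∈ Finset.Ico (2 * (j : ℕ) + 3) (2 * g + 2),
        Polynomial.C (((n : ℂ) - 2 * (j : ℕ) - 2) / 4 *
          (fus g (un g (N ^ 2) c) ((sn g (N ^ 2) c : ℚ) : ℂ)).coeff n) *
          Polynomial.X ^ (n - 2 - (j : ℕ))).eval (x * ((N : ℂ) ^ 2)⁻¹) * ((N : ℂ) ^ 2)⁻¹)
    simp only [Polynomial.eval_finsetSum, Polynomial.eval_mul, Polynomial.eval_C,
      Polynomial.eval_pow, Polynomial.eval_X]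
    rw [Finset.sum_mul, Finset.sum_mul, Finset.mul_sum]
    refine Finset.sum_congr rfl fun n hn => ?_
    rw [Finset.mem_Ico] at hn
    rw [coeff_scale g N hN c n (by omega), mul_pow, inv_pow]
    have e : (N : ℂ) ^ (2 * (g : ℤ) - 2 * ((j : ℕ) : ℤ) - 1) =
        ((N : ℂ) ^ 2) ^ (2 * g + 1 - n) * ((N : ℂ) ^ 2) ^ (n - 2 - (j : ℕ)) * (N : ℂ) ^ 2 *
          ((N : ℂ) ^ (2 * g + 1))⁻¹ := by
      rw [← pow_mul, ← pow_mul, ← pow_add, ← pow_add, ← zpow_natCast, ← zpow_natCast,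
        ← zpow_neg, ← zpow_add₀ hN']
      congr 1
      have h1 : n ≤ 2 * g + 1 := by omega
      have h2 : 2 + (j : ℕ) ≤ n := by omega
      push_cast [Nat.cast_sub h1, Nat.sub_sub, Nat.cast_sub h2]
      ring
    rw [e]
    push_cast
    field_simp

end Pool.Agent.GPH.SCALE
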