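import Pool.Agent.GPC.SEQ
import Pool.Agent.GPH.IDefs

/-!
# GPH, module SEQU
-/

open scoped BigOperators Topology
open Metric

namespace Pool.Agent.GPH.SEQU

open Pool.Agent.GPC (IsSmall pt mono Free IsBad)
open Pool.Agent.GPC.SEQ

theorem thm (hUltra : Stmt_UltraU) (hKey : Stmt_KeyU) : Stmt_SeqU := by
  classical
  intro n N A Y _ _ z0 ρ κ s f 𝒜 hI hκ S
  obtain ⟨L, hL0, hL⟩ := exists_lip z0 ρ hI.pos s hI.ds
  obtain ⟨c2, hc2⟩ : ∃ c2 : ℝ, c2 = 1 / (4 * L + 4) := ⟨_, rfl⟩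
  have hc2pos : 0 < c2 := by rw [hc2]; positivity
  have hc2le : c2 ≤ 1 := by
    rw [hc2, div_le_one (by positivity)]
    linarith
  have hc2L : 2 * L * c2 < 1 := by
    rw [hc2, mul_one_div, div_lt_one (by positivity)]
    linarith
  obtain ⟨q, hq⟩ := exists_nat_ge (8 / κ)
  have hq8 : 8 ≤ (q : ℝ) * κ := by
    rwa [div_le_iff₀ hκ] at hq
  obtain ⟨a, b, β, 𝒮, Λ, hb, hab, hqb, hsup, hU⟩ := hUltra n N A Y z0 ρ κ s f 𝒜 S q
  obtain ⟨J, Z, H0, hK⟩ := hKey n N A Y z0 ρ κ s f hI hκ a b q β 𝒮 c2 hq8 hb hab hqb hc2pos hc2le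
  have hE : ∀ i, ∃ E : Finset ℂ, E.card ≤ Z ∧ (H0 ≤ S.H i →
      (∃ p : Fin a → Fin b, ((Λ i).submatrix id p).det ≠ 0) →
      ∀ (T : Finset ℚ) (z : ℚ → ℂ) (x : ℚ → Fin N → ℚ) (qq : ℚ → ℕ),
      (∀ r ∈ T, r.num.natAbs ≤ S.H i ∧ r.den ≤ S.H i ∧ z r ∈ closedBall z0 ρ ∧
        ‖z r - S.w i‖ ≤ (S.H i : ℝ) ^ (-κ) ∧ s (z r) = r ∧ (∀ ν, |x r ν| ≤ 1) ∧
        0 < qq r ∧ qq r ≤ S.H i ^ A ∧ (∀ ν, ∃ k : ℤ, (qq r : ℚ) * x r ν = k) ∧
        (∀ g, ∑ k, MvPolynomial.eval (pt (r : ℂ) (fun j => f j (S.y i) (z r))) (Λ i g k) *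
          ((mono (x r) (β k) : ℚ) : ℂ) = 0) ∧ ∀ e ∈ E, c2 / (S.H i : ℝ) ^ 2 ≤ ‖z r - e‖) →
      ∃ μ : Fin J → Fin b → ℂ, μ ≠ 0 ∧ ∀ r ∈ T,
        ∑ j, ∑ k, μ j k * ((r : ℂ) ^ (j : ℕ) * ((mono (x r) (β k) : ℚ) : ℂ)) = 0) := by
    intro i
    by_cases h1 : H0 ≤ S.H i
    · by_cases h2 : ∃ p : Fin a → Fin b, ((Λ i).submatrix id p).det ≠ 0
      · obtain ⟨E, hE1, hE2⟩ := hK (S.H i) h1 (S.y i) (Λ i) (hsup i) h2 (S.w i) (S.wmem i)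
        exact ⟨E, hE1, fun _ _ => hE2⟩
      · exact ⟨∅, by simp, fun _ h => absurd h h2⟩
    · exact ⟨∅, by simp, fun h => absurd h h1⟩
  choose E hEcard hEprop using hE
  -- the excluded points
  let Ex : ℕ → Finset ℚ := fun i =>
    (S.T i).filter fun r => ∃ e ∈ E i, ‖S.z i r - e‖ < c2 / (S.H i : ℝ) ^ 2
  have hExcard : ∀ i, (Ex i).card ≤ Z := by
    intro i
    refine le_trans ?_ (hEcard i)
    have hch : ∀ r ∈ Ex i, ∃ e ∈ E i, ‖S.z i r - e‖ < c2 / (S.H i : ℝ) ^ 2 := fun r hr =>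
      (Finset.mem_filter.1 hr).2
    choose! g hg1 hg2 using hch
    refine Finset.card_le_card_of_injOn g (fun r hr => hg1 r hr) ?_
    intro r hr r' hr' hgr
    by_contra hne
    have hrT : r ∈ S.T i := (Finset.mem_filter.1 hr).1
    have hrT' : r' ∈ S.T i := (Finset.mem_filter.1 hr').1
    have hsep := rat_sep (S.H i) r r' (S.den i r hrT) (S.den i r' hrT') hne
    have hHpos : (0 : ℝ) < (S.H i : ℝ) ^ 2 := by
      have : 0 < S.H i := lt_of_lt_of_le r.den_pos (S.den i r hrT)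
      positivity
    have h1 := hL (S.z i r') (S.zmem i r' hrT') (S.z i r) (S.zmem i r hrT)
    rw [S.sz i r hrT, S.sz i r' hrT'] at h1
    have h2 : ‖S.z i r - S.z i r'‖ ≤ 2 * (c2 / (S.H i : ℝ) ^ 2) := by
      have e1 := hg2 r hr
      have e2 := hg2 r' hr'
      rw [← hgr] at e2
      have e3 : S.z i r - S.z i r' = (S.z i r - g r) - (S.z i r' - g r) := by ring
      rw [e3]
      refine (norm_sub_le _ _).trans ?_
      linarith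
    have h3 : ‖((r : ℂ) - (r' : ℂ))‖ ≤ L * (2 * (c2 / (S.H i : ℝ) ^ 2)) :=
      h1.trans (mul_le_mul_of_nonneg_left h2 hL0)
    have h4 : ‖((r : ℂ) - (r' : ℂ))‖ * (S.H i : ℝ) ^ 2 ≤ 2 * L * c2 := by
      calc ‖((r : ℂ) - (r' : ℂ))‖ * (S.H i : ℝ) ^ 2
          ≤ L * (2 * (c2 / (S.H i : ℝ) ^ 2)) * (S.H i : ℝ) ^ 2 :=
            mul_le_mul_of_nonneg_right h3 hHpos.le
        _ = 2 * L * c2 := by
            have hne0 : (S.H i : ℝ) ^ 2 ≠ 0 := hHpos.ne'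
            calc L * (2 * (c2 / (S.H i : ℝ) ^ 2)) * (S.H i : ℝ) ^ 2
                = 2 * L * (c2 / (S.H i : ℝ) ^ 2 * (S.H i : ℝ) ^ 2) := by ring
              _ = 2 * L * c2 := by rw [div_mul_cancel₀ _ hne0]
    linarith
  obtain ⟨i, hi0, hp, hμ⟩ := hU J Z ((2 * H0 + 1) * (H0 + 1)) Ex hExcard
  have hH : H0 ≤ S.H i := by
    by_contra hlt
    push Not at hlt
    have h1 := card_rat (S.H i) (S.T i) (fun r hr => ⟨S.num i r hr, S.den i r hr⟩)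
    have h2 := S.card i
    have h3 : (2 * S.H i + 1) * (S.H i + 1) ≤ (2 * H0 + 1) * (H0 + 1) :=
      Nat.mul_le_mul (by omega) (by omega)
    omega
  let T' : Finset ℚ := (S.T i).filter fun r => r ∉ Ex i ∧
    ∀ g, ∑ k, MvPolynomial.eval (pt (r : ℂ) (fun j => f j (S.y i) (S.z i r))) (Λ i g k) *
      ((mono (S.x i r) (β k) : ℚ) : ℂ) = 0
  obtain ⟨μ, hμ0, hμT⟩ := hEprop i hH hp T' (S.z i) (S.x i) (S.q i) (by
    intro r hr
    have hr2 := Finset.mem_filter.1 hr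
    have hrT : r ∈ S.T i := hr2.1
    refine ⟨S.num i r hrT, S.den i r hrT, S.zmem i r hrT, S.znear i r hrT, S.sz i r hrT,
      S.xle i r hrT, S.qpos i r hrT, S.qle i r hrT, S.xq i r hrT, hr2.2.2, ?_⟩
    intro e he
    by_contra hlt
    push Not at hlt
    exact hr2.2.1 (Finset.mem_filter.2 ⟨hrT, e, he, hlt⟩))
  apply hμ0
  apply hμ
  intro r hr hrE hsys
  exact hμT r (Finset.mem_filter.2 ⟨hr, hrE, hsys⟩)

end Pool.Agent.GPH.SEQU
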