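import Pool.Agent.GPH.CIRCU
import Pool.Agent.GPH.KREPU
import Pool.Agent.GPH.KEYU
import Pool.Agent.GPH.ULTRAU
import Pool.Agent.GPH.SEQU
import Pool.Agent.GPH.LOCGU
import Pool.Agent.GPH.THMGU
import Pool.Agent.GPC.ALG
import Pool.Agent.GPC.ALGA
import Pool.Agent.GPC.Cram
import Pool.Agent.GPC.Grow
import Pool.Agent.GPC.ID
import Pool.Agent.GPC.INDDET
import Pool.Agent.GPC.LowDet
import Pool.Agent.GPC.MINOR
import Pool.Agent.GPC.RANKDET
import Pool.Agent.GPC.ULTF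

/-!
# GPH, part I: the uniform counting theorem
-/

namespace Pool.Agent.GPH

open Pool.Agent.GPC in
/-- The uniform counting theorem. -/
theorem thmGU : Stmt_ThmGU :=
  THMGU.thm (LOCGU.thm (SEQU.thm
    (ULTRAU.thm (ALG.thm ALGA.thm grow_proof MINOR.thm) ULTF.thm)
    (KEYU.thm (KREPU.thm CIRCU.thm cram_proof) (ID.thm RANKDET.thm) lowdet_proof INDDET.thm)))

end Pool.Agent.GPH
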