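import Pool.Agent.GPH.VStmts
import Pool.Agent.GPH.ThmGU
import Pool.Agent.HGP.STEP

/-!
# GPH, module STEPZ: the counting theorem for one curve, uniform in the parameters
-/

open scoped BigOperators Topology
open Metric Set
open Pool.Agent.HGP (Ix Simil Idx fvec opt)
open Pool.Agent.GPC (IsSmall Free)

namespace Pool.Agent.GPH.STEPZ

noncomputable section

lemma cont_fvec {g : ℕ} {T : Type} [TopologicalSpace T] {M : T → Matrix (Ix g) (Ix g) ℂ}
    (hM : Continuous M) (hdet : ∀ x, (M x).toBlocks₁₁.det ≠ 0) (i : Idx g) :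
    Continuous (fun x => fvec (M x) i) := by
  have h11 : Continuous (fun x => (M x).toBlocks₁₁) :=
    continuous_matrix fun i j => hM.matrix_elem (.inl i) (.inl j)
  have h12 : Continuous (fun x => (M x).toBlocks₁₂) :=
    continuous_matrix fun i j => hM.matrix_elem (.inl i) (.inr j)
  have h21 : Continuous (fun x => (M x).toBlocks₂₁) :=
    continuous_matrix fun i j => hM.matrix_elem (.inr i) (.inl j)
  have hinv : Continuous (fun x => (M x).toBlocks₁₁⁻¹) := by
    have h1 : (fun x => (M x).toBlocks₁₁⁻¹) =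
        fun x => ((M x).toBlocks₁₁.det)⁻¹ • (M x).toBlocks₁₁.adjugate := by
      funext x
      rw [Matrix.inv_def, Ring.inverse_eq_inv']
    rw [h1]
    exact ((h11.matrix_det).inv₀ hdet).smul h11.matrix_adjugate
  rcases i with p | q | q
  · exact h11.matrix_elem p.1 p.2
  · exact (h21.matrix_mul hinv).matrix_elem q.1.1 q.1.2
  · exact (hinv.matrix_mul h12).matrix_elem q.1.1 q.1.2

theorem thm (hInd : Stmt_IndZ) : Stmt_StepZ := by
  classical
  intro g hg π ε hε κ _ D A
  let e := Fintype.equivFin (Idx g)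
  have hcomp : CompactSpace (closedBall π.u0 π.δ) :=
    isCompact_iff_compactSpace.mp (isCompact_closedBall _ _)
  let f : Fin (Fintype.card (Idx g)) → closedBall π.u0 π.δ → ℂ → ℂ :=
    fun j y z => fvec (π.M y.1 z) (e.symm j)
  have hU : IndepU (Fintype.card (Idx g)) (closedBall π.u0 π.δ) π.s0 π.ρ (fun z => z) f := by
    refine ⟨π.hρ, differentiableOn_id, fun j => ?_, fun y => ?_⟩
    · rw [continuousOn_iff_continuous_domRestrict]
      refine cont_fvec (M := fun q : ((Set.univ : Set (closedBall π.u0 π.δ)) ×ˢ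
        ball π.s0 (10 * π.ρ) : Set (closedBall π.u0 π.δ × ℂ)) => π.M q.1.1.1 q.1.2)
        ?_ (fun q => π.det _ q.1.1.2 _ q.2.2) (e.symm j)
      refine π.cont.comp_continuous (f := fun q : ((Set.univ : Set (closedBall π.u0 π.δ)) ×ˢ
        ball π.s0 (10 * π.ρ) : Set (closedBall π.u0 π.δ × ℂ)) =>
          ((q.1.1 : Fin (2 * g) → ℂ), q.1.2)) (by fun_prop) ?_
      intro q
      exact ⟨q.1.1.2, q.2.2⟩
    · refine ⟨π.hρ, differentiableOn_id, fun j => ?_, fun Q hQ => ?_⟩
      · exact HGP.STEPX.diff_fvec (π.hol y.1 y.2) (π.det y.1 y.2) _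
      · have h1 := hInd g hg π y.1 y.2 (MvPolynomial.rename (Option.map e.symm) Q)
          (fun z hz => by
            rw [MvPolynomial.eval_rename]
            have h2 : opt z (fvec (π.M y.1 z)) ∘ Option.map e.symm =
                GPC.pt z (fun j => fvec (π.M y.1 z) (e.symm j)) := by
              funext o
              cases o <;> rfl
            rw [h2]
            exact hQ z hz)
        have hinj : Function.Injective (MvPolynomial.rename (R := ℂ) (Option.map e.symm)) :=
          MvPolynomial.rename_injective _ (Option.map_injective e.symm.injective)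
        exact hinj (by rw [h1, map_zero])
  obtain ⟨C, hC⟩ := thmGU _ κ (closedBall π.u0 π.δ) π.s0 π.ρ ε _ _ hU hε D A
  refine ⟨C, fun H hH c hc u hu T hT => ?_⟩
  refine hC H hH ⟨u, hu⟩ c hc T fun r hr => ?_
  obtain ⟨h1, h2, h3, h4⟩ := hT r hr
  refine ⟨h2, h3, ?_⟩
  unfold GPC.Free at h4
  push Not at h4
  obtain ⟨Q, hQs, hQ0, hQne⟩ := h4
  refine ⟨((r : ℚ) : ℂ), h1, by rw [← dist_eq_norm]; exact h1, rfl, MvPolynomial.rename
    ((Equiv.sumComm κ (Idx g)).trans (Equiv.sumCongr e (Equiv.refl κ))) Q, ?_,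
    HGP.STEPX.isSmall_rename _ hQs, ?_⟩
  · intro h0
    apply hQne
    have hinj := MvPolynomial.rename_injective (R := ℤ) _
      ((Equiv.sumComm κ (Idx g)).trans (Equiv.sumCongr e (Equiv.refl κ))).injective
    exact hinj (by rw [h0, map_zero])
  · rw [MvPolynomial.aeval_rename, ← hQ0]
    congr 2
    funext x
    rcases x with x | x
    · simp
    · simp [f]

end

end Pool.Agent.GPH.STEPZ
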