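import Pool.Agent.GPH.VStmts

/-!
# GPH, module SUBLEV: the values of a nonzero polynomial at most points of a fine grid are not
small
-/

open scoped BigOperators

namespace Pool.Agent.GPH.SUBLEV

noncomputable section

/-! ## One variable -/

theorem prod_lower (s : Multiset ℂ) (z : ℂ) (ρ : ℝ) (hρ : 0 ≤ ρ) (h : ∀ w ∈ s, ρ ≤ ‖z - w‖) :
    ρ ^ Multiset.card s ≤ ‖(s.map (fun w => z - w)).prod‖ := by
  induction s using Multiset.induction_on with
  | empty => simp
  | cons a s ih =>
    rw [Multiset.map_cons, Multiset.prod_cons, Multiset.card_cons, norm_mul, pow_succ']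
    exact mul_le_mul (h a (Multiset.mem_cons_self a s))
      (ih (fun w hw => h w (Multiset.mem_cons_of_mem hw))) (pow_nonneg hρ _) (norm_nonneg _)

theorem near_root (p : Polynomial ℝ) (x ρ : ℝ) (hρ : 0 ≤ ρ)
    (h : ∀ w ∈ (p.map Complex.ofRealHom).roots, ρ ≤ ‖(x : ℂ) - w‖) :
    |p.leadingCoeff| * ρ ^ p.natDegree ≤ |p.eval x| := by
  set P := p.map Complex.ofRealHom with hP
  have hs : P.Splits := IsAlgClosed.splits P
  have h1 : P = Polynomial.C P.leadingCoeff * (P.roots.map (fun a => Polynomial.X - Polynomial.C a)).prod :=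
    hs.eq_prod_roots
  have hinj : Function.Injective Complex.ofRealHom := Complex.ofRealHom.injective
  have hlc : P.leadingCoeff = ((p.leadingCoeff : ℝ) : ℂ) := Polynomial.leadingCoeff_map_of_injective hinj p
  have hdeg : P.natDegree = p.natDegree := Polynomial.natDegree_map_eq_of_injective hinj p
  have hcard : Multiset.card P.roots = p.natDegree := by
    rw [← hs.natDegree_eq_card_roots, hdeg]
  have hev : P.eval (x : ℂ) = ((p.eval x : ℝ) : ℂ) := by
    have := Polynomial.eval_map_apply Complex.ofRealHom x (p := p)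
    exact this
  have h2 : P.eval (x : ℂ) = P.leadingCoeff * (P.roots.map (fun a => (x : ℂ) - a)).prod := by
    conv_lhs => rw [h1]
    rw [Polynomial.eval_mul, Polynomial.eval_C, Polynomial.eval_multiset_prod, Multiset.map_map]
    congr 2
    apply Multiset.map_congr rfl
    intro a _
    simp
  have h3 : |p.eval x| = ‖P.eval (x : ℂ)‖ := by
    rw [hev, Complex.norm_real, Real.norm_eq_abs]
  rw [h3, h2, norm_mul, hlc, Complex.norm_real, Real.norm_eq_abs, ← hcard]
  exact mul_le_mul_of_nonneg_left (prod_lower _ _ _ hρ h) (abs_nonneg _)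

theorem count_near (t ρ : ℝ) (hρ : 0 ≤ ρ) (q : ℕ) (hq : 0 < q) (S : Finset ℤ)
    (hS : ∀ c ∈ S, |(c : ℝ) / q - t| ≤ ρ) : (S.card : ℝ) ≤ 2 * ρ * q + 1 := by
  have hq' : (0 : ℝ) < q := by exact_mod_cast hq
  have hsub : S ⊆ Finset.Icc ⌈(t - ρ) * q⌉ ⌊(t + ρ) * q⌋ := by
    intro c hc
    have h := abs_le.mp (hS c hc)
    rw [Finset.mem_Icc, Int.ceil_le, Int.le_floor]
    have h1 : t - ρ ≤ (c : ℝ) / q := by linarith [h.1]
    have h2 : (c : ℝ) / q ≤ t + ρ := by linarith [h.2]
    exact ⟨(le_div_iff₀ hq').mp h1, (div_le_iff₀ hq').mp h2⟩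
  have hc := Finset.card_le_card hsub
  rw [Int.card_Icc] at hc
  have h1 : ((⌊(t + ρ) * q⌋ + 1 - ⌈(t - ρ) * q⌉).toNat : ℝ) ≤ 2 * ρ * q + 1 := by
    rcases le_total 0 (⌊(t + ρ) * q⌋ + 1 - ⌈(t - ρ) * q⌉) with h | h
    · have h2 : ((⌊(t + ρ) * q⌋ + 1 - ⌈(t - ρ) * q⌉).toNat : ℝ) =
          ((⌊(t + ρ) * q⌋ + 1 - ⌈(t - ρ) * q⌉ : ℤ) : ℝ) := by
        have := Int.toNat_of_nonneg h
        exact_mod_cast this
      rw [h2]
      push_cast
      have h3 := Int.floor_le ((t + ρ) * q)
      have h4 := Int.le_ceil ((t - ρ) * q)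
      nlinarith
    · rw [Int.toNat_of_nonpos h]
      have : 0 ≤ 2 * ρ * q := by positivity
      simp only [Nat.cast_zero]
      linarith
  calc (S.card : ℝ) ≤ ((⌊(t + ρ) * q⌋ + 1 - ⌈(t - ρ) * q⌉).toNat : ℝ) := by exact_mod_cast hc
    _ ≤ _ := h1

theorem one_var (p : Polynomial ℝ) (δ1 ρ : ℝ) (_hδ : 0 < δ1) (hρ : 0 < ρ)
    (hp : δ1 ≤ |p.leadingCoeff|) (q : ℕ) (hq : 0 < q) (S : Finset ℤ)
    (hS : ∀ c ∈ S, |p.eval ((c : ℝ) / q)| < δ1 * ρ ^ p.natDegree) :
    (S.card : ℝ) ≤ p.natDegree * (2 * ρ * q + 1) := by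
  classical
  set P := p.map Complex.ofRealHom with hP
  have hinj : Function.Injective Complex.ofRealHom := Complex.ofRealHom.injective
  have hcov : S ⊆ P.roots.toFinset.biUnion
      (fun w => S.filter (fun c => |(c : ℝ) / q - w.re| ≤ ρ)) := by
    intro c hc
    have h1 := hS c hc
    have h2 : ∃ w ∈ P.roots, ‖(((c : ℝ) / q : ℝ) : ℂ) - w‖ < ρ := by
      by_contra hcon
      push Not at hcon
      have h3 := near_root p ((c : ℝ) / q) ρ hρ.le hcon
      have h4 : δ1 * ρ ^ p.natDegree ≤ |p.leadingCoeff| * ρ ^ p.natDegree :=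
        mul_le_mul_of_nonneg_right hp (by positivity)
      linarith
    obtain ⟨w, hw, hw2⟩ := h2
    rw [Finset.mem_biUnion]
    refine ⟨w, Multiset.mem_toFinset.mpr hw, ?_⟩
    rw [Finset.mem_filter]
    refine ⟨hc, ?_⟩
    have h5 : |((((c : ℝ) / q : ℝ) : ℂ) - w).re| ≤ ‖(((c : ℝ) / q : ℝ) : ℂ) - w‖ :=
      Complex.abs_re_le_norm _
    rw [Complex.sub_re, Complex.ofReal_re] at h5
    linarith
  have h1 : (S.card : ℝ) ≤ ∑ w ∈ P.roots.toFinset,
      ((S.filter (fun c : ℤ => |(c : ℝ) / q - w.re| ≤ ρ)).card : ℝ) := by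
    have := (Finset.card_le_card hcov).trans Finset.card_biUnion_le
    exact_mod_cast this
  have h2 : ∑ w ∈ P.roots.toFinset,
      ((S.filter (fun c : ℤ => |(c : ℝ) / q - w.re| ≤ ρ)).card : ℝ) ≤
      ∑ _w ∈ P.roots.toFinset, (2 * ρ * q + 1) := by
    apply Finset.sum_le_sum
    intro w _
    exact count_near w.re ρ hρ.le q hq _ (fun c hc => (Finset.mem_filter.mp hc).2)
  rw [Finset.sum_const, nsmul_eq_mul] at h2
  have h3 : (P.roots.toFinset.card : ℝ) ≤ p.natDegree := by
    have h4 : P.roots.toFinset.card ≤ Multiset.card P.roots := Multiset.toFinset_card_le _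
    have h5 : Multiset.card P.roots ≤ P.natDegree := Polynomial.card_roots' P
    have h6 : P.natDegree = p.natDegree := Polynomial.natDegree_map_eq_of_injective hinj p
    rw [h6] at h5
    exact_mod_cast h4.trans h5
  have h7 : (0 : ℝ) ≤ 2 * ρ * q + 1 := by positivity
  exact h1.trans (h2.trans (mul_le_mul_of_nonneg_right h3 h7))

/-! ## The box -/

/-- The box. -/
def bx {n : ℕ} (B : Fin n → ℕ) : Finset (Fin n → ℤ) :=
  Fintype.piFinset (fun i => Finset.Icc (-(B i : ℤ)) (B i : ℤ))

theorem mem_bx {n : ℕ} (B : Fin n → ℕ) (c : Fin n → ℤ) :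
    c ∈ bx B ↔ ∀ i, (c i).natAbs ≤ B i := by
  unfold bx
  rw [Fintype.mem_piFinset]
  apply forall_congr'
  intro i
  rw [Finset.mem_Icc]
  omega

theorem card_bx {n : ℕ} (B : Fin n → ℕ) : ((bx B).card : ℝ) = ∏ i, (2 * (B i : ℝ) + 1) := by
  unfold bx
  rw [Fintype.card_piFinset, Nat.cast_prod]
  apply Finset.prod_congr rfl
  intro i _
  rw [Int.card_Icc]
  have : ((B i : ℤ) + 1 - -(B i : ℤ)).toNat = 2 * B i + 1 := by omega
  rw [this]
  push_cast
  ring

/-- The bad set. -/
def bad {n : ℕ} (G : MvPolynomial (Fin n) ℝ) (δ : ℝ) (B q : Fin n → ℕ) : Finset (Fin n → ℤ) :=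
  by
    classical
    exact (bx B).filter (fun c => |MvPolynomial.eval (fun i => (c i : ℝ) / (q i : ℝ)) G| < δ)

theorem mem_bad {n : ℕ} (G : MvPolynomial (Fin n) ℝ) (δ : ℝ) (B q : Fin n → ℕ)
    (c : Fin n → ℤ) : c ∈ bad G δ B q ↔ (∀ i, (c i).natAbs ≤ B i) ∧
      |MvPolynomial.eval (fun i => (c i : ℝ) / (q i : ℝ)) G| < δ := by
  classical
  unfold bad
  rw [Finset.mem_filter, mem_bx]

theorem main : ∀ (n : ℕ) (G : MvPolynomial (Fin n) ℝ), G ≠ 0 → ∀ (L : ℕ) (η : ℝ),
    0 < η → ∃ (δ : ℝ) (X0 : ℕ), 0 < δ ∧ ∀ B q : Fin n → ℕ,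
    (∀ i, X0 ≤ B i ∧ 0 < B i ∧ B i ≤ q i ∧ q i ≤ L * B i) →
    ((bad G δ B q).card : ℝ) ≤ η * ∏ i, (2 * (B i : ℝ) + 1) := by
  classical
  intro n
  induction n with
  | zero =>
    intro G hG L η hη
    have h0 : ∃ x : Fin 0 → ℝ, MvPolynomial.eval x G ≠ 0 := by
      by_contra hcon
      push Not at hcon
      exact hG (MvPolynomial.funext (fun x => by rw [hcon x, map_zero]))
    obtain ⟨x, hx⟩ := h0
    refine ⟨|MvPolynomial.eval x G|, 0, abs_pos.mpr hx, ?_⟩
    intro B q _
    have h1 : bad G |MvPolynomial.eval x G| B q = ∅ := by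
      rw [Finset.eq_empty_iff_forall_notMem]
      intro c hc
      have h2 := ((mem_bad _ _ _ _ _).mp hc).2
      have h3 : (fun i => (c i : ℝ) / (q i : ℝ)) = x := Subsingleton.elim _ _
      rw [h3] at h2
      exact lt_irrefl _ h2
    rw [h1, Finset.card_empty, Nat.cast_zero]
    have : (0 : ℝ) ≤ ∏ i : Fin 0, (2 * (B i : ℝ) + 1) :=
      Finset.prod_nonneg (fun i _ => by positivity)
    positivity
  | succ n ih =>
    intro G hG L η hη
    set F := MvPolynomial.finSuccEquiv ℝ n G with hF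
    have hF0 : F ≠ 0 := by
      intro h
      exact hG ((MvPolynomial.finSuccEquiv ℝ n).injective (by rw [← hF, h, map_zero]))
    set d := F.natDegree with hd
    have hl : F.leadingCoeff ≠ 0 := Polynomial.leadingCoeff_ne_zero.mpr hF0
    obtain ⟨δ1, X1, hδ1, h1⟩ := ih F.leadingCoeff hl L (η / 2) (by positivity)
    set ρ : ℝ := η / (4 * ((d : ℝ) + 1) * ((L : ℝ) + 1)) with hρdef
    have hρ : 0 < ρ := by positivity
    refine ⟨δ1 * ρ ^ d, max X1 (⌈2 * (d : ℝ) / η⌉₊), by positivity, ?_⟩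
    intro B q hB
    have hB' : ∀ i : Fin n, X1 ≤ B i.succ ∧ 0 < B i.succ ∧ B i.succ ≤ q i.succ ∧
        q i.succ ≤ L * B i.succ := fun i =>
      ⟨(le_max_left _ _).trans (hB i.succ).1, (hB i.succ).2⟩
    have h2 := h1 (fun i => B i.succ) (fun i => q i.succ) hB'
    -- the fibres
    have hmaps : ∀ c ∈ bad G (δ1 * ρ ^ d) B q, Fin.tail c ∈ bx (fun i : Fin n => B i.succ) := by
      intro c hc
      rw [mem_bx]
      intro i
      exact ((mem_bad _ _ _ _ _).mp hc).1 i.succ
    have hsum := Finset.card_eq_sum_card_fiberwise hmaps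
    have hfib : ∀ c' ∈ bx (fun i : Fin n => B i.succ),
        (((bad G (δ1 * ρ ^ d) B q).filter (fun c => Fin.tail c = c')).card : ℝ) ≤
        (if c' ∈ bad F.leadingCoeff δ1 (fun i => B i.succ) (fun i => q i.succ) then
          (2 * (B 0 : ℝ) + 1) else 0) + η / 2 * (2 * (B 0 : ℝ) + 1) := by
      intro c' hc'
      -- the fibre injects into the values of `c 0`
      set S : Finset ℤ := ((bad G (δ1 * ρ ^ d) B q).filter (fun c => Fin.tail c = c')).image
        (fun c => c 0) with hS
      have hcardS : ((bad G (δ1 * ρ ^ d) B q).filter (fun c => Fin.tail c = c')).card = S.card := by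
        rw [hS, Finset.card_image_of_injOn]
        intro a ha b hb hab
        have ha' := (Finset.mem_filter.mp ha).2
        have hb' := (Finset.mem_filter.mp hb).2
        funext i
        refine Fin.cases ?_ (fun j => ?_) i
        · exact hab
        · have h3 := congrFun (ha'.trans hb'.symm) j
          exact h3
      rw [hcardS]
      have hB0 := hB 0
      have hBr : (0 : ℝ) < B 0 := by exact_mod_cast hB0.2.1
      by_cases hbad : c' ∈ bad F.leadingCoeff δ1 (fun i => B i.succ) (fun i => q i.succ)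
      · rw [if_pos hbad]
        have hsub : S ⊆ Finset.Icc (-(B 0 : ℤ)) (B 0 : ℤ) := by
          intro x hx
          rw [hS, Finset.mem_image] at hx
          obtain ⟨c, hc, rfl⟩ := hx
          have h3 := ((mem_bad _ _ _ _ _).mp (Finset.mem_filter.mp hc).1).1 0
          rw [Finset.mem_Icc]
          omega
        have h3 := Finset.card_le_card hsub
        rw [Int.card_Icc] at h3
        have h4 : ((B 0 : ℤ) + 1 - -(B 0 : ℤ)).toNat = 2 * B 0 + 1 := by omega
        rw [h4] at h3
        have h5 : (S.card : ℝ) ≤ 2 * (B 0 : ℝ) + 1 := by exact_mod_cast h3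
        have h6 : 0 ≤ η / 2 * (2 * (B 0 : ℝ) + 1) := by positivity
        linarith
      · rw [if_neg hbad, zero_add]
        -- the polynomial in one variable
        set ev : MvPolynomial (Fin n) ℝ →+* ℝ :=
          MvPolynomial.eval (fun i => (c' i : ℝ) / (q i.succ : ℝ)) with hev
        set p : Polynomial ℝ := F.map ev with hp
        have hlead : δ1 ≤ |ev F.leadingCoeff| := by
          by_contra hcon
          push Not at hcon
          apply hbad
          rw [mem_bad]
          refine ⟨(mem_bx _ _).mp hc', ?_⟩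
          exact hcon
        have hne : ev F.leadingCoeff ≠ 0 := by
          intro h
          rw [h, abs_zero] at hlead
          linarith
        have hdeg : p.natDegree = d := Polynomial.natDegree_map_of_leadingCoeff_ne_zero ev hne
        have hlc : p.leadingCoeff = ev F.leadingCoeff :=
          Polynomial.leadingCoeff_map_of_leadingCoeff_ne_zero ev hne
        have hq0 : 0 < q 0 := lt_of_lt_of_le hB0.2.1 hB0.2.2.1
        have h3 := one_var p δ1 ρ hδ1 hρ (by rw [hlc]; exact hlead) (q 0) hq0 S (by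
          intro x hx
          rw [hS, Finset.mem_image] at hx
          obtain ⟨c, hc, rfl⟩ := hx
          rw [hdeg]
          have h4 := ((mem_bad _ _ _ _ _).mp (Finset.mem_filter.mp hc).1).2
          have h5 := (Finset.mem_filter.mp hc).2
          have h6 : (fun i => (c i : ℝ) / (q i : ℝ)) =
              Fin.cons ((c 0 : ℝ) / (q 0 : ℝ)) (fun i : Fin n => (c' i : ℝ) / (q i.succ : ℝ)) := by
            funext i
            refine Fin.cases ?_ (fun j => ?_) i
            · rfl
            · rw [Fin.cons_succ, ← h5]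
              rfl
          rw [h6, MvPolynomial.eval_eq_eval_mv_eval'] at h4
          exact h4)
        rw [hdeg] at h3
        -- numerical estimate
        have hqL : (q 0 : ℝ) ≤ L * B 0 := by exact_mod_cast hB0.2.2.2
        have hLp : (0 : ℝ) ≤ L := Nat.cast_nonneg L
        have hdp : (0 : ℝ) ≤ d := Nat.cast_nonneg d
        have e1 : 2 * (d : ℝ) / η ≤ B 0 := by
          have h7 : ⌈2 * (d : ℝ) / η⌉₊ ≤ B 0 := (le_max_right _ _).trans hB0.1
          exact (Nat.le_ceil _).trans (by exact_mod_cast h7)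
        have e2 : 2 * (d : ℝ) ≤ B 0 * η := (div_le_iff₀ hη).mp e1
        have e3 : (d : ℝ) * (2 * ρ * q 0) ≤ η / 2 * B 0 := by
          have f1 : (d : ℝ) * (2 * ρ * q 0) ≤ (d : ℝ) * (2 * ρ * (L * B 0)) := by
            apply mul_le_mul_of_nonneg_left _ hdp
            apply mul_le_mul_of_nonneg_left hqL (by positivity)
          have f2 : (d : ℝ) * (2 * ρ * (L * B 0)) =
              (d / ((d : ℝ) + 1)) * (L / ((L : ℝ) + 1)) * (η / 2 * B 0) := by
            rw [hρdef]
            field_simp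
            ring
          have f3 : (d : ℝ) / ((d : ℝ) + 1) ≤ 1 := by
            rw [div_le_one (by positivity)]
            linarith
          have f4 : (L : ℝ) / ((L : ℝ) + 1) ≤ 1 := by
            rw [div_le_one (by positivity)]
            linarith
          have f5 : (d / ((d : ℝ) + 1)) * (L / ((L : ℝ) + 1)) ≤ 1 := by
            calc (d / ((d : ℝ) + 1)) * (L / ((L : ℝ) + 1)) ≤ 1 * 1 :=
                  mul_le_mul f3 f4 (by positivity) zero_le_one
              _ = 1 := one_mul 1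
          rw [f2] at f1
          calc (d : ℝ) * (2 * ρ * q 0) ≤ _ := f1
            _ ≤ 1 * (η / 2 * B 0) := mul_le_mul_of_nonneg_right f5 (by positivity)
            _ = η / 2 * B 0 := one_mul _
        have e4 : (d : ℝ) * (2 * ρ * q 0 + 1) = (d : ℝ) * (2 * ρ * q 0) + d := by ring
        rw [e4] at h3
        have e5 : (0 : ℝ) ≤ η / 2 := by positivity
        nlinarith
    have htot : ((bad G (δ1 * ρ ^ d) B q).card : ℝ) ≤
        ∑ c' ∈ bx (fun i : Fin n => B i.succ),
        ((if c' ∈ bad F.leadingCoeff δ1 (fun i => B i.succ) (fun i => q i.succ) then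
          (2 * (B 0 : ℝ) + 1) else 0) + η / 2 * (2 * (B 0 : ℝ) + 1)) := by
      rw [hsum, Nat.cast_sum]
      exact Finset.sum_le_sum hfib
    rw [Finset.sum_add_distrib, Finset.sum_const, nsmul_eq_mul, card_bx, ← Finset.sum_filter,
      Finset.sum_const, nsmul_eq_mul] at htot
    have hfilt : ((bx (fun i : Fin n => B i.succ)).filter (fun c' =>
        c' ∈ bad F.leadingCoeff δ1 (fun i => B i.succ) (fun i => q i.succ))).card ≤
        (bad F.leadingCoeff δ1 (fun i => B i.succ) (fun i => q i.succ)).card :=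
      Finset.card_le_card (fun c hc => (Finset.mem_filter.mp hc).2)
    have hfilt' : (((bx (fun i : Fin n => B i.succ)).filter (fun c' =>
        c' ∈ bad F.leadingCoeff δ1 (fun i => B i.succ) (fun i => q i.succ))).card : ℝ) ≤
        η / 2 * ∏ i : Fin n, (2 * (B i.succ : ℝ) + 1) := by
      refine le_trans ?_ h2
      exact_mod_cast hfilt
    rw [Fin.prod_univ_succ]
    have hP : (0 : ℝ) ≤ 2 * (B 0 : ℝ) + 1 := by positivity
    have h8 := mul_le_mul_of_nonneg_right hfilt' hP
    nlinarith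

theorem thm : Stmt_Sublev := by
  intro n G hG L η hη
  obtain ⟨δ, X0, hδ, h⟩ := main n G hG L η hη
  refine ⟨δ, X0, hδ, ?_⟩
  intro B q hB
  rw [Nat.subtype_card (bad G δ B q) (fun c => mem_bad G δ B q c)]
  exact h B q hB

end

end Pool.Agent.GPH.SUBLEV
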