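import Pool.Agent.GPH.VStmts
import Pool.Agent.HGP.TRANS
import Pool.Agent.HGP.CELLA
import Pool.Agent.HGP.CELLP
import Pool.Agent.HGP.HOMOG
import Pool.Agent.HGP.PATH
import Pool.Agent.HGP.GENB

/-!
# GPH, module TRANSM: relations on the torsor give relations between the coordinates
-/

open scoped BigOperators Topology
open MvPolynomial

namespace Pool.Agent.GPH.TRANSM

open Pool.Agent.HGP (Ix Simil Idx fvec mvec Aof opt)
open Pool.Agent.HGP.TRANS_
open Pool.Agent.GPC (IsSmall Free)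

noncomputable section

theorem thm : Stmt_TransM := by
  intro r g D A
  choose Δ q hΔq using fun i => HGP.cellp_proof (g i)
  obtain ⟨D1, C, hHom⟩ := HGP.homog_proof (VV g) (WW g) (qt Δ q) (Dt Δ) D
  refine ⟨D1, C + A, fun H hH2 P hPs hNT lam0 M0 hlam0 hM0 hdet0 hP0 => ?_⟩
  obtain ⟨lam, M, hlam, hM, hne⟩ := hNT
  obtain ⟨P1, hP1s, hP1⟩ := hHom (H ^ A) P hPs
  have key2 : ∀ (lam : ℂ) (M : ∀ i, Matrix (Ix (g i)) (Ix (g i)) ℂ), lam ≠ 0 →
      (∀ i, Simil lam (M i)) → (∀ i, (M i).toBlocks₁₁.det ≠ 0) → ∃ c : ℂ, c ≠ 0 ∧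
        aeval (opt lam (fun p : (Σ i : Fin r, Idx (g i)) => fvec (M p.1) p.2)) P1 =
          c * aeval (HGP.tpt lam M) P := by
    intro lam M hlam hM hdet
    set w : WW g → ℂ := opt lam (fun p : (Σ i : Fin r, Idx (g i)) => fvec (M p.1) p.2) with hw
    have hwi : ∀ i, (fun x => w (some ⟨i, x⟩)) = fvec (M i) := fun i => rfl
    have hwn : w none = lam := rfl
    obtain ⟨h1, h2⟩ := key Δ q hΔq w (fun i => by
      rw [hwi, (HGP.cella_proof (g i) (M i) lam hlam (hM i) (hdet i)).1]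
      exact hdet i)
    refine ⟨(aeval w (Dt Δ)) ^ D, pow_ne_zero _ h1, ?_⟩
    have h3 : (fun i => mvec (fun x => w (some ⟨i, x⟩)) (w none)) = M := by
      funext i
      rw [hwi, hwn]
      exact (HGP.cella_proof (g i) (M i) lam hlam (hM i) (hdet i)).2
    rw [hP1 w h1, h2, h3, hwn]
  intro hfree
  have hzero : P1 = 0 := by
    refine hfree P1 ⟨hP1s.1, fun m => (hP1s.2 m).trans ?_⟩ ?_
    · rw [pow_add]
      refine Nat.mul_le_mul_right _ ?_
      calc C ≤ 2 ^ C := Nat.lt_two_pow_self.le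
        _ ≤ H ^ C := Nat.pow_le_pow_left hH2 _
    · obtain ⟨c, _, hc⟩ := key2 lam0 M0 hlam0 hM0 hdet0
      rw [hP0, mul_zero] at hc
      exact hc
  obtain ⟨M', hM', hdet', hne'⟩ := big_cell (HGP.path_proof HGP.genb_proof) P lam M hlam hM hne
  obtain ⟨c, hc0, hc⟩ := key2 lam M' hlam hM' hdet'
  rw [hzero, map_zero] at hc
  exact (mul_ne_zero hc0 hne') hc.symm

end

end Pool.Agent.GPH.TRANSM
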