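import Pool.Agent.GPH.VStmts

/-!
# GPH, module TRANSZ: bad tuples have points which are not free
-/

open scoped BigOperators Topology
open Metric Set
open Pool.Agent.HGP (Ix Simil Idx fvec opt)
open Pool.Agent.GPC (IsSmall Free)

namespace Pool.Agent.GPH.TRANSZ

noncomputable section

lemma M_bound {g : ℕ} (π : Piece g) : ∃ C : ℕ, ∀ u ∈ closedBall π.u0 π.δ,
    ∀ s ∈ closedBall π.s0 π.ρ, ∀ k c, ‖π.M u s k c‖ ≤ C := by
  have hsub : closedBall π.u0 π.δ ×ˢ closedBall π.s0 π.ρ ⊆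
      closedBall π.u0 π.δ ×ˢ ball π.s0 (10 * π.ρ) :=
    Set.prod_mono subset_rfl (closedBall_subset_ball (by linarith [π.hρ]))
  have hc : IsCompact (closedBall π.u0 π.δ ×ˢ closedBall π.s0 π.ρ) :=
    (isCompact_closedBall _ _).prod (isCompact_closedBall _ _)
  have h1 : ∀ p : Ix g × Ix g, ∃ C : ℝ, ∀ q ∈ closedBall π.u0 π.δ ×ˢ closedBall π.s0 π.ρ,
      ‖π.M q.1 q.2 p.1 p.2‖ ≤ C := by
    intro p
    refine hc.exists_bound_of_continuousOn (f := fun q => π.M q.1 q.2 p.1 p.2) ?_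
    exact (Continuous.matrix_elem continuous_id p.1 p.2).comp_continuousOn (π.cont.mono hsub)
  choose C hC using h1
  refine ⟨∑ p, ⌈C p⌉₊, fun u hu s hs k c => ?_⟩
  have h2 := hC (k, c) (u, s) ⟨hu, hs⟩
  have h3 : C (k, c) ≤ (⌈C (k, c)⌉₊ : ℝ) := Nat.le_ceil _
  have h4 : ⌈C (k, c)⌉₊ ≤ ∑ p, ⌈C p⌉₊ :=
    Finset.single_le_sum (f := fun p => ⌈C p⌉₊) (fun _ _ => Nat.zero_le _)
      (Finset.mem_univ (k, c))
  exact (h2.trans h3).trans (by exact_mod_cast h4)

lemma J_inl {g : ℕ} (v : Ix g → ℂ) (i : Fin g) :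
    (Matrix.J (Fin g) ℂ).mulVec v (Sum.inl i) = - v (Sum.inr i) := by
  unfold Matrix.J
  rw [Matrix.fromBlocks_mulVec]
  simp [Matrix.neg_mulVec]

lemma J_inr {g : ℕ} (v : Ix g → ℂ) (i : Fin g) :
    (Matrix.J (Fin g) ℂ).mulVec v (Sum.inr i) = v (Sum.inl i) := by
  unfold Matrix.J
  rw [Matrix.fromBlocks_mulVec]
  simp

lemma J_norm {g : ℕ} (v : Ix g → ℂ) (V : ℝ) (hv : ∀ k, ‖v k‖ ≤ V) (k : Ix g) :
    ‖(Matrix.J (Fin g) ℂ).mulVec v k‖ ≤ V := by
  cases k with
  | inl i => rw [J_inl, norm_neg]; exact hv _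
  | inr i => rw [J_inr]; exact hv _

lemma K_bound {g : ℕ} (M : Matrix (Ix g) (Ix g) ℂ) (hM : Simil (2 * Real.pi * Complex.I) M)
    (C V : ℝ) (hC0 : 0 ≤ C) (hC : ∀ k c, ‖M k c‖ ≤ C) (v K : Ix g → ℂ)
    (hv : ∀ k, ‖v k‖ ≤ V) (hvK : ∀ k, v k = ∑ c, M k c * K c) (c : Ix g) :
    ‖K c‖ ≤ 2 * g * (C * V) := by
  have h1 : v = M.mulVec K := by funext k; exact hvK k
  have h2 : M.transpose.mulVec ((Matrix.J (Fin g) ℂ).mulVec v) =
      (2 * Real.pi * Complex.I : ℂ) • (Matrix.J (Fin g) ℂ).mulVec K := by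
    have hM' : M.transpose * Matrix.J (Fin g) ℂ * M =
      (2 * Real.pi * Complex.I : ℂ) • Matrix.J (Fin g) ℂ := hM
    rw [h1, Matrix.mulVec_mulVec, Matrix.mulVec_mulVec, hM', Matrix.smul_mulVec]
  have h3 : ∀ k, ‖(Matrix.J (Fin g) ℂ).mulVec K k‖ ≤ 2 * g * (C * V) := by
    intro k
    have h4 : ‖M.transpose.mulVec ((Matrix.J (Fin g) ℂ).mulVec v) k‖ ≤ 2 * g * (C * V) := by
      have h5 : M.transpose.mulVec ((Matrix.J (Fin g) ℂ).mulVec v) k =
          ∑ l, M l k * (Matrix.J (Fin g) ℂ).mulVec v l := rfl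
      rw [h5]
      calc ‖∑ l, M l k * (Matrix.J (Fin g) ℂ).mulVec v l‖
          ≤ ∑ l : Ix g, C * V := by
            refine norm_sum_le_of_le _ fun l _ => ?_
            rw [norm_mul]
            exact mul_le_mul (hC _ _) (J_norm v V hv l) (norm_nonneg _) hC0
        _ = 2 * g * (C * V) := by
            rw [Finset.sum_const, Finset.card_univ, nsmul_eq_mul]
            simp
            left; ring
    rw [h2, Pi.smul_apply, norm_smul] at h4
    have h6 : (1 : ℝ) ≤ ‖(2 * Real.pi * Complex.I : ℂ)‖ := by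
      rw [norm_mul, norm_mul, Complex.norm_I, Complex.norm_real, Real.norm_eq_abs,
        abs_of_pos Real.pi_pos]
      have := Real.pi_gt_three
      simp
      linarith
    calc ‖(Matrix.J (Fin g) ℂ).mulVec K k‖ = 1 * ‖(Matrix.J (Fin g) ℂ).mulVec K k‖ :=
          (one_mul _).symm
      _ ≤ ‖(2 * Real.pi * Complex.I : ℂ)‖ * ‖(Matrix.J (Fin g) ℂ).mulVec K k‖ :=
          mul_le_mul_of_nonneg_right h6 (norm_nonneg _)
      _ ≤ _ := h4
  cases c with
  | inl i => have h := h3 (Sum.inr i); rwa [J_inr] at h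
  | inr i => have h := h3 (Sum.inl i); rwa [J_inl, norm_neg] at h

lemma scl_norm (g N : ℕ) (hN : 0 < N) (k : Ix g) : 1 ≤ ‖scl g N k‖ * (N : ℝ) ^ (2 * g) := by
  have hN1 : (1 : ℝ) ≤ (N : ℝ) := by exact_mod_cast hN
  have hN0 : (N : ℝ) ≠ 0 := by positivity
  cases k with
  | inl j =>
    have h : ‖scl g N (Sum.inl j)‖ = (N : ℝ) ^ (2 * ((j : ℕ) : ℤ) + 1 - 2 * (g : ℤ)) := by
      unfold scl
      rw [norm_zpow, Complex.norm_natCast]
    rw [h, ← zpow_natCast, ← zpow_add₀ hN0]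
    refine one_le_zpow₀ hN1 ?_
    push_cast
    omega
  | inr j =>
    have h : ‖scl g N (Sum.inr j)‖ = (N : ℝ) ^ (2 * (g : ℤ) - 2 * ((j : ℕ) : ℤ) - 1) := by
      unfold scl
      rw [norm_zpow, Complex.norm_natCast]
    rw [h, ← zpow_natCast, ← zpow_add₀ hN0]
    refine one_le_zpow₀ hN1 ?_
    push_cast
    have := j.2
    omega

lemma scl_ne (g N : ℕ) (hN : 0 < N) (k : Ix g) : scl g N k ≠ 0 := by
  intro h
  have := scl_norm g N hN k
  rw [h] at this
  simp at this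
  linarith

lemma scl_mul (g N : ℕ) (hN : 0 < N) (j : Fin g) :
    scl g N (Sum.inl j) * scl g N (Sum.inr j) = 1 := by
  have hN0 : (N : ℂ) ≠ 0 := by exact_mod_cast hN.ne'
  unfold scl
  rw [← zpow_add₀ hN0]
  have : 2 * ((j : ℕ) : ℤ) + 1 - 2 * (g : ℤ) + (2 * (g : ℤ) - 2 * ((j : ℕ) : ℤ) - 1) = 0 := by
    ring
  rw [this, zpow_zero]

/-- the scaling is symplectic -/
lemma S_simil (g N : ℕ) (hN : 0 < N) :
    Simil 1 (Matrix.diagonal (scl g N)) := by
  show (Matrix.diagonal (scl g N)).transpose * Matrix.J (Fin g) ℂ *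
    Matrix.diagonal (scl g N) = (1 : ℂ) • Matrix.J (Fin g) ℂ
  rw [Matrix.diagonal_transpose, one_smul]
  ext a b
  rw [Matrix.mul_diagonal, Matrix.diagonal_mul]
  unfold Matrix.J
  rcases a with i | i <;> rcases b with j | j
  · simp
  · simp only [Matrix.fromBlocks_apply₁₂, Matrix.neg_apply, Matrix.one_apply]
    by_cases h : i = j
    · subst h
      simp only [if_true]
      linear_combination (-1 : ℂ) * scl_mul g N hN i
    · simp [h]
  · simp only [Matrix.fromBlocks_apply₂₁, Matrix.one_apply]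
    by_cases h : i = j
    · subst h
      simp only [if_true]
      linear_combination scl_mul g N hN i
    · simp [h]
  · simp

lemma simil_mul {g : ℕ} {a b : ℂ} {M N : Matrix (Ix g) (Ix g) ℂ} (hM : Simil a M)
    (hN : Simil b N) : Simil (a * b) (M * N) := by
  have hM' : M.transpose * Matrix.J (Fin g) ℂ * M = a • Matrix.J (Fin g) ℂ := hM
  have hN' : N.transpose * Matrix.J (Fin g) ℂ * N = b • Matrix.J (Fin g) ℂ := hN
  show (M * N).transpose * Matrix.J (Fin g) ℂ * (M * N) = (a * b) • Matrix.J (Fin g) ℂ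
  calc (M * N).transpose * Matrix.J (Fin g) ℂ * (M * N)
      = N.transpose * (M.transpose * Matrix.J (Fin g) ℂ * M) * N := by
        rw [Matrix.transpose_mul]; simp only [Matrix.mul_assoc]
    _ = _ := by
        rw [hM', Matrix.mul_smul, Matrix.smul_mul, hN', smul_smul]

lemma Sinv_simil (g N : ℕ) (hN : 0 < N) :
    Simil 1 (Matrix.diagonal (fun k => (scl g N k)⁻¹)) := by
  show (Matrix.diagonal (fun k => (scl g N k)⁻¹)).transpose * Matrix.J (Fin g) ℂ *
    Matrix.diagonal (fun k => (scl g N k)⁻¹) = (1 : ℂ) • Matrix.J (Fin g) ℂ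
  have h := S_simil g N hN
  have h' : (Matrix.diagonal (scl g N)).transpose * Matrix.J (Fin g) ℂ *
    Matrix.diagonal (scl g N) = (1 : ℂ) • Matrix.J (Fin g) ℂ := h
  rw [Matrix.diagonal_transpose, one_smul] at h'
  rw [Matrix.diagonal_transpose, one_smul]
  have e1 : Matrix.diagonal (fun k => (scl g N k)⁻¹) * Matrix.diagonal (scl g N) = 1 := by
    rw [Matrix.diagonal_mul_diagonal, ← Matrix.diagonal_one]
    congr 1
    funext k
    exact inv_mul_cancel₀ (scl_ne g N hN k)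
  have e2 : Matrix.diagonal (scl g N) * Matrix.diagonal (fun k => (scl g N k)⁻¹) = 1 := by
    rw [Matrix.diagonal_mul_diagonal, ← Matrix.diagonal_one]
    congr 1
    funext k
    exact mul_inv_cancel₀ (scl_ne g N hN k)
  calc Matrix.diagonal (fun k => (scl g N k)⁻¹) * Matrix.J (Fin g) ℂ *
        Matrix.diagonal (fun k => (scl g N k)⁻¹)
      = Matrix.diagonal (fun k => (scl g N k)⁻¹) * (Matrix.diagonal (scl g N) *
          Matrix.J (Fin g) ℂ * Matrix.diagonal (scl g N)) *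
        Matrix.diagonal (fun k => (scl g N k)⁻¹) := by rw [h']
    _ = (Matrix.diagonal (fun k => (scl g N k)⁻¹) * Matrix.diagonal (scl g N)) *
          Matrix.J (Fin g) ℂ * (Matrix.diagonal (scl g N) *
        Matrix.diagonal (fun k => (scl g N k)⁻¹)) := by simp only [Matrix.mul_assoc]
    _ = _ := by rw [e1, e2, Matrix.one_mul, Matrix.mul_one]

lemma Nx_le (X : ℕ) (hX : 2 ≤ X) : Nx X ≤ X := by
  unfold Nx
  have h1 : Nat.sqrt X < X := Nat.sqrt_lt_self (by omega)
  omega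

theorem thm (hLin : Stmt_LinS) (hScale : Stmt_Scale) (hTransM : Stmt_TransM) :
    Stmt_TransZ := by
  intro r g hg π m D A B
  choose C hC using fun i => M_bound (π i)
  obtain ⟨A2, hA2⟩ := hLin r m g D A (2 * (∑ i, g i) * (∑ i, C i) + 2 * (∑ i, g i) + B)
  obtain ⟨D1, A1, hT⟩ := hTransM r g D A2
  refine ⟨D1, A1, fun X hX c hc hbad => ?_⟩
  obtain ⟨γ, hγ, P, hPs, hP0, mu, h, hmu, hh, hne⟩ := hbad
  have hN : 0 < Nx X := Nat.succ_pos _
  have hNX : Nx X ≤ X := Nx_le X hX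
  choose γ' hγ' using fun i j => hScale (g i) (Nx X) (c i) (hg i) hN (γ i j)
  have hu : ∀ i, un (g i) (Nx X ^ 2) (c i) ∈ closedBall (π i).u0 (π i).δ := fun i => (hc i).2.1
  have hs : ∀ i, ((sn (g i) (Nx X ^ 2) (c i) : ℚ) : ℂ) ∈ closedBall (π i).s0 (π i).ρ :=
    fun i => (hc i).2.2
  have hs' : ∀ i, ((sn (g i) (Nx X ^ 2) (c i) : ℚ) : ℂ) ∈ ball (π i).s0 (10 * (π i).ρ) :=
    fun i => closedBall_subset_ball (by linarith [(π i).hρ]) (hs i)
  choose K hK using fun i j => (π i).loops _ (hu i) _ (hs' i) (γ' i j)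
  let M : ∀ i, Matrix (Ix (g i)) (Ix (g i)) ℂ := fun i =>
    (π i).M (un (g i) (Nx X ^ 2) (c i)) ((sn (g i) (Nx X ^ 2) (c i) : ℚ) : ℂ)
  have hMs : ∀ i, Simil (2 * Real.pi * Complex.I) (M i) := fun i =>
    (π i).simil _ (hu i) _ (hs' i)
  have hMd : ∀ i, (M i).toBlocks₁₁.det ≠ 0 := fun i => (π i).det _ (hu i) _ (hs' i)
  have hX1 : (1 : ℝ) ≤ (X : ℝ) := by exact_mod_cast (by omega : 1 ≤ X)
  -- the bound for the integral matrices
  have hKb : ∀ i (j : Fin m) (a : Ix (g i)), (K i j a).natAbs ≤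
      X ^ (2 * (∑ i, g i) * (∑ i, C i) + 2 * (∑ i, g i) + B) := by
    intro i j a
    have hv : ∀ k, ‖(γ' i j).per (num (g i) (fus (g i) (un (g i) (Nx X ^ 2) (c i))
        ((sn (g i) (Nx X ^ 2) (c i) : ℚ) : ℂ)) k)‖ ≤ (X : ℝ) ^ (2 * g i) * (X : ℝ) ^ B := by
      intro k
      set v := (γ' i j).per (num (g i) (fus (g i) (un (g i) (Nx X ^ 2) (c i))
        ((sn (g i) (Nx X ^ 2) (c i) : ℚ) : ℂ)) k) with hv
      have h1 : ‖scl (g i) (Nx X) k‖ * ‖v‖ ≤ (X : ℝ) ^ B := by
        rw [← norm_mul, ← hγ' i j k]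
        have := hγ i j k
        push_cast at this
        exact this
      calc ‖v‖ = 1 * ‖v‖ := (one_mul _).symm
        _ ≤ (‖scl (g i) (Nx X) k‖ * (Nx X : ℝ) ^ (2 * g i)) * ‖v‖ :=
            mul_le_mul_of_nonneg_right (scl_norm (g i) (Nx X) hN k) (norm_nonneg _)
        _ = (Nx X : ℝ) ^ (2 * g i) * (‖scl (g i) (Nx X) k‖ * ‖v‖) := by ring
        _ ≤ (X : ℝ) ^ (2 * g i) * (X : ℝ) ^ B := by
            refine mul_le_mul ?_ h1 (by positivity) (by positivity)
            exact pow_le_pow_left₀ (by positivity) (by exact_mod_cast hNX) _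
    have h2 := K_bound (M i) (hMs i) (C i) ((X : ℝ) ^ (2 * g i) * (X : ℝ) ^ B) (by positivity)
      (fun k c' => hC i _ (hu i) _ (hs i) k c') _ (fun a => ((K i j a : ℤ) : ℂ)) hv
      (fun k => hK i j k) a
    have h3 : ‖((K i j a : ℤ) : ℂ)‖ = ((K i j a).natAbs : ℝ) := by
      rw [Complex.norm_intCast, ← Int.cast_abs, Int.abs_eq_natAbs]
      simp
    rw [h3] at h2
    have hgG : g i ≤ ∑ i, g i := Finset.single_le_sum (fun _ _ => Nat.zero_le _)
      (Finset.mem_univ i)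
    have hCC : C i ≤ ∑ i, C i := Finset.single_le_sum (fun _ _ => Nat.zero_le _)
      (Finset.mem_univ i)
    have h4 : (K i j a).natAbs ≤ 2 * g i * (C i * (X ^ (2 * g i) * X ^ B)) := by
      exact_mod_cast h2
    calc (K i j a).natAbs ≤ 2 * g i * (C i * (X ^ (2 * g i) * X ^ B)) := h4
      _ = (2 * g i * C i) * X ^ (2 * g i) * X ^ B := by ring
      _ ≤ X ^ (2 * (∑ i, g i) * (∑ i, C i)) * X ^ (2 * (∑ i, g i)) * X ^ B := by
          refine Nat.mul_le_mul_right _ (Nat.mul_le_mul ?_ ?_)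
          · calc 2 * g i * C i ≤ 2 * (∑ i, g i) * (∑ i, C i) :=
                Nat.mul_le_mul (Nat.mul_le_mul_left _ hgG) hCC
              _ ≤ 2 ^ (2 * (∑ i, g i) * (∑ i, C i)) := Nat.lt_two_pow_self.le
              _ ≤ _ := Nat.pow_le_pow_left hX _
          · exact Nat.pow_le_pow_right (by omega) (by omega)
      _ = _ := by rw [pow_add, pow_add]
  obtain ⟨P', e, hP's, hP'⟩ := hA2 X hX P hPs (fun i => Matrix.of fun a j => K i j a)
    (fun i a j => hKb i j a)
  -- the period matrices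
  have hper : ∀ i, perMat (g i) (γ i) = Matrix.of fun k j =>
      scl (g i) (Nx X) k * ∑ a, M i k a * ((K i j a : ℤ) : ℂ) := by
    intro i
    ext k j
    show (γ i j).per _ = _
    rw [hγ' i j k, hK i j k]
    rfl
  have hne0 : (2 * Real.pi * Complex.I : ℂ) ≠ 0 := by
    simp [Real.pi_ne_zero]
  have hzero : MvPolynomial.aeval (HGP.tpt (2 * Real.pi * Complex.I) M) P' = 0 := by
    rw [hP']
    have : (fun i => Matrix.of fun k j => scl (g i) (Nx X) k *
        ∑ a, M i k a * (((Matrix.of fun a j => K i j a : Matrix (Ix (g i)) (Fin m) ℤ) a j : ℤ) :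
          ℂ)) = fun i => perMat (g i) (γ i) := by
      funext i
      rw [hper i]
      rfl
    rw [this, hP0, mul_zero]
  have hnt : HGP.NonTrivial P' := by
    refine ⟨mu * (2 * Real.pi * Complex.I), fun i =>
      Matrix.diagonal (fun k => (scl (g i) (Nx X) k)⁻¹) * (h i *
        (Matrix.diagonal (scl (g i) (Nx X)) * M i)), mul_ne_zero hmu hne0, fun i => ?_, ?_⟩
    · have := simil_mul (Sinv_simil (g i) (Nx X) hN) (simil_mul (hh i)
        (simil_mul (S_simil (g i) (Nx X) hN) (hMs i)))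
      rwa [one_mul, one_mul] at this
    · rw [hP']
      refine mul_ne_zero (pow_ne_zero _ (by exact_mod_cast hN.ne')) ?_
      have : (fun i => Matrix.of fun k j => scl (g i) (Nx X) k *
          ∑ a, (Matrix.diagonal (fun k => (scl (g i) (Nx X) k)⁻¹) * (h i *
            (Matrix.diagonal (scl (g i) (Nx X)) * M i))) k a *
          (((Matrix.of fun a j => K i j a : Matrix (Ix (g i)) (Fin m) ℤ) a j : ℤ) : ℂ)) =
          fun i => h i * perMat (g i) (γ i) := by
        funext i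
        have e1 : perMat (g i) (γ i) = Matrix.diagonal (scl (g i) (Nx X)) * (M i *
            (Matrix.of fun a j => ((K i j a : ℤ) : ℂ))) := by
          rw [hper i]
          ext k j
          rw [Matrix.diagonal_mul]
          rfl
        have e2 : (Matrix.of fun k j => scl (g i) (Nx X) k *
          ∑ a, (Matrix.diagonal (fun k => (scl (g i) (Nx X) k)⁻¹) * (h i *
            (Matrix.diagonal (scl (g i) (Nx X)) * M i))) k a *
          (((Matrix.of fun a j => K i j a : Matrix (Ix (g i)) (Fin m) ℤ) a j : ℤ) : ℂ)) =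
          Matrix.diagonal (scl (g i) (Nx X)) * ((Matrix.diagonal (fun k =>
            (scl (g i) (Nx X) k)⁻¹) * (h i * (Matrix.diagonal (scl (g i) (Nx X)) * M i))) *
            (Matrix.of fun a j => ((K i j a : ℤ) : ℂ))) := by
          ext k j
          rw [Matrix.diagonal_mul]
          rfl
        have e3 : Matrix.diagonal (scl (g i) (Nx X)) *
            Matrix.diagonal (fun k => (scl (g i) (Nx X) k)⁻¹) = 1 := by
          rw [Matrix.diagonal_mul_diagonal, ← Matrix.diagonal_one]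
          congr 1
          funext k
          exact mul_inv_cancel₀ (scl_ne (g i) (Nx X) hN k)
        rw [e2, e1]
        calc Matrix.diagonal (scl (g i) (Nx X)) * ((Matrix.diagonal (fun k =>
            (scl (g i) (Nx X) k)⁻¹) * (h i * (Matrix.diagonal (scl (g i) (Nx X)) * M i))) *
            (Matrix.of fun a j => ((K i j a : ℤ) : ℂ)))
            = (Matrix.diagonal (scl (g i) (Nx X)) * Matrix.diagonal (fun k =>
              (scl (g i) (Nx X) k)⁻¹)) * (h i * (Matrix.diagonal (scl (g i) (Nx X)) * (M i *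
              (Matrix.of fun a j => ((K i j a : ℤ) : ℂ))))) := by
              simp only [Matrix.mul_assoc]
          _ = _ := by rw [e3, Matrix.one_mul]
      rw [this]
      exact hne
  exact hT X hX P' hP's hnt (2 * Real.pi * Complex.I) M hne0 hMs hMd hzero

end

end Pool.Agent.GPH.TRANSZ
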