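import Pool.Agent.HGP.Main
import Pool.Agent.GPH.ADM
import Pool.Agent.GPH.ANNUL
import Pool.Agent.GPH.CCom
import Pool.Agent.GPH.CDet
import Pool.Agent.GPH.CDid
import Pool.Agent.GPH.CEN
import Pool.Agent.GPH.CEig
import Pool.Agent.GPH.COVERZ
import Pool.Agent.GPH.Cdmap
import Pool.Agent.GPH.Comms
import Pool.Agent.GPH.DTri
import Pool.Agent.GPH.EHOL
import Pool.Agent.GPH.Ext
import Pool.Agent.GPH.FIBERZ
import Pool.Agent.GPH.FINALZ
import Pool.Agent.GPH.FibH
import Pool.Agent.GPH.Frob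
import Pool.Agent.GPH.Fund
import Pool.Agent.GPH.GG
import Pool.Agent.GPH.GROW
import Pool.Agent.GPH.GeoC
import Pool.Agent.GPH.Geob
import Pool.Agent.GPH.Grp
import Pool.Agent.GPH.GrpB
import Pool.Agent.GPH.Grpa
import Pool.Agent.GPH.Hor
import Pool.Agent.GPH.INDUCZ
import Pool.Agent.GPH.INDZ
import Pool.Agent.GPH.INTF
import Pool.Agent.GPH.LAG
import Pool.Agent.GPH.LIMU
import Pool.Agent.GPH.LINS
import Pool.Agent.GPH.LOCROOTS
import Pool.Agent.GPH.LOCSTR
import Pool.Agent.GPH.LOOPM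
import Pool.Agent.GPH.LOOPS
import Pool.Agent.GPH.LOOPV
import Pool.Agent.GPH.Locf
import Pool.Agent.GPH.Lode
import Pool.Agent.GPH.MZHOL
import Pool.Agent.GPH.ODEE
import Pool.Agent.GPH.ORDEX
import Pool.Agent.GPH.Oku
import Pool.Agent.GPH.P2W
import Pool.Agent.GPH.PIECE
import Pool.Agent.GPH.PRIM
import Pool.Agent.GPH.RIEMZ
import Pool.Agent.GPH.ROOTS
import Pool.Agent.GPH.RZ
import Pool.Agent.GPH.RZREAL
import Pool.Agent.GPH.SCALE
import Pool.Agent.GPH.SEG
import Pool.Agent.GPH.SEGC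
import Pool.Agent.GPH.SHIFT
import Pool.Agent.GPH.STEPZ
import Pool.Agent.GPH.SUBLEV
import Pool.Agent.GPH.TRANSM
import Pool.Agent.GPH.TRANSZ
import Pool.Agent.GPH.ThmF
import Pool.Agent.GPH.ThmGU
import Pool.Agent.GPH.Uniq
import Pool.Agent.GPH.YPROP

/-!
# GPH: assembly
-/

namespace Pool.Agent.GPH.Main

open Pool.Agent.GPH

/-! ## Part II -/

theorem geoC : Stmt_GeoC := geoC_proof
theorem uniq : Stmt_Uniq := uniq_proof
theorem lode : Stmt_Lode := lode_proof
theorem ext : Stmt_Ext := ext_proof geoC lode uniq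
theorem fund : Stmt_Fund := fund_proof geoC lode
theorem locf : Stmt_Locf := locf_proof frob_proof uniq geoC
theorem comms : Stmt_CommS := comms_proof ext grow_proof geoC
theorem shift : Stmt_Shift := shift_proof HGP.logsh_proof geoC
theorem grp : Stmt_Grp := grp_proof grpa_proof (grpb_proof HGP.Main.genb)
theorem thmF : Stmt_ThmF := thmf_proof geob_proof geoC uniq fund locf comms shift grp
theorem ccom : Stmt_CCom := ccom_proof ceig_proof dtri_proof cdet_proof
theorem fibH : Stmt_FibH :=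
  fibh_proof hor_proof oku_proof thmF ceig_proof cdet_proof ccom dtri_proof

/-! ## Part III -/

theorem yprop : Stmt_YProp := YPROP.thm PRIM.thm
theorem limU : Stmt_LimU := LIMU.thm INTF.thm
theorem locStr : Stmt_LocStr := LOCSTR.thm yprop limU
theorem loopV : Stmt_LoopV := LOOPV.thm locStr
theorem segC : Stmt_SegC := SEGC.thm INTF.thm
theorem seg : Stmt_Seg := SEG.thm yprop segC
theorem loops : Stmt_Loops := LOOPS.thm seg loopV CEN.thm
theorem odeE : Stmt_OdeE := ODEE.thm ADM.thm ANNUL.thm EHOL.thm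

/-! ## Parts IV and V -/

theorem rz : Stmt_RZ := RZ.thm RZREAL.thm EHOL.thm HGP.Main.riem
theorem locRoots : Stmt_LocRoots := LOCROOTS.thm ROOTS.thm ORDEX.thm
theorem loopM : Stmt_LoopM := LOOPM.thm loops
theorem mzHol : Stmt_MzHol := MZHOL.thm EHOL.thm
theorem fiberZ : Stmt_FiberZ := FIBERZ.thm rz odeE cDid_proof fibH
theorem pieceEx : Stmt_PieceEx := PIECE.thm locRoots mzHol rz loopM fiberZ LAG.thm cdmap_proof
theorem gg : Stmt_GG := GG.thm P2W.thm cdmap_proof cdet_proof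
theorem coverZ : Stmt_CoverZ := COVERZ.thm gg pieceEx SUBLEV.thm
theorem transZ : Stmt_TransZ := TRANSZ.thm LINS.thm SCALE.thm TRANSM.thm
theorem stepZ : Stmt_StepZ := STEPZ.thm INDZ.thm
theorem inducZ : Stmt_InducZ := INDUCZ.thm stepZ
theorem riemZ : Stmt_RiemZ := RIEMZ.thm locRoots loopM rz
theorem finalZ : Stmt_FinalZ := FINALZ.thm coverZ transZ inducZ

end Pool.Agent.GPH.Main
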