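import Pool.Agent.HGP.Sealed

/-!
# Periods of hyperelliptic curves over the rational numbers: definitions of the statement

The curve is `y ^ 2 = f x` with `f` monic of degree `2 g + 1`. `HGP.Ix g` is the index type
`Fin g ⊕ Fin g`, `HGP.Simil lam M` means `Mᵀ J M = lam J`, and `GPC.IsSmall P D B` means: `P` has
total degree at most `D` and all its coefficients have absolute value at most `B`.
-/

open scoped BigOperators
open Pool.Agent.HGP (Ix Simil)

namespace Pool.Agent.GPH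

noncomputable section

/-- The monic polynomial `x ^ n + ∑ c_i x ^ i`. -/
def pol (n : ℕ) (c : Fin n → ℂ) : Polynomial ℂ :=
  Polynomial.X ^ n + ∑ i, Polynomial.C (c i) * Polynomial.X ^ (i : ℕ)

/-- A closed path on the affine curve `y ^ 2 = f x`, avoiding the points with `y = 0`. -/
structure CPath (f : Polynomial ℂ) where
  /-- the coordinate `x` -/
  x : ℝ → ℂ
  /-- the coordinate `y` -/
  y : ℝ → ℂ
  hx : ContDiff ℝ 1 x
  hy : Continuous y
  curve : ∀ t, y t ^ 2 = f.eval (x t)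
  ne : ∀ t, y t ≠ 0
  closedx : x 1 = x 0
  closedy : y 1 = y 0

/-- The period `∮ p dx / y`. -/
def CPath.per {f : Polynomial ℂ} (γ : CPath f) (p : Polynomial ℂ) : ℂ :=
  ∫ t in (0 : ℝ)..1, p.eval (γ.x t) / γ.y t * deriv γ.x t

/-- The numerators `p` of the basis `p dx / y` of the first de Rham cohomology: `x ^ j`
(`j < g`) and `η_j = ∑ n, (n - 2 j - 2) / 4 * f_n * x ^ (n - 2 - j)`, where `f_n` are the
coefficients of `f`. -/
def num (g : ℕ) (f : Polynomial ℂ) : Ix g → Polynomial ℂ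
  | .inl j => Polynomial.X ^ (j : ℕ)
  | .inr j => ∑ n ∈ Finset.Ico (2 * (j : ℕ) + 3) (2 * g + 2),
      Polynomial.C (((n : ℂ) - 2 * (j : ℕ) - 2) / 4 * f.coeff n) *
        Polynomial.X ^ (n - 2 - (j : ℕ))

/-- The matrix of the periods of the basis along `m` closed paths. -/
def perMat (g : ℕ) {m : ℕ} {f : Polynomial ℂ} (γ : Fin m → CPath f) :
    Matrix (Ix g) (Fin m) ℂ :=
  Matrix.of fun k j => (γ j).per (num g f k)

/-- The point with coordinates `lam`, `M i`. -/
def tpt {r m : ℕ} {g : Fin r → ℕ} (lam : ℂ) (M : ∀ i, Matrix (Ix (g i)) (Fin m) ℂ) :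
    Option (Σ i : Fin r, Ix (g i) × Fin m) → ℂ :=
  fun o => o.elim lam (fun p => M p.1 p.2.1 p.2.2)

/-- There are `m` closed paths on each of the curves `y ^ 2 = f_i x`, `f_i = pol (2 g_i + 1) c_i`,
with all periods of absolute value at most `B'`, such that some polynomial relation of complexity
`(D, B)` holds at the point `(2 π i, M_1, ..., M_r)`, `M_i` the period matrices, but not at all
the points `(mu 2 π i, h_1 M_1, ..., h_r M_r)` with `h_i` symplectic similitudes with the common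
multiplier `mu ≠ 0`. -/
def Bad {r : ℕ} {g : Fin r → ℕ} (m D B B' : ℕ) (c : ∀ i, Fin (2 * g i + 1) → ℤ) : Prop :=
  ∃ γ : ∀ i, Fin m → CPath (pol (2 * g i + 1) (fun k => (c i k : ℂ))),
    (∀ i j k, ‖(γ i j).per (num (g i) (pol (2 * g i + 1) (fun k => (c i k : ℂ))) k)‖ ≤ B') ∧
    ∃ P : MvPolynomial (Option (Σ i : Fin r, Ix (g i) × Fin m)) ℤ, GPC.IsSmall P D B ∧
      MvPolynomial.aeval (tpt (2 * Real.pi * Complex.I) (fun i => perMat (g i) (γ i))) P = 0 ∧
      ∃ (mu : ℂ) (h : ∀ i, Matrix (Ix (g i)) (Ix (g i)) ℂ), mu ≠ 0 ∧ (∀ i, Simil mu (h i)) ∧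
        MvPolynomial.aeval
          (tpt (mu * (2 * Real.pi * Complex.I)) (fun i => h i * perMat (g i) (γ i))) P ≠ 0

/-- The box `|c_i| ≤ X ^ (2 g + 1 - i)` for `i < 2 g`, and `c_(2 g) = 0`: the integral equations
`y ^ 2 = x ^ (2 g + 1) + a_2 x ^ (2 g - 1) + ... + a_(2 g + 1)` with `|a_k| ≤ X ^ k`. -/
def box (g X : ℕ) : Finset (Fin (2 * g + 1) → ℤ) :=
  Fintype.piFinset fun i => if (i : ℕ) = 2 * g then {0} else
    Finset.Icc (-(X : ℤ) ^ (2 * g + 1 - (i : ℕ))) ((X : ℤ) ^ (2 * g + 1 - (i : ℕ)))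

end

end Pool.Agent.GPH
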