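import Pool.Agent.GPH.Sealed
import Pool.Agent.GPH.IDefs
import Pool.Agent.GPH.IIIDefs
import Pool.Agent.HGP.Stmts

/-!
# GPH, part V: definitions for the transfer and the counting
-/

open scoped BigOperators Topology
open Metric Set
open Pool.Agent.HGP (Ix Simil Idx fvec opt)

namespace Pool.Agent.GPH

noncomputable section

/-- The polynomial `x ^ (2 g + 1) + ∑ u_i x ^ (i + 1) + s`. -/
def fus (g : ℕ) (u : Fin (2 * g) → ℂ) (s : ℂ) : Polynomial ℂ := pol (2 * g + 1) (Fin.cons s u)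

/-- The coefficients of the numerators. -/
def Nm (g : ℕ) (f : Polynomial ℂ) : Matrix (Ix g) (Fin (2 * g)) ℂ :=
  Matrix.of fun k l => (num g f k).coeff (l : ℕ)

/-- The unimodular matrix which expresses the symplectic basis `α_i = e_{2 i}`,
`β_i = ∑ m ≥ i, e_{2 m + 1}` by the cycles `e_m`. -/
def Tm (g : ℕ) : Matrix (Ix g) (Fin (2 * g)) ℂ :=
  Matrix.of fun c m => match c with
    | .inl i => if (m : ℕ) = 2 * (i : ℕ) then 1 else 0
    | .inr i => if (m : ℕ) % 2 = 1 ∧ 2 * (i : ℕ) < (m : ℕ) then 1 else 0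

/-- The period matrix of the numerators along the symplectic basis, if `Pm` has the rows `e_m`
and the columns `x ^ l dx / y`. -/
def perM (g : ℕ) (f : Polynomial ℂ) (Pm : Matrix (Fin (2 * g)) (Fin (2 * g)) ℂ) :
    Matrix (Ix g) (Ix g) ℂ :=
  Nm g f * Pm.transpose * (Tm g).transpose

/-- The reference periods `e_m = 2 I ^ m E_m`. -/
def refP (g : ℕ) (z : ℕ → ℂ) : Matrix (Fin (2 * g)) (Fin (2 * g)) ℂ :=
  Matrix.of fun m l => 2 * Complex.I ^ (m : ℕ) * EE (2 * g + 1) z m l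

/-- The polynomial with the roots `z 0, …, z (2 g)`. -/
def polz (g : ℕ) (z : ℕ → ℂ) : Polynomial ℂ :=
  ∏ i ∈ Finset.range (2 * g + 1), (Polynomial.X - Polynomial.C (z i))

/-- The period matrix of the curve with the ordered branch points `z`. -/
def Mz (g : ℕ) (z : ℕ → ℂ) : Matrix (Ix g) (Ix g) ℂ := perM g (polz g z) (refP g z)

/-- Local period matrices of the polynomials near a given polynomial, with all the properties
used in the counting. -/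
structure Piece (g : ℕ) where
  u0 : Fin (2 * g) → ℂ
  s0 : ℂ
  δ : ℝ
  ρ : ℝ
  M : (Fin (2 * g) → ℂ) → ℂ → Matrix (Ix g) (Ix g) ℂ
  hδ : 0 < δ
  hρ : 0 < ρ
  cont : ContinuousOn (fun q : (Fin (2 * g) → ℂ) × ℂ => M q.1 q.2)
    (closedBall u0 δ ×ˢ ball s0 (10 * ρ))
  hol : ∀ u ∈ closedBall u0 δ, ∀ k c, DifferentiableOn ℂ (fun s => M u s k c)
    (ball s0 (10 * ρ))
  simil : ∀ u ∈ closedBall u0 δ, ∀ s ∈ ball s0 (10 * ρ),
    Simil (2 * Real.pi * Complex.I) (M u s)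
  det : ∀ u ∈ closedBall u0 δ, ∀ s ∈ ball s0 (10 * ρ), (M u s).toBlocks₁₁.det ≠ 0
  fiber : ∀ u ∈ closedBall u0 δ, ∀ P : MvPolynomial (Option (Ix g × Ix g)) ℂ,
    (∀ s ∈ ball s0 (10 * ρ), MvPolynomial.eval (opt s (fun p => M u s p.1 p.2)) P = 0) →
    ∀ s ∈ ball s0 (10 * ρ), ∀ M' : Matrix (Ix g) (Ix g) ℂ,
      Simil (2 * Real.pi * Complex.I) M' →
      MvPolynomial.eval (opt s (fun p => M' p.1 p.2)) P = 0
  loops : ∀ u ∈ closedBall u0 δ, ∀ s ∈ ball s0 (10 * ρ), ∀ γ : CPath (fus g u s),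
    ∃ K : Ix g → ℤ, ∀ k, γ.per (num g (fus g u s) k) = ∑ c, M u s k c * K c

/-- Normalised nonconstant coefficients. -/
def un (g Y : ℕ) (c : Fin (2 * g + 1) → ℤ) : Fin (2 * g) → ℂ :=
  fun i => (c i.succ : ℂ) / (Y : ℂ) ^ (2 * g - (i : ℕ))

/-- Normalised constant coefficient. -/
def sn (g Y : ℕ) (c : Fin (2 * g + 1) → ℤ) : ℚ := (c 0 : ℚ) / (Y : ℚ) ^ (2 * g + 1)

/-- A square root of the normalising factor. -/
def Nx (X : ℕ) : ℕ := Nat.sqrt X + 1

/-- The normalising factor, a square larger than `X`. -/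
def Yx (X : ℕ) : ℕ := Nx X ^ 2

/-- The normalised polynomial belongs to the region of `π`. -/
def InP {g : ℕ} (π : Piece g) (Y : ℕ) (c : Fin (2 * g + 1) → ℤ) : Prop :=
  un g Y c ∈ closedBall π.u0 π.δ ∧ ((sn g Y c : ℚ) : ℂ) ∈ closedBall π.s0 π.ρ

/-- The vector of constants attached to the tuple `c`. -/
def cvecZ {r : ℕ} {g : Fin r → ℕ} (π : ∀ i, Piece (g i)) (Y : ℕ)
    (c : ∀ i, Fin (2 * g i + 1) → ℤ) : Option (Σ i : Fin r, Idx (g i)) → ℂ :=
  opt (2 * Real.pi * Complex.I) (fun p =>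
    fvec ((π p.1).M (un (g p.1) Y (c p.1)) ((sn (g p.1) Y (c p.1) : ℚ) : ℂ)) p.2)

/-- The effect of the scaling `x ↦ N ^ 2 x` on the numerators. -/
def scl (g N : ℕ) : Ix g → ℂ
  | .inl j => (N : ℂ) ^ (2 * ((j : ℕ) : ℤ) + 1 - 2 * (g : ℤ))
  | .inr j => (N : ℂ) ^ (2 * (g : ℤ) - 2 * ((j : ℕ) : ℤ) - 1)

end

end Pool.Agent.GPH
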