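import Pool.Agent.GPH.VDefs

/-!
# GPH, parts IV and V: exact statements of the modules
-/

open scoped BigOperators Topology
open Metric Set
open Pool.Agent.HGP (Ix Simil Idx fvec opt)
open Pool.Agent.GPC (IsSmall Free)

namespace Pool.Agent.GPH

noncomputable section

/-! ## Part IV: Riemann relations, local period matrices -/

/-- RZREAL: the period matrix at real branch points. -/
def Stmt_RZReal : Prop := ∀ (g : ℕ) (a : ℕ → ℝ), 0 < g → StrictMono a → ∀ t : ℝ,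
  a (2 * g - 1) < t →
  Mz g (fun i => if i < 2 * g then ((a i : ℝ) : ℂ) else (t : ℂ)) = HGP.Per g a t

/-- RZ: Riemann's bilinear relations for complex branch points. -/
def Stmt_RZ : Prop := ∀ (g : ℕ) (κ : ℂ) (z : ℕ → ℂ), 0 < g → Ord (2 * g + 1) κ z →
  Simil (2 * Real.pi * Complex.I) (Mz g z)

/-- LOCROOTS: ordered roots near a polynomial with simple roots. -/
def Stmt_LocRoots : Prop := ∀ (g : ℕ) (u0 : Fin (2 * g) → ℂ) (s0 : ℂ),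
  (fus g u0 s0).Separable → ∃ (δ R : ℝ) (κ : ℂ) (z : ℕ → (Fin (2 * g) → ℂ) → ℂ → ℂ),
    0 < δ ∧ 0 < R ∧
    (∀ i, ContinuousOn (fun q : (Fin (2 * g) → ℂ) × ℂ => z i q.1 q.2)
      (closedBall u0 δ ×ˢ ball s0 R)) ∧
    (∀ i, ∀ u ∈ closedBall u0 δ, DifferentiableOn ℂ (z i u) (ball s0 R)) ∧
    ∀ u ∈ closedBall u0 δ, ∀ s ∈ ball s0 R, Ord (2 * g + 1) κ (fun i => z i u s) ∧
      fus g u s = polz g (fun i => z i u s)

/-- LOOPM: the periods of closed paths are integral combinations of the columns of `Mz`. -/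
def Stmt_LoopM : Prop := ∀ (g : ℕ) (κ : ℂ) (z : ℕ → ℂ), 0 < g → Ord (2 * g + 1) κ z →
  ∀ γ : CPath (polz g z), ∃ K : Ix g → ℤ, ∀ k, γ.per (num g (polz g z) k) =
    ∑ c, Mz g z k c * K c

/-- MZHOL: the period matrix depends continuously on the roots, and holomorphically on a
parameter. -/
def Stmt_MzHol : Prop := ∀ (g : ℕ) (κ : ℂ), 0 < g →
  (∀ (T : Type) [TopologicalSpace T] (S : Set T) (z : ℕ → T → ℂ), (∀ i, ContinuousOn (z i) S) →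
    (∀ q ∈ S, Ord (2 * g + 1) κ (fun i => z i q)) →
    ContinuousOn (fun q => Mz g (fun i => z i q)) S) ∧
  ∀ (V : Set ℂ) (z : ℕ → ℂ → ℂ), IsOpen V → (∀ i, DifferentiableOn ℂ (z i) V) →
    (∀ s ∈ V, Ord (2 * g + 1) κ (fun i => z i s)) → ∀ k c,
    DifferentiableOn ℂ (fun s => Mz g (fun i => z i s) k c) V

/-- LAG: a symplectic change of basis with integral entries moves a period matrix into the big
cell. -/
def Stmt_Lag : Prop := ∀ (g : ℕ) (M : Matrix (Ix g) (Ix g) ℂ) (lam : ℂ), lam ≠ 0 →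
  Simil lam M → ∃ K : Matrix (Ix g) (Ix g) ℤ, Simil 1 (K.map (fun x : ℤ => (x : ℂ))) ∧
    (M * K.map (fun x : ℤ => (x : ℂ))).toBlocks₁₁.det ≠ 0

/-! ## Part V: transfer -/

/-- TRANSM: relations on the torsor give relations between the coordinates. -/
def Stmt_TransM : Prop := ∀ (r : ℕ) (g : Fin r → ℕ) (D A : ℕ), ∃ D1 A1 : ℕ, ∀ H : ℕ, 2 ≤ H →
  ∀ P : MvPolynomial (Option (Σ i : Fin r, Ix (g i) × Ix (g i))) ℤ, IsSmall P D (H ^ A) →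
  HGP.NonTrivial P → ∀ (lam : ℂ) (M : ∀ i, Matrix (Ix (g i)) (Ix (g i)) ℂ), lam ≠ 0 →
  (∀ i, Simil lam (M i)) → (∀ i, (M i).toBlocks₁₁.det ≠ 0) →
  MvPolynomial.aeval (HGP.tpt lam M) P = 0 →
  ¬ Free D1 (H ^ A1) (opt lam (fun p : Σ i : Fin r, Idx (g i) => fvec (M p.1) p.2))

/-- LINS: linear substitutions. -/
def Stmt_LinS : Prop := ∀ (r m : ℕ) (g : Fin r → ℕ) (D A B : ℕ), ∃ A1 : ℕ, ∀ X : ℕ, 2 ≤ X →
  ∀ P : MvPolynomial (Option (Σ i : Fin r, Ix (g i) × Fin m)) ℤ, IsSmall P D (X ^ A) →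
  ∀ K : ∀ i, Matrix (Ix (g i)) (Fin m) ℤ, (∀ i c j, (K i c j).natAbs ≤ X ^ B) →
  ∃ (P' : MvPolynomial (Option (Σ i : Fin r, Ix (g i) × Ix (g i))) ℤ) (e : ℕ),
    IsSmall P' D (X ^ A1) ∧
    ∀ (lam : ℂ) (M : ∀ i, Matrix (Ix (g i)) (Ix (g i)) ℂ),
      MvPolynomial.aeval (HGP.tpt lam M) P' = (Nx X : ℂ) ^ e * MvPolynomial.aeval
        (tpt lam (fun i => Matrix.of fun k j =>
          scl (g i) (Nx X) k * ∑ c, M i k c * (K i c j : ℂ))) P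

/-- SCALE: closed paths on the normalised curve. -/
def Stmt_Scale : Prop := ∀ (g : ℕ) (N : ℕ) (c : Fin (2 * g + 1) → ℤ), 0 < g → 0 < N →
  ∀ γ : CPath (pol (2 * g + 1) (fun k => (c k : ℂ))),
  ∃ γ' : CPath (fus g (un g (N ^ 2) c) ((sn g (N ^ 2) c : ℚ) : ℂ)), ∀ k,
    γ.per (num g (pol (2 * g + 1) (fun k => (c k : ℂ))) k) =
      scl g N k * γ'.per (num g (fus g (un g (N ^ 2) c) ((sn g (N ^ 2) c : ℚ) : ℂ)) k)

/-- TRANSZ -/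
def Stmt_TransZ : Prop := ∀ (r : ℕ) (g : Fin r → ℕ), (∀ i, 0 < g i) →
  ∀ (π : ∀ i, Piece (g i)) (m D A B : ℕ), ∃ D1 A1 : ℕ, ∀ X : ℕ, 2 ≤ X →
  ∀ c : ∀ i, Fin (2 * g i + 1) → ℤ, (∀ i, c i ∈ box (g i) X ∧ InP (π i) (Yx X) (c i)) →
  Bad m D (X ^ A) (X ^ B) c → ¬ Free D1 (X ^ A1) (cvecZ π (Yx X) c)

/-! ## Part V: counting -/

/-- INDZ: algebraic independence of the coordinates of the period matrix in a piece. -/
def Stmt_IndZ : Prop := ∀ (g : ℕ), 0 < g → ∀ π : Piece g, ∀ u ∈ closedBall π.u0 π.δ,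
  ∀ Q : MvPolynomial (Option (Idx g)) ℂ,
    (∀ z ∈ ball π.s0 (10 * π.ρ), MvPolynomial.eval (opt z (fvec (π.M u z))) Q = 0) → Q = 0

/-- STEPZ: one curve. -/
def Stmt_StepZ : Prop := ∀ (g : ℕ), 0 < g → ∀ (π : Piece g) (ε : ℝ), 0 < ε →
  ∀ (κ : Type) [Fintype κ] (D A : ℕ), ∃ C : ℝ, ∀ H : ℕ, 1 ≤ H → ∀ c : κ → ℂ,
  Free D (H ^ A) c → ∀ u ∈ closedBall π.u0 π.δ, ∀ T : Finset ℚ,
    (∀ r ∈ T, ((r : ℚ) : ℂ) ∈ closedBall π.s0 π.ρ ∧ r.num.natAbs ≤ H ∧ r.den ≤ H ∧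
      ¬ Free D (H ^ A) (Sum.elim c (fvec (π.M u ((r : ℚ) : ℂ))))) →
    (T.card : ℝ) ≤ C * (H : ℝ) ^ ε

/-- INDUCZ: tuples of curves. -/
def Stmt_InducZ : Prop := ∀ (r : ℕ) (g : Fin r → ℕ), (∀ i, 0 < g i) →
  ∀ (π : ∀ i, Piece (g i)) (D A : ℕ), ∃ C : ℝ, ∀ X : ℕ, 1 ≤ X →
    (Nat.card {c : ∀ i, Fin (2 * g i + 1) → ℤ //
      (∀ i, c i ∈ box (g i) X ∧ InP (π i) (Yx X) (c i)) ∧
        ¬ Free D (X ^ A) (cvecZ π (Yx X) c)} : ℝ) * X ≤ C * ∏ i, ((box (g i) X).card : ℝ)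

/-- SUBLEV: the values of a nonzero polynomial at most points of a fine grid are not small. -/
def Stmt_Sublev : Prop := ∀ (n : ℕ) (G : MvPolynomial (Fin n) ℝ), G ≠ 0 → ∀ (L : ℕ) (η : ℝ),
  0 < η → ∃ (δ : ℝ) (X0 : ℕ), 0 < δ ∧ ∀ B q : Fin n → ℕ,
    (∀ i, X0 ≤ B i ∧ 0 < B i ∧ B i ≤ q i ∧ q i ≤ L * B i) →
    (Nat.card {c : Fin n → ℤ // (∀ i, (c i).natAbs ≤ B i) ∧
      |MvPolynomial.eval (fun i => (c i : ℝ) / (q i : ℝ)) G| < δ} : ℝ) ≤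
        η * ∏ i, (2 * (B i : ℝ) + 1)

/-- COVERZ: finitely many pieces cover most of the box. -/
def Stmt_CoverZ : Prop := ∀ (g : ℕ), 0 < g → ∀ η : ℝ, 0 < η →
  ∃ (n : ℕ) (π : Fin n → Piece g) (X0 : ℕ), ∀ X : ℕ, X0 ≤ X →
    (Nat.card {c : Fin (2 * g + 1) → ℤ // c ∈ box g X ∧ ∀ j, ¬ InP (π j) (Yx X) c} : ℝ) ≤
      η * ((box g X).card : ℝ)

/-- FINALZ -/
def Stmt_FinalZ : Prop := ∀ (r : ℕ) (g : Fin r → ℕ), (∀ i, 0 < g i) → ∀ m D A B : ℕ,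
  Filter.Tendsto (fun X : ℕ =>
    (Nat.card {c : ∀ i, Fin (2 * g i + 1) → ℤ // (∀ i, c i ∈ box (g i) X) ∧
      Bad m D (X ^ A) (X ^ B) c} : ℝ) / ∏ i, ((box (g i) X).card : ℝ)) Filter.atTop (𝓝 0)

/-- RIEMZ: Riemann's bilinear relations for closed paths. -/
def Stmt_RiemZ : Prop := ∀ (g : ℕ), 0 < g → ∀ c : Fin (2 * g + 1) → ℂ,
  (pol (2 * g + 1) c).Separable → ∀ (m : ℕ) (γ : Fin m → CPath (pol (2 * g + 1) c)),
  ∃ N : Matrix (Fin m) (Fin m) ℤ, (perMat g γ).transpose * Matrix.J (Fin g) ℂ * perMat g γ =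
    (2 * Real.pi * Complex.I) • N.map (fun x : ℤ => (x : ℂ))

end

end Pool.Agent.GPH
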